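import Pool.Agent.VCI.Trd2
import Pool.Agent.VGS.PlaceP

/-! Complete intersections: existence of the moving point. -/

set_option autoImplicit false

open MvPolynomial

namespace Pool.Agent.VCI

open Pool.Agent.VGS

/-- an automorphism which carries an independent family to another one -/
theorem db_exists_fix_ai (k : Fl) [Countable k] {ι : Type} [Finite ι] {x y : ι → ℂ}
    (hx : AlgebraicIndependent k x) (hy : AlgebraicIndependent k y) :
    ∃ σ ∈ VGS.Fix k, ∀ i, σ (x i) = y i := by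
  obtain ⟨n, ⟨e⟩⟩ := Finite.exists_equiv_fin ι
  have hx' : AlgebraicIndependent k (x ∘ e.symm) := hx.comp _ e.symm.injective
  have hy' : AlgebraicIndependent k (y ∘ e.symm) := hy.comp _ e.symm.injective
  obtain ⟨σ, hσ, h⟩ := exists_fix k (x ∘ e.symm) (y ∘ e.symm) fun P hP => by
    constructor
    · intro h
      rw [ai_iff.1 hx' P hP h, map_zero]
    · intro h
      rw [ai_iff.1 hy' P hP h, map_zero]
  refine ⟨σ, hσ, fun i => ?_⟩
  have := h (e i)
  simpa using this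

/-- an automorphism over `k` maps `clo (k (S))` to `clo (k (T))` if it maps `S` to `k (T)` -/
theorem map_clo_adj {k : Fl} {σ : ℂ ≃+* ℂ} (hσ : σ ∈ VGS.Fix k) {S T : Set ℂ}
    (h : ∀ x ∈ S, σ x ∈ adj k T) {x : ℂ} (hx : x ∈ clo (adj k S)) : σ x ∈ clo (adj k T) := by
  have h1 : adj k S ≤ (adj k T).comap (AlgHom.mk (σ : ℂ →+* ℂ) (by
      intro r
      exact map_ratCast _ r) : ℂ →ₐ[ℚ] ℂ) := by
    refine adj_le ?_ ?_
    · intro y hy
      change σ y ∈ adj k T
      rw [hσ y hy]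
      exact le_adj k T hy
    · intro y hy
      exact h y hy
  have h2 : ∀ y ∈ adj k S, σ y ∈ adj k T := fun y hy => h1 hy
  rw [mem_clo_iff_exists] at hx ⊢
  obtain ⟨p, hp0, hL, hp⟩ := hx
  refine ⟨p.map (σ : ℂ →+* ℂ), (Polynomial.map_ne_zero_iff σ.injective).2 hp0, fun n => ?_, ?_⟩
  · rw [Polynomial.coeff_map]
    exact h2 _ (hL n)
  · have h3 := Polynomial.eval_map_apply (p := p) (f := (σ : ℂ →+* ℂ)) x
    rw [hp, map_zero] at h3
    exact h3

/-- Existence of the dilated point. Proof: `u ∉ clo E`, `E = k₁ (a)`, a place `V'` over `clo E` with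
`u → 0`; `s₀ = (q - u c) / (1 - u)`, `a' i = - (G i - a i X_j ^ d i) (s₀) → a i`; `sp_ai`: `(a', u)`
is independent over `k₁`, so there is `σ ∈ Fix k₁`, `σ u = u`, `σ (a' i) = a i`; `s = σ s₀`,
`V = σ V'`; `ai_span` for `s ∈ clo (E (u))`; `sp_isPl`, transported, for `IsPl V (clo E)`; the limit
`w` is obtained from `exists_sp`-like lemmas since `s` is in `V`. -/
theorem dil_us (k₁ : Fl) [Countable k₁] {n r : ℕ} (j : Fin n) {d : Fin r → ℕ}
    (G : Fin r → MvPolynomial (Fin n) ℂ) (a : Fin r → ℂ) (ha : AlgebraicIndependent k₁ a)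
    (hG₀ : ∀ i, Coef k₁ (G i - C (a i) * X j ^ d i)) (q : Fin n → ℂ) (hq0 : ∀ i < j, q i = 0)
    (hqj : q j = 1) (hqG : ∀ i, aeval q (G i) = 0)
    (hqC : ∀ i, q i ∈ clo (adj k₁ (Set.range a))) (c : Fin n → ℂ) (hcZ : ∀ i, ∃ m : ℤ, c i = m)
    (hcj : c j = 1) (hc0 : ∀ i < j, c i = 0) :
    ∃ (u : ℂ) (s : Fin n → ℂ) (V : ValuationSubring ℂ) (w : Fin n → ℂ),
      u ∉ clo (adj k₁ (Set.range a)) ∧ (∀ i < j, s i = 0) ∧ s j = 1 ∧ (∀ i, aeval s (G i) = 0) ∧
      InD k₁ q (fun i => (1 - u) * s i + u * c i) ∧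
      (∀ i, s i ∈ clo (adj (adj k₁ (Set.range a)) {u})) ∧
      IsPl V (clo (adj k₁ (Set.range a))) ∧ Sp V (clo (adj k₁ (Set.range a))) u 0 ∧
      ∀ i, Sp V (clo (adj k₁ (Set.range a))) (s i) (w i) := by
  classical
  have : Countable (Set.range a) := (Set.finite_range a).countable.to_subtype
  have hcK : Countable (clo (adj k₁ (Set.range a))) := inferInstance
  have hKK : clo (clo (adj k₁ (Set.range a))) = clo (adj k₁ (Set.range a)) := clo_clo _
  have hkK : k₁ ≤ clo (adj k₁ (Set.range a)) := (le_adj _ _).trans (le_clo _)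
  have haE : ∀ l, a l ∈ adj k₁ (Set.range a) := fun l => subset_adj _ _ ⟨l, rfl⟩
  have haK : ∀ l, a l ∈ clo (adj k₁ (Set.range a)) := fun l => le_clo _ (haE l)
  obtain ⟨u, hu⟩ := exists_notMem (clo (adj k₁ (Set.range a)))
  obtain ⟨V', hV', hu'⟩ := exists_place hKK hu (zero_mem _)
  have hu0 : u ≠ 0 := by
    rintro rfl
    exact hu (zero_mem _)
  have hu1 : 1 - u ≠ 0 := by
    intro h
    apply hu
    rw [← sub_eq_zero.1 h]
    exact one_mem _
  have hck : ∀ i, c i ∈ k₁ := fun i => by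
    obtain ⟨m, hm⟩ := hcZ i
    rw [hm]; exact intCast_mem k₁ m
  -- the dilated point with the wrong coefficients
  set s₀ : Fin n → ℂ := fun i => (q i - u * c i) / (1 - u) with hs₀
  have hs₀s : ∀ i, Sp V' (clo (adj k₁ (Set.range a))) (s₀ i) (q i) := by
    intro i
    have h1 := ((Sp.const hV' (hqC i)).sub hV' (hu'.mul hV' (Sp.const hV' (hkK (hck i))))).div hV'
      ((Sp.const hV' (one_mem _)).sub hV' hu') (by rw [sub_zero]; exact one_ne_zero)
    rwa [zero_mul, sub_zero, sub_zero, div_one] at h1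
  have hs₀j : s₀ j = 1 := by
    rw [hs₀]
    simp only [hqj, hcj, mul_one]
    exact div_self hu1
  have hs₀q : ∀ i, (1 - u) * s₀ i + u * c i = q i := by
    intro i
    rw [hs₀]
    simp only
    rw [mul_div_cancel₀ _ hu1]
    ring
  set a' : Fin r → ℂ := fun l => -aeval s₀ (G l - C (a l) * X j ^ d l) with ha'
  have ha's : ∀ l, Sp V' (clo (adj k₁ (Set.range a))) (a' l) (a l) := by
    intro l
    have h1 := (Sp.aeval hV' ((hG₀ l).mono hkK) hs₀s).neg hV'
    have h2 : -aeval q (G l - C (a l) * X j ^ d l) = a l := by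
      rw [map_sub, hqG l]
      simp [hqj]
    rw [h2] at h1
    exact h1
  have hai' : AlgebraicIndependent k₁ (Sum.elim a' fun _ : Unit => u) :=
    sp_ai hV' hkK ha's ha hu0 hu'
  have hai : AlgebraicIndependent k₁ (Sum.elim a fun _ : Unit => u) :=
    sp_ai hV' hkK (fun l => Sp.const hV' (haK l)) ha hu0 hu'
  obtain ⟨σ, hσ, hσi⟩ := db_exists_fix_ai k₁ hai' hai
  have hσa : ∀ l, σ (a' l) = a l := fun l => hσi (Sum.inl l)
  have hσu : σ u = u := hσi (Sum.inr ())
  have hσc : ∀ i, σ (c i) = c i := fun i => hσ _ (hck i)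
  have hσsymm : ∀ x, σ.symm (σ x) = x := σ.symm_apply_apply
  -- the transported place
  obtain ⟨V, hVdef⟩ : ∃ V : ValuationSubring ℂ, V = V'.comap (σ.symm : ℂ →+* ℂ) := ⟨_, rfl⟩
  have hVm : ∀ x, x ∈ V ↔ σ.symm x ∈ V' := fun x => by
    rw [hVdef]; exact ValuationSubring.mem_comap
  have hVval : ∀ x, V.valuation x < 1 ↔ V'.valuation (σ.symm x) < 1 := by
    intro x
    rw [pp_lt_one_iff, pp_lt_one_iff, hVm, map_inv₀]
    simp
  have hVpl : IsPl V (clo (adj k₁ (Set.range a))) := by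
    intro x hx
    rw [hVm]
    apply sp_isPl hV' hkK ha's ha
    refine map_clo_adj (σ := σ.symm) ((VGS.Fix k₁).inv_mem hσ) ?_ hx
    rintro _ ⟨l, rfl⟩
    rw [← hσa l, hσsymm]
    exact subset_adj _ _ ⟨l, rfl⟩
  have hVu : Sp V (clo (adj k₁ (Set.range a))) u 0 := by
    refine ⟨zero_mem _, ?_⟩
    rw [sub_zero, hVval]
    have h1 : σ.symm u = u := by rw [← hσu, hσsymm, hσu]
    rw [h1]
    have := hu'.2
    rwa [sub_zero] at this
  have hsV : ∀ i, σ (s₀ i) ∈ V := by
    intro i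
    rw [hVm, hσsymm]
    exact (hs₀s i).mem hV'
  have hs₀K : ∀ L : Fl, k₁ ≤ L → (∀ l, a l ∈ L) → u ∈ L → ∀ i, s₀ i ∈ clo L := by
    intro L hkL haL huL i
    have h1 : q i ∈ clo L := by
      refine clo_mono (adj_le hkL ?_) (hqC i)
      rintro _ ⟨l, rfl⟩
      exact haL l
    exact div_mem (sub_mem h1 (mul_mem (le_clo _ huL) (le_clo _ (hkL (hck i)))))
      (sub_mem (one_mem _) (le_clo _ huL))
  have hr : ∀ x : Fin r → ℂ, Set.range (Sum.elim x fun _ : Unit => u) = Set.range x ∪ {u} := by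
    intro x
    rw [Set.Sum.elim_range]
    congr 1
    ext z
    simp [eq_comm]
  have hspan : ∀ e, (Sum.elim a fun _ : Unit => u) e ∈
      clo (adj k₁ (Set.range (Sum.elim a' fun _ : Unit => u))) := by
    refine ai_span hai' le_rfl ?_
    have h0 : ∀ i, s₀ i ∈ clo (adj k₁ (Set.range (Sum.elim a fun _ : Unit => u))) :=
      hs₀K _ (le_adj _ _) (fun l => subset_adj _ _ ⟨Sum.inl l, rfl⟩)
        (subset_adj _ _ ⟨Sum.inr (), rfl⟩)
    rintro (l | _)
    · exact neg_mem (aeval_mem ((hG₀ l).mono ((le_adj _ _).trans (le_clo _))) h0)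
    · exact le_clo _ (subset_adj _ _ ⟨Sum.inr (), rfl⟩)
  have hsK : ∀ i, σ (s₀ i) ∈ clo (adj (adj k₁ (Set.range a)) {u}) := by
    intro i
    rw [adj_adj]
    refine map_clo_adj hσ (S := Set.range a' ∪ {u}) ?_ ?_
    · rintro _ (⟨l, rfl⟩ | h)
      · rw [hσa l]
        exact subset_adj _ _ (Or.inl ⟨l, rfl⟩)
      · rw [Set.mem_singleton_iff.1 h, hσu]
        exact subset_adj _ _ (Or.inr rfl)
    · rw [← hr a', ← clo_clo]
      exact hs₀K _ ((le_adj _ _).trans (le_clo _)) (fun l => hspan (Sum.inl l))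
        (hspan (Sum.inr ())) i
  have hex : ∀ i, ∃ w, Sp V (clo (adj k₁ (Set.range a))) (σ (s₀ i)) w := by
    intro i
    refine exists_sp hKK hVpl hu hVu ?_ (hsV i)
    exact clo_mono (adj_le ((le_clo _).trans (le_adj _ _)) (subset_adj _ _)) (hsK i)
  choose w hw using hex
  have hσ0 : ∀ l, aeval (fun i => σ (s₀ i)) (G l - C (a l) * X j ^ d l) = -a l := by
    intro l
    rw [aeval_fix (hG₀ l) hσ]
    have h1 := hσa l
    rw [ha'] at h1
    simp only [map_neg] at h1
    linear_combination -h1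
  refine ⟨u, fun i => σ (s₀ i), V, w, hu, ?_, ?_, ?_, ?_, hsK, hVpl, hVu, hw⟩
  · intro i hi
    have h1 : s₀ i = 0 := by
      rw [hs₀]
      simp only [hq0 i hi, hc0 i hi, mul_zero, sub_zero, zero_div]
    change σ (s₀ i) = 0
    rw [h1, map_zero]
  · change σ (s₀ j) = 1
    rw [hs₀j, map_one]
  · intro l
    have h1 := hσ0 l
    rw [map_sub] at h1
    have h2 : aeval (fun i => σ (s₀ i)) (C (a l) * X j ^ d l : MvPolynomial (Fin n) ℂ) = a l := by
      simp [hs₀j]
    rw [h2] at h1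
    linear_combination h1
  · intro f hf hfq
    have h1 : (fun i => (1 - u) * σ (s₀ i) + u * c i) = fun i => σ (q i) := by
      funext i
      rw [← hs₀q i, map_add, map_mul, map_mul, map_sub, map_one, hσu, hσc]
    rw [h1, aeval_fix hf hσ, hfq, map_zero]

end Pool.Agent.VCI
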