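import Pool.Agent.VCI.LineA

/-! Complete intersections: the limits of the moving point. -/

set_option autoImplicit false

open MvPolynomial

namespace Pool.Agent.VCI

open Pool.Agent.VGS

theorem inD_iff {n : ℕ} {k : Fl} {q y : Fin n → ℂ} :
    InD k q y ↔ ∀ f : MvPolynomial (Fin n) k, aeval q f = 0 → aeval y f = 0 := by
  constructor
  · intro h f hf
    have := h (map (algebraMap k ℂ) f) (coef_iff.2 ⟨f, rfl⟩) (by simpa [aeval_def, eval₂_map] using hf)
    simpa [aeval_def, eval₂_map] using this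
  · intro h f hf h0
    obtain ⟨f', rfl⟩ := coef_iff.1 hf
    have := h f' (by simpa [aeval_def, eval₂_map] using h0)
    simpa [aeval_def, eval₂_map] using this

/-- the value of `G₀ = G - a X_j ^ d` at a zero of `G` with `z_j = 1` -/
theorem aeval_G0 {n : ℕ} {j : Fin n} {d : ℕ} {G : MvPolynomial (Fin n) ℂ} {a : ℂ} {z : Fin n → ℂ}
    (hzj : z j = 1) (hzG : aeval z G = 0) : aeval z (G - C a * X j ^ d) = -a := by
  rw [map_sub, hzG]
  simp [hzj]

theorem coef_G {k₁ : Fl} {n r : ℕ} {j : Fin n} {d : Fin r → ℕ} {G : Fin r → MvPolynomial (Fin n) ℂ}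
    {a : Fin r → ℂ} (hG₀ : ∀ i, Coef k₁ (G i - C (a i) * X j ^ d i)) (i : Fin r) :
    Coef (adj k₁ (Set.range a)) (G i) := by
  intro m
  have h1 : coeff m (G i) = coeff m (G i - C (a i) * X j ^ d i) +
      a i * coeff m (X j ^ d i : MvPolynomial (Fin n) ℂ) := by
    rw [coeff_sub, coeff_C_mul]; ring
  rw [h1]
  refine add_mem (le_adj _ _ (hG₀ i m)) (mul_mem (subset_adj _ _ ⟨i, rfl⟩) ?_)
  rw [coeff_X_pow]
  split_ifs
  · exact one_mem _
  · exact zero_mem _

section

variable (k₁ : Fl) {n r : ℕ} (j : Fin n) {d : Fin r → ℕ} (G : Fin r → MvPolynomial (Fin n) ℂ)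
  (a : Fin r → ℂ)

/-- relations of `q` and of a point `w` of the closure of `q` on `G = 0` (as `VGS.dil_rel`) -/
theorem dil_rel (hG₀ : ∀ i, Coef k₁ (G i - C (a i) * X j ^ d i)) (q : Fin n → ℂ) (hqj : q j = 1)
    (hqG : ∀ i, aeval q (G i) = 0) (hqC : ∀ i, q i ∈ clo (adj k₁ (Set.range a))) {w : Fin n → ℂ}
    (hwj : w j = 1) (hwG : ∀ i, aeval w (G i) = 0) (hw : InD k₁ q w) : InD k₁ w q := by
  rw [inD_iff]
  intro f hf
  by_contra hx
  set x : ℂ := aeval q f with hxd
  have hxC : x ∈ clo (adj k₁ (Set.range a)) := by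
    have h1 : x = aeval q (map (algebraMap k₁ ℂ) f) := by
      simp [hxd, aeval_def, eval₂_map]
    rw [h1]
    exact aeval_mem (fun m => le_clo _ (le_adj _ _ (coef_iff.2 ⟨f, rfl⟩ m))) hqC
  rw [mem_clo_adj] at hxC
  obtain ⟨R, hR0, hR⟩ := hxC.exists_nonzero_coeff_and_aeval_eq_zero
    (mem_nonZeroDivisors_of_ne_zero hx)
  have hg : ∀ i, ∃ g : MvPolynomial (Fin n) k₁,
      map (algebraMap k₁ ℂ) g = G i - C (a i) * X j ^ d i := fun i => coef_iff.1 (hG₀ i)
  choose g₀ hg₀ using hg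
  have hq0 : ∀ i, aeval q (g₀ i) = -a i := by
    intro i
    rw [← aeval_G0 (d := d i) (a := a i) hqj (hqG i), ← hg₀ i]
    simp [aeval_def, eval₂_map]
  have hw0 : ∀ i, aeval w (g₀ i) = -a i := by
    intro i
    rw [← aeval_G0 (d := d i) (a := a i) hwj (hwG i), ← hg₀ i]
    simp [aeval_def, eval₂_map]
  have hr : ∀ i, ∃ p : MvPolynomial (Fin r) k₁, aeval a p = (R.coeff i : ℂ) := by
    intro i
    obtain ⟨b, hb⟩ := R.coeff i
    rw [Algebra.adjoin_range_eq_range_aeval] at hb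
    exact hb
  choose p hp using hr
  set Q : MvPolynomial (Fin n) k₁ :=
    ∑ i ∈ Finset.range (R.natDegree + 1), aeval (fun l => -g₀ l) (p i) * f ^ i with hQ
  have key : ∀ z : Fin n → ℂ, (∀ i, aeval z (g₀ i) = -a i) →
      aeval z Q = ∑ i ∈ Finset.range (R.natDegree + 1), (R.coeff i : ℂ) * (aeval z f) ^ i := by
    intro z hz
    rw [hQ, map_sum]
    refine Finset.sum_congr rfl fun i _ => ?_
    rw [map_mul, map_pow]
    congr 1
    rw [← AlgHom.comp_apply, comp_aeval, ← hp]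
    congr 2
    funext l
    rw [map_neg, hz, neg_neg]
  have h1 : aeval q Q = 0 := by
    rw [key q hq0]
    rw [Polynomial.aeval_eq_sum_range] at hR
    rw [← hR]
    refine Finset.sum_congr rfl fun i _ => ?_
    rfl
  have h2 := (inD_iff.1 hw) Q h1
  rw [key w hw0, Finset.sum_range_succ', hf] at h2
  simp at h2
  exact hR0 h2

/-- the limits at `u → 0` (as `VGS.dil_iv`) -/
theorem dil_iv [Countable k₁] (hG₀ : ∀ i, Coef k₁ (G i - C (a i) * X j ^ d i)) (q : Fin n → ℂ)
    (hqj : q j = 1) (hqG : ∀ i, aeval q (G i) = 0) (hqC : ∀ i, q i ∈ clo (adj k₁ (Set.range a)))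
    {u : ℂ} {c : Fin n → ℂ} (hc : ∀ i, ∃ m : ℤ, c i = m) {s : Fin n → ℂ} (hsj : s j = 1)
    (hsG : ∀ i, aeval s (G i) = 0) (hs : InD k₁ q (fun i => (1 - u) * s i + u * c i))
    {V : ValuationSubring ℂ} (hV : IsPl V (clo (adj k₁ (Set.range a))))
    (hu : Sp V (clo (adj k₁ (Set.range a))) u 0) {w : Fin n → ℂ}
    (hw : ∀ i, Sp V (clo (adj k₁ (Set.range a))) (s i) (w i)) :
    ∃ σ ∈ VGS.Fix (adj k₁ (Set.range a)), ∀ i, σ (q i) = w i := by
  have hone : Sp V (clo (adj k₁ (Set.range a))) 1 1 := Sp.const hV (one_mem _)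
  have hzero : Sp V (clo (adj k₁ (Set.range a))) 0 0 := Sp.const hV (zero_mem _)
  have hwj : w j = 1 := by
    have := hw j
    rw [hsj] at this
    exact Sp.unique hV this hone
  have hk : k₁ ≤ clo (adj k₁ (Set.range a)) := (le_adj _ _).trans (le_clo _)
  have hwG : ∀ i, aeval w (G i) = 0 := by
    intro i
    have h1 := Sp.aeval hV ((coef_G hG₀ i).mono (le_clo _)) hw
    rw [hsG] at h1
    exact Sp.unique hV h1 hzero
  have hwD : InD k₁ q w := by
    intro f hf h0
    have h1 := hs f hf h0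
    have h2 : ∀ i, Sp V (clo (adj k₁ (Set.range a))) ((1 - u) * s i + u * c i) (w i) := by
      intro i
      obtain ⟨m, hm⟩ := hc i
      have h3 := (((hone.sub hV hu).mul hV (hw i)).add hV (hu.mul hV
        (Sp.const hV (show c i ∈ clo (adj k₁ (Set.range a)) by rw [hm]; exact intCast_mem _ m))))
      simpa using h3
    have h4 := Sp.aeval hV (hf.mono hk) h2
    rw [h1] at h4
    exact Sp.unique hV h4 hzero
  have hmon : ∀ i, (monomial (Finsupp.single j (d i)) (1 : ℂ)) = X j ^ d i := fun i =>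
    (X_pow_eq_monomial).symm
  refine pt_conj (m := fun i => Finsupp.single j (d i)) (G := G) (a := a) k₁ ?_ ?_ hqG hwG hwD
    (dil_rel k₁ j G a hG₀ q hqj hqG hqC hwj hwG hwD)
  · intro i
    rw [hmon]
    exact hG₀ i
  · intro i
    rw [hmon, map_pow, aeval_X, hqj, one_pow]
    exact one_ne_zero

/-- the limits at `u → 1` (as `VGS.dil_v`) -/
theorem dil_v (q : Fin n → ℂ) {u : ℂ} {c : Fin n → ℂ} (hc : ∀ i, ∃ m : ℤ, c i = m)
    (hcD : ¬ InD k₁ q c) {s : Fin n → ℂ} (hs : InD k₁ q (fun i => (1 - u) * s i + u * c i))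
    {V : ValuationSubring ℂ} (hV : IsPl V (clo (adj k₁ (Set.range a))))
    (hu : Sp V (clo (adj k₁ (Set.range a))) u 1) : ∃ i, s i ∉ V := by
  by_contra hcon
  push Not at hcon
  apply hcD
  intro f hf h0
  have hzero : Sp V (clo (adj k₁ (Set.range a))) 0 0 := Sp.const hV (zero_mem _)
  have hk : k₁ ≤ clo (adj k₁ (Set.range a)) := (le_adj _ _).trans (le_clo _)
  have h1 := hs f hf h0
  have h2 : ∀ i, Sp V (clo (adj k₁ (Set.range a))) ((1 - u) * s i + u * c i) (c i) := by
    intro i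
    obtain ⟨m, hm⟩ := hc i
    have hcC : c i ∈ clo (adj k₁ (Set.range a)) := by rw [hm]; exact intCast_mem _ m
    refine ⟨hcC, ?_⟩
    have h3 : (1 - u) * s i + u * c i - c i = (1 - u) * (s i - c i) := by ring
    rw [h3, map_mul]
    have h4 : V.valuation (1 - u) < 1 := by
      have := hu.2
      rwa [← Valuation.map_neg, neg_sub] at this
    have h5 : V.valuation (s i - c i) ≤ 1 := by
      rw [ValuationSubring.valuation_le_one_iff]
      exact sub_mem (hcon i) (hV _ hcC)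
    calc V.valuation (1 - u) * V.valuation (s i - c i) ≤ V.valuation (1 - u) * 1 :=
          mul_le_mul_right h5 _
      _ < 1 := by rw [mul_one]; exact h4
  have h4 := Sp.aeval hV (hf.mono hk) h2
  rw [h1] at h4
  exact Sp.unique hV h4 hzero

end

end Pool.Agent.VCI
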