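import Pool.Agent.VCI.DilA
import Pool.Agent.VCI.DilB
import Pool.Agent.VCI.DilC

/-! Complete intersections: the dilation. -/

set_option autoImplicit false

open MvPolynomial

namespace Pool.Agent.VCI

open Pool.Agent.VGS

/-- `E = k₁ (a)`, `G i = G₀ i + a i X_j ^ d i`, `q` a zero of the `G i` over `clo E` with `q_i = 0`
for `i < j` and `q_j = 1`. -/
theorem dil (k₁ : Fl) [Countable k₁] {n r : ℕ} (j : Fin n) (hj : r + j + 2 ≤ n) {d : Fin r → ℕ}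
    (G : Fin r → MvPolynomial (Fin n) ℂ) (a : Fin r → ℂ) (ha : AlgebraicIndependent k₁ a)
    (hG₀ : ∀ i, Coef k₁ (G i - C (a i) * X j ^ d i)) (q : Fin n → ℂ) (hq0 : ∀ i < j, q i = 0)
    (hqj : q j = 1) (hqG : ∀ i, aeval q (G i) = 0)
    (hqC : ∀ i, q i ∈ clo (adj k₁ (Set.range a))) :
    ∃ u : ℂ, u ∉ clo (adj k₁ (Set.range a)) ∧ ∃ s : Fin n → ℂ, (∀ i < j, s i = 0) ∧ s j = 1 ∧
      (∀ i, aeval s (G i) = 0) ∧ (∀ i, s i ∈ clo (adj (adj k₁ (Set.range a)) {u})) ∧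
      (∃ V, IsPl V (clo (adj k₁ (Set.range a))) ∧ Sp V (clo (adj k₁ (Set.range a))) u 0 ∧
        ∃ w : Fin n → ℂ, ∀ i, Sp V (clo (adj k₁ (Set.range a))) (s i) (w i)) ∧
      (∀ V, IsPl V (clo (adj k₁ (Set.range a))) → Sp V (clo (adj k₁ (Set.range a))) u 0 →
        ∀ w : Fin n → ℂ, (∀ i, Sp V (clo (adj k₁ (Set.range a))) (s i) (w i)) →
        ∃ σ ∈ VGS.Fix (adj k₁ (Set.range a)), ∀ i, σ (q i) = w i) ∧
      (∀ V, IsPl V (clo (adj k₁ (Set.range a))) → Sp V (clo (adj k₁ (Set.range a))) u 1 →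
        ∃ i, s i ∉ V) := by
  obtain ⟨c, hcZ, hcj, hc0, hcD⟩ := dil_c k₁ j hj a q hq0 hqj hqC
  obtain ⟨u, s, V, w, hu, hs0, hsj, hsG, hsD, hsC, hV, hVu, hVs⟩ :=
    dil_us k₁ j G a ha hG₀ q hq0 hqj hqG hqC c hcZ hcj hc0
  exact ⟨u, hu, s, hs0, hsj, hsG, hsC, ⟨V, hV, hVu, w, hVs⟩,
    fun V' hV' hu' w hw => dil_iv k₁ j G a hG₀ q hqj hqG hqC hcZ hsj hsG hsD hV' hu' hw,
    fun V' hV' hu' => dil_v k₁ a q hcZ hcD hsD hV' hu'⟩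

end Pool.Agent.VCI
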