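import Pool.Agent.VCI.Chow
import Pool.Agent.VCI.PlaceP
import Pool.Agent.VGS.Link

/-! Module Link: specialisation of families of cycles. -/

set_option autoImplicit false

open scoped LinearAlgebra.Projectivization
open MvPolynomial

namespace Pool.Agent.VCI

open Pool.Agent.Chow0 (IsLink IsChowForm chowForm)
open Pool.Agent.VGS

variable {n r : ℕ}

/-! ### auxiliary facts -/

theorem IsCh.isChowForm {F : Fin r → MvPolynomial (Fin n) ℂ} {G : MvPolynomial (Fin n) ℂ}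
    {s : Multiset (ciS F)} (h : IsCh G (s.map Subtype.val)) : IsChowForm (ciS F) G s := h

theorem link_act_eq {C : Fl} {σ τ : ℂ ≃+* ℂ} (h : ∀ x ∈ C, τ x = σ x) {q : PN n} (hq : Over C q) :
    act τ q = act σ q := by
  have h1 : τ⁻¹ * σ ∈ VGS.Fix C := by
    intro x hx
    change τ.symm (σ x) = x
    rw [← h x hx, RingEquiv.symm_apply_apply]
  have h2 := hq.act_eq h1
  rw [act_mul] at h2
  rw [← h2, act_act_inv, h2]

theorem cycQ_map (s : Multiset (PN n)) (f : (PN n) → (PN n)) :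
    cycQ (s.map f) = (cycQ s).mapDomain f := by
  induction s using Multiset.induction_on with
  | empty => simp [cycQ_zero, Finsupp.mapDomain_zero]
  | cons p s ih =>
    rw [Multiset.map_cons, cycQ_cons, cycQ_cons, ih, Finsupp.mapDomain_add,
      Finsupp.mapDomain_single]

variable {E : Fl} [Countable E] {u : ℂ}

/-- the limits at `0` and `1` of a family are linked -/
theorem link_msZ (hu : u ∉ clo E) {S : Multiset (PN n)} (hS : IsFam E u S)
    {F : Fin r → MvPolynomial (Fin n) ℂ} {d : Fin r → ℕ} (hF : ∀ i, (F i).IsHomogeneous (d i))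
    (hFE : ∀ i, Coef E (F i))
    (hSF : ∀ p ∈ S, p ∈ ciS F) {V₀ V₁ : ValuationSubring ℂ} (hV₀ : IsPl V₀ (clo E))
    (hV₁ : IsPl V₁ (clo E)) (h₀ : Sp V₀ (clo E) u 0) (h₁ : Sp V₁ (clo E) u 1) {f g : (PN n) → (PN n)}
    (hf : ∀ p ∈ S, SpP V₀ (clo E) p (f p)) (hg : ∀ p ∈ S, SpP V₁ (clo E) p (g p))
    {s₀ s₁ : Multiset (ciS F)} (hs₀ : s₀.map Subtype.val = S.map f)
    (hs₁ : s₁.map Subtype.val = S.map g) : IsLink (ciS F) s₀ s₁ := by
  obtain ⟨Φ, -, hΦ, hΦ'⟩ := exists_chow E hu hS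
  have hFC : ∀ i, Coef (clo E) (F i) := fun i => Coef.mono (le_clo E) (hFE i)
  refine ⟨Φ, ?_, ?_, ?_⟩
  · refine Filter.Eventually.of_forall fun t => ?_
    have key : ∃ s : Multiset (PN n), (∀ p ∈ s, p ∈ ciS F) ∧ IsCh (Φ.eval (C t)) s := by
      by_cases ht : t ∈ clo E
      · obtain ⟨V, hV, hut⟩ := exists_place (clo_clo E) hu ht
        have hex : ∀ p, ∃ q, p ∈ S → SpP V (clo E) p q := fun p => by
          by_cases hp : p ∈ S
          · obtain ⟨q, hq⟩ := exists_spP (clo_clo E) hV hu hut (Over.mono (hS.isOver p hp)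
              (clo_mono (adj_le ((le_clo E).trans (le_adj _ _)) (subset_adj _ _))))
            exact ⟨q, fun _ => hq⟩
          · exact ⟨p, fun h => absurd h hp⟩
        choose k hk using hex
        refine ⟨S.map k, ?_, hΦ V hV t ht hut k hk⟩
        intro q hq
        obtain ⟨p, hp, rfl⟩ := Multiset.mem_map.1 hq
        exact SpP.mem_surf hV hF hFC (hk p hp) (hSF p hp)
      · obtain ⟨τ, hτ, hτu⟩ := exists_extend (clo E) (clo_clo E) 1 (fun x => Iff.rfl) hu ht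
        have hτE : τ ∈ VGS.Fix E := fun x hx => hτ x (le_clo E hx)
        refine ⟨S.map (act τ), ?_, hτu ▸ hΦ' τ hτE⟩
        intro q hq
        obtain ⟨p, hp, rfl⟩ := Multiset.mem_map.1 hq
        exact (act_mem_surf hF hFE hτE).2 (hSF p hp)
    obtain ⟨s, hs, hs'⟩ := key
    obtain ⟨s', rfl⟩ : ∃ s' : Multiset (ciS F), s'.map Subtype.val = s := by
      lift s to Multiset (ciS F) using hs with s'
      exact ⟨s', rfl⟩
    exact ⟨s', hs'⟩
  · have := hΦ V₀ hV₀ 0 h₀.1 h₀ f hf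
    rw [← hs₀] at this
    exact this
  · have := hΦ V₁ hV₁ 1 h₁.1 h₁ g hg
    rw [← hs₁] at this
    exact this

theorem link_ms (hu : u ∉ clo E) {S : Multiset (PN n)} (hS : IsFam E u S)
    {F : Fin r → MvPolynomial (Fin n) ℂ} {d : Fin r → ℕ} (hF : ∀ i, (F i).IsHomogeneous (d i))
    (hFE : ∀ i, Coef E (F i))
    (hSF : ∀ p ∈ S, p ∈ ciS F) {V₀ V₁ : ValuationSubring ℂ} (hV₀ : IsPl V₀ (clo E))
    (hV₁ : IsPl V₁ (clo E)) (h₀ : Sp V₀ (clo E) u 0) (h₁ : Sp V₁ (clo E) u 1) {f g : (PN n) → (PN n)}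
    (hf : ∀ p ∈ S, SpP V₀ (clo E) p (f p)) (hg : ∀ p ∈ S, SpP V₁ (clo E) p (g p)) :
    cycQ (S.map f) - cycQ (S.map g) ∈ ratQ F := by
  have hFC : ∀ i, Coef (clo E) (F i) := fun i => Coef.mono (le_clo E) (hFE i)
  have hfF : ∀ p ∈ S.map f, p ∈ ciS F := by
    intro q hq
    obtain ⟨p, hp, rfl⟩ := Multiset.mem_map.1 hq
    exact SpP.mem_surf hV₀ hF hFC (hf p hp) (hSF p hp)
  have hgF : ∀ p ∈ S.map g, p ∈ ciS F := by
    intro q hq
    obtain ⟨p, hp, rfl⟩ := Multiset.mem_map.1 hq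
    exact SpP.mem_surf hV₁ hF hFC (hg p hp) (hSF p hp)
  obtain ⟨s₀, hs₀⟩ : ∃ s : Multiset (ciS F), s.map Subtype.val = S.map f := by
    lift S.map f to Multiset (ciS F) using hfF with s
    exact ⟨s, rfl⟩
  obtain ⟨s₁, hs₁⟩ : ∃ s : Multiset (ciS F), s.map Subtype.val = S.map g := by
    lift S.map g to Multiset (ciS F) using hgF with s
    exact ⟨s, rfl⟩
  exact Submodule.subset_span ⟨s₀, s₁, link_msZ hu hS hF hFE hSF hV₀ hV₁ h₀ h₁ hf hg hs₀ hs₁, by
    rw [hs₀, hs₁]⟩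

theorem unique_ms (hu : u ∉ clo E) {S : Multiset (PN n)} (hS : IsFam E u S) {c : ℂ}
    {V V' : ValuationSubring ℂ} (hV : IsPl V (clo E)) (hV' : IsPl V' (clo E))
    (h : Sp V (clo E) u c) (h' : Sp V' (clo E) u c) {f f' : (PN n) → (PN n)}
    (hf : ∀ p ∈ S, SpP V (clo E) p (f p)) (hf' : ∀ p ∈ S, SpP V' (clo E) p (f' p)) :
    S.map f = S.map f' := by
  obtain ⟨Φ, -, hΦ, -⟩ := exists_chow E hu hS
  exact (hΦ V hV c h.1 h f hf).unique (hΦ V' hV' c h'.1 h' f' hf')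

theorem stable_ms (hu : u ∉ clo E) {S : Multiset (PN n)} (hS : IsFam E u S) {c : ℂ} (hc : c ∈ E)
    {V : ValuationSubring ℂ} (hV : IsPl V (clo E)) (h : Sp V (clo E) u c) {f : (PN n) → (PN n)}
    (hf : ∀ p ∈ S, SpP V (clo E) p (f p)) {σ : ℂ ≃+* ℂ} (hσ : σ ∈ VGS.Fix E) :
    (S.map f).map (act σ) = S.map f := by
  have hσC : ∀ x, σ x ∈ clo E ↔ x ∈ clo E := fun x => fix_mem_clo hσ
  obtain ⟨τ, hτ, hτu⟩ := exists_extend (clo E) (clo_clo E) σ hσC hu hu
  have hτC : ∀ x, τ x ∈ clo E ↔ x ∈ clo E := by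
    have hτE : τ ∈ VGS.Fix E := fun x hx => by rw [hτ x (le_clo E hx), hσ x hx]
    exact fun x => fix_mem_clo hτE
  have hτE : τ ∈ VGS.Fix E := fun x hx => by rw [hτ x (le_clo E hx), hσ x hx]
  have hτu' : τ ∈ VGS.Fix (adj E {u}) := mem_Fix_adj.2 ⟨hτE, fun x hx => by
    rw [Set.mem_singleton_iff.1 hx, hτu]⟩
  obtain ⟨V', hV', hSp, hSpP⟩ := exists_transport hV τ hτC
  have h' : Sp V' (clo E) u c := by
    have h1 := (hSp u c).2 h
    rwa [hτu, hτE c hc] at h1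
  have hmem : ∀ p ∈ S, act τ⁻¹ p ∈ S := by
    intro p hp
    have h1 := hS.stable τ⁻¹ (inv_mem hτu')
    rw [← h1]
    exact Multiset.mem_map_of_mem _ hp
  have hf' : ∀ p ∈ S, SpP V' (clo E) p (act σ (f (act τ⁻¹ p))) := by
    intro p hp
    have h1 := (hSpP _ _).2 (hf _ (hmem p hp))
    rw [act_act_inv, link_act_eq hτ (hf _ (hmem p hp)).over] at h1
    exact h1
  have h2 := unique_ms hu hS hV hV' h h' hf hf'
  have h3 : (S.map (act τ)).map (fun p => act σ (f (act τ⁻¹ p))) = (S.map f).map (act σ) := by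
    rw [Multiset.map_map, Multiset.map_map]
    refine Multiset.map_congr rfl fun p _ => ?_
    simp
  rw [← h3, hS.stable τ hτu', ← h2]

/-- The same for cycles with rational coefficients. -/
structure IsFamC (E : Fl) (u : ℂ) (z : Cy n) : Prop where
  isOver : ∀ p ∈ z.support, Over (clo (adj E {u})) p
  stable : ∀ σ ∈ VGS.Fix (adj E {u}), actC σ z = z

omit [Countable E] in
/-- a multiple of a cycle is a difference of effective cycles -/
theorem IsFamC.exists_ms {z : Cy n} (hz : IsFamC E u z) :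
    ∃ (N : ℕ) (S T : Multiset (PN n)), 0 < N ∧ (N : ℚ) • z = cycQ S - cycQ T ∧
      IsFam E u S ∧ IsFam E u T ∧ (∀ p ∈ S, p ∈ z.support) ∧ ∀ p ∈ T, p ∈ z.support := by
  classical
  -- a stable function of the coefficients
  have key : ∀ k : ℚ → ℕ, k 0 = 0 → ∃ S : Multiset (PN n), IsFam E u S ∧
      (∀ p ∈ S, p ∈ z.support) ∧ ∀ p, S.count p = k (z p) := by
    intro k hk
    let m : (PN n) →₀ ℕ := z.mapRange k hk
    have hm : ∀ p, (Finsupp.toMultiset m).count p = k (z p) := by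
      intro p
      rw [Finsupp.count_toMultiset]
      rfl
    have hsup : ∀ p ∈ Finsupp.toMultiset m, p ∈ z.support := by
      intro p hp
      rw [← Multiset.count_pos, hm] at hp
      rw [Finsupp.mem_support_iff]
      intro h0
      rw [h0, hk] at hp
      exact lt_irrefl _ hp
    refine ⟨Finsupp.toMultiset m, ⟨fun p hp => hz.isOver p (hsup p hp), ?_⟩, hsup, hm⟩
    intro σ hσ
    ext p
    have h1 : p = act σ (act σ⁻¹ p) := by simp
    rw [h1, Multiset.count_map_eq_count' _ _ (act_injective σ), ← h1, hm, hm, ← actC_apply,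
      hz.stable σ hσ]
  let N : ℕ := ∏ p ∈ z.support, (z p).den
  have hN : 0 < N := Finset.prod_pos fun p _ => (z p).den_pos
  have hint : ∀ p, ∃ n : ℤ, (N : ℚ) * z p = n := by
    intro p
    by_cases hp : p ∈ z.support
    · obtain ⟨c, hc⟩ := Finset.dvd_prod_of_mem (fun p => (z p).den) hp
      refine ⟨c * (z p).num, ?_⟩
      have h2 : (N : ℚ) = (z p).den * c := by
        exact_mod_cast hc
      have h3 : ((z p).den : ℚ) * z p = (z p).num := Rat.den_mul_eq_num (z p)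
      rw [h2]
      push_cast
      rw [← h3]
      ring
    · rw [Finsupp.notMem_support_iff] at hp
      exact ⟨0, by simp [hp]⟩
  obtain ⟨S, hS, hS', hSc⟩ := key (fun c => ((N : ℚ) * c).num.toNat) (by simp)
  obtain ⟨T, hT, hT', hTc⟩ := key (fun c => (-((N : ℚ) * c).num).toNat) (by simp)
  refine ⟨N, S, T, hN, ?_, hS, hT, hS', hT'⟩
  ext p
  rw [Finsupp.smul_apply, Finsupp.sub_apply, cycQ_apply, cycQ_apply, hSc, hTc, smul_eq_mul]
  obtain ⟨n, hn⟩ := hint p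
  rw [hn]
  simp only [Rat.num_intCast]
  have h4 : (n : ℤ) = (n.toNat : ℤ) - ((-n).toNat : ℤ) := by omega
  exact_mod_cast h4

theorem link_cy (hu : u ∉ clo E) {z : Cy n} (hz : IsFamC E u z)
    {F : Fin r → MvPolynomial (Fin n) ℂ} {d : Fin r → ℕ} (hF : ∀ i, (F i).IsHomogeneous (d i))
    (hFE : ∀ i, Coef E (F i))
    (hzF : ∀ p ∈ z.support, p ∈ ciS F) {V₀ V₁ : ValuationSubring ℂ} (hV₀ : IsPl V₀ (clo E))
    (hV₁ : IsPl V₁ (clo E)) (h₀ : Sp V₀ (clo E) u 0) (h₁ : Sp V₁ (clo E) u 1) {f g : (PN n) → (PN n)}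
    (hf : ∀ p ∈ z.support, SpP V₀ (clo E) p (f p)) (hg : ∀ p ∈ z.support, SpP V₁ (clo E) p (g p)) :
    z.mapDomain f - z.mapDomain g ∈ ratQ F := by
  obtain ⟨N, S, T, hN, hNz, hS, hT, hS', hT'⟩ := hz.exists_ms
  have h1 := link_ms hu hS hF hFE (fun p hp => hzF p (hS' p hp)) hV₀ hV₁ h₀ h₁
    (fun p hp => hf p (hS' p hp)) (fun p hp => hg p (hS' p hp))
  have h2 := link_ms hu hT hF hFE (fun p hp => hzF p (hT' p hp)) hV₀ hV₁ h₀ h₁
    (fun p hp => hf p (hT' p hp)) (fun p hp => hg p (hT' p hp))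
  have h3 : (N : ℚ) • (z.mapDomain f - z.mapDomain g) ∈ ratQ F := by
    have h4 : ∀ k : (PN n) → (PN n), (N : ℚ) • z.mapDomain k = cycQ (S.map k) - cycQ (T.map k) := by
      intro k
      rw [← Finsupp.mapDomain_smul, hNz, cycQ_map, cycQ_map]
      exact map_sub (Finsupp.mapDomain.addMonoidHom k) _ _
    rw [smul_sub, h4, h4]
    have h5 := (ratQ F).sub_mem h1 h2
    convert h5 using 1
    abel
  have h6 := (ratQ F).smul_mem ((N : ℚ)⁻¹) h3
  rwa [smul_smul, inv_mul_cancel₀ (by exact_mod_cast hN.ne'), one_smul] at h6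

theorem unique_cy (hu : u ∉ clo E) {z : Cy n} (hz : IsFamC E u z) {c : ℂ}
    {V V' : ValuationSubring ℂ} (hV : IsPl V (clo E)) (hV' : IsPl V' (clo E))
    (h : Sp V (clo E) u c) (h' : Sp V' (clo E) u c) {f f' : (PN n) → (PN n)}
    (hf : ∀ p ∈ z.support, SpP V (clo E) p (f p))
    (hf' : ∀ p ∈ z.support, SpP V' (clo E) p (f' p)) :
    z.mapDomain f = z.mapDomain f' := by
  obtain ⟨N, S, T, hN, hNz, hS, hT, hS', hT'⟩ := hz.exists_ms
  have h1 := unique_ms hu hS hV hV' h h' (fun p hp => hf p (hS' p hp))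
    (fun p hp => hf' p (hS' p hp))
  have h2 := unique_ms hu hT hV hV' h h' (fun p hp => hf p (hT' p hp))
    (fun p hp => hf' p (hT' p hp))
  have h4 : ∀ k : (PN n) → (PN n), (N : ℚ) • z.mapDomain k = cycQ (S.map k) - cycQ (T.map k) := by
    intro k
    rw [← Finsupp.mapDomain_smul, hNz, cycQ_map, cycQ_map]
    exact map_sub (Finsupp.mapDomain.addMonoidHom k) _ _
  have h5 : (N : ℚ) • z.mapDomain f = (N : ℚ) • z.mapDomain f' := by rw [h4, h4, h1, h2]
  exact smul_right_injective _ (by exact_mod_cast hN.ne' : (N : ℚ) ≠ 0) h5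

theorem stable_cy (hu : u ∉ clo E) {z : Cy n} (hz : IsFamC E u z) {c : ℂ} (hc : c ∈ E)
    {V : ValuationSubring ℂ} (hV : IsPl V (clo E)) (h : Sp V (clo E) u c) {f : (PN n) → (PN n)}
    (hf : ∀ p ∈ z.support, SpP V (clo E) p (f p)) {σ : ℂ ≃+* ℂ} (hσ : σ ∈ VGS.Fix E) :
    actC σ (z.mapDomain f) = z.mapDomain f := by
  obtain ⟨N, S, T, hN, hNz, hS, hT, hS', hT'⟩ := hz.exists_ms
  have h1 := stable_ms hu hS hc hV h (fun p hp => hf p (hS' p hp)) hσ
  have h2 := stable_ms hu hT hc hV h (fun p hp => hf p (hT' p hp)) hσ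
  have h4 : (N : ℚ) • z.mapDomain f = cycQ (S.map f) - cycQ (T.map f) := by
    rw [← Finsupp.mapDomain_smul, hNz, cycQ_map, cycQ_map]
    exact map_sub (Finsupp.mapDomain.addMonoidHom f) _ _
  have h5 : (N : ℚ) • actC σ (z.mapDomain f) = (N : ℚ) • z.mapDomain f := by
    rw [← map_smul, h4, map_sub, actC_cycQ, actC_cycQ, h1, h2]
  exact smul_right_injective _ (by exact_mod_cast hN.ne' : (N : ℚ) ≠ 0) h5

end Pool.Agent.VCI
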