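import Pool.Agent.VCI.AsmB
import Pool.Agent.VCI.Dil
import Pool.Agent.VCI.Link

/-! Complete intersections, module Asm1: one step of the degeneration to a coordinate subspace. -/

set_option autoImplicit false

open scoped LinearAlgebra.Projectivization
open MvPolynomial

namespace Pool.Agent.VCI

open Pool.Agent.VGS

variable {r : ℕ} {d : Fin r → ℕ} {F : Fin r → MvPolynomial (Fin (r + 3)) ℂ}

/-- One step (`j = 0` or `1`) for arbitrary points of the surface. -/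
theorem asm_step1 (hr : 0 < r) (hF : ∀ i, (F i).IsHomogeneous (d i)) (hd : ∀ i, 2 ≤ d i) (k : Fl)
    [Countable k] {p q : PN (r + 3)} {M : Matrix (Fin (r + 3)) (Fin (r + 3)) ℂ}
    (hM : IsFrame k F d p q M) (j : Fin (r + 3)) (hj : (j : ℕ) ≤ 1) {z : Fin (r + 3) → ℂ}
    (hz0 : ∀ i < j, z i = 0) (hzj : z j = 1) (hzF : mkP (M.mulVec z) ∈ ciS F)
    (hzE : Over (clo (frE k F M)) (mkP (M.mulVec z))) :
    ∃ (e : ℕ) (y : Cy (r + 3)), 0 < e ∧ (∀ σ ∈ VGS.Fix (frE k F M), actC σ y = y) ∧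
      (∀ q ∈ y.support, q ∈ ciS F ∧ Over (clo (frE k F M)) q ∧
        ∃ w : Fin (r + 3) → ℂ, w ≠ 0 ∧ (∀ i ≤ j, w i = 0) ∧ q = mkP (M.mulVec w)) ∧
      (e : ℚ) • Orb (frE k F M) (mkP (M.mulVec z)) + y ∈ ratQ F := by
  classical
  have hdet := hM.det
  have hME : ∀ i j, M i j ∈ frE k F M := asm_mem_frE k F M
  have hMC : ∀ i j, M i j ∈ clo (frE k F M) := fun i j => le_clo _ (hME i j)
  have hz : z ≠ 0 := by
    rintro rfl
    exact zero_ne_one hzj
  have hKE : cof k F ≤ frE k F M := hM.le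
  have hFK : ∀ i, Coef (cof k F) (F i) := fun i m => subset_adj _ _ ⟨(i, m), rfl⟩
  have hFE : ∀ i, Coef (frE k F M) (F i) := fun i => (hFK i).mono hKE
  have hlst : j ≠ lst r := by
    intro h
    have := congrArg Fin.val h
    simp only [lst] at this
    omega
  have hpen : j ≠ pen r := by
    intro h
    have := congrArg Fin.val h
    simp only [pen] at this
    omega
  obtain ⟨k₁, hk₁, -, ha, hG₀, hEk⟩ := asm_frE_pow hF hd hM hlst hpen
  have hzG : ∀ i, aeval z (frG (F i) M) = 0 := (asm_mkP_mem_surf hF hdet hz).1 hzF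
  have hzC : ∀ i, z i ∈ clo (frE k F M) := (asm_over_mulVec hdet hMC hzj).1 hzE
  have hdil := dil k₁ j (by omega) (fun i => frG (F i) M) _ ha hG₀ z hz0 hzj hzG
    (by rw [← hEk]; exact hzC)
  rw [← hEk] at hdil
  obtain ⟨u, hu, s, hs0, hsj, hsG, hsC, ⟨V₀, hV₀, hu₀, w₀, hs₀⟩, hconj, hinf⟩ := hdil
  obtain ⟨τ₀, hτ₀, hw₀⟩ := hconj V₀ hV₀ hu₀ w₀ hs₀
  clear hG₀ ha hEk hk₁
  have hEc : Countable (frE k F M) := asm_countable_frE k F M
  generalize hEdef : frE k F M = E at *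
  have hs : s ≠ 0 := by
    rintro rfl
    exact zero_ne_one hsj
  have hwj₀ : w₀ j = 1 := by rw [← hw₀ j, hzj, map_one]
  have hw₀' : w₀ ≠ 0 := by
    rintro rfl
    exact zero_ne_one hwj₀
  have hz₀ : mkP (M.mulVec w₀) = act τ₀ (mkP (M.mulVec z)) := by
    rw [asm_act_mkP hdet hME hτ₀ hz]
    congr 2
    funext i
    exact (hw₀ i).symm
  -- the family
  have hsOver : Over (clo (adj E {u})) (mkP (M.mulVec s)) :=
    (asm_over_mulVec hdet (fun i j => le_clo _ (le_adj _ _ (hME i j))) hsj).2 hsC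
  have hfin := finite_orbit_pt (adj E {u}) hsOver
  obtain ⟨S, hSnd, hSmem⟩ : ∃ S : Multiset (PN (r + 3)), S.Nodup ∧
      ∀ q, q ∈ S ↔ ∃ σ ∈ VGS.Fix (adj E {u}), act σ (mkP (M.mulVec s)) = q := by
    refine ⟨hfin.toFinset.val, hfin.toFinset.nodup, fun q => ?_⟩
    rw [Finset.mem_val, Set.Finite.mem_toFinset]
    rfl
  have hS : IsFam E u S := by
    refine ⟨fun q hq => ?_, fun σ hσ => ?_⟩
    · obtain ⟨σ, hσ, rfl⟩ := (hSmem q).1 hq
      exact (over_clo_act hσ).2 hsOver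
    · refine (Multiset.Nodup.ext (hSnd.map (act_injective σ)) hSnd).2 fun q => ?_
      rw [Multiset.mem_map]
      constructor
      · rintro ⟨q', hq', rfl⟩
        obtain ⟨τ, hτ, rfl⟩ := (hSmem q').1 hq'
        exact (hSmem _).2 ⟨σ * τ, (VGS.Fix _).mul_mem hσ hτ, by rw [act_mul]⟩
      · intro hq
        obtain ⟨τ, hτ, rfl⟩ := (hSmem q).1 hq
        refine ⟨act (σ⁻¹ * τ) (mkP (M.mulVec s)), (hSmem _).2
          ⟨_, (VGS.Fix _).mul_mem ((VGS.Fix _).inv_mem hσ) hτ, rfl⟩, ?_⟩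
        rw [← act_mul, mul_inv_cancel_left]
  have hsS : mkP (M.mulVec s) ∈ S := (hSmem _).2 ⟨1, (VGS.Fix _).one_mem, act_one _⟩
  have hsF : mkP (M.mulVec s) ∈ ciS F := (asm_mkP_mem_surf hF hdet hs).2 hsG
  have hspP : SpP V₀ (clo E) (mkP (M.mulVec s)) (mkP (M.mulVec w₀)) :=
    (asm_spP_mulVec hV₀ hdet hMC hs hw₀').2 ((spP_mk hV₀ hs hw₀' hsj hwj₀).2 hs₀)
  have hFixK : ∀ σ ∈ VGS.Fix (adj E {u}), σ ∈ VGS.Fix (cof k F) := fun σ hσ =>
    Fix_mono (hKE.trans (le_adj _ _)) hσ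
  have hSF : ∀ q ∈ S, q ∈ ciS F := by
    intro q hq
    obtain ⟨σ, hσ, rfl⟩ := (hSmem q).1 hq
    exact (act_mem_surf hF hFK (hFixK σ hσ)).2 hsF
  -- limits
  have hEu : adj E {u} ≤ adj (clo E) {u} :=
    adj_le ((le_clo E).trans (le_adj _ _)) (subset_adj _ _)
  have hSOver : ∀ q ∈ S, Over (clo (adj (clo E) {u})) q := fun q hq =>
    (hS.isOver q hq).mono (clo_mono hEu)
  obtain ⟨V₁, hV₁, hu₁⟩ := exists_place (clo_clo E) hu (one_mem (clo E))
  have hex₀ : ∀ q ∈ S, ∃ q', SpP V₀ (clo E) q q' := fun q hq =>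
    exists_spP (clo_clo E) hV₀ hu hu₀ (hSOver q hq)
  have hex₁ : ∀ q ∈ S, ∃ q', SpP V₁ (clo E) q q' := fun q hq =>
    exists_spP (clo_clo E) hV₁ hu hu₁ (hSOver q hq)
  choose! f hf using hex₀
  choose! g hg using hex₁
  have hlim₀ : ∀ q ∈ S, (∃ w : Fin (r + 3) → ℂ, w ≠ 0 ∧ (∀ i ≤ j, w i = 0) ∧
      f q = mkP (M.mulVec w)) ∨
      f q ∈ {q' | ∃ σ ∈ VGS.Fix E, act σ (mkP (M.mulVec z)) = q'} := by
    intro q hq
    have h1 := hf q hq
    obtain ⟨σ, hσ, rfl⟩ := (hSmem q).1 hq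
    rcases asm_lim (zero_mem E) hdet hME hs0 hsj hV₀ hu₀ hσ h1 with h2 | ⟨V', hV', hu', w, hw, h2⟩
    · exact Or.inl h2
    · obtain ⟨τ, hτ, h3⟩ := hconj V' hV' hu' w hw
      refine Or.inr ⟨σ * τ, (VGS.Fix E).mul_mem (Fix_mono (le_adj _ _) hσ) hτ, ?_⟩
      rw [asm_act_mkP hdet hME ((VGS.Fix E).mul_mem (Fix_mono (le_adj _ _) hσ) hτ) hz, h2]
      congr 2
      funext i
      rw [← h3 i]
      rfl
  have hlim₁ : ∀ q ∈ S, ∃ w : Fin (r + 3) → ℂ, w ≠ 0 ∧ (∀ i ≤ j, w i = 0) ∧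
      g q = mkP (M.mulVec w) := by
    intro q hq
    have h1 := hg q hq
    obtain ⟨σ, hσ, rfl⟩ := (hSmem q).1 hq
    rcases asm_lim (one_mem E) hdet hME hs0 hsj hV₁ hu₁ hσ h1 with h2 | ⟨V', hV', hu', w, hw, h2⟩
    · exact h2
    · obtain ⟨i, hi⟩ := hinf V' hV' hu'
      exact absurd ((hw i).mem hV') hi
  -- the cycles
  have hst₀ : ∀ σ ∈ VGS.Fix E, actC σ (cycQ (S.map f)) = cycQ (S.map f) := fun σ hσ => by
    rw [actC_cycQ, stable_ms hu hS (zero_mem E) hV₀ hu₀ hf hσ]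
  have hst₁ : ∀ σ ∈ VGS.Fix E, actC σ (cycQ (S.map g)) = cycQ (S.map g) := fun σ hσ => by
    rw [actC_cycQ, stable_ms hu hS (one_mem E) hV₁ hu₁ hg hσ]
  refine ⟨(S.map f).count (mkP (M.mulVec z)), cycQ (S.map f) - cycQ (S.map g) -
    ((S.map f).count (mkP (M.mulVec z)) : ℚ) • Orb E (mkP (M.mulVec z)), ?_, ?_, ?_, ?_⟩
  · have h1 : mkP (M.mulVec w₀) ∈ S.map f :=
      Multiset.mem_map.2 ⟨_, hsS, SpP.unique hV₀ (hf _ hsS) hspP⟩
    have h2 : (S.map f).map (act τ₀⁻¹) = S.map f :=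
      stable_ms hu hS (zero_mem E) hV₀ hu₀ hf ((VGS.Fix E).inv_mem hτ₀)
    rw [Multiset.count_pos, ← h2, Multiset.mem_map]
    exact ⟨_, h1, by rw [hz₀, act_inv_act]⟩
  · intro σ hσ
    rw [map_sub, map_sub, map_smul, hst₀ σ hσ, hst₁ σ hσ, actC_Orb hzE hσ]
  · intro q hq
    have hq' := Finsupp.mem_support_iff.1 hq
    rw [Finsupp.sub_apply, Finsupp.sub_apply, Finsupp.smul_apply, smul_eq_mul] at hq'
    have key : q ∈ S.map g ∨ (q ∈ S.map f ∧
        q ∉ {q' | ∃ σ ∈ VGS.Fix E, act σ (mkP (M.mulVec z)) = q'}) := by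
      by_cases hO : q ∈ {q' | ∃ σ ∈ VGS.Fix E, act σ (mkP (M.mulVec z)) = q'}
      · left
        by_contra hcon
        apply hq'
        have h1 : Orb E (mkP (M.mulVec z)) q = 1 := by
          unfold Orb
          rw [asm_sumSet_apply (finite_orbit_pt E hzE), if_pos hO]
        have h2 : cycQ (S.map f) q = ((S.map f).count (mkP (M.mulVec z)) : ℚ) := by
          obtain ⟨σ, hσ, rfl⟩ := hO
          rw [← hst₀ σ hσ, actC_apply, act_inv_act, cycQ_apply]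
        rw [h1, h2, cycQ_apply, Multiset.count_eq_zero_of_notMem hcon]
        simp
      · by_cases hg' : q ∈ S.map g
        · exact Or.inl hg'
        · refine Or.inr ⟨?_, hO⟩
          by_contra hcon
          apply hq'
          have h1 : Orb E (mkP (M.mulVec z)) q = 0 := by
            unfold Orb
            rw [asm_sumSet_apply (finite_orbit_pt E hzE), if_neg hO]
          rw [h1, cycQ_apply, cycQ_apply, Multiset.count_eq_zero_of_notMem hcon,
            Multiset.count_eq_zero_of_notMem hg']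
          simp
    have hFC : ∀ i, Coef (clo E) (F i) := fun i => (hFE i).mono (le_clo E)
    rcases key with h1 | ⟨h1, h2⟩
    · obtain ⟨p', hp', rfl⟩ := Multiset.mem_map.1 h1
      exact ⟨SpP.mem_surf hV₁ hF hFC (hg p' hp') (hSF p' hp'), (hg p' hp').over,
        hlim₁ p' hp'⟩
    · obtain ⟨p', hp', rfl⟩ := Multiset.mem_map.1 h1
      refine ⟨SpP.mem_surf hV₀ hF hFC (hf p' hp') (hSF p' hp'), (hf p' hp').over, ?_⟩
      rcases hlim₀ p' hp' with h3 | h3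
      · exact h3
      · exact absurd h3 h2
  · have h5 : (((S.map f).count (mkP (M.mulVec z)) : ℕ) : ℚ) • Orb E (mkP (M.mulVec z)) +
        (cycQ (S.map f) - cycQ (S.map g) -
          (((S.map f).count (mkP (M.mulVec z)) : ℕ) : ℚ) • Orb E (mkP (M.mulVec z))) =
        cycQ (S.map f) - cycQ (S.map g) := by abel
    rw [h5]
    exact link_ms hu hS hF hFE hSF hV₀ hV₁ hu₀ hu₁ hf hg

end Pool.Agent.VCI
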