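import Pool.Agent.VCI.Basic
import Pool.Agent.VGS.Aut

/-! Complete intersections: conjugates of points. -/

set_option autoImplicit false

open scoped LinearAlgebra.Projectivization
open MvPolynomial

namespace Pool.Agent.VCI

open Pool.Agent.VGS

variable {n : ℕ}

/-- the conjugates of a point defined over `clo L` -/
theorem finite_orbit_pt (L : Fl) {p : PN n} (hp : Over (clo L) p) :
    {q | ∃ σ ∈ VGS.Fix L, act σ p = q}.Finite := by
  classical
  obtain ⟨z, hz, hzL, rfl⟩ := hp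
  have h1 : (Set.univ.pi fun i => {y | ∃ σ ∈ VGS.Fix L, σ (z i) = y}).Finite :=
    Set.Finite.pi' (fun i => finite_orbit L (hzL i)) |>.subset (fun w hw i => hw i (Set.mem_univ i))
  refine Set.Finite.subset (h1.image (fun w : Fin n → ℂ => if hw : w ≠ 0 then
    (Projectivization.mk ℂ w hw : PN n) else Projectivization.mk ℂ z hz)) ?_
  rintro q ⟨σ, hσ, rfl⟩
  refine ⟨fun i => σ (z i), fun i _ => ⟨σ, hσ, rfl⟩, ?_⟩
  have h2 := map_ne_zero' σ hz
  beta_reduce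
  rw [dif_pos h2, act_mk σ z hz h2]

/-- a point with finitely many conjugates is defined over `clo L` -/
theorem over_clo_of_finite (L : Fl) [Countable L] {p : PN n}
    (h : {q | ∃ σ ∈ VGS.Fix L, act σ p = q}.Finite) : Over (clo L) p := by
  obtain ⟨z, hz, i, h1, rfl⟩ := exists_nrm p
  rw [over_mk hz h1]
  intro j
  refine mem_clo_of_finite L ?_
  refine Set.Finite.subset (h.image (fun q : PN n => q.rep j / q.rep i)) ?_
  rintro y ⟨σ, hσ, rfl⟩
  have h2 := map_ne_zero' σ hz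
  refine ⟨Projectivization.mk ℂ (fun i => σ (z i)) h2, ⟨σ, hσ, act_mk σ z hz h2⟩, ?_⟩
  obtain ⟨c, hc⟩ := Projectivization.exists_smul_eq_mk_rep ℂ (fun i => σ (z i)) h2
  beta_reduce
  rw [← hc]
  simp [h1, Units.smul_def]

theorem finite_orbit_iff (L : Fl) [Countable L] {p : PN n} :
    {q | ∃ σ ∈ VGS.Fix L, act σ p = q}.Finite ↔ Over (clo L) p :=
  ⟨over_clo_of_finite L, finite_orbit_pt L⟩

/-! ### transport of fields and points -/

theorem adj_map {L L' : Fl} {S S' : Set ℂ} {σ : ℂ ≃+* ℂ} (hL : ∀ x ∈ L, σ x ∈ L')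
    (hS : ∀ x ∈ S, σ x ∈ adj L' S') : ∀ x ∈ adj L S, σ x ∈ adj L' S' := by
  let f : ℂ →ₐ[ℚ] ℂ := (σ : ℂ →+* ℂ).toRatAlgHom
  have h : adj L S ≤ (adj L' S').comap f := by
    apply adj_le
    · intro x hx
      exact le_adj L' S' (hL x hx)
    · intro x hx
      exact hS x hx
  exact fun x hx => h hx

theorem clo_map {L L' : Fl} {σ : ℂ ≃+* ℂ} (hL : ∀ x ∈ L, σ x ∈ L') :
    ∀ x ∈ clo L, σ x ∈ clo L' := by
  intro x hx
  rw [mem_clo_iff_exists] at hx ⊢
  obtain ⟨p, hp0, hp, h0⟩ := hx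
  refine ⟨p.map (σ : ℂ →+* ℂ), ?_, ?_, ?_⟩
  · exact (Polynomial.map_ne_zero_iff σ.injective).2 hp0
  · intro n
    rw [Polynomial.coeff_map]
    exact hL _ (hp n)
  · have h2 := Polynomial.eval_map_apply (p := p) (f := (σ : ℂ →+* ℂ)) x
    rw [h0, map_zero] at h2
    exact h2

theorem over_map {L L' : Fl} {σ : ℂ ≃+* ℂ} (hL : ∀ x ∈ L, σ x ∈ L') {p : PN n} (hp : Over L p) :
    Over L' (act σ p) := by
  obtain ⟨z, hz, hzL, rfl⟩ := hp
  exact ⟨fun i => σ (z i), map_ne_zero' σ hz, fun i => hL _ (hzL i), act_mk σ z hz _⟩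

theorem adjP_le {L L' : Fl} {p : PN n} (h : L ≤ L') (hp : Over L' p) : adjP L p ≤ L' := by
  refine le_trans ?_ (over_iff_adjP_le.1 hp)
  unfold adjP
  exact adj_le (h.trans (le_adj _ _)) (subset_adj _ _)

theorem adjP_map {L L' : Fl} {σ : ℂ ≃+* ℂ} (hL : ∀ x ∈ L, σ x ∈ L') {p : PN n} :
    ∀ x ∈ adjP L p, σ x ∈ adjP L' (act σ p) := by
  obtain ⟨z, hz, i, hi, rfl⟩ := exists_nrm p
  rw [act_mk σ z hz (map_ne_zero' σ hz), adjP_mk hz hi,
    adjP_mk (i := i) (map_ne_zero' σ hz) (by rw [hi, map_one])]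
  apply adj_map hL
  rintro _ ⟨j, rfl⟩
  exact subset_adj _ _ ⟨j, rfl⟩

theorem coef_map {L L' : Fl} {σ : ℂ ≃+* ℂ} (hL : ∀ x ∈ L, σ x ∈ L') {ι : Type}
    {G : MvPolynomial ι ℂ} (hG : Coef L G) : Coef L' (MvPolynomial.map (σ : ℂ →+* ℂ) G) := by
  intro m
  rw [MvPolynomial.coeff_map]
  exact hL _ (hG m)

theorem map_fix {L : Fl} {σ : ℂ ≃+* ℂ} (hσ : σ ∈ VGS.Fix L) {ι : Type} {G : MvPolynomial ι ℂ}
    (hG : Coef L G) : MvPolynomial.map (σ : ℂ →+* ℂ) G = G := by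
  ext m
  rw [MvPolynomial.coeff_map]
  exact hσ _ (hG m)

theorem aeval_map_act (σ : ℂ ≃+* ℂ) {ι : Type} (G : MvPolynomial ι ℂ) (z : ι → ℂ) :
    aeval (fun i => σ (z i)) (MvPolynomial.map (σ : ℂ →+* ℂ) G) = σ (aeval z G) := by
  have h := MvPolynomial.map_aeval z (σ : ℂ →+* ℂ) G
  rw [MvPolynomial.aeval_def, MvPolynomial.eval₂_map]
  change _ = (σ : ℂ →+* ℂ) (aeval z G)
  rw [h]
  rfl

theorem act_eq_inv {σ : ℂ ≃+* ℂ} {p q : PN n} (h : act σ p = q) : p = act σ⁻¹ q := by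
  rw [← h, act_inv_act]

/-! ### the points `mkP` -/

theorem mkP_eq [NeZero n] {z : Fin n → ℂ} (hz : z ≠ 0) : mkP z = Projectivization.mk ℂ z hz := by
  unfold mkP
  congr 1
  simp [hz]

theorem act_mkP [NeZero n] (σ : ℂ ≃+* ℂ) (z : Fin n → ℂ) :
    act σ (mkP z) = mkP (fun i => σ (z i)) := by
  have h0 : (fun _ => (1 : ℂ) : Fin n → ℂ) ≠ 0 := by
    intro h
    have := congrFun h 0
    simp at this
  by_cases hz : z = 0
  · subst hz
    have h1 : (fun i => σ ((0 : Fin n → ℂ) i)) = 0 := by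
      funext i
      simp
    rw [h1]
    have h2 : (mkP 0 : PN n) = Projectivization.mk ℂ (fun _ => (1 : ℂ)) h0 := by
      unfold mkP
      congr 1
      simp
    rw [h2, act_mk σ _ h0 (map_ne_zero' σ h0)]
    congr 1
    funext i
    simp
  · rw [mkP_eq hz, act_mk σ z hz (map_ne_zero' σ hz), mkP_eq (map_ne_zero' σ hz)]

theorem map_mulVec' (σ : ℂ ≃+* ℂ) (M : Matrix (Fin n) (Fin n) ℂ) (z : Fin n → ℂ) :
    (fun i => σ (M.mulVec z i)) = (M.map σ).mulVec (fun i => σ (z i)) := by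
  funext i
  exact RingHom.map_mulVec (σ : ℂ →+* ℂ) M z i

theorem act_mkP_mulVec [NeZero n] (σ : ℂ ≃+* ℂ) (M : Matrix (Fin n) (Fin n) ℂ) (z : Fin n → ℂ) :
    act σ (mkP (M.mulVec z)) = mkP ((M.map σ).mulVec (fun i => σ (z i))) := by
  rw [act_mkP, map_mulVec']

/-! ### sums of points -/

open Classical in
theorem sumSet_apply {s : Set (PN n)} (hs : s.Finite) (q : PN n) :
    sumSet s q = if q ∈ s then 1 else 0 := by
  unfold sumSet
  rw [finsum_mem_eq_finite_toFinset_sum _ hs, Finsupp.finsetSum_apply]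
  simp only [Finsupp.single_apply]
  rw [Finset.sum_ite_eq']
  simp only [Set.Finite.mem_toFinset]

theorem orb_mem_iff {E : Fl} {q : PN n} {σ : ℂ ≃+* ℂ} (hσ : σ ∈ VGS.Fix E) (q' : PN n) :
    act σ q' ∈ {q' | ∃ τ ∈ VGS.Fix E, act τ q = q'} ↔ q' ∈ {q' | ∃ τ ∈ VGS.Fix E, act τ q = q'} := by
  constructor
  · rintro ⟨τ, hτ, h⟩
    refine ⟨σ⁻¹ * τ, (VGS.Fix E).mul_mem ((VGS.Fix E).inv_mem hσ) hτ, ?_⟩
    rw [act_mul, h, act_inv_act]
  · rintro ⟨τ, hτ, h⟩
    exact ⟨σ * τ, (VGS.Fix E).mul_mem hσ hτ, by rw [act_mul, h]⟩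

theorem Orb_apply_act {E : Fl} {q : PN n} (hq : Over (clo E) q) {σ : ℂ ≃+* ℂ} (hσ : σ ∈ VGS.Fix E)
    (q' : PN n) : Orb E q (act σ q') = Orb E q q' := by
  unfold Orb
  rw [sumSet_apply (finite_orbit_pt E hq), sumSet_apply (finite_orbit_pt E hq)]
  by_cases h : q' ∈ {q' | ∃ τ ∈ VGS.Fix E, act τ q = q'}
  · rw [if_pos h, if_pos ((orb_mem_iff hσ q').2 h)]
  · rw [if_neg h, if_neg (fun h' => h ((orb_mem_iff hσ q').1 h'))]

theorem actC_Orb {E : Fl} {q : PN n} (hq : Over (clo E) q) {σ : ℂ ≃+* ℂ} (hσ : σ ∈ VGS.Fix E) :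
    actC σ (Orb E q) = Orb E q := by
  ext q'
  rw [actC_apply, Orb_apply_act hq ((VGS.Fix E).inv_mem hσ)]

open Classical in
theorem Orb_apply {E : Fl} {q : PN n} (hq : Over (clo E) q) (q' : PN n) :
    Orb E q q' = if ∃ σ ∈ VGS.Fix E, act σ q = q' then 1 else 0 := by
  unfold Orb
  rw [sumSet_apply (finite_orbit_pt E hq)]
  rfl

/-- a stable cycle is a combination of sums of conjugates of the points of its support -/
theorem mem_span_orb (E : Fl) (y : Cy n) (hst : ∀ σ ∈ VGS.Fix E, actC σ y = y)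
    (hy : ∀ q ∈ y.support, Over (clo E) q) :
    y ∈ Submodule.span ℚ {w | ∃ q ∈ y.support, w = Orb E q} := by
  classical
  induction hn : y.support.card using Nat.strong_induction_on generalizing y with
  | _ N ih =>
    by_cases h0 : y = 0
    · rw [h0]
      exact Submodule.zero_mem _
    obtain ⟨q, hq⟩ : ∃ q, q ∈ y.support := by
      by_contra hcon
      push Not at hcon
      exact h0 (Finsupp.support_eq_empty.1 (Finset.eq_empty_of_forall_notMem hcon))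
    have hval : ∀ q', (∃ σ ∈ VGS.Fix E, act σ q = q') → y q' = y q := by
      rintro q' ⟨σ, hσ, rfl⟩
      have h1 := congrArg (fun z : Cy n => z (act σ q)) (hst σ hσ)
      simp only [actC_apply, act_inv_act] at h1
      exact h1.symm
    set y' : Cy n := y - y q • Orb E q with hy'
    have hy'a : ∀ q', y' q' = if ∃ σ ∈ VGS.Fix E, act σ q = q' then 0 else y q' := by
      intro q'
      rw [hy', Finsupp.sub_apply, Finsupp.smul_apply, Orb_apply (hy q hq)]
      by_cases h : ∃ σ ∈ VGS.Fix E, act σ q = q'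
      · rw [if_pos h, if_pos h, hval q' h, smul_eq_mul, mul_one, sub_self]
      · rw [if_neg h, if_neg h, smul_zero, sub_zero]
    have hsub : ∀ q' ∈ y'.support, q' ∈ y.support := by
      intro q' h
      rw [Finsupp.mem_support_iff] at h ⊢
      intro h1
      apply h
      rw [hy'a, h1, ite_self]
    have hqn : q ∉ y'.support := by
      rw [Finsupp.notMem_support_iff, hy'a, if_pos ⟨1, one_mem _, act_one q⟩]
    have hcard : y'.support.card < N := by
      rw [← hn]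
      apply Finset.card_lt_card
      rw [Finset.ssubset_iff_of_subset hsub]
      exact ⟨q, hq, hqn⟩
    have hst' : ∀ σ ∈ VGS.Fix E, actC σ y' = y' := by
      intro σ hσ
      ext q'
      have h1 := congrArg (fun z : Cy n => z q') (hst σ hσ)
      simp only [actC_apply] at h1
      rw [actC_apply, hy'a, hy'a, h1]
      have h2 : (∃ τ ∈ VGS.Fix E, act τ q = act σ⁻¹ q') ↔ ∃ τ ∈ VGS.Fix E, act τ q = q' := by
        constructor
        · rintro ⟨τ, hτ, h⟩
          refine ⟨σ * τ, mul_mem hσ hτ, ?_⟩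
          rw [act_mul, h, act_act_inv]
        · rintro ⟨τ, hτ, h⟩
          refine ⟨σ⁻¹ * τ, mul_mem (inv_mem hσ) hτ, ?_⟩
          rw [act_mul, h]
      simp only [h2]
    have h1 := ih _ hcard y' hst' (fun q' h => hy q' (hsub q' h)) rfl
    have h2 : y = y' + y q • Orb E q := by rw [hy', sub_add_cancel]
    have h3 : y' ∈ Submodule.span ℚ {w | ∃ q ∈ y.support, w = Orb E q} := by
      refine Submodule.span_mono ?_ h1
      rintro w ⟨q', hq', rfl⟩
      exact ⟨q', hsub q' hq', rfl⟩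
    have h4 : Orb E q ∈ Submodule.span ℚ {w | ∃ q ∈ y.support, w = Orb E q} :=
      Submodule.subset_span ⟨q, hq, rfl⟩
    have h5 := Submodule.add_mem _ h3 (Submodule.smul_mem _ (y q) h4)
    rwa [← h2] at h5

/-! ### linear changes of coordinates -/

theorem exists_inv_mat {L : Fl} {M : Matrix (Fin n) (Fin n) ℂ} (hdet : M.det ≠ 0)
    (hL : ∀ i j, M i j ∈ L) : ∃ N : Matrix (Fin n) (Fin n) ℂ, (∀ i j, N i j ∈ L) ∧
      N * M = 1 ∧ M * N = 1 := by
  obtain ⟨M', rfl⟩ : ∃ M' : Matrix (Fin n) (Fin n) L, M'.map (algebraMap L ℂ) = M :=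
    ⟨fun i j => ⟨M i j, hL i j⟩, rfl⟩
  have h1 : M'.det ≠ 0 := by
    intro h
    apply hdet
    have h2 := RingHom.map_det (algebraMap L ℂ) M'
    rw [h, map_zero] at h2
    exact h2.symm
  have h3 : IsUnit M'.det := isUnit_iff_ne_zero.2 h1
  refine ⟨(M'⁻¹).map (algebraMap L ℂ), fun i j => (M'⁻¹ i j).2, ?_, ?_⟩
  · rw [← Matrix.map_mul, Matrix.nonsing_inv_mul _ h3, Matrix.map_one _ (map_zero _) (map_one _)]
  · rw [← Matrix.map_mul, Matrix.mul_nonsing_inv _ h3, Matrix.map_one _ (map_zero _) (map_one _)]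

theorem mulVec_ne_zero' {M : Matrix (Fin n) (Fin n) ℂ} (hdet : M.det ≠ 0) {z : Fin n → ℂ}
    (hz : z ≠ 0) : M.mulVec z ≠ 0 := by
  intro h
  apply hz
  have h3 : IsUnit M.det := isUnit_iff_ne_zero.2 hdet
  have h1 : (M⁻¹ * M).mulVec z = 0 := by
    rw [← Matrix.mulVec_mulVec, h, Matrix.mulVec_zero]
  rwa [Matrix.nonsing_inv_mul _ h3, Matrix.one_mulVec] at h1

theorem mulVec_mem {L : Fl} {M : Matrix (Fin n) (Fin n) ℂ} (hL : ∀ i j, M i j ∈ L)
    {z : Fin n → ℂ} (hz : ∀ i, z i ∈ L) (i : Fin n) : M.mulVec z i ∈ L := by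
  unfold Matrix.mulVec dotProduct
  exact sum_mem fun j _ => L.mul_mem (hL i j) (hz j)

theorem mkP_mulVec [NeZero n] {M : Matrix (Fin n) (Fin n) ℂ} (hdet : M.det ≠ 0) {z : Fin n → ℂ}
    (hz : z ≠ 0) :
    mkP (M.mulVec z) = Projectivization.mk ℂ (M.mulVec z) (mulVec_ne_zero' hdet hz) := mkP_eq _

theorem exists_mulVec_pt [NeZero n] {M : Matrix (Fin n) (Fin n) ℂ} (hM : M.det ≠ 0) (q : PN n) :
    ∃ z : Fin n → ℂ, z ≠ 0 ∧ q = mkP (M.mulVec z) := by
  have hu : IsUnit M.det := isUnit_iff_ne_zero.2 hM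
  have h1 : M.mulVec (M⁻¹.mulVec q.rep) = q.rep := by
    rw [Matrix.mulVec_mulVec, Matrix.mul_nonsing_inv M hu, Matrix.one_mulVec]
  refine ⟨M⁻¹.mulVec q.rep, ?_, ?_⟩
  · intro h
    rw [h, Matrix.mulVec_zero] at h1
    exact q.rep_nonzero h1.symm
  · rw [h1, mkP_eq q.rep_nonzero, Projectivization.mk_rep]


end Pool.Agent.VCI
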