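import Pool.Agent.VCI.Frame0

/-! Complete intersections: frames through two points (vectors only). -/

set_option autoImplicit false

open MvPolynomial

namespace Pool.Agent.VCI.FrameA

open Pool.Agent.VGS

/-! ### linear substitutions -/

theorem frG_frG {n : ℕ} (F : MvPolynomial (Fin n) ℂ) (M M' : Matrix (Fin n) (Fin n) ℂ) :
    frG (frG F M) M' = frG F (M * M') := by
  apply MvPolynomial.funext
  intro z
  have h : ∀ P : MvPolynomial (Fin n) ℂ, MvPolynomial.eval z P = aeval z P := fun P => rfl
  rw [h, h, aeval_frG, aeval_frG, aeval_frG, Matrix.mulVec_mulVec]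

theorem frG_one {n : ℕ} (F : MvPolynomial (Fin n) ℂ) : frG F 1 = F := by
  apply MvPolynomial.funext
  intro z
  have h : ∀ P : MvPolynomial (Fin n) ℂ, MvPolynomial.eval z P = aeval z P := fun P => rfl
  rw [h, h, aeval_frG, Matrix.one_mulVec]

theorem coef_frG {n : ℕ} {L : Fl} {F : MvPolynomial (Fin n) ℂ} (hF : Coef L F)
    {M : Matrix (Fin n) (Fin n) ℂ} (hM : ∀ i j, M i j ∈ L) : Coef L (frG F M) := by
  obtain ⟨F₀, rfl⟩ := coef_iff.mp hF
  refine coef_iff.mpr
    ⟨aeval (fun i => ∑ j, C (⟨M i j, hM i j⟩ : L) * X j : Fin n → MvPolynomial (Fin n) L) F₀, ?_⟩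
  have h : ∀ P : MvPolynomial (Fin n) L, MvPolynomial.map (algebraMap L ℂ)
      (aeval (fun i => ∑ j, C (⟨M i j, hM i j⟩ : L) * X j : Fin n → MvPolynomial (Fin n) L) P) =
      frG (MvPolynomial.map (algebraMap L ℂ) P) M := by
    intro P
    induction P using MvPolynomial.induction_on with
    | C a => simp [frG]
    | add p q hp hq => simp only [map_add, hp, hq, frG]
    | mul_X p i hp =>
      simp only [map_mul, hp, frG, aeval_X, map_X, map_sum, map_C]
      rfl
  exact h F₀

theorem det_mem {L : Fl} {n : ℕ} {M : Matrix (Fin n) (Fin n) ℂ} (hM : ∀ i j, M i j ∈ L) :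
    M.det ∈ L := by
  rw [Matrix.det_apply]
  refine sum_mem fun σ _ => ?_
  rw [Units.smul_def]
  exact zsmul_mem (prod_mem fun i _ => hM _ _) _

theorem minv_mem {n : ℕ} {L : Fl} {M : Matrix (Fin n) (Fin n) ℂ} (hM : ∀ i j, M i j ∈ L)
    (i j : Fin n) : M⁻¹ i j ∈ L := by
  rw [Matrix.inv_def, Ring.inverse_eq_inv', Matrix.smul_apply, smul_eq_mul]
  refine mul_mem (inv_mem (det_mem hM)) ?_
  rw [Matrix.adjugate_apply]
  refine det_mem fun a b => ?_
  rw [Matrix.updateRow_apply]
  split_ifs
  · rw [Pi.single_apply]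
    split_ifs
    · exact one_mem _
    · exact zero_mem _
  · exact hM _ _

theorem coef_of_frG {n : ℕ} {L : Fl} {F : MvPolynomial (Fin n) ℂ}
    {M : Matrix (Fin n) (Fin n) ℂ} (hM : M.det ≠ 0) (hM' : ∀ i j, M i j ∈ L)
    (hF : Coef L (frG F M)) : Coef L F := by
  have h1 : F = frG (frG F M) M⁻¹ := by
    rw [frG_frG, Matrix.mul_nonsing_inv _ (isUnit_iff_ne_zero.mpr hM), frG_one]
  have h2 : Coef L (frG (frG F M) M⁻¹) := coef_frG hF (minv_mem hM')
  rwa [← h1] at h2

theorem aeval_single {n : ℕ} {G : MvPolynomial (Fin n) ℂ} {d : ℕ} (hG : G.IsHomogeneous d)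
    (i : Fin n) :
    aeval (Pi.single i 1 : Fin n → ℂ) G = coeff (Finsupp.single i d) G := by
  rw [MvPolynomial.aeval_def, MvPolynomial.eval₂_eq']
  simp only [Algebra.algebraMap_self, RingHom.id_apply]
  rw [Finset.sum_eq_single (Finsupp.single i d)]
  · rw [Finset.prod_eq_one, mul_one]
    intro j _
    by_cases h : j = i
    · subst h; simp
    · simp [h]
  · intro m hm hne
    have hdeg : m.degree = d := by
      by_contra hcon
      exact (mem_support_iff.mp hm) (hG.coeff_eq_zero hcon)
    obtain ⟨j, hj, hj'⟩ : ∃ j, j ≠ i ∧ m j ≠ 0 := by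
      by_contra hcon
      push Not at hcon
      apply hne
      have h1 : m = Finsupp.single i (m i) := by
        ext j
        by_cases h : j = i
        · subst h; simp
        · rw [hcon j h, Finsupp.single_apply, if_neg (Ne.symm h)]
      rw [h1] at hdeg ⊢
      rw [Finsupp.degree_single] at hdeg
      rw [hdeg]
    rw [Finset.prod_eq_zero (Finset.mem_univ j), mul_zero]
    simp [hj, hj']
  · intro h
    rw [notMem_support_iff.mp h, zero_mul]

theorem fa_aeval_scale {n : ℕ} {G : MvPolynomial (Fin n) ℂ} {e : ℕ} (hG : G.IsHomogeneous e)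
    {z w : Fin n → ℂ} {a : ℂ} (h : ∀ i, z i = a * w i) :
    aeval z G = a ^ e * aeval w G := by
  rw [aeval_def, aeval_def, eval₂_eq, eval₂_eq, Finset.mul_sum]
  refine Finset.sum_congr rfl fun m hm => ?_
  have hd : m.degree = e := by
    by_contra hcon
    exact (mem_support_iff.mp hm) (hG.coeff_eq_zero hcon)
  have h1 : ∏ i ∈ m.support, z i ^ m i = a ^ e * ∏ i ∈ m.support, w i ^ m i := by
    have h2 : ∏ i ∈ m.support, a ^ m i = a ^ e := by
      rw [Finset.prod_pow_eq_pow_sum, ← hd]
      rfl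
    rw [← h2, ← Finset.prod_mul_distrib]
    refine Finset.prod_congr rfl fun i _ => ?_
    rw [h i, mul_pow]
  rw [h1]
  ring

/-! ### the matrix -/

/-- The index type of the generic entries. -/
abbrev Ix (r : ℕ) : Type := (Fin (r + 3) × Fin (r + 1)) ⊕ Fin 2

/-- The matrix of a frame. -/
def FM {r : ℕ} {R : Type} [CommRing R] (w : Ix r → R) (z y : Fin (r + 3) → R) :
    Matrix (Fin (r + 3)) (Fin (r + 3)) R :=
  fun i j => if h : j.val < r + 1 then w (Sum.inl (i, ⟨j.val, h⟩))
    else if j = pen r then w (Sum.inr 1) * y i else w (Sum.inr 0) * z i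

theorem FM_lst {r : ℕ} {R : Type} [CommRing R] (w : Ix r → R) (z y : Fin (r + 3) → R)
    (i : Fin (r + 3)) : FM w z y i (lst r) = w (Sum.inr 0) * z i := by
  have h1 : ¬ (lst r).val < r + 1 := by simp [lst]
  have h2 : lst r ≠ pen r := by
    intro h
    have := congrArg Fin.val h
    simp [lst, pen] at this
  unfold FM
  rw [dif_neg h1, if_neg h2]

theorem FM_pen {r : ℕ} {R : Type} [CommRing R] (w : Ix r → R) (z y : Fin (r + 3) → R)
    (i : Fin (r + 3)) : FM w z y i (pen r) = w (Sum.inr 1) * y i := by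
  have h1 : ¬ (pen r).val < r + 1 := by simp [pen]
  unfold FM
  rw [dif_neg h1, if_pos rfl]

theorem FM_lt {r : ℕ} {R : Type} [CommRing R] (w : Ix r → R) (z y : Fin (r + 3) → R)
    (i : Fin (r + 3)) (j : Fin (r + 1)) :
    FM w z y i ⟨j.val, by omega⟩ = w (Sum.inl (i, j)) := by
  unfold FM
  rw [dif_pos j.isLt]

theorem FM_map {r : ℕ} {R S : Type} [CommRing R] [CommRing S] (f : R →+* S) (w : Ix r → R)
    (z y : Fin (r + 3) → R) :
    f.mapMatrix (FM w z y) = FM (fun x => f (w x)) (fun i => f (z i)) (fun i => f (y i)) := by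
  ext i j
  rw [RingHom.mapMatrix_apply, Matrix.map_apply]
  unfold FM
  split_ifs
  · rfl
  · rw [map_mul]
  · rw [map_mul]

/-- there is an invertible matrix with two given columns -/
theorem exists_FM {r : ℕ} {z y : Fin (r + 3) → ℂ} {p q : Fin (r + 3)}
    (h : y p * z q - y q * z p ≠ 0) : ∃ w : Ix r → ℂ, (FM w z y).det ≠ 0 := by
  classical
  have hpq : p ≠ q := by
    rintro rfl
    exact h (sub_self _)
  have hpl : pen r ≠ lst r := by
    intro h
    have := congrArg Fin.val h
    simp [lst, pen] at this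
  obtain ⟨σ, hσl, hσp⟩ : ∃ σ : Equiv.Perm (Fin (r + 3)), σ (lst r) = q ∧ σ (pen r) = p := by
    refine ⟨(Equiv.swap (lst r) q).trans (Equiv.swap (Equiv.swap (lst r) q (pen r)) p), ?_, ?_⟩
    · rw [Equiv.trans_apply, Equiv.swap_apply_left, Equiv.swap_apply_of_ne_of_ne]
      · intro h1
        have h2 : Equiv.swap (lst r) q (lst r) = Equiv.swap (lst r) q (pen r) := by
          rw [Equiv.swap_apply_left]; exact h1
        exact hpl ((Equiv.injective _) h2).symm
      · exact hpq.symm
    · rw [Equiv.trans_apply, Equiv.swap_apply_left]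
  refine ⟨Sum.elim (fun ij => if ij.1 = σ ⟨ij.2.val, by omega⟩ then 1 else 0) (fun _ => 1), ?_⟩
  intro h0
  obtain ⟨x, hx0, hx⟩ := Matrix.exists_mulVec_eq_zero_iff.mpr h0
  have key : ∀ i, z i * x (lst r) + y i * x (pen r) +
      (if σ.symm i = lst r ∨ σ.symm i = pen r then 0 else x (σ.symm i)) = 0 := by
    intro i
    have h1 := congrFun hx i
    rw [Matrix.mulVec, dotProduct] at h1
    refine Eq.trans ?_ (h1.trans (Pi.zero_apply i))
    have h2 : ∀ j, FM (Sum.elim (fun ij => if ij.1 = σ ⟨ij.2.val, by omega⟩ then 1 else 0)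
        (fun _ => 1)) z y i j * x j = (if j = lst r then z i * x (lst r) else 0) +
        (if j = pen r then y i * x (pen r) else 0) +
        (if j = σ.symm i then (if j = lst r ∨ j = pen r then 0 else x j) else 0) := by
      intro j
      by_cases hl : j = lst r
      · subst hl
        rw [FM_lst]
        simp [hpl.symm]
      · by_cases hp : j = pen r
        · subst hp
          rw [FM_pen]
          simp [hpl]
        · have hlt : j.val < r + 1 := by
            have h3 : j.val ≠ r + 2 := fun h => hl (Fin.ext h)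
            have h4 : j.val ≠ r + 1 := fun h => hp (Fin.ext h)
            have := j.isLt
            omega
          have h5 := FM_lt (Sum.elim (fun ij => if ij.1 = σ ⟨ij.2.val, by omega⟩ then 1 else 0)
            (fun _ => 1)) z y i ⟨j.val, hlt⟩
          have h6 : (⟨(⟨j.val, hlt⟩ : Fin (r + 1)).val, by omega⟩ : Fin (r + 3)) = j := rfl
          rw [h6] at h5
          rw [h5]
          have h7 : (i = σ j) ↔ (j = σ.symm i) := by
            rw [Equiv.eq_symm_apply]
            exact ⟨fun h => h.symm, fun h => h.symm⟩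
          simp only [Sum.elim_inl, hl, hp, if_false, zero_add, or_self, h7]
          split_ifs <;> simp
    rw [Finset.sum_congr rfl fun j _ => h2 j, Finset.sum_add_distrib, Finset.sum_add_distrib]
    simp
  have hq := key q
  have hp := key p
  rw [← hσl, Equiv.symm_apply_apply, if_pos (Or.inl rfl), add_zero, hσl] at hq
  rw [← hσp, Equiv.symm_apply_apply, if_pos (Or.inr rfl), add_zero, hσp] at hp
  have hl0 : x (lst r) = 0 := by
    have h1 : (y p * z q - y q * z p) * x (lst r) = 0 := by linear_combination y p * hq - y q * hp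
    exact (mul_eq_zero.mp h1).resolve_left h
  have hp0 : x (pen r) = 0 := by
    have h1 : (y p * z q - y q * z p) * x (pen r) = 0 := by linear_combination z q * hp - z p * hq
    exact (mul_eq_zero.mp h1).resolve_left h
  apply hx0
  funext j
  have hj := key (σ j)
  rw [Equiv.symm_apply_apply, hl0, hp0, mul_zero, mul_zero, add_zero, zero_add] at hj
  rw [Pi.zero_apply]
  split_ifs at hj with h1
  · rcases h1 with h1 | h1
    · rw [h1, hl0]
    · rw [h1, hp0]
  · exact hj

/-- the generic matrix with two given columns is invertible -/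
theorem FM_det_ne {r : ℕ} {L : Fl} {w : Ix r → ℂ} (hw : AlgebraicIndependent L w)
    {z y : Fin (r + 3) → ℂ} (hz : ∀ i, z i ∈ L) (hy : ∀ i, y i ∈ L) {p q : Fin (r + 3)}
    (h : y p * z q - y q * z p ≠ 0) : (FM w z y).det ≠ 0 := by
  intro h0
  obtain ⟨w₀, hw₀⟩ := exists_FM h
  rw [ai_iff] at hw
  set P : MvPolynomial (Ix r) ℂ := (FM X (fun i => C (z i)) (fun i => C (y i))).det with hP
  have hev : ∀ u : Ix r → ℂ, aeval u P = (FM u z y).det := by
    intro u
    have h1 : aeval u P = (aeval u : MvPolynomial (Ix r) ℂ →ₐ[ℂ] ℂ).toRingHom P := rfl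
    rw [h1, hP, RingHom.map_det, FM_map]
    congr 1
    congr 1
    · funext x
      simp
    · funext x
      simp
    · funext x
      simp
  have hcoef : Coef L P := by
    refine coef_iff.mpr ⟨(FM X (fun i => C (⟨z i, hz i⟩ : L)) (fun i => C (⟨y i, hy i⟩ : L))).det,
      ?_⟩
    rw [RingHom.map_det, FM_map, hP]
    congr 1
    congr 1
    · funext x
      simp
    · funext x
      simp only [map_C]
      rfl
    · funext x
      simp only [map_C]
      rfl
  have h1 := hw P hcoef (by rw [hev, h0])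
  apply hw₀
  rw [← hev, h1, map_zero]

/-! ### the cardinality -/

theorem card_le {r : ℕ} {d : Fin r → ℕ} (hd : ∀ i, 2 ≤ d i) :
    Nat.card (Mon d) + 2 * r ≤ Nat.card (MonA (r + 3) d) := by
  have hpl : pen r ≠ lst r := by
    intro h
    have := congrArg Fin.val h
    simp [lst, pen] at this
  let f : Mon d ⊕ (Fin r ⊕ Fin r) → MonA (r + 3) d := fun x => match x with
    | Sum.inl m => ⟨m.1, m.2.1⟩
    | Sum.inr (Sum.inl i) => ⟨(i, Finsupp.single (lst r) (d i)), Finsupp.degree_single _ _⟩
    | Sum.inr (Sum.inr i) => ⟨(i, Finsupp.single (pen r) (d i)), Finsupp.degree_single _ _⟩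
  have hne : ∀ i, Finsupp.single (lst r) (d i) ≠ Finsupp.single (pen r) (d i) := by
    intro i h
    have h1 := DFunLike.congr_fun h (lst r)
    rw [Finsupp.single_eq_same, Finsupp.single_eq_of_ne hpl.symm] at h1
    have := hd i
    omega
  have hf : Function.Injective f := by
    rintro (m | i | i) (m' | i' | i') h
    · have h1 := congrArg Subtype.val h
      exact congrArg Sum.inl (Subtype.ext h1)
    · exfalso
      have h1 : m.1 = (i', Finsupp.single (lst r) (d i')) := congrArg Subtype.val h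
      apply m.2.2.1
      rw [h1]
    · exfalso
      have h1 : m.1 = (i', Finsupp.single (pen r) (d i')) := congrArg Subtype.val h
      apply m.2.2.2
      rw [h1]
    · exfalso
      have h1 : (i, Finsupp.single (lst r) (d i)) = m'.1 := congrArg Subtype.val h
      apply m'.2.2.1
      rw [← h1]
    · have h1 : (i, Finsupp.single (lst r) (d i)) = (i', Finsupp.single (lst r) (d i')) :=
        congrArg Subtype.val h
      obtain rfl : i = i' := congrArg Prod.fst h1
      rfl
    · exfalso
      have h1 : (i, Finsupp.single (lst r) (d i)) = (i', Finsupp.single (pen r) (d i')) :=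
        congrArg Subtype.val h
      have h2 : i = i' := congrArg Prod.fst h1
      subst h2
      exact hne i (congrArg Prod.snd h1)
    · exfalso
      have h1 : (i, Finsupp.single (pen r) (d i)) = m'.1 := congrArg Subtype.val h
      apply m'.2.2.2
      rw [← h1]
    · exfalso
      have h1 : (i, Finsupp.single (pen r) (d i)) = (i', Finsupp.single (lst r) (d i')) :=
        congrArg Subtype.val h
      have h2 : i = i' := congrArg Prod.fst h1
      subst h2
      exact hne i (congrArg Prod.snd h1).symm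
    · have h1 : (i, Finsupp.single (pen r) (d i)) = (i', Finsupp.single (pen r) (d i')) :=
        congrArg Subtype.val h
      obtain rfl : i = i' := congrArg Prod.fst h1
      rfl
  have h1 := Nat.card_le_card_of_injective f hf
  rw [Nat.card_sum, Nat.card_sum, Nat.card_fin] at h1
  omega

end Pool.Agent.VCI.FrameA

namespace Pool.Agent.VCI

open Pool.Agent.VGS

variable {r : ℕ} {d : Fin r → ℕ} {F : Fin r → MvPolynomial (Fin (r + 3)) ℂ}

/-- The frame: columns `v` and `μ₀ y`, `μ₁ z` with `v`, `μ` generic over `K (y, z)`,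
`K = k (coefficients of the F i)`. The family `frX` has
`(r + 3) ^ 2 + |A| - 2 r = |A| + 2 + 2 + (r + 1) (r + 3) + 2` members and generates a field
containing the coefficients of the `F i`, two coordinates of `z`, two of `y`, `v` and `μ` : count. -/
theorem exists_frameV (k : Fl) [Countable k] (hF : ∀ i, (F i).IsHomogeneous (d i))
    (hd : ∀ i, 2 ≤ d i)
    (hind : AlgebraicIndependent k (fun m : MonA (r + 3) d => coeff m.1.2 (F m.1.1)))
    {z y : Fin (r + 3) → ℂ} (hz : ∀ i, aeval z (F i) = 0) (hy : ∀ i, aeval y (F i) = 0)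
    {i₀ i₁ : Fin (r + 3)} (hz1 : z i₀ = 1) (hy1 : y i₁ = 1) {j₀ l₀ j₁ l₁ : Fin (r + 3)}
    (h2 : AlgebraicIndependent
      (adj k (Set.range fun m : MonA (r + 3) d => coeff m.1.2 (F m.1.1))) ![z j₀, z l₀])
    (h3 : AlgebraicIndependent
      (adj (adj k (Set.range fun m : MonA (r + 3) d => coeff m.1.2 (F m.1.1))) (Set.range z))
      ![y j₁, y l₁]) :
    ∃ M : Matrix (Fin (r + 3)) (Fin (r + 3)) ℂ, (∃ μ : ℂ, μ ≠ 0 ∧ ∀ i, M i (lst r) = μ * z i) ∧
      (∃ μ : ℂ, μ ≠ 0 ∧ ∀ i, M i (pen r) = μ * y i) ∧ AlgebraicIndependent k (frX d F M) := by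
  classical
  set a : MonA (r + 3) d → ℂ := fun m => coeff m.1.2 (F m.1.1) with ha
  set K : Fl := adj k (Set.range a) with hK
  have hcz : Countable (Set.range z) := (Set.countable_range _).to_subtype
  have hcy : Countable (Set.range y) := (Set.countable_range _).to_subtype
  have hca : Countable (Set.range a) := (Set.countable_range _).to_subtype
  have hcK : Countable K := countable_adj _ _
  have hcL₁ : Countable (adj K (Set.range z)) := countable_adj _ _
  set L : Fl := adj (adj K (Set.range z)) (Set.range y) with hL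
  have hcL : Countable L := countable_adj _ _
  -- the generic entries
  obtain ⟨w, hw⟩ : ∃ w : FrameA.Ix r → ℂ, AlgebraicIndependent L w := by
    obtain ⟨m, hm⟩ := exists_algInd L (Fintype.card (FrameA.Ix r))
    exact ⟨fun x => m (Fintype.equivFin _ x), hm.comp _ (Equiv.injective _)⟩
  have hzL : ∀ i, z i ∈ L := fun i => le_adj _ _ (subset_adj _ _ ⟨i, rfl⟩)
  have hyL : ∀ i, y i ∈ L := fun i => subset_adj _ _ ⟨i, rfl⟩
  -- the two points are different
  obtain ⟨p, q, hpq⟩ : ∃ p q, y p * z q - y q * z p ≠ 0 := by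
    by_contra hcon
    push Not at hcon
    have h4 : ∀ p, y p = y i₀ * z p := by
      intro p
      have := hcon p i₀
      rw [hz1] at this
      linear_combination this
    have h5 : y i₀ * z i₁ = 1 := by rw [← h4, hy1]
    have h6 : y i₀ ∈ adj K (Set.range z) := by
      rw [eq_inv_of_mul_eq_one_left h5]
      exact inv_mem (subset_adj _ _ ⟨i₁, rfl⟩)
    have h7 := (algInd_pair_iff.mp h3).1
    apply h7
    apply le_clo
    rw [h4]
    exact mul_mem h6 (subset_adj _ _ ⟨l₁, rfl⟩)
  have hdet := FrameA.FM_det_ne hw hzL hyL hpq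
  have hw0 := hw.ne_zero (Sum.inr 0)
  have hw1 := hw.ne_zero (Sum.inr 1)
  set M := FrameA.FM w z y with hM
  have hMl : ∀ i, M i (lst r) = w (Sum.inr 0) * z i := FrameA.FM_lst w z y
  have hMp : ∀ i, M i (pen r) = w (Sum.inr 1) * y i := FrameA.FM_pen w z y
  refine ⟨M, ⟨_, hw0, hMl⟩, ⟨_, hw1, hMp⟩, ?_⟩
  -- the independent family
  have hx1 : AlgebraicIndependent k (Sum.elim a ![z j₀, z l₀]) := ai_sum.mpr ⟨hind, h2⟩
  have hx2 : AlgebraicIndependent k (Sum.elim (Sum.elim a ![z j₀, z l₀]) ![y j₁, y l₁]) := by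
    refine ai_sum.mpr ⟨hx1, ai_mono ?_ h3⟩
    refine adj_le ((le_adj _ _).trans (le_adj _ _)) ?_
    rintro _ ⟨x | x, rfl⟩
    · exact le_adj _ _ (subset_adj _ _ ⟨x, rfl⟩)
    · refine subset_adj _ _ ?_
      fin_cases x
      · exact ⟨j₀, rfl⟩
      · exact ⟨l₀, rfl⟩
  have hx3 : AlgebraicIndependent k
      (Sum.elim (Sum.elim (Sum.elim a ![z j₀, z l₀]) ![y j₁, y l₁]) w) := by
    refine ai_sum.mpr ⟨hx2, ai_mono ?_ hw⟩
    refine adj_le ((le_adj _ _).trans ((le_adj _ _).trans (le_adj _ _))) ?_
    rintro _ ⟨(x | x) | x, rfl⟩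
    · exact le_adj _ _ (le_adj _ _ (subset_adj _ _ ⟨x, rfl⟩))
    · fin_cases x
      · exact hzL j₀
      · exact hzL l₀
    · fin_cases x
      · exact hyL j₁
      · exact hyL l₁
  -- the generated field
  set E : Fl := adj k (Set.range (frX d F M)) with hE
  have hME : ∀ i j, M i j ∈ E := fun i j => subset_adj _ _ ⟨Sum.inl (i, j), rfl⟩
  have hcol : ∀ (j : Fin (r + 3)) (i : Fin (r + 3)), M.mulVec (Pi.single j 1) i = M i j := by
    intro j i
    simp
  have hGl : ∀ i, coeff (Finsupp.single (lst r) (d i)) (frG (F i) M) = 0 := by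
    intro i
    rw [← FrameA.aeval_single (frG_hom (hF i) M), aeval_frG,
      FrameA.fa_aeval_scale (hF i) (w := z) (a := w (Sum.inr 0)) (fun j => by rw [hcol, hMl]), hz,
      mul_zero]
  have hGp : ∀ i, coeff (Finsupp.single (pen r) (d i)) (frG (F i) M) = 0 := by
    intro i
    rw [← FrameA.aeval_single (frG_hom (hF i) M), aeval_frG,
      FrameA.fa_aeval_scale (hF i) (w := y) (a := w (Sum.inr 1)) (fun j => by rw [hcol, hMp]), hy,
      mul_zero]
  have hGE : ∀ i, Coef E (frG (F i) M) := by
    intro i m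
    by_cases h4 : m.degree = d i
    · by_cases h5 : m = Finsupp.single (lst r) (d i)
      · rw [h5, hGl]
        exact zero_mem _
      · by_cases h6 : m = Finsupp.single (pen r) (d i)
        · rw [h6, hGp]
          exact zero_mem _
        · exact subset_adj _ _ ⟨Sum.inr ⟨(i, m), h4, h5, h6⟩, rfl⟩
    · rw [(frG_hom (hF i) M).coeff_eq_zero h4]
      exact zero_mem _
  have hFE : ∀ i, Coef E (F i) := fun i => FrameA.coef_of_frG hdet hME (hGE i)
  have hw0E : w (Sum.inr 0) ∈ E := by
    have := hME i₀ (lst r)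
    rwa [hMl, hz1, mul_one] at this
  have hw1E : w (Sum.inr 1) ∈ E := by
    have := hME i₁ (pen r)
    rwa [hMp, hy1, mul_one] at this
  have hzE : ∀ i, z i ∈ E := by
    intro i
    have h4 : z i = (w (Sum.inr 0))⁻¹ * M i (lst r) := by
      rw [hMl, inv_mul_cancel_left₀ hw0]
    rw [h4]
    exact mul_mem (inv_mem hw0E) (hME _ _)
  have hyE : ∀ i, y i ∈ E := by
    intro i
    have h4 : y i = (w (Sum.inr 1))⁻¹ * M i (pen r) := by
      rw [hMp, inv_mul_cancel_left₀ hw1]
    rw [h4]
    exact mul_mem (inv_mem hw1E) (hME _ _)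
  have hwE : ∀ x, w x ∈ E := by
    rintro (⟨i, j⟩ | x)
    · have h4 : M i ⟨j.val, by omega⟩ = w (Sum.inl (i, j)) := FrameA.FM_lt w z y i j
      rw [← h4]
      exact hME _ _
    · fin_cases x
      · exact hw0E
      · exact hw1E
  refine ai_card hx3 ?_ ?_
  · have h4 := FrameA.card_le hd
    simp only [Nat.card_sum, Nat.card_prod, Nat.card_fin]
    nlinarith [h4]
  · rintro (((x | x) | x) | x)
    · exact le_clo _ (hFE x.1.1 x.1.2)
    · fin_cases x
      · exact le_clo _ (hzE j₀)
      · exact le_clo _ (hzE l₀)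
    · fin_cases x
      · exact le_clo _ (hyE j₁)
      · exact le_clo _ (hyE l₁)
    · exact le_clo _ (hwE x)

end Pool.Agent.VCI
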