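import Pool.Agent.VCI.PlaceP
import Pool.Agent.VCI.AutP
import Pool.Agent.VCI.FrameA

/-! Complete intersections, module AsmA: orbits, linear changes of coordinates, limits. -/

set_option autoImplicit false

open scoped LinearAlgebra.Projectivization
open MvPolynomial

namespace Pool.Agent.VCI

open Pool.Agent.VGS

variable {n r : ℕ}

alias asm_sumSet_apply := sumSet_apply
alias asm_orb_mem_iff := orb_mem_iff
alias asm_exists_inv_mat := exists_inv_mat
alias asm_mulVec_ne_zero' := mulVec_ne_zero'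
alias asm_mulVec_mem := mulVec_mem
alias asm_mkP_mulVec := mkP_mulVec
alias asm_exists_mkP := exists_mulVec_pt

/-! ### linear changes of coordinates -/

section

variable [NeZero n]

theorem asm_mkP_mulVec_smul {M : Matrix (Fin n) (Fin n) ℂ} (hdet : M.det ≠ 0) {w : Fin n → ℂ}
    (hw : w ≠ 0) {a : ℂ} (ha : a ≠ 0) : mkP (M.mulVec (a • w)) = mkP (M.mulVec w) := by
  rw [mkP_mulVec hdet hw, mkP_mulVec hdet (smul_ne_zero ha hw)]
  refine mk_eq_mk_of_mul (a := a) _ _ fun i => ?_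
  rw [Matrix.mulVec_smul]
  rfl

theorem asm_mkP_mem_surf {F : Fin r → MvPolynomial (Fin n) ℂ} {d : Fin r → ℕ}
    (hF : ∀ i, (F i).IsHomogeneous (d i)) {M : Matrix (Fin n) (Fin n) ℂ} (hdet : M.det ≠ 0)
    {z : Fin n → ℂ} (hz : z ≠ 0) :
    mkP (M.mulVec z) ∈ ciS F ↔ ∀ i, aeval z (frG (F i) M) = 0 := by
  rw [mkP_mulVec hdet hz, mem_surf_mk hF]
  simp only [aeval_frG]

theorem asm_over_mulVec {L : Fl} {M : Matrix (Fin n) (Fin n) ℂ} (hdet : M.det ≠ 0)
    (hL : ∀ i j, M i j ∈ L) {z : Fin n → ℂ} {j : Fin n} (hzj : z j = 1) :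
    Over L (mkP (M.mulVec z)) ↔ ∀ i, z i ∈ L := by
  have hz : z ≠ 0 := by
    rintro rfl
    exact zero_ne_one hzj
  rw [mkP_mulVec hdet hz]
  constructor
  · rintro ⟨w, hw, hwL, h⟩
    obtain ⟨a, ha, h1⟩ := (mk_eq_mk_iff_exists _ _).1 h
    obtain ⟨N, hN, hNM, -⟩ := exists_inv_mat hdet hL
    have h2 : z = a • N.mulVec w := by
      rw [← Matrix.mulVec_smul]
      have h3 : M.mulVec z = a • w := funext h1
      rw [← h3, Matrix.mulVec_mulVec, hNM, Matrix.one_mulVec]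
    have h4 : a * N.mulVec w j = 1 := by
      rw [← hzj]
      conv_rhs => rw [h2]
      rfl
    have h5 : a = (N.mulVec w j)⁻¹ := eq_inv_of_mul_eq_one_left h4
    intro i
    have h6 : z i = a * N.mulVec w i := congrFun h2 i
    rw [h6, h5]
    exact L.mul_mem (L.inv_mem (mulVec_mem hN hwL j)) (mulVec_mem hN hwL i)
  · intro h
    exact ⟨_, _, mulVec_mem hL h, rfl⟩

theorem asm_act_mkP {L : Fl} {M : Matrix (Fin n) (Fin n) ℂ} (hdet : M.det ≠ 0)
    (hL : ∀ i j, M i j ∈ L) {σ : ℂ ≃+* ℂ} (hσ : σ ∈ VGS.Fix L) {z : Fin n → ℂ} (hz : z ≠ 0) :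
    act σ (mkP (M.mulVec z)) = mkP (M.mulVec fun i => σ (z i)) := by
  have h : (fun i => σ (M.mulVec z i)) = M.mulVec fun i => σ (z i) := by
    funext i
    simp only [Matrix.mulVec, dotProduct, map_sum, map_mul]
    exact Finset.sum_congr rfl fun j _ => by rw [hσ _ (hL i j)]
  rw [mkP_mulVec hdet hz, mkP_mulVec hdet (map_ne_zero' σ hz),
    act_mk σ _ _ (map_ne_zero' σ (mulVec_ne_zero' hdet hz))]
  congr 1

omit [NeZero n] in
theorem asm_sp_mulVec {V : ValuationSubring ℂ} {C : Fl} (hV : IsPl V C)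
    {M : Matrix (Fin n) (Fin n) ℂ} (hL : ∀ i j, M i j ∈ C) {s w : Fin n → ℂ}
    (h : ∀ i, Sp V C (s i) (w i)) (i : Fin n) : Sp V C (M.mulVec s i) (M.mulVec w i) := by
  unfold Matrix.mulVec dotProduct
  exact Sp.sum hV _ fun j _ => (Sp.const hV (hL i j)).mul hV (h j)

theorem asm_spP_mulVec {V : ValuationSubring ℂ} {C : Fl} (hV : IsPl V C)
    {M : Matrix (Fin n) (Fin n) ℂ} (hdet : M.det ≠ 0) (hL : ∀ i j, M i j ∈ C) {s w : Fin n → ℂ}
    (hs : s ≠ 0) (hw : w ≠ 0) :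
    SpP V C (mkP (M.mulVec s)) (mkP (M.mulVec w)) ↔
      SpP V C (Projectivization.mk ℂ s hs) (Projectivization.mk ℂ w hw) := by
  rw [mkP_mulVec hdet hs, mkP_mulVec hdet hw]
  constructor
  · rintro ⟨s', w', hs', hw', h1, h2, h3⟩
    obtain ⟨N, hN, hNM, hMN⟩ := exists_inv_mat hdet hL
    obtain ⟨a, ha, h4⟩ := (mk_eq_mk_iff_exists _ _).1 h1
    obtain ⟨b, hb, h5⟩ := (mk_eq_mk_iff_exists _ _).1 h2
    have h4' : s = a • N.mulVec s' := by
      rw [← Matrix.mulVec_smul]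
      have h3 : M.mulVec s = a • s' := funext h4
      rw [← h3, Matrix.mulVec_mulVec, hNM, Matrix.one_mulVec]
    have h5' : w = b • N.mulVec w' := by
      rw [← Matrix.mulVec_smul]
      have h3 : M.mulVec w = b • w' := funext h5
      rw [← h3, Matrix.mulVec_mulVec, hNM, Matrix.one_mulVec]
    have h6 : N.mulVec s' ≠ 0 := by
      intro h0
      rw [h0, smul_zero] at h4'
      exact hs h4'
    have h7 : N.mulVec w' ≠ 0 := by
      intro h0
      rw [h0, smul_zero] at h5'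
      exact hw h5'
    refine ⟨_, _, h6, h7, ?_, ?_, asm_sp_mulVec hV hN h3⟩
    · exact mk_eq_mk_of_mul (a := a) _ _ fun i => congrFun h4' i
    · exact mk_eq_mk_of_mul (a := b) _ _ fun i => congrFun h5' i
  · rintro ⟨s', w', hs', hw', h1, h2, h3⟩
    obtain ⟨a, ha, h4⟩ := (mk_eq_mk_iff_exists _ _).1 h1
    obtain ⟨b, hb, h5⟩ := (mk_eq_mk_iff_exists _ _).1 h2
    refine ⟨_, _, mulVec_ne_zero' hdet hs', mulVec_ne_zero' hdet hw', ?_, ?_,
      asm_sp_mulVec hV hL h3⟩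
    · refine mk_eq_mk_of_mul (a := a) _ _ fun i => ?_
      have : s = a • s' := funext h4
      rw [this, Matrix.mulVec_smul]
      rfl
    · refine mk_eq_mk_of_mul (a := b) _ _ fun i => ?_
      have : w = b • w' := funext h5
      rw [this, Matrix.mulVec_smul]
      rfl

/-! ### limits -/

/-- the limit of a conjugate of the point with coordinates `s` -/
theorem asm_lim {E : Fl} {u c : ℂ} (hc : c ∈ E) {M : Matrix (Fin n) (Fin n) ℂ}
    (hdet : M.det ≠ 0) (hME : ∀ i j, M i j ∈ E) {j : Fin n} {s : Fin n → ℂ}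
    (hs0 : ∀ i < j, s i = 0) (hsj : s j = 1) {V : ValuationSubring ℂ} (hV : IsPl V (clo E))
    (hu : Sp V (clo E) u c) {σ : ℂ ≃+* ℂ} (hσ : σ ∈ VGS.Fix (adj E {u})) {q : PN n}
    (h : SpP V (clo E) (act σ (mkP (M.mulVec s))) q) :
    (∃ w : Fin n → ℂ, w ≠ 0 ∧ (∀ i ≤ j, w i = 0) ∧ q = mkP (M.mulVec w)) ∨
    (∃ V', IsPl V' (clo E) ∧ Sp V' (clo E) u c ∧ ∃ w : Fin n → ℂ,
      (∀ i, Sp V' (clo E) (s i) (w i)) ∧ q = mkP (M.mulVec fun i => σ (w i))) := by
  have hs : s ≠ 0 := by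
    rintro rfl
    exact zero_ne_one hsj
  obtain ⟨w, hw, rfl⟩ := exists_mulVec_pt hdet q
  have hσE : σ ∈ VGS.Fix E := Fix_mono (le_adj _ _) hσ
  have hMC : ∀ i j, M i j ∈ clo E := fun i j => le_clo _ (hME i j)
  rw [asm_act_mkP hdet hME hσE hs, asm_spP_mulVec hV hdet hMC (map_ne_zero' σ hs) hw] at h
  have hw0 : ∀ i < j, w i = 0 := by
    intro i hi
    have h1 := spP_zero hV (map_ne_zero' σ hs) hw (isHomogeneous_X ℂ i)
      (fun m => by
        classical
        rw [coeff_X]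
        split_ifs
        · exact one_mem _
        · exact zero_mem _) h (by rw [aeval_X, hs0 i hi, map_zero])
    rwa [aeval_X] at h1
  by_cases hwj : w j = 0
  · refine Or.inl ⟨w, hw, fun i hi => ?_, rfl⟩
    rcases hi.lt_or_eq with h1 | h1
    · exact hw0 i h1
    · rw [h1]
      exact hwj
  · refine Or.inr ?_
    have hσj : (fun i => σ (s i)) j = 1 := by
      simp only [hsj, map_one]
    have hwj' : ((w j)⁻¹ • w) j = 1 := inv_mul_cancel₀ hwj
    have hw' : (w j)⁻¹ • w ≠ 0 := smul_ne_zero (inv_ne_zero hwj) hw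
    have h1 : (Projectivization.mk ℂ w hw : PN n) = Projectivization.mk ℂ ((w j)⁻¹ • w) hw' := by
      refine mk_eq_mk_of_mul (a := w j) _ _ fun i => ?_
      change w i = w j * ((w j)⁻¹ * w i)
      rw [mul_inv_cancel_left₀ hwj]
    rw [h1, spP_mk hV (map_ne_zero' σ hs) hw' hσj hwj'] at h
    have hσ' := (VGS.Fix (adj E {u})).inv_mem hσ
    have hσ'E : σ⁻¹ ∈ VGS.Fix E := Fix_mono (le_adj _ _) hσ'
    obtain ⟨V', hV', hSp, -⟩ := exists_transport (n := n) hV σ⁻¹ (fun x => fix_mem_clo hσ'E)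
    refine ⟨V', hV', ?_, fun i => σ⁻¹ (((w j)⁻¹ • w) i), fun i => ?_, ?_⟩
    · have h2 := (hSp u c).2 hu
      rwa [hσ' u (subset_adj _ _ rfl), hσ'E c hc] at h2
    · have h2 := (hSp _ _).2 (h i)
      have h3 : σ⁻¹ (σ (s i)) = s i := σ.symm_apply_apply _
      rwa [h3] at h2
    · rw [← asm_mkP_mulVec_smul hdet hw (inv_ne_zero hwj)]
      congr 2
      funext i
      exact (σ.apply_symm_apply _).symm

end

end Pool.Agent.VCI
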