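import Pool.Agent.VCI.Frame0

/-! Complete intersections: transitivity on frames, exchange of the two points of a frame. -/

set_option autoImplicit false

open MvPolynomial

namespace Pool.Agent.VCI

open Pool.Agent.VGS

variable {r : ℕ} {d : Fin r → ℕ} {F : Fin r → MvPolynomial (Fin (r + 3)) ℂ}

/-- two independent finite families over a countable field are conjugate -/
theorem fs_exists_fix_ai (k : Fl) [Countable k] {ι : Type} [Finite ι] {x y : ι → ℂ}
    (hx : AlgebraicIndependent k x) (hy : AlgebraicIndependent k y) :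
    ∃ σ ∈ VGS.Fix k, ∀ i, σ (x i) = y i := by
  obtain ⟨n, ⟨e⟩⟩ := Finite.exists_equiv_fin ι
  have key : ∀ {z : ι → ℂ}, AlgebraicIndependent k z → ∀ P : MvPolynomial (Fin n) ℂ, Coef k P →
      (aeval (z ∘ e.symm) P = 0 ↔ P = 0) := by
    intro z hz P hP
    obtain ⟨P', rfl⟩ := coef_iff.1 hP
    rw [MvPolynomial.aeval_map_algebraMap]
    have h1 := (hz.comp e.symm e.symm.injective)
    constructor
    · intro h
      have h2 : P' = 0 := h1 (by rw [h, map_zero])
      rw [h2, map_zero]
    · intro h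
      have h2 : P' = 0 := MvPolynomial.map_injective (algebraMap k ℂ) (algebraMap k ℂ).injective
        (by rw [h, map_zero])
      rw [h2, map_zero]
  obtain ⟨σ, hσ, h⟩ := VGS.exists_fix k (x ∘ e.symm) (y ∘ e.symm) (fun P hP => by
    rw [key hx P hP, key hy P hP])
  refine ⟨σ, hσ, fun i => ?_⟩
  have := h (e i)
  simpa using this

/-- ring homomorphisms and substitutions -/
theorem frG_mapG {n : ℕ} (σ : ℂ ≃+* ℂ) (G : MvPolynomial (Fin n) ℂ)
    (M : Matrix (Fin n) (Fin n) ℂ) :
    frG (MvPolynomial.map (σ : ℂ →+* ℂ) G) (M.map σ) = MvPolynomial.map (σ : ℂ →+* ℂ) (frG G M) := by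
  unfold frG
  rw [MvPolynomial.aeval_def, MvPolynomial.eval₂_map, MvPolynomial.aeval_def]
  rw [← MvPolynomial.coe_eval₂Hom, ← MvPolynomial.coe_eval₂Hom, ← RingHom.comp_apply]
  congr 1
  apply MvPolynomial.ringHom_ext
  · intro c
    simp
  · intro i
    simp

/-- an invertible substitution is injective -/
theorem frG_inj {n : ℕ} {G H : MvPolynomial (Fin n) ℂ} {M : Matrix (Fin n) (Fin n) ℂ}
    (hM : M.det ≠ 0) (h : frG G M = frG H M) : G = H := by
  apply MvPolynomial.funext
  intro w
  have h1 : M.mulVec (M⁻¹.mulVec w) = w := by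
    rw [Matrix.mulVec_mulVec, Matrix.mul_nonsing_inv _ (isUnit_iff_ne_zero.2 hM),
      Matrix.one_mulVec]
  have h2 := aeval_frG G M (M⁻¹.mulVec w)
  have h3 := aeval_frG H M (M⁻¹.mulVec w)
  rw [h1] at h2 h3
  change aeval w G = aeval w H
  rw [← h2, ← h3, h]

/-- The automorphism which maps the family `frX` of `M` to that of `M'`; it fixes the coefficients
of the `F i`, since `F i (M z) = G i (z)`, `F i (M' z) = G' i (z)` and `σ G i = G' i`, so that
`(σ F i) (M' z) = G' i (z) = F i (M' z)`. -/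
theorem frame_map (k : Fl) [Countable k] (hF : ∀ i, (F i).IsHomogeneous (d i))
    {M M' : Matrix (Fin (r + 3)) (Fin (r + 3)) ℂ} (hM : AlgebraicIndependent k (frX d F M))
    (hl : ∀ i, coeff (Finsupp.single (lst r) (d i)) (frG (F i) M) = 0)
    (hp : ∀ i, coeff (Finsupp.single (pen r) (d i)) (frG (F i) M) = 0)
    (hM' : AlgebraicIndependent k (frX d F M'))
    (hl' : ∀ i, coeff (Finsupp.single (lst r) (d i)) (frG (F i) M') = 0)
    (hp' : ∀ i, coeff (Finsupp.single (pen r) (d i)) (frG (F i) M') = 0) :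
    ∃ σ ∈ VGS.Fix (adj k (Set.range fun im : Fin r × (Fin (r + 3) →₀ ℕ) => coeff im.2 (F im.1))),
      ∀ i j, σ (M i j) = M' i j := by
  obtain ⟨σ, hσ, h⟩ := fs_exists_fix_ai k hM hM'
  have h1 : ∀ i j, σ (M i j) = M' i j := fun i j => h (Sum.inl (i, j))
  have h2 : ∀ m : Mon d, σ (coeff m.1.2 (frG (F m.1.1) M)) = coeff m.1.2 (frG (F m.1.1) M') :=
    fun m => h (Sum.inr m)
  have h3 : M.map σ = M' := by
    ext i j
    exact h1 i j
  have h4 : ∀ i, MvPolynomial.map (σ : ℂ →+* ℂ) (frG (F i) M) = frG (F i) M' := by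
    intro i
    ext m
    rw [MvPolynomial.coeff_map]
    change σ (coeff m (frG (F i) M)) = _
    by_cases hm : m.degree = d i
    · by_cases hml : m = Finsupp.single (lst r) (d i)
      · rw [hml, hl, hl', map_zero]
      · by_cases hmp : m = Finsupp.single (pen r) (d i)
        · rw [hmp, hp, hp', map_zero]
        · exact h2 ⟨(i, m), hm, hml, hmp⟩
    · rw [(frG_hom (hF i) M).coeff_eq_zero hm, (frG_hom (hF i) M').coeff_eq_zero hm, map_zero]
  have hdet : M'.det ≠ 0 := by
    apply det_ne_of_ai (k := k)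
    exact hM'.comp Sum.inl Sum.inl_injective
  have h5 : ∀ i, MvPolynomial.map (σ : ℂ →+* ℂ) (F i) = F i := by
    intro i
    apply frG_inj hdet
    rw [← h4 i, ← frG_mapG, h3]
  refine ⟨σ, VGS.mem_Fix_adj.2 ⟨hσ, ?_⟩, h1⟩
  rintro _ ⟨im, rfl⟩
  have h6 := congrArg (coeff im.2) (h5 im.1)
  rw [MvPolynomial.coeff_map] at h6
  exact h6

theorem pen_ne_lst (r : ℕ) : pen r ≠ lst r := by
  intro h
  have := congrArg Fin.val h
  simp [pen, lst] at this

/-- exchange of columns -/
theorem frG_swap {n : ℕ} (G : MvPolynomial (Fin n) ℂ) (M : Matrix (Fin n) (Fin n) ℂ)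
    (e : Equiv.Perm (Fin n)) :
    frG G (M.submatrix id e) = MvPolynomial.rename e.symm (frG G M) := by
  unfold frG
  rw [← AlgHom.comp_apply]
  congr 1
  apply MvPolynomial.algHom_ext
  intro i
  rw [AlgHom.comp_apply, aeval_X, aeval_X, map_sum,
    ← Equiv.sum_comp e (fun j => MvPolynomial.rename e.symm (C (M i j) * X j))]
  refine Finset.sum_congr rfl fun j _ => ?_
  rw [map_mul, MvPolynomial.rename_X, MvPolynomial.rename_C, Equiv.symm_apply_apply]
  rfl

/-- The automorphism which exchanges the last two indices in the family `frX`: `frame_map` with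
`M' = M.submatrix id (Equiv.swap (pen r) (lst r))`. -/
theorem frame_swap (k : Fl) [Countable k] (hF : ∀ i, (F i).IsHomogeneous (d i))
    {M : Matrix (Fin (r + 3)) (Fin (r + 3)) ℂ} (hM : AlgebraicIndependent k (frX d F M))
    (hl : ∀ i, coeff (Finsupp.single (lst r) (d i)) (frG (F i) M) = 0)
    (hp : ∀ i, coeff (Finsupp.single (pen r) (d i)) (frG (F i) M) = 0) :
    ∃ σ ∈ VGS.Fix (adj k (Set.range fun im : Fin r × (Fin (r + 3) →₀ ℕ) => coeff im.2 (F im.1))),
      ∀ i j, σ (M i j) = M i (Equiv.swap (pen r) (lst r) j) := by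
  set e : Equiv.Perm (Fin (r + 3)) := Equiv.swap (pen r) (lst r) with he
  have hes : e.symm = e := Equiv.symm_swap _ _
  have hel : e (lst r) = pen r := Equiv.swap_apply_right _ _
  have hep : e (pen r) = lst r := Equiv.swap_apply_left _ _
  have hee : ∀ j, e (e j) = j := fun j => by rw [he]; simp
  have hc : ∀ i m, coeff m (frG (F i) (M.submatrix id e)) =
      coeff (m.mapDomain e) (frG (F i) M) := by
    intro i m
    rw [frG_swap, hes]
    have hm : m = (m.mapDomain e).mapDomain e := by
      rw [← Finsupp.mapDomain_comp]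
      have : e ∘ e = id := funext hee
      rw [this, Finsupp.mapDomain_id]
    conv_lhs => rw [hm]
    rw [MvPolynomial.coeff_rename_mapDomain _ e.injective]
  have hMon : ∀ m : Mon d, (m.1.2.mapDomain e).degree = d m.1.1 ∧
      m.1.2.mapDomain e ≠ Finsupp.single (lst r) (d m.1.1) ∧
      m.1.2.mapDomain e ≠ Finsupp.single (pen r) (d m.1.1) := by
    intro m
    have hm : m.1.2 = (m.1.2.mapDomain e).mapDomain e := by
      rw [← Finsupp.mapDomain_comp]
      have : e ∘ e = id := funext hee
      rw [this, Finsupp.mapDomain_id]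
    refine ⟨?_, ?_, ?_⟩
    · rw [Finsupp.degree_mapDomain]
      exact m.2.1
    · intro h
      apply m.2.2.2
      rw [hm, h, Finsupp.mapDomain_single, hel]
    · intro h
      apply m.2.2.1
      rw [hm, h, Finsupp.mapDomain_single, hep]
  let g : (Fin (r + 3) × Fin (r + 3)) ⊕ Mon d → (Fin (r + 3) × Fin (r + 3)) ⊕ Mon d :=
    Sum.map (fun ij => (ij.1, e ij.2)) (fun m => ⟨(m.1.1, m.1.2.mapDomain e), hMon m⟩)
  have hg : Function.Injective g := by
    apply Sum.map_injective.2
    constructor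
    · rintro ⟨i, j⟩ ⟨i', j'⟩ h
      simp only [Prod.mk.injEq, EmbeddingLike.apply_eq_iff_eq] at h
      rw [h.1, h.2]
    · rintro m m' h
      apply Subtype.ext
      have h1 := congrArg Subtype.val h
      simp only [Prod.mk.injEq] at h1
      exact Prod.ext h1.1 (Finsupp.mapDomain_injective e.injective h1.2)
  have hX : frX d F (M.submatrix id e) = frX d F M ∘ g := by
    funext x
    rcases x with x | m
    · rfl
    · exact hc m.1.1 m.1.2
  have hM' : AlgebraicIndependent k (frX d F (M.submatrix id e)) := by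
    rw [hX]
    exact hM.comp g hg
  obtain ⟨σ, hσ, h⟩ := frame_map k hF hM hl hp hM' (by
    intro i
    rw [hc, Finsupp.mapDomain_single, hel]
    exact hp i) (by
    intro i
    rw [hc, Finsupp.mapDomain_single, hep]
    exact hl i)
  exact ⟨σ, hσ, fun i j => h i j⟩

end Pool.Agent.VCI
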