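import Pool.Agent.VCI.Basic
import Pool.Agent.VCI.FrameA
import Pool.Agent.VCI.FrameS

/-!
# Complete intersections: the generic points are conjugate
-/

set_option autoImplicit false

open scoped LinearAlgebra.Projectivization
open MvPolynomial

namespace Pool.Agent.VCI

open Pool.Agent.VGS

variable {r : ℕ} {d : Fin r → ℕ} {F : Fin r → MvPolynomial (Fin (r + 3)) ℂ}

theorem cof_eq_monA {n : ℕ} {F : Fin r → MvPolynomial (Fin n) ℂ} (k : Fl)
    (hF : ∀ i, (F i).IsHomogeneous (d i)) :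
    cof k F = adj k (Set.range fun m : MonA n d => coeff m.1.2 (F m.1.1)) := by
  apply le_antisymm
  · apply adj_le (le_adj _ _)
    rintro x ⟨⟨i, m⟩, rfl⟩
    by_cases h : m.degree = d i
    · exact subset_adj _ _ ⟨⟨(i, m), h⟩, rfl⟩
    · change coeff m (F i) ∈ _
      rw [(hF i).coeff_eq_zero h]
      exact zero_mem _
  · apply adj_le (le_adj _ _)
    rintro x ⟨m, rfl⟩
    exact subset_adj _ _ ⟨m.1, rfl⟩

theorem coef_cof {n : ℕ} (k : Fl) (F : Fin r → MvPolynomial (Fin n) ℂ) (i : Fin r) :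
    Coef (cof k F) (F i) := fun m => subset_adj _ _ ⟨(i, m), rfl⟩

instance countable_cof {n : ℕ} (k : Fl) [Countable k] (F : Fin r → MvPolynomial (Fin n) ℂ) :
    Countable (cof k F) := by
  have h : Countable (Set.range fun im : Fin r × (Fin n →₀ ℕ) => coeff im.2 (F im.1)) :=
    (Set.countable_range _).to_subtype
  exact countable_adj _ _

/-- normalised coordinates of a generic point -/
theorem gen_nrm {n : ℕ} {F : Fin r → MvPolynomial (Fin n) ℂ} {L : Fl}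
    (hF : ∀ i, (F i).IsHomogeneous (d i)) {p : PN n} (hp : p ∈ Gen L F) :
    ∃ (z : Fin n → ℂ) (hz : z ≠ 0) (i j l : Fin n), z i = 1 ∧ p = Projectivization.mk ℂ z hz ∧
      (∀ a, aeval z (F a) = 0) ∧ AlgebraicIndependent L ![z j, z l] := by
  obtain ⟨h0, i, j, l, hi, h⟩ := hp
  have h1 : (fun a => p.rep a / p.rep i) i = 1 := div_self hi
  have hz : (fun a => p.rep a / p.rep i) ≠ 0 := by
    intro h2
    have h3 := congrFun h2 i
    beta_reduce at h1 h3
    rw [h1] at h3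
    exact one_ne_zero h3
  have h4 : p = Projectivization.mk ℂ (fun a => p.rep a / p.rep i) hz := by
    conv_lhs => rw [← p.mk_rep]
    exact mk_eq_mk_of_mul _ _ (a := p.rep i) (fun a => by field_simp)
  refine ⟨_, hz, i, j, l, h1, h4, ?_, h⟩
  rw [h4, mem_surf_mk hF] at h0
  exact h0

theorem gen_mk {n : ℕ} {F : Fin r → MvPolynomial (Fin n) ℂ} {L : Fl}
    (hF : ∀ i, (F i).IsHomogeneous (d i)) {z : Fin n → ℂ} (hz : z ≠ 0) {i j l : Fin n}
    (h1 : z i = 1) (h2 : ∀ a, aeval z (F a) = 0) (h3 : AlgebraicIndependent L ![z j, z l]) :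
    (Projectivization.mk ℂ z hz : PN n) ∈ Gen L F := by
  refine ⟨(mem_surf_mk hF hz).2 h2, i, j, l, ?_, ?_⟩
  · rw [Ne, rep_mk_eq_zero hz i, h1]
    exact one_ne_zero
  · rw [rep_mk_div, rep_mk_div, h1, div_one, div_one]
    exact h3

/-- the columns of a frame which are on the surface -/
theorem coeff_col (hF : ∀ i, (F i).IsHomogeneous (d i))
    {M : Matrix (Fin (r + 3)) (Fin (r + 3)) ℂ} {j : Fin (r + 3)} {μ : ℂ} {z : Fin (r + 3) → ℂ}
    (h : ∀ i, M i j = μ * z i) (hz : ∀ i, aeval z (F i) = 0) (i : Fin r) :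
    coeff (Finsupp.single j (d i)) (frG (F i) M) = 0 := by
  rw [← FrameA.aeval_single (frG_hom (hF i) M), aeval_frG,
    aeval_scale (hF i) (w := z) (a := μ) (fun a => by simpa using h a), hz, mul_zero]

theorem act_col {n : ℕ} {σ : ℂ ≃+* ℂ} {z z' : Fin n → ℂ} (hz : z ≠ 0) (hz' : z' ≠ 0) {μ μ' : ℂ}
    (hμ : μ ≠ 0) (h : ∀ i, σ (μ * z i) = μ' * z' i) :
    act σ (Projectivization.mk ℂ z hz : PN n) = Projectivization.mk ℂ z' hz' := by
  have hσ : σ μ ≠ 0 := (map_ne_zero_iff σ σ.injective).2 hμ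
  rw [act_mk σ z hz (map_ne_zero' σ hz)]
  refine mk_eq_mk_of_mul _ _ (a := (σ μ)⁻¹ * μ') (fun i => ?_)
  have h1 := h i
  rw [map_mul] at h1
  rw [mul_assoc, ← h1, inv_mul_cancel_left₀ hσ]

/-- pairs of independent generic points are conjugate -/
theorem pair_conj (k : Fl) [Countable k] (hF : ∀ i, (F i).IsHomogeneous (d i))
    (hd : ∀ i, 2 ≤ d i)
    (hind : AlgebraicIndependent k (fun m : MonA (r + 3) d => coeff m.1.2 (F m.1.1)))
    {p p' q q' : PN (r + 3)} (hp : p ∈ Gen (cof k F) F) (hq : q ∈ Gen (adjP (cof k F) p) F)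
    (hp' : p' ∈ Gen (cof k F) F) (hq' : q' ∈ Gen (adjP (cof k F) p') F) :
    ∃ σ ∈ VGS.Fix (cof k F), act σ p = p' ∧ act σ q = q' := by
  obtain ⟨z, hz, i, j, l, hi, rfl, hzF, hzi⟩ := gen_nrm hF hp
  obtain ⟨z', hz', i', j', l', hi', rfl, hzF', hzi'⟩ := gen_nrm hF hp'
  rw [adjP_mk hz hi] at hq
  rw [adjP_mk hz' hi'] at hq'
  obtain ⟨y, hy, a, b, c, ha, rfl, hyF, hyi⟩ := gen_nrm hF hq
  obtain ⟨y', hy', a', b', c', ha', rfl, hyF', hyi'⟩ := gen_nrm hF hq'
  rw [cof_eq_monA k hF] at hzi hzi' hyi hyi'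
  obtain ⟨M, ⟨μ, hμ, hM⟩, ⟨ν, hν, hN⟩, hA⟩ :=
    exists_frameV k hF hd hind hzF hyF hi ha hzi hyi
  obtain ⟨M', ⟨μ', hμ', hM'⟩, ⟨ν', hν', hN'⟩, hA'⟩ :=
    exists_frameV k hF hd hind hzF' hyF' hi' ha' hzi' hyi'
  obtain ⟨σ, hσ, h⟩ := frame_map k hF hA (coeff_col hF hM hzF) (coeff_col hF hN hyF) hA'
    (coeff_col hF hM' hzF') (coeff_col hF hN' hyF')
  refine ⟨σ, hσ, act_col (μ' := μ') hz hz' hμ (fun i => ?_),
    act_col (μ' := ν') hy hy' hν (fun i => ?_)⟩
  · rw [← hM, ← hM', h]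
  · rw [← hN, ← hN', h]

/-- independent tuples are conjugate -/
theorem cj_fix_ai (C : Fl) [Countable C] {m : ℕ} {x y : Fin m → ℂ}
    (hx : AlgebraicIndependent C x) (hy : AlgebraicIndependent C y) :
    ∃ σ ∈ VGS.Fix C, ∀ i, σ (x i) = y i := by
  refine exists_fix C x y (fun P hP => ⟨fun h => ?_, fun h => ?_⟩)
  · rw [ai_iff.1 hx P hP h, map_zero]
  · rw [ai_iff.1 hy P hP h, map_zero]

/-- a generic point can be moved, over the algebraic closure, to a point which is generic over a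
given field -/
theorem exists_move_gen (K : Fl) [Countable K] (hF : ∀ i, (F i).IsHomogeneous (d i))
    (hK : ∀ i, Coef K (F i)) {p : PN (r + 3)} (hp : p ∈ Gen K F) (D : Fl) [Countable D]
    (hD : clo K ≤ D) : ∃ τ ∈ VGS.Fix (clo K), act τ p ∈ Gen D F := by
  obtain ⟨z, hz, i, j, l, hi, rfl, hzF, hzi⟩ := gen_nrm hF hp
  obtain ⟨x, hx⟩ := exists_algInd D 2
  have hc : Countable (clo K) := inferInstance
  obtain ⟨τ, hτ, h⟩ := cj_fix_ai (clo K) (ai_clo.2 hzi) (ai_mono hD hx)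
  refine ⟨τ, hτ, ?_⟩
  rw [act_mk τ z hz (map_ne_zero' τ hz)]
  refine gen_mk hF (map_ne_zero' τ hz) (i := i) (j := j) (l := l) (by rw [hi, map_one])
    (fun a => ?_) ?_
  · rw [aeval_fix (hK a) (Fix_mono (le_clo K) hτ), hzF, map_zero]
  · have h1 : ![τ (z j), τ (z l)] = x := by
      funext a
      fin_cases a
      · exact h 0
      · exact h 1
    rw [h1]
    exact hx

/-- the generic points are conjugate over the algebraic closure of the field of definition -/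
theorem conj (k : Fl) [Countable k] (hF : ∀ i, (F i).IsHomogeneous (d i))
    (hd : ∀ i, 2 ≤ d i)
    (hind : AlgebraicIndependent k (fun m : MonA (r + 3) d => coeff m.1.2 (F m.1.1)))
    {p q : PN (r + 3)} (hp : p ∈ Gen (cof k F) F) (hq : q ∈ Gen (cof k F) F) :
    ∃ σ ∈ VGS.Fix (clo (cof k F)), act σ p = q := by
  have hcK : Countable (cof k F) := inferInstance
  have hanti : ∀ {L L' : Fl}, L ≤ L' → Gen L' F ⊆ Gen L F := fun {L L'} h x hx => by
    obtain ⟨h0, i, j, l, hi, h1⟩ := hx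
    exact ⟨h0, i, j, l, hi, ai_mono h h1⟩
  -- the points generic over `K(p)` are conjugate to `p`
  have key : ∀ p ∈ Gen (cof k F) F, ∀ q ∈ Gen (adjP (cof k F) p) F,
      ∃ σ ∈ VGS.Fix (clo (cof k F)), act σ p = q := by
    intro p hp q hq
    obtain ⟨τ, hτ, h1⟩ := exists_move_gen (cof k F) hF (coef_cof k F) hp
      (clo (adjP (cof k F) p)) (clo_mono (le_adjP _ _))
    obtain ⟨σ, hσ, h2, h3⟩ := pair_conj k hF hd hind hp (hanti (le_clo _) h1) hp hq
    have h4 : act σ⁻¹ p = p := by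
      conv_lhs => rw [← h2]
      exact act_inv_act σ p
    refine ⟨σ * τ * σ⁻¹, fun x hx => ?_, ?_⟩
    · have hσ' : σ⁻¹ ∈ VGS.Fix (cof k F) := inv_mem hσ
      have h5 : σ⁻¹ x ∈ clo (cof k F) := (fix_mem_clo hσ').2 hx
      change σ (τ (σ⁻¹ x)) = x
      rw [hτ _ h5]
      exact σ.apply_symm_apply x
    · rw [act_mul, act_mul, h4, h3]
  obtain ⟨τ, hτ, h1⟩ := exists_move_gen (cof k F) hF (coef_cof k F) hp
    (clo (adjP (cof k F) q)) (clo_mono (le_adjP _ _))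
  obtain ⟨σ, hσ, h2⟩ := key q hq _ (hanti (le_clo _) h1)
  refine ⟨σ⁻¹ * τ, mul_mem (inv_mem hσ) hτ, ?_⟩
  rw [act_mul, ← h2, act_inv_act]

end Pool.Agent.VCI
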