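import Pool.Agent.VCI.Conj
import Pool.Agent.VCI.AutP

/-! Complete intersections: frames through two points of the surface. -/

set_option autoImplicit false

open scoped LinearAlgebra.Projectivization
open MvPolynomial

namespace Pool.Agent.VCI

open Pool.Agent.VGS

variable {r : ℕ} {d : Fin r → ℕ} {F : Fin r → MvPolynomial (Fin (r + 3)) ℂ}

/-- A frame at the generic points `p`, `q`: coordinates `z`, `x = M z`, with `p` and `q` the points
`z = (0, …, 0, 1)` and `z = (0, …, 1, 0)`, otherwise general. -/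
structure IsFrame (k : Fl) (F : Fin r → MvPolynomial (Fin (r + 3)) ℂ) (d : Fin r → ℕ)
    (p q : PN (r + 3)) (M : Matrix (Fin (r + 3)) (Fin (r + 3)) ℂ) : Prop where
  det : M.det ≠ 0
  pt : p = mkP (M.mulVec (Pi.single (lst r) 1))
  pt' : q = mkP (M.mulVec (Pi.single (pen r) 1))
  ai : AlgebraicIndependent k (frX d F M)
  top : ∀ i, coeff (Finsupp.single (lst r) (d i)) (frG (F i) M) = 0
  top' : ∀ i, coeff (Finsupp.single (pen r) (d i)) (frG (F i) M) = 0
  le : cof k F ≤ frE k F M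
  ptE : adjP (cof k F) p ≤ frE k F M

private theorem fr_mkP {n : ℕ} [NeZero n] {z w : Fin n → ℂ} (hz : z ≠ 0) {μ : ℂ} (hμ : μ ≠ 0)
    (h : ∀ i, w i = μ * z i) : Projectivization.mk ℂ z hz = mkP w := by
  have hw : w ≠ 0 := by
    intro h0
    apply hz
    funext i
    have h1 := h i
    rw [h0, Pi.zero_apply] at h1
    exact (mul_eq_zero.1 h1.symm).resolve_left hμ
  have h1 : mkP w = Projectivization.mk ℂ w hw := by
    unfold mkP
    congr 1
    simp [hw]
  rw [h1]
  refine (mk_eq_mk_of_mul hw hz (a := μ) h).symm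

private theorem fr_col {n : ℕ} (M : Matrix (Fin n) (Fin n) ℂ) (i j : Fin n) :
    M.mulVec (Pi.single j 1) i = M i j := by
  rw [Matrix.mulVec_single_one]
  rfl

/-- Existence of frames, with the automorphism which exchanges the two points. -/
theorem exists_frame (hd : ∀ i, 2 ≤ d i) (hF : ∀ i, (F i).IsHomogeneous (d i)) (k : Fl)
    [Countable k]
    (hind : AlgebraicIndependent k (fun m : MonA (r + 3) d => coeff m.1.2 (F m.1.1)))
    {p q : PN (r + 3)} (hp : p ∈ Gen (cof k F) F) (hq : q ∈ Gen (adjP (cof k F) p) F) :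
    ∃ M, IsFrame k F d p q M ∧ ∃ σ ∈ VGS.Fix (cof k F), act σ p = q ∧ act σ q = p ∧
      ∀ i j, σ (M i j) = M i (Equiv.swap (pen r) (lst r) j) := by
  obtain ⟨z, hz, i, j, l, hi, rfl, hzF, hzi⟩ := gen_nrm hF hp
  rw [adjP_mk hz hi] at hq
  obtain ⟨y, hy, a, b, c, ha, rfl, hyF, hyi⟩ := gen_nrm hF hq
  rw [cof_eq_monA k hF] at hzi hyi
  obtain ⟨M, ⟨μ, hμ, hM⟩, ⟨ν, hν, hN⟩, hA⟩ :=
    exists_frameV k hF hd hind hzF hyF hi ha hzi hyi
  have hdet : M.det ≠ 0 := det_ne_of_ai (k := k) (hA.comp Sum.inl Sum.inl_injective)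
  have hME : ∀ i j, M i j ∈ frE k F M := fun i j =>
    le_adj (frk k M) _ (subset_adj k (Set.range fun ij : Fin (r + 3) × Fin (r + 3) =>
      M ij.1 ij.2) ⟨(i, j), rfl⟩)
  have hGE : ∀ i, Coef (frE k F M) (frG (F i) M) := fun i m =>
    subset_adj (frk k M) (Set.range fun im : Fin r × (Fin (r + 3) →₀ ℕ) =>
      coeff im.2 (frG (F im.1) M)) ⟨(i, m), rfl⟩
  have hkE : k ≤ frE k F M := (le_adj k _).trans (le_adj (frk k M) _)
  have hFE : ∀ i, Coef (frE k F M) (F i) := fun i => FrameA.coef_of_frG hdet hME (hGE i)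
  have hle : cof k F ≤ frE k F M := by
    refine adj_le hkE ?_
    rintro _ ⟨im, rfl⟩
    exact hFE im.1 im.2
  obtain ⟨σ, hσ, h⟩ := frame_swap k hF hA (coeff_col hF hM hzF) (coeff_col hF hN hyF)
  refine ⟨M, ⟨hdet, ?_, ?_, hA, coeff_col hF hM hzF, coeff_col hF hN hyF, hle, ?_⟩, σ, hσ,
    act_col (μ' := ν) hz hy hμ (fun i => ?_), act_col (μ' := μ) hy hz hν (fun i => ?_), h⟩
  · exact fr_mkP hz hμ (fun i => by rw [fr_col, hM])
  · exact fr_mkP hy hν (fun i => by rw [fr_col, hN])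
  · rw [adjP_mk hz hi]
    refine adj_le hle ?_
    rintro _ ⟨j, rfl⟩
    have h1 : z j = M j (lst r) / M i (lst r) := by
      rw [hM, hM, hi, mul_one, mul_div_cancel_left₀ _ hμ]
    change z j ∈ _
    rw [h1]
    exact div_mem (hME _ _) (hME _ _)
  · rw [← hM, ← hN, h, Equiv.swap_apply_right]
  · rw [← hM, ← hN, h, Equiv.swap_apply_left]

/-- Transitivity on pairs of independent generic points. -/
theorem frame_conj (hd : ∀ i, 2 ≤ d i) (hF : ∀ i, (F i).IsHomogeneous (d i)) (k : Fl)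
    [Countable k]
    (hind : AlgebraicIndependent k (fun m : MonA (r + 3) d => coeff m.1.2 (F m.1.1)))
    {p q p' q' : PN (r + 3)} (hp : p ∈ Gen (cof k F) F) (hq : q ∈ Gen (adjP (cof k F) p) F)
    (hp' : p' ∈ Gen (cof k F) F) (hq' : q' ∈ Gen (adjP (cof k F) p') F) :
    ∃ σ ∈ VGS.Fix (cof k F), act σ p = p' ∧ act σ q = q' :=
  pair_conj k hF hd hind hp hq hp' hq'

/-- The points given by the columns of a frame are defined over the field of the frame. -/
theorem IsFrame.col_le {k : Fl} {p q : PN (r + 3)} {M : Matrix (Fin (r + 3)) (Fin (r + 3)) ℂ}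
    (hM : IsFrame k F d p q M) (j : Fin (r + 3)) :
    adjP (cof k F) (mkP (M.mulVec (Pi.single j 1))) ≤ frE k F M := by
  have hz : M.mulVec (Pi.single j 1) ≠ 0 := mulVec_ne_zero' hM.det (by
    intro h
    have := congrFun h j
    simp at this)
  refine adjP_le hM.le ⟨_, hz, fun i => ?_, mkP_eq hz⟩
  rw [fr_col]
  exact le_adj (frk k M) _ (subset_adj k (Set.range fun ij : Fin (r + 3) × Fin (r + 3) =>
      M ij.1 ij.2) ⟨(i, j), rfl⟩)

theorem IsFrame.ptE' {k : Fl} {p q : PN (r + 3)} {M : Matrix (Fin (r + 3)) (Fin (r + 3)) ℂ}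
    (hM : IsFrame k F d p q M) : adjP (cof k F) q ≤ frE k F M := by
  have h := hM.col_le (pen r)
  rwa [← hM.pt'] at h

end Pool.Agent.VCI
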