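import Pool.Agent.VCI.Trd2

/-! Complete intersections: points with few free coordinates. -/

set_option autoImplicit false

open MvPolynomial

namespace Pool.Agent.VCI

open Pool.Agent.VGS

section

variable {n r : ℕ} {m : Fin r → Fin n →₀ ℕ} {G : Fin r → MvPolynomial (Fin n) ℂ} {a : Fin r → ℂ}

theorem pt_coef_mono (L : Fl) {ι : Type} (m : ι →₀ ℕ) : Coef L (monomial m (1 : ℂ)) := by
  classical
  intro m'
  rw [coeff_monomial]
  split_ifs
  · exact one_mem _
  · exact zero_mem _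

/-- the value of `G₀` at a zero of `G` -/
theorem pt_G0 {q : Fin n → ℂ} (hqG : ∀ i, aeval q (G i) = 0) (i : Fin r) :
    aeval q (G i - C (a i) * monomial (m i) 1) =
      -(a i * aeval q (monomial (m i) (1 : ℂ))) := by
  rw [map_sub, hqG, map_mul, aeval_C, zero_sub]
  rfl

/-- the coefficients `a` are in the field generated by a zero of the `G i` -/
theorem pt_mem (k₁ : Fl) (hG₀ : ∀ i, Coef k₁ (G i - C (a i) * monomial (m i) 1)) {q : Fin n → ℂ}
    (hqm : ∀ i, aeval q (monomial (m i) (1 : ℂ)) ≠ 0) (hqG : ∀ i, aeval q (G i) = 0) (i : Fin r) :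
    a i ∈ adj k₁ (Set.range q) := by
  have h1 := pt_G0 (m := m) (a := a) hqG i
  have h2 : aeval q (G i - C (a i) * monomial (m i) 1) ∈ adj k₁ (Set.range q) :=
    aeval_mem ((hG₀ i).mono (le_adj _ _)) fun j => subset_adj _ _ ⟨j, rfl⟩
  have h3 : aeval q (monomial (m i) (1 : ℂ)) ∈ adj k₁ (Set.range q) :=
    aeval_mem (pt_coef_mono _ _) fun j => subset_adj _ _ ⟨j, rfl⟩
  have h4 : a i = -aeval q (G i - C (a i) * monomial (m i) 1) /
      aeval q (monomial (m i) (1 : ℂ)) := by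
    rw [h1, neg_neg, mul_div_cancel_right₀ _ (hqm i)]
  rw [h4]
  exact div_mem (neg_mem h2) h3

/-- two points with the same relations, on `G = 0` -/
theorem pt_conj (k₁ : Fl) [Countable k₁] (hG₀ : ∀ i, Coef k₁ (G i - C (a i) * monomial (m i) 1))
    {q w : Fin n → ℂ} (hqm : ∀ i, aeval q (monomial (m i) (1 : ℂ)) ≠ 0)
    (hqG : ∀ i, aeval q (G i) = 0) (hwG : ∀ i, aeval w (G i) = 0) (h : InD k₁ q w)
    (h' : InD k₁ w q) : ∃ σ ∈ VGS.Fix (adj k₁ (Set.range a)), ∀ i, σ (q i) = w i := by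
  have hm : ∀ i, aeval w (monomial (m i) (1 : ℂ)) ≠ 0 := fun i hi =>
    hqm i (h' _ (pt_coef_mono _ _) hi)
  obtain ⟨σ, hσ, h1⟩ := exists_fix k₁ q w fun P hP => ⟨h P hP, h' P hP⟩
  refine ⟨σ, ?_, h1⟩
  rw [mem_Fix_adj]
  refine ⟨hσ, ?_⟩
  rintro _ ⟨i, rfl⟩
  have h2 := pt_G0 (m := m) (a := a) hqG i
  have h3 := pt_G0 (m := m) (a := a) hwG i
  have hw : (fun i => σ (q i)) = w := funext h1
  have h4 := aeval_fix (hG₀ i) hσ q
  have h5 := aeval_fix (pt_coef_mono k₁ (m i)) hσ q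
  rw [hw] at h4 h5
  rw [h2, h3, map_neg, map_mul, ← h5] at h4
  exact (mul_right_cancel₀ (hm i) (neg_injective h4)).symm

theorem pt_free {k₂ : Fl} {j : Fin n} {q : Fin n → ℂ} (hq0 : ∀ i < j, q i = 0) (hqj : q j = 1)
    (i : Fin n) : q i ∈ adj k₂ (Set.range fun i : {i : Fin n // j < i} => q i.1) := by
  rcases lt_trichotomy i j with h | h | h
  · rw [hq0 i h]; exact zero_mem _
  · rw [h, hqj]; exact one_mem _
  · exact subset_adj _ _ ⟨⟨i, h⟩, rfl⟩

theorem pt_mem_free {k₂ : Fl} {j : Fin n} (hG₀ : ∀ i, Coef k₂ (G i - C (a i) * monomial (m i) 1))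
    {q : Fin n → ℂ} (hq0 : ∀ i < j, q i = 0) (hqj : q j = 1)
    (hqm : ∀ i, aeval q (monomial (m i) (1 : ℂ)) ≠ 0) (hqG : ∀ i, aeval q (G i) = 0) (i : Fin r) :
    a i ∈ clo (adj k₂ (Set.range fun i : {i : Fin n // j < i} => q i.1)) := by
  have h1 : adj k₂ (Set.range q) ≤ adj k₂ (Set.range fun i : {i : Fin n // j < i} => q i.1) := by
    refine adj_le (le_adj _ _) ?_
    rintro _ ⟨l, rfl⟩
    exact pt_free hq0 hqj l
  exact le_clo _ (h1 (pt_mem k₂ hG₀ hqm hqG i))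

theorem pt_card (j : Fin n) : Nat.card {i : Fin n // j < i} = n - 1 - j := by
  classical
  rw [Nat.card_eq_fintype_card, Fintype.card_subtype, ← Fin.card_Ioi]
  congr 1
  ext i
  simp

/-- no point if there are less than `r` free coordinates -/
theorem pt_none (k₂ : Fl) (j : Fin n) (hj : n < r + j + 1) (ha : AlgebraicIndependent k₂ a)
    (hG₀ : ∀ i, Coef k₂ (G i - C (a i) * monomial (m i) 1)) {q : Fin n → ℂ}
    (hq0 : ∀ i < j, q i = 0) (hqj : q j = 1) (hqm : ∀ i, aeval q (monomial (m i) (1 : ℂ)) ≠ 0)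
    (hqG : ∀ i, aeval q (G i) = 0) : False := by
  have h1 := ai_le_card ha (pt_mem_free hG₀ hq0 hqj hqm hqG)
  rw [pt_card, Nat.card_eq_fintype_card, Fintype.card_fin] at h1
  have h2 := j.2
  omega

/-- a point with (at most) `r` free coordinates is algebraic over `k₂ (a)` -/
theorem pt_alg (k₂ : Fl) (j : Fin n) (hj : n ≤ r + j + 1) (ha : AlgebraicIndependent k₂ a)
    (hG₀ : ∀ i, Coef k₂ (G i - C (a i) * monomial (m i) 1)) {q : Fin n → ℂ}
    (hq0 : ∀ i < j, q i = 0) (hqj : q j = 1) (hqm : ∀ i, aeval q (monomial (m i) (1 : ℂ)) ≠ 0)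
    (hqG : ∀ i, aeval q (G i) = 0) : ∀ i, q i ∈ clo (adj k₂ (Set.range a)) := by
  intro i
  have hc : Nat.card {i : Fin n // j < i} ≤ Nat.card (Fin r) := by
    rw [pt_card, Nat.card_eq_fintype_card, Fintype.card_fin]
    omega
  rcases lt_trichotomy i j with h | h | h
  · rw [hq0 i h]; exact zero_mem _
  · rw [h, hqj]; exact one_mem _
  · exact ai_span ha hc (pt_mem_free hG₀ hq0 hqj hqm hqG) ⟨i, h⟩

theorem pt_inD_iff {k : Fl} {q y : Fin n → ℂ} :
    InD k q y ↔ ∀ f : MvPolynomial (Fin n) k, aeval q f = 0 → aeval y f = 0 := by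
  constructor
  · intro h f hf
    have := h (map (algebraMap k ℂ) f) (coef_iff.2 ⟨f, rfl⟩)
      (by simpa [aeval_def, eval₂_map] using hf)
    simpa [aeval_def, eval₂_map] using this
  · intro h f hf h0
    obtain ⟨f', rfl⟩ := coef_iff.1 hf
    have := h f' (by simpa [aeval_def, eval₂_map] using h0)
    simpa [aeval_def, eval₂_map] using this

theorem pt_inD {k₂ : Fl} {j : Fin n} {q w : Fin n → ℂ} (hq0 : ∀ i < j, q i = 0) (hqj : q j = 1)
    (hw0 : ∀ i < j, w i = 0) (hwj : w j = 1)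
    (hq : AlgebraicIndependent k₂ fun i : {i : Fin n // j < i} => q i.1) : InD k₂ q w := by
  classical
  rw [pt_inD_iff]
  intro f hf
  obtain ⟨x, hx⟩ : ∃ x : Fin n → MvPolynomial {i : Fin n // j < i} k₂,
      (∀ i, ∀ h : j < i, x i = X ⟨i, h⟩) ∧ x j = 1 ∧ ∀ i < j, x i = 0 := by
    refine ⟨fun i => if h : j < i then X ⟨i, h⟩ else if i = j then 1 else 0, ?_, ?_, ?_⟩
    · intro i h; exact dif_pos h
    · beta_reduce
      rw [dif_neg (lt_irrefl j), if_pos rfl]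
    · intro i h
      beta_reduce
      rw [dif_neg (not_lt_of_gt h), if_neg h.ne]
  have key : ∀ z : Fin n → ℂ, (∀ i < j, z i = 0) → z j = 1 →
      aeval (fun i : {i : Fin n // j < i} => z i.1) (aeval x f) = aeval z f := by
    intro z h0 h1
    have h3 : (fun i => aeval (fun i : {i : Fin n // j < i} => z i.1) (x i)) = z := by
      funext i
      rcases lt_trichotomy i j with h | h | h
      · rw [hx.2.2 i h, map_zero, h0 i h]
      · rw [h, hx.2.1, map_one, h1]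
      · rw [hx.1 i h, aeval_X]
    rw [comp_aeval_apply, h3]
  rw [← key q hq0 hqj] at hf
  rw [← key w hw0 hwj, algebraicIndependent_iff.1 hq _ hf, map_zero]

/-- two points with (at most) `r` free coordinates are conjugate over `k₂ (a)` -/
theorem pt_orb (k₂ : Fl) [Countable k₂] (j : Fin n) (hj : n ≤ r + j + 1)
    (ha : AlgebraicIndependent k₂ a) (hG₀ : ∀ i, Coef k₂ (G i - C (a i) * monomial (m i) 1))
    {q w : Fin n → ℂ} (hq0 : ∀ i < j, q i = 0) (hqj : q j = 1)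
    (hqm : ∀ i, aeval q (monomial (m i) (1 : ℂ)) ≠ 0) (hqG : ∀ i, aeval q (G i) = 0)
    (hw0 : ∀ i < j, w i = 0) (hwj : w j = 1) (hwm : ∀ i, aeval w (monomial (m i) (1 : ℂ)) ≠ 0)
    (hwG : ∀ i, aeval w (G i) = 0) :
    ∃ σ ∈ VGS.Fix (adj k₂ (Set.range a)), ∀ i, σ (q i) = w i := by
  have hc : Nat.card {i : Fin n // j < i} ≤ Nat.card (Fin r) := by
    rw [pt_card, Nat.card_eq_fintype_card, Fintype.card_fin]
    omega
  have h1 := ai_card ha hc (pt_mem_free hG₀ hq0 hqj hqm hqG)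
  have h2 := ai_card ha hc (pt_mem_free hG₀ hw0 hwj hwm hwG)
  exact pt_conj k₂ hG₀ hqm hqG hwG (pt_inD hq0 hqj hw0 hwj h1) (pt_inD hw0 hwj hq0 hqj h2)

end

end Pool.Agent.VCI
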