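import Pool.Agent.VCI.AsmA
import Pool.Agent.VCI.Frame
import Pool.Agent.VCI.LineA
import Pool.Agent.VCI.Conj

/-! Complete intersections, module AsmB: the coefficients of `F i (M z)` and the points with
`z₀ = z₁ = 0`. -/

set_option autoImplicit false

open scoped LinearAlgebra.Projectivization
open MvPolynomial

namespace Pool.Agent.VCI

open Pool.Agent.VGS

variable {r : ℕ} {d : Fin r → ℕ} {F : Fin r → MvPolynomial (Fin (r + 3)) ℂ}

theorem asm_mem_frk (k : Fl) {n : ℕ} (M : Matrix (Fin n) (Fin n) ℂ) (i j : Fin n) :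
    M i j ∈ frk k M := subset_adj _ _ ⟨(i, j), rfl⟩

theorem asm_mem_frE (k : Fl) {n : ℕ} (F : Fin r → MvPolynomial (Fin n) ℂ)
    (M : Matrix (Fin n) (Fin n) ℂ) (i j : Fin n) : M i j ∈ frE k F M :=
  le_adj _ _ (asm_mem_frk k M i j)

theorem asm_coef_frG (k : Fl) {n : ℕ} (F : Fin r → MvPolynomial (Fin n) ℂ)
    (M : Matrix (Fin n) (Fin n) ℂ) (i : Fin r) : Coef (frE k F M) (frG (F i) M) :=
  fun m => subset_adj _ _ ⟨(i, m), rfl⟩

instance asm_countable_frk (k : Fl) [Countable k] {n : ℕ} (M : Matrix (Fin n) (Fin n) ℂ) :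
    Countable (frk k M) := by
  unfold frk
  have : Countable (Set.range fun ij : Fin n × Fin n => M ij.1 ij.2) :=
    (Set.countable_range _).to_subtype
  infer_instance

instance asm_countable_frE (k : Fl) [Countable k] {n : ℕ} (F : Fin r → MvPolynomial (Fin n) ℂ)
    (M : Matrix (Fin n) (Fin n) ℂ) : Countable (frE k F M) := by
  unfold frE
  have : Countable (Set.range fun im : Fin r × (Fin n →₀ ℕ) => coeff im.2 (frG (F im.1) M)) :=
    (Set.countable_range _).to_subtype
  infer_instance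

/-- `E = k₁(a)`, where `a i` is the coefficient of the monomial `mm i` in `F i (M z)`. -/
theorem asm_frE_split (hF : ∀ i, (F i).IsHomogeneous (d i)) {k : Fl} [Countable k]
    {p q : PN (r + 3)} {M : Matrix (Fin (r + 3)) (Fin (r + 3)) ℂ} (hM : IsFrame k F d p q M)
    (mm : Fin r → Fin (r + 3) →₀ ℕ) (hmd : ∀ i, (mm i).degree = d i)
    (hml : ∀ i, mm i ≠ Finsupp.single (lst r) (d i))
    (hmp : ∀ i, mm i ≠ Finsupp.single (pen r) (d i)) :
    ∃ k₁ : Fl, Countable k₁ ∧ frk k M ≤ k₁ ∧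
      AlgebraicIndependent k₁ (fun i => coeff (mm i) (frG (F i) M)) ∧
      (∀ i, Coef k₁ (frG (F i) M - C (coeff (mm i) (frG (F i) M)) * monomial (mm i) 1)) ∧
      frE k F M = adj k₁ (Set.range fun i => coeff (mm i) (frG (F i) M)) := by
  classical
  let x : Mon d → ℂ := fun m => coeff m.1.2 (frG (F m.1.1) M)
  let ι : Fin r → Mon d := fun i => ⟨(i, mm i), hmd i, hml i, hmp i⟩
  let y : {m : Mon d // m ∉ Set.range ι} → ℂ := fun m => x m.1
  have hind : AlgebraicIndependent (frk k M) x := (ai_sum.1 hM.ai).2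
  have hinj : Function.Injective (Sum.elim (Subtype.val : {m : Mon d // m ∉ Set.range ι} → Mon d)
      ι) := by
    rintro (a | a) (b | b) h
    · exact congrArg Sum.inl (Subtype.ext h)
    · exact absurd ⟨b, h.symm⟩ a.2
    · exact absurd ⟨a, h⟩ b.2
    · have h1 := congrArg (fun m : Mon d => m.1.1) h
      exact congrArg Sum.inr h1
  have h2 : AlgebraicIndependent (frk k M) (Sum.elim y (fun i => coeff (mm i) (frG (F i) M))) := by
    have h3 := hind.comp _ hinj
    convert h3 using 1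
    ext (a | a) <;> rfl
  have hmem : ∀ (i : Fin r) (m : Fin (r + 3) →₀ ℕ), m ≠ mm i →
      coeff m (frG (F i) M) ∈ adj (frk k M) (Set.range y) := by
    intro i m hm
    by_cases h1 : m.degree = d i
    · by_cases h2 : m = Finsupp.single (lst r) (d i)
      · rw [h2, hM.top]
        exact zero_mem _
      · by_cases h3 : m = Finsupp.single (pen r) (d i)
        · rw [h3, hM.top']
          exact zero_mem _
        · refine subset_adj _ _ ⟨⟨⟨(i, m), h1, h2, h3⟩, ?_⟩, rfl⟩
          rintro ⟨i', hi'⟩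
          have h4 := congrArg (fun m : Mon d => m.1) hi'
          obtain ⟨rfl, h5⟩ := Prod.mk.inj h4
          exact hm h5.symm
    · rw [(frG_hom (hF i) M).coeff_eq_zero h1]
      exact zero_mem _
  have hyc : Countable (Set.range y) := (Set.countable_range y).to_subtype
  refine ⟨adj (frk k M) (Set.range y), inferInstance, le_adj _ _, (ai_sum.1 h2).2, ?_, ?_⟩
  · intro i m
    rw [coeff_sub, coeff_C_mul, coeff_monomial]
    by_cases h : mm i = m
    · rw [if_pos h, mul_one, h, sub_self]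
      exact zero_mem _
    · rw [if_neg h, mul_zero, sub_zero]
      exact hmem i m (Ne.symm h)
  · rw [adj_adj]
    unfold frE
    apply le_antisymm
    · refine adj_le (le_adj _ _) ?_
      rintro _ ⟨⟨i, m⟩, rfl⟩
      by_cases h : m = mm i
      · exact subset_adj _ _ (Or.inr ⟨i, by rw [h]⟩)
      · have h1 : adj (frk k M) (Set.range y) ≤ adj (frk k M)
            (Set.range y ∪ Set.range fun i => coeff (mm i) (frG (F i) M)) :=
          adj_le (le_adj _ _) (fun y hy => subset_adj _ _ (Or.inl hy))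
        exact h1 (hmem i m h)
    · refine adj_le (le_adj _ _) ?_
      rintro _ (⟨m, rfl⟩ | ⟨i, rfl⟩)
      · exact subset_adj _ _ ⟨m.1.1, rfl⟩
      · exact subset_adj _ _ ⟨(i, mm i), rfl⟩

/-- the case of the powers of a coordinate -/
theorem asm_frE_pow (hF : ∀ i, (F i).IsHomogeneous (d i)) (hd : ∀ i, 2 ≤ d i) {k : Fl} [Countable k]
    {p q : PN (r + 3)} {M : Matrix (Fin (r + 3)) (Fin (r + 3)) ℂ} (hM : IsFrame k F d p q M)
    {j : Fin (r + 3)} (hjl : j ≠ lst r) (hjp : j ≠ pen r) :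
    ∃ k₁ : Fl, Countable k₁ ∧ frk k M ≤ k₁ ∧
      AlgebraicIndependent k₁ (fun i => coeff (Finsupp.single j (d i)) (frG (F i) M)) ∧
      (∀ i, Coef k₁ (frG (F i) M -
        C (coeff (Finsupp.single j (d i)) (frG (F i) M)) * X j ^ d i)) ∧
      frE k F M = adj k₁ (Set.range fun i => coeff (Finsupp.single j (d i)) (frG (F i) M)) := by
  have hne : ∀ (l : Fin (r + 3)), j ≠ l → ∀ i, (Finsupp.single j (d i) : Fin (r + 3) →₀ ℕ) ≠
      Finsupp.single l (d i) := by
    intro l hl i h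
    have h1 := DFunLike.congr_fun h j
    rw [Finsupp.single_eq_same, Finsupp.single_eq_of_ne hl] at h1
    have := hd i
    omega
  obtain ⟨k₁, h1, h2, h3, h4, h5⟩ := asm_frE_split hF hM (fun i => Finsupp.single j (d i))
    (fun i => Finsupp.degree_single _ _) (hne _ hjl) (hne _ hjp)
  refine ⟨k₁, h1, h2, h3, fun i => ?_, h5⟩
  have h6 := h4 i
  rwa [← X_pow_eq_monomial] at h6

/-- The points of the surface with `z₀ = z₁ = 0`, other than the two points of the frame. -/
def linO (F : Fin r → MvPolynomial (Fin (r + 3)) ℂ) (M : Matrix (Fin (r + 3)) (Fin (r + 3)) ℂ)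
    (p q : PN (r + 3)) : Set (PN (r + 3)) :=
  {x | x ∈ ciS F ∧ x ≠ p ∧ x ≠ q ∧ ∃ w : Fin (r + 3) → ℂ, w ≠ 0 ∧ (∀ i : Fin (r + 3),
    (i : ℕ) ≤ 1 → w i = 0) ∧ x = mkP (M.mulVec w)}

theorem asm_lt_lst {i : Fin (r + 3)} (h : i ≠ lst r) : i < lst r := by
  refine lt_of_le_of_ne ?_ h
  have := i.2
  rw [Fin.le_def]
  simp only [lst]
  omega

theorem asm_cases {i : Fin (r + 3)} (h : i ≠ lst r) (h' : i ≠ pen r) : i < pen r := by
  have h1 := i.2
  have h2 : (i : ℕ) ≠ r + 2 := fun h3 => h (Fin.ext h3)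
  have h3 : (i : ℕ) ≠ r + 1 := fun h3 => h' (Fin.ext h3)
  rw [Fin.lt_def]
  simp only [pen]
  omega

theorem asm_pen_ne_lst : pen r ≠ lst r := by
  intro h
  have := congrArg Fin.val h
  simp [pen, lst] at this

/-- the first non-zero coordinate of a point with `z₀ = z₁ = 0` -/
theorem lin_first (hF : ∀ i, (F i).IsHomogeneous (d i)) (hd : ∀ i, 2 ≤ d i) {k : Fl}
    [Countable k] {p q : PN (r + 3)} {M : Matrix (Fin (r + 3)) (Fin (r + 3)) ℂ}
    (hM : IsFrame k F d p q M) {w : Fin (r + 3) → ℂ} (hwG : ∀ i, aeval w (frG (F i) M) = 0)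
    {j : Fin (r + 3)} (hj1 : 1 < (j : ℕ)) (hj : ∀ i < j, w i = 0) (hwj : w j = 1) :
    ((j : ℕ) = 2 ∧ j ≠ lst r ∧ j ≠ pen r) ∨ w = Pi.single (lst r) 1 ∨ w = Pi.single (pen r) 1 ∨
      ((j : ℕ) = 2 ∧ j = pen r ∧ w (lst r) ≠ 0) := by
  classical
  by_cases hjl : j = lst r
  · right; left
    funext i
    by_cases h : i = lst r
    · rw [h, Pi.single_eq_same, ← hjl, hwj]
    · rw [Pi.single_eq_of_ne h]
      exact hj i (by rw [hjl]; exact asm_lt_lst h)
  by_cases hjp : j = pen r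
  · by_cases hwl : w (lst r) = 0
    · right; right; left
      funext i
      by_cases h : i = pen r
      · rw [h, Pi.single_eq_same, ← hjp, hwj]
      · rw [Pi.single_eq_of_ne h]
        by_cases h' : i = lst r
        · rw [h', hwl]
        · exact hj i (by rw [hjp]; exact asm_cases h' h)
    · right; right; right
      refine ⟨?_, hjp, hwl⟩
      by_contra hj2
      obtain ⟨k₁, -, -, h3, h4, -⟩ := asm_frE_split hF hM
        (fun i => Finsupp.single (pen r) (d i - 1) + Finsupp.single (lst r) 1)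
        (fun i => by
          rw [map_add, Finsupp.degree_single, Finsupp.degree_single]
          have := hd i
          omega)
        (fun i h => by
          have h1 := DFunLike.congr_fun h (pen r)
          rw [Finsupp.add_apply, Finsupp.single_eq_same, Finsupp.single_eq_of_ne asm_pen_ne_lst,
            Finsupp.single_eq_of_ne asm_pen_ne_lst] at h1
          have := hd i
          omega)
        (fun i h => by
          have h1 := DFunLike.congr_fun h (lst r)
          rw [Finsupp.add_apply, Finsupp.single_eq_same,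
            Finsupp.single_eq_of_ne asm_pen_ne_lst.symm,
            Finsupp.single_eq_of_ne asm_pen_ne_lst.symm] at h1
          omega)
      refine pt_none k₁ j ?_ h3 h4 hj hwj (fun i => ?_) hwG
      · omega
      · rw [show (Finsupp.single (pen r) (d i - 1) + Finsupp.single (lst r) 1 : Fin (r + 3) →₀ ℕ) =
            Finsupp.single (pen r) (d i - 1) + Finsupp.single (lst r) 1 from rfl,
          ← one_mul (1 : ℂ), ← monomial_mul, map_mul, ← X_pow_eq_monomial, ← X_pow_eq_monomial,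
          map_pow, map_pow, aeval_X, aeval_X, ← hjp, hwj, one_pow, one_mul, pow_one]
        exact hwl
  · left
    refine ⟨?_, hjl, hjp⟩
    by_contra hj2
    obtain ⟨k₁, -, -, h3, h4, -⟩ := asm_frE_split hF hM (fun i => Finsupp.single j (d i))
      (fun i => Finsupp.degree_single _ _)
      (fun i h => by
        have h1 := DFunLike.congr_fun h j
        rw [Finsupp.single_eq_same, Finsupp.single_eq_of_ne hjl] at h1
        have := hd i
        omega)
      (fun i h => by
        have h1 := DFunLike.congr_fun h j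
        rw [Finsupp.single_eq_same, Finsupp.single_eq_of_ne hjp] at h1
        have := hd i
        omega)
    refine pt_none k₁ j ?_ h3 h4 hj hwj (fun i => ?_) hwG
    · omega
    · rw [← X_pow_eq_monomial, map_pow, aeval_X, hwj, one_pow]
      exact one_ne_zero

/-- the normal form of the points of `linO` -/
theorem linO_nrm (hr : 0 < r) (hF : ∀ i, (F i).IsHomogeneous (d i)) (hd : ∀ i, 2 ≤ d i) {k : Fl}
    [Countable k] {p q : PN (r + 3)} {M : Matrix (Fin (r + 3)) (Fin (r + 3)) ℂ}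
    (hM : IsFrame k F d p q M) :
    ∃ (k₁ : Fl) (mm : Fin r → Fin (r + 3) →₀ ℕ), Countable k₁ ∧
      AlgebraicIndependent k₁ (fun i => coeff (mm i) (frG (F i) M)) ∧
      (∀ i, Coef k₁ (frG (F i) M - C (coeff (mm i) (frG (F i) M)) * monomial (mm i) 1)) ∧
      frE k F M = adj k₁ (Set.range fun i => coeff (mm i) (frG (F i) M)) ∧
      ∀ x ∈ linO F M p q, ∃ w : Fin (r + 3) → ℂ, w ≠ 0 ∧ x = mkP (M.mulVec w) ∧
        (∀ i < (⟨2, by omega⟩ : Fin (r + 3)), w i = 0) ∧ w ⟨2, by omega⟩ = 1 ∧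
        (∀ i, aeval w (monomial (mm i) (1 : ℂ)) ≠ 0) ∧ ∀ i, aeval w (frG (F i) M) = 0 := by
  classical
  have hdet := hM.det
  -- the vector of a point
  have key : ∀ x ∈ linO F M p q, ∃ (w : Fin (r + 3) → ℂ) (j : Fin (r + 3)), w ≠ 0 ∧
      x = mkP (M.mulVec w) ∧ (j : ℕ) = 2 ∧ (∀ i < j, w i = 0) ∧ w j = 1 ∧
      (∀ i, aeval w (frG (F i) M) = 0) ∧ j ≠ lst r ∧ (j = pen r → w (lst r) ≠ 0) := by
    rintro x ⟨hxF, hxp, hxq, w, hw, hw0, rfl⟩
    obtain ⟨j, hwj, hj⟩ : ∃ j, w j ≠ 0 ∧ ∀ i < j, w i = 0 := by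
      obtain ⟨i₀, hi₀⟩ := Function.ne_iff.1 hw
      obtain ⟨j, hj, hj'⟩ := (Finset.univ.filter fun i => w i ≠ 0).exists_minimal
        ⟨i₀, by simpa using hi₀⟩
      refine ⟨j, by simpa using hj, fun i hi => ?_⟩
      by_contra hcon
      exact absurd (hj' (by simpa using hcon) hi.le) (not_le.2 hi)
    have hj1 : 1 < (j : ℕ) := by
      by_contra hcon
      exact hwj (hw0 j (by omega))
    have hw' : (w j)⁻¹ • w ≠ 0 := smul_ne_zero (inv_ne_zero hwj) hw
    have hx : mkP (M.mulVec ((w j)⁻¹ • w)) = mkP (M.mulVec w) :=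
      asm_mkP_mulVec_smul hdet hw (inv_ne_zero hwj)
    have hG : ∀ i, aeval ((w j)⁻¹ • w) (frG (F i) M) = 0 :=
      (asm_mkP_mem_surf hF hdet hw').1 (by rw [hx]; exact hxF)
    have hj0 : ∀ i < j, ((w j)⁻¹ • w) i = 0 := fun i hi => by
      rw [Pi.smul_apply, hj i hi, smul_zero]
    have hjj : ((w j)⁻¹ • w) j = 1 := inv_mul_cancel₀ hwj
    rcases lin_first hF hd hM hG hj1 hj0 hjj with ⟨h1, h2, h3⟩ | h1 | h1 | ⟨h1, h2, h3⟩
    · exact ⟨_, j, hw', hx.symm, h1, hj0, hjj, hG, h2, fun h => absurd h h3⟩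
    · exact absurd (by rw [← hx, h1, ← hM.pt]) hxp
    · exact absurd (by rw [← hx, h1, ← hM.pt']) hxq
    · exact ⟨_, j, hw', hx.symm, h1, hj0, hjj, hG, by rw [h2]; exact asm_pen_ne_lst, fun _ => h3⟩
  have hj2 : ∀ j : Fin (r + 3), (j : ℕ) = 2 → j = ⟨2, by omega⟩ := fun j hj => Fin.ext hj
  by_cases hr1 : (⟨2, by omega⟩ : Fin (r + 3)) = pen r
  · obtain ⟨k₁, h1, -, h3, h4, h5⟩ := asm_frE_split hF hM
      (fun i => Finsupp.single (pen r) (d i - 1) + Finsupp.single (lst r) 1)
      (fun i => by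
        rw [map_add, Finsupp.degree_single, Finsupp.degree_single]
        have := hd i
        omega)
      (fun i h => by
        have h1 := DFunLike.congr_fun h (pen r)
        rw [Finsupp.add_apply, Finsupp.single_eq_same, Finsupp.single_eq_of_ne asm_pen_ne_lst,
          Finsupp.single_eq_of_ne asm_pen_ne_lst] at h1
        have := hd i
        omega)
      (fun i h => by
        have h1 := DFunLike.congr_fun h (lst r)
        rw [Finsupp.add_apply, Finsupp.single_eq_same,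
          Finsupp.single_eq_of_ne asm_pen_ne_lst.symm,
          Finsupp.single_eq_of_ne asm_pen_ne_lst.symm] at h1
        omega)
    refine ⟨k₁, _, h1, h3, h4, h5, fun x hx => ?_⟩
    obtain ⟨w, j, hw, hxw, hj, hj0, hjj, hG, hjl, hjp⟩ := key x hx
    rw [hj2 j hj] at hj0 hjj hjp
    refine ⟨w, hw, hxw, hj0, hjj, fun i => ?_, hG⟩
    rw [← one_mul (1 : ℂ), ← monomial_mul, map_mul, ← X_pow_eq_monomial, ← X_pow_eq_monomial,
      map_pow, map_pow, aeval_X, aeval_X, ← hr1, hjj, one_pow, one_mul, pow_one]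
    exact hjp hr1
  · have hl : (⟨2, by omega⟩ : Fin (r + 3)) ≠ lst r := by
      intro h
      have h1 := congrArg Fin.val h
      simp only [lst] at h1
      omega
    obtain ⟨k₁, h1, -, h3, h4, h5⟩ := asm_frE_split hF hM
      (fun i => Finsupp.single (⟨2, by omega⟩ : Fin (r + 3)) (d i))
      (fun i => Finsupp.degree_single _ _)
      (fun i h => by
        have h1 := DFunLike.congr_fun h (⟨2, by omega⟩ : Fin (r + 3))
        rw [Finsupp.single_eq_same, Finsupp.single_eq_of_ne hl] at h1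
        have := hd i
        omega)
      (fun i h => by
        have h1 := DFunLike.congr_fun h (⟨2, by omega⟩ : Fin (r + 3))
        rw [Finsupp.single_eq_same, Finsupp.single_eq_of_ne hr1] at h1
        have := hd i
        omega)
    refine ⟨k₁, _, h1, h3, h4, h5, fun x hx => ?_⟩
    obtain ⟨w, j, hw, hxw, hj, hj0, hjj, hG, hjl, hjp⟩ := key x hx
    rw [hj2 j hj] at hj0 hjj
    refine ⟨w, hw, hxw, hj0, hjj, fun i => ?_, hG⟩
    rw [← X_pow_eq_monomial, map_pow, aeval_X, hjj, one_pow]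
    exact one_ne_zero

/-- the points of `linO` are defined over `clo E` -/
theorem linO_over (hr : 0 < r) (hF : ∀ i, (F i).IsHomogeneous (d i)) (hd : ∀ i, 2 ≤ d i) {k : Fl}
    [Countable k] {p q : PN (r + 3)} {M : Matrix (Fin (r + 3)) (Fin (r + 3)) ℂ}
    (hM : IsFrame k F d p q M) {x : PN (r + 3)} (hx : x ∈ linO F M p q) :
    Over (clo (frE k F M)) x := by
  obtain ⟨k₁, mm, hk, h3, h4, h5, h6⟩ := linO_nrm hr hF hd hM
  obtain ⟨w, hw, rfl, hw0, hw1, hwm, hwG⟩ := h6 x hx
  rw [asm_over_mulVec hM.det (fun i j => le_clo _ (asm_mem_frE k F M i j)) hw1, h5]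
  exact pt_alg k₁ _ (by simp) h3 h4 hw0 hw1 hwm hwG

/-- any two points of `linO` are conjugate over `E` -/
theorem linO_conj (hr : 0 < r) (hF : ∀ i, (F i).IsHomogeneous (d i)) (hd : ∀ i, 2 ≤ d i) {k : Fl}
    [Countable k] {p q : PN (r + 3)} {M : Matrix (Fin (r + 3)) (Fin (r + 3)) ℂ}
    (hM : IsFrame k F d p q M) {x y : PN (r + 3)} (hx : x ∈ linO F M p q)
    (hy : y ∈ linO F M p q) : ∃ σ ∈ VGS.Fix (frE k F M), act σ x = y := by
  obtain ⟨k₁, mm, hk, h3, h4, h5, h6⟩ := linO_nrm hr hF hd hM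
  obtain ⟨w, hw, rfl, hw0, hw1, hwm, hwG⟩ := h6 x hx
  obtain ⟨v, hv, rfl, hv0, hv1, hvm, hvG⟩ := h6 y hy
  obtain ⟨σ, hσ, h⟩ := pt_orb k₁ _ (by simp) h3 h4 hw0 hw1 hwm hwG hv0 hv1 hvm hvG
  rw [← h5] at hσ
  refine ⟨σ, hσ, ?_⟩
  rw [asm_act_mkP hM.det (asm_mem_frE k F M) hσ hw]
  congr 2
  exact funext h

end Pool.Agent.VCI
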