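import Pool.Agent.VCI.Defs

/-! Complete intersections: basic facts (points, the surface, cycles). -/

set_option autoImplicit false

open scoped LinearAlgebra.Projectivization
open MvPolynomial

namespace Pool.Agent.VCI

open Pool.Agent.Chow0 (IsLink IsChowForm)
open Pool.Agent.VGS

variable {n r : ℕ}

/-! ### points -/

theorem map_ne_zero' (σ : ℂ ≃+* ℂ) {z : Fin n → ℂ} (hz : z ≠ 0) : (fun i => σ (z i)) ≠ 0 := by
  intro h
  apply hz
  funext i
  have h1 := congrFun h i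
  simpa using h1

theorem act_mk (σ : ℂ ≃+* ℂ) (z : Fin n → ℂ) (hz : z ≠ 0) (hz' : (fun i => σ (z i)) ≠ 0) :
    act σ (Projectivization.mk ℂ z hz) = Projectivization.mk ℂ (fun i => σ (z i)) hz' := by
  unfold act
  rw [Projectivization.mk_eq_mk_iff']
  obtain ⟨a, ha⟩ := Projectivization.exists_smul_eq_mk_rep ℂ z hz
  refine ⟨σ a, ?_⟩
  funext i
  rw [← ha]
  change σ a * σ (z i) = σ ((a : ℂ) * z i)
  rw [map_mul]

@[simp] theorem act_one (p : PN n) : act 1 p = p := by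
  unfold act
  exact Projectivization.mk_rep p

theorem act_mul (σ τ : ℂ ≃+* ℂ) (p : PN n) : act (σ * τ) p = act σ (act τ p) := by
  have h1 : act τ p = Projectivization.mk ℂ (fun i => τ (p.rep i)) (map_ne_zero' τ p.rep_nonzero) :=
    rfl
  rw [h1, act_mk σ _ _ (map_ne_zero' σ (map_ne_zero' τ p.rep_nonzero))]
  rfl

@[simp] theorem act_inv_act (σ : ℂ ≃+* ℂ) (p : PN n) : act σ⁻¹ (act σ p) = p := by
  rw [← act_mul, inv_mul_cancel, act_one]

@[simp] theorem act_act_inv (σ : ℂ ≃+* ℂ) (p : PN n) : act σ (act σ⁻¹ p) = p := by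
  rw [← act_mul, mul_inv_cancel, act_one]

theorem act_injective (σ : ℂ ≃+* ℂ) : Function.Injective (act (n := n) σ) := by
  intro p q h
  rw [← act_inv_act σ p, h, act_inv_act]

theorem exists_nrm (p : PN n) : ∃ (z : Fin n → ℂ) (hz : z ≠ 0) (i : Fin n), z i = 1 ∧
    p = Projectivization.mk ℂ z hz := by
  obtain ⟨i, hi⟩ := Function.ne_iff.1 p.rep_nonzero
  have hi' : p.rep i ≠ 0 := hi
  have h1 : (fun j => p.rep j / p.rep i) i = 1 := div_self hi'
  have h0 : (fun j => p.rep j / p.rep i) ≠ 0 := by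
    intro h
    rw [h] at h1
    exact zero_ne_one h1
  refine ⟨_, h0, i, h1, ?_⟩
  conv_lhs => rw [← p.mk_rep]
  rw [Projectivization.mk_eq_mk_iff']
  refine ⟨p.rep i, ?_⟩
  funext j
  change p.rep i * (p.rep j / p.rep i) = p.rep j
  rw [mul_div_cancel₀ _ hi']

theorem mk_eq_mk_of_mul {z w : Fin n → ℂ} (hz : z ≠ 0) (hw : w ≠ 0) {a : ℂ}
    (h : ∀ i, z i = a * w i) : (Projectivization.mk ℂ z hz : PN n) = Projectivization.mk ℂ w hw := by
  rw [Projectivization.mk_eq_mk_iff']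
  exact ⟨a, funext fun i => (h i).symm⟩

theorem mk_eq_mk_iff_exists {z w : Fin n → ℂ} (hz : z ≠ 0) (hw : w ≠ 0) :
    (Projectivization.mk ℂ z hz : PN n) = Projectivization.mk ℂ w hw ↔
      ∃ a : ℂ, a ≠ 0 ∧ ∀ i, z i = a * w i := by
  constructor
  · intro h
    rw [Projectivization.mk_eq_mk_iff'] at h
    obtain ⟨a, ha⟩ := h
    refine ⟨a, ?_, fun i => ?_⟩
    · rintro rfl
      apply hz
      rw [← ha, zero_smul]
    · rw [← ha]
      rfl
  · rintro ⟨a, -, h⟩
    exact mk_eq_mk_of_mul hz hw h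

theorem over_mk {L : Fl} {z : Fin n → ℂ} (hz : z ≠ 0) {i : Fin n} (h1 : z i = 1) :
    Over L (Projectivization.mk ℂ z hz) ↔ ∀ j, z j ∈ L := by
  constructor
  · rintro ⟨w, hw, hL, h⟩ j
    rw [mk_eq_mk_iff_exists] at h
    obtain ⟨a, ha, h2⟩ := h
    have h3 : a * w i = 1 := by rw [← h2 i, h1]
    have h4 : w i ≠ 0 := right_ne_zero_of_mul_eq_one h3
    have h5 : z j = w j / w i := by
      rw [h2 j, eq_div_iff h4]
      linear_combination w j * h3
    rw [h5]
    exact L.div_mem (hL j) (hL i)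
  · intro h
    exact ⟨z, hz, h, rfl⟩

theorem rep_mk_div {z : Fin n → ℂ} (hz : z ≠ 0) (i j : Fin n) :
    (Projectivization.mk ℂ z hz : PN n).rep i / (Projectivization.mk ℂ z hz : PN n).rep j =
      z i / z j := by
  obtain ⟨a, ha⟩ := Projectivization.exists_smul_eq_mk_rep ℂ z hz
  rw [← ha]
  change ((a : ℂ) * z i) / ((a : ℂ) * z j) = z i / z j
  exact mul_div_mul_left _ _ a.ne_zero

theorem rep_mk_eq_zero {z : Fin n → ℂ} (hz : z ≠ 0) (j : Fin n) :
    (Projectivization.mk ℂ z hz : PN n).rep j = 0 ↔ z j = 0 := by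
  obtain ⟨a, ha⟩ := Projectivization.exists_smul_eq_mk_rep ℂ z hz
  rw [← ha]
  change (a : ℂ) * z j = 0 ↔ z j = 0
  simp [a.ne_zero]

theorem adjP_mk {L : Fl} {z : Fin n → ℂ} (hz : z ≠ 0) {i : Fin n} (h1 : z i = 1) :
    adjP L (Projectivization.mk ℂ z hz) = adj L (Set.range z) := by
  unfold adjP
  apply le_antisymm
  · apply adj_le (le_adj _ _)
    rintro x ⟨a, b, -, rfl⟩
    rw [rep_mk_div]
    exact (adj L (Set.range z)).div_mem (subset_adj _ _ ⟨a, rfl⟩) (subset_adj _ _ ⟨b, rfl⟩)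
  · apply adj_le (le_adj _ _)
    rintro x ⟨j, rfl⟩
    apply subset_adj
    refine ⟨j, i, ?_, ?_⟩
    · rw [Ne, rep_mk_eq_zero, h1]
      exact one_ne_zero
    · rw [rep_mk_div, h1, div_one]

theorem le_adjP (L : Fl) (p : PN n) : L ≤ adjP L p := le_adj _ _

theorem over_iff_adjP_le {L : Fl} {p : PN n} : Over L p ↔ adjP L p ≤ L := by
  obtain ⟨z, hz, i, h1, rfl⟩ := exists_nrm p
  rw [over_mk hz h1, adjP_mk hz h1]
  constructor
  · intro h
    apply adj_le le_rfl
    rintro x ⟨j, rfl⟩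
    exact h j
  · intro h j
    exact h (subset_adj _ _ ⟨j, rfl⟩)

theorem over_adjP (L : Fl) (p : PN n) : Over (adjP L p) p := by
  obtain ⟨z, hz, i, h1, rfl⟩ := exists_nrm p
  rw [over_mk hz h1, adjP_mk hz h1]
  exact fun j => subset_adj _ _ ⟨j, rfl⟩

theorem Over.mono {L L' : Fl} {p : PN n} (h : Over L p) (hL : L ≤ L') : Over L' p := by
  obtain ⟨z, hz, h1, h2⟩ := h
  exact ⟨z, hz, fun i => hL (h1 i), h2⟩

theorem Over.act_eq {L : Fl} {p : PN n} (h : Over L p) {σ : ℂ ≃+* ℂ} (hσ : σ ∈ VGS.Fix L) :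
    act σ p = p := by
  obtain ⟨z, hz, h1, rfl⟩ := h
  rw [act_mk σ z hz (map_ne_zero' σ hz)]
  congr 1
  funext i
  exact hσ _ (h1 i)

theorem mem_Fix_adjP {L : Fl} {p : PN n} {σ : ℂ ≃+* ℂ} :
    σ ∈ VGS.Fix (adjP L p) ↔ σ ∈ VGS.Fix L ∧ act σ p = p := by
  constructor
  · intro h
    exact ⟨Fix_mono (le_adjP L p) h, (over_adjP L p).act_eq h⟩
  · rintro ⟨h1, h2⟩
    obtain ⟨z, hz, i, hi, rfl⟩ := exists_nrm p
    rw [adjP_mk hz hi, mem_Fix_adj]
    refine ⟨h1, ?_⟩
    rintro x ⟨j, rfl⟩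
    rw [act_mk σ z hz (map_ne_zero' σ hz), mk_eq_mk_iff_exists] at h2
    obtain ⟨a, -, ha⟩ := h2
    have h3 := ha i
    rw [hi, map_one, mul_one] at h3
    have h4 := ha j
    rwa [← h3, one_mul] at h4

instance countable_adjP (L : Fl) [Countable L] (p : PN n) : Countable (adjP L p) := by
  obtain ⟨z, hz, i, h1, rfl⟩ := exists_nrm p
  rw [adjP_mk hz h1]
  have : Countable (Set.range z) := (Set.countable_range z).to_subtype
  infer_instance

/-- an automorphism over `L` preserves the points over `clo L` -/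
theorem over_clo_act {L : Fl} {σ : ℂ ≃+* ℂ} (hσ : σ ∈ VGS.Fix L) {p : PN n} :
    Over (clo L) (act σ p) ↔ Over (clo L) p := by
  obtain ⟨z, hz, i, h1, rfl⟩ := exists_nrm p
  rw [act_mk σ z hz (map_ne_zero' σ hz), over_mk hz h1,
    over_mk (i := i) (map_ne_zero' σ hz) (by rw [h1, map_one])]
  exact forall_congr' fun j => fix_mem_clo hσ

/-! ### the surface -/

theorem aeval_scale {G : MvPolynomial (Fin n) ℂ} {e : ℕ} (hG : G.IsHomogeneous e)
    {z w : Fin n → ℂ} {a : ℂ} (h : ∀ i, z i = a * w i) :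
    MvPolynomial.aeval z G = a ^ e * MvPolynomial.aeval w G := by
  have h1 : z = fun i => a * w i := funext h
  rw [h1]
  rw [aeval_def, aeval_def, eval₂_eq', eval₂_eq', Finset.mul_sum]
  refine Finset.sum_congr rfl fun t ht => ?_
  have h3 : t.degree = e := by
    by_contra h
    exact (mem_support_iff.mp ht) (hG.coeff_eq_zero h)
  have h2 : ∏ i, (a * w i) ^ t i = a ^ e * ∏ i, w i ^ t i := by
    simp only [mul_pow, Finset.prod_mul_distrib, Finset.prod_pow_eq_pow_sum]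
    congr 2
    rw [← h3, Finsupp.degree_eq_sum]
  rw [h2]
  ring

theorem mem_zero_mk {G : MvPolynomial (Fin n) ℂ} {e : ℕ} (hG : G.IsHomogeneous e)
    {z : Fin n → ℂ} (hz : z ≠ 0) :
    aeval (Projectivization.mk ℂ z hz : PN n).rep G = 0 ↔ aeval z G = 0 := by
  obtain ⟨a, ha⟩ := Projectivization.exists_smul_eq_mk_rep ℂ z hz
  have h1 : ∀ i, (Projectivization.mk ℂ z hz : PN n).rep i = (a : ℂ) * z i := by
    intro i
    rw [← ha]
    rfl
  rw [aeval_scale hG h1, mul_eq_zero, or_iff_right (pow_ne_zero _ a.ne_zero)]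

theorem mem_surf_mk {F : Fin r → MvPolynomial (Fin n) ℂ} {d : Fin r → ℕ}
    (hF : ∀ i, (F i).IsHomogeneous (d i)) {z : Fin n → ℂ} (hz : z ≠ 0) :
    (Projectivization.mk ℂ z hz : PN n) ∈ ciS F ↔ ∀ i, aeval z (F i) = 0 :=
  forall_congr' fun i => mem_zero_mk (hF i) hz

theorem aeval_act_rep {L : Fl} {G : MvPolynomial (Fin n) ℂ} {e : ℕ} (hG : G.IsHomogeneous e)
    (hL : Coef L G) {σ : ℂ ≃+* ℂ} (hσ : σ ∈ VGS.Fix L) {p : PN n} :
    aeval (act σ p).rep G = 0 ↔ aeval p.rep G = 0 := by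
  have h1 : act σ p = Projectivization.mk ℂ (fun i => σ (p.rep i)) (map_ne_zero' σ p.rep_nonzero) :=
    rfl
  rw [h1, mem_zero_mk hG, aeval_fix hL hσ, map_eq_zero_iff σ σ.injective]

theorem act_mem_surf {L : Fl} {F : Fin r → MvPolynomial (Fin n) ℂ} {d : Fin r → ℕ}
    (hF : ∀ i, (F i).IsHomogeneous (d i)) (hL : ∀ i, Coef L (F i)) {σ : ℂ ≃+* ℂ}
    (hσ : σ ∈ VGS.Fix L) {p : PN n} : act σ p ∈ ciS F ↔ p ∈ ciS F :=
  forall_congr' fun i => aeval_act_rep (hF i) (hL i) hσ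

/-! ### cycles -/

@[simp] theorem actC_single (σ : ℂ ≃+* ℂ) (p : PN n) (c : ℚ) :
    actC σ (Finsupp.single p c) = Finsupp.single (act σ p) c := by
  unfold actC
  rw [Finsupp.lmapDomain_apply, Finsupp.mapDomain_single]

theorem actC_one (z : Cy n) : actC 1 z = z := by
  induction z using Finsupp.induction_linear with
  | zero => rw [map_zero]
  | add x y hx hy => rw [map_add, hx, hy]
  | single p c => rw [actC_single, act_one]

theorem actC_mul (σ τ : ℂ ≃+* ℂ) (z : Cy n) : actC (σ * τ) z = actC σ (actC τ z) := by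
  induction z using Finsupp.induction_linear with
  | zero => rw [map_zero, map_zero, map_zero]
  | add x y hx hy => rw [map_add, hx, hy, map_add, map_add]
  | single p c => rw [actC_single, actC_single, actC_single, act_mul]

theorem actC_apply (σ : ℂ ≃+* ℂ) (z : Cy n) (p : PN n) : actC σ z p = z (act σ⁻¹ p) := by
  unfold actC
  rw [Finsupp.lmapDomain_apply]
  conv_lhs => rw [← act_act_inv σ p]
  exact Finsupp.mapDomain_apply (act_injective σ) z _

theorem cycQ_zero : cycQ (n := n) 0 = 0 := by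
  unfold cycQ
  simp

theorem cycQ_add (s t : Multiset (PN n)) : cycQ (s + t) = cycQ s + cycQ t := by
  unfold cycQ
  rw [Multiset.map_add, Multiset.sum_add]

theorem cycQ_cons (p : PN n) (s : Multiset (PN n)) :
    cycQ (p ::ₘ s) = Finsupp.single p 1 + cycQ s := by
  unfold cycQ
  rw [Multiset.map_cons, Multiset.sum_cons]

theorem cycQ_apply [DecidableEq (PN n)] (s : Multiset (PN n)) (p : PN n) : cycQ s p = (s.count p : ℚ) := by
  induction s using Multiset.induction_on with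
  | empty => rw [cycQ_zero, Multiset.count_zero]; simp
  | cons q s ih =>
    rw [cycQ_cons, Finsupp.add_apply, ih, Multiset.count_cons, Finsupp.single_apply]
    by_cases h : p = q
    · rw [if_pos h, if_pos h.symm]
      push_cast
      ring
    · rw [if_neg h, if_neg (Ne.symm h)]
      push_cast
      ring

theorem actC_cycQ (σ : ℂ ≃+* ℂ) (s : Multiset (PN n)) : actC σ (cycQ s) = cycQ (s.map (act σ)) := by
  induction s using Multiset.induction_on with
  | empty => rw [cycQ_zero, map_zero, Multiset.map_zero, cycQ_zero]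
  | cons q s ih => rw [cycQ_cons, map_add, ih, actC_single, Multiset.map_cons, cycQ_cons]

@[simp] theorem ext_single (T : (PN n) → Cy n) (p : PN n) (c : ℚ) :
    ext T (Finsupp.single p c) = c • T p := by
  unfold ext
  rw [Finsupp.linearCombination_single]

/-- the action of an automorphism on the points of a surface -/
noncomputable def actS {L : Fl} {F : Fin r → MvPolynomial (Fin n) ℂ} {d : Fin r → ℕ}
    (hF : ∀ i, (F i).IsHomogeneous (d i))
    (hL : ∀ i, Coef L (F i)) {σ : ℂ ≃+* ℂ} (hσ : σ ∈ VGS.Fix L) (p : ciS F) : ciS F :=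
  ⟨act σ p.1, (act_mem_surf hF hL hσ).2 p.2⟩

theorem map_linForm (σ : ℂ ≃+* ℂ) (z : Fin n → ℂ) :
    MvPolynomial.map (σ : ℂ →+* ℂ) (Pool.Agent.Chow0.linForm z) =
      Pool.Agent.Chow0.linForm (fun i => σ (z i)) := by
  unfold Pool.Agent.Chow0.linForm
  rw [map_sum]
  refine Finset.sum_congr rfl fun i _ => ?_
  rw [map_mul, MvPolynomial.map_C, MvPolynomial.map_X]
  rfl

theorem linForm_mk {z : Fin n → ℂ} (hz : z ≠ 0) : ∃ c : ℂ, c ≠ 0 ∧
    Pool.Agent.Chow0.linForm z =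
      MvPolynomial.C c * Pool.Agent.Chow0.linForm (Projectivization.mk ℂ z hz : PN n).rep := by
  obtain ⟨a, ha⟩ := Projectivization.exists_smul_eq_mk_rep ℂ z hz
  refine ⟨(a : ℂ)⁻¹, inv_ne_zero a.ne_zero, ?_⟩
  rw [← ha]
  unfold Pool.Agent.Chow0.linForm
  rw [Finset.mul_sum]
  refine Finset.sum_congr rfl fun i _ => ?_
  change _ = MvPolynomial.C (a : ℂ)⁻¹ * (MvPolynomial.C ((a : ℂ) * z i) * _)
  rw [← mul_assoc, ← MvPolynomial.C_mul, inv_mul_cancel_left₀ a.ne_zero]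

theorem map_chowForm (σ : ℂ ≃+* ℂ) (s : Multiset (PN n)) : ∃ c : ℂ, c ≠ 0 ∧
    MvPolynomial.map (σ : ℂ →+* ℂ) (Pool.Agent.Chow0.chowForm s) =
      MvPolynomial.C c * Pool.Agent.Chow0.chowForm (s.map (act σ)) := by
  induction s using Multiset.induction_on with
  | empty =>
    refine ⟨1, one_ne_zero, ?_⟩
    simp [Pool.Agent.Chow0.chowForm]
  | cons p s ih =>
    obtain ⟨c, hc, h⟩ := ih
    obtain ⟨b, hb, h'⟩ := linForm_mk (map_ne_zero' σ p.rep_nonzero)
    refine ⟨b * c, mul_ne_zero hb hc, ?_⟩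
    unfold Pool.Agent.Chow0.chowForm at h ⊢
    rw [Multiset.map_cons, Multiset.prod_cons, map_mul, h, map_linForm, h', Multiset.map_cons,
      Multiset.map_cons, Multiset.prod_cons, MvPolynomial.C_mul]
    change MvPolynomial.C b * Pool.Agent.Chow0.linForm (act σ p).rep * _ = _
    ring

theorem IsChowForm.act {L : Fl} {F : Fin r → MvPolynomial (Fin n) ℂ} {d : Fin r → ℕ}
    (hF : ∀ i, (F i).IsHomogeneous (d i))
    (hL : ∀ i, Coef L (F i)) {σ : ℂ ≃+* ℂ} (hσ : σ ∈ VGS.Fix L) {G : MvPolynomial (Fin n) ℂ}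
    {s : Multiset (ciS F)} (h : IsChowForm (ciS F) G s) :
    IsChowForm (ciS F) (MvPolynomial.map (σ : ℂ →+* ℂ) G) (s.map (actS hF hL hσ)) := by
  obtain ⟨c, hc, hG⟩ := h
  obtain ⟨b, hb, h2⟩ := map_chowForm σ (s.map Subtype.val)
  refine ⟨σ c * b, mul_ne_zero (by simpa using hc) hb, ?_⟩
  rw [hG, map_mul, MvPolynomial.map_C, h2, ← mul_assoc, ← MvPolynomial.C_mul, Multiset.map_map,
    Multiset.map_map]
  rfl

theorem IsLink.act {L : Fl} {F : Fin r → MvPolynomial (Fin n) ℂ} {d : Fin r → ℕ}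
    (hF : ∀ i, (F i).IsHomogeneous (d i))
    (hL : ∀ i, Coef L (F i)) {σ : ℂ ≃+* ℂ} (hσ : σ ∈ VGS.Fix L) {s₀ s₁ : Multiset (ciS F)}
    (h : IsLink (ciS F) s₀ s₁) :
    IsLink (ciS F) (s₀.map (actS hF hL hσ)) (s₁.map (actS hF hL hσ)) := by
  obtain ⟨Φ, h1, h2, h3⟩ := h
  have key : ∀ t : ℂ, (Φ.map (MvPolynomial.map (σ : ℂ →+* ℂ))).eval (MvPolynomial.C (σ t)) =
      MvPolynomial.map (σ : ℂ →+* ℂ) (Φ.eval (MvPolynomial.C t)) := by
    intro t
    rw [Polynomial.eval_map, ← Polynomial.eval₂_hom, MvPolynomial.map_C]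
    rfl
  refine ⟨Φ.map (MvPolynomial.map (σ : ℂ →+* ℂ)), ?_, ?_, ?_⟩
  · have h4 := (σ.symm.injective.tendsto_cofinite).eventually h1
    refine h4.mono ?_
    rintro t ⟨s, hs⟩
    refine ⟨s.map (actS hF hL hσ), ?_⟩
    have h5 := key (σ.symm t)
    rw [σ.apply_symm_apply] at h5
    rw [h5]
    exact IsChowForm.act hF hL hσ hs
  · have h5 := key 0
    rw [map_zero] at h5
    rw [h5]
    exact IsChowForm.act hF hL hσ h2
  · have h5 := key 1
    rw [map_one] at h5
    rw [h5]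
    exact IsChowForm.act hF hL hσ h3

/-- rational equivalence is stable under the automorphisms over a field of definition -/
theorem actC_ratQ {L : Fl} {F : Fin r → MvPolynomial (Fin n) ℂ} {d : Fin r → ℕ}
    (hF : ∀ i, (F i).IsHomogeneous (d i))
    (hL : ∀ i, Coef L (F i)) {σ : ℂ ≃+* ℂ} (hσ : σ ∈ VGS.Fix L) {z : Cy n} (hz : z ∈ ratQ F) :
    actC σ z ∈ ratQ F := by
  unfold ratQ at hz
  induction hz using Submodule.span_induction with
  | mem z hz =>
    obtain ⟨s₀, s₁, h, rfl⟩ := hz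
    apply Submodule.subset_span
    refine ⟨_, _, IsLink.act hF hL hσ h, ?_⟩
    rw [map_sub, actC_cycQ, actC_cycQ, Multiset.map_map, Multiset.map_map, Multiset.map_map,
      Multiset.map_map]
    rfl
  | zero => rw [map_zero]; exact Submodule.zero_mem _
  | add x y _ _ hx hy => rw [map_add]; exact Submodule.add_mem _ hx hy
  | smul a x _ hx => rw [map_smul]; exact Submodule.smul_mem _ _ hx

end Pool.Agent.VCI
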