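import Pool.Agent.VGS.CloM
import Pool.Agent.VGS.Place

/-!
# An implicit function theorem for places

`m` polynomial equations in `m + 1` unknowns with coefficients in a countable field, with a
solution at which the Jacobian in the first `m` unknowns is not zero, have a solution in `ℂ` which
is not constant and specialises to the given one.
-/

set_option autoImplicit false

open MvPolynomial

namespace Pool.Agent.VCI

open Pool.Agent.VGS

/-- A countable extension of a countable subfield of `ℂ` embeds into `ℂ`. -/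
theorem exists_embed (k : Fl) [Countable k] (K : Type) [Field K] [Algebra k K] [Countable K] :
    ∃ φ : K →+* ℂ, ∀ x : k, φ (algebraMap k K x) = (x : ℂ) := by
  obtain ⟨s, hs⟩ := exists_isTranscendenceBasis k K
  obtain ⟨t, ht⟩ := exists_isTranscendenceBasis k ℂ
  have hcard := IsAlgClosed.cardinal_eq_cardinal_transcendence_basis_of_aleph0_lt' _ ht
    (Cardinal.mk_le_aleph0_iff.2 inferInstance)
    (by rw [Cardinal.mk_complex]; exact Cardinal.aleph0_lt_continuum)
  have hinf : Infinite t := by
    rw [Cardinal.infinite_iff, ← hcard, Cardinal.mk_complex]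
    exact Cardinal.aleph0_lt_continuum.le
  obtain ⟨f, hf⟩ := exists_injective_nat s
  let g : s → t := fun i => Infinite.natEmbedding t (f i)
  have hg : Function.Injective g := (Infinite.natEmbedding t).injective.comp hf
  have hind : AlgebraicIndependent k fun i => (g i : ℂ) := ht.1.comp g hg
  let A := Algebra.adjoin k (Set.range fun i : s => (i : K))
  let ψ₀ : A →ₐ[k] ℂ := (aeval (fun i : s => (g i : ℂ)) : MvPolynomial s k →ₐ[k] ℂ).comp
    (hs.1.aevalEquiv.symm : A ≃ₐ[k] MvPolynomial s k).toAlgHom
  let ψ : A →+* ℂ := ψ₀.toRingHom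
  have hψ₀ : ∀ x : k, ψ (algebraMap k A x) = (x : ℂ) := fun x => ψ₀.commutes x
  have hinj : Function.Injective ψ := by
    intro a b hab
    exact (hs.1.aevalEquiv.symm).injective (hind hab)
  let _ : Algebra A ℂ := ψ.toAlgebra
  have h2 : FaithfulSMul A ℂ := by
    rw [faithfulSMul_iff_algebraMap_injective]
    exact hinj
  have h3 : Algebra.IsAlgebraic A K := hs.isAlgebraic
  refine ⟨(IsAlgClosed.lift (R := A) (S := K) (M := ℂ)).toRingHom, fun x => ?_⟩
  have h4 : algebraMap k K x = algebraMap A K (algebraMap k A x) := rfl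
  have h5 := (IsAlgClosed.lift (R := A) (S := K) (M := ℂ)).commutes (algebraMap k A x)
  rw [h4]
  exact h5.trans (hψ₀ x)

/-- The height of the ideal of a rational point. -/
theorem height_point {k ι : Type} [Field k] [Fintype ι] (pt : ι → k) :
    (Fintype.card ι : ℕ∞) ≤ (RingHom.ker (eval pt : MvPolynomial ι k →+* k)).height := by
  classical
  set e := Fintype.equivFin ι with he
  set θ : ℕ → MvPolynomial ι k →ₐ[k] MvPolynomial ι k :=
    fun t => aeval (fun o => if (e o : ℕ) < t then C (pt o) else X o) with hθ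
  have hθX : ∀ t o, θ t (X o) = if (e o : ℕ) < t then C (pt o) else X o := by
    intro t o
    simp [hθ]
  have hθC : ∀ t c, θ t (C c) = C c := by
    intro t c
    simp [hθ]
  have hcomp : ∀ t, (θ (t + 1)).comp (θ t) = θ (t + 1) := by
    intro t
    apply algHom_ext
    intro o
    rw [AlgHom.comp_apply, hθX, hθX]
    by_cases h : (e o : ℕ) < t
    · rw [if_pos h, hθC, if_pos (by omega)]
    · rw [if_neg h, hθX]
  have hprime : ∀ t, (RingHom.ker (θ t)).IsPrime := fun t => RingHom.ker_isPrime _
  have key : ∀ t, t ≤ Fintype.card ι → (t : ℕ∞) ≤ (RingHom.ker (θ t)).height := by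
    intro t
    induction t with
    | zero => intro _; simp
    | succ t ih =>
      intro ht
      have hlt : RingHom.ker (θ t) < RingHom.ker (θ (t + 1)) := by
        rw [SetLike.lt_iff_le_and_exists]
        refine ⟨fun f hf => ?_, X (e.symm ⟨t, ht⟩) - C (pt (e.symm ⟨t, ht⟩)), ?_, ?_⟩
        · rw [RingHom.mem_ker] at hf ⊢
          rw [← hcomp t, AlgHom.comp_apply, hf, map_zero]
        · rw [RingHom.mem_ker, map_sub, hθX, hθC, if_pos (by simp), sub_self]
        · rw [RingHom.mem_ker, map_sub, hθX, hθC, if_neg (by simp)]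
          intro h0
          have h1 := congrArg (eval (fun _ => pt (e.symm ⟨t, ht⟩) + 1)) h0
          simp at h1
      have := hprime t
      have := hprime (t + 1)
      calc ((t + 1 : ℕ) : ℕ∞) = (t : ℕ∞) + 1 := by push_cast; rfl
        _ ≤ (RingHom.ker (θ t)).height + 1 := by gcongr; exact ih (by omega)
        _ ≤ _ := Ideal.height_add_one_le_of_lt_of_isPrime hlt
  refine (key _ le_rfl).trans (Ideal.height_mono ?_)
  have hfin : ∀ f, θ (Fintype.card ι) f = C (eval pt f) := by
    intro f
    have h1 : (θ (Fintype.card ι)) = (Algebra.ofId k (MvPolynomial ι k)).comp (aeval pt) := by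
      apply algHom_ext
      intro o
      rw [hθX, if_pos (e o).2, AlgHom.comp_apply, aeval_X]
      rfl
    rw [h1, AlgHom.comp_apply, aeval_eq_eval]
    rfl
  intro f hf
  rw [RingHom.mem_ker] at hf ⊢
  rw [hfin] at hf
  exact (C_eq_zero.1 hf)

/-- The first order expansion at a point. -/
theorem taylor_one {k ι : Type} [Field k] [Fintype ι] [DecidableEq ι] (pt : ι → k)
    (f : MvPolynomial ι k) : ∃ A : ι → MvPolynomial ι k,
      f = C (eval pt f) + ∑ o, A o * (X o - C (pt o)) ∧
      ∀ o, eval pt (A o) = eval pt (pderiv o f) := by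
  induction f using MvPolynomial.induction_on with
  | C a => exact ⟨0, by simp, fun o => by simp⟩
  | add f g hf hg =>
    obtain ⟨A, hA, hA'⟩ := hf
    obtain ⟨B, hB, hB'⟩ := hg
    refine ⟨A + B, ?_, fun o => by simp [hA', hB']⟩
    simp only [Pi.add_apply, add_mul, Finset.sum_add_distrib, map_add]
    calc f + g = (C (eval pt f) + ∑ o, A o * (X o - C (pt o))) +
          (C (eval pt g) + ∑ o, B o * (X o - C (pt o))) := by rw [← hA, ← hB]
      _ = _ := by ring
  | mul_X f i hf =>
    obtain ⟨A, hA, hA'⟩ := hf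
    refine ⟨fun o => A o * X i + if o = i then C (eval pt f) else 0, ?_, fun o => ?_⟩
    · have h1 : ∑ o, (A o * X i + if o = i then C (eval pt f) else 0) * (X o - C (pt o)) =
          (∑ o, A o * (X o - C (pt o))) * X i + C (eval pt f) * (X i - C (pt i)) := by
        simp only [add_mul, Finset.sum_add_distrib, ite_mul, zero_mul, Finset.sum_ite_eq',
          Finset.mem_univ, if_true, Finset.sum_mul]
        congr 1
        refine Finset.sum_congr rfl (fun o _ => by ring)
      rw [h1]
      have h2 : ∑ o, A o * (X o - C (pt o)) = f - C (eval pt f) := by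
        rw [eq_sub_iff_add_eq, add_comm]; exact hA.symm
      rw [h2, map_mul, eval_X, map_mul]
      ring
    · by_cases h : o = i
      · subst h
        simp [hA']
        ring
      · have h' : i ≠ o := fun h' => h h'.symm
        simp [hA', h, pderiv_X_of_ne h']
        ring

/-- A quotient of a countable algebra by a prime ideal embeds. -/
theorem exists_hom_aux {L : Fl} [Countable L] {A : Type} [CommRing A] [Algebra L A] [Countable A]
    (P : Ideal A) [hP : P.IsPrime] : ∃ ψ : A →+* ℂ, (∀ c : L, ψ (algebraMap L A c) = (c : ℂ)) ∧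
      ∀ f, ψ f = 0 ↔ f ∈ P := by
  have hcR : Countable (A ⧸ P) := (Ideal.Quotient.mk_surjective (I := P)).countable
  have hcK : Countable (FractionRing (A ⧸ P)) := by
    have hs : Function.Surjective (fun p : (A ⧸ P) × (A ⧸ P) =>
        algebraMap (A ⧸ P) (FractionRing (A ⧸ P)) p.1 /
          algebraMap (A ⧸ P) (FractionRing (A ⧸ P)) p.2) := by
      intro z
      obtain ⟨a, b, -, hab⟩ := IsFractionRing.div_surjective (A := A ⧸ P)
        (K := FractionRing (A ⧸ P)) z
      exact ⟨(a, b), hab⟩
    exact hs.countable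
  obtain ⟨φ, hφ⟩ := exists_embed L (FractionRing (A ⧸ P))
  refine ⟨(φ.comp (algebraMap (A ⧸ P) (FractionRing (A ⧸ P)))).comp
    (Ideal.Quotient.mk P), fun c => ?_, fun f => ?_⟩
  · rw [← hφ c]
    rfl
  · rw [RingHom.comp_apply, RingHom.comp_apply, map_eq_zero,
      map_eq_zero_iff _ (IsFractionRing.injective (A ⧸ P)
        (FractionRing (A ⧸ P))), Ideal.Quotient.eq_zero_iff_mem]

/-- A quotient of a polynomial ring by a prime ideal embeds. -/
theorem exists_hom {L : Fl} [Countable L] {ι : Type} [Countable ι] (P : Ideal (MvPolynomial ι L))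
    [hP : P.IsPrime] : ∃ ψ : MvPolynomial ι L →+* ℂ, (∀ c : L, ψ (C c) = (c : ℂ)) ∧
      ∀ f, ψ f = 0 ↔ f ∈ P := by
  have hc0 : Countable (MvPolynomial ι L) := by
    rw [← Cardinal.mk_le_aleph0_iff]
    refine MvPolynomial.cardinalMk_le_max.trans ?_
    rw [max_le_iff, max_le_iff]
    exact ⟨⟨Cardinal.mk_le_aleph0_iff.2 inferInstance, Cardinal.mk_le_aleph0_iff.2 inferInstance⟩,
      le_rfl⟩
  obtain ⟨ψ, h1, h2⟩ := exists_hom_aux (L := L) (A := MvPolynomial ι L) P
  exact ⟨ψ, fun c => h1 c, h2⟩

variable {ι : Type} [Fintype ι] [DecidableEq ι]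

/-- **An implicit function theorem for places**, with an arbitrary index type. -/
theorem branch' {L : Fl} (hC : (L : Set ℂ).Countable) (y : ι → ℂ) (hy : ∀ i, y i ∈ L)
    (Q : ι → MvPolynomial (Option ι) ℂ) (hQ : ∀ j, Coef L (Q j))
    (h0 : ∀ j, aeval (fun o : Option ι => o.elim 0 y) (Q j) = 0)
    (hJ' : ∀ w : ι → ℂ, (∀ j, ∑ i,
      aeval (fun o : Option ι => o.elim 0 y) (pderiv (some i) (Q j)) * w i = 0) → w = 0) :
    ∃ (V : ValuationSubring ℂ) (y' : ι → ℂ) (u : ℂ), IsPl V L ∧ Sp V L u 0 ∧ u ≠ 0 ∧
      u ∉ L ∧ (∀ i, Sp V L (y' i) (y i)) ∧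
      ∀ j, aeval (fun o : Option ι => o.elim u y') (Q j) = 0 := by
  have hJ : (Matrix.of fun j i : ι =>
      aeval (fun o : Option ι => o.elim 0 y) (pderiv (some i) (Q j))).det ≠ 0 := by
    intro h
    obtain ⟨w, hw, hw0⟩ := Matrix.exists_mulVec_eq_zero_iff.2 h
    exact hw (hJ' w fun j => congrFun hw0 j)
  have : Countable L := hC.to_subtype
  set pt : Option ι → L := fun o => o.elim 0 (fun i => ⟨y i, hy i⟩) with hpt
  choose q hq using fun j => coef_iff.1 (hQ j)
  have hval : ∀ f : MvPolynomial (Option ι) L, ((eval pt f : L) : ℂ) =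
      aeval (fun o : Option ι => o.elim 0 y) (map (algebraMap L ℂ) f) := by
    intro f
    have h1 : (algebraMap L ℂ).comp (eval pt) = ((aeval (fun o : Option ι => o.elim 0 y) :
        MvPolynomial (Option ι) ℂ →ₐ[ℂ] ℂ).toRingHom).comp (map (algebraMap L ℂ)) := by
      apply MvPolynomial.ringHom_ext
      · intro c; simp
      · intro o
        rcases o with _ | i <;> simp [hpt]
    exact congrArg (fun g => g f) h1
  set I : Ideal (MvPolynomial (Option ι) L) :=
    Ideal.span ((Finset.univ.image q : Finset _) : Set (MvPolynomial (Option ι) L)) with hI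
  set M : Ideal (MvPolynomial (Option ι) L) := RingHom.ker (eval pt) with hM
  have hMp : M.IsPrime := RingHom.ker_isPrime _
  have hqM : ∀ j, q j ∈ M := by
    intro j
    rw [hM, RingHom.mem_ker]
    apply Subtype.ext
    rw [hval, hq, h0]
    rfl
  have hIM : I ≤ M := by
    rw [hI, Ideal.span_le]
    intro f hf
    obtain ⟨j, -, rfl⟩ := Finset.mem_image.1 (Finset.mem_coe.1 hf)
    exact hqM j
  obtain ⟨P, hPmin, hPM⟩ := Ideal.exists_minimalPrimes_le hIM
  have hPp : P.IsPrime := hPmin.1.1
  have hqP : ∀ j, q j ∈ P := fun j => hPmin.1.2 (Ideal.subset_span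
    (Finset.mem_coe.2 (Finset.mem_image_of_mem _ (Finset.mem_univ j))))
  have hne : P ≠ M := by
    intro h
    have h1 := Ideal.height_le_card_of_mem_minimalPrimes_span_finset hPmin
    rw [h] at h1
    have h2 := (height_point pt).trans h1
    have h3 : (Finset.univ.image q).card ≤ Fintype.card ι := by
      refine Finset.card_image_le.trans ?_
      rw [Finset.card_univ]
    have h4 : Fintype.card (Option ι) ≤ (Finset.univ.image q).card := by exact_mod_cast h2
    rw [Fintype.card_option] at h4
    omega
  -- the parameter is not in the prime ideal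
  have hU : (X none : MvPolynomial (Option ι) L) ∉ P := by
    intro hU
    apply hne
    refine le_antisymm hPM ?_
    choose A hA hA' using fun j => taylor_one pt (q j)
    set N : Matrix (ι) (ι) (MvPolynomial (Option ι) L) :=
      Matrix.of fun j i => A j (some i) with hN
    set v : ι → MvPolynomial (Option ι) L :=
      fun i => X (some i) - MvPolynomial.C (pt (some i)) with hv
    have hNv : ∀ j, N.mulVec v j ∈ P := by
      intro j
      have h1 : q j = ∑ o, A j o * (X o - MvPolynomial.C (pt o)) := by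
        have h2 := hA j
        have h3 : eval pt (q j) = 0 := hqM j
        rw [h3, map_zero, zero_add] at h2
        exact h2
      rw [Fintype.sum_option] at h1
      have h2 : N.mulVec v j = q j - A j none * X none := by
        rw [h1, Matrix.mulVec, dotProduct]
        simp [hN, hv, hpt]
      rw [h2]
      exact P.sub_mem (hqP j) (P.mul_mem_left _ hU)
    have hdet : N.det ∉ P := by
      intro h
      have h1 : eval pt N.det = 0 := hPM h
      apply hJ
      have h2 : (Matrix.of fun j i : ι =>
          aeval (fun o : Option ι => o.elim 0 y) (pderiv (some i) (Q j))) =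
          (N.map (eval pt)).map (algebraMap L ℂ) := by
        ext j i
        rw [Matrix.map_apply, Matrix.map_apply, Matrix.of_apply, hN, Matrix.of_apply, hA', ← hq,
          pderiv_map]
        exact (hval _).symm
      have h3 : (N.map (eval pt)).det = 0 := by
        rw [← h1, RingHom.map_det]; rfl
      rw [h2]
      have h4 : ((N.map (eval pt)).map (algebraMap L ℂ)).det = algebraMap L ℂ (N.map (eval pt)).det := by
        rw [RingHom.map_det]; rfl
      rw [h4, h3, map_zero]
    have hvP : ∀ i, v i ∈ P := by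
      intro i
      have h1 : (N.adjugate.mulVec (N.mulVec v)) i ∈ P := by
        rw [Matrix.mulVec, dotProduct]
        exact P.sum_mem fun j _ => P.mul_mem_left _ (hNv j)
      rw [Matrix.mulVec_mulVec, Matrix.adjugate_mul, Matrix.smul_mulVec, Matrix.one_mulVec,
        Pi.smul_apply, smul_eq_mul] at h1
      exact (hPp.mem_or_mem h1).resolve_left hdet
    intro f hf
    obtain ⟨B, hB, -⟩ := taylor_one pt f
    have h3 : eval pt f = 0 := hf
    rw [h3, map_zero, zero_add] at hB
    rw [hB]
    refine P.sum_mem fun o _ => P.mul_mem_left _ ?_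
    rcases o with _ | i
    · have : (X none - MvPolynomial.C (pt none) : MvPolynomial (Option ι) L) = X none := by
        simp [hpt]
      rw [this]
      exact hU
    · exact hvP i
  obtain ⟨ψ, hψC, hker⟩ := exists_hom P
  have hψv : ∀ f : MvPolynomial (Option ι) L, ψ f =
      aeval (fun o : Option ι => o.elim (ψ (X none)) (fun i => ψ (X (some i))))
        (map (algebraMap L ℂ) f) := by
    intro f
    have h1 : ψ = ((aeval (fun o : Option ι => o.elim (ψ (X none)) (fun i => ψ (X (some i)))) :
        MvPolynomial (Option ι) ℂ →ₐ[ℂ] ℂ).toRingHom).comp (map (algebraMap L ℂ)) := by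
      apply MvPolynomial.ringHom_ext
      · intro c
        rw [hψC]
        simp
      · intro o
        rcases o with _ | i <;> simp
    exact congrArg (fun g => g f) h1
  set J : Ideal ψ.range := M.map ψ.rangeRestrict with hJd
  have hJtop : J ≠ ⊤ := by
    intro h
    rw [Ideal.eq_top_iff_one, hJd, Ideal.mem_map_iff_of_surjective _ ψ.rangeRestrict_surjective] at h
    obtain ⟨f, hf, hf1⟩ := h
    have h1 : ψ f = 1 := congrArg Subtype.val hf1
    have h2 : f - 1 ∈ P := by
      rw [← hker, map_sub, h1, map_one, sub_self]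
    have h3 : (1 : MvPolynomial (Option ι) L) ∈ M := by
      have := M.sub_mem hf (hPM h2)
      simpa using this
    exact hMp.ne_top ((Ideal.eq_top_iff_one _).2 h3)
  obtain ⟨V, hV1, hV2⟩ := Ideal.image_subset_nonunits_valuationSubring J hJtop
  have hMV : ∀ f ∈ M, V.valuation (ψ f) < 1 := by
    intro f hf
    have h1 : ψ f ∈ V.nonunits := by
      apply hV2
      exact ⟨ψ.rangeRestrict f, Ideal.mem_map_of_mem _ hf, rfl⟩
    exact (ValuationSubring.mem_nonunits_iff V).1 h1
  have hPl : IsPl V L := by
    intro c hc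
    have h1 : ψ (MvPolynomial.C ⟨c, hc⟩) ∈ ψ.range := ⟨_, rfl⟩
    have h2 := hV1 h1
    rw [hψC] at h2
    exact h2
  have hXM : ∀ o : Option ι, (X o - MvPolynomial.C (pt o) : MvPolynomial (Option ι) L) ∈ M := by
    intro o
    rw [hM, RingHom.mem_ker, map_sub, eval_X, eval_C, sub_self]
  have hu0 : ψ (X none) ≠ 0 := fun h => hU ((hker _).1 h)
  have hSpu : Sp V L (ψ (X none)) 0 := by
    refine ⟨L.zero_mem, ?_⟩
    have h1 := hMV _ (hXM none)
    rw [map_sub, hψC] at h1
    simpa [hpt] using h1
  refine ⟨V, fun i => ψ (X (some i)), ψ (X none), hPl, hSpu, hu0, ?_, fun i => ⟨hy i, ?_⟩, fun j => ?_⟩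
  · intro hmem
    have h1 := val_const hPl hmem hu0
    have h2 := hSpu.2
    rw [sub_zero, h1] at h2
    exact lt_irrefl _ h2
  · have h1 := hMV _ (hXM (some i))
    rw [map_sub, hψC] at h1
    exact h1
  · rw [← hq j, ← hψv, hker]
    exact hqP j

/-- **An implicit function theorem for places.** -/
theorem branch {m : ℕ} {L : Fl} (hC : (L : Set ℂ).Countable) (y : Fin m → ℂ) (hy : ∀ i, y i ∈ L)
    (Q : Fin m → MvPolynomial (Option (Fin m)) ℂ) (hQ : ∀ j, Coef L (Q j))
    (h0 : ∀ j, aeval (fun o : Option (Fin m) => o.elim 0 y) (Q j) = 0)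
    (hJ : (Matrix.of fun j i : Fin m =>
      aeval (fun o : Option (Fin m) => o.elim 0 y) (pderiv (some i) (Q j))).det ≠ 0) :
    ∃ (V : ValuationSubring ℂ) (y' : Fin m → ℂ) (u : ℂ), IsPl V L ∧ Sp V L u 0 ∧ u ≠ 0 ∧
      u ∉ L ∧ (∀ i, Sp V L (y' i) (y i)) ∧
      ∀ j, aeval (fun o : Option (Fin m) => o.elim u y') (Q j) = 0 := by
  refine branch' hC y hy Q hQ h0 fun w hw => ?_
  by_contra hne
  exact hJ (Matrix.exists_mulVec_eq_zero_iff.1 ⟨w, hne, funext hw⟩)

end Pool.Agent.VCI
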