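import Pool.Agent.VCI.EffDefs

/-!
# The Chow group of zero-cycles with rational coefficients
-/

set_option autoImplicit false

open scoped LinearAlgebra.Projectivization
open MvPolynomial

namespace Pool.Agent.VCI

open Pool.Agent.Chow0 (IsChowForm IsLink)

variable {n r : ℕ}

/-- The zero-cycle with rational coefficients attached to a multiset. -/
noncomputable def cycS {S : Set (PN n)} (s : Multiset S) : S →₀ ℚ :=
  (s.map fun p => Finsupp.single p (1 : ℚ)).sum

/-- The zero-cycles which are rationally equivalent to zero. -/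
noncomputable def ratS (S : Set (PN n)) : Submodule ℚ (S →₀ ℚ) :=
  Submodule.span ℚ {z | ∃ s₀ s₁ : Multiset S, IsLink S s₀ s₁ ∧ z = cycS s₀ - cycS s₁}

/-- The Chow group of zero-cycles of `S` with rational coefficients. -/
abbrev CHQ (S : Set (PN n)) : Type := (S →₀ ℚ) ⧸ ratS S

/-- The class of a cycle. -/
noncomputable def clS {S : Set (PN n)} (z : S →₀ ℚ) : CHQ S := (ratS S).mkQ z

/-- The degree of a cycle. -/
noncomputable def degS {S : Set (PN n)} (z : S →₀ ℚ) : ℚ := z.sum fun _ a => a

/-- The endomorphism `Ψ` of the Chow group of `X` is the action of the correspondence `Γ - Γ'`: over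
every point `p` of `V` the Chow forms of `Γ` and `Γ'` are those of cycles `s`, `s'` of `X`, and
`Ψ [p] = [s] - [s']`. -/
def IsAct {Ω : Type} [Field Ω] [Algebra ℂ Ω] {F : Fin r → MvPolynomial (Fin (r + 3)) ℂ}
    {ξ : Fin (r + 3) → Ω} {w w' : ℕ} (Γ : EffCorr F ξ w) (Γ' : EffCorr F ξ w')
    (V : Set (ciS F)) (Ψ : Module.End ℚ (CHQ (ciS F))) : Prop :=
  ∀ p ∈ V, ∃ s s' : Multiset (ciS F), IsChowForm (ciS F) (Γ.at p.1.rep) s ∧
    IsChowForm (ciS F) (Γ'.at p.1.rep) s' ∧
      Ψ (clS (Finsupp.single p 1)) = clS (cycS s) - clS (cycS s')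

end Pool.Agent.VCI
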