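import Pool.Agent.VCI.Conj

/-! Complete intersections: the field of coefficients after an extension of the field of
constants. -/

set_option autoImplicit false

open scoped LinearAlgebra.Projectivization
open MvPolynomial

namespace Pool.Agent.VCI

open Pool.Agent.VGS

variable {r n : ℕ} {F : Fin r → MvPolynomial (Fin n) ℂ} {d : Fin r → ℕ}

/-- The field of coefficients after an extension of the field of constants. -/
theorem cof_adj (k : Fl) (F : Fin r → MvPolynomial (Fin n) ℂ) (T : Set ℂ) :
    cof (adj k T) F = adj (cof k F) T := by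
  unfold cof
  rw [adj_adj, adj_adj, Set.union_comm]

/-- The exchange of `t` and the coefficients. -/
theorem ind_adj (hF : ∀ i, (F i).IsHomogeneous (d i)) (k : Fl)
    (hind : AlgebraicIndependent k (fun m : MonA n d => coeff m.1.2 (F m.1.1)))
    {l : ℕ} {t : Fin l → ℂ} (ht : AlgebraicIndependent (cof k F) t) :
    AlgebraicIndependent (adj k (Set.range t))
      (fun m : MonA n d => coeff m.1.2 (F m.1.1)) := by
  rw [cof_eq_monA k hF] at ht
  have h1 := ai_sum.2 ⟨hind, ht⟩
  have h2 : AlgebraicIndependent k (Sum.elim t
      (fun m : MonA n d => coeff m.1.2 (F m.1.1))) := by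
    refine (algebraicIndependent_equiv' (Equiv.sumComm (Fin l) _) (f := Sum.elim
      (fun m : MonA n d => coeff m.1.2 (F m.1.1)) t) ?_).2 h1
    ext (i | i) <;> rfl
  exact (ai_sum.1 h2).2

end Pool.Agent.VCI
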