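import Pool.Agent.VCI.Pen

/-! Continuity of `μ` (doc S/MP_31564d_pres, (C)). -/

set_option autoImplicit false

open MvPolynomial

namespace Pool.Agent.VCI

open Pool.Agent.VGS (Fl adj clo Coef IsPl Sp)

variable {r : ℕ} {d : Fin r → ℕ} {F : Fin r → MvPolynomial (Fin (r + 3)) ℂ}

/-- `X ∩ ⟨x, b⟩` specialises to `X ∩ ⟨x₀, b⟩` -/
theorem sec_cont (hd : ∀ i, 2 ≤ d i) (hF : ∀ i, (F i).IsHomogeneous (d i)) (k : Fl)
    [Countable k]
    (hind : AlgebraicIndependent k (fun m : MonA (r + 3) d => coeff m.1.2 (F m.1.1)))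
    (hr : 0 < r) (E : Fl) [Countable E] (hE : clo E = E) (hKE : cof k F ≤ E) {u u₀ : ℂ}
    (hu : u ∉ E) {b : Fin r → Fin (r + 3) → ℂ}
    (hb : AlgebraicIndependent (clo (adj E {u}))
      (fun jl : Fin r × Fin (r + 3) => b jl.1 jl.2))
    {C : Fl} [Countable C] (hC : clo C = C) (hEC : E ≤ C) (hbC : ∀ j l, b j l ∈ C) (huC : u ∉ C)
    {V : ValuationSubring ℂ} (hV : IsPl V C) (hu₀ : Sp V C u u₀)
    {x x₀ : Fin (r + 3) → ℂ} (hx : ∀ l, x l ∈ clo (adj E {u})) (hxF : ∀ i, aeval x (F i) = 0)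
    (hx₀ : ∀ l, x₀ l ∈ E) (hx₀0 : x₀ ≠ 0) (hxx : ∀ l, Sp V C (x l) (x₀ l)) :
    ∃ e : (Fin r → ℂ) → (Fin r → ℂ), Set.BijOn e (SecC F x b) (SecC F x₀ b) ∧ e 0 = 0 ∧
      ∀ c ∈ SecC F x b, ∀ j, Sp V C (c j) (e c j) := by
  classical
  set E' : Fl := clo (adj E {u}) with hE'
  have hcE' : Countable E' := by
    have : Countable (adj E {u}) := VGS.countable_adj _ _
    infer_instance
  have hEE' : E ≤ E' := (VGS.le_adj _ _).trans (VGS.le_clo _)
  have hKE' : cof k F ≤ E' := hKE.trans hEE'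
  have hFK : ∀ i, Coef (cof k F) (F i) := coef_cof k F
  have hFC : ∀ i, Coef C (F i) := fun i => (hFK i).mono (hKE.trans hEC)
  have hbE : AlgebraicIndependent E (fun jl : Fin r × Fin (r + 3) => b jl.1 jl.2) :=
    VGS.ai_mono hEE' hb
  have hx0 : x ≠ 0 := by
    intro h
    apply hx₀0
    funext l
    have h1 := hxx l
    rw [h] at h1
    exact Sp.unique hV h1 (Sp.const hV (zero_mem C))
  have hx₀F : ∀ i, aeval x₀ (F i) = 0 := by
    intro i
    have h1 := Sp.aeval hV (hFC i) hxx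
    rw [hxF i] at h1
    exact (Sp.unique hV (Sp.const hV (zero_mem C)) h1).symm
  -- transversality at both ends
  have htx : ∀ c ∈ SecC F x b, (jacM F (vec x b c) b).det ≠ 0 := fun c hc =>
    sec_tra hd hF k hind hr E' (VGS.clo_clo _) hKE' hx hx0 hxF hb hc
  have ht₀ : ∀ c ∈ SecC F x₀ b, (jacM F (vec x₀ b c) b).det ≠ 0 := fun c hc =>
    sec_tra hd hF k hind hr E hE hKE hx₀ hx₀0 hx₀F hbE hc
  have hf₀ := secC_finite ht₀
  have hfx := secC_finite htx
  obtain ⟨D, hD⟩ := sec_card hd hF k hind hr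
  have hcard : (SecC F x b).ncard = (SecC F x₀ b).ncard := by
    rw [hD E' (VGS.clo_clo _) hKE' x hx hx0 hxF b hb, hD E hE hKE x₀ hx₀ hx₀0 hx₀F b hbE]
  -- the limits
  have hlim : ∀ c ∈ SecC F x b, ∃ c' ∈ SecC F x₀ b, ∀ j, Sp V C (c j) (c' j) := by
    intro c hc
    refine lim_ex hd hF k hind E hKE hbE hC hEC hbC hV huC hu₀ hxx hc (fun j => ?_)
    have hcC : Countable (adj C {u}) := VGS.countable_adj _ _
    have hcM : Countable (clo (adj C {u})) := inferInstance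
    have hCM : C ≤ clo (adj C {u}) := (VGS.le_adj _ _).trans (VGS.le_clo _)
    have hEM : E' ≤ clo (adj C {u}) := by
      refine VGS.clo_mono (VGS.adj_le (hEC.trans (VGS.le_adj _ _)) ?_)
      rintro _ rfl
      exact VGS.subset_adj _ _ rfl
    have h1 := alg_of_jac (M := clo (adj C {u})) (fun i => (hFC i).mono hCM)
      (fun l => hEM (hx l)) (fun j l => hCM (hbC j l)) (c := c) (x := vec x b c)
      (fun l => rfl) hc (htx c hc) j
    rwa [VGS.clo_clo] at h1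
  choose! e he1 he2 using hlim
  have h0 : (0 : Fin r → ℂ) ∈ SecC F x b := by
    intro i
    have h1 : vec x b 0 = x := by
      funext l
      simp [vec]
    rw [h1]
    exact hxF i
  have he0 : e 0 = 0 := by
    funext j
    exact Sp.unique hV (he2 0 h0 j) (Sp.const hV (zero_mem C))
  have hinj : Set.InjOn e (SecC F x b) := by
    intro c hc c₁ hc₁ h
    refine lim_inj hV hFC hxx hbC (he2 c hc) (fun j => ?_) hc hc₁ (ht₀ _ (he1 c hc))
    rw [h]
    exact he2 c₁ hc₁ j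
  refine ⟨e, ⟨he1, hinj, ?_⟩, he0, he2⟩
  have h1 : e '' SecC F x b = SecC F x₀ b := by
    refine Set.eq_of_subset_of_ncard_le (Set.image_subset_iff.2 he1) ?_ hf₀
    rw [hinj.ncard_image, hcard]
  rw [← h1]
  exact Set.surjOn_image e _

end Pool.Agent.VCI
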