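import Pool.Agent.VGS.Basic

/-!
# Complete intersections: definitions
-/

set_option autoImplicit false

open scoped LinearAlgebra.Projectivization
open MvPolynomial

namespace Pool.Agent.VCI

open Pool.Agent.Chow0 (IsLink)
open Pool.Agent.VGS (Fl adj clo Coef IsPl Sp Kills)

/-- The points of the projective space `ℙⁿ⁻¹(ℂ)`. -/
abbrev PN (n : ℕ) : Type := ℙ ℂ (Fin n → ℂ)

variable {n r : ℕ}

/-- The action of an automorphism of `ℂ` on points. -/
noncomputable def act (σ : ℂ ≃+* ℂ) (p : PN n) : PN n :=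
  Projectivization.mk ℂ (fun i => σ (p.rep i)) (by
    intro h
    apply p.rep_nonzero
    funext i
    have h1 := congrFun h i
    simpa using h1)

/-- The field `L(p)`. -/
noncomputable def adjP (L : Fl) (p : PN n) : Fl :=
  adj L {x | ∃ i j, p.rep j ≠ 0 ∧ x = p.rep i / p.rep j}

/-- The point `p` is defined over `L`. -/
def Over (L : Fl) (p : PN n) : Prop :=
  ∃ (z : Fin n → ℂ) (hz : z ≠ 0), (∀ i, z i ∈ L) ∧ p = Projectivization.mk ℂ z hz

/-- The common zeros of the forms `F i`. -/
def ciS (F : Fin r → MvPolynomial (Fin n) ℂ) : Set (PN n) := {p | ∀ i, aeval p.rep (F i) = 0}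

/-- The points of the surface `F = 0` which are generic over `L`: two quotients of coordinates are
algebraically independent over `L`. -/
def Gen (L : Fl) (F : Fin r → MvPolynomial (Fin n) ℂ) : Set (PN n) :=
  {p | p ∈ ciS F ∧ ∃ i j l, p.rep i ≠ 0 ∧
    AlgebraicIndependent L ![p.rep j / p.rep i, p.rep l / p.rep i]}

/-- The field generated by the coefficients of the `F i`. -/
noncomputable def cof (k : Fl) (F : Fin r → MvPolynomial (Fin n) ℂ) : Fl :=
  adj k (Set.range fun im : Fin r × (Fin n →₀ ℕ) => coeff im.2 (F im.1))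

/-- Zero-cycles with rational coefficients. -/
abbrev Cy (n : ℕ) : Type := PN n →₀ ℚ

/-- The cycle of a multiset. -/
noncomputable def cycQ (s : Multiset (PN n)) : Cy n := (s.map fun p => Finsupp.single p (1 : ℚ)).sum

/-- The cycles on the surface `F = 0` which are rationally equivalent to zero. -/
noncomputable def ratQ (F : Fin r → MvPolynomial (Fin n) ℂ) : Submodule ℚ (Cy n) :=
  Submodule.span ℚ {z | ∃ s₀ s₁ : Multiset (ciS F), IsLink (ciS F) s₀ s₁ ∧
    z = cycQ (s₀.map Subtype.val) - cycQ (s₁.map Subtype.val)}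

/-- The action of an automorphism of `ℂ` on cycles. -/
noncomputable def actC (σ : ℂ ≃+* ℂ) : Cy n →ₗ[ℚ] Cy n := Finsupp.lmapDomain ℚ ℚ (act σ)

/-- The linear extension of a map from points to cycles. -/
noncomputable def ext (T : PN n → Cy n) : Cy n →ₗ[ℚ] Cy n := Finsupp.linearCombination ℚ T

/-- The point `p` specialises to the point `q`, defined over `C`. -/
def SpP (V : ValuationSubring ℂ) (C : Fl) (p q : PN n) : Prop :=
  ∃ (z w : Fin n → ℂ) (hz : z ≠ 0) (hw : w ≠ 0), p = Projectivization.mk ℂ z hz ∧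
    q = Projectivization.mk ℂ w hw ∧ ∀ i, Sp V C (z i) (w i)

open Classical in
/-- The point with homogeneous coordinates `z` (a fixed point if `z = 0`). -/
noncomputable def mkP [NeZero n] (z : Fin n → ℂ) : PN n :=
  Projectivization.mk ℂ (if z = 0 then fun _ => 1 else z) (by
    split_ifs with h
    · intro h1
      have := congrFun h1 0
      simp at this
    · exact h)

/-- The sum of the points of a finite set. -/
noncomputable def sumSet (s : Set (PN n)) : Cy n := ∑ᶠ q ∈ s, Finsupp.single q (1 : ℚ)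

/-- The sum of the conjugates of a point. -/
noncomputable def Orb (E : Fl) (q : PN n) : Cy n := sumSet {q' | ∃ σ ∈ VGS.Fix E, act σ q = q'}

/-! ### Two-forms -/

/-- The differential of `F` at `z` in the direction `v`. -/
noncomputable def dFc (F : MvPolynomial (Fin n) ℂ) (z v : Fin n → ℂ) : ℂ :=
  ∑ i, v i * aeval z (pderiv i F)

/-- `J` is the value at `z` of the two-form `Res (Ω / (F₁ ⋯ F_r))` on the pair of derivations:
`det (v₁, …, v_r, z, D₁ z, D₂ z) = J det (d F_i (z) (v_j))` for all `v₁, …, v_r`. -/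
def IsResC (F : Fin r → MvPolynomial (Fin (r + 3)) ℂ) (D₁ D₂ : Derivation ℤ ℂ ℂ)
    (z : Fin (r + 3) → ℂ) (J : ℂ) : Prop :=
  ∀ v : Fin r → Fin (r + 3) → ℂ,
    (Matrix.of (Fin.append v ![z, fun i => D₁ (z i), fun i => D₂ (z i)])).det =
      J * (Matrix.of fun i j => dFc (F i) z (v j)).det

/-- The value at the point `p` of the two-form `Res (f Ω / (F₁ ⋯ F_r))` on the pair of
derivations. -/
noncomputable def tau (F : Fin r → MvPolynomial (Fin (r + 3)) ℂ) (D₁ D₂ : Derivation ℤ ℂ ℂ)
    (f : MvPolynomial (Fin (r + 3)) ℂ) (p : PN (r + 3)) : ℂ :=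
  aeval p.rep f * Classical.epsilon fun J => IsResC F D₁ D₂ p.rep J

/-- Its linear extension to cycles. -/
noncomputable def tauC (F : Fin r → MvPolynomial (Fin (r + 3)) ℂ) (D₁ D₂ : Derivation ℤ ℂ ℂ)
    (f : MvPolynomial (Fin (r + 3)) ℂ) : Cy (r + 3) →ₗ[ℚ] ℂ :=
  Finsupp.linearCombination ℚ (tau F D₁ D₂ f)

end Pool.Agent.VCI
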