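import Pool.Agent.VCI.Trd2

/-! Complete intersections: the centre of the dilation. -/

set_option autoImplicit false

open MvPolynomial

namespace Pool.Agent.VCI

open Pool.Agent.VGS

/-- There are `n - 1 - j ≥ r + 1` free coordinates, so the coordinates of `q`, algebraic over
`k₁ (a₁, …, a_r)`, satisfy an equation over `k₁` in these coordinates; an integral point off this
hypersurface. -/
theorem dil_c (k₁ : Fl) {n r : ℕ} (j : Fin n) (hj : r + j + 2 ≤ n) (a : Fin r → ℂ)
    (q : Fin n → ℂ) (hq0 : ∀ i < j, q i = 0) (hqj : q j = 1)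
    (hqC : ∀ i, q i ∈ clo (adj k₁ (Set.range a))) :
    ∃ c : Fin n → ℂ, (∀ i, ∃ m : ℤ, c i = m) ∧ c j = 1 ∧ (∀ i < j, c i = 0) ∧ ¬ InD k₁ q c := by
  classical
  have h1 : ¬ AlgebraicIndependent k₁ (fun i : {i : Fin n // j < i} => q i) := by
    intro h
    have h2 := ai_le_card h (y := a) fun i => hqC i
    rw [Nat.card_eq_fintype_card, Nat.card_eq_fintype_card, Fintype.card_fin] at h2
    have h3 : Fintype.card {i : Fin n // j < i} = n - 1 - j := by
      rw [Fintype.card_subtype]
      have h4 : (Finset.univ.filter fun i : Fin n => j < i) = Finset.Ioi j := by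
        ext i
        simp
      rw [h4, Fin.card_Ioi]
    omega
  rw [ai_iff] at h1
  push Not at h1
  obtain ⟨P, hP, hP0, hPne⟩ := h1
  have h2 : ∃ m : {i : Fin n // j < i} → ℤ, eval (fun i => (m i : ℂ)) P ≠ 0 := by
    by_contra hcon
    push Not at hcon
    apply hPne
    apply funext_set (fun _ => Set.range ((↑) : ℤ → ℂ))
    · intro i
      exact Set.infinite_range_of_injective Int.cast_injective
    · intro x hx
      choose m hm using fun i => hx i (Set.mem_univ i)
      have h3 : x = fun i => ((m i : ℤ) : ℂ) := funext fun i => (hm i).symm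
      rw [h3, hcon m, map_zero]
  obtain ⟨m, hm⟩ := h2
  let N : Fin n → ℤ := fun i => if h : j < i then m ⟨i, h⟩ else if i = j then 1 else 0
  have hN : ∀ i : {i : Fin n // j < i}, N i = m i := fun i => by
    simp only [N]
    rw [dif_pos i.2]
  refine ⟨fun i => (N i : ℂ), fun i => ⟨N i, rfl⟩, ?_, ?_, ?_⟩
  · simp [N]
  · intro i hi
    have h2 : ¬ j < i := not_lt.2 hi.le
    simp [N, h2, hi.ne]
  · intro hIn
    have h3 : aeval (fun i => (N i : ℂ)) (rename (Subtype.val : {i : Fin n // j < i} → Fin n) P)
        = 0 := by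
      apply hIn
      · intro m'
        by_cases hm' : coeff m' (rename (Subtype.val : {i : Fin n // j < i} → Fin n) P) = 0
        · rw [hm']; exact zero_mem _
        · obtain ⟨m'', rfl, hm''⟩ := coeff_rename_ne_zero _ _ _ hm'
          rw [coeff_rename_mapDomain _ Subtype.val_injective]
          exact hP m''
      · rw [aeval_rename, ← hP0]
        rfl
    apply hm
    rw [aeval_rename] at h3
    rw [← h3, ← coe_aeval_eq_eval]
    change aeval _ P = aeval _ P
    congr 1
    congr 1
    funext i
    exact congrArg _ (hN i).symm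

end Pool.Agent.VCI
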