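import Pool.Agent.VCI.TZ
import Pool.Agent.VGS.CloM
import Pool.Agent.VGS2.SysR

/-! Complete intersections: points which are not generic are not seen by two-forms; the numbers by
which correspondences act on two-forms are rational. -/

set_option autoImplicit false

open scoped LinearAlgebra.Projectivization
open MvPolynomial

namespace Pool.Agent.VCI

open Pool.Agent.VGS (Fl adj clo Coef Kills conjD conjD_kills conjD_apply Fix_mono le_adj le_clo
  mem_clo mem_adj_iff algInd_pair_iff)

variable {r : ℕ} {F : Fin r → MvPolynomial (Fin (r + 3)) ℂ} {d : Fin r → ℕ} {e : ℕ}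

namespace DomAux

theorem kills_clo {L : Fl} {D : Derivation ℤ ℂ ℂ} (h : Kills L D) : Kills (clo L) D := by
  intro x hx
  have hx' : IsAlgebraic L.toSubfield x := mem_clo.1 hx
  let D' : Derivation L.toSubfield ℂ ℂ := Derivation.mk'
    { toFun := D
      map_add' := map_add D
      map_smul' := fun a x => by
        rw [Algebra.smul_def, D.leibniz]
        have ha : D (algebraMap L.toSubfield ℂ a) = 0 := h a a.2
        rw [ha, smul_zero, add_zero]
        rfl } (fun a b => D.leibniz a b)
  have hint : IsIntegral L.toSubfield x := hx'.isIntegral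
  have h1 : D' (Polynomial.aeval x (minpoly L.toSubfield x)) =
      Polynomial.aeval x (Polynomial.derivative (minpoly L.toSubfield x)) • D' x :=
    D'.map_aeval _ _
  rw [minpoly.aeval, map_zero] at h1
  have h2 : Polynomial.aeval x (Polynomial.derivative (minpoly L.toSubfield x)) ≠ 0 :=
    (minpoly.irreducible hint).separable.aeval_derivative_ne_zero (minpoly.aeval _ _)
  rcases smul_eq_zero.mp h1.symm with h3 | h3
  · exact absurd h3 h2
  · exact h3

theorem kills_adj {L : Fl} {D : Derivation ℤ ℂ ℂ} (h : Kills L D) {w : ℂ} (hw : D w = 0) :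
    Kills (adj L {w}) D := by
  intro x hx
  rw [mem_adj_iff] at hx
  induction hx using IntermediateField.adjoin_induction with
  | mem x hx => rw [Set.mem_singleton_iff.1 hx, hw]
  | algebraMap a => exact h a a.2
  | add x y _ _ hx hy => rw [map_add, hx, hy, add_zero]
  | inv x _ hx => rw [Derivation.leibniz_inv, hx, smul_zero]
  | mul x y _ _ hx hy => rw [D.leibniz, hx, hy, smul_zero, smul_zero, add_zero]

theorem det_zero_row (v : Fin r → Fin (r + 3) → ℂ) (z y : Fin (r + 3) → ℂ) :
    (Matrix.of (Fin.append v ![z, 0, y])).det = 0 := by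
  refine Matrix.det_eq_zero_of_row_eq_zero (Fin.natAdd r 1) fun j => ?_
  rw [Matrix.of_apply, Fin.append_right]
  rfl

theorem det_prop_row (v : Fin r → Fin (r + 3) → ℂ) (z y : Fin (r + 3) → ℂ) (c : ℂ) :
    (Matrix.of (Fin.append v ![z, y, fun i => c * y i])).det = 0 := by
  have h1 := TauL.append_lin v ![z, y, 0] !![1, 0, 0; 0, 1, 0; 0, c, 0]
  have h2 : (!![1, 0, 0; 0, 1, 0; 0, c, 0] : Matrix (Fin 3) (Fin 3) ℂ).det = 0 := by
    rw [Matrix.det_fin_three]
    simp
  rw [h2, zero_mul] at h1
  rw [← h1]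
  congr 3
  funext a k
  fin_cases a
  · simp [Fin.sum_univ_three]
  · simp [Fin.sum_univ_three]
  · simp [Fin.sum_univ_three]

end DomAux

open DomAux

/-- Points which are not generic are not seen by two-forms. -/
theorem tau_of_not_gen (hF : IsSmoothCI F d) (he : e + (r + 3) = ∑ i, d i) (K : Fl)
    {D₁ D₂ : Derivation ℤ ℂ ℂ} (h₁ : Kills K D₁) (h₂ : Kills K D₂) {q : PN (r + 3)}
    (hq : q ∈ ciS F) (hq' : q ∉ Gen K F) {f : MvPolynomial (Fin (r + 3)) ℂ}
    (hf : f.IsHomogeneous e) : tau F D₁ D₂ f q = 0 := by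
  obtain ⟨z, hz, i, hi, rfl⟩ := exists_nrm q
  have hzF : ∀ i, aeval z (F i) = 0 := (mem_surf_mk hF.hom hz).mp hq
  have hpair : ∀ j l, ¬ AlgebraicIndependent K ![z j, z l] := by
    intro j l h
    refine hq' ⟨hq, i, j, l, ?_, ?_⟩
    · rw [Ne, rep_mk_eq_zero hz i, hi]
      exact one_ne_zero
    · rw [rep_mk_div, rep_mk_div, hi, div_one, div_one]
      exact h
  by_cases hw : ∃ j, z j ∉ clo K
  · obtain ⟨j, hj⟩ := hw
    have hzL : ∀ l, z l ∈ clo (adj K {z j}) := by
      intro l
      by_contra h
      exact hpair l j (algInd_pair_iff.2 ⟨hj, h⟩)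
    obtain ⟨w, hw⟩ : ∃ w, w = z j := ⟨_, rfl⟩
    rw [← hw] at hzL
    have hcomb : ∀ i, D₂ w * D₁ (z i) = D₁ w * D₂ (z i) := by
      intro i
      have hD : Kills K (D₂ w • D₁ - D₁ w • D₂) := by
        intro x hx
        simp [h₁ x hx, h₂ x hx]
      have h3 := kills_clo (kills_adj hD (w := w) (by simp [mul_comm])) _ (hzL i)
      have h4 : D₂ w * D₁ (z i) - D₁ w * D₂ (z i) = 0 := by simpa using h3
      exact sub_eq_zero.1 h4
    have hJ : IsResC F D₁ D₂ z 0 := by
      intro v
      rw [zero_mul]
      by_cases ha : D₁ w = 0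
      · have h5 : (fun i => D₁ (z i)) = 0 := by
          funext i
          by_cases hb : D₂ w = 0
          · exact kills_clo (kills_adj h₁ ha) _ (hzL i)
          · have h6 := hcomb i
            rw [ha, zero_mul] at h6
            exact (mul_eq_zero.1 h6).resolve_left hb
        rw [h5]
        exact det_zero_row _ _ _
      · have h5 : (fun i => D₂ (z i)) = fun i => (D₂ w / D₁ w) * D₁ (z i) := by
          funext i
          rw [div_mul_eq_mul_div, hcomb i, mul_div_cancel_left₀ _ ha]
        rw [h5]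
        exact det_prop_row v z (fun i => D₁ (z i)) _
    rw [tau_eq hF he hz hzF hf hJ, mul_zero]
  · push Not at hw
    exact tau_over hF he (kills_clo h₁) hq ⟨z, hz, hw, rfl⟩ hf

end Pool.Agent.VCI
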