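import Pool.Agent.VCI.Conj
import Pool.Agent.VCI.LineA
import Pool.Agent.Hartshorne.Zero

/-! Complete intersections: existence of generic points. -/

set_option autoImplicit false

open scoped LinearAlgebra.Projectivization
open MvPolynomial

namespace Pool.Agent.VCI

open Pool.Agent.VGS

variable {r : ℕ} {d : Fin r → ℕ}

/-- If the coefficients are independent, there is no common zero with `n - r` zero coordinates at
the beginning. -/
theorem exg_none {n : ℕ} {F : Fin r → MvPolynomial (Fin n) ℂ}
    (hF : ∀ i, (F i).IsHomogeneous (d i)) (k : Fl)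
    (hind : AlgebraicIndependent k (fun m : MonA n d => coeff m.1.2 (F m.1.1)))
    {z : Fin n → ℂ} (hz : z ≠ 0) (h0 : ∀ i : Fin n, r + i + 1 ≤ n → z i = 0)
    (hzF : ∀ i, aeval z (F i) = 0) : False := by
  classical
  obtain ⟨j, hj, hmin⟩ : ∃ j, z j ≠ 0 ∧ ∀ i < j, z i = 0 := by
    have hne : {j | z j ≠ 0}.Nonempty := by
      by_contra h
      rw [Set.not_nonempty_iff_eq_empty] at h
      apply hz
      funext j
      by_contra h1
      have h2 : j ∈ {j | z j ≠ 0} := h1
      rw [h] at h2
      exact h2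
    obtain ⟨j, hj, h⟩ := WellFounded.has_min (wellFounded_lt (α := Fin n)) _ hne
    refine ⟨j, hj, fun i hi => ?_⟩
    by_contra h1
    exact h i h1 hi
  have hjr : n < r + j + 1 := by
    by_contra h1
    exact hj (h0 j (by omega))
  let ι : Fin r → MonA n d := fun i => ⟨(i, Finsupp.single j (d i)), Finsupp.degree_single _ _⟩
  let x : MonA n d → ℂ := fun m => coeff m.1.2 (F m.1.1)
  let y : {m : MonA n d // m ∉ Set.range ι} → ℂ := fun m => x m.1
  have hinj : Function.Injective (Sum.elim (Subtype.val : {m : MonA n d // m ∉ Set.range ι} →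
      MonA n d) ι) := by
    rintro (a | a) (b | b) h
    · exact congrArg Sum.inl (Subtype.ext h)
    · exact absurd ⟨b, h.symm⟩ a.2
    · exact absurd ⟨a, h⟩ b.2
    · have h1 := congrArg (fun m : MonA n d => m.1.1) h
      exact congrArg Sum.inr h1
  have h2 : AlgebraicIndependent k (Sum.elim y
      (fun i => coeff (Finsupp.single j (d i)) (F i))) := by
    have h3 := AlgebraicIndependent.comp hind _ hinj
    convert h3 using 1
    ext (a | a) <;> rfl
  have hmem : ∀ (i : Fin r) (m : Fin n →₀ ℕ), m ≠ Finsupp.single j (d i) →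
      coeff m (F i) ∈ adj k (Set.range y) := by
    intro i m hm
    by_cases h1 : m.degree = d i
    · refine subset_adj _ _ ⟨⟨⟨(i, m), h1⟩, ?_⟩, rfl⟩
      rintro ⟨i', hi'⟩
      have h4 := congrArg (fun m : MonA n d => m.1) hi'
      obtain ⟨rfl, h5⟩ := Prod.mk.inj h4
      exact hm h5.symm
    · rw [(hF i).coeff_eq_zero h1]
      exact zero_mem _
  have hqz : ∀ i, z i = z j * (z i / z j) := fun i => by field_simp
  refine pt_none (m := fun i => Finsupp.single j (d i)) (G := F)
    (a := fun i => coeff (Finsupp.single j (d i)) (F i)) (adj k (Set.range y)) j hjr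
    (ai_sum.1 h2).2 ?_ (q := fun i => z i / z j) ?_ (div_self hj) ?_ ?_
  · intro i m
    rw [coeff_sub, coeff_C_mul, coeff_monomial]
    by_cases h : Finsupp.single j (d i) = m
    · rw [if_pos h, mul_one, h, sub_self]
      exact zero_mem _
    · rw [if_neg h, mul_zero, sub_zero]
      exact hmem i m (Ne.symm h)
  · intro i hi
    rw [hmin i hi, zero_div]
  · intro i
    rw [aeval_monomial, map_one, one_mul,
      Finsupp.prod_single_index (h := fun i k => (z i / z j) ^ k) (pow_zero _), div_self hj,
      one_pow]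
    exact one_ne_zero
  · intro i
    have h1 := hzF i
    rw [aeval_scale (hF i) hqz] at h1
    exact (mul_eq_zero.1 h1).resolve_left (pow_ne_zero _ hj)

/-- **There are generic points**, over every countable field. -/
theorem exists_gen_of_countable {F : Fin r → MvPolynomial (Fin (r + 3)) ℂ} (hd : ∀ i, 1 ≤ d i)
    (hF : ∀ i, (F i).IsHomogeneous (d i)) (k : Fl)
    (hind : AlgebraicIndependent k (fun m : MonA (r + 3) d => coeff m.1.2 (F m.1.1)))
    (L : Fl) [Countable L] : ∃ p : PN (r + 3), p ∈ Gen L F := by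
  classical
  obtain ⟨x, hx⟩ := exists_algInd L 2
  let s : Fin (r + 3) → MvPolynomial (Option (Fin r)) ℂ := fun j =>
    if h : 3 ≤ (j : ℕ) then X (some ⟨j - 3, by omega⟩) else
      if (j : ℕ) = 0 then X none else if (j : ℕ) = 1 then C (x 0) * X none else C (x 1) * X none
  have hs0 : ∀ j, eval (0 : Option (Fin r) → ℂ) (s j) = 0 := by
    intro j
    simp only [s]
    split_ifs <;> simp
  have hev : ∀ (q : Option (Fin r) → ℂ) (i : Fin r),
      eval q (aeval s (F i)) = aeval (fun j => eval q (s j)) (F i) := by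
    intro q i
    rw [← coe_aeval_eq_eval]
    change (aeval q : MvPolynomial (Option (Fin r)) ℂ →ₐ[ℂ] ℂ) (aeval s (F i)) = _
    rw [comp_aeval_apply]
    rfl
  have hzero : ∀ i, aeval (0 : Fin (r + 3) → ℂ) (F i) = 0 := by
    intro i
    have h1 := aeval_scale (hF i) (z := (0 : Fin (r + 3) → ℂ)) (w := 0) (a := 0)
      (fun a => by simp)
    rw [h1, zero_pow (by have := hd i; omega), zero_mul]
  obtain ⟨q, hq, hqF⟩ := Hartshorne.exists_common_zero (ι := Option (Fin r)) (κ := Fin r)
    (fun i => aeval s (F i)) (fun i => by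
      rw [hev]
      have : (fun j => eval (0 : Option (Fin r) → ℂ) (s j)) = 0 := funext hs0
      rw [this, hzero]) (by simp)
  set z : Fin (r + 3) → ℂ := fun j => eval q (s j) with hz
  have hzF : ∀ i, aeval z (F i) = 0 := fun i => by rw [hz, ← hev]; exact hqF i
  have hz0 : z ⟨0, by omega⟩ = q none := by simp [hz, s]
  have hz1 : z ⟨1, by omega⟩ = x 0 * q none := by simp [hz, s]
  have hz2 : z ⟨2, by omega⟩ = x 1 * q none := by simp [hz, s]
  have hz3 : ∀ i : Fin r, z ⟨i + 3, by omega⟩ = q (some i) := by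
    intro i
    simp [hz, s]
  have hzne : z ≠ 0 := by
    intro h
    apply hq
    funext o
    rcases o with _ | i
    · rw [← hz0, h]
      rfl
    · rw [← hz3, h]
      rfl
  have hqn : q none ≠ 0 := by
    intro h
    refine exg_none hF k hind hzne ?_ hzF
    intro i hi
    have h1 : (i : ℕ) = 0 ∨ (i : ℕ) = 1 ∨ (i : ℕ) = 2 := by omega
    rcases h1 with h1 | h1 | h1
    · have : i = ⟨0, by omega⟩ := Fin.ext h1
      rw [this, hz0, h]
    · have : i = ⟨1, by omega⟩ := Fin.ext h1
      rw [this, hz1, h, mul_zero]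
    · have : i = ⟨2, by omega⟩ := Fin.ext h1
      rw [this, hz2, h, mul_zero]
  set w : Fin (r + 3) → ℂ := fun j => z j / q none with hw
  have hwz : ∀ j, z j = q none * w j := fun j => by rw [hw]; field_simp
  have hw0 : w ⟨0, by omega⟩ = 1 := by rw [hw]; simp only [hz0]; exact div_self hqn
  have hw1 : w ⟨1, by omega⟩ = x 0 := by
    rw [hw]; simp only [hz1]; exact mul_div_cancel_right₀ _ hqn
  have hw2 : w ⟨2, by omega⟩ = x 1 := by
    rw [hw]; simp only [hz2]; exact mul_div_cancel_right₀ _ hqn
  have hwne : w ≠ 0 := by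
    intro h
    rw [h] at hw0
    exact zero_ne_one hw0
  refine ⟨Projectivization.mk ℂ w hwne, gen_mk hF hwne hw0 (fun i => ?_)
    (j := ⟨1, by omega⟩) (l := ⟨2, by omega⟩) ?_⟩
  · have h1 := hzF i
    rw [aeval_scale (hF i) hwz] at h1
    exact (mul_eq_zero.1 h1).resolve_left (pow_ne_zero _ hqn)
  · have h1 : ![w ⟨1, by omega⟩, w ⟨2, by omega⟩] = x := by
      funext a
      fin_cases a
      · exact hw1
      · exact hw2
    rw [h1]
    exact hx

/-- There are generic points. -/
theorem exists_gen {F : Fin r → MvPolynomial (Fin (r + 3)) ℂ} (hd : ∀ i, 1 ≤ d i)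
    (hF : ∀ i, (F i).IsHomogeneous (d i)) (k : Fl) [Countable k]
    (hind : AlgebraicIndependent k (fun m : MonA (r + 3) d => coeff m.1.2 (F m.1.1)))
    (L : Fl) [Countable L] (_hL : cof k F ≤ L) : ∃ p : PN (r + 3), p ∈ Gen L F :=
  exists_gen_of_countable hd hF k hind L

end Pool.Agent.VCI
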