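import Pool.Agent.VCI.Fin0
import Pool.Agent.VCI.Conj
import Pool.Agent.VGS2.Sys
import Pool.Agent.Chow0.Functor

/-! Complete intersections: fields of the system of points (see `VGS.Sys`). -/

set_option autoImplicit false

open scoped LinearAlgebra.Projectivization
open MvPolynomial

namespace Pool.Agent.VCI

open Pool.Agent.Chow0 (IsChowForm IsLink cyc Z0 ratTriv)
open Pool.Agent.VGS

variable {n r : ℕ} {F : Fin r → MvPolynomial (Fin n) ℂ} {d : Fin r → ℕ}

/-- the members of a link have the same degree -/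
theorem card_link {V : Set (PN n)} {s₀ s₁ : Multiset V} (h : IsLink V s₀ s₁) :
    Multiset.card s₀ = Multiset.card s₁ := by
  classical
  obtain ⟨G, hG, hG0, hG1⟩ := h
  obtain ⟨s, hs0, hs1, hs⟩ : ∃ s : ℂ → Multiset V, s 0 = s₀ ∧ s 1 = s₁ ∧
      ∀ t, (∃ s', IsChowForm V (G.eval (C t)) s') → IsChowForm V (G.eval (C t)) (s t) := by
    refine ⟨fun t => if t = 0 then s₀ else if t = 1 then s₁ else
      if h : ∃ s', IsChowForm V (G.eval (C t)) s' then h.choose else 0,
      if_pos rfl, ?_, ?_⟩
    · beta_reduce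
      rw [if_neg one_ne_zero, if_pos rfl]
    · intro t ht
      beta_reduce
      by_cases h0 : t = 0
      · rw [if_pos h0, h0]
        exact hG0
      · rw [if_neg h0]
        by_cases h1 : t = 1
        · rw [if_pos h1, h1]
          exact hG1
        · rw [if_neg h1, dif_pos ht]
          exact ht.choose_spec
  have hsF : ∀ᶠ t : ℂ in Filter.cofinite, IsChowForm V (G.eval (C t)) (s t) := by
    filter_upwards [hG] with t ht
    exact hs t ht
  have hc0 := Chow0.eventually_card (s := s) (t₀ := 0) (by rw [hs0]; exact hG0) hsF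
  have hc1 := Chow0.eventually_card (s := s) (t₀ := 1) (by rw [hs1]; exact hG1) hsF
  obtain ⟨t, h2, h3⟩ := (hc0.and hc1).exists
  rw [← hs0, ← hs1, ← h2, h3]

theorem toCy_ratTriv {z : Z0 (ciS F)} (hz : z ∈ ratTriv (ciS F)) : toCy F z ∈ ratQ F := by
  refine AddSubgroup.closure_induction (p := fun x _ => toCy F x ∈ ratQ F) ?_ ?_ ?_ ?_ hz
  · rintro x ⟨s₀, s₁, h, rfl⟩
    rw [map_sub, toCy_cyc, toCy_cyc]
    exact Submodule.subset_span ⟨s₀, s₁, h, rfl⟩
  · rw [map_zero]
    exact zero_mem _
  · intro x y _ _ hx hy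
    rw [map_add]
    exact add_mem hx hy
  · intro x _ hx
    rw [map_neg]
    exact neg_mem hx

theorem degQ_cycQ (s : Multiset (PN n)) :
    Finsupp.linearCombination ℚ (fun _ : PN n => (1 : ℚ)) (cycQ s) = Multiset.card s := by
  induction s using Multiset.induction_on with
  | empty => simp [cycQ]
  | cons a s ih =>
    rw [cycQ_cons, map_add, ih, Finsupp.linearCombination_single, Multiset.card_cons, one_smul]
    push_cast
    ring

/-- cycles which are rationally equivalent to zero have degree zero -/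
theorem degQ_ratQ {z : Cy n} (hz : z ∈ ratQ F) :
    Finsupp.linearCombination ℚ (fun _ : PN n => (1 : ℚ)) z = 0 := by
  have h : ratQ F ≤ LinearMap.ker (Finsupp.linearCombination ℚ (fun _ : PN n => (1 : ℚ))) := by
    refine Submodule.span_le.2 ?_
    rintro _ ⟨s₀, s₁, h, rfl⟩
    change Finsupp.linearCombination ℚ (fun _ : PN n => (1 : ℚ)) _ = 0
    rw [map_sub, degQ_cycQ, degQ_cycQ, Multiset.card_map, Multiset.card_map, card_link h, sub_self]
  exact h hz

theorem mem_support_cycQ {s : Multiset (PN n)} {p : PN n} (hp : p ∈ (cycQ s).support) :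
    p ∈ s := by
  classical
  rw [Finsupp.mem_support_iff, cycQ_apply] at hp
  by_contra h
  exact hp (by rw [Multiset.count_eq_zero_of_notMem h]; rfl)

/-! ### generic points -/

theorem inst_gen_anti {L L' : Fl} (h : L ≤ L') (F : Fin r → MvPolynomial (Fin n) ℂ) :
    Gen L' F ⊆ Gen L F := by
  rintro x ⟨h0, i, j, l, hi, h1⟩
  exact ⟨h0, i, j, l, hi, ai_mono h h1⟩

/-- the automorphisms over `L` permute the points which are generic over `L` -/
theorem inst_act_gen (hF : ∀ i, (F i).IsHomogeneous (d i)) {L : Fl} (hFL : ∀ i, Coef L (F i))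
    {σ : ℂ ≃+* ℂ} (hσ : σ ∈ VGS.Fix L) {p : PN n} (hp : p ∈ Gen L F) : act σ p ∈ Gen L F := by
  obtain ⟨z, hz, i, j, l, hi, rfl, hzF, hzi⟩ := gen_nrm hF hp
  rw [act_mk σ z hz (map_ne_zero' σ hz)]
  refine gen_mk hF (map_ne_zero' σ hz) (i := i) (j := j) (l := l) (by rw [hi, map_one])
    (fun a => ?_) ?_
  · rw [aeval_fix (hFL a) hσ, hzF, map_zero]
  · have h1 : ![σ (z j), σ (z l)] = fun m => σ (![z j, z l] m) := by
      funext a
      fin_cases a <;> rfl
    rw [h1]
    refine ai_iff.2 fun P hP h0 => ai_iff.1 hzi P hP ?_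
    rw [aeval_fix hP hσ] at h0
    exact (map_eq_zero_iff σ σ.injective).1 h0

end Pool.Agent.VCI
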