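import Pool.Agent.VCI.Tau
import Pool.Agent.VCI.Chow
import Pool.Agent.LowDeg.LocalDer
import Pool.Agent.LowDeg.TraceVal

/-! Complete intersections: specialisation of points at the places of function fields. -/

set_option autoImplicit false

open scoped LinearAlgebra.Projectivization
open MvPolynomial

namespace Pool.Agent.VCI

open Pool.Agent.LowDeg (Place)
open Pool.Agent.VGS (Fl)

variable {n : ℕ}

/-- The point `p` has coordinates in `E`. -/
def OvE {C : Fl} (E : IntermediateField C ℂ) (p : PN n) : Prop :=
  ∃ (z : Fin n → E) (hz : (fun i => (z i : ℂ)) ≠ 0), p = Projectivization.mk ℂ _ hz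

/-- The point `p` specialises to `q` at the place `P`. -/
def SpE {C : Fl} {E : IntermediateField C ℂ} (P : Place C E) (p q : PN n) : Prop :=
  ∃ (z : Fin n → E) (w : Fin n → C) (hz : (fun i => (z i : ℂ)) ≠ 0)
    (hw : (fun i => (w i : ℂ)) ≠ 0), p = Projectivization.mk ℂ _ hz ∧
      q = Projectivization.mk ℂ _ hw ∧ ∀ i, P.IsVal (z i) (w i)

end Pool.Agent.VCI
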