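import Pool.Agent.VCI.Tau
import Pool.Agent.VCI.MumDefs
import Pool.Agent.VGS.MumB

/-! Module MumC for complete intersections: values of two-forms at a place. -/

set_option autoImplicit false

open scoped LinearAlgebra.Projectivization
open MvPolynomial

namespace Pool.Agent.VCI

open Pool.Agent.VGS (Fl adj clo Coef Kills exists_map_eq le_adj le_clo resD resD_coe)
open Pool.Agent.LowDeg (Place)
open Pool.Agent.LowDeg.LocalDerAux (Ge)
open Pool.Agent.LowDeg.Place (IsVal)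

section abs

variable {K E : Type} [Field K] [Field E] [Algebra K E] {P : Place K E}

theorem mumc_isVal_det {ι : Type} [Fintype ι] [DecidableEq ι] {A : Matrix ι ι E}
    {A₀ : Matrix ι ι K} (h : ∀ i j, P.IsVal (A i j) (A₀ i j)) : P.IsVal A.det A₀.det := by
  rw [Matrix.det_apply', Matrix.det_apply']
  refine IsVal.sum _ fun σ _ => ?_
  refine IsVal.mul ?_ (IsVal.prod _ fun i _ => h _ _)
  have h1 := P.isVal_const ((Equiv.Perm.sign σ : ℤ) : K)
  rwa [map_intCast] at h1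

theorem mumc_int_det {ι : Type} [Fintype ι] [DecidableEq ι] {A : Matrix ι ι E}
    (h : ∀ i j, P.Int (A i j)) : P.Int A.det := by
  choose A₀ hA₀ using fun i j => (h i j).exists_isVal
  exact (mumc_isVal_det (A₀ := Matrix.of A₀) hA₀).int

theorem mumc_ge_det {n : ℕ} {ρ : ℤ} {A : Matrix (Fin (n + 1)) (Fin (n + 1)) E}
    (h : ∀ i j, i ≠ Fin.last n → P.Int (A i j)) (hl : ∀ j, Ge P ρ (A (Fin.last n) j)) :
    Ge P ρ A.det := by
  rw [Matrix.det_succ_row A (Fin.last n)]
  refine Ge.sum _ fun j _ => ?_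
  refine Ge.mul_int (Ge.int_mul ?_ (hl j)) ?_
  · exact Place.Int.pow (Place.Int.neg P.int_one) _
  · refine mumc_int_det fun i j' => ?_
    rw [Matrix.submatrix_apply]
    exact h _ _ (Fin.succAbove_ne _ _)

variable {r : ℕ}

theorem mumc_det_ge {ρ : ℤ} {v : Fin r → Fin (r + 3) → E} {z x y : Fin (r + 3) → E}
    (hv : ∀ i j, P.Int (v i j)) (hz : ∀ j, P.Int (z j)) (hx : ∀ j, P.Int (x j))
    (hy : ∀ j, Ge P ρ (y j)) : Ge P ρ (Matrix.of (Fin.append v ![z, x, y])).det := by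
  have hlast : Fin.last (r + 2) = Fin.natAdd r (2 : Fin 3) := by
    apply Fin.ext
    simp
  refine mumc_ge_det (n := r + 2) (fun i j => ?_) (fun j => ?_)
  · refine Fin.addCases (m := r) (n := 3) (fun i => ?_) (fun i => ?_) i
    · intro _
      rw [Matrix.of_apply, Fin.append_left]
      exact hv i j
    · intro hi
      rw [Matrix.of_apply, Fin.append_right]
      fin_cases i
      · exact hz j
      · exact hx j
      · exact absurd hlast.symm hi
  · rw [hlast, Matrix.of_apply, Fin.append_right]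
    exact hy j

theorem mumc_det_val {v : Fin r → Fin (r + 3) → E} {z x y : Fin (r + 3) → E}
    {v₀ : Fin r → Fin (r + 3) → K} {z₀ x₀ y₀ : Fin (r + 3) → K}
    (hv : ∀ i j, P.IsVal (v i j) (v₀ i j)) (hz : ∀ j, P.IsVal (z j) (z₀ j))
    (hx : ∀ j, P.IsVal (x j) (x₀ j)) (hy : ∀ j, P.IsVal (y j) (y₀ j)) :
    P.IsVal (Matrix.of (Fin.append v ![z, x, y])).det
      (Matrix.of (Fin.append v₀ ![z₀, x₀, y₀])).det := by
  refine mumc_isVal_det fun i j => ?_
  refine Fin.addCases (fun i => ?_) (fun i => ?_) i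
  · rw [Matrix.of_apply, Matrix.of_apply, Fin.append_left, Fin.append_left]
    exact hv i j
  · rw [Matrix.of_apply, Matrix.of_apply, Fin.append_right, Fin.append_right]
    fin_cases i
    · exact hz j
    · exact hx j
    · exact hy j

theorem mumc_map_det {R S : Type} [CommRing R] [CommRing S] (f : R →+* S)
    (v : Fin r → Fin (r + 3) → R) (z x y : Fin (r + 3) → R) :
    f (Matrix.of (Fin.append v ![z, x, y])).det =
      (Matrix.of (Fin.append (fun i j => f (v i j))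
        ![fun j => f (z j), fun j => f (x j), fun j => f (y j)])).det := by
  rw [TauL.map_det_append]
  congr 3
  funext i
  fin_cases i <;> rfl

end abs

variable {r : ℕ} {F : Fin r → MvPolynomial (Fin (r + 3)) ℂ} {d : Fin r → ℕ} {e : ℕ}

/-- a formula for `tau` -/
theorem tau_formula (hF : IsSmoothCI F d) (he : e + (r + 3) = ∑ i, d i) {L : Fl}
    (hFL : ∀ i, Coef L (F i)) {D₁ D₂ : Derivation ℤ ℂ ℂ} (h₁ : Kills L D₁) (h₂ : Kills L D₂)
    {z : Fin (r + 3) → ℂ} (hz : z ≠ 0) (hzF : ∀ i, aeval z (F i) = 0)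
    {f : MvPolynomial (Fin (r + 3)) ℂ} (hf : f.IsHomogeneous e) (v : Fin r → Fin (r + 3) → ℂ)
    (hv : (Matrix.of fun i j => ∑ k, v j k * aeval z (pderiv k (F i))).det ≠ 0) :
    tau F D₁ D₂ f (Projectivization.mk ℂ z hz) = aeval z f *
      ((Matrix.of (Fin.append v ![z, fun j => D₁ (z j), fun j => D₂ (z j)])).det /
        (Matrix.of fun i j => ∑ k, v j k * aeval z (pderiv k (F i))).det) := by
  obtain ⟨J, hJ⟩ := exists_isResC hF hFL h₁ h₂ hz hzF
  rw [tau_eq hF he hz hzF hf hJ, hJ v]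
  have h3 : (Matrix.of fun i j => dFc (F i) z (v j)) =
      Matrix.of fun i j => ∑ k, v j k * aeval z (pderiv k (F i)) := rfl
  rw [h3, mul_div_cancel_right₀ _ hv]

theorem mumc_coe_aeval {n : ℕ} {C₀ : Fl} {E : IntermediateField C₀ ℂ} (z : Fin n → E)
    (G : MvPolynomial (Fin n) C₀) :
    ((aeval z G : E) : ℂ) = aeval (fun j => (z j : ℂ)) (map (algebraMap C₀ ℂ) G) := by
  rw [MvPolynomial.aeval_map_algebraMap]
  exact (MvPolynomial.aeval_algebraMap_apply (B := ℂ) z G).symm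

theorem mumc_coe_aeval' {n : ℕ} {C₀ : Fl} (z : Fin n → C₀) (G : MvPolynomial (Fin n) C₀) :
    ((aeval z G : C₀) : ℂ) = aeval (fun j => (z j : ℂ)) (map (algebraMap C₀ ℂ) G) := by
  rw [MvPolynomial.aeval_map_algebraMap]
  exact (MvPolynomial.aeval_algebraMap_apply (B := ℂ) z G).symm

/-- linear independence over a subfield -/
theorem mumc_li {C₀ : Fl} {n : ℕ} {ℓ : Fin r → Fin n → C₀}
    (h : LinearIndependent ℂ fun i j => (ℓ i j : ℂ)) : LinearIndependent C₀ ℓ := by
  rw [Fintype.linearIndependent_iff] at h ⊢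
  intro g hg i
  have h1 := h (fun i => (g i : ℂ)) (by
    funext j
    have h2 := congrArg (fun x : C₀ => (x : ℂ)) (congrFun hg j)
    simpa using h2) i
  exact Subtype.ext h1

theorem mum_loc (hF : IsSmoothCI F d) (he : e + (r + 3) = ∑ i, d i) {L C₀ : Fl} (hL : L ≤ C₀)
    (hFL : ∀ i, Coef L (F i)) {E : IntermediateField C₀ ℂ} (P : Place C₀ E)
    {D₁ D₂ : Derivation ℤ ℂ ℂ} (hD₁ : ∀ x ∈ E, D₁ x ∈ E) (hD₂ : ∀ x ∈ E, D₂ x ∈ E)
    (h₁ : Kills L D₁) (h₂ : Kills L D₂) {f : MvPolynomial (Fin (r + 3)) ℂ}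
    (hf : f.IsHomogeneous e) (hfC : Coef C₀ f) {p q : PN (r + 3)} (hp : p ∈ ciS F)
    (h : SpE P p q) :
    ∃ x : E, (x : ℂ) = tau F D₁ D₂ f p ∧
      (∀ ρ : ℤ, (∀ y : E, P.Int y → P.Int (resD E D₁ hD₁ y)) →
        (∀ y : E, P.Int y → Ge P ρ (resD E D₂ hD₂ y)) → Ge P ρ x) ∧
      (∀ δ₁ δ₂ : Derivation ℤ ℂ ℂ, Kills L δ₁ → Kills L δ₂ →
        (∀ (y : E) (c : C₀), P.IsVal y c → ∃ c' : C₀, (c' : ℂ) = δ₁ c ∧
          P.IsVal (resD E D₁ hD₁ y) c') →
        (∀ (y : E) (c : C₀), P.IsVal y c → ∃ c' : C₀, (c' : ℂ) = δ₂ c ∧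
          P.IsVal (resD E D₂ hD₂ y) c') →
        ∃ c : C₀, (c : ℂ) = tau F δ₁ δ₂ f q ∧ P.IsVal x c) := by
  obtain ⟨z, w, hz, hw, rfl, rfl, hval⟩ := h
  have hzF : ∀ i, aeval (fun i => (z i : ℂ)) (F i) = 0 := (mem_surf_mk hF.hom hz).1 hp
  choose F₀ hF₀ using fun i => exists_map_eq ((hFL i).mono hL)
  obtain ⟨f₀, hf₀⟩ := exists_map_eq hfC
  have hzF₀ : ∀ i, aeval z (F₀ i) = 0 := by
    intro i
    apply Subtype.ext
    rw [mumc_coe_aeval, hF₀, hzF i]
    rfl
  have hwF₀ : ∀ i, aeval w (F₀ i) = 0 := by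
    intro i
    have h3 := IsVal.aeval hval (F₀ i)
    rw [hzF₀] at h3
    have h4 := P.isVal_const (0 : C₀)
    rw [map_zero] at h4
    exact h3.unique h4
  have hwF : ∀ i, aeval (fun i => (w i : ℂ)) (F i) = 0 := by
    intro i
    rw [← hF₀, ← mumc_coe_aeval', hwF₀]
    rfl
  have hpd : ∀ i k, map (algebraMap C₀ ℂ) (pderiv k (F₀ i)) = pderiv k (F i) := by
    intro i k
    rw [← hF₀, pderiv_map]
  -- directions over `C₀`, dual to the gradients at the limit
  have hli : LinearIndependent C₀ fun i k => aeval w (pderiv k (F₀ i)) := by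
    apply mumc_li
    have h3 := hF.smooth _ hw hwF
    convert h3 using 3 with i k
    rw [mumc_coe_aeval', hpd]
  obtain ⟨v, hv⟩ := TauL.exists_dual hli
  -- the same directions over `E`
  set v' : Fin r → Fin (r + 3) → E := fun i j => algebraMap C₀ E (v i j) with hv'
  have hvv : ∀ i j, P.IsVal (v' i j) (v i j) := fun i j => P.isVal_const _
  set gz : E := (Matrix.of fun i j => ∑ k, v' j k * aeval z (pderiv k (F₀ i))).det with hgz
  have hg : P.IsVal gz 1 := by
    rw [← hv, hgz]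
    refine mumc_isVal_det fun i j => ?_
    rw [Matrix.of_apply, Matrix.of_apply]
    exact IsVal.sum _ fun k _ => (hvv j k).mul (IsVal.aeval hval _)
  have hg0 : gz ≠ 0 := hg.ne_zero one_ne_zero
  have hgC : (gz : ℂ) = (Matrix.of fun i j => ∑ k, (v j k : ℂ) *
      aeval (fun i => (z i : ℂ)) (pderiv k (F i))).det := by
    have h3 := RingHom.map_det (algebraMap E ℂ)
      (Matrix.of fun i j => ∑ k, v' j k * aeval z (pderiv k (F₀ i)))
    refine Eq.trans h3 ?_
    congr 1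
    ext i j
    rw [RingHom.mapMatrix_apply, Matrix.map_apply, Matrix.of_apply, Matrix.of_apply, map_sum]
    refine Finset.sum_congr rfl fun k _ => ?_
    rw [map_mul, ← hpd, ← mumc_coe_aeval]
    rfl
  have hgC0 : (Matrix.of fun i j => ∑ k, (v j k : ℂ) *
      aeval (fun i => (z i : ℂ)) (pderiv k (F i))).det ≠ 0 := by
    rw [← hgC]
    intro h0
    exact hg0 (Subtype.ext h0)
  have hgw : (Matrix.of fun i j => ∑ k, (v j k : ℂ) *
      aeval (fun i => (w i : ℂ)) (pderiv k (F i))).det = 1 := by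
    have h3 := congrArg (algebraMap C₀ ℂ) hv
    rw [RingHom.map_det, map_one] at h3
    rw [← h3]
    congr 1
    ext i j
    rw [RingHom.mapMatrix_apply, Matrix.map_apply, Matrix.of_apply, Matrix.of_apply, map_sum]
    refine Finset.sum_congr rfl fun k _ => ?_
    rw [map_mul, ← hpd, ← mumc_coe_aeval']
    rfl
  have hzint : ∀ j, P.Int (z j) := fun j => (hval j).int
  refine ⟨aeval z f₀ * ((Matrix.of (Fin.append v' ![z, fun j => resD E D₁ hD₁ (z j),
    fun j => resD E D₂ hD₂ (z j)])).det / gz), ?_, ?_, ?_⟩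
  · rw [tau_formula hF he hFL h₁ h₂ hz hzF hf (fun i j => (v i j : ℂ)) hgC0,
      IntermediateField.coe_mul, IntermediateField.coe_div, mumc_coe_aeval, hf₀, hgC]
    congr 2
    exact mumc_map_det (algebraMap E ℂ) v' z _ _
  · intro ρ k₁ k₂
    refine Ge.int_mul (IsVal.aeval hval f₀).int ?_
    rw [div_eq_mul_inv]
    refine Ge.mul_int (mumc_det_ge (fun i j => (hvv i j).int) hzint
      (fun j => k₁ _ (hzint j)) (fun j => k₂ _ (hzint j))) ?_
    exact (hg.inv one_ne_zero).int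
  · intro δ₁ δ₂ e₁ e₂ k₁ k₂
    choose x₁ hx₁ hx₁' using fun j => k₁ (z j) (w j) (hval j)
    choose x₂ hx₂ hx₂' using fun j => k₂ (z j) (w j) (hval j)
    refine ⟨aeval w f₀ * ((Matrix.of (Fin.append v ![w, x₁, x₂])).det / 1), ?_, ?_⟩
    · rw [tau_formula hF he hFL e₁ e₂ hw hwF hf (fun i j => (v i j : ℂ))
        (by rw [hgw]; exact one_ne_zero), hgw, div_one, div_one]
      have h3 := mumc_map_det (algebraMap C₀ ℂ) v w x₁ x₂
      have h4 : (fun j => algebraMap C₀ ℂ (x₁ j)) = fun j => δ₁ ((w j : C₀) : ℂ) :=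
        funext hx₁
      have h5 : (fun j => algebraMap C₀ ℂ (x₂ j)) = fun j => δ₂ ((w j : C₀) : ℂ) :=
        funext hx₂
      rw [h4, h5] at h3
      rw [← hf₀, ← mumc_coe_aeval']
      change ((aeval w f₀ * (Matrix.of (Fin.append v ![w, x₁, x₂])).det : C₀) : ℂ) = _
      have h6 : ((aeval w f₀ * (Matrix.of (Fin.append v ![w, x₁, x₂])).det : C₀) : ℂ) =
        ((aeval w f₀ : C₀) : ℂ) * algebraMap C₀ ℂ (Matrix.of (Fin.append v ![w, x₁, x₂])).det := rfl
      rw [h6, h3]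
      rfl
    · exact (IsVal.aeval hval f₀).mul ((mumc_det_val hvv hval hx₁' hx₂').div hg one_ne_zero)

end Pool.Agent.VCI
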