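import Pool.Agent.VCI.Tau
import Pool.Agent.VGS.MumB

/-! Complete intersections: bilinearity and invariance of `tau`. -/

set_option autoImplicit false

open scoped LinearAlgebra.Projectivization
open MvPolynomial

namespace Pool.Agent.VCI

open Pool.Agent.VGS (Fl adj clo Coef Kills le_adj subset_adj mem_of_fixed conjD conjD_apply
  conjD_kills mum_der_eq)

variable {r e : ℕ} {F : Fin r → MvPolynomial (Fin (r + 3)) ℂ} {d : Fin r → ℕ}

/-! ### rows -/

theorem mumg_upd2 (v : Fin r → Fin (r + 3) → ℂ) (z x y w : Fin (r + 3) → ℂ) :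
    Matrix.of (Fin.append v ![z, x, y]) =
      Matrix.updateRow (Matrix.of (Fin.append v ![z, x, w])) (Fin.natAdd r 2) y := by
  ext i j
  refine Fin.addCases (fun i => ?_) (fun i => ?_) i
  · rw [Matrix.updateRow_ne]
    · simp only [Matrix.of_apply, Fin.append_left]
    · intro h
      have := congrArg Fin.val h
      simp only [Fin.val_castAdd, Fin.val_natAdd] at this
      omega
  · fin_cases i
    · rw [Matrix.updateRow_ne]
      · simp only [Matrix.of_apply, Fin.append_right]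
        rfl
      · intro h
        have := congrArg Fin.val h
        simp at this
    · rw [Matrix.updateRow_ne]
      · simp only [Matrix.of_apply, Fin.append_right]
        rfl
      · intro h
        have := congrArg Fin.val h
        simp at this
    · change _ = Matrix.updateRow _ (Fin.natAdd r 2) y (Fin.natAdd r 2) j
      rw [Matrix.updateRow_self]
      simp only [Matrix.of_apply]
      change Fin.append v ![z, x, y] (Fin.natAdd r 2) j = y j
      rw [Fin.append_right]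
      rfl

theorem mumg_det_add (v : Fin r → Fin (r + 3) → ℂ) (z x y w : Fin (r + 3) → ℂ) (c : ℂ) :
    (Matrix.of (Fin.append v ![z, x, y + c • w])).det =
      (Matrix.of (Fin.append v ![z, x, y])).det + c * (Matrix.of (Fin.append v ![z, x, w])).det := by
  rw [mumg_upd2 v z x (y + c • w) 0, mumg_upd2 v z x y 0, mumg_upd2 v z x w 0,
    Matrix.det_updateRow_add, Matrix.det_updateRow_smul]

theorem mumg_det_swap (v : Fin r → Fin (r + 3) → ℂ) (z x y : Fin (r + 3) → ℂ) :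
    (Matrix.of (Fin.append v ![z, y, x])).det = -(Matrix.of (Fin.append v ![z, x, y])).det := by
  have hne : (Fin.natAdd r 1 : Fin (r + 3)) ≠ Fin.natAdd r 2 := by
    intro h
    have := congrArg Fin.val h
    simp at this
  have h1 : Matrix.of (Fin.append v ![z, y, x]) =
      (Matrix.of (Fin.append v ![z, x, y])).submatrix
        (Equiv.swap (Fin.natAdd r 1 : Fin (r + 3)) (Fin.natAdd r 2)) id := by
    ext i j
    rw [Matrix.submatrix_apply, id]
    refine Fin.addCases (fun i => ?_) (fun i => ?_) i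
    · rw [Equiv.swap_apply_of_ne_of_ne]
      · simp only [Matrix.of_apply, Fin.append_left]
      · intro h
        have := congrArg Fin.val h
        simp only [Fin.val_castAdd, Fin.val_natAdd] at this
        omega
      · intro h
        have := congrArg Fin.val h
        simp only [Fin.val_castAdd, Fin.val_natAdd] at this
        omega
    · fin_cases i
      · rw [Equiv.swap_apply_of_ne_of_ne]
        · simp only [Matrix.of_apply, Fin.append_right]
          rfl
        · intro h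
          have := congrArg Fin.val h
          simp at this
        · intro h
          have := congrArg Fin.val h
          simp at this
      · change _ = Matrix.of _ (Equiv.swap (Fin.natAdd r 1 : Fin (r + 3)) (Fin.natAdd r 2)
          (Fin.natAdd r 1)) j
        rw [Equiv.swap_apply_left]
        change Fin.append v ![z, y, x] (Fin.natAdd r 1) j =
          Fin.append v ![z, x, y] (Fin.natAdd r 2) j
        rw [Fin.append_right, Fin.append_right]
        rfl
      · change _ = Matrix.of _ (Equiv.swap (Fin.natAdd r 1 : Fin (r + 3)) (Fin.natAdd r 2)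
          (Fin.natAdd r 2)) j
        rw [Equiv.swap_apply_right]
        change Fin.append v ![z, y, x] (Fin.natAdd r 2) j =
          Fin.append v ![z, x, y] (Fin.natAdd r 1) j
        rw [Fin.append_right, Fin.append_right]
        rfl
  rw [h1, Matrix.det_permute, Equiv.Perm.sign_swap hne]
  simp

theorem mumg_tau_rep (hF : IsSmoothCI F d) (he : e + (r + 3) = ∑ i, d i) {L : Fl}
    (hFL : ∀ i, Coef L (F i)) {f : MvPolynomial (Fin (r + 3)) ℂ} (hf : f.IsHomogeneous e)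
    {p : PN (r + 3)} (hp : p ∈ ciS F) :
    ∃ z : Fin (r + 3) → ℂ, z ≠ 0 ∧ (∀ i, aeval z (F i) = 0) ∧ ∀ D₁ D₂ : Derivation ℤ ℂ ℂ,
      Kills L D₁ → Kills L D₂ → ∃ J, IsResC F D₁ D₂ z J ∧ tau F D₁ D₂ f p = aeval z f * J := by
  obtain ⟨z, hz, i, -, rfl⟩ := exists_nrm p
  have hzF : ∀ i, aeval z (F i) = 0 := (mem_surf_mk hF.hom hz).1 hp
  refine ⟨z, hz, hzF, fun D₁ D₂ h₁ h₂ => ?_⟩
  obtain ⟨J, hJ⟩ := exists_isResC hF hFL h₁ h₂ hz hzF
  exact ⟨J, hJ, tau_eq hF he hz hzF hf hJ⟩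

theorem mumg_swap (hF : IsSmoothCI F d) (he : e + (r + 3) = ∑ i, d i) {L : Fl}
    (hFL : ∀ i, Coef L (F i)) {f : MvPolynomial (Fin (r + 3)) ℂ} (hf : f.IsHomogeneous e)
    {p : PN (r + 3)} (hp : p ∈ ciS F) {D₁ D₂ : Derivation ℤ ℂ ℂ} (h₁ : Kills L D₁)
    (h₂ : Kills L D₂) : tau F D₂ D₁ f p = - tau F D₁ D₂ f p := by
  obtain ⟨z, hz, hzF, h⟩ := mumg_tau_rep hF he hFL hf hp
  obtain ⟨J, hJ, hJ'⟩ := h D₁ D₂ h₁ h₂
  obtain ⟨K, hK, hK'⟩ := h D₂ D₁ h₂ h₁
  have h3 : IsResC F D₂ D₁ z (-J) := by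
    intro v
    rw [neg_mul, ← hJ v, mumg_det_swap]
  rw [hJ', hK', hK.unique hF hz hzF h3]
  ring

theorem mumg_self (hF : IsSmoothCI F d) (he : e + (r + 3) = ∑ i, d i) {L : Fl}
    (hFL : ∀ i, Coef L (F i)) {f : MvPolynomial (Fin (r + 3)) ℂ} (hf : f.IsHomogeneous e)
    {p : PN (r + 3)} (hp : p ∈ ciS F) {D : Derivation ℤ ℂ ℂ} (h : Kills L D) :
    tau F D D f p = 0 := by
  have h1 := mumg_swap hF he hFL hf hp h h
  have h2 : (2 : ℂ) * tau F D D f p = 0 := by linear_combination h1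
  exact (mul_eq_zero.1 h2).resolve_left two_ne_zero

theorem mumg_add (hF : IsSmoothCI F d) (he : e + (r + 3) = ∑ i, d i) {L : Fl}
    (hFL : ∀ i, Coef L (F i)) {f : MvPolynomial (Fin (r + 3)) ℂ} (hf : f.IsHomogeneous e)
    {p : PN (r + 3)} (hp : p ∈ ciS F) {D₁ D₂ D₃ : Derivation ℤ ℂ ℂ} (h₁ : Kills L D₁)
    (h₂ : Kills L D₂) (h₃ : Kills L D₃) (c : ℂ) :
    tau F D₁ (D₂ + c • D₃) f p = tau F D₁ D₂ f p + c * tau F D₁ D₃ f p := by
  obtain ⟨z, hz, hzF, h⟩ := mumg_tau_rep hF he hFL hf hp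
  have h₂₃ : Kills L (D₂ + c • D₃) := by
    intro x hx
    rw [Derivation.add_apply, Derivation.smul_apply, h₂ x hx, h₃ x hx, smul_zero, add_zero]
  obtain ⟨J, hJ, hJ'⟩ := h D₁ D₂ h₁ h₂
  obtain ⟨K, hK, hK'⟩ := h D₁ D₃ h₁ h₃
  obtain ⟨M, hM, hM'⟩ := h D₁ _ h₁ h₂₃
  have h3 : IsResC F D₁ (D₂ + c • D₃) z (J + c * K) := by
    intro v
    have h4 : (fun i => (D₂ + c • D₃) (z i)) = (fun i => D₂ (z i)) + c • fun i => D₃ (z i) := by
      funext i
      rw [Derivation.add_apply, Derivation.smul_apply]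
      rfl
    rw [add_mul, mul_assoc, ← hJ v, ← hK v, h4, mumg_det_add]
  rw [hJ', hK', hM', hM.unique hF hz hzF h3]
  ring

theorem mumg_add' (hF : IsSmoothCI F d) (he : e + (r + 3) = ∑ i, d i) {L : Fl}
    (hFL : ∀ i, Coef L (F i)) {f : MvPolynomial (Fin (r + 3)) ℂ} (hf : f.IsHomogeneous e)
    {p : PN (r + 3)} (hp : p ∈ ciS F) {D₁ D₂ D₃ : Derivation ℤ ℂ ℂ} (h₁ : Kills L D₁)
    (h₂ : Kills L D₂) (h₃ : Kills L D₃) (c : ℂ) :
    tau F (D₂ + c • D₃) D₁ f p = tau F D₂ D₁ f p + c * tau F D₃ D₁ f p := by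
  have h₂₃ : Kills L (D₂ + c • D₃) := by
    intro x hx
    rw [Derivation.add_apply, Derivation.smul_apply, h₂ x hx, h₃ x hx, smul_zero, add_zero]
  rw [mumg_swap hF he hFL hf hp h₁ h₂₃, mumg_add hF he hFL hf hp h₁ h₂ h₃,
    mumg_swap hF he hFL hf hp h₂ h₁, mumg_swap hF he hFL hf hp h₃ h₁]
  ring

/-- `tau` depends only on the restrictions of the derivations to a field of definition of the
point -/
theorem mumg_congr (hF : IsSmoothCI F d) (he : e + (r + 3) = ∑ i, d i) {L : Fl}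
    (hFL : ∀ i, Coef L (F i)) {f : MvPolynomial (Fin (r + 3)) ℂ} (hf : f.IsHomogeneous e)
    {p : PN (r + 3)} (hp : p ∈ ciS F) {M : Fl} (hpM : Over M p)
    {D₁ D₂ D₁' D₂' : Derivation ℤ ℂ ℂ} (h₁ : Kills L D₁) (h₂ : Kills L D₂) (_h₁' : Kills L D₁')
    (_h₂' : Kills L D₂') (e₁ : ∀ x ∈ M, D₁ x = D₁' x) (e₂ : ∀ x ∈ M, D₂ x = D₂' x) :
    tau F D₁ D₂ f p = tau F D₁' D₂' f p := by
  obtain ⟨z, hz, hzM, rfl⟩ := hpM
  have hzF : ∀ i, aeval z (F i) = 0 := (mem_surf_mk hF.hom hz).1 hp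
  obtain ⟨J, hJ⟩ := exists_isResC hF hFL h₁ h₂ hz hzF
  have h3 : IsResC F D₁' D₂' z J := by
    intro v
    have e₁' : (fun i => D₁' (z i)) = fun i => D₁ (z i) := funext fun i => (e₁ _ (hzM i)).symm
    have e₂' : (fun i => D₂' (z i)) = fun i => D₂ (z i) := funext fun i => (e₂ _ (hzM i)).symm
    rw [← hJ v, e₁', e₂']
  rw [tau_eq hF he hz hzF hf hJ, tau_eq hF he hz hzF hf h3]

/-- Galois invariance -/
theorem mum_gal (hF : IsSmoothCI F d) (he : e + (r + 3) = ∑ i, d i) {L C₀ : Fl} [Countable C₀]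
    (hL : L ≤ C₀) (hFL : ∀ i, Coef L (F i)) {t : ℂ} {D₁ D₂ : Derivation ℤ ℂ ℂ} (h₁ : Kills L D₁)
    (h₂ : Kills L D₂)
    (c₁ : ∀ c ∈ C₀, D₁ c ∈ C₀) (c₂ : ∀ c ∈ C₀, D₂ c ∈ C₀) (t₁ : D₁ t ∈ C₀) (t₂ : D₂ t ∈ C₀)
    {f : MvPolynomial (Fin (r + 3)) ℂ} (hf : f.IsHomogeneous e) (hfC : Coef C₀ f)
    {S : Multiset (PN (r + 3))} (hS : ∀ p ∈ S, Over (clo (adj C₀ {t})) p)
    (hSF : ∀ p ∈ S, p ∈ ciS F)
    (hSs : ∀ σ ∈ VGS.Fix (adj C₀ {t}), S.map (act σ) = S) :
    (S.map fun p => tau F D₁ D₂ f p).sum ∈ adj C₀ {t} := by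
  apply mem_of_fixed
  intro σ hσ
  have hσC : ∀ c ∈ C₀, σ c = c := fun c hc => hσ c (le_adj _ _ hc)
  have hσC' : ∀ c ∈ C₀, σ.symm c = c := fun c hc => by
    rw [RingEquiv.symm_apply_eq, hσC c hc]
  have hσL : σ ∈ VGS.Fix L := fun c hc => hσC c (hL hc)
  have hσt : σ t = t := hσ t (subset_adj _ _ rfl)
  have hσt' : σ.symm t = t := by rw [RingEquiv.symm_apply_eq, hσt]
  have key : ∀ D : Derivation ℤ ℂ ℂ, (∀ c ∈ C₀, D c ∈ C₀) → D t ∈ C₀ →
      ∀ x ∈ clo (adj C₀ {t}), conjD σ D x = D x := by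
    intro D hD hDt
    refine mum_der_eq (M := adj C₀ {t}) ?_ le_rfl
    let M : Fl :=
      { carrier := {x | conjD σ D x = D x}
        mul_mem' := fun {a b} ha hb => by
          change conjD σ D (a * b) = D (a * b)
          rw [Derivation.leibniz, Derivation.leibniz, ha, hb]
        one_mem' := by
          change conjD σ D 1 = D 1
          rw [Derivation.map_one_eq_zero, Derivation.map_one_eq_zero]
        add_mem' := fun {a b} ha hb => by
          change conjD σ D (a + b) = D (a + b)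
          rw [map_add, map_add, ha, hb]
        zero_mem' := by
          change conjD σ D 0 = D 0
          rw [map_zero, map_zero]
        algebraMap_mem' := fun r => by
          have h1 : algebraMap ℚ ℂ r ∈ C₀ := C₀.algebraMap_mem r
          change conjD σ D (algebraMap ℚ ℂ r) = D (algebraMap ℚ ℂ r)
          rw [conjD_apply, hσC' _ h1, hσC _ (hD _ h1)]
        inv_mem' := fun a ha => by
          change conjD σ D a⁻¹ = D a⁻¹
          rw [Derivation.leibniz_inv, Derivation.leibniz_inv, ha] }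
    have h1 : adj C₀ {t} ≤ M := by
      refine VGS.adj_le ?_ ?_
      · intro c hc
        change conjD σ D c = D c
        rw [conjD_apply, hσC' _ hc, hσC _ (hD _ hc)]
      · rintro x rfl
        change conjD σ D x = D x
        rw [conjD_apply, hσt', hσC _ hDt]
    exact fun x hx => h1 hx
  have hfσ : map (σ : ℂ →+* ℂ) f = f := by
    ext m
    rw [coeff_map]
    exact hσC _ (hfC m)
  have h3 : ∀ p ∈ S, σ (tau F D₁ D₂ f p) = tau F D₁ D₂ f (act σ p) := by
    intro p hp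
    rw [← tau_act hF he hFL h₁ h₂ hσL (hSF p hp) hf, hfσ]
    refine mumg_congr hF he hFL hf ((act_mem_surf hF.hom hFL hσL).2 (hSF p hp))
      ((over_clo_act hσ).2 (hS p hp)) (conjD_kills hσL h₁) (conjD_kills hσL h₂) h₁ h₂
      (key D₁ c₁ t₁) (key D₂ c₂ t₂)
  rw [map_multiset_sum, Multiset.map_map]
  have h4 : S.map ((fun x => σ x) ∘ fun p => tau F D₁ D₂ f p) =
      S.map ((fun p => tau F D₁ D₂ f p) ∘ act σ) := Multiset.map_congr rfl fun p hp => h3 p hp
  have h5 : S.map ((fun p => tau F D₁ D₂ f p) ∘ act σ) = S.map fun p => tau F D₁ D₂ f p := by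
    rw [← Multiset.map_map, hSs σ hσ]
  exact congrArg Multiset.sum (h4.trans h5)

end Pool.Agent.VCI
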