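import Pool.Agent.VCI.Tau

/-! Complete intersections: the cycles which are not seen by the two-forms. -/

set_option autoImplicit false

open scoped LinearAlgebra.Projectivization
open MvPolynomial

namespace Pool.Agent.VCI

open Pool.Agent.VGS (Fl Coef Kills conjD conjD_kills conjD_apply)

variable {r : ℕ} {F : Fin r → MvPolynomial (Fin (r + 3)) ℂ} {d : Fin r → ℕ}

/-- The cycles on the surface `F = 0` on which all two-forms are zero, with respect to the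
derivations which are zero on `L`. -/
noncomputable def TZ (L : Fl) (F : Fin r → MvPolynomial (Fin (r + 3)) ℂ) (d : Fin r → ℕ) :
    Submodule ℚ (Cy (r + 3)) where
  carrier := {z | (∀ q ∈ z.support, q ∈ ciS F) ∧ ∀ D₁ D₂ : Derivation ℤ ℂ ℂ, Kills L D₁ →
    Kills L D₂ → ∀ (e : ℕ) (f : MvPolynomial (Fin (r + 3)) ℂ), e + (r + 3) = ∑ i, d i →
      f.IsHomogeneous e → tauC F D₁ D₂ f z = 0}
  zero_mem' := ⟨fun q hq => by simp at hq, fun D₁ D₂ _ _ _ f _ _ => map_zero _⟩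
  add_mem' := by
    classical
    rintro x y ⟨hx, hx'⟩ ⟨hy, hy'⟩
    refine ⟨fun q hq => ?_, fun D₁ D₂ h₁ h₂ e f he hf => ?_⟩
    · rcases Finset.mem_union.1 (Finsupp.support_add hq) with h | h
      · exact hx q h
      · exact hy q h
    · rw [map_add, hx' D₁ D₂ h₁ h₂ e f he hf, hy' D₁ D₂ h₁ h₂ e f he hf, add_zero]
  smul_mem' := by
    rintro c x ⟨hx, hx'⟩
    refine ⟨fun q hq => hx q (Finsupp.support_smul hq), fun D₁ D₂ h₁ h₂ e f he hf => ?_⟩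
    rw [map_smul, hx' D₁ D₂ h₁ h₂ e f he hf, smul_zero]

theorem mem_TZ {L : Fl} {z : Cy (r + 3)} : z ∈ TZ L F d ↔ (∀ q ∈ z.support, q ∈ ciS F) ∧
    ∀ D₁ D₂ : Derivation ℤ ℂ ℂ, Kills L D₁ → Kills L D₂ →
      ∀ (e : ℕ) (f : MvPolynomial (Fin (r + 3)) ℂ), e + (r + 3) = ∑ i, d i →
        f.IsHomogeneous e → tauC F D₁ D₂ f z = 0 := Iff.rfl

theorem tz_mono {L L' : Fl} (h : L ≤ L') : TZ L F d ≤ TZ L' F d := fun _ hz =>
  ⟨hz.1, fun D₁ D₂ h₁ h₂ e f he hf => hz.2 D₁ D₂ (fun x hx => h₁ x (h hx))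
    (fun x hx => h₂ x (h hx)) e f he hf⟩

theorem tz_tauC_single (F : Fin r → MvPolynomial (Fin (r + 3)) ℂ) (D₁ D₂ : Derivation ℤ ℂ ℂ)
    (f : MvPolynomial (Fin (r + 3)) ℂ) (p : PN (r + 3)) (c : ℚ) :
    tauC F D₁ D₂ f (Finsupp.single p c) = c • tau F D₁ D₂ f p := by
  unfold tauC
  rw [Finsupp.linearCombination_single]

theorem tz_conjD_conjD (σ : ℂ ≃+* ℂ) (D : Derivation ℤ ℂ ℂ) : conjD σ (conjD σ⁻¹ D) = D := by
  apply Derivation.ext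
  intro x
  rw [conjD_apply, conjD_apply]
  change σ (σ.symm (D (σ (σ.symm x)))) = D x
  rw [σ.apply_symm_apply, σ.apply_symm_apply]

theorem tz_map_inv_map {n : ℕ} {σ : ℂ ≃+* ℂ} (f : MvPolynomial (Fin n) ℂ) :
    map (σ : ℂ →+* ℂ) (map ((σ⁻¹ : ℂ ≃+* ℂ) : ℂ →+* ℂ) f) = f := by
  rw [map_map]
  have : (σ : ℂ →+* ℂ).comp ((σ⁻¹ : ℂ ≃+* ℂ) : ℂ →+* ℂ) = RingHom.id ℂ := by
    ext x
    exact σ.apply_symm_apply x
  rw [this, map_id]

/-- transport of cycles with support in the surface -/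
theorem tauC_actC' {e : ℕ} (hF : IsSmoothCI F d) (he : e + (r + 3) = ∑ i, d i) {K : Fl}
    (hFK : ∀ i, Coef K (F i)) {D₁ D₂ : Derivation ℤ ℂ ℂ} (h₁ : Kills K D₁) (h₂ : Kills K D₂)
    {σ : ℂ ≃+* ℂ} (hσ : σ ∈ VGS.Fix K) {f : MvPolynomial (Fin (r + 3)) ℂ}
    (hf : f.IsHomogeneous e) {z : Cy (r + 3)} (hz : ∀ q ∈ z.support, q ∈ ciS F) :
    tauC F (conjD σ D₁) (conjD σ D₂) (map (σ : ℂ →+* ℂ) f) (actC σ z) =
      σ (tauC F D₁ D₂ f z) := by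
  have h1 : z = ∑ q ∈ z.support, Finsupp.single q (z q) := (Finsupp.sum_single z).symm
  rw [h1, map_sum, map_sum, map_sum, map_sum]
  refine Finset.sum_congr rfl fun q hq => ?_
  rw [actC_single, tz_tauC_single, tz_tauC_single, tau_act hF he hFK h₁ h₂ hσ (hz q hq) hf,
    Rat.smul_def, Rat.smul_def, map_mul, map_ratCast]

theorem support_actC {n : ℕ} {σ : ℂ ≃+* ℂ} {z : Cy n} {q : PN n} (hq : q ∈ (actC σ z).support) :
    act σ⁻¹ q ∈ z.support := by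
  rw [Finsupp.mem_support_iff, actC_apply] at hq
  exact Finsupp.mem_support_iff.2 hq

theorem tz_act (hF : IsSmoothCI F d) {L : Fl} (hFL : ∀ i, Coef L (F i)) {σ : ℂ ≃+* ℂ}
    (hσ : σ ∈ VGS.Fix L) {z : Cy (r + 3)} (hz : z ∈ TZ L F d) : actC σ z ∈ TZ L F d := by
  refine ⟨fun q hq => ?_, fun D₁ D₂ h₁ h₂ e f he hf => ?_⟩
  · have h1 := hz.1 _ (support_actC hq)
    exact (act_mem_surf hF.hom hFL (inv_mem hσ)).1 h1
  · have hσ' : σ⁻¹ ∈ VGS.Fix L := inv_mem hσ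
    have k₁ := conjD_kills hσ' h₁
    have k₂ := conjD_kills hσ' h₂
    have hf' : (map ((σ⁻¹ : ℂ ≃+* ℂ) : ℂ →+* ℂ) f).IsHomogeneous e := hf.map _
    have h1 := tauC_actC' hF he hFL k₁ k₂ hσ hf' hz.1
    rw [tz_conjD_conjD, tz_conjD_conjD, tz_map_inv_map] at h1
    rw [h1, hz.2 _ _ k₁ k₂ _ _ he hf', map_zero]

end Pool.Agent.VCI
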