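import Pool.Agent.VCI.S1
import Pool.Agent.VCI.Mum
import Pool.Agent.VCI.TZ
import Pool.Agent.VCI.CofA

/-! Complete intersections, module S1b: the scalar of an invariant correspondence with arbitrary
support; invariant correspondences over `K(t)`. -/

set_option autoImplicit false

open scoped LinearAlgebra.Projectivization
open MvPolynomial

namespace Pool.Agent.VCI

open Pool.Agent.VGS

variable {r : ℕ} {d : Fin r → ℕ} {F : Fin r → MvPolynomial (Fin (r + 3)) ℂ} {e : ℕ}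

theorem s1_gen_anti {n : ℕ} {F : Fin r → MvPolynomial (Fin n) ℂ} {L L' : Fl} (h : L ≤ L') :
    Gen L' F ⊆ Gen L F := by
  rintro p ⟨hp, i, j, l, hi, hj⟩
  exact ⟨hp, i, j, l, hi, ai_mono h hj⟩

theorem s1_gen_clo {n : ℕ} {F : Fin r → MvPolynomial (Fin n) ℂ} {L : Fl} {p : PN n}
    (hp : p ∈ Gen L F) : p ∈ Gen (clo L) F := by
  obtain ⟨hp, i, j, l, hi, hj⟩ := hp
  exact ⟨hp, i, j, l, hi, ai_clo.2 hj⟩

theorem s1_transport {n : ℕ} {F : Fin r → MvPolynomial (Fin n) ℂ}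
    (hF : ∀ i, (F i).IsHomogeneous (d i)) {K : Fl} (hFK : ∀ i, Coef K (F i)) {σ : ℂ ≃+* ℂ}
    (hσ : σ ∈ VGS.Fix K) {x y : PN n} (hx : x ∈ Gen (adjP K y) F) :
    act σ x ∈ Gen (adjP K (act σ y)) F := by
  obtain ⟨z, hz, i, j, l, hi, rfl, hzF, hzi⟩ := gen_nrm hF hx
  rw [act_mk σ z hz (map_ne_zero' σ hz)]
  refine gen_mk hF (i := i) (j := j) (l := l) (map_ne_zero' σ hz) (by rw [hi, map_one])
    (fun a => by rw [aeval_fix (hFK a) hσ, hzF a, map_zero]) ?_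
  rw [ai_iff] at hzi ⊢
  intro P hP h0
  have h1 : Coef (adjP K y) (MvPolynomial.map ((σ⁻¹ : ℂ ≃+* ℂ) : ℂ →+* ℂ) P) := by
    have h2 : ∀ x ∈ adjP K (act σ y), σ⁻¹ x ∈ adjP K y := by
      intro x hx
      have h3 := adjP_map (L := K) (L' := K) (σ := σ⁻¹) (p := act σ y)
        (fun x hx => by rw [((VGS.Fix K).inv_mem hσ) x hx]; exact hx) x hx
      rwa [act_inv_act] at h3
    exact coef_map h2 hP
  have h4 : (![σ (z j), σ (z l)] : Fin 2 → ℂ) = fun a => σ (![z j, z l] a) := by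
    funext a
    fin_cases a <;> rfl
  have h5 : MvPolynomial.map ((σ⁻¹ : ℂ ≃+* ℂ) : ℂ →+* ℂ) P = 0 := by
    refine hzi _ h1 ?_
    have h6 := aeval_map_act σ (MvPolynomial.map ((σ⁻¹ : ℂ ≃+* ℂ) : ℂ →+* ℂ) P) ![z j, z l]
    rw [← h4, map_map] at h6
    have h7 : (σ : ℂ →+* ℂ).comp ((σ⁻¹ : ℂ ≃+* ℂ) : ℂ →+* ℂ) = RingHom.id ℂ := by
      ext x
      exact σ.apply_symm_apply x
    rw [h7, map_id, h0] at h6
    exact (map_eq_zero σ).1 h6.symm
  have h8 := congrArg (MvPolynomial.map (σ : ℂ →+* ℂ)) h5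
  rw [map_map, map_zero] at h8
  have h7 : (σ : ℂ →+* ℂ).comp ((σ⁻¹ : ℂ ≃+* ℂ) : ℂ →+* ℂ) = RingHom.id ℂ := by
    ext x
    exact σ.apply_symm_apply x
  rwa [h7, map_id] at h8

/-- symmetry of the independence of two generic points -/
theorem s1_symm (hd : ∀ i, 2 ≤ d i) (hF : ∀ i, (F i).IsHomogeneous (d i)) (k : Fl)
    [Countable k]
    (hind : AlgebraicIndependent k (fun m : MonA (r + 3) d => coeff m.1.2 (F m.1.1)))
    {p q : PN (r + 3)} (hp : p ∈ Gen (cof k F) F) (hq : q ∈ Gen (adjP (cof k F) p) F) :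
    p ∈ Gen (adjP (cof k F) q) F := by
  obtain ⟨M, hM, σ, hσK, hσp, hσq, hσM⟩ := exists_frame hd hF k hind hp hq
  have h := s1_transport hF (fun i => coef_cof k F i) hσK hq
  rwa [hσp, hσq] at h

theorem s1_hr (he : e + (r + 3) = ∑ i, d i) : 0 < r := by
  rcases Nat.eq_zero_or_pos r with h | h
  · subst h
    simp at he
  · exact h

theorem s1_scalar_aux (hF : IsSmoothCI F d) (hd : ∀ i, 2 ≤ d i) (he : e + (r + 3) = ∑ i, d i)
    (k : Fl) [Countable k]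
    (hind : AlgebraicIndependent k (fun m : MonA (r + 3) d => coeff m.1.2 (F m.1.1)))
    {α : PN (r + 3) → Cy (r + 3)} (hα : ∀ p ∈ Gen (cof k F) F, ∀ q ∈ (α p).support, q ∈ ciS F)
    (hα' : ∀ σ ∈ VGS.Fix (cof k F), ∀ p ∈ Gen (cof k F) F, α (act σ p) = actC σ (α p)) {s : ℂ}
    (hs : ∀ y ∈ Gen (cof k F) F, ∀ D₁ D₂ : Derivation ℤ ℂ ℂ, Kills (cof k F) D₁ →
      Kills (cof k F) D₂ → ∀ f : MvPolynomial (Fin (r + 3)) ℂ, f.IsHomogeneous e →
        tauC F D₁ D₂ f (α y) = s * tau F D₁ D₂ f y)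
    {p q : PN (r + 3)} (hp : p ∈ Gen (cof k F) F) (hq : q ∈ Gen (adjP (cof k F) p) F) :
    ∃ m : ℚ, s = m ∧ α p - α q - m • (Finsupp.single p 1 - Finsupp.single q 1) ∈ ratQ F := by
  obtain ⟨m, h1⟩ := s1 (s1_hr he) hF.hom hd k hind hα hα' hp hq
  refine ⟨m, ?_, h1⟩
  have hFK : ∀ i, Coef (cof k F) (F i) := fun i => coef_cof k F i
  have hqK : q ∈ Gen (cof k F) F := s1_gen_anti (le_adjP _ _) hq
  obtain ⟨L, hL⟩ : ∃ L : Fl, L = clo (adjP (cof k F) q) := ⟨_, rfl⟩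
  have hLc : Countable L := by rw [hL]; infer_instance
  have hKL : cof k F ≤ L := by rw [hL]; exact (le_adjP _ _).trans (le_clo _)
  have hFL : ∀ i, Coef L (F i) := fun i => (hFK i).mono hKL
  have hpL : p ∈ Gen L F := by
    rw [hL]
    exact s1_gen_clo (s1_symm hd hF.hom k hind hp hq)
  have hqL : Over L q := by rw [hL]; exact (over_adjP _ _).mono (le_clo _)
  obtain ⟨D₁, D₂, h₁, h₂, -, -, hne⟩ := exists_tau_ne hF he L hFL hpL
  obtain ⟨i, hi⟩ := Function.ne_iff.1 p.rep_nonzero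
  have hf : (X i ^ e : MvPolynomial (Fin (r + 3)) ℂ).IsHomogeneous e := by
    have h := (isHomogeneous_X ℂ i).pow e
    rwa [one_mul] at h
  have h2 := mumford hF he L hFL h₁ h₂ hf h1
  have hk₁ : Kills (cof k F) D₁ := fun x hx => h₁ x (hKL hx)
  have hk₂ : Kills (cof k F) D₂ := fun x hx => h₂ x (hKL hx)
  rw [map_sub, map_sub, map_smul, map_sub, hs p hp D₁ D₂ hk₁ hk₂ _ hf,
    hs q hqK D₁ D₂ hk₁ hk₂ _ hf, tz_tauC_single, tz_tauC_single, one_smul, one_smul,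
    tau_over hF he h₁ hq.1 hqL hf, mul_zero, sub_zero, sub_zero,
    Rat.smul_def, ← sub_mul] at h2
  rcases mul_eq_zero.1 h2 with h3 | h3
  · exact sub_eq_zero.1 h3
  · exact absurd h3 (hne i hi)

/-- **Theorem S** with the scalar: an invariant correspondence (arbitrary support) which acts on
two-forms by the scalar `s` acts on differences of generic points by `s`. -/
theorem s1_scalar (hF : IsSmoothCI F d) (hd : ∀ i, 2 ≤ d i) (he : e + (r + 3) = ∑ i, d i)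
    (k : Fl) [Countable k]
    (hind : AlgebraicIndependent k (fun m : MonA (r + 3) d => coeff m.1.2 (F m.1.1)))
    (hne : (Gen (cof k F) F).Nonempty)
    {α : PN (r + 3) → Cy (r + 3)} (hα : ∀ p ∈ Gen (cof k F) F, ∀ q ∈ (α p).support, q ∈ ciS F)
    (hα' : ∀ σ ∈ VGS.Fix (cof k F), ∀ p ∈ Gen (cof k F) F, α (act σ p) = actC σ (α p)) {s : ℂ}
    (hs : ∀ y ∈ Gen (cof k F) F, ∀ D₁ D₂ : Derivation ℤ ℂ ℂ, Kills (cof k F) D₁ →
      Kills (cof k F) D₂ → ∀ f : MvPolynomial (Fin (r + 3)) ℂ, f.IsHomogeneous e →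
        tauC F D₁ D₂ f (α y) = s * tau F D₁ D₂ f y) :
    ∃ m : ℚ, s = m ∧ ∀ p ∈ Gen (cof k F) F, ∀ q ∈ Gen (cof k F) F,
      α p - α q - m • (Finsupp.single p 1 - Finsupp.single q 1) ∈ ratQ F := by
  have hFK : ∀ i, Coef (cof k F) (F i) := fun i => coef_cof k F i
  have key : ∀ p ∈ Gen (cof k F) F, ∀ q ∈ Gen (cof k F) F, ∃ m : ℚ, s = m ∧
      α p - α q - m • (Finsupp.single p 1 - Finsupp.single q 1) ∈ ratQ F := by
    intro p hp q hq
    obtain ⟨L, hL⟩ : ∃ L : Fl, L = clo (adjP (adjP (cof k F) p) q) := ⟨_, rfl⟩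
    have hLc : Countable L := by rw [hL]; infer_instance
    have hpL : adjP (cof k F) p ≤ L := by rw [hL]; exact (le_adjP _ _).trans (le_clo _)
    have hqL : adjP (cof k F) q ≤ L := by
      rw [hL]
      refine le_trans ?_ (le_clo _)
      exact adj_le ((le_adjP _ _).trans (le_adjP _ _)) (subset_adj _ _)
    have hKL : clo (cof k F) ≤ L := by
      rw [hL]
      exact clo_mono ((le_adjP _ _).trans (le_adjP _ _))
    obtain ⟨τ, -, hr⟩ := exists_move_gen (cof k F) hF.hom hFK hp L hKL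
    obtain ⟨m, hm, h1⟩ := s1_scalar_aux hF hd he k hind hα hα' hs hp (s1_gen_anti hpL hr)
    obtain ⟨m', hm', h2⟩ := s1_scalar_aux hF hd he k hind hα hα' hs hq (s1_gen_anti hqL hr)
    have hmm : m' = m := by
      have : (m' : ℂ) = m := by rw [← hm, ← hm']
      exact_mod_cast this
    subst hmm
    refine ⟨m', hm', ?_⟩
    have h5 := (ratQ F).sub_mem h1 h2
    convert h5 using 1
    rw [smul_sub, smul_sub, smul_sub]
    abel
  obtain ⟨p₀, hp₀⟩ := hne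
  obtain ⟨m, hm, -⟩ := key p₀ hp₀ p₀ hp₀
  refine ⟨m, hm, fun p hp q hq => ?_⟩
  obtain ⟨m', hm', h1⟩ := key p hp q hq
  have hmm : m' = m := by
    have : (m' : ℂ) = m := by rw [← hm, ← hm']
    exact_mod_cast this
  subst hmm
  exact h1

/-- **Theorem S** for an invariant correspondence over `K(t)` with values in `TZ`. -/
theorem s1t (hF : IsSmoothCI F d) (hd : ∀ i, 2 ≤ d i) (he : e + (r + 3) = ∑ i, d i)
    (k : Fl) [Countable k]
    (hind : AlgebraicIndependent k (fun m : MonA (r + 3) d => coeff m.1.2 (F m.1.1)))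
    {n : ℕ} (t : Fin n → ℂ) (ht : AlgebraicIndependent (cof k F) t)
    (α : PN (r + 3) → Cy (r + 3))
    (hα : ∀ p ∈ Gen (adj (cof k F) (Set.range t)) F, α p ∈ TZ (adj (cof k F) (Set.range t)) F d)
    (hα' : ∀ σ ∈ VGS.Fix (adj (cof k F) (Set.range t)),
      ∀ p ∈ Gen (adj (cof k F) (Set.range t)) F, α (act σ p) = actC σ (α p)) :
    ∀ p ∈ Gen (adj (cof k F) (Set.range t)) F, ∀ q ∈ Gen (adj (cof k F) (Set.range t)) F,
      α p - α q ∈ ratQ F := by
  have hc : Countable (Set.range t) := (Set.countable_range t).to_subtype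
  have hind' := ind_adj hF.hom k hind ht
  rw [← cof_adj] at hα hα' ⊢
  intro p hp q hq
  obtain ⟨m, hm, h⟩ := s1_scalar hF hd he (adj k (Set.range t)) hind' ⟨p, hp⟩ (α := α)
    (fun p hp => (hα p hp).1) hα' (s := 0) (fun y hy D₁ D₂ h₁ h₂ f hf => by
      rw [(hα y hy).2 D₁ D₂ h₁ h₂ e f he hf, zero_mul])
  have hm0 : m = 0 := by exact_mod_cast hm.symm
  have h1 := h p hp q hq
  rwa [hm0, zero_smul, sub_zero] at h1

end Pool.Agent.VCI
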