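import Pool.Agent.VCI.Dom
import Pool.Agent.VCI.InstA
import Pool.Agent.VCI.ExGen
import Pool.Agent.VCI.S1b

/-! Complete intersections: the numbers by which correspondences act on two-forms are rational,
from the theorem on invariant correspondences. -/

set_option autoImplicit false

open scoped LinearAlgebra.Projectivization
open MvPolynomial

namespace Pool.Agent.VCI

open Pool.Agent.VGS (Fl adj clo Coef Kills conjD conjD_kills conjD_apply Fix_mono le_adj le_clo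
  clo_mono)

variable {r : ℕ} {F : Fin r → MvPolynomial (Fin (r + 3)) ℂ} {d : Fin r → ℕ} {e : ℕ}

/-- The two-forms of the complete intersection `F = 0`. -/
noncomputable def forms (hF : IsSmoothCI F d) (he : e + (r + 3) = ∑ i, d i) (K : Fl)
    (hc : Countable K) (hFK : ∀ i, Coef K (F i))
    (hs1 : ∀ (α : PN (r + 3) → Cy (r + 3)) (s : ℂ),
      (∀ p ∈ Gen K F, ∀ q ∈ (α p).support, q ∈ Gen K F) →
      (∀ σ ∈ VGS.Fix K, ∀ p ∈ Gen K F, α (act σ p) = actC σ (α p)) →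
      (∀ y ∈ Gen K F, ∀ D₁ D₂ : Derivation ℤ ℂ ℂ, Kills K D₁ → Kills K D₂ →
        ∀ f : MvPolynomial (Fin (r + 3)) ℂ, f.IsHomogeneous e →
          tauC F D₁ D₂ f (α y) = s * tau F D₁ D₂ f y) → ∃ m : ℚ, s = m) : VGS.Forms where
  P := PN (r + 3)
  act := act
  act_one := act_one
  act_mul := act_mul
  X := ciS F
  G := Gen K F
  K := K
  cK := hc
  G_X := fun _ hp => hp.1
  act_G := fun σ hσ p hp => inst_act_gen hF.hom hFK hσ hp
  Ix := {t : Derivation ℤ ℂ ℂ × Derivation ℤ ℂ ℂ × MvPolynomial (Fin (r + 3)) ℂ //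
    Kills K t.1 ∧ Kills K t.2.1 ∧ t.2.2.IsHomogeneous e}
  tC := fun t => tauC F t.1.1 t.1.2.1 t.1.2.2
  conj := by
    rintro σ hσ ⟨⟨D₁, D₂, f⟩, h₁, h₂, hf⟩
    have hσ' : σ⁻¹ ∈ VGS.Fix K := inv_mem hσ
    have k₁ := conjD_kills hσ' h₁
    have k₂ := conjD_kills hσ' h₂
    have hf' : (map ((σ⁻¹ : ℂ ≃+* ℂ) : ℂ →+* ℂ) f).IsHomogeneous e := hf.map _
    refine ⟨⟨⟨conjD σ⁻¹ D₁, conjD σ⁻¹ D₂, map ((σ⁻¹ : ℂ ≃+* ℂ) : ℂ →+* ℂ) f⟩, k₁, k₂, hf'⟩,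
      fun z hz => ?_⟩
    have h1 := tauC_actC' hF he hFK k₁ k₂ hσ hf' hz
    rw [tz_conjD_conjD, tz_conjD_conjD, tz_map_inv_map] at h1
    exact h1
  ng := by
    rintro ⟨⟨D₁, D₂, f⟩, h₁, h₂, hf⟩ q hq hq'
    change tauC F D₁ D₂ f (Finsupp.single q 1) = 0
    rw [tz_tauC_single, tau_of_not_gen hF he K h₁ h₂ hq hq' hf, smul_zero]
  s1s := by
    intro α s h1 h2 h3
    refine hs1 α s h1 h2 fun y hy D₁ D₂ h₁ h₂ f hf => ?_
    have h4 := h3 y hy ⟨⟨D₁, D₂, f⟩, h₁, h₂, hf⟩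
    change tauC F D₁ D₂ f (α y) = s * tauC F D₁ D₂ f (Finsupp.single y 1) at h4
    rwa [tz_tauC_single, one_smul] at h4

/-- The number by which a correspondence with arbitrary support acts on two-forms is rational. -/
theorem scalar_rat_of (hF : IsSmoothCI F d) (he : e + (r + 3) = ∑ i, d i) (K : Fl) [Countable K]
    (hK : clo (⊥ : Fl) ≤ K) (hFK : ∀ i, Coef K (F i))
    (hs1 : ∀ (α : PN (r + 3) → Cy (r + 3)) (s : ℂ),
      (∀ p ∈ Gen K F, ∀ q ∈ (α p).support, q ∈ Gen K F) →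
      (∀ σ ∈ VGS.Fix K, ∀ p ∈ Gen K F, α (act σ p) = actC σ (α p)) →
      (∀ y ∈ Gen K F, ∀ D₁ D₂ : Derivation ℤ ℂ ℂ, Kills K D₁ → Kills K D₂ →
        ∀ f : MvPolynomial (Fin (r + 3)) ℂ, f.IsHomogeneous e →
          tauC F D₁ D₂ f (α y) = s * tau F D₁ D₂ f y) → ∃ m : ℚ, s = m)
    (T : Finset ℂ) (hT : ∀ x ∈ T, x ∈ clo K) {γ : PN (r + 3) → Cy (r + 3)}
    (hγ : ∀ p ∈ Gen K F, ∀ q ∈ (γ p).support, q ∈ ciS F)
    (hγ' : ∀ σ ∈ VGS.Fix (adj K (T : Set ℂ)), ∀ p ∈ Gen K F, γ (act σ p) = actC σ (γ p)) {m : ℂ}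
    (hm : ∀ y ∈ Gen K F, ∀ D₁ D₂ : Derivation ℤ ℂ ℂ, Kills K D₁ → Kills K D₂ →
      ∀ f : MvPolynomial (Fin (r + 3)) ℂ, f.IsHomogeneous e →
        tauC F D₁ D₂ f (γ y) = m * tau F D₁ D₂ f y) : ∃ q : ℚ, m = q := by
  have key : ∀ p ∈ Gen K F, ∀ t : {t : Derivation ℤ ℂ ℂ × Derivation ℤ ℂ ℂ ×
      MvPolynomial (Fin (r + 3)) ℂ // Kills K t.1 ∧ Kills K t.2.1 ∧ t.2.2.IsHomogeneous e},
      tauC F t.1.1 t.1.2.1 t.1.2.2 (γ p) =
        m * tauC F t.1.1 t.1.2.1 t.1.2.2 (Finsupp.single p 1) := by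
    rintro p hp ⟨⟨D₁, D₂, f⟩, h₁, h₂, hf⟩
    rw [tz_tauC_single, one_smul]
    exact hm p hp D₁ D₂ h₁ h₂ f hf
  exact (forms hF he K inferInstance hFK hs1).rat hK T hT hγ hγ' (m := m) key

/-- The numbers by which correspondences over a finitely generated algebraic extension of the field
of coefficients, with arbitrary support, act on two-forms are rational. -/
theorem scalars_rat (hF : IsSmoothCI F d) (hd : ∀ i, 2 ≤ d i) (he : e + (r + 3) = ∑ i, d i)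
    (k : Fl) [Countable k] (hk : clo k = k)
    (hind : AlgebraicIndependent k (fun m : MonA (r + 3) d => coeff m.1.2 (F m.1.1)))
    (T : Finset ℂ) (hT : ∀ x ∈ T, x ∈ clo (cof k F)) {n : ℕ}
    (γ : Fin n → PN (r + 3) → Cy (r + 3))
    (hγ : ∀ i, ∀ p ∈ Gen (cof k F) F, ∀ q ∈ (γ i p).support, q ∈ ciS F)
    (hγ' : ∀ i, ∀ σ ∈ VGS.Fix (adj (cof k F) (T : Set ℂ)), ∀ p ∈ Gen (cof k F) F,
      γ i (act σ p) = actC σ (γ i p)) (m : Fin n → ℂ)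
    (hm : ∀ i, ∀ y ∈ Gen (cof k F) F, ∀ D₁ D₂ : Derivation ℤ ℂ ℂ, Kills (cof k F) D₁ →
      Kills (cof k F) D₂ → ∀ f : MvPolynomial (Fin (r + 3)) ℂ, f.IsHomogeneous e →
        tauC F D₁ D₂ f (γ i y) = m i * tau F D₁ D₂ f y) :
    ∃ q : Fin n → ℚ, ∀ i, m i = q i := by
  have hK : clo (⊥ : Fl) ≤ cof k F := by
    refine (clo_mono (bot_le : (⊥ : Fl) ≤ k)).trans ?_
    rw [hk]
    exact le_adj _ _
  have hne : (Gen (cof k F) F).Nonempty :=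
    exists_gen (fun i => one_le_two.trans (hd i)) hF.hom k hind (cof k F) le_rfl
  choose q hq using fun i => scalar_rat_of hF he (cof k F) hK (fun i => coef_cof k F i)
    (fun α s h1 h2 h3 => by
      obtain ⟨m, hm, -⟩ := s1_scalar hF hd he k hind hne (α := α)
        (fun p hp q hq => (h1 p hp q hq).1) h2 h3
      exact ⟨m, hm⟩) T hT (hγ i) (hγ' i) (hm i)
  exact ⟨q, hq⟩

end Pool.Agent.VCI
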