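import Pool.Agent.VCI.Trd2
import Pool.Agent.VCI.Branch
import Pool.Agent.VGS.Tau

/-! Complete intersections: linear sections through a point (vectors only). -/

set_option autoImplicit false

open MvPolynomial

namespace Pool.Agent.VCI

open Pool.Agent.VGS

variable {n r : ℕ}

/-- The derivatives of the `F i` at `z` in the directions `b j`. -/
noncomputable def jacM (F : Fin r → MvPolynomial (Fin n) ℂ) (z : Fin n → ℂ)
    (b : Fin r → Fin n → ℂ) : Matrix (Fin r) (Fin r) ℂ :=
  Matrix.of fun i j => ∑ l, aeval z (pderiv l (F i)) * b j l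

theorem mu_coef_pderiv {L : Fl} {G : MvPolynomial (Fin n) ℂ} (hG : Coef L G) (i : Fin n) :
    Coef L (pderiv i G) := by
  obtain ⟨G₀, rfl⟩ := exists_map_eq hG
  rw [pderiv_map]
  exact gp_coef_map _

theorem mu_aeval_mem {L : Fl} {ι : Type} {G : MvPolynomial ι ℂ} (hG : Coef L G) {z : ι → ℂ}
    (hz : ∀ i, z i ∈ L) : aeval z G ∈ L := aeval_mem hG hz

/-! ### generic directions are transversal -/

theorem exists_rinv {A : Matrix (Fin r) (Fin n) ℂ} (hA : LinearIndependent ℂ A.row) :
    ∃ B : Matrix (Fin n) (Fin r) ℂ, A * B = 1 := by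
  rw [← Matrix.mulVec_surjective_iff_exists_right_inverse]
  have h1 : A.rank = Fintype.card (Fin r) := hA.rank_matrix
  have h2 : LinearMap.range A.mulVecLin = ⊤ := by
    apply Submodule.eq_top_of_finrank_eq
    rw [Module.finrank_fintype_fun_eq_card]
    exact h1
  exact LinearMap.range_eq_top.1 h2

theorem jac_ne {L : Fl} {F : Fin r → MvPolynomial (Fin n) ℂ} (hFL : ∀ i, Coef L (F i))
    {z : Fin n → ℂ} (hz : ∀ l, z l ∈ L)
    (hsm : LinearIndependent ℂ fun i : Fin r => fun l : Fin n => aeval z (pderiv l (F i)))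
    {b : Fin r → Fin n → ℂ}
    (hb : AlgebraicIndependent L fun jl : Fin r × Fin n => b jl.1 jl.2) :
    (jacM F z b).det ≠ 0 := by
  classical
  have hA : ∀ i l, aeval z (pderiv l (F i)) ∈ L := fun i l =>
    mu_aeval_mem (mu_coef_pderiv (hFL i) l) hz
  set P : MvPolynomial (Fin r × Fin n) ℂ :=
    (Matrix.of fun i j : Fin r => ∑ l, C (aeval z (pderiv l (F i))) * X (j, l)).det with hP
  have hval : ∀ b' : Fin r → Fin n → ℂ,
      aeval (fun jl : Fin r × Fin n => b' jl.1 jl.2) P = (jacM F z b').det := by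
    intro b'
    rw [hP, AlgHom.map_det]
    congr 1
    ext i j
    simp only [jacM, AlgHom.mapMatrix_apply, Matrix.map_apply, Matrix.of_apply, map_sum, map_mul,
      aeval_C, aeval_X]
    rfl
  have hcoef : Coef L P := by
    have h1 : P = map (algebraMap L ℂ) (Matrix.of fun i j : Fin r =>
        ∑ l, C (⟨aeval z (pderiv l (F i)), hA i l⟩ : L) * X (j, l)).det := by
      rw [hP, RingHom.map_det]
      congr 1
      ext1 i j
      simp only [RingHom.mapMatrix_apply, Matrix.map_apply, Matrix.of_apply, map_sum, map_mul,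
        map_C, map_X]
      rfl
    rw [h1]
    exact gp_coef_map _
  have hP0 : P ≠ 0 := by
    intro h0
    obtain ⟨B, hB⟩ := exists_rinv (A := Matrix.of fun (i : Fin r) (l : Fin n) =>
      aeval z (pderiv l (F i))) hsm
    have h1 := hval fun j l => B l j
    have h2 : jacM F z (fun j l => B l j) = 1 := by
      rw [← hB]
      rfl
    rw [h0, map_zero, h2, Matrix.det_one] at h1
    exact zero_ne_one h1
  intro h0
  rw [← hval] at h0
  exact hP0 (ai_iff.1 hb P hcoef h0)

/-! ### the count -/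

theorem cnt {K L : Fl} (hKL : K ≤ L) {m : ℕ} (hn : m + 2 < n) {v : Fin n → ℂ}
    (hv : AlgebraicIndependent L v) {w : Fin m → Fin n → ℂ} (hw : ∀ l i, w l i ∈ L) {β : ℂ}
    (hβ : β ≠ 0) {c : Fin m → ℂ} {x : Fin n → ℂ} (hx : ∀ i, x i = β * v i + ∑ l, c l * w l i)
    {i₀ : Fin n} (hx0 : x i₀ ≠ 0) {t : ℂ} (ht : ∀ i, x i / x i₀ ∈ clo (adj K {t})) : False := by
  set y : Fin m ⊕ Fin 2 → ℂ := Sum.elim (fun l => c l / β) ![t, x i₀ / β] with hy
  have h1 := ai_le_card hv (y := y) fun i => ?_
  · simp only [Nat.card_eq_fintype_card, Fintype.card_fin, Fintype.card_sum] at h1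
    omega
  have hL : L ≤ clo (adj L (Set.range y)) := (le_adj _ _).trans (le_clo _)
  have hyy : ∀ j, y j ∈ clo (adj L (Set.range y)) := fun j =>
    le_clo _ (subset_adj _ _ ⟨j, rfl⟩)
  have e : v i = y (Sum.inr 1) * (x i / x i₀) - ∑ l, y (Sum.inl l) * w l i := by
    have h2 : y (Sum.inr 1) = x i₀ / β := rfl
    have h3 : ∑ l, y (Sum.inl l) * w l i = (∑ l, c l * w l i) / β := by
      rw [Finset.sum_div]
      refine Finset.sum_congr rfl fun l _ => ?_
      change c l / β * w l i = _
      ring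
    rw [h2, h3, hx i]
    field_simp
    ring
  rw [e]
  refine sub_mem (mul_mem (hyy _) ?_) (sum_mem fun l _ => mul_mem (hyy _) (hL (hw l i)))
  refine clo_mono (adj_le (hKL.trans (le_adj _ _)) ?_) (ht i)
  rintro _ rfl
  exact subset_adj _ _ ⟨Sum.inr 0, rfl⟩

theorem exists_par {K : Fl} {x : Fin n → ℂ} {i₀ : Fin n}
    (h : ∀ j l, ¬ AlgebraicIndependent K ![x j / x i₀, x l / x i₀]) :
    ∃ t : ℂ, ∀ i, x i / x i₀ ∈ clo (adj K {t}) := by
  by_cases h1 : ∃ j, x j / x i₀ ∉ clo K
  · obtain ⟨j, hj⟩ := h1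
    refine ⟨x j / x i₀, fun i => ?_⟩
    by_contra hi
    exact h j i (ai_pair.2 ⟨hj, hi⟩)
  · push Not at h1
    exact ⟨0, fun i => clo_mono (le_adj K _) (h1 i)⟩

/-! ### algebraicity from the Jacobian -/

theorem mu_der_aeval {L : Fl} {G : MvPolynomial (Fin n) ℂ} (hG : Coef L G)
    {D : Derivation ℤ ℂ ℂ} (hD : Kills L D) (z : Fin n → ℂ) :
    D (aeval z G) = ∑ l, aeval z (pderiv l G) * D (z l) := by
  obtain ⟨G₀, rfl⟩ := exists_map_eq hG
  clear hG
  induction G₀ using MvPolynomial.induction_on with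
  | C a =>
    have h1 : D (a : ℂ) = 0 := hD _ a.2
    simp only [map_C, aeval_C, pderiv_C, map_zero, zero_mul, Finset.sum_const_zero]
    exact h1
  | add p q hp hq =>
    rw [map_add, map_add, map_add, hp, hq]
    simp only [map_add, add_mul, Finset.sum_add_distrib]
  | mul_X p i hp =>
    rw [map_mul, map_X, map_mul, aeval_X, Derivation.leibniz, hp]
    simp only [Derivation.leibniz, pderiv_X, smul_eq_mul, map_add, map_mul, aeval_X]
    simp only [add_mul, Finset.sum_add_distrib]
    congr 1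
    · rw [Finset.sum_eq_single i]
      · simp
      · intro j _ hj
        simp [hj.symm]
      · intro h; exact absurd (Finset.mem_univ i) h
    · rw [Finset.mul_sum]
      refine Finset.sum_congr rfl fun j _ => by ring

theorem alg_of_jac {M : Fl} [Countable M] {F : Fin r → MvPolynomial (Fin n) ℂ}
    (hF : ∀ i, Coef M (F i)) {w : Fin n → ℂ} (hw : ∀ l, w l ∈ M) {b : Fin r → Fin n → ℂ}
    (hb : ∀ j l, b j l ∈ M) {c : Fin r → ℂ} {x : Fin n → ℂ}
    (hx : ∀ l, x l = w l + ∑ j, c j * b j l) (h0 : ∀ i, aeval x (F i) = 0)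
    (hJ : (jacM F x b).det ≠ 0) : ∀ j, c j ∈ clo M := by
  intro j₀
  by_contra hj
  obtain ⟨y, hy⟩ := gp_exists_far (adj M {c j₀}) (fun _ : Fin 4 => 0)
  have hy' : y ∉ clo (adj M {c j₀}) := fun h => hy (clo_mono (le_adj _ _) h)
  obtain ⟨D, hD, hD1, -⟩ := exists_kills M (ai_pair.2 ⟨hj, hy'⟩) 1 0
  have h1 : (jacM F x b).mulVec (fun j => D (c j)) = 0 := by
    funext i
    have h2 := mu_der_aeval (hF i) hD x
    rw [h0 i, map_zero] at h2
    have h3 : ∀ l, D (x l) = ∑ j, D (c j) * b j l := by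
      intro l
      rw [hx l, map_add, hD _ (hw l), zero_add, map_sum]
      refine Finset.sum_congr rfl fun j _ => ?_
      rw [Derivation.leibniz, hD _ (hb j l), smul_zero, zero_add, smul_eq_mul]
      ring
    rw [Pi.zero_apply, h2, Matrix.mulVec, dotProduct]
    simp only [jacM, Matrix.of_apply]
    simp only [h3, Finset.mul_sum, Finset.sum_mul]
    rw [Finset.sum_comm]
    refine Finset.sum_congr rfl fun l _ => Finset.sum_congr rfl fun j _ => by ring
  have h2 := Matrix.eq_zero_of_mulVec_eq_zero hJ h1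
  have h3 := congrFun h2 j₀
  rw [hD1, Pi.zero_apply] at h3
  exact one_ne_zero h3

/-! ### specialisation of the Jacobian -/

theorem jac_sp {V : ValuationSubring ℂ} {C : Fl} (hV : IsPl V C)
    {F : Fin r → MvPolynomial (Fin n) ℂ} (hF : ∀ i, Coef C (F i)) {x q : Fin n → ℂ}
    (hx : ∀ l, Sp V C (x l) (q l)) {b : Fin r → Fin n → ℂ} (hb : ∀ j l, b j l ∈ C) :
    Sp V C (jacM F x b).det (jacM F q b).det := by
  rw [Matrix.det_apply', Matrix.det_apply']
  refine Sp.sum hV _ fun σ _ => Sp.mul hV (Sp.const hV ?_) (Sp.prod hV _ fun i _ => ?_)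
  · exact intCast_mem C _
  · simp only [jacM, Matrix.of_apply]
    exact Sp.sum hV _ fun l _ => Sp.mul hV (Sp.aeval hV (mu_coef_pderiv (hF _) l) hx)
      (Sp.const hV (hb _ _))

/-! ### the branch through a point -/

theorem mu_chain {σ : Type} (f : Fin n → MvPolynomial σ ℂ) (G : MvPolynomial (Fin n) ℂ)
    (o : σ) : pderiv o (aeval f G) = ∑ l, aeval f (pderiv l G) * pderiv o (f l) := by
  classical
  induction G using MvPolynomial.induction_on with
  | C c =>
    rw [aeval_C, Finset.sum_eq_zero]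
    · exact pderiv_C
    · intro i _
      rw [pderiv_C, map_zero, zero_mul]
  | add p q hp hq =>
    rw [map_add, map_add, hp, hq, ← Finset.sum_add_distrib]
    refine Finset.sum_congr rfl fun i _ => ?_
    rw [map_add, map_add, add_mul]
  | mul_X p i hp =>
    rw [map_mul, aeval_X, Derivation.leibniz, hp]
    simp only [Derivation.leibniz, pderiv_X, smul_eq_mul, map_add, map_mul, aeval_X]
    simp only [add_mul, Finset.sum_add_distrib]
    congr 1
    · rw [Finset.sum_eq_single i]
      · simp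
      · intro j _ hj
        simp [hj.symm]
      · intro h; exact absurd (Finset.mem_univ i) h
    · rw [Finset.mul_sum]
      refine Finset.sum_congr rfl fun j _ => by ring

theorem exists_branch {C : Fl} [Countable C] (hC : clo C = C)
    {F : Fin r → MvPolynomial (Fin n) ℂ} (hF : ∀ i, Coef C (F i)) {q b₀ : Fin n → ℂ}
    (hq : ∀ l, q l ∈ C) (hb₀ : ∀ l, b₀ l ∈ C) {b : Fin r → Fin n → ℂ} (hb : ∀ j l, b j l ∈ C)
    (hqF : ∀ i, aeval q (F i) = 0) (hJ : (jacM F q b).det ≠ 0) :
    ∃ (V : ValuationSubring ℂ) (u : ℂ) (c : Fin r → ℂ) (x : Fin n → ℂ), IsPl V C ∧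
      Sp V C u 0 ∧ u ∉ C ∧ (∀ l, Sp V C (x l) (q l)) ∧ (∀ i, aeval x (F i) = 0) ∧
      (∀ l, x l = q l + u * (b₀ l - q l) + ∑ j, c j * b j l) ∧
      ∀ j, c j ∈ clo (adj C {u}) := by
  classical
  obtain ⟨f, hf⟩ : ∃ f : Fin n → MvPolynomial (Option (Fin r)) ℂ, ∀ l, f l =
      MvPolynomial.C (q l) + X none * MvPolynomial.C (b₀ l - q l) +
        ∑ j, X (some j) * MvPolynomial.C (b j l) := ⟨_, fun _ => rfl⟩
  have hfe : ∀ (u : ℂ) (c : Fin r → ℂ) (l : Fin n),
      aeval (fun o : Option (Fin r) => o.elim u c) (f l) =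
        q l + u * (b₀ l - q l) + ∑ j, c j * b j l := by
    intro u c l
    rw [hf, map_add, map_add, map_sum, map_mul, aeval_X, aeval_C, aeval_C]
    congr 1
    refine Finset.sum_congr rfl fun j _ => ?_
    rw [map_mul, aeval_X, aeval_C]
    rfl
  have hfC : ∀ l, Coef C (f l) := by
    intro l
    have h1 : f l = map (algebraMap C ℂ) (MvPolynomial.C (⟨q l, hq l⟩ : C) +
        X none * MvPolynomial.C ((⟨b₀ l, hb₀ l⟩ : C) - ⟨q l, hq l⟩) +
        ∑ j, X (some j) * MvPolynomial.C (⟨b j l, hb j l⟩ : C)) := by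
      rw [hf]
      simp only [map_add, map_mul, map_sum, map_C, map_X]
      rfl
    rw [h1]
    exact gp_coef_map _
  have hcomp : ∀ (G : MvPolynomial (Fin n) ℂ) (y : Option (Fin r) → ℂ),
      aeval y (aeval f G) = aeval (fun l => aeval y (f l)) G := by
    intro G y
    rw [← MvPolynomial.comp_aeval_apply]
  have hQC : ∀ i, Coef C (aeval f (F i)) := by
    intro i
    choose f₀ hf₀ using fun l => exists_map_eq (hfC l)
    obtain ⟨G₀, hG₀⟩ := exists_map_eq (hF i)
    have h1 : aeval f (F i) = map (algebraMap C ℂ) (aeval f₀ G₀) := by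
      rw [← hG₀, MvPolynomial.map_aeval, aeval_def, eval₂_map, coe_eval₂Hom]
      congr 1
      · ext a
        simp
      · funext l
        exact (hf₀ l).symm
    rw [h1]
    exact gp_coef_map _
  have h00 : ∀ l, aeval (fun o : Option (Fin r) => o.elim (0 : ℂ) (0 : Fin r → ℂ)) (f l) = q l := by
    intro l
    rw [hfe]
    simp
  obtain ⟨V, c, u, hV, hu, hu0, huC, hc, hroot⟩ := branch (L := C)
    (Set.countable_coe_iff.1 (inferInstance : Countable C)) (0 : Fin r → ℂ) (fun _ => C.zero_mem)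
    (fun i => aeval f (F i)) hQC (fun i => by
      rw [hcomp, funext h00]
      exact hqF i) (by
      have h1 : (Matrix.of fun i j : Fin r => aeval (fun o : Option (Fin r) =>
          o.elim (0 : ℂ) (0 : Fin r → ℂ)) (pderiv (some j) (aeval f (F i)))) = jacM F q b := by
        ext i j
        rw [Matrix.of_apply, mu_chain, map_sum]
        simp only [jacM, Matrix.of_apply]
        refine Finset.sum_congr rfl fun l _ => ?_
        rw [map_mul, hcomp, funext h00]
        congr 1
        rw [hf, map_add (pderiv (some j)), map_add (pderiv (some j)), map_sum, pderiv_C, zero_add,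
          Derivation.leibniz, pderiv_C, smul_zero, zero_add, pderiv_X_of_ne (by simp), smul_zero,
          zero_add, map_sum, Finset.sum_eq_single j]
        · rw [Derivation.leibniz, pderiv_C, smul_zero, zero_add, pderiv_X_self, smul_eq_mul,
            mul_one, aeval_C]
          rfl
        · intro k _ hk
          rw [Derivation.leibniz, pderiv_C, smul_zero, zero_add, pderiv_X_of_ne (by simpa using hk),
            smul_zero, map_zero]
        · intro h
          exact absurd (Finset.mem_univ j) h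
      rw [h1]
      exact hJ)
  obtain ⟨x, hx⟩ : ∃ x : Fin n → ℂ, ∀ l, x l = q l + u * (b₀ l - q l) + ∑ j, c j * b j l :=
    ⟨_, fun _ => rfl⟩
  have hxq : ∀ l, Sp V C (x l) (q l) := by
    intro l
    have h1 : Sp V C (x l) (q l + 0 * (b₀ l - q l) + ∑ j, (0 : Fin r → ℂ) j * b j l) := by
      rw [hx l]
      exact Sp.add hV (Sp.add hV (Sp.const hV (hq l)) (Sp.mul hV hu
        (Sp.const hV (sub_mem (hb₀ l) (hq l))))) (Sp.sum hV _ fun j _ =>
          Sp.mul hV (hc j) (Sp.const hV (hb j l)))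
    simpa using h1
  have hx0 : ∀ i, aeval x (F i) = 0 := by
    intro i
    have h1 := hroot i
    rw [hcomp] at h1
    rw [← h1]
    refine congrArg (fun z => aeval z (F i)) (funext fun l => ?_)
    rw [hfe, hx]
  refine ⟨V, u, c, x, hV, hu, huC, hxq, hx0, hx, ?_⟩
  have hJx : (jacM F x b).det ≠ 0 := (jac_sp hV hF hxq hb).ne_zero hV hJ
  refine alg_of_jac (M := adj C {u}) (fun i => (hF i).mono (le_adj _ _))
    (w := fun l => q l + u * (b₀ l - q l)) (fun l => ?_) (fun j l => le_adj _ _ (hb j l)) hx hx0 hJx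
  exact add_mem (le_adj _ _ (hq l)) (mul_mem (subset_adj _ _ rfl)
    (le_adj _ _ (sub_mem (hb₀ l) (hq l))))

end Pool.Agent.VCI
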