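import Pool.Agent.VCI.AutP
import Pool.Agent.VCI.Conj
import Pool.Agent.VCI.LineA
import Pool.Agent.VCI.MuA

/-! Complete intersections: generic points. -/

set_option autoImplicit false

open scoped LinearAlgebra.Projectivization
open MvPolynomial

namespace Pool.Agent.VCI

open Pool.Agent.VGS

section

variable {n r : ℕ} {F : Fin r → MvPolynomial (Fin n) ℂ} {d : Fin r → ℕ}

/-! ### general facts -/

theorem Gen_anti {L L' : Fl} (h : L ≤ L') (F : Fin r → MvPolynomial (Fin n) ℂ) :
    Gen L' F ⊆ Gen L F := by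
  rintro x ⟨h0, i, j, l, hi, h1⟩
  exact ⟨h0, i, j, l, hi, ai_mono h h1⟩

theorem gen_clo (L : Fl) (F : Fin r → MvPolynomial (Fin n) ℂ) : Gen (clo L) F = Gen L F := by
  unfold Gen
  simp only [ai_clo]

/-- transport of independent families -/
theorem ai_transport {L L' : Fl} {σ : ℂ ≃+* ℂ} (hL : ∀ x ∈ L', σ.symm x ∈ L) {ι : Type}
    {x : ι → ℂ} (hx : AlgebraicIndependent L x) :
    AlgebraicIndependent L' (fun i => σ (x i)) := by
  rw [ai_iff] at hx ⊢
  intro P hP h0
  have h1 : Coef L (MvPolynomial.map (σ.symm : ℂ →+* ℂ) P) := by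
    intro m
    rw [coeff_map]
    exact hL _ (hP m)
  have h2 : aeval x (MvPolynomial.map (σ.symm : ℂ →+* ℂ) P) = 0 := by
    have h3 := aeval_map_act σ.symm P (fun i => σ (x i))
    rw [h0, map_zero] at h3
    have h4 : (fun i => σ.symm (σ (x i))) = x := funext fun i => σ.symm_apply_apply _
    rwa [h4] at h3
  have h5 := hx _ h1 h2
  exact (map_eq_zero_iff _ (MvPolynomial.map_injective _ σ.symm.injective)).1 h5

/-- transport of generic points -/
theorem gen_map {M L L' : Fl} (hF : ∀ i, (F i).IsHomogeneous (d i)) (hM : ∀ i, Coef M (F i))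
    {σ : ℂ ≃+* ℂ} (hσ : σ ∈ VGS.Fix M) (hL : ∀ x ∈ L', σ.symm x ∈ L) {p : PN n}
    (hp : p ∈ Gen L F) : act σ p ∈ Gen L' F := by
  obtain ⟨z, hz, i, j, l, hi, rfl, hzF, hzi⟩ := gen_nrm hF hp
  rw [act_mk σ z hz (map_ne_zero' σ hz)]
  refine gen_mk hF (map_ne_zero' σ hz) (i := i) (j := j) (l := l) (by rw [hi, map_one])
    (fun a => ?_) ?_
  · rw [aeval_fix (hM a) hσ, hzF, map_zero]
  · have h1 := ai_transport (σ := σ) hL hzi
    have h2 : (fun i => σ (![z j, z l] i)) = ![σ (z j), σ (z l)] := by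
      funext a
      fin_cases a <;> rfl
    rwa [h2] at h1

theorem act_mem_Gen {L : Fl} (hF : ∀ i, (F i).IsHomogeneous (d i)) (hL : ∀ i, Coef L (F i))
    {σ : ℂ ≃+* ℂ} (hσ : σ ∈ VGS.Fix L) {p : PN n} : act σ p ∈ Gen L F ↔ p ∈ Gen L F := by
  have key : ∀ {τ : ℂ ≃+* ℂ}, τ ∈ VGS.Fix L → ∀ {q : PN n}, q ∈ Gen L F → act τ q ∈ Gen L F := by
    intro τ hτ q hq
    refine gen_map hF hL hτ (fun x hx => ?_) hq
    have h1 : τ.symm x = x := by rw [RingEquiv.symm_apply_eq, hτ x hx]
    rw [h1]
    exact hx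
  constructor
  · intro h
    have h1 := key (inv_mem hσ) h
    rwa [act_inv_act] at h1
  · exact key hσ

/-- transport of the points which are generic over `clo (L (p))` -/
theorem gen_transport {L : Fl} (hF : ∀ i, (F i).IsHomogeneous (d i)) (hL : ∀ i, Coef L (F i))
    {σ : ℂ ≃+* ℂ} (hσ : σ ∈ VGS.Fix L) {p q : PN n} (hq : q ∈ Gen (clo (adjP L p)) F) :
    act σ q ∈ Gen (clo (adjP L (act σ p))) F := by
  refine gen_map hF hL hσ ?_ hq
  have h1 : ∀ x ∈ L, σ.symm x ∈ L := by
    intro x hx
    have h2 : σ.symm x = x := by rw [RingEquiv.symm_apply_eq, hσ x hx]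
    rw [h2]
    exact hx
  have h3 : act σ.symm (act σ p) = p := act_inv_act σ p
  have h4 := clo_map (adjP_map (L := L) (L' := L) (σ := σ.symm) h1 (p := act σ p))
  rwa [h3] at h4

theorem gen_transport' {L : Fl} (hF : ∀ i, (F i).IsHomogeneous (d i)) (hL : ∀ i, Coef L (F i))
    {σ : ℂ ≃+* ℂ} (hσ : σ ∈ VGS.Fix L) {p q : PN n} (hq : q ∈ Gen (adjP L p) F) :
    act σ q ∈ Gen (adjP L (act σ p)) F := by
  rw [← gen_clo] at hq ⊢
  exact gen_transport hF hL hσ hq

/-- a generic point is not algebraic -/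
theorem gen_not_over {L : Fl} {p : PN n} (hp : p ∈ Gen L F) : ¬ Over (clo L) p := by
  rintro ⟨w, hw, hL, rfl⟩
  obtain ⟨-, i, j, l, hi, h⟩ := hp
  rw [rep_mk_div, rep_mk_div] at h
  exact (ai_pair.1 h).1 (div_mem (hL j) (hL i))

theorem gen_mem_surf {L : Fl} {p : PN n} (hp : p ∈ Gen L F) : p ∈ ciS F := hp.1

/-! ### coordinates -/

/-- the coordinates are algebraic over one element if no two of them are independent -/
theorem exists_par' {L : Fl} {z : Fin n → ℂ} (h : ∀ j l, ¬ AlgebraicIndependent L ![z j, z l]) :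
    ∃ t : ℂ, ∀ m, z m ∈ clo (adj L {t}) := by
  by_cases hall : ∀ m, z m ∈ clo L
  · exact ⟨0, fun m => clo_mono (le_adj _ _) (hall m)⟩
  · push Not at hall
    obtain ⟨j, hj⟩ := hall
    refine ⟨z j, fun m => ?_⟩
    by_contra hm
    exact h j m (ai_pair.2 ⟨hj, hm⟩)

/-- two independent elements algebraic over the coordinates give two independent coordinates -/
theorem exists_coord {L : Fl} {z : Fin n → ℂ} {x y : ℂ} (hx : x ∈ clo (adj L (Set.range z)))
    (hy : y ∈ clo (adj L (Set.range z))) (h : AlgebraicIndependent L ![x, y]) :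
    ∃ j l, AlgebraicIndependent L ![z j, z l] := by
  by_contra hcon
  push Not at hcon
  obtain ⟨t, ht⟩ := exists_par' hcon
  have h1 : clo (adj L (Set.range z)) ≤ clo (adj L {t}) := by
    refine clo_adj_le ((le_adj _ _).trans (le_clo _)) ?_
    rintro _ ⟨m, rfl⟩
    exact ht m
  exact not_algInd_pair (h1 hx) (h1 hy) h

/-- two independent elements of the closure of the field of definition of the point -/
theorem gen_of_algInd {L : Fl} (hF : ∀ i, (F i).IsHomogeneous (d i)) {z : Fin n → ℂ} (hz : z ≠ 0)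
    (hzF : ∀ a, aeval z (F a) = 0) {i : Fin n} (hzi : z i = 1) {x y : ℂ}
    (hx : x ∈ clo (adj L (Set.range z))) (hy : y ∈ clo (adj L (Set.range z)))
    (h : AlgebraicIndependent L ![x, y]) : (Projectivization.mk ℂ z hz : PN n) ∈ Gen L F := by
  obtain ⟨j, l, h1⟩ := exists_coord hx hy h
  exact gen_mk hF hz hzi hzF h1

/-- coordinates of a generic point, for any normalisation -/
theorem gen_coord {L : Fl} (hF : ∀ i, (F i).IsHomogeneous (d i)) {z : Fin n → ℂ} (hz : z ≠ 0)
    {i : Fin n} (hzi : z i = 1) (h : (Projectivization.mk ℂ z hz : PN n) ∈ Gen L F) :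
    ∃ j l, AlgebraicIndependent L ![z j, z l] := by
  obtain ⟨w, hw, i', j, l, hi', hzw, -, hai⟩ := gen_nrm hF h
  have h1 : adj L (Set.range w) = adj L (Set.range z) := by
    rw [← adjP_mk hz hzi, hzw, adjP_mk hw hi']
  refine exists_coord (x := w j) (y := w l) ?_ ?_ hai
  · rw [← h1]
    exact le_clo _ (subset_adj _ _ ⟨j, rfl⟩)
  · rw [← h1]
    exact le_clo _ (subset_adj _ _ ⟨l, rfl⟩)

theorem gen_iff_coord {L : Fl} (hF : ∀ i, (F i).IsHomogeneous (d i)) {z : Fin n → ℂ} (hz : z ≠ 0)
    {i : Fin n} (hzi : z i = 1) (hzF : ∀ a, aeval z (F a) = 0) :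
    (Projectivization.mk ℂ z hz : PN n) ∈ Gen L F ↔
      ∃ j l, AlgebraicIndependent L ![z j, z l] :=
  ⟨gen_coord hF hz hzi, fun ⟨_, _, h⟩ => gen_mk hF hz hzi hzF h⟩

/-- a point of the surface which is not generic is algebraic over one element -/
theorem not_gen {L : Fl} (hF : ∀ i, (F i).IsHomogeneous (d i)) {p : PN n} (hp : p ∈ ciS F)
    (hp' : p ∉ Gen L F) {w : ℂ} (hw : w ∈ adjP L p) (hw' : w ∉ clo L) :
    Over (clo (adj L {w})) p := by
  obtain ⟨z, hz, i, hzi, rfl⟩ := exists_nrm p
  rw [over_mk hz hzi]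
  rw [adjP_mk hz hzi] at hw
  intro j
  by_contra hj
  exact hp' (gen_of_algInd hF hz ((mem_surf_mk hF hz).1 hp) hzi (le_clo _ hw)
    (le_clo _ (subset_adj _ _ ⟨j, rfl⟩)) (ai_pair.2 ⟨hw', hj⟩))

/-- a point of the surface which is not generic is algebraic over some element -/
theorem not_gen' {L : Fl} (hF : ∀ i, (F i).IsHomogeneous (d i)) {p : PN n} (hp : p ∈ ciS F)
    (hp' : p ∉ Gen L F) : ∃ t, Over (clo (adj L {t})) p := by
  obtain ⟨z, hz, i, hzi, rfl⟩ := exists_nrm p
  have h1 : ∀ j l, ¬ AlgebraicIndependent L ![z j, z l] := fun j l h =>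
    hp' (gen_mk hF hz hzi ((mem_surf_mk hF hz).1 hp) h)
  obtain ⟨t, ht⟩ := exists_par' h1
  refine ⟨t, ?_⟩
  rw [over_mk hz hzi]
  exact ht

/-! ### the count -/

/-- The coefficients other than those of the powers of `X i`. -/
abbrev BA (n : ℕ) (d : Fin r → ℕ) (i : Fin n) : Type :=
  {m : MonA n d // ¬ m.1.2 = Finsupp.single i (d m.1.1)}

/-- The family of the coefficients other than those of the powers of `X i`. -/
noncomputable def aB (F : Fin r → MvPolynomial (Fin n) ℂ) (i : Fin n) (m : BA n d i) : ℂ :=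
  coeff m.1.1.2 (F m.1.1.1)

theorem card_BA (d : Fin r → ℕ) (i : Fin n) :
    Nat.card (BA n d i) + r = Nat.card (MonA n d) := by
  classical
  let e : {m : MonA n d // m.1.2 = Finsupp.single i (d m.1.1)} ≃ Fin r :=
    { toFun := fun m => m.1.1.1
      invFun := fun a => ⟨⟨(a, Finsupp.single i (d a)), Finsupp.degree_single _ _⟩, rfl⟩
      left_inv := by
        rintro ⟨⟨⟨a, t⟩, h1⟩, h2⟩
        apply Subtype.ext
        apply Subtype.ext
        exact Prod.ext rfl h2.symm
      right_inv := fun a => rfl }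
  have h1 := Nat.card_congr
    (Equiv.sumCompl fun m : MonA n d => m.1.2 = Finsupp.single i (d m.1.1))
  rw [Nat.card_sum, Nat.card_congr e, Nat.card_fin] at h1
  rw [← h1, add_comm]

theorem aeval_pow_single {z : Fin n → ℂ} {i : Fin n} (hzi : z i = 1) (e : ℕ) :
    aeval z (monomial (Finsupp.single i e) (1 : ℂ)) = 1 := by
  rw [aeval_monomial, map_one, one_mul, Finsupp.prod_single_index, hzi, one_pow]
  rw [pow_zero]

/-- the coefficient of the power of `X i` -/
theorem coeff_last {k : Fl} (hF : ∀ i, (F i).IsHomogeneous (d i)) {z : Fin n → ℂ} {i : Fin n}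
    (hzi : z i = 1) (hz0 : ∀ a, aeval z (F a) = 0) (a : Fin r) :
    coeff (Finsupp.single i (d a)) (F a) ∈
      adj (adj k (Set.range (aB (d := d) F i))) (Set.range z) := by
  refine pt_mem (m := fun a => Finsupp.single i (d a))
    (a := fun a => coeff (Finsupp.single i (d a)) (F a)) _ (fun b t => ?_) (fun b => ?_) hz0 a
  · classical
    rw [coeff_sub, coeff_C_mul, coeff_monomial]
    by_cases h1 : Finsupp.single i (d b) = t
    · rw [if_pos h1, h1, mul_one, sub_self]
      exact zero_mem _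
    · rw [if_neg h1, mul_zero, sub_zero]
      by_cases h2 : t.degree = d b
      · exact subset_adj _ _ ⟨⟨⟨(b, t), h2⟩, fun h => h1 h.symm⟩, rfl⟩
      · rw [(hF b).coeff_eq_zero h2]
        exact zero_mem _
  · rw [aeval_pow_single hzi]
    exact one_ne_zero

/-- the field of the coefficients -/
theorem cof_le_of {k H : Fl} (hF : ∀ i, (F i).IsHomogeneous (d i)) (hk : k ≤ H) {i : Fin n}
    (hB : ∀ m : BA n d i, aB F i m ∈ H) {z : Fin n → ℂ} (hzi : z i = 1)
    (hz0 : ∀ a, aeval z (F a) = 0) (hz : ∀ m, z m ∈ H) : cof k F ≤ H := by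
  rw [cof_eq_monA k hF]
  have h0 : adj (adj k (Set.range (aB (d := d) F i))) (Set.range z) ≤ H := by
    refine adj_le (adj_le hk ?_) ?_
    · rintro _ ⟨m, rfl⟩
      exact hB m
    · rintro _ ⟨m, rfl⟩
      exact hz m
  refine adj_le hk ?_
  rintro _ ⟨m, rfl⟩
  by_cases h : m.1.2 = Finsupp.single i (d m.1.1)
  · change coeff m.1.2 (F m.1.1) ∈ H
    rw [h]
    exact h0 (coeff_last hF hzi hz0 _)
  · exact hB ⟨m, h⟩

/-- the count -/
theorem gen_count (k : Fl) (hF : ∀ i, (F i).IsHomogeneous (d i))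
    (hind : AlgebraicIndependent k (fun m : MonA n d => coeff m.1.2 (F m.1.1)))
    {z : Fin n → ℂ} {i : Fin n} (hzi : z i = 1) (hz0 : ∀ a, aeval z (F a) = 0)
    {κ : Type} [Finite κ] {y : κ → ℂ} (hy : ∀ m, z m ∈ clo (adj k (Set.range y)))
    {ι : Type} [Finite ι] {x : ι → ℂ} (hx : AlgebraicIndependent (cof k F) x)
    (hxy : ∀ s, x s ∈ clo (adj (cof k F) (Set.range y))) :
    Nat.card ι + r ≤ Nat.card κ := by
  set Y : BA n d i ⊕ κ → ℂ := Sum.elim (aB F i) y with hY
  have hk : k ≤ clo (adj k (Set.range Y)) := (le_adj _ _).trans (le_clo _)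
  have hYr : ∀ s, y s ∈ adj k (Set.range Y) := fun s => subset_adj _ _ ⟨Sum.inr s, rfl⟩
  have hBr : ∀ m, aB (d := d) F i m ∈ adj k (Set.range Y) :=
    fun m => subset_adj _ _ ⟨Sum.inl m, rfl⟩
  have hz : ∀ m, z m ∈ clo (adj k (Set.range Y)) := by
    intro m
    refine clo_mono (adj_le (le_adj _ _) ?_) (hy m)
    rintro _ ⟨s, rfl⟩
    exact hYr s
  have hc : cof k F ≤ clo (adj k (Set.range Y)) :=
    cof_le_of hF hk (fun m => le_clo _ (hBr m)) hzi hz0 hz
  have hx' : AlgebraicIndependent
      (adj k (Set.range fun m : MonA n d => coeff m.1.2 (F m.1.1))) x := by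
    rw [← cof_eq_monA k hF]
    exact hx
  have h1 := ai_le_card (ai_sum.2 ⟨hind, hx'⟩) (y := Y) (by
    rintro (m | s)
    · refine hc ?_
      rw [cof_eq_monA k hF]
      exact subset_adj _ _ ⟨m, rfl⟩
    · refine clo_adj_le hc ?_ (hxy s)
      rintro _ ⟨t, rfl⟩
      exact le_clo _ (hYr t))
  rw [Nat.card_sum, Nat.card_sum] at h1
  have h2 := card_BA d i
  omega

/-- the coordinates other than the one which is `1` -/
theorem mem_adj_coord {k : Fl} {z : Fin n → ℂ} {i : Fin n} (hzi : z i = 1) (m : Fin n) :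
    z m ∈ adj k (Set.range fun m : {m // m ≠ i} => z m) := by
  by_cases h : m = i
  · rw [h, hzi]
    exact one_mem _
  · exact subset_adj _ _ ⟨⟨m, h⟩, rfl⟩

theorem card_ne (i : Fin n) : Nat.card {m : Fin n // m ≠ i} + 1 = n := by
  have h1 : Fintype.card {m : Fin n // m ≠ i} = Fintype.card (Fin n) - 1 := by
    rw [Fintype.card_subtype_compl, Fintype.card_subtype_eq]
  rw [Nat.card_eq_fintype_card, h1, Fintype.card_fin]
  have := i.pos
  omega

end

section

variable {r : ℕ} {F : Fin r → MvPolynomial (Fin (r + 3)) ℂ} {d : Fin r → ℕ}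

/-- three elements of the field of definition of a point are dependent over the field of the
coefficients -/
theorem trd_cof (k : Fl) (hF : ∀ i, (F i).IsHomogeneous (d i))
    (hind : AlgebraicIndependent k (fun m : MonA (r + 3) d => coeff m.1.2 (F m.1.1)))
    {z : Fin (r + 3) → ℂ} {i : Fin (r + 3)} (hzi : z i = 1) (hz0 : ∀ a, aeval z (F a) = 0)
    {ι : Type} [Finite ι] {x : ι → ℂ} (hx : AlgebraicIndependent (cof k F) x)
    (hxz : ∀ s, x s ∈ clo (adj (cof k F) (Set.range z))) : Nat.card ι ≤ 2 := by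
  have h1 := gen_count k hF hind hzi hz0 (y := fun m : {m // m ≠ i} => z m)
    (fun m => le_clo _ (mem_adj_coord hzi m)) hx (fun s => by
      refine clo_adj_le ((le_adj _ _).trans (le_clo _)) ?_ (hxz s)
      rintro _ ⟨m, rfl⟩
      exact le_clo _ (mem_adj_coord hzi m))
  have h2 := card_ne i
  omega

/-- the coordinates are algebraic over two of them -/
theorem exists_two (k : Fl) (hF : ∀ i, (F i).IsHomogeneous (d i))
    (hind : AlgebraicIndependent k (fun m : MonA (r + 3) d => coeff m.1.2 (F m.1.1)))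
    {z : Fin (r + 3) → ℂ} {i : Fin (r + 3)} (hzi : z i = 1) (hz0 : ∀ a, aeval z (F a) = 0) :
    ∃ j l, ∀ m, z m ∈ clo (adj (cof k F) {z j, z l}) := by
  by_cases h : ∃ j l, AlgebraicIndependent (cof k F) ![z j, z l]
  · obtain ⟨j, l, h⟩ := h
    refine ⟨j, l, fun m => ?_⟩
    by_contra hm
    have hr : Set.range ![z j, z l] = {z j, z l} := by
      ext a
      simp [or_comm]
    have h1 : AlgebraicIndependent (cof k F) (Sum.elim ![z j, z l] fun _ : Unit => z m) :=
      ai_add h (by rw [hr]; exact hm)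
    have h2 := trd_cof k hF hind hzi hz0 h1 (by
      rintro (a | a)
      · fin_cases a
        · exact le_clo _ (subset_adj _ _ ⟨j, rfl⟩)
        · exact le_clo _ (subset_adj _ _ ⟨l, rfl⟩)
      · exact le_clo _ (subset_adj _ _ ⟨m, rfl⟩))
    rw [Nat.card_sum, Nat.card_fin, Nat.card_unique] at h2
    omega
  · push Not at h
    by_cases hall : ∀ m, z m ∈ clo (cof k F)
    · exact ⟨i, i, fun m => clo_mono (le_adj _ _) (hall m)⟩
    · push Not at hall
      obtain ⟨j, hj⟩ := hall
      refine ⟨j, j, fun m => ?_⟩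
      by_contra hm
      refine h j m (ai_pair.2 ⟨hj, fun h1 => hm ?_⟩)
      rwa [Set.pair_eq_singleton]

/-- the transcendence degree of a point of the surface is at most `2` -/
theorem trd_le (k : Fl) (hF : ∀ i, (F i).IsHomogeneous (d i))
    (hind : AlgebraicIndependent k (fun m : MonA (r + 3) d => coeff m.1.2 (F m.1.1)))
    {L : Fl} (hL : cof k F ≤ L)
    {z : Fin (r + 3) → ℂ} {i : Fin (r + 3)} (hzi : z i = 1) (hz0 : ∀ a, aeval z (F a) = 0)
    {ι : Type} [Finite ι] {x : ι → ℂ} (hx : AlgebraicIndependent L x)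
    (hxz : ∀ s, x s ∈ clo (adj L (Set.range z))) : Nat.card ι ≤ 2 := by
  obtain ⟨j, l, h⟩ := exists_two k hF hind hzi hz0
  have h1 := ai_le_card hx (y := ![z j, z l]) (by
    intro s
    refine clo_adj_le ((le_adj _ _).trans (le_clo _)) ?_ (hxz s)
    rintro _ ⟨m, rfl⟩
    refine clo_mono (adj_le (hL.trans (le_adj _ _)) ?_) (h m)
    rintro _ (rfl | rfl)
    · exact subset_adj _ _ ⟨0, rfl⟩
    · exact subset_adj _ _ ⟨1, rfl⟩)
  rw [Nat.card_fin] at h1
  exact h1

/-- the coordinates are algebraic over two independent elements -/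
theorem alg_pair (k : Fl) (hF : ∀ i, (F i).IsHomogeneous (d i))
    (hind : AlgebraicIndependent k (fun m : MonA (r + 3) d => coeff m.1.2 (F m.1.1)))
    {L : Fl} (hL : cof k F ≤ L)
    {z : Fin (r + 3) → ℂ} {i : Fin (r + 3)} (hzi : z i = 1) (hz0 : ∀ a, aeval z (F a) = 0)
    {x y : ℂ} (hx : x ∈ clo (adj L (Set.range z))) (hy : y ∈ clo (adj L (Set.range z)))
    (h : AlgebraicIndependent L ![x, y]) {w : ℂ} (hw : w ∈ clo (adj L (Set.range z))) :
    w ∈ clo (adj L {x, y}) := by
  by_contra hm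
  have hr : Set.range ![x, y] = {x, y} := by
    ext a
    simp [or_comm]
  have h1 : AlgebraicIndependent L (Sum.elim ![x, y] fun _ : Unit => w) :=
    ai_add h (by rw [hr]; exact hm)
  have h2 := trd_le k hF hind hL hzi hz0 h1 (by
    rintro (a | a)
    · fin_cases a
      · exact hx
      · exact hy
    · exact hw)
  rw [Nat.card_sum, Nat.card_fin, Nat.card_unique] at h2
  omega

/-- coordinates of a generic point -/
theorem gen_algInd (k : Fl) (hF : ∀ i, (F i).IsHomogeneous (d i))
    (hind : AlgebraicIndependent k (fun m : MonA (r + 3) d => coeff m.1.2 (F m.1.1)))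
    {L : Fl} (hL : cof k F ≤ L) {z : Fin (r + 3) → ℂ} (hz : z ≠ 0) {i : Fin (r + 3)}
    (hzi : z i = 1) (h : (Projectivization.mk ℂ z hz : PN (r + 3)) ∈ Gen L F) :
    ∃ j l, AlgebraicIndependent L ![z j, z l] ∧ ∀ m, z m ∈ clo (adj L {z j, z l}) := by
  obtain ⟨j, l, h1⟩ := gen_coord hF hz hzi h
  refine ⟨j, l, h1, fun m => ?_⟩
  exact alg_pair k hF hind hL hzi ((mem_surf_mk hF hz).1 h.1)
    (le_clo _ (subset_adj _ _ ⟨j, rfl⟩)) (le_clo _ (subset_adj _ _ ⟨l, rfl⟩)) h1
    (le_clo _ (subset_adj _ _ ⟨m, rfl⟩))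

/-- symmetry of independence -/
theorem gen_symm (k : Fl) (hF : ∀ i, (F i).IsHomogeneous (d i))
    (hind : AlgebraicIndependent k (fun m : MonA (r + 3) d => coeff m.1.2 (F m.1.1)))
    {L : Fl} (hL : cof k F ≤ L) {p q : PN (r + 3)} (hp : p ∈ Gen L F)
    (hq : q ∈ Gen (adjP L p) F) : p ∈ Gen (adjP L q) F := by
  have hLp : L ≤ adjP L p := le_adjP L p
  have hq' : q ∈ Gen L F := Gen_anti hLp F hq
  obtain ⟨z, hz, i, hzi, rfl⟩ := exists_nrm p
  obtain ⟨w, hw, i', hwi, rfl⟩ := exists_nrm q
  obtain ⟨j, l, hai, -⟩ := gen_algInd k hF hind hL hz hzi hp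
  rw [adjP_mk hz hzi] at hq hLp
  obtain ⟨j', l', hai', hall'⟩ := gen_algInd k hF hind (hL.trans hLp) hw hwi hq
  obtain ⟨j₂, l₂, hai₂, hall₂⟩ := gen_algInd k hF hind hL hw hwi hq'
  rw [adjP_mk hw hwi]
  refine gen_mk hF hz hzi ((mem_surf_mk hF hz).1 hp.1) (j := j) (l := l) ?_
  -- the pair `j', l'` is independent over `L`
  have h0 : AlgebraicIndependent L ![w j', w l'] := ai_mono hLp hai'
  have hall : ∀ m, w m ∈ clo (adj L {w j', w l'}) := fun m =>
    alg_pair k hF hind hL hwi ((mem_surf_mk hF hw).1 hq'.1)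
      (le_clo _ (subset_adj _ _ ⟨j', rfl⟩)) (le_clo _ (subset_adj _ _ ⟨l', rfl⟩)) h0
      (le_clo _ (subset_adj _ _ ⟨m, rfl⟩))
  have h1 : AlgebraicIndependent (adj L (Set.range ![z j, z l])) ![w j', w l'] := by
    refine ai_mono (adj_le (le_adj _ _) ?_) hai'
    rintro _ ⟨a, rfl⟩
    apply subset_adj
    fin_cases a
    · exact ⟨j, rfl⟩
    · exact ⟨l, rfl⟩
  have h2 : AlgebraicIndependent L (Sum.elim ![z j, z l] ![w j', w l']) := ai_sum.2 ⟨hai, h1⟩
  have h3 : AlgebraicIndependent L (Sum.elim ![w j', w l'] ![z j, z l]) := by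
    rw [← algebraicIndependent_equiv' (Equiv.sumComm (Fin 2) (Fin 2))
      (f := Sum.elim ![w j', w l'] ![z j, z l]) (g := Sum.elim ![z j, z l] ![w j', w l'])] at *
    · exact h2
    · ext (i | i) <;> rfl
  refine ai_mono_clo ?_ (ai_sum.1 h3).2
  refine adj_le ((le_adj _ _).trans (le_clo _)) ?_
  rintro _ ⟨a, rfl⟩
  have hr2 : Set.range ![w j', w l'] = {w j', w l'} := by
    ext a
    simp [or_comm]
  rw [hr2]
  exact hall a

/-! ### the Jacobian at a generic point -/

/-- a form is the sum of its monomials -/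
theorem form_eq_sum {n : ℕ} {F : Fin r → MvPolynomial (Fin n) ℂ} [Fintype (MonA n d)]
    (hF : ∀ i, (F i).IsHomogeneous (d i)) (a : Fin r) :
    F a = ∑ m : MonA n d, if m.1.1 = a then monomial m.1.2 (coeff m.1.2 (F m.1.1)) else 0 := by
  classical
  ext t
  rw [coeff_sum]
  by_cases h : t.degree = d a
  · symm
    refine (Finset.sum_eq_single (⟨(a, t), h⟩ : MonA n d) ?_ ?_).trans ?_
    · intro m _ hm
      split_ifs with h1
      · rw [coeff_monomial, if_neg]
        intro h2
        apply hm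
        apply Subtype.ext
        exact Prod.ext h1 h2
      · rw [coeff_zero]
    · intro h1
      exact (h1 (@Finset.mem_univ (MonA n d) _ ⟨(a, t), h⟩)).elim
    · rw [if_pos rfl, coeff_monomial, if_pos rfl]
  · rw [(hF a).coeff_eq_zero h]
    refine (Finset.sum_eq_zero fun m _ => ?_).symm
    split_ifs with h1
    · rw [coeff_monomial, if_neg]
      intro h2
      apply h
      rw [← h2, m.2, h1]
    · rw [coeff_zero]

/-- the remaining indices -/
theorem exists_idx {i j l : Fin (r + 3)} (hij : j ≠ i) (hil : l ≠ i) (hjl : j ≠ l) :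
    Nonempty (Fin r ≃ {m : Fin (r + 3) // m ≠ i ∧ m ≠ j ∧ m ≠ l}) := by
  have h1 : Fintype.card {m : Fin (r + 3) // m ≠ i ∧ m ≠ j ∧ m ≠ l} = r := by
    rw [Fintype.card_subtype]
    have h2 : (Finset.univ.filter fun m : Fin (r + 3) => m ≠ i ∧ m ≠ j ∧ m ≠ l) =
        Finset.univ \ {i, j, l} := by
      ext m
      simp
    rw [h2, Finset.card_sdiff_of_subset (Finset.subset_univ _), Finset.card_univ, Fintype.card_fin,
      Finset.card_eq_three.2 ⟨i, j, l, hij.symm, hil.symm, hjl, rfl⟩]
    omega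
  exact ⟨(Fintype.equivFinOfCardEq h1).symm⟩

theorem gen_jac (k : Fl) [Countable k] (hF : ∀ i, (F i).IsHomogeneous (d i))
    (hd : ∀ a, 1 ≤ d a) {z : Fin (r + 3) → ℂ} {i j l : Fin (r + 3)} (hij : j ≠ i) (hil : l ≠ i)
    (hjl : j ≠ l) (hzi : z i = 1) (hz0 : ∀ a, aeval z (F a) = 0)
    (hfam : AlgebraicIndependent k (Sum.elim (aB (d := d) F i) fun m : {m // m ≠ i} => z m)) :
    ∀ m, z m ∈ clo (adj (cof k F) {z j, z l}) := by
  classical
  obtain ⟨e⟩ := exists_idx hij hil hjl
  have : Fintype (MonA (r + 3) d) := Fintype.ofFinite _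
  set k' : Fl := adj k (Set.range fun m : {m // m ≠ i} => z m) with hk'
  have hzk : ∀ m, z m ∈ k' := fun m => mem_adj_coord hzi m
  have hBk : AlgebraicIndependent k' (aB (d := d) F i) := by
    have h3 : AlgebraicIndependent k (Sum.elim (fun m : {m // m ≠ i} => z m)
        (aB (d := d) F i)) := by
      rw [← algebraicIndependent_equiv' (Equiv.sumComm _ _)
        (f := Sum.elim (fun m : {m // m ≠ i} => z m) (aB (d := d) F i))
        (g := Sum.elim (aB (d := d) F i) (fun m : {m // m ≠ i} => z m))] at *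
      · exact hfam
      · ext (i | i) <;> rfl
    exact (ai_sum.1 h3).2
  -- the coefficients of the entries of the Jacobian matrix
  set c : BA (r + 3) d i → Fin r → Fin r → ℂ := fun m a s =>
    if m.1.1.1 = a then aeval z (pderiv (e s).1 (monomial m.1.1.2 (1 : ℂ))) else 0 with hc
  have hck : ∀ m a s, c m a s ∈ k' := by
    intro m a s
    rw [hc]
    beta_reduce
    split_ifs
    · exact aeval_mem (mu_coef_pderiv (pt_coef_mono _ _) _) hzk
    · exact zero_mem _
  set P : MvPolynomial (BA (r + 3) d i) ℂ :=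
    (Matrix.of fun a s : Fin r => ∑ m, C (c m a s) * X m).det with hP
  have hval : ∀ y : BA (r + 3) d i → ℂ,
      aeval y P = (Matrix.of fun a s : Fin r => ∑ m, c m a s * y m).det := by
    intro y
    rw [hP, AlgHom.map_det]
    congr 1
    ext a s
    simp only [AlgHom.mapMatrix_apply, Matrix.map_apply, Matrix.of_apply, map_sum, map_mul,
      aeval_C, aeval_X]
    rfl
  have hcoef : Coef k' P := by
    have h1 : P = map (algebraMap k' ℂ) (Matrix.of fun a s : Fin r =>
        ∑ m, C (⟨c m a s, hck m a s⟩ : k') * X m).det := by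
      rw [hP, RingHom.map_det]
      congr 1
      ext1 a s
      simp only [RingHom.mapMatrix_apply, Matrix.map_apply, Matrix.of_apply, map_sum, map_mul,
        map_C, map_X]
      rfl
    rw [h1]
    exact gp_coef_map _
  -- the polynomial is not zero
  have hP0 : P ≠ 0 := by
    intro h0
    set t : Fin r → (Fin (r + 3) →₀ ℕ) := fun a =>
      Finsupp.single i (d a - 1) + Finsupp.single (e a).1 1 with ht
    have hei : ∀ a, (e a).1 ≠ i := fun a => (e a).2.1
    have ht1 : ∀ a, (t a).degree = d a := by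
      intro a
      rw [ht]
      beta_reduce
      rw [map_add, Finsupp.degree_single, Finsupp.degree_single]
      have := hd a
      omega
    have ht2 : ∀ a, ¬ t a = Finsupp.single i (d a) := by
      intro a h
      have h1 := DFunLike.congr_fun h (e a).1
      rw [ht] at h1
      beta_reduce at h1
      rw [Finsupp.add_apply, Finsupp.single_eq_same, Finsupp.single_eq_of_ne (hei a),
        Finsupp.single_eq_of_ne (hei a)] at h1
      omega
    have h1 := hval fun m => if m.1.1.2 = t m.1.1.1 then 1 else 0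
    have h2 : (Matrix.of fun a s : Fin r => ∑ m : BA (r + 3) d i,
        c m a s * (if m.1.1.2 = t m.1.1.1 then 1 else 0)) = 1 := by
      ext a s
      rw [Matrix.of_apply, Finset.sum_eq_single (⟨⟨(a, t a), ht1 a⟩, ht2 a⟩ : BA (r + 3) d i)]
      · rw [if_pos rfl, mul_one, hc]
        beta_reduce
        rw [if_pos rfl, pderiv_monomial, one_mul]
        by_cases has : a = s
        · subst has
          rw [Matrix.one_apply_eq]
          have h3 : t a - Finsupp.single (e a).1 1 = Finsupp.single i (d a - 1) := by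
            rw [ht]
            beta_reduce
            rw [add_tsub_cancel_right]
          have h4 : t a (e a).1 = 1 := by
            rw [ht]
            beta_reduce
            rw [Finsupp.add_apply, Finsupp.single_eq_same, Finsupp.single_eq_of_ne (hei a)]
          change aeval z (monomial (t a - Finsupp.single (e a).1 1) ((t a (e a).1 : ℕ) : ℂ)) = 1
          rw [h3, h4, Nat.cast_one, aeval_pow_single hzi]
        · rw [Matrix.one_apply_ne has]
          have h4 : t a (e s).1 = 0 := by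
            rw [ht]
            beta_reduce
            rw [Finsupp.add_apply, Finsupp.single_eq_of_ne (hei s),
              Finsupp.single_eq_of_ne (fun h => has (e.injective (Subtype.ext h)).symm), add_zero]
          change aeval z (monomial (t a - Finsupp.single (e s).1 1) ((t a (e s).1 : ℕ) : ℂ)) = 0
          rw [h4, Nat.cast_zero, monomial_zero, map_zero]
      · intro m _ hm
        by_cases h3 : m.1.1.1 = a
        · rw [if_neg, mul_zero]
          intro h4
          apply hm
          apply Subtype.ext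
          apply Subtype.ext
          refine Prod.ext h3 ?_
          rw [h4, h3]
        · rw [hc]
          beta_reduce
          rw [if_neg h3, zero_mul]
      · intro h3
        exact absurd (Finset.mem_univ _) h3
    rw [h0, map_zero, h2, Matrix.det_one] at h1
    exact zero_ne_one h1
  have hJ0 : aeval (aB (d := d) F i) P ≠ 0 := fun h0 => hP0 (ai_iff.1 hBk P hcoef h0)
  rw [hval] at hJ0
  -- the entries of the Jacobian matrix
  have hent : ∀ a s, ∑ m, c m a s * aB (d := d) F i m = aeval z (pderiv (e s).1 (F a)) := by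
    intro a s
    set f : MonA (r + 3) d → ℂ := fun m => aeval z (pderiv (e s).1
      (if m.1.1 = a then monomial m.1.2 (coeff m.1.2 (F m.1.1)) else 0)) with hf
    have hA : ∑ m : {m : MonA (r + 3) d // m.1.2 = Finsupp.single i (d m.1.1)}, f m.1 = 0 := by
      refine Finset.sum_eq_zero fun m _ => ?_
      rw [hf]
      beta_reduce
      by_cases h1 : m.1.1.1 = a
      · rw [if_pos h1, pderiv_monomial, m.2, Finsupp.single_eq_of_ne (e s).2.1, Nat.cast_zero,
          mul_zero, monomial_zero, map_zero]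
      · rw [if_neg h1, map_zero, map_zero]
    have hB : ∀ m : BA (r + 3) d i, f m.1 = c m a s * aB (d := d) F i m := by
      intro m
      rw [hf, hc]
      beta_reduce
      by_cases h1 : m.1.1.1 = a
      · rw [if_pos h1, if_pos h1]
        have h2 : (monomial m.1.1.2 (coeff m.1.1.2 (F m.1.1.1)) : MvPolynomial (Fin (r + 3)) ℂ) =
            C (coeff m.1.1.2 (F m.1.1.1)) * monomial m.1.1.2 1 := by
          rw [C_mul_monomial, mul_one]
        rw [h2, pderiv_C_mul, map_mul, aeval_C, mul_comm]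
        rfl
      · rw [if_neg h1, if_neg h1, zero_mul, map_zero, map_zero]
    have h3 : aeval z (pderiv (e s).1 (F a)) = ∑ m, f m := by
      rw [form_eq_sum hF a, map_sum, map_sum]
    rw [h3]
    refine Eq.trans ?_ (Fintype.sum_subtype_add_sum_subtype
      (fun m : MonA (r + 3) d => m.1.2 = Finsupp.single i (d m.1.1)) f)
    rw [hA, zero_add]
    exact Finset.sum_congr rfl fun m _ => (hB m).symm
  -- algebraicity
  have hM : ∀ a, Coef (adj (cof k F) {z j, z l}) (F a) := fun a =>
    (coef_cof k F a).mono (le_adj _ _)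
  have hcount : Countable (adj (cof k F) {z j, z l}) := by
    have : Countable (({z j, z l} : Set ℂ)) := (Set.toFinite _).countable.to_subtype
    exact countable_adj _ _
  have h1 := alg_of_jac (M := adj (cof k F) {z j, z l}) hM
    (w := fun m => if m = i then 1 else if m = j then z j else if m = l then z l else 0) (by
      intro m
      split_ifs
      · exact one_mem _
      · exact subset_adj _ _ (Or.inl rfl)
      · exact subset_adj _ _ (Or.inr rfl)
      · exact zero_mem _)
    (b := fun s => Pi.single (e s).1 1) (by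
      intro s m
      rw [Pi.single_apply]
      split_ifs
      · exact one_mem _
      · exact zero_mem _) (c := fun s => z (e s).1) (x := z) (by
      intro m
      by_cases h1 : m ≠ i ∧ m ≠ j ∧ m ≠ l
      · rw [if_neg h1.1, if_neg h1.2.1, if_neg h1.2.2, zero_add,
          Finset.sum_eq_single (e.symm ⟨m, h1⟩)]
        · rw [Equiv.apply_symm_apply, Pi.single_eq_same, mul_one]
        · intro s _ hs
          rw [Pi.single_eq_of_ne, mul_zero]
          rintro rfl
          apply hs
          rw [Equiv.eq_symm_apply]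
        · intro h2
          exact absurd (Finset.mem_univ _) h2
      · rw [Finset.sum_eq_zero, add_zero]
        · split_ifs with h2 h3 h4
          · rw [h2, hzi]
          · rw [h3]
          · rw [h4]
          · exact absurd ⟨h2, h3, h4⟩ h1
        · intro s _
          rw [Pi.single_eq_of_ne, mul_zero]
          rintro rfl
          exact h1 (e s).2) hz0 (by
      intro h0
      apply hJ0
      rw [← h0]
      congr 1
      ext a s
      rw [Matrix.of_apply, hent]
      unfold jacM
      rw [Matrix.of_apply, Finset.sum_eq_single (e s).1]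
      · beta_reduce
        rw [Pi.single_eq_same, mul_one]
      · intro m _ hm
        beta_reduce
        rw [Pi.single_eq_of_ne hm, mul_zero]
      · intro h2
        exact absurd (Finset.mem_univ _) h2)
  intro m
  by_cases h2 : m ≠ i ∧ m ≠ j ∧ m ≠ l
  · have h3 := h1 (e.symm ⟨m, h2⟩)
    rwa [Equiv.apply_symm_apply] at h3
  · by_cases h3 : m = i
    · rw [h3, hzi]
      exact one_mem _
    · by_cases h4 : m = j
      · rw [h4]
        exact le_clo _ (subset_adj _ _ (Or.inl rfl))
      · by_cases h5 : m = l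
        · rw [h5]
          exact le_clo _ (subset_adj _ _ (Or.inr rfl))
        · exact absurd ⟨h3, h4, h5⟩ h2

/-! ### generic points: all pairs of coordinates -/

/-- the free family of a generic point -/
theorem gen_fam (k : Fl) (hF : ∀ i, (F i).IsHomogeneous (d i))
    (hind : AlgebraicIndependent k (fun m : MonA (r + 3) d => coeff m.1.2 (F m.1.1)))
    {z : Fin (r + 3) → ℂ} (hz : z ≠ 0) {i : Fin (r + 3)} (hzi : z i = 1)
    (h : (Projectivization.mk ℂ z hz : PN (r + 3)) ∈ Gen (cof k F) F) :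
    AlgebraicIndependent k (Sum.elim (aB (d := d) F i) fun m : {m // m ≠ i} => z m) := by
  obtain ⟨j, l, hai⟩ := gen_coord hF hz hzi h
  have hz0 := (mem_surf_mk hF hz).1 h.1
  have hai' : AlgebraicIndependent
      (adj k (Set.range fun m : MonA (r + 3) d => coeff m.1.2 (F m.1.1))) ![z j, z l] := by
    rw [← cof_eq_monA k hF]
    exact hai
  have h1 := ai_sum.2 ⟨hind, hai'⟩
  set Y : BA (r + 3) d i ⊕ {m : Fin (r + 3) // m ≠ i} → ℂ :=
    Sum.elim (aB (d := d) F i) fun m : {m // m ≠ i} => z m with hY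
  have hzY : ∀ m, z m ∈ adj k (Set.range Y) := by
    intro m
    refine adj_le (le_adj _ _) ?_ (mem_adj_coord (k := k) hzi m)
    rintro _ ⟨s, rfl⟩
    exact subset_adj _ _ ⟨Sum.inr s, rfl⟩
  have hc : cof k F ≤ adj k (Set.range Y) :=
    cof_le_of hF (le_adj _ _) (fun m => subset_adj _ _ ⟨Sum.inl m, rfl⟩) hzi hz0 hzY
  refine ai_card h1 ?_ ?_
  · rw [Nat.card_sum, Nat.card_sum, Nat.card_fin]
    have h2 := card_BA d i
    have h3 := card_ne i
    omega
  · rintro (m | s)
    · apply le_clo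
      apply hc
      rw [cof_eq_monA k hF]
      exact subset_adj _ _ ⟨m, rfl⟩
    · apply le_clo
      fin_cases s
      · exact hzY j
      · exact hzY l

theorem gen_coord_ne (k : Fl) (hF : ∀ i, (F i).IsHomogeneous (d i))
    (hind : AlgebraicIndependent k (fun m : MonA (r + 3) d => coeff m.1.2 (F m.1.1)))
    {z : Fin (r + 3) → ℂ} (hz : z ≠ 0) {i : Fin (r + 3)} (hzi : z i = 1)
    (h : (Projectivization.mk ℂ z hz : PN (r + 3)) ∈ Gen (cof k F) F) (m : Fin (r + 3)) :
    z m ≠ 0 := by
  by_cases hm : m = i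
  · rw [hm, hzi]
    exact one_ne_zero
  · exact (gen_fam k hF hind hz hzi h).ne_zero (Sum.inr ⟨m, hm⟩)

/-- all coordinates of a generic point are different from zero -/
theorem gen_rep_ne (k : Fl) (hF : ∀ i, (F i).IsHomogeneous (d i))
    (hind : AlgebraicIndependent k (fun m : MonA (r + 3) d => coeff m.1.2 (F m.1.1)))
    {p : PN (r + 3)} (hp : p ∈ Gen (cof k F) F) (m : Fin (r + 3)) : p.rep m ≠ 0 := by
  obtain ⟨z, hz, i, hzi, rfl⟩ := exists_nrm p
  rw [Ne, rep_mk_eq_zero]
  exact gen_coord_ne k hF hind hz hzi hp m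

/-- a generic point, with a given coordinate equal to `1` -/
theorem gen_nrm_at (k : Fl) (hF : ∀ i, (F i).IsHomogeneous (d i))
    (hind : AlgebraicIndependent k (fun m : MonA (r + 3) d => coeff m.1.2 (F m.1.1)))
    {p : PN (r + 3)} (hp : p ∈ Gen (cof k F) F) (i : Fin (r + 3)) :
    ∃ (z : Fin (r + 3) → ℂ) (hz : z ≠ 0), z i = 1 ∧ (∀ m, z m ≠ 0) ∧
      p = Projectivization.mk ℂ z hz := by
  have h1 := gen_rep_ne k hF hind hp
  have h2 : (fun m => p.rep m / p.rep i) i = 1 := div_self (h1 i)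
  have hz : (fun m => p.rep m / p.rep i) ≠ 0 := by
    intro h
    rw [h] at h2
    exact zero_ne_one h2
  refine ⟨_, hz, h2, fun m => div_ne_zero (h1 m) (h1 i), ?_⟩
  conv_lhs => rw [← p.mk_rep]
  exact mk_eq_mk_of_mul _ _ (a := p.rep i) (fun m => by rw [mul_div_cancel₀ _ (h1 i)])

/-- all pairs of coordinates of a generic point are independent -/
theorem gen_any_pair (k : Fl) [Countable k] (hF : ∀ i, (F i).IsHomogeneous (d i))
    (hd : ∀ a, 1 ≤ d a)
    (hind : AlgebraicIndependent k (fun m : MonA (r + 3) d => coeff m.1.2 (F m.1.1)))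
    {z : Fin (r + 3) → ℂ} (hz : z ≠ 0) {i j l : Fin (r + 3)} (hij : j ≠ i) (hil : l ≠ i)
    (hjl : j ≠ l) (hzi : z i = 1)
    (h : (Projectivization.mk ℂ z hz : PN (r + 3)) ∈ Gen (cof k F) F) :
    AlgebraicIndependent (cof k F) ![z j, z l] := by
  have hfam := gen_fam k hF hind hz hzi h
  have hj := gen_jac k hF hd hij hil hjl hzi ((mem_surf_mk hF hz).1 h.1) hfam
  set a : MonA (r + 3) d → ℂ := fun m => coeff m.1.2 (F m.1.1) with ha
  have h1 : AlgebraicIndependent k (Sum.elim a ![z j, z l]) := by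
    refine ai_card hfam ?_ ?_
    · rw [Nat.card_sum, Nat.card_sum, Nat.card_fin]
      have h2 := card_BA d i
      have h3 := card_ne i
      omega
    · have hc : adj (cof k F) {z j, z l} ≤ adj k (Set.range (Sum.elim a ![z j, z l])) := by
        refine adj_le ?_ ?_
        · rw [cof_eq_monA k hF]
          refine adj_le (le_adj _ _) ?_
          rintro _ ⟨m, rfl⟩
          exact subset_adj _ _ ⟨Sum.inl m, rfl⟩
        · rintro _ (rfl | rfl)
          · exact subset_adj _ _ ⟨Sum.inr 0, rfl⟩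
          · exact subset_adj _ _ ⟨Sum.inr 1, rfl⟩
      rintro (m | m)
      · exact le_clo _ (subset_adj _ _ ⟨Sum.inl m.1, rfl⟩)
      · exact clo_mono hc (hj m)
  have h2 := (ai_sum.1 h1).2
  rwa [← cof_eq_monA k hF] at h2

/-- generic points, by a given pair of coordinates -/
theorem gen_pair_iff (k : Fl) [Countable k] (hF : ∀ i, (F i).IsHomogeneous (d i))
    (hd : ∀ a, 1 ≤ d a)
    (hind : AlgebraicIndependent k (fun m : MonA (r + 3) d => coeff m.1.2 (F m.1.1)))
    {L : Fl} (hL : cof k F ≤ L)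
    {z : Fin (r + 3) → ℂ} (hz : z ≠ 0) {i j l : Fin (r + 3)} (hij : j ≠ i) (hil : l ≠ i)
    (hjl : j ≠ l) (hzi : z i = 1) (hz0 : ∀ a, aeval z (F a) = 0) :
    (Projectivization.mk ℂ z hz : PN (r + 3)) ∈ Gen L F ↔
      AlgebraicIndependent L ![z j, z l] := by
  constructor
  · intro h
    have h1 := gen_any_pair k hF hd hind hz hij hil hjl hzi (Gen_anti hL F h)
    obtain ⟨a, b, hab⟩ := gen_coord hF hz hzi h
    refine ai_card hab le_rfl ?_
    have h2 : ∀ m, z m ∈ clo (adj L (Set.range ![z j, z l])) := by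
      intro m
      have h3 := alg_pair k hF hind le_rfl hzi hz0 (le_clo _ (subset_adj _ _ ⟨j, rfl⟩))
        (le_clo _ (subset_adj _ _ ⟨l, rfl⟩)) h1 (w := z m) (le_clo _ (subset_adj _ _ ⟨m, rfl⟩))
      refine clo_mono (adj_le (hL.trans (le_adj _ _)) ?_) h3
      rintro _ (rfl | rfl)
      · exact subset_adj _ _ ⟨0, rfl⟩
      · exact subset_adj _ _ ⟨1, rfl⟩
    intro s
    fin_cases s
    · exact h2 a
    · exact h2 b
  · exact fun h => gen_mk hF hz hzi hz0 h

/-! ### existence of generic points -/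

theorem exists_fam (k : Fl) [Countable k] (ι : Type) [Finite ι] :
    ∃ y : ι → ℂ, AlgebraicIndependent k y := by
  have : Fintype ι := Fintype.ofFinite ι
  obtain ⟨x, hx⟩ := exists_algInd k (Fintype.card ι)
  exact ⟨x ∘ Fintype.equivFin ι, hx.comp _ (Equiv.injective _)⟩

theorem exists_gen_cof (k : Fl) [Countable k] (hF : ∀ i, (F i).IsHomogeneous (d i))
    (hd : ∀ a, 1 ≤ d a)
    (hind : AlgebraicIndependent k (fun m : MonA (r + 3) d => coeff m.1.2 (F m.1.1))) :
    ∃ p : PN (r + 3), p ∈ Gen (cof k F) F := by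
  classical
  have : Fintype (MonA (r + 3) d) := Fintype.ofFinite _
  let i : Fin (r + 3) := ⟨0, by omega⟩
  let j : Fin (r + 3) := ⟨1, by omega⟩
  let l : Fin (r + 3) := ⟨2, by omega⟩
  have hij : j ≠ i := by
    intro h
    have := congrArg Fin.val h
    simp [i, j] at this
  have hil : l ≠ i := by
    intro h
    have := congrArg Fin.val h
    simp [i, l] at this
  have hjl : j ≠ l := by
    intro h
    have := congrArg Fin.val h
    simp [j, l] at this
  obtain ⟨y, hy⟩ := exists_fam k (BA (r + 3) d i ⊕ {m : Fin (r + 3) // m ≠ i})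
  obtain ⟨z, hzi, hzy⟩ : ∃ z : Fin (r + 3) → ℂ, z i = 1 ∧
      ∀ m : {m : Fin (r + 3) // m ≠ i}, z m = y (Sum.inr m) :=
    ⟨fun m => if h : m = i then 1 else y (Sum.inr ⟨m, h⟩), dif_pos rfl, fun m => dif_neg m.2⟩
  obtain ⟨α, hα, hαy⟩ : ∃ α : MonA (r + 3) d → ℂ,
      (∀ a, α ⟨(a, Finsupp.single i (d a)), Finsupp.degree_single _ _⟩ =
        -∑ m : BA (r + 3) d i, if m.1.1.1 = a then
          y (Sum.inl m) * aeval z (monomial m.1.1.2 (1 : ℂ)) else 0) ∧
      ∀ m : BA (r + 3) d i, α m.1 = y (Sum.inl m) :=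
    ⟨fun m => if h : m.1.2 = Finsupp.single i (d m.1.1) then
        -∑ m' : BA (r + 3) d i, (if m'.1.1.1 = m.1.1 then
          y (Sum.inl m') * aeval z (monomial m'.1.1.2 (1 : ℂ)) else 0)
      else y (Sum.inl ⟨m, h⟩), fun a => dif_pos rfl, fun m => dif_neg m.2⟩
  obtain ⟨G, hG⟩ : ∃ G : Fin r → MvPolynomial (Fin (r + 3)) ℂ, ∀ a, G a =
      ∑ m : MonA (r + 3) d, if m.1.1 = a then monomial m.1.2 (α m) else 0 := ⟨_, fun _ => rfl⟩
  have hGh : ∀ a, (G a).IsHomogeneous (d a) := by
    intro a
    rw [hG]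
    refine IsHomogeneous.sum _ _ _ fun m _ => ?_
    split_ifs with h
    · rw [← h]
      exact isHomogeneous_monomial _ m.2
    · exact isHomogeneous_zero _ _ _
  have hGc : ∀ m : MonA (r + 3) d, coeff m.1.2 (G m.1.1) = α m := by
    intro m
    rw [hG, coeff_sum]
    refine (Finset.sum_eq_single m ?_ ?_).trans ?_
    · intro m' _ hm
      split_ifs with h1
      · rw [coeff_monomial, if_neg]
        intro h2
        apply hm
        apply Subtype.ext
        exact Prod.ext h1 h2
      · rw [coeff_zero]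
    · intro h1
      exact absurd (Finset.mem_univ m) h1
    · rw [if_pos rfl, coeff_monomial, if_pos rfl]
  have hG0 : ∀ a, aeval z (G a) = 0 := by
    intro a
    set f : MonA (r + 3) d → ℂ := fun m => if m.1.1 = a then
      α m * aeval z (monomial m.1.2 (1 : ℂ)) else 0 with hf
    have h1 : aeval z (G a) = ∑ m, f m := by
      rw [hG, map_sum]
      refine Finset.sum_congr rfl fun m _ => ?_
      rw [hf]
      beta_reduce
      split_ifs
      · rw [aeval_monomial, aeval_monomial, map_one, one_mul]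
        rfl
      · rw [map_zero]
    rw [h1, ← Fintype.sum_subtype_add_sum_subtype
      (fun m : MonA (r + 3) d => m.1.2 = Finsupp.single i (d m.1.1)) f]
    have h2 : ∑ m : {m : MonA (r + 3) d // m.1.2 = Finsupp.single i (d m.1.1)}, f m.1 =
        α ⟨(a, Finsupp.single i (d a)), Finsupp.degree_single _ _⟩ := by
      refine (Finset.sum_eq_single (⟨⟨(a, Finsupp.single i (d a)), Finsupp.degree_single _ _⟩,
        rfl⟩ : {m : MonA (r + 3) d // m.1.2 = Finsupp.single i (d m.1.1)}) ?_ ?_).trans ?_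
      · intro m _ hm
        rw [hf]
        beta_reduce
        rw [if_neg]
        intro h3
        apply hm
        apply Subtype.ext
        apply Subtype.ext
        refine Prod.ext h3 ?_
        rw [m.2, h3]
      · intro h3
        exact absurd (Finset.mem_univ _) h3
      · rw [hf]
        beta_reduce
        rw [if_pos rfl, aeval_pow_single hzi, mul_one]
    have h3 : ∑ m : BA (r + 3) d i, f m.1 = ∑ m : BA (r + 3) d i, if m.1.1.1 = a then
          y (Sum.inl m) * aeval z (monomial m.1.1.2 (1 : ℂ)) else 0 := by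
      refine Finset.sum_congr rfl fun m _ => ?_
      rw [hf]
      beta_reduce
      rw [hαy]
    rw [h2, hα]
    refine (congrArg (fun t => -(∑ m : BA (r + 3) d i, if m.1.1.1 = a then
          y (Sum.inl m) * aeval z (monomial m.1.1.2 (1 : ℂ)) else 0) + t) h3).trans ?_
    exact neg_add_cancel _
  have hfam : (Sum.elim (aB (d := d) G i) fun m : {m // m ≠ i} => z m) = y := by
    funext s
    rcases s with m | m
    · change coeff m.1.1.2 (G m.1.1.1) = _
      rw [hGc, hαy]
    · exact hzy m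
  have hjac := gen_jac k hGh hd hij hil hjl hzi hG0 (by rw [hfam]; exact hy)
  have hcG := cof_eq_monA k hGh
  have h1 : AlgebraicIndependent k (Sum.elim α ![z j, z l]) := by
    refine ai_card hy ?_ ?_
    · rw [Nat.card_sum, Nat.card_sum, Nat.card_fin]
      have h2 := card_BA d i
      have h3 := card_ne i
      omega
    · have hc : adj (cof k G) {z j, z l} ≤ adj k (Set.range (Sum.elim α ![z j, z l])) := by
        refine adj_le ?_ ?_
        · rw [hcG]
          refine adj_le (le_adj _ _) ?_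
          rintro _ ⟨m, rfl⟩
          beta_reduce
          rw [hGc]
          exact subset_adj _ _ ⟨Sum.inl m, rfl⟩
        · rintro _ (rfl | rfl)
          · exact subset_adj _ _ ⟨Sum.inr 0, rfl⟩
          · exact subset_adj _ _ ⟨Sum.inr 1, rfl⟩
      rintro (m | m)
      · rw [← hαy]
        exact le_clo _ (subset_adj _ _ ⟨Sum.inl m.1, rfl⟩)
      · rw [← hzy]
        exact clo_mono hc (hjac m)
  obtain ⟨hα1, hα2⟩ := ai_sum.1 h1
  obtain ⟨σ, hσ, hσα⟩ := fs_exists_fix_ai k hα1 hind
  have hmap : ∀ a, MvPolynomial.map (σ : ℂ →+* ℂ) (G a) = F a := by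
    intro a
    ext t
    rw [coeff_map]
    by_cases h : t.degree = d a
    · exact (congrArg σ (hGc ⟨(a, t), h⟩)).trans (hσα ⟨(a, t), h⟩)
    · rw [(hGh a).coeff_eq_zero h, (hF a).coeff_eq_zero h, map_zero]
  have hw : (fun m => σ (z m)) ≠ 0 := by
    intro h
    have h2 := congrFun h i
    beta_reduce at h2
    rw [hzi, map_one] at h2
    exact one_ne_zero h2
  refine ⟨Projectivization.mk ℂ (fun m => σ (z m)) hw, gen_mk hF hw (i := i) (j := j) (l := l)
    (by rw [hzi, map_one]) (fun a => ?_) ?_⟩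
  · rw [← hmap a, aeval_map_act, hG0, map_zero]
  · have h2 := ai_transport (σ := σ) (L' := cof k F) (fun x hx => ?_) hα2
    · have h3 : (fun s => σ (![z j, z l] s)) = ![σ (z j), σ (z l)] := by
        funext s
        fin_cases s <;> rfl
      rwa [h3] at h2
    · rw [cof_eq_monA k hF] at hx
      refine adj_map (L := k) (L' := k) (σ := σ.symm) (fun x hx => ?_) ?_ x hx
      · have h2 : σ.symm x = x := by rw [RingEquiv.symm_apply_eq, hσ x hx]
        rw [h2]
        exact hx
      · rintro _ ⟨m, rfl⟩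
        beta_reduce
        rw [← hσα m, RingEquiv.symm_apply_apply]
        exact subset_adj _ _ ⟨m, rfl⟩

/-- existence of generic points -/
theorem exists_gen_of_cof_le (k : Fl) [Countable k] (hF : ∀ i, (F i).IsHomogeneous (d i))
    (hd : ∀ a, 1 ≤ d a)
    (hind : AlgebraicIndependent k (fun m : MonA (r + 3) d => coeff m.1.2 (F m.1.1)))
    {L : Fl} [Countable L] (hL : cof k F ≤ L) : ∃ p : PN (r + 3), p ∈ Gen L F := by
  obtain ⟨p, hp⟩ := exists_gen_cof k hF hd hind
  obtain ⟨τ, -, h⟩ := exists_move_gen (cof k F) hF (coef_cof k F) hp (clo L) (clo_mono hL)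
  rw [gen_clo] at h
  exact ⟨_, h⟩

end

end Pool.Agent.VCI
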