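import Pool.Agent.VCI.EffDefs
import Pool.Agent.VCI.Gen
import Pool.Agent.VCI.Chow

/-! Module Eff: the points of an effective correspondence over a generic point. -/

set_option autoImplicit false

open scoped LinearAlgebra.Projectivization
open MvPolynomial

namespace Pool.Agent.VCI

open Pool.Agent.Chow0 (IsChowForm)
open Pool.Agent.VGS

variable {r : ℕ} {Ω : Type} [Field Ω] [Algebra ℂ Ω] {F : Fin r → MvPolynomial (Fin (r + 3)) ℂ}
  {d : Fin r → ℕ}

/-- the cycle of the correspondence is determined by the Chow form -/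
theorem effT_eq {ξ : Fin (r + 3) → Ω} {w : ℕ} (Γ : EffCorr F ξ w) {p : PN (r + 3)}
    {s : Multiset (ciS F)} (hs : IsChowForm (ciS F) (Γ.at p.rep) s) :
    effT Γ p = cycQ (s.map Subtype.val) := by
  have h : ∃ s : Multiset (ciS F), IsChowForm (ciS F) (Γ.at p.rep) s := ⟨s, hs⟩
  unfold effT
  rw [dif_pos h]
  congr 1
  have h1 : IsCh (Γ.at p.rep) (h.choose.map Subtype.val) := h.choose_spec
  have h2 : IsCh (Γ.at p.rep) (s.map Subtype.val) := hs
  exact h1.unique h2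

theorem eff_mem_support_cycQ {n : ℕ} {s : Multiset (PN n)} {q : PN n} (hq : q ∈ (cycQ s).support) :
    q ∈ s := by
  classical
  rw [Finsupp.mem_support_iff, cycQ_apply] at hq
  by_contra h
  apply hq
  rw [Multiset.count_eq_zero_of_notMem h, Nat.cast_zero]

/-- the Chow form over a multiple of a vector -/
theorem at_smul {ξ : Fin (r + 3) → Ω} {w : ℕ} (Γ : EffCorr F ξ w) {a : ℂ}
    {x y : Fin (r + 3) → ℂ} (h : ∀ i, y i = a * x i) : Γ.at y = C (a ^ Γ.e) * Γ.at x := by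
  apply MvPolynomial.ext
  intro m
  rw [coeff_C_mul]
  unfold EffCorr.at
  rw [coeff_map, coeff_map]
  have h1 := aeval_scale (Γ.hom m) h
  rw [aeval_eq_eval, aeval_eq_eval] at h1
  exact h1

/-- the Chow form over the conjugate vector -/
theorem at_fix {L : Fl} {ξ : Fin (r + 3) → Ω} {w : ℕ} (Γ : EffCorr F ξ w) (hΓ : CoefE L Γ)
    {σ : ℂ ≃+* ℂ} (hσ : σ ∈ VGS.Fix L) (x : Fin (r + 3) → ℂ) :
    Γ.at (fun i => σ (x i)) = map (σ : ℂ →+* ℂ) (Γ.at x) := by
  apply MvPolynomial.ext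
  intro m
  unfold EffCorr.at
  rw [coeff_map, coeff_map, coeff_map]
  have h1 := aeval_fix (hΓ m) hσ x
  rw [aeval_eq_eval, aeval_eq_eval] at h1
  exact h1

/-- the Chow form over the conjugate point -/
theorem at_act {L : Fl} {ξ : Fin (r + 3) → Ω} {w : ℕ} (Γ : EffCorr F ξ w) (hΓ : CoefE L Γ)
    {σ : ℂ ≃+* ℂ} (hσ : σ ∈ VGS.Fix L) (p : PN (r + 3)) : ∃ a : ℂ, a ≠ 0 ∧
    Γ.at (act σ p).rep = C a * map (σ : ℂ →+* ℂ) (Γ.at p.rep) := by
  obtain ⟨a, ha⟩ := Projectivization.exists_smul_eq_mk_rep ℂ (fun i => σ (p.rep i))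
    (map_ne_zero' σ p.rep_nonzero)
  refine ⟨(a : ℂ) ^ Γ.e, pow_ne_zero _ a.ne_zero, ?_⟩
  rw [← at_fix Γ hΓ hσ]
  apply at_smul
  intro i
  change (Projectivization.mk ℂ (fun i => σ (p.rep i)) (map_ne_zero' σ p.rep_nonzero)).rep i = _
  rw [← ha]
  rfl

/-- if the Chow form splits at the generic points, the cycles are on the surface and the map is
equivariant -/
theorem effT_of_chow (hF : ∀ i, (F i).IsHomogeneous (d i)) {ξ : Fin (r + 3) → Ω} {K K' : Fl}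
    (hFK : ∀ i, Coef K (F i)) (hKK' : K ≤ K') {w : ℕ} (Γ : EffCorr F ξ w) (hΓ : CoefE K' Γ)
    (key : ∀ p ∈ Gen K F, ∃ s : Multiset (ciS F), IsChowForm (ciS F) (Γ.at p.rep) s) :
    (∀ p ∈ Gen K F, ∀ q ∈ (effT Γ p).support, q ∈ ciS F) ∧
      ∀ σ ∈ VGS.Fix K', ∀ p ∈ Gen K F, effT Γ (act σ p) = actC σ (effT Γ p) := by
  refine ⟨?_, ?_⟩
  · intro p hp q hq
    obtain ⟨s, hs⟩ := key p hp
    rw [effT_eq Γ hs] at hq
    obtain ⟨q', -, rfl⟩ := Multiset.mem_map.1 (eff_mem_support_cycQ hq)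
    exact q'.2
  · intro σ hσ p hp
    obtain ⟨s, hs⟩ := key p hp
    obtain ⟨s', hs'⟩ := key (act σ p) ((act_mem_Gen hF hFK (Fix_mono hKK' hσ)).2 hp)
    rw [effT_eq Γ hs, effT_eq Γ hs', actC_cycQ]
    congr 1
    obtain ⟨a, ha, h1⟩ := at_act Γ hΓ hσ p
    have h2 : IsCh (Γ.at p.rep) (s.map Subtype.val) := hs
    have h3 : IsCh (Γ.at (act σ p).rep) (s'.map Subtype.val) := hs'
    have h4 := (h2.map σ).C_mul ha
    rw [← h1] at h4
    exact h3.unique h4

end Pool.Agent.VCI
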