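import Pool.Agent.VCI.Rho

/-! Module EffA: embedding of the algebraic closure of `κ(ξ)` into `ℂ`. -/

set_option autoImplicit false

open scoped LinearAlgebra.Projectivization
open MvPolynomial

namespace Pool.Agent.VCI

open Pool.Agent.VGS

variable {r : ℕ} {Ω : Type} [Field Ω] [Algebra ℂ Ω] [IsAlgClosed Ω]
  {F : Fin r → MvPolynomial (Fin (r + 3)) ℂ} {d : Fin r → ℕ}

/-- An isomorphism of `Ω` with `ℂ`, over `κ`, which maps `ξ` to `z`. -/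
theorem exists_iso (hF : ∀ i, (F i).IsHomogeneous (d i)) {ξ : Fin (r + 3) → Ω}
    (hξ : IsGenericPoint F ξ) (κ : Fl) [Countable κ] (hFκ : ∀ i, Coef κ (F i))
    (hc : ∀ p ∈ Gen κ F, ∀ q ∈ Gen κ F, ∃ σ ∈ VGS.Fix κ, act σ p = q)
    {z : Fin (r + 3) → ℂ} (hz : z ≠ 0) (hz0 : z 0 = 1)
    (hp : Projectivization.mk ℂ z hz ∈ Gen κ F) :
    ∃ E : Ω ≃+* ℂ, (∀ c ∈ κ, E (algebraMap ℂ Ω c) = c) ∧ ∀ j, E (ξ j) = z j := by
  obtain ⟨ρ, h1, h2⟩ := exists_rho hF hξ κ hFκ hc hz hz0 hp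
  refine ⟨ρ.symm, fun c hc => ?_, fun j => ?_⟩
  · rw [← h1 c hc, RingEquiv.symm_apply_apply]
  · rw [← h2 j, RingEquiv.symm_apply_apply]

/-- An embedding of the algebraic closure of `κ(ξ)` into `ℂ`, over `κ`, which maps `ξ` to `z`, the
normalised coordinates of a generic point. -/
theorem exists_emb (hF : ∀ i, (F i).IsHomogeneous (d i)) {ξ : Fin (r + 3) → Ω}
    (hξ : IsGenericPoint F ξ) (κ : Fl) [Countable κ] (hFκ : ∀ i, Coef κ (F i))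
    (hc : ∀ p ∈ Gen κ F, ∀ q ∈ Gen κ F, ∃ σ ∈ VGS.Fix κ, act σ p = q)
    {z : Fin (r + 3) → ℂ} (hz : z ≠ 0) (hz0 : z 0 = 1)
    (hp : Projectivization.mk ℂ z hz ∈ Gen κ F) :
    ∃ ι : cloΩ κ ξ →+* ℂ, (∀ c ∈ κ, ∀ h, ι ⟨algebraMap ℂ Ω c, h⟩ = c) ∧
      ∀ j h, ι ⟨ξ j, h⟩ = z j := by
  obtain ⟨ρ, h1, h2⟩ := exists_rho hF hξ κ hFκ hc hz hz0 hp
  refine ⟨(ρ.symm : Ω →+* ℂ).comp (cloΩ κ ξ).subtype, fun c hc h => ?_, fun j h => ?_⟩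
  · change ρ.symm (algebraMap ℂ Ω c) = c
    rw [← h1 c hc, RingEquiv.symm_apply_apply]
  · change ρ.symm (ξ j) = z j
    rw [← h2 j, RingEquiv.symm_apply_apply]

end Pool.Agent.VCI
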