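import Pool.Agent.VCI.Eff
import Pool.Agent.VCI.EffA
import Pool.Agent.VCI.EffB

/-! Module Eff2: the map of an effective correspondence. -/

set_option autoImplicit false

open scoped LinearAlgebra.Projectivization
open MvPolynomial

namespace Pool.Agent.VCI

open Pool.Agent.Chow0 (IsChowForm)
open Pool.Agent.VGS

variable {r : ℕ} {Ω : Type} [Field Ω] [Algebra ℂ Ω] {F : Fin r → MvPolynomial (Fin (r + 3)) ℂ}
  {d : Fin r → ℕ}

/-- over a generic point the Chow form of an effective correspondence splits into points -/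
theorem effT_chow [IsAlgClosed Ω] (hF : ∀ i, (F i).IsHomogeneous (d i)) {ξ : Fin (r + 3) → Ω}
    (hξ : IsGenericPoint F ξ) (K K' : Fl) [Countable K] (hFK : ∀ i, Coef K (F i))
    (hK' : K' ≤ clo K)
    (hc : ∀ p ∈ Gen (clo K) F, ∀ q ∈ Gen (clo K) F, ∃ σ ∈ VGS.Fix (clo K), act σ p = q)
    {w : ℕ} (Γ : EffCorr F ξ w) (hΓ : CoefE K' Γ) :
    ∀ p ∈ Gen K F, ∃ s : Multiset (ciS F), IsChowForm (ciS F) (Γ.at p.rep) s := by
  have hFκ : ∀ i, Coef (clo K) (F i) := fun i => (hFK i).mono (le_clo K)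
  have hΓκ : CoefE (clo K) Γ := fun m => (hΓ m).mono hK'
  intro p hp
  have hp1 : p ∈ Gen (clo K) F := by
    rw [gen_clo]
    exact hp
  obtain ⟨z, hz, hz0, hpz, -⟩ := exists_rho' hF hξ (clo K) hFκ hc hp1
  have hp' : Projectivization.mk ℂ z hz ∈ Gen (clo K) F := by
    rw [← hpz]
    exact hp1
  obtain ⟨ι, hι, hιξ⟩ := exists_emb hF hξ (clo K) hFκ hc hz hz0 hp'
  obtain ⟨t, x, ht, hx, hx1, hs, hch⟩ :=
    eff_pts hF hξ (clo K) (clo_clo K) hFκ Γ hΓκ hz ι hι hιξ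
  rw [← hpz] at hch
  exact ⟨_, hch⟩

/-- The map of an effective correspondence: it has a Chow form at the generic points, its values
are cycles of the surface, and it is equivariant. -/
theorem effT_isT2 [IsAlgClosed Ω] (hF : ∀ i, (F i).IsHomogeneous (d i)) {ξ : Fin (r + 3) → Ω}
    (hξ : IsGenericPoint F ξ) (K K' : Fl) [Countable K] (hFK : ∀ i, Coef K (F i)) (hKK' : K ≤ K')
    (hK' : K' ≤ clo K)
    (hc : ∀ p ∈ Gen (clo K) F, ∀ q ∈ Gen (clo K) F, ∃ σ ∈ VGS.Fix (clo K), act σ p = q)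
    {w : ℕ} (Γ : EffCorr F ξ w) (hΓ : CoefE K' Γ) :
    (∀ p ∈ Gen K F, ∃ s : Multiset (ciS F), IsChowForm (ciS F) (Γ.at p.rep) s) ∧
      (∀ p ∈ Gen K F, ∀ q ∈ (effT Γ p).support, q ∈ ciS F) ∧
      ∀ σ ∈ VGS.Fix K', ∀ p ∈ Gen K F, effT Γ (act σ p) = actC σ (effT Γ p) := by
  have key := effT_chow hF hξ K K' hFK hK' hc Γ hΓ
  obtain ⟨h1, h2⟩ := effT_of_chow hF hFK hKK' Γ hΓ key
  exact ⟨key, h1, h2⟩

end Pool.Agent.VCI
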