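import Mathlib
import Pool.Agent.VCI.Defs

/-!
# Correspondences on complete intersection surfaces: definitions
-/

set_option autoImplicit false

open scoped LinearAlgebra.Projectivization
open MvPolynomial

namespace Pool.Agent.VCI

open Pool.Agent.Chow0 (IsChowForm cyc CH0 Z0)

variable {n r : ℕ} {Ω : Type} [Field Ω] [Algebra ℂ Ω]

/-- The differential of `F` at `z` in the direction `v`. -/
noncomputable def dF (F : MvPolynomial (Fin n) ℂ) (z v : Fin n → Ω) : Ω :=
  ∑ i, v i * aeval z (pderiv i F)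

/-- The linear form `∑ z_j λ_j`. -/
noncomputable def linF (z : Fin n → Ω) : MvPolynomial (Fin n) Ω :=
  ∑ j, C (z j) * X j

/-- `ξ` is a generic point (over an algebraic closure `Ω` of the function field) of the surface
`F = 0`. -/
structure IsGenericPoint (F : Fin r → MvPolynomial (Fin (r + 3)) ℂ) (ξ : Fin (r + 3) → Ω) :
    Prop where
  one : ξ 0 = 1
  zero : ∀ i, aeval ξ (F i) = 0
  gen : ∃ i j, AlgebraicIndependent ℂ ![ξ i, ξ j]
  alg : Algebra.IsAlgebraic (IntermediateField.adjoin ℂ (Set.range ξ)) Ω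

/-- `J` is the value at the point `z` of the surface `F = 0` of the 2-form `Res (Ω / (F₁ ⋯ F_r))`
on the pair of derivations `D₁, D₂`. -/
def IsRes (F : Fin r → MvPolynomial (Fin (r + 3)) ℂ) (D₁ D₂ : Derivation ℂ Ω Ω)
    (z : Fin (r + 3) → Ω) (J : Ω) : Prop :=
  ∀ v : Fin r → Fin (r + 3) → Ω,
    (Matrix.of (Fin.append v ![z, fun i => D₁ (z i), fun i => D₂ (z i)])).det =
      J * (Matrix.of fun i j => dF (F i) z (v j)).det

/-- An effective correspondence of degree `w` from the surface `F = 0` to itself: an effective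
zero-cycle of degree `w` of the generic fibre of the first projection, given by its Chow form. -/
structure EffCorr (F : Fin r → MvPolynomial (Fin (r + 3)) ℂ) (ξ : Fin (r + 3) → Ω) (w : ℕ) where
  /-- the Chow form; the coefficients are forms in `x`, the variables are the `λ_j` -/
  Φ : MvPolynomial (Fin (r + 3)) (MvPolynomial (Fin (r + 3)) ℂ)
  /-- the degree in `x` -/
  e : ℕ
  hom : ∀ m, (coeff m Φ).IsHomogeneous e
  /-- the points of the cycle over the generic point -/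
  pts : Fin w → Fin (r + 3) → Ω
  pts_ne : ∀ i, pts i ≠ 0
  pts_mem : ∀ i j, aeval (pts i) (F j) = 0
  /-- the constant factor -/
  c : Ω
  c_ne : c ≠ 0
  fac : map (aeval ξ : MvPolynomial (Fin (r + 3)) ℂ →ₐ[ℂ] Ω).toRingHom Φ = C c * ∏ i, linF (pts i)

/-- The Chow form of the cycle of the correspondence over the point `x`. -/
noncomputable def EffCorr.at {F : Fin r → MvPolynomial (Fin (r + 3)) ℂ} {ξ : Fin (r + 3) → Ω}
    {w : ℕ} (Γ : EffCorr F ξ w) (x : Fin (r + 3) → ℂ) : MvPolynomial (Fin (r + 3)) ℂ :=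
  map (eval x) Γ.Φ

/-- The correspondence `Γ⁺ - Γ⁻` acts on the 2-forms `Res (f Ω / (F₁ ⋯ F_r))`, `deg f = e`, by the
scalar `m`. -/
def ActsByScalar (F : Fin r → MvPolynomial (Fin (r + 3)) ℂ) (e : ℕ) {ξ : Fin (r + 3) → Ω}
    {w w' : ℕ} (Γ : EffCorr F ξ w) (Γ' : EffCorr F ξ w') (m : ℂ) : Prop :=
  ∀ (D₁ D₂ : Derivation ℂ Ω Ω) (f : MvPolynomial (Fin (r + 3)) ℂ), f.IsHomogeneous e →
    ∀ (J : Fin w → Ω) (J' : Fin w' → Ω) (J₀ : Ω), (∀ i, IsRes F D₁ D₂ (Γ.pts i) (J i)) →
      (∀ i, IsRes F D₁ D₂ (Γ'.pts i) (J' i)) → IsRes F D₁ D₂ ξ J₀ →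
      ∑ i, aeval (Γ.pts i) f * J i - ∑ i, aeval (Γ'.pts i) f * J' i =
        algebraMap ℂ Ω m * (aeval ξ f * J₀)

/-- The points of the surface which are on none of the hypersurfaces `D j = 0`. -/
def veryGen (F : Fin r → MvPolynomial (Fin n) ℂ) (D : ℕ → MvPolynomial (Fin n) ℂ) : Set (ciS F) :=
  {p | ∀ j, aeval p.1.rep (D j) ≠ 0}

/-- `φ` is an endomorphism of the Chow group which maps the classes of the points `p` of `V` to
`b (Γ_p - Γ'_p) - a p`. -/
def ActsOnCH {F : Fin r → MvPolynomial (Fin (r + 3)) ℂ} {ξ : Fin (r + 3) → Ω} {w w' : ℕ}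
    (Γ : EffCorr F ξ w) (Γ' : EffCorr F ξ w') (V : Set (ciS F)) (a b : ℤ)
    (φ : AddMonoid.End (CH0 (ciS F))) : Prop :=
  ∀ p ∈ V, ∀ s s' : Multiset (ciS F), IsChowForm (ciS F) (Γ.at p.1.rep) s →
    IsChowForm (ciS F) (Γ'.at p.1.rep) s' →
      φ (QuotientAddGroup.mk (FreeAbelianGroup.of p)) =
        b • (QuotientAddGroup.mk (cyc s) - QuotientAddGroup.mk (cyc s')) -
          a • QuotientAddGroup.mk (FreeAbelianGroup.of p)

/-! ### auxiliary definitions for the proof -/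

open Classical in
/-- The cycle of the correspondence over the point `p`. -/
noncomputable def effT {F : Fin r → MvPolynomial (Fin (r + 3)) ℂ} {ξ : Fin (r + 3) → Ω} {w : ℕ}
    (Γ : EffCorr F ξ w) (p : PN (r + 3)) : Cy (r + 3) :=
  if h : ∃ s : Multiset (ciS F), IsChowForm (ciS F) (Γ.at p.rep) s then
    cycQ (h.choose.map Subtype.val) else 0

/-- The correspondence has coefficients in `L`. -/
def CoefE (L : VGS.Fl) {F : Fin r → MvPolynomial (Fin (r + 3)) ℂ} {ξ : Fin (r + 3) → Ω} {w : ℕ}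
    (Γ : EffCorr F ξ w) : Prop := ∀ m, VGS.Coef L (coeff m Γ.Φ)

/-- The subfield of `Ω` of the elements which are algebraic over `κ(ξ)`. -/
noncomputable def cloΩ (κ : VGS.Fl) (ξ : Fin n → Ω) : Subfield Ω :=
  (algebraicClosure (Subfield.closure ((algebraMap ℂ Ω) '' (κ : Set ℂ) ∪ Set.range ξ)) Ω).toSubfield

end Pool.Agent.VCI
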