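import Pool.Agent.VCI.EffDefs
import Pool.Agent.VCI.Conj

/-! Module Rho: the algebraic closure of the function field of a complete intersection surface is
isomorphic to `ℂ`, over a countable field and with a given generic point. -/

set_option autoImplicit false

open scoped LinearAlgebra.Projectivization
open MvPolynomial

namespace Pool.Agent.VCI

open Pool.Agent.VGS

variable {r : ℕ} {K : Type} [Field K] [Algebra ℂ K]

theorem card_generic [IsAlgClosed K] {F : Fin r → MvPolynomial (Fin (r + 3)) ℂ}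
    {ξ : Fin (r + 3) → K} (hξ : IsGenericPoint F ξ) : Cardinal.mk K = Cardinal.mk ℂ := by
  have h0 : Cardinal.aleph0 ≤ Cardinal.mk ℂ := aleph0_lt_complex.le
  apply le_antisymm
  · have := hξ.alg
    have h1 := Algebra.IsAlgebraic.cardinalMk_le_max
      (IntermediateField.adjoin ℂ (Set.range ξ)) K
    have h2 := IntermediateField.cardinalMk_adjoin_le ℂ (Set.range ξ)
    have h3 : Cardinal.mk (Set.range ξ) ≤ Cardinal.aleph0 := Cardinal.mk_le_aleph0
    refine h1.trans (max_le (h2.trans (max_le (max_le le_rfl (h3.trans h0)) h0)) h0)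
  · exact Cardinal.mk_le_of_injective (algebraMap ℂ K).injective

/-- transport of a polynomial value by an isomorphism -/
theorem rho_aeval {κ : Fl} {ι : Type} {ρ : ℂ ≃+* K} (hρ : ∀ c ∈ κ, ρ c = algebraMap ℂ K c)
    {G : MvPolynomial ι ℂ} (hG : Coef κ G) (z : ι → ℂ) :
    ρ (aeval z G) = aeval (fun i => ρ (z i)) G := by
  rw [aeval_def, aeval_def, eval₂_eq, eval₂_eq, map_sum]
  refine Finset.sum_congr rfl fun m _ => ?_
  rw [map_mul, map_prod]
  congr 1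
  · exact hρ _ (hG m)
  · exact Finset.prod_congr rfl fun i _ => map_pow ρ _ _

theorem symm_aeval {κ : Fl} {ι : Type} {ρ : ℂ ≃+* K} (hρ : ∀ c ∈ κ, ρ c = algebraMap ℂ K c)
    {G : MvPolynomial ι ℂ} (hG : Coef κ G) (x : ι → K) :
    aeval (fun i => ρ.symm (x i)) G = ρ.symm (aeval x G) := by
  apply ρ.injective
  rw [rho_aeval hρ hG, ρ.apply_symm_apply]
  simp

/-- independence over `ℂ` in `K` gives independence over `κ` in `ℂ` -/
theorem symm_ai {κ : Fl} {ι : Type} {ρ : ℂ ≃+* K} (hρ : ∀ c ∈ κ, ρ c = algebraMap ℂ K c)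
    {x : ι → K} (hx : AlgebraicIndependent ℂ x) :
    AlgebraicIndependent κ (fun i => ρ.symm (x i)) := by
  rw [ai_iff]
  intro P hP h0
  rw [symm_aeval hρ hP] at h0
  have h1 : aeval x P = 0 := by
    have := congrArg ρ h0
    rwa [ρ.apply_symm_apply, map_zero] at this
  exact (algebraicIndependent_iff.1 hx) P h1

/-- `K` is isomorphic to `ℂ` over the countable field `κ`, the generic point corresponding to a
given point of the surface generic over `κ`. -/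
theorem exists_rho [IsAlgClosed K] {F : Fin r → MvPolynomial (Fin (r + 3)) ℂ} {d : Fin r → ℕ}
    (hF : ∀ i, (F i).IsHomogeneous (d i)) {ξ : Fin (r + 3) → K} (hξ : IsGenericPoint F ξ) (κ : Fl)
    [Countable κ] (hFκ : ∀ i, Coef κ (F i))
    (hc : ∀ p ∈ Gen κ F, ∀ q ∈ Gen κ F, ∃ σ ∈ VGS.Fix κ, act σ p = q)
    {z : Fin (r + 3) → ℂ} (hz : z ≠ 0) (hz0 : z 0 = 1)
    (hg : Projectivization.mk ℂ z hz ∈ Gen κ F) :
    ∃ ρ : ℂ ≃+* K, (∀ c ∈ κ, ρ c = algebraMap ℂ K c) ∧ ∀ i, ρ (z i) = ξ i := by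
  obtain ⟨ρ, hρ⟩ := @ext_gen κ ℂ K _ _ _ _
    ((algebraMap ℂ K).comp (algebraMap κ ℂ)).toAlgebra _ _ _ (algebraMap κ ℂ).injective
    ((algebraMap ℂ K).comp (algebraMap κ ℂ)).injective aleph0_lt_complex (card_generic hξ).symm
  have hρ' : ∀ c ∈ κ, ρ c = algebraMap ℂ K c := fun c hc => hρ ⟨c, hc⟩
  have h1 : ρ.symm (ξ 0) = 1 := by rw [hξ.one, map_one]
  have hne : (fun i => ρ.symm (ξ i)) ≠ 0 := by
    intro h
    have := congrFun h 0
    rw [h1] at this
    exact one_ne_zero this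
  obtain ⟨j, l, hjl⟩ := hξ.gen
  have h2 : AlgebraicIndependent κ ![ρ.symm (ξ j), ρ.symm (ξ l)] := by
    have h3 := symm_ai hρ' hjl
    convert h3 using 1
    funext i
    fin_cases i <;> rfl
  have h4 : (Projectivization.mk ℂ (fun i => ρ.symm (ξ i)) hne : PN (r + 3)) ∈ Gen κ F :=
    gen_mk hF hne h1 (fun a => by rw [symm_aeval hρ' (hFκ a), hξ.zero, map_zero]) h2
  obtain ⟨σ, hσ, hσp⟩ := hc _ hg _ h4
  rw [act_mk σ z hz (map_ne_zero' σ hz), mk_eq_mk_iff_exists] at hσp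
  obtain ⟨a, -, ha⟩ := hσp
  have ha1 : a = 1 := by
    have := ha 0
    rw [hz0, map_one, h1, mul_one] at this
    exact this.symm
  refine ⟨σ.trans ρ, fun c hc' => ?_, fun i => ?_⟩
  · change ρ (σ c) = _
    rw [hσ c hc', hρ' c hc']
  · change ρ (σ (z i)) = _
    rw [ha i, ha1, one_mul, ρ.apply_symm_apply]

/-- the normalised coordinates of a generic point, with the isomorphism -/
theorem exists_rho' [IsAlgClosed K] {F : Fin r → MvPolynomial (Fin (r + 3)) ℂ} {d : Fin r → ℕ}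
    (hF : ∀ i, (F i).IsHomogeneous (d i)) {ξ : Fin (r + 3) → K} (hξ : IsGenericPoint F ξ) (κ : Fl)
    [Countable κ] (hFκ : ∀ i, Coef κ (F i))
    (hc : ∀ p ∈ Gen κ F, ∀ q ∈ Gen κ F, ∃ σ ∈ VGS.Fix κ, act σ p = q) {y : PN (r + 3)}
    (hy : y ∈ Gen κ F) :
    ∃ (z : Fin (r + 3) → ℂ) (hz : z ≠ 0), z 0 = 1 ∧ y = Projectivization.mk ℂ z hz ∧
      ∃ ρ : ℂ ≃+* K, (∀ c ∈ κ, ρ c = algebraMap ℂ K c) ∧ ∀ i, ρ (z i) = ξ i := by
  obtain ⟨ρ, hρ⟩ := @ext_gen κ ℂ K _ _ _ _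
    ((algebraMap ℂ K).comp (algebraMap κ ℂ)).toAlgebra _ _ _ (algebraMap κ ℂ).injective
    ((algebraMap ℂ K).comp (algebraMap κ ℂ)).injective aleph0_lt_complex (card_generic hξ).symm
  have hρ' : ∀ c ∈ κ, ρ c = algebraMap ℂ K c := fun c hc => hρ ⟨c, hc⟩
  have h1 : ρ.symm (ξ 0) = 1 := by rw [hξ.one, map_one]
  have hne : (fun i => ρ.symm (ξ i)) ≠ 0 := by
    intro h
    have := congrFun h 0
    rw [h1] at this
    exact one_ne_zero this
  obtain ⟨j, l, hjl⟩ := hξ.gen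
  have h2 : AlgebraicIndependent κ ![ρ.symm (ξ j), ρ.symm (ξ l)] := by
    have h3 := symm_ai hρ' hjl
    convert h3 using 1
    funext i
    fin_cases i <;> rfl
  have h4 : (Projectivization.mk ℂ (fun i => ρ.symm (ξ i)) hne : PN (r + 3)) ∈ Gen κ F :=
    gen_mk hF hne h1 (fun a => by rw [symm_aeval hρ' (hFκ a), hξ.zero, map_zero]) h2
  obtain ⟨σ, hσ, hσp⟩ := hc _ h4 _ hy
  have hne' : (fun i => σ (ρ.symm (ξ i))) ≠ 0 := map_ne_zero' σ hne
  refine ⟨fun i => σ (ρ.symm (ξ i)), hne', ?_, ?_, (σ⁻¹).trans ρ, ?_, ?_⟩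
  · change σ (ρ.symm (ξ 0)) = 1
    rw [h1, map_one]
  · rw [← hσp, act_mk σ _ hne hne']
  · intro c hc'
    have h5 : σ⁻¹ c = c := (VGS.Fix κ).inv_mem hσ c hc'
    change ρ (σ⁻¹ c) = _
    rw [h5, hρ' c hc']
  · intro i
    change ρ (σ.symm (σ (ρ.symm (ξ i)))) = ξ i
    rw [σ.symm_apply_apply, ρ.apply_symm_apply]

end Pool.Agent.VCI
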