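import Pool.Agent.VCI.Tau
import Pool.Agent.VCI.Rho
import Pool.Agent.VGS.EffTau

/-! Complete intersections: the scalar of a correspondence is algebraic over the field of
definition. -/

set_option autoImplicit false

open scoped LinearAlgebra.Projectivization
open MvPolynomial

namespace Pool.Agent.VCI

open Pool.Agent.VGS (Fl adj clo Coef Kills)
open Pool.Agent.VGS.EffTauAux (flS)

namespace EffScAux

variable {Ω : Type} [Field Ω] [Algebra ℂ Ω] {r : ℕ}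
  {F : Fin r → MvPolynomial (Fin (r + 3)) ℂ} {d : Fin r → ℕ} {e : ℕ}

/-- the inverse transport of a derivation -/
noncomputable def cjI (ρ : ℂ ≃+* Ω) (E : Derivation ℂ Ω Ω) : Derivation ℤ ℂ ℂ :=
  Derivation.mk' ((ρ.symm : Ω →+* ℂ).toAddMonoidHom.toIntLinearMap.comp
    (((E.restrictScalars ℤ : Derivation ℤ Ω Ω) : Ω →ₗ[ℤ] Ω).comp
      (ρ : ℂ →+* Ω).toAddMonoidHom.toIntLinearMap)) (by
    intro a b
    simp)

theorem cjI_apply (ρ : ℂ ≃+* Ω) (E : Derivation ℂ Ω Ω) (x : ℂ) :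
    cjI ρ E x = ρ.symm (E (ρ x)) := rfl

theorem cjI_kills {κ : Fl} {ρ : ℂ ≃+* Ω} (hρ : ∀ c ∈ κ, ρ c = algebraMap ℂ Ω c)
    (E : Derivation ℂ Ω Ω) : Kills κ (cjI ρ E) := by
  intro c hc
  rw [cjI_apply, hρ c hc, E.map_algebraMap, map_zero]

/-- transport of the determinants -/
theorem det_dF {κ : Fl} (hFκ : ∀ i, Coef κ (F i)) {ρ : ℂ ≃+* Ω}
    (hρ : ∀ c ∈ κ, ρ c = algebraMap ℂ Ω c) (z : Fin (r + 3) → ℂ) (v : Fin r → Fin (r + 3) → ℂ) :
    ρ (Matrix.of fun i j => dFc (F i) z (v j)).det =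
      (Matrix.of fun i j => dF (F i) (fun k => ρ (z k)) (fun k => ρ (v j k))).det := by
  refine (RingHom.map_det (ρ : ℂ →+* Ω) (Matrix.of fun i j => dFc (F i) z (v j))).trans ?_
  congr 1
  ext i j
  rw [RingHom.mapMatrix_apply, Matrix.map_apply, Matrix.of_apply, Matrix.of_apply]
  change ρ (dFc (F i) z (v j)) = _
  simp only [dFc, dF, map_sum, map_mul]
  exact Finset.sum_congr rfl fun k _ => by rw [rho_aeval hρ (coef_pderiv (hFκ i) k)]

theorem isRes_iff {κ : Fl} (hFκ : ∀ i, Coef κ (F i)) {ρ : ℂ ≃+* Ω}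
    (hρ : ∀ c ∈ κ, ρ c = algebraMap ℂ Ω c) (E₁ E₂ : Derivation ℂ Ω Ω) (x : Fin (r + 3) → Ω)
    (J : Ω) : IsRes F E₁ E₂ x J ↔
      IsResC F (cjI ρ E₁) (cjI ρ E₂) (fun i => ρ.symm (x i)) (ρ.symm J) := by
  have hdet : ∀ v : Fin r → Fin (r + 3) → ℂ,
      ρ (Matrix.of (Fin.append v ![fun i => ρ.symm (x i), fun i => cjI ρ E₁ (ρ.symm (x i)),
        fun i => cjI ρ E₂ (ρ.symm (x i))])).det =
      (Matrix.of (Fin.append (fun i j => ρ (v i j)) ![x, fun i => E₁ (x i),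
        fun i => E₂ (x i)])).det := by
    intro v
    refine (TauL.map_det_append (ρ : ℂ →+* Ω) v _).trans ?_
    congr 3
    funext a k
    fin_cases a
    · exact ρ.apply_symm_apply _
    · change ρ (cjI ρ E₁ (ρ.symm (x k))) = E₁ (x k)
      rw [cjI_apply, ρ.apply_symm_apply, ρ.apply_symm_apply]
    · change ρ (cjI ρ E₂ (ρ.symm (x k))) = E₂ (x k)
      rw [cjI_apply, ρ.apply_symm_apply, ρ.apply_symm_apply]
  have hx : (fun k => ρ (ρ.symm (x k))) = x := funext fun k => ρ.apply_symm_apply _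
  constructor
  · intro h v
    apply ρ.injective
    rw [hdet, map_mul, ρ.apply_symm_apply, det_dF hFκ hρ, hx]
    exact h _
  · intro h v
    have h1 := congrArg ρ (h fun i j => ρ.symm (v i j))
    rw [hdet, map_mul, ρ.apply_symm_apply, det_dF hFκ hρ, hx] at h1
    simp only [ρ.apply_symm_apply] at h1
    exact h1

section transport

variable {κ : Fl} {ρ : ℂ ≃+* Ω}

omit [Algebra ℂ Ω] in
theorem symm_ne {x : Fin (r + 3) → Ω} (hx : x ≠ 0) : (fun i => ρ.symm (x i)) ≠ 0 := by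
  intro h
  apply hx
  funext j
  have := congrFun h j
  simpa using this

theorem symm_zero (hFκ : ∀ i, Coef κ (F i)) (hρ : ∀ c ∈ κ, ρ c = algebraMap ℂ Ω c)
    {x : Fin (r + 3) → Ω} (hx : ∀ i, aeval x (F i) = 0) (i : Fin r) :
    aeval (fun i => ρ.symm (x i)) (F i) = 0 := by
  rw [symm_aeval hρ (hFκ i), hx, map_zero]

theorem exists_isRes (hF : IsSmoothCI F d) (hFκ : ∀ i, Coef κ (F i))
    (hρ : ∀ c ∈ κ, ρ c = algebraMap ℂ Ω c) (E₁ E₂ : Derivation ℂ Ω Ω) {x : Fin (r + 3) → Ω}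
    (hx : x ≠ 0) (hxF : ∀ i, aeval x (F i) = 0) : ∃ J, IsRes F E₁ E₂ x J := by
  obtain ⟨J, hJ⟩ := exists_isResC hF hFκ (cjI_kills hρ E₁) (cjI_kills hρ E₂)
    (symm_ne (ρ := ρ) hx) (symm_zero hFκ hρ hxF)
  refine ⟨ρ J, ?_⟩
  rw [isRes_iff hFκ hρ, ρ.symm_apply_apply]
  exact hJ

/-- smoothness over `Ω` -/
theorem smooth_Ω (hF : IsSmoothCI F d) (hFκ : ∀ i, Coef κ (F i))
    (hρ : ∀ c ∈ κ, ρ c = algebraMap ℂ Ω c) {x : Fin (r + 3) → Ω}
    (hx : x ≠ 0) (hxF : ∀ i, aeval x (F i) = 0) :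
    LinearIndependent Ω (fun (i : Fin r) (j : Fin (r + 3)) => aeval x (pderiv j (F i))) := by
  have h := hF.smooth _ (symm_ne (ρ := ρ) hx) (symm_zero hFκ hρ hxF)
  rw [Fintype.linearIndependent_iff] at h ⊢
  intro g hg i
  have h1 := h (fun i => ρ.symm (g i)) (by
    funext j
    have h2 := congrArg ρ.symm (congrFun hg j)
    rw [Finset.sum_apply] at h2 ⊢
    rw [map_sum] at h2
    rw [Pi.zero_apply, map_zero] at h2
    rw [Pi.zero_apply, ← h2]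
    refine Finset.sum_congr rfl fun i _ => ?_
    rw [Pi.smul_apply, Pi.smul_apply, smul_eq_mul, smul_eq_mul, map_mul,
      symm_aeval hρ (coef_pderiv (hFκ i) j)]) i
  have h2 := congrArg ρ h1
  rwa [ρ.apply_symm_apply, map_zero] at h2

theorem isRes_smul (hF : IsSmoothCI F d) (he : e + (r + 3) = ∑ i, d i)
    (hFκ : ∀ i, Coef κ (F i)) (hρ : ∀ c ∈ κ, ρ c = algebraMap ℂ Ω c) {E₁ E₂ : Derivation ℂ Ω Ω}
    {x : Fin (r + 3) → Ω} (hx : x ≠ 0) (hxF : ∀ i, aeval x (F i) = 0) {J : Ω}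
    (h : IsRes F E₁ E₂ x J) (c : Ω) (hc : c ≠ 0) :
    IsRes F E₁ E₂ (c • x) (J * (c ^ e)⁻¹) := by
  rw [isRes_iff hFκ hρ] at h ⊢
  have h1 := h.smul hF he (symm_ne (ρ := ρ) hx) (symm_zero hFκ hρ hxF) (ρ.symm c) (by simpa using hc)
  have h2 : (fun i => ρ.symm ((c • x) i)) = ρ.symm c • fun i => ρ.symm (x i) := by
    funext i
    rw [Pi.smul_apply, Pi.smul_apply, smul_eq_mul, smul_eq_mul, map_mul]
  rw [h2, map_mul, map_inv₀, map_pow]
  exact h1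

theorem aeval_scaleΩ {G : MvPolynomial (Fin (r + 3)) ℂ} {a : ℕ} (hG : G.IsHomogeneous a)
    (c : Ω) (x : Fin (r + 3) → Ω) : aeval (c • x) G = c ^ a * aeval x G := by
  rw [aeval_def, aeval_def, eval₂_eq', eval₂_eq', Finset.mul_sum]
  refine Finset.sum_congr rfl fun t ht => ?_
  have h3 : t.degree = a := by
    by_contra h
    exact (mem_support_iff.mp ht) (hG.coeff_eq_zero h)
  have h2 : ∏ i, ((c • x) i) ^ t i = c ^ a * ∏ i, x i ^ t i := by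
    simp only [Pi.smul_apply, smul_eq_mul, mul_pow, Finset.prod_mul_distrib,
      Finset.prod_pow_eq_pow_sum]
    congr 2
    rw [← h3, Finsupp.degree_eq_sum]
  rw [h2]
  ring

/-- the scalar action with any representatives of the points -/
theorem acts_scaled (hF : IsSmoothCI F d) (he : e + (r + 3) = ∑ i, d i)
    (hFκ : ∀ i, Coef κ (F i)) (hρ : ∀ c ∈ κ, ρ c = algebraMap ℂ Ω c) {ξ : Fin (r + 3) → Ω}
    {w w' : ℕ} (Γ : EffCorr F ξ w) (Γ' : EffCorr F ξ w') {m : ℂ} (hm : ActsByScalar F e Γ Γ' m)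
    {t : Fin w → Ω} (ht : ∀ i, t i ≠ 0) {x : Fin w → Fin (r + 3) → Ω}
    (hx : ∀ i, x i = t i • Γ.pts i) {t' : Fin w' → Ω} (ht' : ∀ i, t' i ≠ 0)
    {x' : Fin w' → Fin (r + 3) → Ω} (hx' : ∀ i, x' i = t' i • Γ'.pts i)
    (D₁ D₂ : Derivation ℂ Ω Ω) {f : MvPolynomial (Fin (r + 3)) ℂ} (hf : f.IsHomogeneous e)
    {J : Fin w → Ω} {J' : Fin w' → Ω} {J₀ : Ω} (hJ : ∀ i, IsRes F D₁ D₂ (x i) (J i))
    (hJ' : ∀ i, IsRes F D₁ D₂ (x' i) (J' i)) (hJ₀ : IsRes F D₁ D₂ ξ J₀) :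
    ∑ i, aeval (x i) f * J i - ∑ i, aeval (x' i) f * J' i =
      algebraMap ℂ Ω m * (aeval ξ f * J₀) := by
  have key : ∀ (c : Ω) (_ : c ≠ 0) (p y : Fin (r + 3) → Ω) (_ : p ≠ 0)
      (_ : ∀ i, aeval p (F i) = 0) (_ : y = c • p) (I : Ω)
      (_ : IsRes F D₁ D₂ y I), ∃ I' : Ω, IsRes F D₁ D₂ p I' ∧ aeval p f * I' = aeval y f * I := by
    intro c hc p y hp0 hpF hy I hI
    have hp : p = c⁻¹ • y := by rw [hy, smul_smul, inv_mul_cancel₀ hc, one_smul]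
    have hy0 : y ≠ 0 := by rw [hy]; exact smul_ne_zero hc hp0
    have hyF : ∀ i, aeval y (F i) = 0 := fun i => by
      rw [hy, aeval_scaleΩ (hF.hom i), hpF, mul_zero]
    refine ⟨I * (c⁻¹ ^ e)⁻¹, ?_, ?_⟩
    · have h1 := isRes_smul hF he hFκ hρ hy0 hyF hI c⁻¹ (inv_ne_zero hc)
      rwa [← hp] at h1
    · have h2 : aeval p f = c⁻¹ ^ e * aeval y f := by
        conv_lhs => rw [hp]
        exact aeval_scaleΩ hf _ _
      rw [h2]
      have h0 : c⁻¹ ^ e ≠ 0 := pow_ne_zero _ (inv_ne_zero hc)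
      field_simp
  choose I hI hI2 using fun i => key (t i) (ht i) (Γ.pts i) (x i) (Γ.pts_ne i) (Γ.pts_mem i)
    (hx i) (J i) (hJ i)
  choose I' hI' hI2' using fun i => key (t' i) (ht' i) (Γ'.pts i) (x' i) (Γ'.pts_ne i)
    (Γ'.pts_mem i) (hx' i) (J' i) (hJ' i)
  have h := hm D₁ D₂ f hf I I' J₀ hI hI' hJ₀
  rw [← h]
  simp only [hI2, hI2']

theorem aeval_memΩ {B : Subfield Ω} (hκB : ∀ c ∈ κ, algebraMap ℂ Ω c ∈ B)
    {G : MvPolynomial (Fin (r + 3)) ℂ} (hG : Coef κ G) {x : Fin (r + 3) → Ω}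
    (hx : ∀ i, x i ∈ B) : aeval x G ∈ B := by
  rw [aeval_def, eval₂_eq]
  exact sum_mem fun m _ => mul_mem (hκB _ (hG m)) (prod_mem fun i _ => pow_mem (hx i) _)

/-- the value of the two-form is in a field which contains the coordinates and their
derivatives -/
theorem res_mem (hF : IsSmoothCI F d) (hFκ : ∀ i, Coef κ (F i))
    (hρ : ∀ c ∈ κ, ρ c = algebraMap ℂ Ω c) {B : Subfield Ω}
    (hκB : ∀ c ∈ κ, algebraMap ℂ Ω c ∈ B) {D₁ D₂ : Derivation ℂ Ω Ω} {x : Fin (r + 3) → Ω}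
    (hx : x ≠ 0) (hx0 : ∀ i, aeval x (F i) = 0) (hxB : ∀ i, x i ∈ B) (h₁ : ∀ i, D₁ (x i) ∈ B)
    (h₂ : ∀ i, D₂ (x i) ∈ B) {J : Ω} (hJ : IsRes F D₁ D₂ x J) : J ∈ B := by
  have hli := smooth_Ω hF hFκ hρ hx hx0
  have hmem : ∀ i j, aeval x (pderiv j (F i)) ∈ B := fun i j =>
    aeval_memΩ hκB (coef_pderiv (hFκ i) j) hxB
  have hliB : LinearIndependent B (fun (i : Fin r) (j : Fin (r + 3)) =>
      (⟨aeval x (pderiv j (F i)), hmem i j⟩ : B)) := by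
    rw [Fintype.linearIndependent_iff] at hli ⊢
    intro g hg i
    have h1 := hli (fun i => (g i : Ω)) (by
      funext j
      have h2 := congrArg (fun b : B => (b : Ω)) (congrFun hg j)
      rw [Finset.sum_apply] at h2 ⊢
      rw [Pi.zero_apply]
      have h3 : ((∑ c, (g c • fun j => (⟨aeval x (pderiv j (F c)), hmem c j⟩ : B)) j : B) : Ω) =
          ∑ c, ((g c : Ω) * aeval x (pderiv j (F c))) := by
        rw [AddSubmonoidClass.coe_finsetSum]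
        rfl
      exact h3.symm.trans h2) i
    exact Subtype.ext h1
  obtain ⟨v, hv⟩ := TauL.exists_dual hliB
  have h3 := hJ (fun i j => (v i j : Ω))
  have h4 : (Matrix.of fun i j => dF (F i) x (fun k => (v j k : Ω))).det = 1 := by
    have h5 := congrArg B.subtype hv
    rw [RingHom.map_det, map_one] at h5
    rw [← h5]
    congr 1
    ext i j
    rw [RingHom.mapMatrix_apply, Matrix.map_apply, Matrix.of_apply, Matrix.of_apply, map_sum]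
    rfl
  rw [h4, mul_one] at h3
  rw [← h3]
  have h5 := TauL.map_det_append B.subtype v ![fun i => ⟨x i, hxB i⟩, fun i => ⟨D₁ (x i), h₁ i⟩,
    fun i => ⟨D₂ (x i), h₂ i⟩]
  have h6 : (fun i j => B.subtype ((![fun i => ⟨x i, hxB i⟩, fun i => ⟨D₁ (x i), h₁ i⟩,
      fun i => ⟨D₂ (x i), h₂ i⟩] : Fin 3 → Fin (r + 3) → B) i j)) =
      ![x, fun i => D₁ (x i), fun i => D₂ (x i)] := by
    funext a k
    fin_cases a <;> rfl
  rw [h6] at h5
  have h7 : (fun i j => B.subtype (v i j)) = fun i j => (v i j : Ω) := rfl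
  rw [h7] at h5
  rw [← h5]
  exact SetLike.coe_mem _

/-- dual derivations -/
theorem exists_der2 {x y : Ω} (h : AlgebraicIndependent ℂ ![x, y]) (a b : Ω) :
    ∃ D : Derivation ℂ Ω Ω, D x = a ∧ D y = b := by
  classical
  have hxy : x ≠ y := by
    intro hxy
    have h1 := h.injective
    have h2 : (0 : Fin 2) = 1 := h1 (by simpa using hxy)
    exact absurd h2 (by decide)
  have hs : AlgebraicIndepOn ℂ id (Set.range ![x, y]) := h.to_subtype_range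
  obtain ⟨t, hst, ht⟩ := exists_isTranscendenceBasis_superset hs
  have hx : x ∈ t := hst ⟨0, rfl⟩
  have hy : y ∈ t := hst ⟨1, rfl⟩
  obtain ⟨D, hD⟩ := VGS.tau_exists_der ht (fun w => if (w : Ω) = x then a else b)
  refine ⟨D, ?_, ?_⟩
  · have h1 := hD ⟨x, hx⟩
    rw [if_pos rfl] at h1
    exact h1
  · have h1 := hD ⟨y, hy⟩
    rw [if_neg (Ne.symm hxy)] at h1
    exact h1

theorem alg_mem_cloΩ (ξ : Fin (r + 3) → Ω) {c : ℂ} (hc : c ∈ κ) :
    algebraMap ℂ Ω c ∈ cloΩ κ ξ :=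
  mem_algebraicClosure_iff.2 (isAlgebraic_algebraMap (⟨_, Subfield.subset_closure
    (Or.inl ⟨c, hc, rfl⟩)⟩ :
    Subfield.closure ((algebraMap ℂ Ω) '' (κ : Set ℂ) ∪ Set.range ξ)))

theorem xi_mem_cloΩ (κ : Fl) (ξ : Fin (r + 3) → Ω) (j : Fin (r + 3)) : ξ j ∈ cloΩ κ ξ :=
  mem_algebraicClosure_iff.2 (isAlgebraic_algebraMap (⟨_, Subfield.subset_closure
    (Or.inr ⟨j, rfl⟩)⟩ :
    Subfield.closure ((algebraMap ℂ Ω) '' (κ : Set ℂ) ∪ Set.range ξ)))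

end transport

end EffScAux

open EffScAux

variable {Ω : Type} [Field Ω] [Algebra ℂ Ω] {r : ℕ}
  {F : Fin r → MvPolynomial (Fin (r + 3)) ℂ} {d : Fin r → ℕ} {e : ℕ}

/-- the scalar is in `κ` -/
theorem scalar_mem (hF : IsSmoothCI F d) (he : e + (r + 3) = ∑ i, d i) {ξ : Fin (r + 3) → Ω}
    (hξ : IsGenericPoint F ξ) {κ : Fl} (hκ : clo κ = κ) (hFκ : ∀ i, Coef κ (F i))
    {ρ : ℂ ≃+* Ω} (hρ : ∀ c ∈ κ, ρ c = algebraMap ℂ Ω c) {j l : Fin (r + 3)}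
    (hjl : AlgebraicIndependent ℂ ![ξ j, ξ l])
    (halg : ∀ u ∈ cloΩ κ ξ, IsAlgebraic (flS κ {ξ j, ξ l}) u) {w w' : ℕ}
    (Γ : EffCorr F ξ w) (Γ' : EffCorr F ξ w') {m : ℂ} (hm : ActsByScalar F e Γ Γ' m)
    {t : Fin w → Ω} (ht : ∀ i, t i ≠ 0) {x : Fin w → Fin (r + 3) → Ω}
    (hx : ∀ i, x i = t i • Γ.pts i) {t' : Fin w' → Ω} (ht' : ∀ i, t' i ≠ 0)
    {x' : Fin w' → Fin (r + 3) → Ω} (hx' : ∀ i, x' i = t' i • Γ'.pts i)
    (hxB : ∀ i j, x i j ∈ cloΩ κ ξ) (hxB' : ∀ i j, x' i j ∈ cloΩ κ ξ) : m ∈ κ := by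
  have hne : ∀ i, x i ≠ 0 := fun i => by
    rw [hx]; exact smul_ne_zero (ht i) (Γ.pts_ne i)
  have hne' : ∀ i, x' i ≠ 0 := fun i => by
    rw [hx']; exact smul_ne_zero (ht' i) (Γ'.pts_ne i)
  have h0 : ∀ i s, aeval (x i) (F s) = 0 := fun i s => by
    rw [hx, aeval_scaleΩ (hF.hom s), Γ.pts_mem, mul_zero]
  have h0' : ∀ i s, aeval (x' i) (F s) = 0 := fun i s => by
    rw [hx', aeval_scaleΩ (hF.hom s), Γ'.pts_mem, mul_zero]
  obtain ⟨δ₁, h11, h12⟩ := exists_der2 hjl 1 0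
  obtain ⟨δ₂, h21, h22⟩ := exists_der2 hjl 0 1
  have hc : CharZero Ω := charZero_of_injective_algebraMap (algebraMap ℂ Ω).injective
  have hsub : ((algebraMap ℂ Ω) '' (κ : Set ℂ) ∪ {ξ j, ξ l} : Set Ω) ⊆ cloΩ κ ξ := by
    rintro z (⟨c, hc, rfl⟩ | rfl | rfl)
    · exact alg_mem_cloΩ ξ hc
    · exact xi_mem_cloΩ κ ξ j
    · exact xi_mem_cloΩ κ ξ l
  have hδ : ∀ δ : Derivation ℂ Ω Ω, δ (ξ j) ∈ cloΩ κ ξ → δ (ξ l) ∈ cloΩ κ ξ →
      ∀ u ∈ cloΩ κ ξ, δ u ∈ cloΩ κ ξ := by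
    intro δ h3 h4 u hu
    refine VGS.EffTauAux.der_mem_alg (δ.restrictScalars ℤ) (flS κ {ξ j, ξ l}) (cloΩ κ ξ)
      (Subfield.closure_le.2 hsub) (VGS.EffTauAux.der_mem_closure _ _ _ hsub ?_) hu
      (halg u hu)
    rintro z (⟨c, hc, rfl⟩ | rfl | rfl)
    · change δ (algebraMap ℂ Ω c) ∈ _
      rw [δ.map_algebraMap]
      exact zero_mem _
    · exact h3
    · exact h4
  have hδ₁ := hδ δ₁ (by rw [h11]; exact one_mem _) (by rw [h12]; exact zero_mem _)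
  have hδ₂ := hδ δ₂ (by rw [h21]; exact zero_mem _) (by rw [h22]; exact one_mem _)
  have hξne : ξ ≠ 0 := fun h => by
    have := hξ.one
    rw [h] at this
    exact zero_ne_one this
  choose J hJ using fun i => exists_isRes hF hFκ hρ δ₁ δ₂ (hne i) (h0 i)
  choose J' hJ' using fun i => exists_isRes hF hFκ hρ δ₁ δ₂ (hne' i) (h0' i)
  obtain ⟨J₀, hJ₀⟩ := exists_isRes hF hFκ hρ δ₁ δ₂ hξne hξ.zero
  have hJ₀ne : J₀ ≠ 0 := by
    rintro rfl
    have hli : LinearIndependent Ω (![ξ, fun i => δ₁ (ξ i), fun i => δ₂ (ξ i)] :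
        Fin 3 → Fin (r + 3) → Ω) := by
      rw [Fintype.linearIndependent_iff]
      intro g hg
      rw [Fin.sum_univ_three] at hg
      have key : ∀ m, g 0 * ξ m + g 1 * δ₁ (ξ m) + g 2 * δ₂ (ξ m) = 0 := by
        intro m
        have := congrFun hg m
        simpa using this
      have k0 := key 0
      rw [hξ.one, δ₁.map_one_eq_zero, δ₂.map_one_eq_zero] at k0
      have h0 : g 0 = 0 := by simpa using k0
      have kj := key j
      have kk := key l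
      rw [h11, h21, h0] at kj
      rw [h12, h22, h0] at kk
      intro i
      fin_cases i
      · exact h0
      · simpa using kj
      · simpa using kk
    obtain ⟨v, hv⟩ := TauL.exists_ext' (r := r) hli
    apply hv
    rw [hJ₀ v, zero_mul]
  have hX : (X 0 ^ e : MvPolynomial (Fin (r + 3)) ℂ).IsHomogeneous e := by
    simpa using (isHomogeneous_X ℂ (0 : Fin (r + 3))).pow e
  have hXκ : Coef κ (X 0 ^ e : MvPolynomial (Fin (r + 3)) ℂ) := by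
    intro a
    rw [coeff_X_pow]
    split_ifs
    · exact one_mem κ
    · exact zero_mem κ
  have h := acts_scaled hF he hFκ hρ Γ Γ' hm ht hx ht' hx' δ₁ δ₂ hX hJ hJ' hJ₀
  have hκB : ∀ c ∈ κ, algebraMap ℂ Ω c ∈ cloΩ κ ξ := fun c hc => alg_mem_cloΩ ξ hc
  have hS : (∑ i, aeval (x i) (X 0 ^ e : MvPolynomial (Fin (r + 3)) ℂ) * J i -
      ∑ i, aeval (x' i) (X 0 ^ e : MvPolynomial (Fin (r + 3)) ℂ) * J' i) ∈ cloΩ κ ξ := by
    refine sub_mem (sum_mem fun i _ => mul_mem (aeval_memΩ hκB hXκ (hxB i)) ?_)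
      (sum_mem fun i _ => mul_mem (aeval_memΩ hκB hXκ (hxB' i)) ?_)
    · exact res_mem hF hFκ hρ hκB (hne i) (h0 i) (hxB i) (fun l => hδ₁ _ (hxB i l))
        (fun l => hδ₂ _ (hxB i l)) (hJ i)
    · exact res_mem hF hFκ hρ hκB (hne' i) (h0' i) (hxB' i) (fun l => hδ₁ _ (hxB' i l))
        (fun l => hδ₂ _ (hxB' i l)) (hJ' i)
  have hJ₀B : J₀ ∈ cloΩ κ ξ :=
    res_mem hF hFκ hρ hκB hξne hξ.zero (xi_mem_cloΩ κ ξ) (fun l => hδ₁ _ (xi_mem_cloΩ κ ξ l))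
      (fun l => hδ₂ _ (xi_mem_cloΩ κ ξ l)) hJ₀
  rw [h] at hS
  have hξX : aeval ξ (X 0 ^ e : MvPolynomial (Fin (r + 3)) ℂ) = 1 := by
    rw [map_pow, aeval_X, hξ.one, one_pow]
  rw [hξX, one_mul] at hS
  have hmB : algebraMap ℂ Ω m ∈ cloΩ κ ξ := by
    have h5 := div_mem hS hJ₀B
    rwa [mul_div_assoc, div_self hJ₀ne, mul_one] at h5
  exact VGS.EffTauAux.mem_of_alg hκ hjl (halg _ hmB)

end Pool.Agent.VCI
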