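import Pool.Agent.VCI.Tau

/-! Complete intersections: the coordinates of a zero are algebraic over two independent ones. -/

set_option autoImplicit false

open scoped LinearAlgebra.Projectivization
open MvPolynomial

namespace Pool.Agent.VCI

open Pool.Agent.VGS (Fl adj clo Coef Kills exists_kills le_adj le_clo subset_adj)

variable {r : ℕ} {F : Fin r → MvPolynomial (Fin (r + 3)) ℂ} {d : Fin r → ℕ} {e : ℕ}

/-- a derivation which is not zero at a transcendental element -/
theorem exists_kills1 (L : Fl) {x : ℂ} (h : x ∉ clo L) (a : ℂ) :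
    ∃ D : Derivation ℤ ℂ ℂ, Kills L D ∧ D x = a := by
  classical
  have h0 : Transcendental L x := fun h1 => h (VGS.mem_clo.2 h1)
  have hs0 : AlgebraicIndependent L (fun _ : Unit => x) := by
    rw [algebraicIndependent_unique_type_iff]
    exact h0
  have hs : AlgebraicIndepOn L id (Set.range fun _ : Unit => x) := hs0.to_subtype_range
  obtain ⟨t, hst, ht⟩ := exists_isTranscendenceBasis_superset hs
  have hx : x ∈ t := hst ⟨(), rfl⟩
  obtain ⟨D, hD⟩ := VGS.tau_exists_der ht (fun _ => a)
  exact ⟨D.restrictScalars ℤ, fun c hc => D.map_algebraMap ⟨c, hc⟩, hD ⟨x, hx⟩⟩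

/-- the tangent space has dimension `3` -/
theorem tangent_dep (hF : IsSmoothCI F d) {z : Fin (r + 3) → ℂ} (hz : z ≠ 0)
    (hzF : ∀ i, aeval z (F i) = 0) {u : Fin 4 → Fin (r + 3) → ℂ}
    (hu : ∀ a i, dFc (F i) z (u a) = 0) : ¬ LinearIndependent ℂ u := by
  intro hli
  set A : Matrix (Fin r) (Fin (r + 3)) ℂ := Matrix.of fun i j => aeval z (pderiv j (F i)) with hA
  have h1 : A.rank = r := by
    have h2 : LinearIndependent ℂ A.row := hF.smooth z hz hzF
    rw [h2.rank_matrix, Fintype.card_fin]
  have h2 := LinearMap.finrank_range_add_finrank_ker A.mulVecLin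
  have h3 : Module.finrank ℂ (LinearMap.range A.mulVecLin) = r := h1
  rw [h3, Module.finrank_pi, Fintype.card_fin] at h2
  have h4 : ∀ a, u a ∈ LinearMap.ker A.mulVecLin := by
    intro a
    rw [LinearMap.mem_ker, Matrix.mulVecLin_apply]
    funext i
    rw [Pi.zero_apply, ← hu a i, Matrix.mulVec, dotProduct, dFc]
    refine Finset.sum_congr rfl fun k _ => ?_
    rw [hA, Matrix.of_apply, mul_comm]
  have h5 : LinearIndependent ℂ (fun a => (⟨u a, h4 a⟩ : LinearMap.ker A.mulVecLin)) :=
    LinearIndependent.of_comp (Submodule.subtype _) hli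
  have h6 := h5.fintype_card_le_finrank
  rw [Fintype.card_fin] at h6
  omega

/-- the coordinates of a zero are algebraic over two independent ones -/
theorem mem_clo_pair {κ : Fl} (hFκ : ∀ i, Coef κ (F i)) (hF : IsSmoothCI F d)
    {z : Fin (r + 3) → ℂ} (hz0 : z 0 = 1) (hzF : ∀ i, aeval z (F i) = 0) {j l : Fin (r + 3)}
    (hjl : AlgebraicIndependent κ ![z j, z l]) (m : Fin (r + 3)) :
    z m ∈ clo (adj κ {z j, z l}) := by
  by_contra hm
  have hz : z ≠ 0 := fun h => by
    rw [h] at hz0
    exact zero_ne_one hz0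
  obtain ⟨D, hD, hDm⟩ := exists_kills1 _ hm 1
  have hDκ : Kills κ D := fun x hx => hD x (le_adj _ _ hx)
  have hDj : D (z j) = 0 := hD _ (subset_adj _ _ (by simp))
  have hDl : D (z l) = 0 := hD _ (subset_adj _ _ (by simp))
  obtain ⟨D₁, hD₁, h1j, h1l⟩ := exists_kills κ hjl 1 0
  obtain ⟨D₂, hD₂, h2j, h2l⟩ := exists_kills κ hjl 0 1
  refine tangent_dep hF hz hzF (u := ![z, fun i => D₁ (z i), fun i => D₂ (z i),
    fun i => D (z i)]) ?_ ?_
  · intro a i
    fin_cases a
    · exact dFc_self hF hzF i
    · exact dFc_der hFκ hD₁ hzF i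
    · exact dFc_der hFκ hD₂ hzF i
    · exact dFc_der hFκ hDκ hzF i
  · rw [Fintype.linearIndependent_iff]
    intro g hg
    rw [Fin.sum_univ_four] at hg
    have key : ∀ m, g 0 * z m + g 1 * D₁ (z m) + g 2 * D₂ (z m) + g 3 * D (z m) = 0 := by
      intro m
      have := congrFun hg m
      simpa using this
    have k0 := key 0
    rw [hz0, D₁.map_one_eq_zero, D₂.map_one_eq_zero, D.map_one_eq_zero] at k0
    have h0 : g 0 = 0 := by simpa using k0
    have kj := key j
    have kl := key l
    have km := key m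
    rw [h1j, h2j, hDj, h0] at kj
    rw [h1l, h2l, hDl, h0] at kl
    have h1 : g 1 = 0 := by simpa using kj
    have h2 : g 2 = 0 := by simpa using kl
    rw [h0, h1, h2, hDm] at km
    have h3 : g 3 = 0 := by simpa using km
    intro i
    fin_cases i
    · exact h0
    · exact h1
    · exact h2
    · exact h3

end Pool.Agent.VCI
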