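import Pool.Agent.VCI.EffTauA
import Pool.Agent.VCI.AutP
import Pool.Agent.VCI.Eff
import Pool.Agent.VCI.EffB
import Pool.Agent.VCI.EffSc
import Pool.Agent.VCI.PairAlg

/-! Module EffTau: the action of correspondences on two-forms. -/

set_option autoImplicit false

open scoped LinearAlgebra.Projectivization
open MvPolynomial

namespace Pool.Agent.VCI

open Pool.Agent.Chow0 (IsChowForm)
open Pool.Agent.VGS (Fl adj clo Coef Kills le_clo clo_clo ai_clo)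
open Pool.Agent.VGS.EffTauAux (flS cjD cjD_apply der_comb kills_clo)

namespace EffTauAux

variable {r : ℕ} {Ω : Type} [Field Ω] [Algebra ℂ Ω] {F : Fin r → MvPolynomial (Fin (r + 3)) ℂ}
  {d : Fin r → ℕ} {e : ℕ}


/-! ### assembly -/

theorem cycQ_univ {n w : ℕ} (q : Fin w → PN n) (S : Set (PN n)) (h : ∀ i, q i ∈ S) :
    cycQ ((Multiset.map (fun i => (⟨q i, h i⟩ : S)) Finset.univ.val).map Subtype.val) =
      ∑ i, Finsupp.single (q i) (1 : ℚ) := by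
  rw [Multiset.map_map]
  unfold cycQ
  rw [Multiset.map_map]
  rfl

theorem tauC_cyc (hF : IsSmoothCI F d) (he : e + (r + 3) = ∑ i, d i) {κ : Fl}
    (hFκ : ∀ i, Coef κ (F i)) {ρ : ℂ ≃+* Ω}
    (hρ : ∀ c ∈ κ, ρ c = algebraMap ℂ Ω c) {D₁ D₂ : Derivation ℤ ℂ ℂ}
    {E₁ E₂ : Derivation ℂ Ω Ω} {f : MvPolynomial (Fin (r + 3)) ℂ}
    (hf : f.IsHomogeneous e) (hfκ : Coef κ f) {w : ℕ} {x : Fin w → Fin (r + 3) → Ω}
    (hne : ∀ i, x i ≠ 0) (h0 : ∀ i l, aeval (x i) (F l) = 0)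
    (hE₁ : ∀ i j, cjD ρ D₁ (x i j) = E₁ (x i j)) (hE₂ : ∀ i j, cjD ρ D₂ (x i j) = E₂ (x i j))
    {J : Fin w → Ω} (hJ : ∀ i, IsRes F E₁ E₂ (x i) (J i)) :
    tauC F D₁ D₂ f (∑ i, Finsupp.single (mkP (fun j => ρ.symm (x i j))) (1 : ℚ)) =
      ρ.symm (∑ i, aeval (x i) f * J i) := by
  rw [map_sum, map_sum]
  refine Finset.sum_congr rfl fun i _ => ?_
  have hz := symm_ne ρ (hne i)
  have hzF : ∀ l, aeval (fun j => ρ.symm (x i j)) (F l) = 0 := fun l => by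
    rw [symm_aeval hρ (hFκ l), h0, map_zero]
  unfold tauC
  rw [Finsupp.linearCombination_single, one_smul, mkP_eq hz,
    tau_eq hF he hz hzF hf ((isRes_iff hFκ hρ (hE₁ i) (hE₂ i)).1 (hJ i)),
    symm_aeval hρ hfκ, map_mul]

theorem effT_tau_aux [IsAlgClosed Ω] (hF : IsSmoothCI F d) (he : e + (r + 3) = ∑ i, d i)
    {ξ : Fin (r + 3) → Ω}
    (hξ : IsGenericPoint F ξ) (κ : Fl) [Countable κ] (hκ : clo κ = κ) (hFκ : ∀ i, Coef κ (F i))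
    (hc : ∀ p ∈ Gen κ F, ∀ q ∈ Gen κ F, ∃ σ ∈ VGS.Fix κ, act σ p = q)
    {w w' : ℕ} (Γ : EffCorr F ξ w) (Γ' : EffCorr F ξ w') (hΓ : CoefE κ Γ) (hΓ' : CoefE κ Γ')
    {m : ℂ} (hm : ActsByScalar F e Γ Γ' m) {y : PN (r + 3)} (hy : y ∈ Gen κ F)
    (D₁ D₂ : Derivation ℤ ℂ ℂ) (h₁ : Kills κ D₁) (h₂ : Kills κ D₂)
    (f : MvPolynomial (Fin (r + 3)) ℂ) (hf : f.IsHomogeneous e) (hfκ : Coef κ f) :
    tauC F D₁ D₂ f (effT Γ y - effT Γ' y) = m * tau F D₁ D₂ f y := by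
  obtain ⟨z, hz, hz0, rfl, ρ, hρ, hρξ⟩ := exists_rho' hF.hom hξ κ hFκ hc hy
  let ι : cloΩ κ ξ →+* ℂ := (ρ.symm : Ω →+* ℂ).comp (cloΩ κ ξ).subtype
  have hι : ∀ c ∈ κ, ∀ h, ι ⟨algebraMap ℂ Ω c, h⟩ = c := fun c hc h => by
    change ρ.symm (algebraMap ℂ Ω c) = c
    rw [← hρ c hc, ρ.symm_apply_apply]
  have hιξ : ∀ j h, ι ⟨ξ j, h⟩ = z j := fun j h => by
    change ρ.symm (ξ j) = z j
    rw [← hρξ j, ρ.symm_apply_apply]
  obtain ⟨t, x, ht, hx, hx1, hxF, hxs⟩ := eff_pts hF.hom hξ κ hκ hFκ Γ hΓ hz ι hι hιξ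
  obtain ⟨t', x', ht', hx', hx1', hxF', hxs'⟩ := eff_pts hF.hom hξ κ hκ hFκ Γ' hΓ' hz ι hι hιξ
  -- the points
  have hX : ∀ i, (fun j => ((x i j : cloΩ κ ξ) : Ω)) = t i • Γ.pts i := fun i =>
    funext fun j => hx i j
  have hX' : ∀ i, (fun j => ((x' i j : cloΩ κ ξ) : Ω)) = t' i • Γ'.pts i := fun i =>
    funext fun j => hx' i j
  have hne : ∀ i, (fun j => ((x i j : cloΩ κ ξ) : Ω)) ≠ 0 := fun i => by
    rw [hX]; exact smul_ne_zero (ht i) (Γ.pts_ne i)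
  have hne' : ∀ i, (fun j => ((x' i j : cloΩ κ ξ) : Ω)) ≠ 0 := fun i => by
    rw [hX']; exact smul_ne_zero (ht' i) (Γ'.pts_ne i)
  have h0 : ∀ i l, aeval (fun j => ((x i j : cloΩ κ ξ) : Ω)) (F l) = 0 := fun i l => by
    rw [hX, aeval_smul_homΩ (hF.hom l), Γ.pts_mem, mul_zero]
  have h0' : ∀ i l, aeval (fun j => ((x' i j : cloΩ κ ξ) : Ω)) (F l) = 0 := fun i l => by
    rw [hX', aeval_smul_homΩ (hF.hom l), Γ'.pts_mem, mul_zero]
  -- the coordinates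
  have hzξ : (fun i => ρ.symm (ξ i)) = z := funext fun i => by
    rw [← hρξ i, ρ.symm_apply_apply]
  have hzF : ∀ l, aeval z (F l) = 0 := fun l => by
    rw [← hzξ, symm_aeval hρ (hFκ l), hξ.zero, map_zero]
  obtain ⟨j, k, hind⟩ := hξ.gen
  have hindz : AlgebraicIndependent κ ![z j, z k] := by
    have h3 := symm_ai hρ hind
    convert h3 using 1
    funext i
    fin_cases i
    · exact (congrFun hzξ j).symm
    · exact (congrFun hzξ k).symm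
  have hxi : ∀ m, IsAlgebraic (flS κ {ξ j, ξ k}) (ξ m) := fun m =>
    alg_xi hρ hρξ (mem_clo_pair hFκ hF hz0 hzF hindz m)
  have halg : ∀ u ∈ cloΩ κ ξ, IsAlgebraic (flS κ {ξ j, ξ k}) u := fun u hu => alg_cloΩ hxi hu
  have hb : IsTranscendenceBasis ℂ ![ξ j, ξ k] := basis_xi hξ hind hxi
  have hmκ : m ∈ κ := scalar_mem hF he hξ hκ hFκ hρ hind halg Γ Γ' hm ht hX ht' hX'
    (fun i j => (x i j).2) (fun i j => (x' i j).2)
  -- the derivations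
  obtain ⟨δ₁, h1⟩ := Pool.Agent.LowDeg.DerKAux.exists_der hb ![1, 0]
  obtain ⟨δ₂, h2⟩ := Pool.Agent.LowDeg.DerKAux.exists_der hb ![0, 1]
  have h11 : δ₁ (ξ j) = 1 := h1 0
  have h12 : δ₁ (ξ k) = 0 := h1 1
  have h21 : δ₂ (ξ j) = 0 := h2 0
  have h22 : δ₂ (ξ k) = 1 := h2 1
  have hker : ∀ D : Derivation ℤ ℂ ℂ, Kills κ D → ∀ c ∈ κ,
      cjD ρ D (algebraMap ℂ Ω c) = 0 := by
    intro D hD c hc
    rw [cjD_apply, ← hρ c hc, ρ.symm_apply_apply, hD c hc, map_zero]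
  have hcomb : ∀ D : Derivation ℤ ℂ ℂ, Kills κ D → ∀ u ∈ cloΩ κ ξ,
      cjD ρ D u = (cjD ρ D (ξ j) • δ₁ + cjD ρ D (ξ k) • δ₂) u := fun D hD u hu =>
    der_comb (cjD ρ D) (hker D hD) h11 h12 h21 h22 (halg u hu)
  obtain ⟨E₁, hE₁⟩ : ∃ E : Derivation ℂ Ω Ω, ∀ u ∈ cloΩ κ ξ, cjD ρ D₁ u = E u :=
    ⟨_, hcomb D₁ h₁⟩
  obtain ⟨E₂, hE₂⟩ : ∃ E : Derivation ℂ Ω Ω, ∀ u ∈ cloΩ κ ξ, cjD ρ D₂ u = E u :=
    ⟨_, hcomb D₂ h₂⟩
  have hξne : ξ ≠ 0 := fun h => by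
    have := hξ.one
    rw [h] at this
    exact zero_ne_one this
  have hξmem : ∀ i, ξ i ∈ cloΩ κ ξ := fun i =>
    mem_algebraicClosure_iff.2 (isAlgebraic_algebraMap (⟨_, Subfield.subset_closure
      (Or.inr ⟨i, rfl⟩)⟩ :
      Subfield.closure ((algebraMap ℂ Ω) '' (κ : Set ℂ) ∪ Set.range ξ)))
  choose J hJ using fun i => exists_isRes hF hFκ hρ E₁ E₂ (hne i) (h0 i)
  choose J' hJ' using fun i => exists_isRes hF hFκ hρ E₁ E₂ (hne' i) (h0' i)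
  obtain ⟨J₀, hJ₀⟩ := exists_isRes hF hFκ hρ E₁ E₂ hξne hξ.zero
  have hfin := acts_scaled hF he hFκ hρ Γ Γ' hm ht hX ht' hX' E₁ E₂ hf hJ hJ' hJ₀
  have hT : effT Γ (Projectivization.mk ℂ z hz) =
      ∑ i, Finsupp.single (mkP (fun j => ρ.symm ((x i j : cloΩ κ ξ) : Ω))) (1 : ℚ) := by
    rw [effT_eq Γ hxs]
    exact cycQ_univ _ _ hxF
  have hT' : effT Γ' (Projectivization.mk ℂ z hz) =
      ∑ i, Finsupp.single (mkP (fun j => ρ.symm ((x' i j : cloΩ κ ξ) : Ω))) (1 : ℚ) := by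
    rw [effT_eq Γ' hxs']
    exact cycQ_univ _ _ hxF'
  rw [map_sub, hT, hT', tauC_cyc hF he hFκ hρ hf hfκ hne h0
    (fun i j => hE₁ _ (x i j).2) (fun i j => hE₂ _ (x i j).2) hJ,
    tauC_cyc hF he hFκ hρ hf hfκ hne' h0'
    (fun i j => hE₁ _ (x' i j).2) (fun i j => hE₂ _ (x' i j).2) hJ', ← map_sub, hfin]
  have hR := (isRes_iff (D₁ := D₁) (D₂ := D₂) hFκ hρ (fun i => hE₁ _ (hξmem i))
    (fun i => hE₂ _ (hξmem i))).1 hJ₀
  rw [hzξ] at hR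
  rw [tau_eq hF he hz hzF hf hR, map_mul, map_mul, ← hρ m hmκ, ρ.symm_apply_apply,
    ← symm_aeval hρ hfκ, hzξ]

theorem tauC_sum (F : Fin r → MvPolynomial (Fin (r + 3)) ℂ) (D₁ D₂ : Derivation ℤ ℂ ℂ) {ι : Type}
    (s : Finset ι) (c : ι → ℂ) (f : ι → MvPolynomial (Fin (r + 3)) ℂ) (z : Cy (r + 3)) :
    tauC F D₁ D₂ (∑ i ∈ s, C (c i) * f i) z = ∑ i ∈ s, c i * tauC F D₁ D₂ (f i) z := by
  induction z using Finsupp.induction_linear with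
  | zero => simp
  | add z z' h h' =>
    rw [map_add, h, h', ← Finset.sum_add_distrib]
    exact Finset.sum_congr rfl fun i _ => by rw [map_add, mul_add]
  | single p q =>
    unfold tauC
    rw [Finsupp.linearCombination_single, tau_sum, Finset.smul_sum]
    refine Finset.sum_congr rfl fun i _ => ?_
    rw [Finsupp.linearCombination_single, mul_smul_comm]

end EffTauAux

open EffTauAux

variable {r : ℕ} {Ω : Type} [Field Ω] [Algebra ℂ Ω] [IsAlgClosed Ω]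
  {F : Fin r → MvPolynomial (Fin (r + 3)) ℂ} {d : Fin r → ℕ} {e : ℕ}

/-- the action of a correspondence on two-forms, at a generic point -/
theorem effT_tau (hF : IsSmoothCI F d) (he : e + (r + 3) = ∑ i, d i) {ξ : Fin (r + 3) → Ω}
    (hξ : IsGenericPoint F ξ) (K : Fl) [Countable K] (hFK : ∀ i, Coef K (F i))
    (hc : ∀ p ∈ Gen (clo K) F, ∀ q ∈ Gen (clo K) F, ∃ σ ∈ VGS.Fix (clo K), act σ p = q)
    {w w' : ℕ} (Γ : EffCorr F ξ w) (Γ' : EffCorr F ξ w') (hΓ : CoefE (clo K) Γ)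
    (hΓ' : CoefE (clo K) Γ') {m : ℂ} (hm : ActsByScalar F e Γ Γ' m) :
    ∀ y ∈ Gen K F, ∀ D₁ D₂ : Derivation ℤ ℂ ℂ, Kills K D₁ → Kills K D₂ →
      ∀ f : MvPolynomial (Fin (r + 3)) ℂ, f.IsHomogeneous e →
        tauC F D₁ D₂ f (effT Γ y - effT Γ' y) = m * tau F D₁ D₂ f y := by
  intro y hy D₁ D₂ h₁ h₂ f hf
  have hy' : y ∈ Gen (clo K) F := by
    obtain ⟨h3, i, j, l, h4, h5⟩ := hy
    exact ⟨h3, i, j, l, h4, ai_clo.2 h5⟩
  have hmon : f = ∑ e ∈ f.support, C (coeff e f) * monomial e (1 : ℂ) := by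
    conv_lhs => rw [f.as_sum]
    exact Finset.sum_congr rfl fun e _ => by rw [C_mul_monomial, mul_one]
  rw [hmon, tauC_sum, tau_sum, Finset.mul_sum]
  refine Finset.sum_congr rfl fun e' he' => ?_
  rw [effT_tau_aux hF he hξ (clo K) (clo_clo K) (fun i => (hFK i).mono (le_clo K)) hc Γ Γ' hΓ hΓ' hm
    hy' D₁ D₂ (kills_clo h₁) (kills_clo h₂) (monomial e' 1) ?_ ?_]
  · ring
  · refine isHomogeneous_monomial _ ?_
    by_contra h
    exact (mem_support_iff.1 he') (hf.coeff_eq_zero h)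
  · intro e''
    rw [coeff_monomial]
    split_ifs
    · exact one_mem _
    · exact zero_mem _

end Pool.Agent.VCI
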