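import Mathlib

/-! Complete intersections: block determinants. -/

set_option autoImplicit false

namespace Pool.Agent.VCI.TauL

section comm

variable {R : Type} [CommRing R] {r s : ℕ}

omit [CommRing R] in
theorem sub_app {n : ℕ} (v : Fin r → Fin n → R) (w : Fin s → Fin n → R) (x : Fin r ⊕ Fin s) :
    Fin.append v w (finSumFinEquiv x) = Sum.elim v w x := by
  rcases x with i | i
  · rw [finSumFinEquiv_apply_left, Fin.append_left]
    rfl
  · rw [finSumFinEquiv_apply_right, Fin.append_right]
    rfl

/-- the block formula -/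
theorem block_det (v ℓ : Fin r → Fin (r + s) → R) (w m : Fin s → Fin (r + s) → R)
    (h : ∀ a b, ∑ k, w a k * ℓ b k = 0) :
    (Matrix.of (Fin.append v w)).det * (Matrix.of (Fin.append ℓ m)).det =
      (Matrix.of fun i j => ∑ k, v j k * ℓ i k).det *
        (Matrix.of fun a b => ∑ k, w a k * m b k).det := by
  rw [← Matrix.det_transpose (Matrix.of (Fin.append ℓ m)), ← Matrix.det_mul,
    ← Matrix.det_submatrix_equiv_self (finSumFinEquiv (m := r) (n := s)),
    ← Matrix.det_transpose (Matrix.of fun i j => ∑ k, v j k * ℓ i k)]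
  rw [← Matrix.det_fromBlocks_zero₂₁ _ (Matrix.of fun i b => ∑ k, v i k * m b k)]
  congr 1
  ext x y
  rw [Matrix.submatrix_apply, Matrix.mul_apply]
  simp only [Matrix.transpose_apply, Matrix.of_apply, sub_app]
  rcases x with i | i <;> rcases y with j | j
  · rfl
  · rfl
  · exact h i j
  · rfl

/-- linear substitutions in the last rows -/
theorem append_lin (v : Fin r → Fin (r + s) → R) (w : Fin s → Fin (r + s) → R)
    (U : Matrix (Fin s) (Fin s) R) :
    (Matrix.of (Fin.append v (fun a k => ∑ b, U a b * w b k))).det =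
      U.det * (Matrix.of (Fin.append v w)).det := by
  have h1 : U.det = (Matrix.fromBlocks (1 : Matrix (Fin r) (Fin r) R) 0 0 U).det := by
    rw [Matrix.det_fromBlocks_zero₂₁, Matrix.det_one, one_mul]
  rw [h1, ← Matrix.det_submatrix_equiv_self (finSumFinEquiv (m := r) (n := s)).symm
    (Matrix.fromBlocks (1 : Matrix (Fin r) (Fin r) R) 0 0 U), ← Matrix.det_mul]
  congr 1
  ext x y
  rw [Matrix.mul_apply, ← (finSumFinEquiv (m := r) (n := s)).sum_comp, Fintype.sum_sum_type]
  obtain ⟨x, rfl⟩ := (finSumFinEquiv (m := r) (n := s)).surjective x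
  simp only [Matrix.submatrix_apply, Equiv.symm_apply_apply, Matrix.of_apply, sub_app]
  rcases x with i | i
  · simp [Matrix.one_apply]
  · simp

theorem map_append {S : Type} [CommRing S] (f : R →+* S) {n : ℕ} (v : Fin r → Fin n → R)
    (w : Fin s → Fin n → R) :
    (fun i j => f (Fin.append v w i j)) =
      Fin.append (fun i j => f (v i j)) (fun i j => f (w i j)) := by
  funext i j
  refine Fin.addCases (fun i => ?_) (fun i => ?_) i
  · rw [Fin.append_left, Fin.append_left]
  · rw [Fin.append_right, Fin.append_right]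

theorem map_det_append {S : Type} [CommRing S] (f : R →+* S) (v : Fin r → Fin (r + s) → R)
    (w : Fin s → Fin (r + s) → R) :
    f (Matrix.of (Fin.append v w)).det =
      (Matrix.of (Fin.append (fun i j => f (v i j)) (fun i j => f (w i j)))).det := by
  rw [RingHom.map_det, ← map_append]
  rfl

/-- additivity in a row -/
theorem append_add (v : Fin r → Fin (r + 3) → R) (z x y y' : Fin (r + 3) → R) (c : R) :
    (Matrix.of (Fin.append v ![z, x, fun i => y i + c * y' i])).det =
      (Matrix.of (Fin.append v ![z, x, y])).det +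
        c * (Matrix.of (Fin.append v ![z, x, y'])).det := by
  have h : ∀ u : Fin (r + 3) → R, Matrix.of (Fin.append v ![z, x, u]) =
      Matrix.updateRow (Matrix.of (Fin.append v ![z, x, 0])) (Fin.natAdd r 2) u := by
    intro u
    ext i j
    by_cases hi : i = Fin.natAdd r 2
    · subst hi
      rw [Matrix.updateRow_self, Matrix.of_apply, Fin.append_right]
      rfl
    · rw [Matrix.updateRow_ne hi, Matrix.of_apply, Matrix.of_apply]
      revert hi
      refine Fin.addCases (fun i => ?_) (fun i => ?_) i
      · intro _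
        rw [Fin.append_left, Fin.append_left]
      · intro hi
        rw [Fin.append_right, Fin.append_right]
        fin_cases i
        · rfl
        · rfl
        · exact absurd rfl hi
  rw [h, h y, h y']
  have h2 : (fun i => y i + c * y' i) = y + c • y' := rfl
  rw [h2, Matrix.det_updateRow_add, Matrix.det_updateRow_smul]

end comm

section field

variable {K : Type} [Field K] {r s : ℕ}

theorem exists_ext_aux {ι : Type} [Fintype ι] {t n : ℕ} (hn : Fintype.card ι + t = n)
    {ℓ : ι → Fin n → K} (h : LinearIndependent K ℓ) :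
    ∃ m : Fin t → Fin n → K, LinearIndependent K (Sum.elim ℓ m) := by
  classical
  let b := Module.Basis.sumExtend h
  have hb : ∀ i, b (Sum.inl i) = ℓ i := fun i => by
    change Module.Basis.sumExtend h (Sum.inl i) = _
    simp only [Module.Basis.sumExtend]
    rw [Module.Basis.reindex_apply]
    simp only [Equiv.symm_symm, Module.Basis.coe_extend]
    rfl
  have hfin : Finite (ι ⊕ Module.Basis.sumExtendIndex h) := Module.Finite.finite_basis b
  have hfin' : Finite (Module.Basis.sumExtendIndex h) :=
    Finite.of_injective (Sum.inr : _ → ι ⊕ Module.Basis.sumExtendIndex h) Sum.inr_injective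
  have hcard : Nat.card (ι ⊕ Module.Basis.sumExtendIndex h) = n := by
    rw [← Module.finrank_eq_nat_card_basis b]
    simp
  rw [Nat.card_sum, Nat.card_eq_fintype_card (α := ι)] at hcard
  have hc : Nat.card (Module.Basis.sumExtendIndex h) = t := by omega
  let e : Fin t ≃ Module.Basis.sumExtendIndex h :=
    (Finite.equivFinOfCardEq hc).symm
  refine ⟨fun i => b (Sum.inr (e i)), ?_⟩
  have h1 := b.linearIndependent.comp (Sum.map id e)
    (Function.Injective.sumMap Function.injective_id e.injective)
  have h2 : (Sum.elim ℓ fun i => b (Sum.inr (e i))) = b ∘ Sum.map id e := by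
    funext x
    rcases x with i | i
    · exact (hb i).symm
    · rfl
  rw [h2]
  exact h1

/-- extension of an independent family to an invertible matrix -/
theorem exists_ext {ℓ : Fin r → Fin (r + s) → K} (h : LinearIndependent K ℓ) :
    ∃ m : Fin s → Fin (r + s) → K, (Matrix.of (Fin.append ℓ m)).det ≠ 0 := by
  obtain ⟨m, hm⟩ := exists_ext_aux (t := s) (by rw [Fintype.card_fin]) h
  refine ⟨m, ?_⟩
  have h1 := hm.comp _ (finSumFinEquiv (m := r) (n := s)).symm.injective
  rw [← isUnit_iff_ne_zero, ← Matrix.isUnit_iff_isUnit_det,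
    ← Matrix.linearIndependent_rows_iff_isUnit]
  convert h1 using 1
  funext x
  obtain ⟨x, rfl⟩ := (finSumFinEquiv (m := r) (n := s)).surjective x
  rw [Function.comp_apply, Equiv.symm_apply_apply, ← sub_app]
  rfl

/-- extension of an independent family to an invertible matrix -/
theorem exists_ext' {w : Fin s → Fin (r + s) → K} (h : LinearIndependent K w) :
    ∃ m : Fin r → Fin (r + s) → K, (Matrix.of (Fin.append m w)).det ≠ 0 := by
  obtain ⟨m, hm⟩ := exists_ext_aux (t := r) (by rw [Fintype.card_fin, add_comm]) h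
  refine ⟨m, ?_⟩
  have h1 := hm.comp (fun x => ((finSumFinEquiv (m := r) (n := s)).symm x).swap)
    (Sum.swap_leftInverse.injective.comp (Equiv.injective _))
  rw [← isUnit_iff_ne_zero, ← Matrix.isUnit_iff_isUnit_det,
    ← Matrix.linearIndependent_rows_iff_isUnit]
  convert h1 using 1
  funext x
  obtain ⟨x, rfl⟩ := (finSumFinEquiv (m := r) (n := s)).surjective x
  rw [Function.comp_apply, Equiv.symm_apply_apply]
  change Fin.append m w (finSumFinEquiv x) = _
  rw [sub_app]
  rcases x with i | i <;> rfl

/-- dual vectors -/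
theorem exists_dual {ℓ : Fin r → Fin (r + s) → K} (h : LinearIndependent K ℓ) :
    ∃ v : Fin r → Fin (r + s) → K, (Matrix.of fun i j => ∑ k, v j k * ℓ i k).det = 1 := by
  obtain ⟨m, hm⟩ := exists_ext h
  set P := Matrix.of (Fin.append ℓ m) with hP
  refine ⟨fun j k => P⁻¹ k (Fin.castAdd s j), ?_⟩
  have h1 : (Matrix.of fun i j => ∑ k, P⁻¹ k (Fin.castAdd s j) * ℓ i k) =
      (1 : Matrix (Fin r) (Fin r) K) := by
    ext i j
    have h2 : (P * P⁻¹) (Fin.castAdd s i) (Fin.castAdd s j) =
        (1 : Matrix (Fin (r + s)) (Fin (r + s)) K) (Fin.castAdd s i) (Fin.castAdd s j) := by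
      rw [Matrix.mul_nonsing_inv _ (isUnit_iff_ne_zero.mpr hm)]
    rw [Matrix.mul_apply] at h2
    rw [Matrix.of_apply]
    have h3 : (1 : Matrix (Fin (r + s)) (Fin (r + s)) K) (Fin.castAdd s i) (Fin.castAdd s j) =
        (1 : Matrix (Fin r) (Fin r) K) i j := by
      rw [Matrix.one_apply, Matrix.one_apply]
      congr 1
      exact propext (Fin.castAdd_injective r s).eq_iff
    rw [← h3, ← h2]
    refine Finset.sum_congr rfl fun k _ => ?_
    rw [hP, Matrix.of_apply, Fin.append_left, mul_comm]
  rw [h1, Matrix.det_one]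

end field

end Pool.Agent.VCI.TauL
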