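import Pool.Agent.VCI.Basic
import Pool.Agent.VCI.TauL
import Pool.Agent.VGS.Tau

/-! Complete intersections: two-forms evaluated on derivations of `ℂ`. -/

set_option autoImplicit false

open scoped LinearAlgebra.Projectivization
open MvPolynomial

namespace Pool.Agent.VCI

open Pool.Agent.VGS (Fl adj clo Coef Kills conjD conjD_apply conjD_kills exists_kills exists_map_eq
  le_adj le_clo)

/-- The forms `F i` define a smooth complete intersection. -/
structure IsSmoothCI {r : ℕ} (F : Fin r → MvPolynomial (Fin (r + 3)) ℂ) (d : Fin r → ℕ) :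
    Prop where
  hom : ∀ i, (F i).IsHomogeneous (d i)
  smooth : ∀ z : Fin (r + 3) → ℂ, z ≠ 0 → (∀ i, aeval z (F i) = 0) →
    LinearIndependent ℂ (fun i j => aeval z (pderiv j (F i)))

variable {r : ℕ} {F : Fin r → MvPolynomial (Fin (r + 3)) ℂ} {d : Fin r → ℕ} {e : ℕ}

theorem coef_pderiv {n : ℕ} {L : Fl} {G : MvPolynomial (Fin n) ℂ} (hG : Coef L G) (i : Fin n) :
    Coef L (MvPolynomial.pderiv i G) := by
  intro m
  rw [coeff_pderiv]
  exact mul_mem (hG _) (add_mem (natCast_mem L _) (one_mem L))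

/-- Chain rule for a polynomial with coefficients killed by the derivation. -/
theorem der_aeval {n : ℕ} {L : Fl} {G : MvPolynomial (Fin n) ℂ} (hG : Coef L G)
    {D : Derivation ℤ ℂ ℂ} (hD : Kills L D) (z : Fin n → ℂ) :
    D (aeval z G) = dFc G z (fun i => D (z i)) := by
  obtain ⟨G₀, rfl⟩ := exists_map_eq hG
  clear hG
  induction G₀ using MvPolynomial.induction_on with
  | C a =>
    have h1 : D (a : ℂ) = 0 := hD _ a.2
    simp only [map_C, aeval_C, dFc, pderiv_C, map_zero, mul_zero, Finset.sum_const_zero]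
    exact h1
  | add p q hp hq =>
    rw [map_add, map_add, map_add, hp, hq]
    simp only [dFc, map_add, mul_add, Finset.sum_add_distrib]
  | mul_X p i hp =>
    rw [map_mul, map_X, map_mul, aeval_X, Derivation.leibniz, hp]
    simp only [dFc, Derivation.leibniz, pderiv_X, smul_eq_mul, map_add, map_mul, aeval_X]
    simp only [mul_add, Finset.sum_add_distrib]
    congr 1
    · rw [Finset.sum_eq_single i]
      · simp [mul_comm]
      · intro j _ hj
        simp [hj.symm]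
      · intro h; exact absurd (Finset.mem_univ i) h
    · rw [Finset.mul_sum]
      refine Finset.sum_congr rfl fun j _ => by ring

/-- Euler's formula -/
theorem dFc_self (hF : IsSmoothCI F d) {z : Fin (r + 3) → ℂ} (hzF : ∀ i, aeval z (F i) = 0)
    (i : Fin r) : dFc (F i) z z = 0 := by
  have h1 := (hF.hom i).sum_X_mul_pderiv
  have h2 := congrArg (aeval z) h1
  rw [map_sum, map_nsmul, hzF i, nsmul_zero] at h2
  rw [dFc, ← h2]
  refine Finset.sum_congr rfl fun j _ => ?_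
  rw [map_mul, aeval_X]

theorem dFc_der {L : Fl} (hFL : ∀ i, Coef L (F i)) {D : Derivation ℤ ℂ ℂ} (hD : Kills L D)
    {z : Fin (r + 3) → ℂ} (hzF : ∀ i, aeval z (F i) = 0) (i : Fin r) :
    dFc (F i) z (fun i => D (z i)) = 0 := by
  rw [← der_aeval (hFL i) hD, hzF i, map_zero]

/-- existence of the value of the two-form -/
theorem exists_isResC (hF : IsSmoothCI F d) {L : Fl} (hFL : ∀ i, Coef L (F i))
    {D₁ D₂ : Derivation ℤ ℂ ℂ} (h₁ : Kills L D₁) (h₂ : Kills L D₂) {z : Fin (r + 3) → ℂ}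
    (hz : z ≠ 0) (hzF : ∀ i, aeval z (F i) = 0) : ∃ J, IsResC F D₁ D₂ z J := by
  obtain ⟨m, hm⟩ := TauL.exists_ext (hF.smooth z hz hzF)
  refine ⟨(Matrix.of fun a b => ∑ k, (![z, fun i => D₁ (z i), fun i => D₂ (z i)] :
    Fin 3 → Fin (r + 3) → ℂ) a k * m b k).det /
    (Matrix.of (Fin.append (fun i j => aeval z (pderiv j (F i))) m)).det, ?_⟩
  intro v
  have h1 := TauL.block_det v (fun i j => aeval z (pderiv j (F i)))
    ![z, fun i => D₁ (z i), fun i => D₂ (z i)] m (by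
      intro a b
      fin_cases a
      · exact dFc_self hF hzF b
      · exact dFc_der hFL h₁ hzF b
      · exact dFc_der hFL h₂ hzF b)
  rw [div_mul_eq_mul_div, eq_div_iff hm, h1, mul_comm]
  rfl

theorem IsResC.unique (hF : IsSmoothCI F d) {D₁ D₂ : Derivation ℤ ℂ ℂ} {z : Fin (r + 3) → ℂ}
    (hz : z ≠ 0) (hzF : ∀ i, aeval z (F i) = 0) {J J' : ℂ} (h : IsResC F D₁ D₂ z J)
    (h' : IsResC F D₁ D₂ z J') : J = J' := by
  obtain ⟨v, hv⟩ := TauL.exists_dual (hF.smooth z hz hzF)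
  have h1 := (h v).symm.trans (h' v)
  have h2 : (Matrix.of fun i j => dFc (F i) z (v j)).det = 1 := hv
  rwa [h2, mul_one, mul_one] at h1

/-- Scaling. -/
theorem IsResC.smul (hF : IsSmoothCI F d) (he : e + (r + 3) = ∑ i, d i)
    {D₁ D₂ : Derivation ℤ ℂ ℂ} {z : Fin (r + 3) → ℂ} (hz : z ≠ 0) (hzF : ∀ i, aeval z (F i) = 0)
    {J : ℂ} (h : IsResC F D₁ D₂ z J) (c : ℂ) (hc : c ≠ 0) :
    IsResC F D₁ D₂ (c • z) (J * (c ^ e)⁻¹) := by
  intro v
  have hpos : ∀ i, 1 ≤ d i := by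
    intro i
    by_contra hcon
    have h0 : d i = 0 := by omega
    have h1 := hF.hom i
    rw [h0] at h1
    apply (hF.smooth z hz hzF).ne_zero i
    funext j
    rw [← totalDegree_zero_iff_isHomogeneous, totalDegree_eq_zero_iff_eq_C] at h1
    rw [h1, pderiv_C, map_zero]
    rfl
  have h1 : (Matrix.of (Fin.append v ![c • z, fun i => D₁ ((c • z) i),
      fun i => D₂ ((c • z) i)])).det =
      c ^ 3 * (Matrix.of (Fin.append v ![z, fun i => D₁ (z i), fun i => D₂ (z i)])).det := by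
    have h2 := TauL.append_lin v ![z, fun i => D₁ (z i), fun i => D₂ (z i)]
      !![c, 0, 0; D₁ c, c, 0; D₂ c, 0, c]
    have h3 : (!![c, 0, 0; D₁ c, c, 0; D₂ c, 0, c] : Matrix (Fin 3) (Fin 3) ℂ).det = c ^ 3 := by
      rw [Matrix.det_fin_three]
      simp
      ring
    rw [h3] at h2
    rw [← h2]
    congr 3
    funext a k
    fin_cases a
    · simp [Fin.sum_univ_three]
    · simp [Fin.sum_univ_three, Derivation.leibniz]
      ring
    · simp [Fin.sum_univ_three, Derivation.leibniz]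
      ring
  have h2 : (Matrix.of fun i j => dFc (F i) (c • z) (v j)).det =
      c ^ (e + 3) * (Matrix.of fun i j => dFc (F i) z (v j)).det := by
    have h3 : ∀ i j, dFc (F i) (c • z) (v j) = c ^ (d i - 1) * dFc (F i) z (v j) := by
      intro i j
      simp only [dFc, Finset.mul_sum]
      refine Finset.sum_congr rfl fun k _ => ?_
      rw [aeval_scale (hF.hom i).pderiv (z := c • z) (w := z) (a := c) (fun _ => rfl)]
      ring
    have h4 : (Matrix.of fun i j => dFc (F i) (c • z) (v j)) =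
        Matrix.of fun i j => (fun i => c ^ (d i - 1)) i *
          (Matrix.of fun i j => dFc (F i) z (v j)) i j := by
      ext i j
      exact h3 i j
    rw [h4, Matrix.det_mul_column, Finset.prod_pow_eq_pow_sum]
    congr 2
    have h5 : ∑ i, d i = ∑ i, (d i - 1) + r := by
      have h6 : ∀ i, d i = (d i - 1) + 1 := fun i => by have := hpos i; omega
      rw [Finset.sum_congr rfl fun i _ => h6 i, Finset.sum_add_distrib]
      simp
    omega
  rw [h1, h v, h2, pow_add]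
  have : c ^ e ≠ 0 := pow_ne_zero _ hc
  field_simp

/-- computation of `tau` with any representative -/
theorem tau_eq (hF : IsSmoothCI F d) (he : e + (r + 3) = ∑ i, d i) {D₁ D₂ : Derivation ℤ ℂ ℂ}
    {z : Fin (r + 3) → ℂ} (hz : z ≠ 0) (hzF : ∀ i, aeval z (F i) = 0)
    {f : MvPolynomial (Fin (r + 3)) ℂ} (hf : f.IsHomogeneous e) {J : ℂ}
    (hJ : IsResC F D₁ D₂ z J) :
    tau F D₁ D₂ f (Projectivization.mk ℂ z hz) = aeval z f * J := by
  obtain ⟨a, ha⟩ := Projectivization.exists_smul_eq_mk_rep ℂ z hz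
  have hrep : (Projectivization.mk ℂ z hz : PN (r + 3)).rep = (a : ℂ) • z := ha.symm
  have ha0 : (a : ℂ) ≠ 0 := a.ne_zero
  have hJ' : IsResC F D₁ D₂ (Projectivization.mk ℂ z hz : PN (r + 3)).rep
      (J * ((a : ℂ) ^ e)⁻¹) := by
    rw [hrep]
    exact hJ.smul hF he hz hzF _ ha0
  have hrF : ∀ i, aeval (Projectivization.mk ℂ z hz : PN (r + 3)).rep (F i) = 0 :=
    (mem_surf_mk hF.hom hz).mpr hzF
  have heps := Classical.epsilon_spec (p := fun J => IsResC F D₁ D₂
    (Projectivization.mk ℂ z hz : PN (r + 3)).rep J) ⟨_, hJ'⟩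
  rw [tau, IsResC.unique hF (Projectivization.rep_nonzero _) hrF heps hJ', hrep,
    aeval_scale hf (z := (a : ℂ) • z) (w := z) (a := a) (fun _ => rfl)]
  have : (a : ℂ) ^ e ≠ 0 := pow_ne_zero _ ha0
  field_simp

/-- linearity in `f` -/
theorem tau_sum (F : Fin r → MvPolynomial (Fin (r + 3)) ℂ) (D₁ D₂ : Derivation ℤ ℂ ℂ) {ι : Type}
    (s : Finset ι) (c : ι → ℂ) (f : ι → MvPolynomial (Fin (r + 3)) ℂ) (p : PN (r + 3)) :
    tau F D₁ D₂ (∑ i ∈ s, C (c i) * f i) p = ∑ i ∈ s, c i * tau F D₁ D₂ (f i) p := by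
  simp only [tau]
  rw [map_sum, Finset.sum_mul]
  refine Finset.sum_congr rfl fun i _ => ?_
  rw [map_mul, aeval_C, mul_assoc]
  rfl

/-- points over a field killed by the derivations -/
theorem tau_over (hF : IsSmoothCI F d) (he : e + (r + 3) = ∑ i, d i) {L : Fl}
    {D₁ D₂ : Derivation ℤ ℂ ℂ} (h₁ : Kills L D₁) {p : PN (r + 3)} (hp : p ∈ ciS F)
    (hpL : Over L p) {f : MvPolynomial (Fin (r + 3)) ℂ} (hf : f.IsHomogeneous e) :
    tau F D₁ D₂ f p = 0 := by
  obtain ⟨z, hz, hzL, rfl⟩ := hpL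
  have hzF : ∀ i, aeval z (F i) = 0 := (mem_surf_mk hF.hom hz).mp hp
  have hJ : IsResC F D₁ D₂ z 0 := by
    intro v
    have h1 : (fun i => D₁ (z i)) = 0 := funext fun i => h₁ _ (hzL i)
    rw [h1, zero_mul]
    refine Matrix.det_eq_zero_of_row_eq_zero (Fin.natAdd r 1) fun j => ?_
    rw [Matrix.of_apply, Fin.append_right]
    rfl
  rw [tau_eq hF he hz hzF hf hJ, mul_zero]

theorem aeval_map_fix {n : ℕ} (σ : ℂ ≃+* ℂ) (z : Fin n → ℂ) (f : MvPolynomial (Fin n) ℂ) :
    aeval (fun i => σ (z i)) (map (σ : ℂ →+* ℂ) f) = σ (aeval z f) := by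
  rw [aeval_def, aeval_def, eval₂_map]
  exact (eval₂_comp_left (σ : ℂ →+* ℂ) (algebraMap ℂ ℂ) z f).symm

/-- transport by an automorphism over the field of definition of `F` -/
theorem tau_act (hF : IsSmoothCI F d) (he : e + (r + 3) = ∑ i, d i) {L : Fl}
    (hFL : ∀ i, Coef L (F i)) {D₁ D₂ : Derivation ℤ ℂ ℂ} (h₁ : Kills L D₁) (h₂ : Kills L D₂)
    {σ : ℂ ≃+* ℂ} (hσ : σ ∈ VGS.Fix L) {p : PN (r + 3)} (hp : p ∈ ciS F)
    {f : MvPolynomial (Fin (r + 3)) ℂ} (hf : f.IsHomogeneous e) :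
    tau F (conjD σ D₁) (conjD σ D₂) (map (σ : ℂ →+* ℂ) f) (act σ p) = σ (tau F D₁ D₂ f p) := by
  obtain ⟨z, hz, i, -, rfl⟩ := exists_nrm p
  have hzF : ∀ i, aeval z (F i) = 0 := (mem_surf_mk hF.hom hz).mp hp
  obtain ⟨J, hJ⟩ := exists_isResC hF hFL h₁ h₂ hz hzF
  have hσz : (fun i => σ (z i)) ≠ 0 := map_ne_zero' σ hz
  have hσzF : ∀ i, aeval (fun i => σ (z i)) (F i) = 0 := by
    intro i
    rw [VGS.aeval_fix (hFL i) hσ, hzF, map_zero]
  have hJ' : IsResC F (conjD σ D₁) (conjD σ D₂) (fun i => σ (z i)) (σ J) := by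
    intro v
    have h1 := congrArg σ (hJ (fun i j => σ.symm (v i j)))
    rw [map_mul] at h1
    have h2 : σ (Matrix.of fun i j => dFc (F i) z fun k => σ.symm (v j k)).det =
        (Matrix.of fun i j => dFc (F i) (fun i => σ (z i)) (v j)).det := by
      have h3 := RingHom.map_det (σ : ℂ →+* ℂ)
        (Matrix.of fun i j => dFc (F i) z fun k => σ.symm (v j k))
      refine h3.trans ?_
      congr 1
      ext i j
      rw [RingHom.mapMatrix_apply, Matrix.map_apply, Matrix.of_apply, Matrix.of_apply]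
      change σ (dFc (F i) z fun k => σ.symm (v j k)) = _
      simp only [dFc, map_sum, map_mul, RingEquiv.apply_symm_apply]
      refine Finset.sum_congr rfl fun k _ => ?_
      rw [VGS.aeval_fix (coef_pderiv (hFL i) k) hσ]
    rw [h2] at h1
    rw [← h1]
    have h4 := TauL.map_det_append (σ : ℂ →+* ℂ) (fun i j => σ.symm (v i j))
      ![z, fun i => D₁ (z i), fun i => D₂ (z i)]
    refine Eq.trans ?_ h4.symm
    congr 3
    · funext i j
      exact (RingEquiv.apply_symm_apply σ _).symm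
    · have h3 : ∀ D : Derivation ℤ ℂ ℂ, (fun i => conjD σ D (σ (z i))) = fun i => σ (D (z i)) := by
        intro D
        funext i
        rw [conjD_apply, RingEquiv.symm_apply_apply]
      rw [h3, h3]
      funext a k
      fin_cases a <;> rfl
  rw [act_mk σ z hz hσz, tau_eq hF he hσz hσzF (hf.map _) hJ', tau_eq hF he hz hzF hf hJ, map_mul]
  congr 1
  exact aeval_map_fix σ z f

/-- a generic point has derivations on which a two-form is not zero -/
theorem exists_tau_ne (hF : IsSmoothCI F d) (he : e + (r + 3) = ∑ i, d i) (L : Fl) [Countable L]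
    (hFL : ∀ i, Coef L (F i)) {p : PN (r + 3)} (hp : p ∈ Gen L F) :
    ∃ D₁ D₂ : Derivation ℤ ℂ ℂ, Kills L D₁ ∧ Kills L D₂ ∧ Kills (clo L) D₁ ∧ Kills (clo L) D₂ ∧
      ∀ i, p.rep i ≠ 0 → tau F D₁ D₂ (X i ^ e) p ≠ 0 := by
  obtain ⟨hpF, i, j, l, hi, hjl⟩ := hp
  obtain ⟨z, hzdef⟩ : ∃ z : Fin (r + 3) → ℂ, z = (p.rep i)⁻¹ • p.rep := ⟨_, rfl⟩
  have hzk : ∀ k, z k = p.rep k / p.rep i := by
    intro k
    rw [hzdef, Pi.smul_apply, smul_eq_mul, div_eq_inv_mul]
  have hzi : z i = 1 := by rw [hzk, div_self hi]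
  have hz : z ≠ 0 := fun h => by
    rw [h] at hzi
    exact zero_ne_one hzi
  have hpz : p = Projectivization.mk ℂ z hz := by
    rw [← p.mk_rep]
    refine mk_eq_mk_of_mul _ _ (a := p.rep i) fun k => ?_
    rw [hzk, mul_div_cancel₀ _ hi]
  rw [← hzk, ← hzk] at hjl
  obtain ⟨D₁, hD₁, h1j, h1l⟩ := exists_kills (clo L) (VGS.ai_clo.2 hjl) 1 0
  obtain ⟨D₂, hD₂, h2j, h2l⟩ := exists_kills (clo L) (VGS.ai_clo.2 hjl) 0 1
  have h₁ : Kills L D₁ := fun x hx => hD₁ x (le_clo L hx)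
  have h₂ : Kills L D₂ := fun x hx => hD₂ x (le_clo L hx)
  have hzF : ∀ i, aeval z (F i) = 0 := by
    rw [hpz] at hpF
    exact (mem_surf_mk hF.hom hz).mp hpF
  obtain ⟨J, hJ⟩ := exists_isResC hF hFL h₁ h₂ hz hzF
  refine ⟨D₁, D₂, h₁, h₂, hD₁, hD₂, fun a ha => ?_⟩
  have hhom : (X a ^ e : MvPolynomial (Fin (r + 3)) ℂ).IsHomogeneous e := by
    have := (isHomogeneous_X ℂ a).pow e
    rwa [one_mul] at this
  have hza : z a ≠ 0 := by
    rw [hzk]
    exact div_ne_zero ha hi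
  rw [hpz, tau_eq hF he hz hzF hhom hJ, map_pow, aeval_X]
  refine mul_ne_zero (pow_ne_zero _ hza) ?_
  rintro rfl
  have h10 : D₁ (z i) = 0 := by rw [hzi, D₁.map_one_eq_zero]
  have h20 : D₂ (z i) = 0 := by rw [hzi, D₂.map_one_eq_zero]
  have hli : LinearIndependent ℂ (![z, fun i => D₁ (z i), fun i => D₂ (z i)] :
      Fin 3 → Fin (r + 3) → ℂ) := by
    rw [Fintype.linearIndependent_iff]
    intro g hg
    rw [Fin.sum_univ_three] at hg
    have e0 := congrFun hg i
    have e1 := congrFun hg j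
    have e2 := congrFun hg l
    simp [hzi, h1j, h2j, h1l, h2l] at e0 e1 e2
    rw [e0] at e1 e2
    simp at e1 e2
    intro b
    fin_cases b
    · exact e0
    · exact e1
    · exact e2
  obtain ⟨m, hm⟩ := TauL.exists_ext' (r := r) hli
  apply hm
  rw [hJ m, zero_mul]

end Pool.Agent.VCI
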