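import Pool.Agent.VCI.Rho
import Pool.Agent.VCI.Tau
import Pool.Agent.VGS.EffTau

/-! Module EffTauA: derivations of the function field, transport of the residues to `ℂ`. -/

set_option autoImplicit false

open scoped LinearAlgebra.Projectivization
open MvPolynomial

namespace Pool.Agent.VCI

open Pool.Agent.VGS (Fl adj clo Coef Kills le_clo mem_clo mem_clo_iff_exists adj_le subset_adj le_adj)
open Pool.Agent.VGS.EffTauAux (flS alg_mem_flS mem_flS isAlg_mono isAlg_clo)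

namespace EffTauAux

variable {r : ℕ} {Ω : Type} [Field Ω] [Algebra ℂ Ω] {F : Fin r → MvPolynomial (Fin (r + 3)) ℂ}
  {d : Fin r → ℕ} {e : ℕ}

/-- the elements of `cloΩ κ ξ` are algebraic over two coordinates -/
theorem alg_cloΩ {κ : Fl} {ξ : Fin (r + 3) → Ω} {j k : Fin (r + 3)}
    (hxi : ∀ m, IsAlgebraic (flS κ {ξ j, ξ k}) (ξ m)) {x : Ω} (hx : x ∈ cloΩ κ ξ) :
    IsAlgebraic (flS κ {ξ j, ξ k}) x := by
  have hx' : IsAlgebraic (Subfield.closure ((algebraMap ℂ Ω) '' (κ : Set ℂ) ∪ Set.range ξ)) x :=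
    mem_algebraicClosure_iff.1 hx
  refine isAlg_clo (fun y hy => ?_) hx'
  have h2 : Subfield.closure ((algebraMap ℂ Ω) '' (κ : Set ℂ) ∪ Set.range ξ) ≤
      (algebraicClosure (flS κ {ξ j, ξ k}) Ω).toSubfield := by
    rw [Subfield.closure_le]
    rintro z (⟨c, hc, rfl⟩ | ⟨m, rfl⟩)
    · exact mem_algebraicClosure_iff.2
        (isAlgebraic_algebraMap (⟨_, alg_mem_flS hc⟩ : flS κ {ξ j, ξ k}))
    · exact mem_algebraicClosure_iff.2 (hxi m)
  exact mem_algebraicClosure_iff.1 (h2 hy)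

/-- the other coordinates of a generic point are algebraic over two independent ones -/
theorem alg_xi {κ : Fl} {ρ : ℂ ≃+* Ω} (hρ : ∀ c ∈ κ, ρ c = algebraMap ℂ Ω c)
    {z : Fin (r + 3) → ℂ} {ξ : Fin (r + 3) → Ω} (hρξ : ∀ i, ρ (z i) = ξ i) {j k : Fin (r + 3)}
    {m : Fin (r + 3)} (hm : z m ∈ clo (adj κ {z j, z k})) :
    IsAlgebraic (flS κ {ξ j, ξ k}) (ξ m) := by
  let M : Fl :=
    { Subfield.comap (ρ : ℂ →+* Ω) (flS κ {ξ j, ξ k}) with
      algebraMap_mem' := fun q => by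
        change ρ (algebraMap ℚ ℂ q) ∈ flS κ {ξ j, ξ k}
        rw [show ρ (algebraMap ℚ ℂ q) = (q : Ω) by simp]
        exact SubfieldClass.ratCast_mem _ q }
  have hM : adj κ {z j, z k} ≤ M := by
    refine adj_le (fun x hx => ?_) ?_
    · change ρ x ∈ flS κ {ξ j, ξ k}
      rw [hρ x hx]
      exact alg_mem_flS hx
    · rintro x (rfl | hx)
      · change ρ (z j) ∈ flS κ {ξ j, ξ k}
        rw [hρξ]
        exact mem_flS (by simp)
      · rw [Set.mem_singleton_iff] at hx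
        subst hx
        change ρ (z k) ∈ flS κ {ξ j, ξ k}
        rw [hρξ]
        exact mem_flS (by simp)
  rw [mem_clo_iff_exists] at hm
  obtain ⟨p, hp0, hpc, hpz⟩ := hm
  have hlift : p.map (ρ : ℂ →+* Ω) ∈ Polynomial.lifts (algebraMap (flS κ {ξ j, ξ k}) Ω) := by
    rw [Polynomial.lifts_iff_coeff_lifts]
    intro n
    rw [Polynomial.coeff_map]
    exact ⟨⟨_, hM (hpc n)⟩, rfl⟩
  obtain ⟨q, hq⟩ := (Polynomial.mem_lifts _).1 hlift
  refine ⟨q, ?_, ?_⟩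
  · rintro rfl
    rw [Polynomial.map_zero] at hq
    exact hp0 ((Polynomial.map_eq_zero_iff ρ.injective).1 hq.symm)
  · rw [Polynomial.aeval_def, Polynomial.eval₂_eq_eval_map, hq, ← hρξ m]
    have h1 := Polynomial.eval_map_apply (p := p) (f := (ρ : ℂ →+* Ω)) (z m)
    rw [hpz, map_zero] at h1
    exact h1

/-- two independent coordinates are a transcendence basis -/
theorem basis_xi {ξ : Fin (r + 3) → Ω} (hξ : IsGenericPoint F ξ) {κ : Fl} {j k : Fin (r + 3)}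
    (hjk : AlgebraicIndependent ℂ ![ξ j, ξ k])
    (hxi : ∀ m, IsAlgebraic (flS κ {ξ j, ξ k}) (ξ m)) : IsTranscendenceBasis ℂ ![ξ j, ξ k] := by
  have h1 : ∀ m, IsAlgebraic (IntermediateField.adjoin ℂ (Set.range ![ξ j, ξ k])) (ξ m) := by
    intro m
    have h7 : flS κ {ξ j, ξ k} ≤ (IntermediateField.adjoin ℂ (Set.range ![ξ j, ξ k])).toSubfield := by
      unfold flS
      rw [Subfield.closure_le]
      rintro z (⟨c, hc, rfl⟩ | hz)
      · exact (IntermediateField.adjoin ℂ (Set.range ![ξ j, ξ k])).algebraMap_mem c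
      · refine IntermediateField.subset_adjoin ℂ _ ?_
        rcases hz with rfl | hz
        · exact ⟨0, rfl⟩
        · rw [Set.mem_singleton_iff] at hz
          exact ⟨1, hz.symm⟩
    exact isAlg_mono h7 (hxi m)
  have halg2 : Algebra.IsAlgebraic (IntermediateField.adjoin ℂ (Set.range ![ξ j, ξ k])) Ω := by
    refine ⟨fun x => ?_⟩
    have h3 : IsAlgebraic (IntermediateField.adjoin ℂ (Set.range ξ)).toSubfield x :=
      hξ.alg.isAlgebraic x
    have h4 : IsAlgebraic (IntermediateField.adjoin ℂ (Set.range ![ξ j, ξ k])).toSubfield x := by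
      refine isAlg_clo (fun y hy => ?_) h3
      have h5 : IntermediateField.adjoin ℂ (Set.range ξ) ≤
          (algebraicClosure (IntermediateField.adjoin ℂ (Set.range ![ξ j, ξ k])) Ω).restrictScalars
            ℂ := by
        rw [IntermediateField.adjoin_le_iff]
        rintro _ ⟨m, rfl⟩
        exact mem_algebraicClosure_iff.2 (h1 m)
      exact mem_algebraicClosure_iff.1 (h5 hy)
    exact h4
  exact hjk.isTranscendenceBasis_iff_isAlgebraic.mpr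
    (IntermediateField.isAlgebraic_adjoin_iff_top.mp halg2)

/-! ### transport -/

/-- the derivation of `ℂ` which corresponds to a derivation of `Ω` -/
noncomputable def pull (ρ : ℂ ≃+* Ω) (E : Derivation ℂ Ω Ω) : Derivation ℤ ℂ ℂ :=
  Derivation.mk' ((ρ.symm : Ω →+* ℂ).toAddMonoidHom.toIntLinearMap.comp
    (((E.restrictScalars ℤ : Derivation ℤ Ω Ω) : Ω →ₗ[ℤ] Ω).comp
      (ρ : ℂ →+* Ω).toAddMonoidHom.toIntLinearMap)) (by
    intro a b
    simp)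

theorem pull_apply (ρ : ℂ ≃+* Ω) (E : Derivation ℂ Ω Ω) (x : ℂ) :
    pull ρ E x = ρ.symm (E (ρ x)) := rfl

theorem pull_kills {κ : Fl} {ρ : ℂ ≃+* Ω} (hρ : ∀ c ∈ κ, ρ c = algebraMap ℂ Ω c)
    (E : Derivation ℂ Ω Ω) : Kills κ (pull ρ E) := by
  intro c hc
  rw [pull_apply, hρ c hc, E.map_algebraMap, map_zero]

omit [Algebra ℂ Ω] in
theorem map_append_det (ρ : ℂ ≃+* Ω) (v : Fin r → Fin (r + 3) → ℂ) (w : Fin 3 → Fin (r + 3) → ℂ) :
    ρ (Matrix.of (Fin.append v w)).det =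
      (Matrix.of (Fin.append (fun i k => ρ (v i k)) (fun i k => ρ (w i k)))).det := by
  have h1 := RingHom.map_det (ρ : ℂ →+* Ω) (Matrix.of (Fin.append v w))
  refine h1.trans ?_
  congr 1
  ext i k
  refine Fin.addCases (fun i => ?_) (fun i => ?_) i
  · simp
  · simp

theorem rho_dFc {κ : Fl} {ρ : ℂ ≃+* Ω} (hρ : ∀ c ∈ κ, ρ c = algebraMap ℂ Ω c)
    {G : MvPolynomial (Fin (r + 3)) ℂ} (hG : Coef κ G) (z v : Fin (r + 3) → ℂ) :
    ρ (dFc G z v) = dF G (fun i => ρ (z i)) (fun i => ρ (v i)) := by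
  unfold dFc dF
  rw [map_sum]
  refine Finset.sum_congr rfl fun i _ => ?_
  rw [map_mul, rho_aeval hρ (coef_pderiv hG i)]

theorem isRes_iff {κ : Fl} (hFκ : ∀ i, Coef κ (F i)) {ρ : ℂ ≃+* Ω}
    (hρ : ∀ c ∈ κ, ρ c = algebraMap ℂ Ω c) {D₁ D₂ : Derivation ℤ ℂ ℂ}
    {E₁ E₂ : Derivation ℂ Ω Ω} {x : Fin (r + 3) → Ω} (h₁ : ∀ i, ρ (D₁ (ρ.symm (x i))) = E₁ (x i))
    (h₂ : ∀ i, ρ (D₂ (ρ.symm (x i))) = E₂ (x i)) {J : Ω} :
    IsRes F E₁ E₂ x J ↔ IsResC F D₁ D₂ (fun i => ρ.symm (x i)) (ρ.symm J) := by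
  have key : ∀ v : Fin r → Fin (r + 3) → ℂ,
      (Matrix.of (Fin.append (fun i k => ρ (v i k))
        ![x, fun i => E₁ (x i), fun i => E₂ (x i)])).det =
        ρ (Matrix.of (Fin.append v ![fun i => ρ.symm (x i), fun i => D₁ (ρ.symm (x i)),
          fun i => D₂ (ρ.symm (x i))])).det ∧
      J * (Matrix.of fun i j => dF (F i) x (fun k => ρ (v j k))).det =
        ρ (ρ.symm J * (Matrix.of fun i j => dFc (F i) (fun i => ρ.symm (x i)) (v j)).det) := by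
    intro v
    constructor
    · rw [map_append_det]
      congr 3
      funext i k
      fin_cases i
      · simp
      · simp [h₁]
      · simp [h₂]
    · rw [map_mul, ρ.apply_symm_apply]
      congr 1
      have h1 := RingHom.map_det (ρ : ℂ →+* Ω)
        (Matrix.of fun i j => dFc (F i) (fun i => ρ.symm (x i)) (v j))
      refine Eq.trans ?_ h1.symm
      congr 1
      ext i j
      have h2 := rho_dFc hρ (hFκ i) (fun i => ρ.symm (x i)) (v j)
      simp only [ρ.apply_symm_apply] at h2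
      exact h2.symm
  constructor
  · intro h v
    apply ρ.injective
    have h3 := h (fun i k => ρ (v i k))
    rw [(key v).1, (key v).2] at h3
    exact h3
  · intro h v
    have h3 := h (fun i k => ρ.symm (v i k))
    have h4 := key (fun i k => ρ.symm (v i k))
    simp only [ρ.apply_symm_apply] at h4
    rw [h4.1, h4.2, h3]

theorem isRes_pull {κ : Fl} (hFκ : ∀ i, Coef κ (F i)) {ρ : ℂ ≃+* Ω}
    (hρ : ∀ c ∈ κ, ρ c = algebraMap ℂ Ω c) {E₁ E₂ : Derivation ℂ Ω Ω} {x : Fin (r + 3) → Ω}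
    {J : Ω} :
    IsRes F E₁ E₂ x J ↔ IsResC F (pull ρ E₁) (pull ρ E₂) (fun i => ρ.symm (x i)) (ρ.symm J) :=
  isRes_iff hFκ hρ (fun i => by rw [pull_apply, ρ.apply_symm_apply, ρ.apply_symm_apply])
    (fun i => by rw [pull_apply, ρ.apply_symm_apply, ρ.apply_symm_apply])

omit [Algebra ℂ Ω] in
theorem symm_ne (ρ : ℂ ≃+* Ω) {x : Fin (r + 3) → Ω} (hx : x ≠ 0) :
    (fun i => ρ.symm (x i)) ≠ 0 := by
  intro h
  apply hx
  funext j
  have := congrFun h j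
  simpa using this

theorem exists_isRes (hF : IsSmoothCI F d) {κ : Fl} (hFκ : ∀ i, Coef κ (F i)) {ρ : ℂ ≃+* Ω}
    (hρ : ∀ c ∈ κ, ρ c = algebraMap ℂ Ω c) (E₁ E₂ : Derivation ℂ Ω Ω) {x : Fin (r + 3) → Ω}
    (hx : x ≠ 0) (hx0 : ∀ i, aeval x (F i) = 0) : ∃ J, IsRes F E₁ E₂ x J := by
  obtain ⟨J, hJ⟩ := exists_isResC hF hFκ (pull_kills hρ E₁) (pull_kills hρ E₂) (symm_ne ρ hx)
    (fun i => by rw [symm_aeval hρ (hFκ i), hx0, map_zero])
  refine ⟨ρ J, ?_⟩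
  rw [isRes_pull hFκ hρ, ρ.symm_apply_apply]
  exact hJ

theorem isRes_smul (hF : IsSmoothCI F d) (he : e + (r + 3) = ∑ i, d i) {κ : Fl}
    (hFκ : ∀ i, Coef κ (F i)) {ρ : ℂ ≃+* Ω} (hρ : ∀ c ∈ κ, ρ c = algebraMap ℂ Ω c)
    {E₁ E₂ : Derivation ℂ Ω Ω} {x : Fin (r + 3) → Ω} (hx : x ≠ 0) (hx0 : ∀ i, aeval x (F i) = 0)
    {J : Ω} (h : IsRes F E₁ E₂ x J) (c : Ω) (hc : c ≠ 0) :
    IsRes F E₁ E₂ (c • x) (J * (c ^ e)⁻¹) := by
  rw [isRes_pull hFκ hρ] at h ⊢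
  have hc' : ρ.symm c ≠ 0 := (map_ne_zero_iff ρ.symm ρ.symm.injective).2 hc
  have h1 := h.smul hF he (symm_ne ρ hx)
    (fun i => by rw [symm_aeval hρ (hFκ i), hx0, map_zero]) (ρ.symm c) hc'
  have h2 : (fun i => ρ.symm ((c • x) i)) = ρ.symm c • fun i => ρ.symm (x i) := by
    funext i
    simp
  rw [h2, map_mul, map_inv₀, map_pow]
  exact h1

theorem aeval_smul_homΩ {G : MvPolynomial (Fin (r + 3)) ℂ} {e : ℕ} (hG : G.IsHomogeneous e)
    (a : Ω) (w : Fin (r + 3) → Ω) :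
    MvPolynomial.aeval (a • w) G = a ^ e * MvPolynomial.aeval w G := by
  rw [aeval_def, aeval_def, eval₂_eq', eval₂_eq', Finset.mul_sum]
  refine Finset.sum_congr rfl fun t ht => ?_
  have h3 : t.degree = e := by
    by_contra h
    exact (mem_support_iff.mp ht) (hG.coeff_eq_zero h)
  have h2 : ∏ i, (a • w) i ^ t i = a ^ e * ∏ i, w i ^ t i := by
    simp only [Pi.smul_apply, smul_eq_mul, mul_pow, Finset.prod_mul_distrib,
      Finset.prod_pow_eq_pow_sum]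
    congr 2
    rw [← h3, Finsupp.degree_eq_sum]
  rw [h2]
  ring

/-- the scalar action with any representatives of the points -/
theorem acts_scaled (hF : IsSmoothCI F d) (he : e + (r + 3) = ∑ i, d i) {κ : Fl}
    (hFκ : ∀ i, Coef κ (F i)) {ρ : ℂ ≃+* Ω} (hρ : ∀ c ∈ κ, ρ c = algebraMap ℂ Ω c)
    {ξ : Fin (r + 3) → Ω} {w w' : ℕ}
    (Γ : EffCorr F ξ w) (Γ' : EffCorr F ξ w') {m : ℂ} (hm : ActsByScalar F e Γ Γ' m)
    {t : Fin w → Ω} (ht : ∀ i, t i ≠ 0) {x : Fin w → Fin (r + 3) → Ω}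
    (hx : ∀ i, x i = t i • Γ.pts i) {t' : Fin w' → Ω} (ht' : ∀ i, t' i ≠ 0)
    {x' : Fin w' → Fin (r + 3) → Ω} (hx' : ∀ i, x' i = t' i • Γ'.pts i)
    (D₁ D₂ : Derivation ℂ Ω Ω) {f : MvPolynomial (Fin (r + 3)) ℂ} (hf : f.IsHomogeneous e)
    {J : Fin w → Ω} {J' : Fin w' → Ω} {J₀ : Ω} (hJ : ∀ i, IsRes F D₁ D₂ (x i) (J i))
    (hJ' : ∀ i, IsRes F D₁ D₂ (x' i) (J' i)) (hJ₀ : IsRes F D₁ D₂ ξ J₀) :
    ∑ i, aeval (x i) f * J i - ∑ i, aeval (x' i) f * J' i =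
      algebraMap ℂ Ω m * (aeval ξ f * J₀) := by
  have key : ∀ (c : Ω) (hc : c ≠ 0) (p y : Fin (r + 3) → Ω) (_ : y = c • p) (_ : p ≠ 0)
      (_ : ∀ i, aeval p (F i) = 0) (I : Ω)
      (_ : IsRes F D₁ D₂ y I), ∃ I' : Ω, IsRes F D₁ D₂ p I' ∧ aeval p f * I' = aeval y f * I := by
    intro c hc p y hy hp0 hpF I hI
    have hp : p = c⁻¹ • y := by rw [hy, smul_smul, inv_mul_cancel₀ hc, one_smul]
    have hy0 : y ≠ 0 := by rw [hy]; exact smul_ne_zero hc hp0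
    have hyF : ∀ i, aeval y (F i) = 0 := fun i => by
      rw [hy, aeval_smul_homΩ (hF.hom i), hpF, mul_zero]
    refine ⟨I * (c⁻¹ ^ e)⁻¹, ?_, ?_⟩
    · rw [hp]
      exact isRes_smul hF he hFκ hρ hy0 hyF hI c⁻¹ (inv_ne_zero hc)
    · rw [hp, aeval_smul_homΩ hf]
      have h0 : c⁻¹ ^ e ≠ 0 := pow_ne_zero _ (inv_ne_zero hc)
      field_simp
  choose I hI hI2 using fun i =>
    key (t i) (ht i) (Γ.pts i) (x i) (hx i) (Γ.pts_ne i) (Γ.pts_mem i) (J i) (hJ i)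
  choose I' hI' hI2' using fun i =>
    key (t' i) (ht' i) (Γ'.pts i) (x' i) (hx' i) (Γ'.pts_ne i) (Γ'.pts_mem i) (J' i) (hJ' i)
  have h := hm D₁ D₂ f hf I I' J₀ hI hI' hJ₀
  rw [← h]
  simp only [hI2, hI2']

end EffTauAux

end Pool.Agent.VCI
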