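import Pool.Agent.VCI.AutP
import Pool.Agent.VCI.Conj
import Pool.Agent.VCI.EffDefs
import Pool.Agent.VGS.GenP

/-!
# Complete intersections: existence of generic points over algebraically closed extensions of `ℂ`
-/

set_option autoImplicit false

open scoped LinearAlgebra.Projectivization
open MvPolynomial

namespace Pool.Agent.VCI

open Pool.Agent.VGS

variable {r : ℕ} {d : Fin r → ℕ} {F : Fin r → MvPolynomial (Fin (r + 3)) ℂ}

/-- the algebraic closure of `ℂ(x, y)` -/
abbrev OmT : Type := AlgebraicClosure (FractionRing (MvPolynomial (Fin 2) ℂ))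

/-- its two variables -/
noncomputable def omX (i : Fin 2) : OmT :=
  algebraMap (FractionRing (MvPolynomial (Fin 2) ℂ)) OmT
    (algebraMap (MvPolynomial (Fin 2) ℂ) (FractionRing (MvPolynomial (Fin 2) ℂ)) (X i))

theorem omX_ind : AlgebraicIndependent ℂ omX := by
  have h1 : (aeval omX : MvPolynomial (Fin 2) ℂ →ₐ[ℂ] OmT) =
      (IsScalarTower.toAlgHom ℂ (FractionRing (MvPolynomial (Fin 2) ℂ)) OmT).comp
        (IsScalarTower.toAlgHom ℂ (MvPolynomial (Fin 2) ℂ)
          (FractionRing (MvPolynomial (Fin 2) ℂ))) := by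
    apply MvPolynomial.algHom_ext
    intro i
    rw [aeval_X]
    rfl
  rw [AlgebraicIndependent, h1]
  intro a b hab
  exact IsFractionRing.injective (MvPolynomial (Fin 2) ℂ) (FractionRing (MvPolynomial (Fin 2) ℂ))
    ((algebraMap (FractionRing (MvPolynomial (Fin 2) ℂ)) OmT).injective hab)

theorem omT_alg (S : Set OmT) (hS : ∀ i, omX i ∈ S) :
    Algebra.IsAlgebraic (IntermediateField.adjoin ℂ S) OmT := by
  have key : ∀ P : MvPolynomial (Fin 2) ℂ, aeval omX P ∈ IntermediateField.adjoin ℂ S := by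
    intro P
    induction P using MvPolynomial.induction_on with
    | C a => rw [aeval_C]; exact IntermediateField.algebraMap_mem _ a
    | add p q hp hq => rw [map_add]; exact add_mem hp hq
    | mul_X p i hp =>
      rw [map_mul, aeval_X]
      exact mul_mem hp (IntermediateField.subset_adjoin ℂ S (hS i))
  have h1 : (aeval omX : MvPolynomial (Fin 2) ℂ →ₐ[ℂ] OmT) =
      (IsScalarTower.toAlgHom ℂ (FractionRing (MvPolynomial (Fin 2) ℂ)) OmT).comp
        (IsScalarTower.toAlgHom ℂ (MvPolynomial (Fin 2) ℂ)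
          (FractionRing (MvPolynomial (Fin 2) ℂ))) := by
    apply MvPolynomial.algHom_ext
    intro i
    rw [aeval_X]
    rfl
  have key2 : ∀ x : FractionRing (MvPolynomial (Fin 2) ℂ),
      algebraMap (FractionRing (MvPolynomial (Fin 2) ℂ)) OmT x ∈ IntermediateField.adjoin ℂ S := by
    intro x
    obtain ⟨a, b, hb, rfl⟩ := IsFractionRing.div_surjective (A := MvPolynomial (Fin 2) ℂ) x
    rw [map_div₀]
    have h2 : ∀ P : MvPolynomial (Fin 2) ℂ,
        algebraMap (FractionRing (MvPolynomial (Fin 2) ℂ)) OmT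
          (algebraMap (MvPolynomial (Fin 2) ℂ) (FractionRing (MvPolynomial (Fin 2) ℂ)) P) =
        aeval omX P := by
      intro P
      rw [h1]
      rfl
    rw [h2, h2]
    exact div_mem (key a) (key b)
  constructor
  intro x
  have hx : IsAlgebraic (FractionRing (MvPolynomial (Fin 2) ℂ)) x :=
    Algebra.IsAlgebraic.isAlgebraic x
  obtain ⟨P, hP, hx⟩ := hx
  let φ : FractionRing (MvPolynomial (Fin 2) ℂ) →+* IntermediateField.adjoin ℂ S :=
    (algebraMap (FractionRing (MvPolynomial (Fin 2) ℂ)) OmT).codRestrict _ key2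
  refine ⟨P.map φ, ?_, ?_⟩
  · rwa [Ne, Polynomial.map_eq_zero_iff φ.injective]
  · rw [Polynomial.aeval_def, Polynomial.eval₂_map]
    exact hx

theorem card_omT : Cardinal.mk ℂ = Cardinal.mk OmT := by
  have h0 : Cardinal.aleph0 ≤ Cardinal.mk ℂ := aleph0_lt_complex.le
  apply le_antisymm
  · exact Cardinal.mk_le_of_injective (algebraMap ℂ OmT).injective
  · have := omT_alg (Set.range omX) (fun i => ⟨i, rfl⟩)
    have h1 := Algebra.IsAlgebraic.cardinalMk_le_max
      (IntermediateField.adjoin ℂ (Set.range omX)) OmT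
    have h2 := IntermediateField.cardinalMk_adjoin_le ℂ (Set.range omX)
    have h3 : Cardinal.mk (Set.range omX) ≤ Cardinal.aleph0 := Cardinal.mk_le_aleph0
    exact h1.trans (max_le (h2.trans (max_le (max_le le_rfl (h3.trans h0)) h0)) h0)

/-- an isomorphism of `ℂ` with `OmT` over `L` with given values at two independent elements -/
theorem exists_iso_omT (L : Fl) [Countable L] {x : Fin 2 → ℂ} (hx : AlgebraicIndependent L x) :
    ∃ σ : ℂ ≃+* OmT, (∀ c ∈ L, σ c = algebraMap ℂ OmT c) ∧ ∀ i, σ (x i) = omX i := by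
  have hcount : Countable (MvPolynomial (Fin 2) L) := by
    have h1 : Cardinal.mk (MvPolynomial (Fin 2) L) ≤ Cardinal.aleph0 := by
      refine (MvPolynomial.cardinalMk_le_max).trans ?_
      exact max_le (max_le Cardinal.mk_le_aleph0 Cardinal.mk_le_aleph0) le_rfl
    exact Cardinal.mk_le_aleph0_iff.mp h1
  let f : MvPolynomial (Fin 2) L →+* ℂ := (aeval x : MvPolynomial (Fin 2) L →ₐ[L] ℂ).toRingHom
  let g : MvPolynomial (Fin 2) L →+* OmT :=
    ((aeval omX : MvPolynomial (Fin 2) ℂ →ₐ[ℂ] OmT) : MvPolynomial (Fin 2) ℂ →+* OmT).comp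
      (MvPolynomial.map (algebraMap L ℂ))
  have hf : Function.Injective f := hx
  have hg : Function.Injective g := by
    intro a b hab
    exact MvPolynomial.map_injective (algebraMap L ℂ) (algebraMap L ℂ).injective (omX_ind hab)
  obtain ⟨σ, hσ⟩ := @ext_gen (MvPolynomial (Fin 2) L) ℂ OmT _ _ _ f.toAlgebra g.toAlgebra _ _ _
    hf hg aleph0_lt_complex card_omT
  have hσ' : ∀ P, σ (f P) = g P := hσ
  refine ⟨σ, fun c hc => ?_, fun i => ?_⟩
  · have h1 := hσ' (C (⟨c, hc⟩ : L))
    have h2 : f (C (⟨c, hc⟩ : L)) = c := by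
      change aeval x (C (⟨c, hc⟩ : L)) = c
      rw [aeval_C]
      rfl
    have h3 : g (C (⟨c, hc⟩ : L)) = algebraMap ℂ OmT c := by
      change aeval omX (MvPolynomial.map (algebraMap L ℂ) (C (⟨c, hc⟩ : L))) = _
      rw [map_C, aeval_C]
      rfl
    rw [h2, h3] at h1
    exact h1
  · have h1 := hσ' (X i)
    have h2 : f (X i) = x i := by
      change aeval x (X i) = _
      rw [aeval_X]
    have h3 : g (X i) = omX i := by
      change aeval omX (MvPolynomial.map (algebraMap L ℂ) (X i)) = _
      rw [map_X, aeval_X]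
    rw [h2, h3] at h1
    exact h1

/-- a point of the surface with first coordinate `1` which is generic over a field of definition
gives a generic point in the sense of `IsGenericPoint` -/
theorem exists_genericPoint_of (hF : ∀ i, (F i).IsHomogeneous (d i)) (K : Fl) [Countable K]
    (hK : ∀ i, Coef K (F i)) {p : PN (r + 3)} (hp : p ∈ Gen K F) (h0 : p.rep 0 ≠ 0) :
    ∃ ξ : Fin (r + 3) → OmT, IsGenericPoint F ξ := by
  obtain ⟨hpF, i, j, l, hi, hind⟩ := hp
  -- normalise with respect to the coordinate `0`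
  set z : Fin (r + 3) → ℂ := fun a => p.rep a / p.rep 0 with hz
  have hz0 : z 0 = 1 := div_self h0
  have hzF : ∀ a, aeval z (F a) = 0 := by
    intro a
    have h1 : aeval z (F a) = (p.rep 0)⁻¹ ^ d a * aeval p.rep (F a) :=
      aeval_scale (hF a) (fun b => by rw [hz]; field_simp)
    rw [h1, hpF a, mul_zero]
  -- two independent coordinates
  have key : ∃ a b, AlgebraicIndependent K ![z a, z b] := by
    by_contra hcon
    push Not at hcon
    have hi0 : z i ≠ 0 := div_ne_zero hi h0
    have h2 : ∀ a b, z b ∈ clo (adj K {z a}) ∨ z a ∈ clo K := by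
      intro a b
      by_contra h3
      push Not at h3
      exact hcon a b (ai_pair.2 ⟨h3.2, h3.1⟩)
    have h3 : ∃ t : ℂ, ∀ b, z b ∈ clo (adj K {t}) := by
      by_cases h4 : ∀ a, z a ∈ clo K
      · exact ⟨0, fun b => clo_mono (le_adj _ _) (h4 b)⟩
      · push Not at h4
        obtain ⟨a, ha⟩ := h4
        refine ⟨z a, fun b => ?_⟩
        rcases h2 a b with h5 | h5
        · exact h5
        · exact absurd h5 ha
    obtain ⟨t, ht⟩ := h3
    have h4 : ∀ b, p.rep b / p.rep i ∈ clo (adj K {t}) := by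
      intro b
      have h5 : p.rep b / p.rep i = z b / z i := by
        rw [hz]
        field_simp
      rw [h5]
      exact div_mem (ht b) (ht i)
    have h5 : adj K {t} ≤ adj K (Set.range ![t, 0]) := by
      apply adj_le (le_adj _ _)
      rintro x rfl
      exact subset_adj _ _ ⟨0, rfl⟩
    have h6 : AlgebraicIndependent K ![t, 0] := by
      refine ai_card hind le_rfl (fun m => ?_)
      fin_cases m
      · exact clo_mono h5 (h4 j)
      · exact clo_mono h5 (h4 l)
    exact (ai_pair.1 h6).2 (zero_mem _)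
  obtain ⟨a, b, hab⟩ := key
  obtain ⟨σ, hσ, hσx⟩ := exists_iso_omT K hab
  have h1 : σ (z a) = omX 0 := hσx 0
  have h2 : σ (z b) = omX 1 := hσx 1
  refine ⟨fun m => σ (z m), ?_, ?_, ⟨a, b, ?_⟩, ?_⟩
  · rw [hz0, map_one]
  · intro m
    have h3 : ∀ G : MvPolynomial (Fin (r + 3)) ℂ, Coef K G →
        aeval (fun m => σ (z m)) G = σ (aeval z G) := by
      intro G hG
      rw [aeval_def, aeval_def, eval₂_eq', eval₂_eq', map_sum]
      refine Finset.sum_congr rfl fun m _ => ?_
      rw [map_mul, map_prod]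
      congr 1
      · rw [Algebra.algebraMap_self_apply, hσ _ (hG m)]
      · refine Finset.prod_congr rfl fun i _ => ?_
        rw [map_pow]
    rw [h3 _ (hK m), hzF m, map_zero]
  · have h3 : ![σ (z a), σ (z b)] = omX := by
      funext m
      fin_cases m
      · exact h1
      · exact h2
    rw [h3]
    exact omX_ind
  · apply omT_alg
    intro m
    fin_cases m
    · exact ⟨a, h1⟩
    · exact ⟨b, h2⟩

/-- transport of independence -/
theorem ai_map {L L' : Fl} {σ : ℂ ≃+* ℂ} (hσ : ∀ x ∈ L', σ.symm x ∈ L) {ι : Type} {x : ι → ℂ}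
    (hx : AlgebraicIndependent L x) : AlgebraicIndependent L' (fun i => σ (x i)) := by
  rw [ai_iff] at hx ⊢
  intro P hP h0
  have h1 : aeval x (MvPolynomial.map (σ.symm : ℂ →+* ℂ) P) = 0 := by
    have h2 := aeval_map_act σ.symm P (fun i => σ (x i))
    rw [h0, map_zero] at h2
    simpa using h2
  have h2 := hx _ (coef_map hσ hP) h1
  exact (map_eq_zero_iff _ (MvPolynomial.map_injective (σ.symm : ℂ →+* ℂ) σ.symm.injective)).1 h2

/-- a very general complete intersection has generic points outside of `X 0 = 0` -/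
theorem exists_gen_zero (k : Fl) [Countable k] (hF : ∀ i, (F i).IsHomogeneous (d i))
    (hind : AlgebraicIndependent k (fun m : MonA (r + 3) d => coeff m.1.2 (F m.1.1)))
    {p : PN (r + 3)} (hp : p ∈ Gen (cof k F) F) : ∃ p' ∈ Gen (cof k F) F, p'.rep 0 ≠ 0 := by
  classical
  obtain ⟨z, hz, i, j, l, hi, rfl, hzF, hzi⟩ := gen_nrm hF hp
  set e : Equiv.Perm (Fin (r + 3)) := Equiv.swap 0 i with he
  have hee : ∀ a, e (e a) = a := fun a => Equiv.swap_apply_self _ _ _
  -- the monomials
  have hdeg : ∀ m : Fin (r + 3) →₀ ℕ, (m.mapDomain e).degree = m.degree := by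
    intro m
    rw [Finsupp.degree_eq_sum, Finsupp.degree_eq_sum, ← Equiv.sum_comp e]
    exact Finset.sum_congr rfl fun a _ => Finsupp.mapDomain_apply e.injective m a
  let π : MonA (r + 3) d → MonA (r + 3) d := fun m => ⟨(m.1.1, m.1.2.mapDomain e), by
    rw [hdeg]
    exact m.2⟩
  have hmm : ∀ m : Fin (r + 3) →₀ ℕ, (m.mapDomain e).mapDomain e = m := by
    intro m
    rw [← Finsupp.mapDomain_comp]
    have h1 : (⇑e ∘ ⇑e) = id := by
      funext a
      exact hee a
    rw [h1, Finsupp.mapDomain_id]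
  have hπ : Function.Injective π := by
    intro m m' h
    have h1 : m.1.1 = m'.1.1 := congrArg (fun x => x.1.1) h
    have h2 : m.1.2.mapDomain e = m'.1.2.mapDomain e := congrArg (fun x => x.1.2) h
    have h3 : m.1.2 = m'.1.2 := by rw [← hmm m.1.2, h2, hmm]
    exact Subtype.ext (Prod.ext h1 h3)
  have hco : ∀ (G : MvPolynomial (Fin (r + 3)) ℂ) (m : Fin (r + 3) →₀ ℕ),
      coeff m (rename e G) = coeff (m.mapDomain e) G := by
    intro G m
    conv_lhs => rw [← hmm m]
    rw [coeff_rename_mapDomain e e.injective]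
  have hind' := hind.comp π hπ
  obtain ⟨σ, hσ, h⟩ := fs_exists_fix_ai k hind' hind
  have hmap : ∀ a, MvPolynomial.map (σ : ℂ →+* ℂ) (rename e (F a)) = F a := by
    intro a
    ext m
    rw [MvPolynomial.coeff_map]
    by_cases hm : m.degree = d a
    · rw [hco]
      exact h ⟨(a, m), hm⟩
    · rw [(hF a).coeff_eq_zero hm, ((hF a).rename_isHomogeneous (f := e)).coeff_eq_zero hm]
      exact map_zero _
  -- the new point
  set w : Fin (r + 3) → ℂ := fun a => σ (z (e a)) with hw
  have hw0 : w 0 = 1 := by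
    rw [hw]
    beta_reduce
    rw [he, Equiv.swap_apply_left, hi, map_one]
  have hwne : w ≠ 0 := by
    intro h1
    have h2 := congrFun h1 0
    rw [hw0] at h2
    exact one_ne_zero h2
  have hwF : ∀ a, aeval w (F a) = 0 := by
    intro a
    rw [← hmap a]
    have h1 := aeval_map_act σ (rename e (F a)) (fun b => z (e b))
    rw [aeval_rename] at h1
    have h2 : ((fun b => z (e b)) ∘ e) = z := by
      funext b
      exact congrArg z (hee b)
    rw [h2, hzF a, map_zero] at h1
    exact h1
  have hsymm : ∀ x ∈ cof k F, σ.symm x ∈ cof k F := by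
    apply adj_map
    · intro x hx
      have h1 : σ.symm x = x := by rw [RingEquiv.symm_apply_eq, hσ x hx]
      rw [h1]
      exact hx
    · rintro _ ⟨⟨a, m⟩, rfl⟩
      beta_reduce
      have h1 : coeff m (F a) = σ (coeff (m.mapDomain e) (F a)) := by
        conv_lhs => rw [← hmap a]
        rw [MvPolynomial.coeff_map, hco]
        rfl
      rw [h1, RingEquiv.symm_apply_apply]
      exact subset_adj _ _ ⟨(a, m.mapDomain e), rfl⟩
  refine ⟨Projectivization.mk ℂ w hwne, gen_mk hF hwne (i := 0) (j := e j) (l := e l) hw0 hwF ?_, ?_⟩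
  · have h1 := ai_map hsymm hzi
    have h2 : ![w (e j), w (e l)] = fun a => σ (![z j, z l] a) := by
      funext a
      fin_cases a
      · change σ (z (e (e j))) = σ (z j)
        rw [hee]
      · change σ (z (e (e l))) = σ (z l)
        rw [hee]
    rw [h2]
    exact h1
  · rw [Ne, rep_mk_eq_zero hwne 0, hw0]
    exact one_ne_zero

/-- **existence of generic points** of very general complete intersections -/
theorem exists_genericPoint (k : Fl) [Countable k] (hF : ∀ i, (F i).IsHomogeneous (d i))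
    (hind : AlgebraicIndependent k (fun m : MonA (r + 3) d => coeff m.1.2 (F m.1.1)))
    {p : PN (r + 3)} (hp : p ∈ Gen (cof k F) F) :
    ∃ (Ω : Type) (_ : Field Ω) (_ : Algebra ℂ Ω) (_ : IsAlgClosed Ω) (ξ : Fin (r + 3) → Ω),
      IsGenericPoint F ξ := by
  obtain ⟨p', hp', h0⟩ := exists_gen_zero k hF hind hp
  obtain ⟨ξ, hξ⟩ := exists_genericPoint_of hF (cof k F) (coef_cof k F) hp' h0
  exact ⟨OmT, inferInstance, inferInstance, inferInstance, ξ, hξ⟩

end Pool.Agent.VCI
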