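import Pool.Agent.VCI.Basic

/-! Complete intersections: integral cycles which are rationally equivalent to zero with rational
coefficients. -/

set_option autoImplicit false

open scoped LinearAlgebra.Projectivization
open MvPolynomial

namespace Pool.Agent.VCI

open Pool.Agent.Chow0 (IsLink IsChowForm cyc Z0 ratTriv)
open Pool.Agent.VGS

variable {n r : ℕ}

/-- the cycle with rational coefficients of an integral cycle -/
noncomputable def toCy (F : Fin r → MvPolynomial (Fin n) ℂ) : Z0 (ciS F) →+ Cy n :=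
  FreeAbelianGroup.lift (fun p : ciS F => (Finsupp.single p.1 1 : Cy n))

theorem toCy_of {F : Fin r → MvPolynomial (Fin n) ℂ} (p : ciS F) :
    toCy F (FreeAbelianGroup.of p) = Finsupp.single p.1 1 := by
  simp [toCy]

theorem toCy_cyc {F : Fin r → MvPolynomial (Fin n) ℂ} (s : Multiset (ciS F)) :
    toCy F (cyc s) = cycQ (s.map Subtype.val) := by
  induction s using Multiset.induction_on with
  | empty =>
    rw [Multiset.map_zero, cycQ_zero]
    simp [cyc]
  | cons a s ih =>
    rw [Multiset.map_cons, cycQ_cons, ← ih]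
    simp only [cyc, Multiset.map_cons, Multiset.sum_cons, map_add, toCy_of]

theorem toCy_apply {F : Fin r → MvPolynomial (Fin n) ℂ} (z : Z0 (ciS F)) (p : ciS F) :
    toCy F z p.1 = ((FreeAbelianGroup.toFinsupp z p : ℤ) : ℚ) := by
  let e : Cy n →+ ℚ := (Finsupp.applyAddHom p.1 : (PN n →₀ ℚ) →+ ℚ)
  let e' : Z0 (ciS F) →+ ℚ :=
    (Int.castAddHom ℚ).comp ((Finsupp.applyAddHom p).comp FreeAbelianGroup.toFinsupp)
  have h : e.comp (toCy F) = e' := by
    apply FreeAbelianGroup.lift_ext
    intro q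
    change toCy F (FreeAbelianGroup.of q) p.1 =
      ((FreeAbelianGroup.toFinsupp (FreeAbelianGroup.of q) p : ℤ) : ℚ)
    rw [toCy_of, FreeAbelianGroup.toFinsupp_of]
    by_cases hpq : q = p
    · subst hpq
      simp
    · have h1 : q.1 ≠ p.1 := fun h => hpq (Subtype.ext h)
      rw [Finsupp.single_eq_of_ne h1.symm, Finsupp.single_eq_of_ne (Ne.symm hpq)]
      simp
  exact DFunLike.congr_fun h z

theorem toCy_injective (F : Fin r → MvPolynomial (Fin n) ℂ) : Function.Injective (toCy F) := by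
  intro z z' h
  apply (FreeAbelianGroup.equivFinsupp (ciS F)).injective
  change FreeAbelianGroup.toFinsupp z = FreeAbelianGroup.toFinsupp z'
  ext p
  have h1 := DFunLike.congr_fun h p.1
  rw [toCy_apply, toCy_apply] at h1
  exact_mod_cast h1

/-- a cycle with integral coefficients which is in `ratQ` has a multiple in `ratTriv` -/
theorem exists_mul_mem {F : Fin r → MvPolynomial (Fin n) ℂ} (z : Z0 (ciS F))
    (hz : FreeAbelianGroup.lift (fun p : ciS F => (Finsupp.single p.1 1 : Cy n)) z ∈ ratQ F) :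
    ∃ M : ℕ, 0 < M ∧ M • z ∈ ratTriv (ciS F) := by
  have key : ∀ y ∈ ratQ F, ∃ M : ℕ, 0 < M ∧ ∃ t ∈ ratTriv (ciS F), M • y = toCy F t := by
    intro y hy
    refine Submodule.span_induction (p := fun y _ => ∃ M : ℕ, 0 < M ∧ ∃ t ∈ ratTriv (ciS F),
      M • y = toCy F t) ?_ ?_ ?_ ?_ hy
    · rintro x ⟨s₀, s₁, h, rfl⟩
      refine ⟨1, one_pos, cyc s₀ - cyc s₁, AddSubgroup.subset_closure ⟨s₀, s₁, h, rfl⟩, ?_⟩
      rw [one_smul, map_sub, toCy_cyc, toCy_cyc]
    · exact ⟨1, one_pos, 0, zero_mem _, by simp⟩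
    · rintro x y - - ⟨M, hM, t, ht, h⟩ ⟨M', hM', t', ht', h'⟩
      refine ⟨M * M', Nat.mul_pos hM hM', M' • t + M • t',
        add_mem (nsmul_mem ht _) (nsmul_mem ht' _), ?_⟩
      rw [map_add, map_nsmul, map_nsmul, ← h, ← h', smul_add, smul_smul, smul_smul,
        mul_comm M' M]
    · rintro c x - ⟨M, hM, t, ht, h⟩
      refine ⟨c.den * M, Nat.mul_pos c.den_pos hM, c.num • t, zsmul_mem ht _, ?_⟩
      rw [map_zsmul, ← h]
      have h1 : (c.den : ℚ) * c = c.num := Rat.den_mul_eq_num c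
      ext p
      simp only [Finsupp.smul_apply, nsmul_eq_mul, zsmul_eq_mul, smul_eq_mul, Nat.cast_mul]
      linear_combination (M : ℚ) * x p * h1
  obtain ⟨M, hM, t, ht, h⟩ := key _ hz
  refine ⟨M, hM, ?_⟩
  have h1 : toCy F (M • z) = toCy F t := by
    rw [← h, map_nsmul]
    rfl
  rw [toCy_injective F h1]
  exact ht

end Pool.Agent.VCI
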