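import Pool.Agent.VCI.InstA
import Pool.Agent.VCI.EffDefs

/-! Complete intersections: endomorphisms of the Chow group, the Chow group with rational
coefficients, uniform multiples. -/

set_option autoImplicit false

open scoped LinearAlgebra.Projectivization
open MvPolynomial

namespace Pool.Agent.VCI

open Pool.Agent.Chow0 (IsChowForm IsLink cyc Z0 ratTriv CH0)
open Pool.Agent.VGS

variable {n r : ℕ} {F : Fin r → MvPolynomial (Fin n) ℂ} {d : Fin r → ℕ}

/-! ### automorphisms -/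

/-- The action of an automorphism on integral cycles. -/
noncomputable def actZ {L : Fl} (hF : ∀ i, (F i).IsHomogeneous (d i)) (hL : ∀ i, Coef L (F i))
    {σ : ℂ ≃+* ℂ} (hσ : σ ∈ VGS.Fix L) : Z0 (ciS F) →+ Z0 (ciS F) :=
  FreeAbelianGroup.map (actS hF hL hσ)

theorem actZ_of {L : Fl} (hF : ∀ i, (F i).IsHomogeneous (d i)) (hL : ∀ i, Coef L (F i))
    {σ : ℂ ≃+* ℂ} (hσ : σ ∈ VGS.Fix L) (p : ciS F) :
    actZ hF hL hσ (FreeAbelianGroup.of p) = FreeAbelianGroup.of (actS hF hL hσ p) :=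
  FreeAbelianGroup.map_of_apply _

theorem actZ_cyc {L : Fl} (hF : ∀ i, (F i).IsHomogeneous (d i)) (hL : ∀ i, Coef L (F i))
    {σ : ℂ ≃+* ℂ} (hσ : σ ∈ VGS.Fix L) (s : Multiset (ciS F)) :
    actZ hF hL hσ (cyc s) = cyc (s.map (actS hF hL hσ)) := by
  unfold cyc
  rw [map_multiset_sum, Multiset.map_map, Multiset.map_map]
  refine congrArg Multiset.sum (Multiset.map_congr rfl fun p _ => ?_)
  exact actZ_of hF hL hσ p

theorem toCy_actZ {L : Fl} (hF : ∀ i, (F i).IsHomogeneous (d i)) (hL : ∀ i, Coef L (F i))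
    {σ : ℂ ≃+* ℂ} (hσ : σ ∈ VGS.Fix L) (z : Z0 (ciS F)) :
    toCy F (actZ hF hL hσ z) = actC σ (toCy F z) := by
  have h : (toCy F).comp (actZ hF hL hσ) =
      ((actC σ : Cy n →ₗ[ℚ] Cy n) : Cy n →+ Cy n).comp (toCy F) := by
    refine FreeAbelianGroup.lift_ext _ _ fun q => ?_
    rw [AddMonoidHom.comp_apply, AddMonoidHom.comp_apply, actZ_of, toCy_of, toCy_of]
    exact (actC_single σ q.1 1).symm
  exact DFunLike.congr_fun h z

theorem actZ_ratTriv {L : Fl} (hF : ∀ i, (F i).IsHomogeneous (d i)) (hL : ∀ i, Coef L (F i))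
    {σ : ℂ ≃+* ℂ} (hσ : σ ∈ VGS.Fix L) {z : Z0 (ciS F)} (hz : z ∈ ratTriv (ciS F)) :
    actZ hF hL hσ z ∈ ratTriv (ciS F) := by
  unfold ratTriv at hz
  induction hz using AddSubgroup.closure_induction with
  | mem z hz =>
    obtain ⟨s₀, s₁, h, rfl⟩ := hz
    refine AddSubgroup.subset_closure ⟨_, _, IsLink.act hF hL hσ h, ?_⟩
    rw [map_sub, actZ_cyc, actZ_cyc]
  | zero => rw [map_zero]; exact AddSubgroup.zero_mem _
  | add x y _ _ hx hy => rw [map_add]; exact AddSubgroup.add_mem _ hx hy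
  | neg x _ hx => rw [map_neg]; exact AddSubgroup.neg_mem _ hx

/-! ### the Chow group with rational coefficients -/

/-- The class of a cycle. -/
noncomputable def mkC (F : Fin r → MvPolynomial (Fin n) ℂ) : Z0 (ciS F) →+ CH0 (ciS F) :=
  QuotientAddGroup.mk' (ratTriv (ciS F))

theorem mkC_eq_zero {z : Z0 (ciS F)} : mkC F z = 0 ↔ z ∈ ratTriv (ciS F) :=
  QuotientAddGroup.eq_zero_iff z

theorem mkC_surjective : Function.Surjective (mkC F) := QuotientAddGroup.mk'_surjective _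

/-- The map to the Chow group with rational coefficients. -/
noncomputable def iota (F : Fin r → MvPolynomial (Fin n) ℂ) : CH0 (ciS F) →+ Cy n ⧸ ratQ F :=
  QuotientAddGroup.lift (ratTriv (ciS F)) (((ratQ F).mkQ : Cy n →+ Cy n ⧸ ratQ F).comp (toCy F))
    fun _ hz => (Submodule.Quotient.mk_eq_zero _).2 (toCy_ratTriv hz)

theorem iota_mkC (z : Z0 (ciS F)) : iota F (mkC F z) = (ratQ F).mkQ (toCy F z) := rfl

theorem iota_eq_zero {c : CH0 (ciS F)} (h : iota F c = 0) : ∃ M : ℕ, 0 < M ∧ M • c = 0 := by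
  obtain ⟨z, rfl⟩ := mkC_surjective c
  rw [iota_mkC, Submodule.mkQ_apply, Submodule.Quotient.mk_eq_zero] at h
  obtain ⟨M, hM, hM'⟩ := exists_mul_mem z h
  exact ⟨M, hM, by rw [← map_nsmul, mkC_eq_zero]; exact hM'⟩

open Classical in
/-- The values of the endomorphism `φ` on points. -/
noncomputable def ptv (φ : AddMonoid.End (CH0 (ciS F))) (p : PN n) : Cy n ⧸ ratQ F :=
  if h : p ∈ ciS F then iota F (φ (mkC F (FreeAbelianGroup.of (⟨p, h⟩ : ciS F)))) else 0

theorem lc_toCy (φ : AddMonoid.End (CH0 (ciS F))) (z : Z0 (ciS F)) :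
    Finsupp.linearCombination ℚ (ptv φ) (toCy F z) = iota F (φ (mkC F z)) := by
  have h : ((Finsupp.linearCombination ℚ (ptv φ) : Cy n →ₗ[ℚ] Cy n ⧸ ratQ F) :
      Cy n →+ Cy n ⧸ ratQ F).comp (toCy F) =
      (iota F).comp ((φ : CH0 (ciS F) →+ CH0 (ciS F)).comp (mkC F)) := by
    refine FreeAbelianGroup.lift_ext _ _ fun q => ?_
    change Finsupp.linearCombination ℚ (ptv φ) (toCy F (FreeAbelianGroup.of q)) =
      iota F (φ (mkC F (FreeAbelianGroup.of q)))
    rw [toCy_of, Finsupp.linearCombination_single, one_smul]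
    unfold ptv
    rw [dif_pos q.2]
  exact DFunLike.congr_fun h z

/-- The endomorphism of the Chow group with rational coefficients. -/
noncomputable def qEnd (φ : AddMonoid.End (CH0 (ciS F))) : Module.End ℚ (Cy n ⧸ ratQ F) :=
  (ratQ F).liftQ (Finsupp.linearCombination ℚ (ptv φ)) (by
    unfold ratQ
    rw [Submodule.span_le]
    rintro _ ⟨s₀, s₁, h, rfl⟩
    change Finsupp.linearCombination ℚ (ptv φ) _ = 0
    rw [← toCy_cyc, ← toCy_cyc, ← map_sub, lc_toCy,
      mkC_eq_zero.2 (AddSubgroup.subset_closure ⟨s₀, s₁, h, rfl⟩), map_zero, map_zero])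

theorem qEnd_mk (φ : AddMonoid.End (CH0 (ciS F))) (y : Cy n) :
    qEnd φ ((ratQ F).mkQ y) = Finsupp.linearCombination ℚ (ptv φ) y :=
  (ratQ F).liftQ_apply _ _

theorem qEnd_iota (φ : AddMonoid.End (CH0 (ciS F))) (c : CH0 (ciS F)) :
    qEnd φ (iota F c) = iota F (φ c) := by
  obtain ⟨z, rfl⟩ := mkC_surjective c
  rw [iota_mkC, qEnd_mk, lc_toCy]

theorem qEnd_single (φ : AddMonoid.End (CH0 (ciS F))) (p : ciS F) :
    qEnd φ ((ratQ F).mkQ (Finsupp.single p.1 1)) =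
      iota F (φ (mkC F (FreeAbelianGroup.of p))) := by
  rw [← toCy_of, ← iota_mkC, qEnd_iota]

theorem qEnd_prod {m : ℕ} (φ : Fin m → AddMonoid.End (CH0 (ciS F))) (l : List (Fin m))
    (c : CH0 (ciS F)) :
    (l.map fun i => qEnd (φ i)).prod (iota F c) = iota F ((l.map φ).prod c) := by
  induction l with
  | nil => rfl
  | cons i l ih =>
    rw [List.map_cons, List.map_cons, List.prod_cons, List.prod_cons]
    change qEnd (φ i) ((l.map fun i => qEnd (φ i)).prod (iota F c)) = iota F (φ i _)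
    rw [ih, qEnd_iota]
    rfl

/-- The action of an automorphism on the Chow group. -/
noncomputable def actH {L : Fl} (hF : ∀ i, (F i).IsHomogeneous (d i)) (hL : ∀ i, Coef L (F i))
    {σ : ℂ ≃+* ℂ} (hσ : σ ∈ VGS.Fix L) : CH0 (ciS F) →+ CH0 (ciS F) :=
  QuotientAddGroup.map _ _ (actZ hF hL hσ) fun _ hz => actZ_ratTriv hF hL hσ hz

theorem actH_mkC {L : Fl} (hF : ∀ i, (F i).IsHomogeneous (d i)) (hL : ∀ i, Coef L (F i))
    {σ : ℂ ≃+* ℂ} (hσ : σ ∈ VGS.Fix L) (z : Z0 (ciS F)) :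
    actH hF hL hσ (mkC F z) = mkC F (actZ hF hL hσ z) := rfl

theorem prodH_comm {m : ℕ} (φ : Fin m → AddMonoid.End (CH0 (ciS F)))
    (τ : CH0 (ciS F) →+ CH0 (ciS F)) (hτ : ∀ i c, φ i (τ c) = τ (φ i c))
    (l : List (Fin m)) (c : CH0 (ciS F)) : (l.map φ).prod (τ c) = τ ((l.map φ).prod c) := by
  induction l with
  | nil => rfl
  | cons i l ih =>
    rw [List.map_cons, List.prod_cons]
    change φ i ((l.map φ).prod (τ c)) = τ (φ i ((l.map φ).prod c))
    rw [ih, hτ i]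

/-- two homomorphisms which agree at the points of `V` agree, if all points can be moved to `V` -/
theorem hom_ext_gen {V : Set (ciS F)}
    (hmv : ∀ x : ciS F, ∃ s t : Multiset (ciS F), (∀ p ∈ s, p ∈ V) ∧ (∀ p ∈ t, p ∈ V) ∧
      FreeAbelianGroup.of x + cyc s - cyc t ∈ ratTriv (ciS F))
    {A : Type} [AddCommGroup A] (f g : CH0 (ciS F) →+ A)
    (h : ∀ p ∈ V, f (mkC F (FreeAbelianGroup.of p)) = g (mkC F (FreeAbelianGroup.of p))) :
    f = g := by
  have hcyc : ∀ s : Multiset (ciS F), (∀ p ∈ s, p ∈ V) →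
      f (mkC F (cyc s)) = g (mkC F (cyc s)) := by
    intro s
    induction s using Multiset.induction_on with
    | empty =>
      intro _
      have h0 : cyc (0 : Multiset (ciS F)) = 0 := rfl
      rw [h0, map_zero, map_zero, map_zero]
    | cons a s ih =>
      intro hs
      have h0 : cyc (a ::ₘ s) = FreeAbelianGroup.of a + cyc s := by
        unfold cyc
        rw [Multiset.map_cons, Multiset.sum_cons]
      rw [h0, map_add, map_add, map_add, h a (hs a (Multiset.mem_cons_self a s)),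
        ih fun p hp => hs p (Multiset.mem_cons_of_mem hp)]
  have hpt : ∀ x : ciS F,
      f (mkC F (FreeAbelianGroup.of x)) = g (mkC F (FreeAbelianGroup.of x)) := by
    intro x
    obtain ⟨s, t, hs, ht, h1⟩ := hmv x
    have h2 : mkC F (FreeAbelianGroup.of x) = mkC F (cyc t) - mkC F (cyc s) := by
      have h3 := mkC_eq_zero.2 h1
      rw [map_sub, map_add] at h3
      rw [eq_sub_iff_add_eq]
      exact sub_eq_zero.1 h3
    rw [h2, map_sub, map_sub, hcyc s hs, hcyc t ht]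
  have h3 : f.comp (mkC F) = g.comp (mkC F) := FreeAbelianGroup.lift_ext _ _ hpt
  refine DFunLike.ext _ _ fun c => ?_
  obtain ⟨z, rfl⟩ := mkC_surjective c
  exact DFunLike.congr_fun h3 z

/-! ### uniformity of the multiple -/

/-- independent pairs of generic points are conjugate, and there are finitely many classes of
automorphisms: there is one multiple for all pairs of generic points -/
theorem exists_MH (hF : ∀ i, (F i).IsHomogeneous (d i)) {K K' : Fl} [Countable K]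
    (hFK : ∀ i, Coef K (F i)) (hKK' : K ≤ K')
    (hgen : ∀ L : Fl, Countable L → K ≤ L → ∃ p, p ∈ Gen L F)
    (hpair : ∀ p q p' q' : PN n, p ∈ Gen K F → q ∈ Gen (adjP K p) F → p' ∈ Gen K F →
      q' ∈ Gen (adjP K p') F → ∃ σ ∈ VGS.Fix K, act σ p = p' ∧ act σ q = q')
    {m : ℕ} (φ : Fin m → AddMonoid.End (CH0 (ciS F))) (hFK' : ∀ i, Coef K' (F i))
    {l : ℕ} (g : Fin (l + 1) → ℂ ≃+* ℂ) (hg : ∀ i, g i ∈ VGS.Fix K)
    (hg' : ∀ σ ∈ VGS.Fix K, ∃! i, (g i)⁻¹ * σ ∈ VGS.Fix K')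
    (hτ : ∀ (σ : ℂ ≃+* ℂ) (hσ : σ ∈ VGS.Fix K') (i : Fin m) (c : CH0 (ciS F)),
      φ i (actH hF hFK' hσ c) = actH hF hFK' hσ (φ i c))
    (w : List (Fin m))
    (hrat : ∀ p q : ciS F, p.1 ∈ Gen K F → q.1 ∈ Gen K F →
      iota F ((w.map φ).prod (mkC F (FreeAbelianGroup.of p - FreeAbelianGroup.of q))) = 0) :
    ∃ M : ℕ, 0 < M ∧ ∀ p q : ciS F, p.1 ∈ Gen K F → q.1 ∈ Gen K F →
      M • (w.map φ).prod (mkC F (FreeAbelianGroup.of p - FreeAbelianGroup.of q)) = 0 := by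
  classical
  obtain ⟨p0, hp0⟩ := hgen K inferInstance le_rfl
  obtain ⟨q0, hq0⟩ := hgen (adjP K p0) inferInstance (le_adjP _ _)
  have hq0' : q0 ∈ Gen K F := inst_gen_anti (le_adjP K p0) F hq0
  have hpi : ∀ i, act (g i)⁻¹ p0 ∈ Gen K F := fun i =>
    inst_act_gen hF hFK (inv_mem (hg i)) hp0
  have hqi : ∀ i, act (g i)⁻¹ q0 ∈ Gen K F := fun i =>
    inst_act_gen hF hFK (inv_mem (hg i)) hq0'
  choose Mi hMi hMi' using fun i => iota_eq_zero
    (hrat ⟨act (g i)⁻¹ p0, (hpi i).1⟩ ⟨act (g i)⁻¹ q0, (hqi i).1⟩ (hpi i) (hqi i))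
  refine ⟨∏ i, Mi i, Finset.prod_pos fun i _ => hMi i, ?_⟩
  -- independent pairs
  have key : ∀ p q : ciS F, p.1 ∈ Gen K F → q.1 ∈ Gen (adjP K p.1) F →
      (∏ i, Mi i) • (w.map φ).prod
        (mkC F (FreeAbelianGroup.of p - FreeAbelianGroup.of q)) = 0 := by
    intro p q hp hq
    obtain ⟨σ, hσ, hσp, hσq⟩ := hpair p0 q0 p.1 q.1 hp0 hq0 hp hq
    obtain ⟨i, hi, -⟩ := hg' σ⁻¹ (inv_mem hσ)
    have hτ' : σ * g i ∈ VGS.Fix K' := by
      have h1 := inv_mem hi
      have h2 : ((g i)⁻¹ * σ⁻¹)⁻¹ = σ * g i := by group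
      rwa [h2] at h1
    have ep : act (σ * g i) (act (g i)⁻¹ p0) = p.1 := by
      rw [← act_mul, mul_assoc, mul_inv_cancel, mul_one, hσp]
    have eq : act (σ * g i) (act (g i)⁻¹ q0) = q.1 := by
      rw [← act_mul, mul_assoc, mul_inv_cancel, mul_one, hσq]
    have e1 : FreeAbelianGroup.of p - FreeAbelianGroup.of q =
        actZ hF hFK' hτ' (FreeAbelianGroup.of (⟨act (g i)⁻¹ p0, (hpi i).1⟩ : ciS F) -
          FreeAbelianGroup.of (⟨act (g i)⁻¹ q0, (hqi i).1⟩ : ciS F)) := by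
      rw [map_sub, actZ_of, actZ_of]
      congr 2
      · exact Subtype.ext ep.symm
      · exact Subtype.ext eq.symm
    obtain ⟨c, hc⟩ : Mi i ∣ ∏ i, Mi i := Finset.dvd_prod_of_mem _ (Finset.mem_univ i)
    rw [e1, ← actH_mkC, prodH_comm φ (actH hF hFK' hτ') (fun j c => hτ _ hτ' j c) w,
      ← map_nsmul, hc, mul_comm, mul_smul, hMi' i, smul_zero, map_zero]
  intro p q hp hq
  obtain ⟨t, ht⟩ := hgen (adjP (adjP K p.1) q.1) inferInstance
    ((le_adjP K p.1).trans (le_adjP _ _))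
  have htp : t ∈ Gen (adjP K p.1) F := inst_gen_anti (le_adjP _ _) F ht
  have hmono : adjP K q.1 ≤ adjP (adjP K p.1) q.1 :=
    adj_le ((le_adjP K p.1).trans (le_adjP _ _)) (subset_adj _ _)
  have htq : t ∈ Gen (adjP K q.1) F := inst_gen_anti hmono F ht
  have h1 := key p ⟨t, ht.1⟩ hp htp
  have h2 := key q ⟨t, ht.1⟩ hq htq
  have e : (FreeAbelianGroup.of p - FreeAbelianGroup.of q : Z0 (ciS F)) =
      (FreeAbelianGroup.of p - FreeAbelianGroup.of (⟨t, ht.1⟩ : ciS F)) -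
        (FreeAbelianGroup.of q - FreeAbelianGroup.of (⟨t, ht.1⟩ : ciS F)) := by abel
  rw [e, map_sub, map_sub, smul_sub, h1, h2, sub_zero]

end Pool.Agent.VCI
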