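import Pool.Agent.VCI.InstA
import Pool.Agent.VCI.EffDefs
import Pool.Agent.VGS.Smooth

/-! Complete intersections: the ground field, the curves outside of which all points are
generic, and cycles of degree zero. -/

set_option autoImplicit false

open scoped LinearAlgebra.Projectivization
open MvPolynomial

namespace Pool.Agent.VCI

open Pool.Agent.Chow0 (IsChowForm IsLink cyc Z0 ratTriv CH0)
open Pool.Agent.VGS

/-- a countable algebraically closed ground field over which a given independent family is still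
independent, such that given numbers are algebraic over the field generated by the family -/
theorem exists_groundA {ι : Type} {a : ι → ℂ} (hind : AlgebraicIndependent ℚ a) (S : Finset ℂ) :
    ∃ k : Fl, Countable k ∧ clo k = k ∧ AlgebraicIndependent k a ∧
      ∀ x ∈ S, x ∈ clo (adj k (Set.range a)) := by
  classical
  induction S using Finset.induction_on with
  | empty =>
    have : Countable (⊥ : Fl) := by
      have h1 : Function.Surjective (algebraMap ℚ (⊥ : Fl)) := by
        rintro ⟨x, hx⟩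
        rw [IntermediateField.mem_bot] at hx
        obtain ⟨q, rfl⟩ := hx
        exact ⟨q, rfl⟩
      exact h1.countable
    refine ⟨clo ⊥, inferInstance, clo_clo _, ?_, fun x hx => absurd hx (Finset.notMem_empty x)⟩
    rw [ai_clo, ai_bot]
    exact hind
  | insert x S _ ih =>
    obtain ⟨k, hk, hkc, hki, hkS⟩ := ih
    by_cases hx : x ∈ clo (adj k (Set.range a))
    · refine ⟨k, hk, hkc, hki, fun z hz => ?_⟩
      rw [Finset.mem_insert] at hz
      rcases hz with rfl | hz
      · exact hx
      · exact hkS z hz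
    · refine ⟨clo (adj k {x}), inferInstance, clo_clo _, ?_, fun z hz => ?_⟩
      · rw [ai_clo]
        have h1 : AlgebraicIndependent (adj k (Set.range a)) (fun _ : Unit => x) := by
          rw [algebraicIndependent_unique_type_iff]
          rw [mem_clo] at hx
          exact hx
        have h2 : AlgebraicIndependent k (Sum.elim a (fun _ : Unit => x)) := ai_sum.mpr ⟨hki, h1⟩
        have h3 : AlgebraicIndependent k (Sum.elim (fun _ : Unit => x) a) := by
          have h4 := (algebraicIndependent_equiv' (Equiv.sumComm Unit ι)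
            (f := Sum.elim a (fun _ : Unit => x)) (g := Sum.elim (fun _ : Unit => x) a) (by
              ext i
              cases i <;> rfl)).mpr h2
          exact h4
        have h5 := (ai_sum.mp h3).2
        rwa [Set.range_const] at h5
      · rw [Finset.mem_insert] at hz
        rcases hz with rfl | hz
        · exact le_clo _ (le_adj _ _ (le_clo _ (subset_adj _ _ rfl)))
        · refine clo_mono (adj_le ?_ (subset_adj _ _)) (hkS z hz)
          exact ((le_adj k {x}).trans (le_clo _)).trans (le_adj _ _)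

/-- The homogenisation of a polynomial in two quotients of coordinates. -/
noncomputable def hmg {n : ℕ} (i j l : Fin n) (P : MvPolynomial (Fin 2) ℂ) :
    MvPolynomial (Fin n) ℂ :=
  ∑ m ∈ P.support, C (coeff m P) * (X j ^ m 0 * X l ^ m 1 * X i ^ (P.totalDegree - (m 0 + m 1)))

theorem hmg_hom {n : ℕ} (i j l : Fin n) (P : MvPolynomial (Fin 2) ℂ) :
    (hmg i j l P).IsHomogeneous P.totalDegree := by
  unfold hmg
  refine IsHomogeneous.sum _ _ _ fun m hm => ?_
  have h1 : m 0 + m 1 ≤ P.totalDegree := by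
    have h2 := le_totalDegree hm
    rwa [Finsupp.sum_fintype _ _ (fun _ => rfl), Fin.sum_univ_two] at h2
  have h3 : P.totalDegree = 0 + (1 * m 0 + 1 * m 1 + 1 * (P.totalDegree - (m 0 + m 1))) := by
    omega
  have h4 : (C (coeff m P) * (X j ^ m 0 * X l ^ m 1 *
      X i ^ (P.totalDegree - (m 0 + m 1))) : MvPolynomial (Fin n) ℂ).IsHomogeneous
      (0 + (1 * m 0 + 1 * m 1 + 1 * (P.totalDegree - (m 0 + m 1)))) :=
    (isHomogeneous_C _ _).mul ((((isHomogeneous_X ℂ j).pow _).mul
      ((isHomogeneous_X ℂ l).pow _)).mul ((isHomogeneous_X ℂ i).pow _))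
  rwa [← h3] at h4

theorem hmg_coef {n : ℕ} (i j l : Fin n) {L : Fl} {P : MvPolynomial (Fin 2) ℂ} (hP : Coef L P) :
    Coef L (hmg i j l P) := by
  rw [coef_iff]
  obtain ⟨P', rfl⟩ := coef_iff.1 hP
  refine ⟨∑ m ∈ (map (algebraMap L ℂ) P').support, C (coeff m P') * (X j ^ m 0 * X l ^ m 1 *
    X i ^ ((map (algebraMap L ℂ) P').totalDegree - (m 0 + m 1))), ?_⟩
  unfold hmg
  rw [map_sum]
  refine Finset.sum_congr rfl fun m _ => ?_
  rw [map_mul, map_mul, map_mul, map_pow, map_pow, map_pow, map_C, map_X, map_X, map_X, coeff_map]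

theorem hmg_aeval {n : ℕ} (i j l : Fin n) (P : MvPolynomial (Fin 2) ℂ) {z : Fin n → ℂ}
    (hz : z i ≠ 0) : aeval z (hmg i j l P) =
      z i ^ P.totalDegree * aeval ![z j / z i, z l / z i] P := by
  have h0 : aeval ![z j / z i, z l / z i] P =
      ∑ m ∈ P.support, coeff m P * ((z j / z i) ^ m 0 * (z l / z i) ^ m 1) := by
    rw [aeval_def, eval₂_eq']
    refine Finset.sum_congr rfl fun m _ => ?_
    rw [Fin.prod_univ_two]
    rfl
  rw [h0]
  unfold hmg
  rw [map_sum, Finset.mul_sum]
  refine Finset.sum_congr rfl fun m hm => ?_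
  have h1 : m 0 + m 1 ≤ P.totalDegree := by
    have h2 := le_totalDegree hm
    rwa [Finsupp.sum_fintype _ _ (fun _ => rfl), Fin.sum_univ_two] at h2
  rw [map_mul, map_mul, map_mul, map_pow, map_pow, map_pow, aeval_X, aeval_X, aeval_X, aeval_C]
  obtain ⟨N, hN⟩ : ∃ N, P.totalDegree = (m 0 + m 1) + N := ⟨_, (Nat.add_sub_cancel' h1).symm⟩
  rw [hN, Nat.add_sub_cancel_left]
  change coeff m P * (z j ^ m 0 * z l ^ m 1 * z i ^ N) = _
  rw [div_pow, div_pow, pow_add, pow_add]
  field_simp

variable {n r : ℕ} {F : Fin r → MvPolynomial (Fin n) ℂ} {d : Fin r → ℕ}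

/-- countably many forms over `K`, not zero on the surface, such that the points of the surface
where none of them is zero are the points which are generic over `K` -/
theorem exists_enum (K : Fl) [Countable K] (hgen : ∃ p, p ∈ Gen K F)
    (hconj : ∀ p ∈ Gen K F, ∀ q ∈ Gen K F, ∃ σ ∈ VGS.Fix K, act σ p = q) :
    ∃ D : ℕ → MvPolynomial (Fin n) ℂ, (∀ j, ∃ e, (D j).IsHomogeneous e) ∧
      ∀ p : ciS F, p ∈ veryGen F D ↔ p.1 ∈ Gen K F := by
  obtain ⟨q0, hq0⟩ := hgen
  obtain ⟨S, hS⟩ : ∃ S : Set (MvPolynomial (Fin n) ℂ),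
    S = {G | (∃ e, G.IsHomogeneous e) ∧ Coef K G ∧ aeval q0.rep G ≠ 0} := ⟨_, rfl⟩
  have hcount : S.Countable := by
    have h0 : Countable (MvPolynomial (Fin n) K) := by
      have h1 : Cardinal.mk (MvPolynomial (Fin n) K) ≤ Cardinal.aleph0 := by
        refine (MvPolynomial.cardinalMk_le_max).trans ?_
        exact max_le (max_le Cardinal.mk_le_aleph0 Cardinal.mk_le_aleph0) le_rfl
      exact Cardinal.mk_le_aleph0_iff.mp h1
    refine Set.Countable.mono ?_ (Set.countable_range (MvPolynomial.map (algebraMap K ℂ)))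
    rw [hS]
    rintro G ⟨_, hG, _⟩
    obtain ⟨G', hG'⟩ := coef_iff.1 hG
    exact ⟨G', hG'⟩
  have hne : S.Nonempty := by
    rw [hS]
    refine ⟨1, ⟨0, isHomogeneous_one _ _⟩, fun m => ?_, ?_⟩
    · rw [coeff_one]
      split_ifs
      · exact K.one_mem
      · exact K.zero_mem
    · rw [map_one]
      exact one_ne_zero
  obtain ⟨D, hD⟩ := hcount.exists_eq_range hne
  have hDS : ∀ j, (∃ e, (D j).IsHomogeneous e) ∧ Coef K (D j) ∧ aeval q0.rep (D j) ≠ 0 := by
    intro j
    have h1 : D j ∈ S := hD ▸ Set.mem_range_self j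
    rwa [hS] at h1
  refine ⟨D, fun j => (hDS j).1, fun p => ⟨fun hp => ?_, fun hp j h0 => ?_⟩⟩
  · have key : ∀ G : MvPolynomial (Fin n) ℂ, (∃ e, G.IsHomogeneous e) → Coef K G →
        aeval q0.rep G ≠ 0 → aeval p.1.rep G ≠ 0 := by
      intro G h1 h2 h3
      have h4 : G ∈ S := by
        rw [hS]
        exact ⟨h1, h2, h3⟩
      rw [hD] at h4
      obtain ⟨j, rfl⟩ := h4
      exact hp j
    obtain ⟨-, i, j, l, hi, hind⟩ := hq0
    have hpi : p.1.rep i ≠ 0 := by
      have h1 := key (X i) ⟨1, isHomogeneous_X ℂ i⟩ (fun m => by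
        rw [coeff_X]
        split_ifs
        · exact K.one_mem
        · exact K.zero_mem) (by rw [aeval_X]; exact hi)
      rwa [aeval_X] at h1
    refine ⟨p.2, i, j, l, hpi, ai_iff.2 fun P hP h0 => ?_⟩
    by_contra hP0
    refine key (hmg i j l P) ⟨_, hmg_hom i j l P⟩ (hmg_coef i j l hP) ?_ ?_
    · rw [hmg_aeval i j l P hi]
      refine mul_ne_zero (pow_ne_zero _ hi) fun h1 => hP0 (ai_iff.1 hind P hP h1)
    · rw [hmg_aeval i j l P hpi, h0, mul_zero]
  · obtain ⟨⟨e, he⟩, hK, hn⟩ := hDS j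
    obtain ⟨σ, hσ, h1⟩ := hconj p.1 hp q0 hq0
    apply hn
    rw [← h1, aeval_act_rep he hK hσ]
    exact h0

/-! ### cycles of degree zero -/

theorem deg_of (p : ciS F) : Chow0.deg (FreeAbelianGroup.of p) = 1 := by
  simp [Chow0.deg]

theorem deg_cyc (s : Multiset (ciS F)) : Chow0.deg (cyc s) = Multiset.card s := by
  induction s using Multiset.induction_on with
  | empty => simp [cyc]
  | cons a s ih =>
    have h : cyc (a ::ₘ s) = FreeAbelianGroup.of a + cyc s := by
      simp [cyc]
    rw [h, map_add, ih, deg_of, Multiset.card_cons]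
    push_cast
    ring

theorem deg_ratTriv {z : Z0 (ciS F)} (hz : z ∈ ratTriv (ciS F)) :
    Chow0.deg z = 0 := by
  have h : ratTriv (ciS F) ≤ (Chow0.deg (S := ciS F)).ker := by
    refine (AddSubgroup.closure_le _).2 ?_
    rintro _ ⟨s₀, s₁, h, rfl⟩
    change Chow0.deg (cyc s₀ - cyc s₁) = 0
    rw [map_sub, deg_cyc, deg_cyc, card_link h, sub_self]
  exact h hz

theorem move_deg {V : Set (ciS F)} (hV : ∀ x : ciS F, ∃ s t : Multiset (ciS F),
      (∀ p ∈ s, p ∈ V) ∧ (∀ p ∈ t, p ∈ V) ∧
        FreeAbelianGroup.of x + cyc s - cyc t ∈ ratTriv (ciS F))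
    {z : Z0 (ciS F)} (hz : Chow0.deg z = 0) :
    ∃ y ∈ AddSubgroup.closure {y : Z0 (ciS F) | ∃ p ∈ V, ∃ q ∈ V,
        y = FreeAbelianGroup.of p - FreeAbelianGroup.of q}, z - y ∈ ratTriv (ciS F) := by
  set H : AddSubgroup (Z0 (ciS F)) := AddSubgroup.closure (FreeAbelianGroup.of '' V) with hH
  have hcyc : ∀ s : Multiset (ciS F), (∀ p ∈ s, p ∈ V) → cyc s ∈ H := by
    intro s hs
    refine AddSubgroup.multiset_sum_mem _ _ fun y hy => ?_
    obtain ⟨p, hp, rfl⟩ := Multiset.mem_map.1 hy
    exact AddSubgroup.subset_closure ⟨p, hs p hp, rfl⟩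
  -- every cycle is equivalent to a cycle in `H`
  have h1 : ∀ z : Z0 (ciS F), ∃ y ∈ H, z - y ∈ ratTriv (ciS F) := by
    intro z
    induction z using FreeAbelianGroup.induction_on with
    | zero => exact ⟨0, zero_mem _, by rw [sub_zero]; exact zero_mem _⟩
    | of x =>
      obtain ⟨s, t, hs, ht, h⟩ := hV x
      refine ⟨cyc t - cyc s, sub_mem (hcyc t ht) (hcyc s hs), ?_⟩
      have h2 : FreeAbelianGroup.of x - (cyc t - cyc s) =
          FreeAbelianGroup.of x + cyc s - cyc t := by abel
      rw [h2]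
      exact h
    | neg x hx =>
      obtain ⟨y, hy, h⟩ := hx
      refine ⟨-y, neg_mem hy, ?_⟩
      have h2 : -FreeAbelianGroup.of x - -y = -(FreeAbelianGroup.of x - y) := by abel
      rw [h2]
      exact neg_mem h
    | add a b ha hb =>
      obtain ⟨y, hy, h⟩ := ha
      obtain ⟨y', hy', h'⟩ := hb
      refine ⟨y + y', add_mem hy hy', ?_⟩
      have h2 : a + b - (y + y') = (a - y) + (b - y') := by abel
      rw [h2]
      exact add_mem h h'
  obtain ⟨y, hy, h⟩ := h1 z
  refine ⟨y, ?_, h⟩
  have hdeg : Chow0.deg y = 0 := by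
    have h2 := deg_ratTriv h
    rw [map_sub, hz, zero_sub, neg_eq_zero] at h2
    exact h2
  rcases Set.eq_empty_or_nonempty V with hVe | ⟨p₀, hp₀⟩
  · have h3 : H = ⊥ := by
      rw [hH, hVe, Set.image_empty, AddSubgroup.closure_empty]
    rw [h3, AddSubgroup.mem_bot] at hy
    rw [hy]
    exact zero_mem _
  · have h4 : ∀ y ∈ H, y - Chow0.deg y • FreeAbelianGroup.of p₀ ∈
        AddSubgroup.closure {y : Z0 (ciS F) | ∃ p ∈ V, ∃ q ∈ V,
          y = FreeAbelianGroup.of p - FreeAbelianGroup.of q} := by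
      intro y hy
      refine AddSubgroup.closure_induction (p := fun y _ => y - Chow0.deg y • FreeAbelianGroup.of p₀ ∈
        AddSubgroup.closure {y : Z0 (ciS F) | ∃ p ∈ V, ∃ q ∈ V,
          y = FreeAbelianGroup.of p - FreeAbelianGroup.of q}) ?_ ?_ ?_ ?_ hy
      · rintro _ ⟨p, hp, rfl⟩
        rw [deg_of, one_smul]
        exact AddSubgroup.subset_closure ⟨p, hp, p₀, hp₀, rfl⟩
      · simp
      · intro a b _ _ ha hb
        have h5 : a + b - Chow0.deg (a + b) • FreeAbelianGroup.of p₀ =
            (a - Chow0.deg a • FreeAbelianGroup.of p₀) +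
              (b - Chow0.deg b • FreeAbelianGroup.of p₀) := by
          rw [map_add, add_smul]
          abel
        rw [h5]
        exact add_mem ha hb
      · intro a _ ha
        have h5 : -a - Chow0.deg (-a) • FreeAbelianGroup.of p₀ =
            -(a - Chow0.deg a • FreeAbelianGroup.of p₀) := by
          rw [map_neg, neg_smul]
          abel
        rw [h5]
        exact neg_mem ha
    have h6 := h4 y hy
    rw [hdeg, zero_smul, sub_zero] at h6
    exact h6

end Pool.Agent.VCI
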