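import Pool.Agent.VGS.Trd
import Pool.Agent.VGS.CloM

/-! Complete intersections: frames, definitions (vectors only). -/

set_option autoImplicit false

open MvPolynomial

namespace Pool.Agent.VCI

open Pool.Agent.VGS (Fl adj clo Coef)

/-- The polynomial `F` in the coordinates `z`, `x = M z`. -/
noncomputable def frG {n : ℕ} (F : MvPolynomial (Fin n) ℂ) (M : Matrix (Fin n) (Fin n) ℂ) :
    MvPolynomial (Fin n) ℂ :=
  aeval (fun i => ∑ j, C (M i j) * X j) F

/-- The field generated by the entries of `M`. -/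
noncomputable def frk {n : ℕ} (k : Fl) (M : Matrix (Fin n) (Fin n) ℂ) : Fl :=
  adj k (Set.range fun ij : Fin n × Fin n => M ij.1 ij.2)

/-- The field generated by the entries of `M` and the coefficients of the `F i (M z)`. -/
noncomputable def frE {n r : ℕ} (k : Fl) (F : Fin r → MvPolynomial (Fin n) ℂ)
    (M : Matrix (Fin n) (Fin n) ℂ) : Fl :=
  adj (frk k M) (Set.range fun im : Fin r × (Fin n →₀ ℕ) => coeff im.2 (frG (F im.1) M))

/-- The last index but one. -/
def pen (r : ℕ) : Fin (r + 3) := ⟨r + 1, by omega⟩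

/-- The last index. -/
def lst (r : ℕ) : Fin (r + 3) := ⟨r + 2, by omega⟩

/-- The monomials of degree `d i` other than the powers of the last two coordinates. -/
def Mon {r : ℕ} (d : Fin r → ℕ) : Type :=
  {im : Fin r × (Fin (r + 3) →₀ ℕ) // im.2.degree = d im.1 ∧
    im.2 ≠ Finsupp.single (lst r) (d im.1) ∧ im.2 ≠ Finsupp.single (pen r) (d im.1)}

/-- The pairs of an index `i` and a monomial of degree `d i`. -/
def MonA {r : ℕ} (n : ℕ) (d : Fin r → ℕ) : Type :=
  {im : Fin r × (Fin n →₀ ℕ) // im.2.degree = d im.1}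

/-- The entries of `M` and the coefficients of the `F i (M z)`. -/
noncomputable def frX {r : ℕ} (d : Fin r → ℕ) (F : Fin r → MvPolynomial (Fin (r + 3)) ℂ)
    (M : Matrix (Fin (r + 3)) (Fin (r + 3)) ℂ) : (Fin (r + 3) × Fin (r + 3)) ⊕ Mon d → ℂ :=
  Sum.elim (fun ij => M ij.1 ij.2) (fun m => coeff m.1.2 (frG (F m.1.1) M))

end Pool.Agent.VCI
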