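import Pool.Agent.VGS.Aut
import Pool.Agent.VGS.Place
import Pool.Agent.VGS.Trd
import Pool.Agent.VGS.CloM

/-! Complete intersections: transcendence degree, specialisation of independent families. -/

set_option autoImplicit false

open MvPolynomial

namespace Pool.Agent.VCI

open Pool.Agent.VGS

/-- `y` satisfies all polynomial equations over `k` which `q` satisfies. -/
def InD {n : ℕ} (k : Fl) (q y : Fin n → ℂ) : Prop :=
  ∀ f : MvPolynomial (Fin n) ℂ, Coef k f → aeval q f = 0 → aeval y f = 0

theorem ai_le_card {L : Fl} {ι κ : Type} [Finite ι] [Finite κ] {x : ι → ℂ}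
    (hx : AlgebraicIndependent L x) {y : κ → ℂ} (h : ∀ i, x i ∈ clo (adj L (Set.range y))) :
    Nat.card ι ≤ Nat.card κ := by
  let M := AlgebraicIndependent.matroid L ℂ
  have hI : M.Indep (Set.range x) := hx.to_subtype_range
  have hcl : Set.range x ⊆ M.closure (Set.range y) := by
    rintro _ ⟨i, rfl⟩
    rw [AlgebraicIndependent.matroid_closure_eq]
    exact mem_clo_adj.1 (h i)
  have h1 : (Set.range x).encard = (Nat.card ι : ℕ∞) := by
    rw [← Set.image_univ, Set.InjOn.encard_image hx.injective.injOn, Set.encard_univ,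
      ENat.card_eq_coe_natCard]
  have h2 : (Set.range y).encard ≤ (Nat.card κ : ℕ∞) := by
    rw [← Set.image_univ, ← ENat.card_eq_coe_natCard, ← Set.encard_univ]
    exact Set.encard_image_le y Set.univ
  have h3 : (Nat.card ι : ℕ∞) ≤ M.eRk (Set.range y) := by
    rw [← h1, ← hI.eRk_eq_encard, ← M.eRk_closure_eq (Set.range y)]
    exact M.eRk_mono hcl
  exact_mod_cast h3.trans ((M.eRk_le_encard _).trans h2)

/-- adding one transcendental element to an independent family -/
theorem ai_add {L : Fl} {ι : Type} {x : ι → ℂ} (hx : AlgebraicIndependent L x) {u : ℂ}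
    (hu : u ∉ clo (adj L (Set.range x))) :
    AlgebraicIndependent L (Sum.elim x fun _ : Unit => u) := by
  rw [ai_sum]
  refine ⟨hx, ?_⟩
  rw [algebraicIndependent_unique_type_iff]
  intro h
  exact hu (mem_clo.2 h)

theorem ai_span {L : Fl} {ι κ : Type} [Finite ι] [Finite κ] {x : ι → ℂ}
    (hx : AlgebraicIndependent L x) {y : κ → ℂ} (hc : Nat.card κ ≤ Nat.card ι)
    (h : ∀ i, x i ∈ clo (adj L (Set.range y))) : ∀ j, y j ∈ clo (adj L (Set.range x)) := by
  intro j
  by_contra hj
  have h1 := ai_add hx hj
  have h2 : ∀ i, Sum.elim x (fun _ : Unit => y j) i ∈ clo (adj L (Set.range y)) := by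
    rintro (i | i)
    · exact h i
    · exact le_clo _ (subset_adj _ _ ⟨j, rfl⟩)
  have h3 := ai_le_card h1 h2
  have h4 : Nat.card Unit = 1 := Nat.card_unique
  rw [Nat.card_sum, h4] at h3
  omega

/-- a valuation ring containing a field contains its algebraic closure -/
theorem isPl_clo {V : ValuationSubring ℂ} {K : Fl} (h : IsPl V K) : IsPl V (clo K) := by
  intro z hz
  rw [mem_clo_iff_exists] at hz
  obtain ⟨p, hp0, hK, hp⟩ := hz
  by_contra hzV
  have hz1 : 1 < V.valuation z := by
    rw [← not_le, V.valuation_le_one_iff]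
    exact hzV
  have hl0 : p.leadingCoeff ≠ 0 := Polynomial.leadingCoeff_ne_zero.2 hp0
  have hval : ∀ c ∈ K, V.valuation c ≤ 1 := fun c hc => pl_const_le h hc
  have hl1 : V.valuation p.leadingCoeff = 1 := val_const h (hK _) hl0
  have e : p.leadingCoeff * z ^ p.natDegree =
      -(∑ i ∈ Finset.range p.natDegree, p.coeff i * z ^ i) := by
    have h1 := Polynomial.eval_eq_sum_range (p := p) z
    rw [hp, Finset.sum_range_succ] at h1
    rw [Polynomial.leadingCoeff]
    linear_combination -h1
  have h2 : V.valuation (p.leadingCoeff * z ^ p.natDegree) < V.valuation (z ^ p.natDegree) := by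
    have hz0 : V.valuation z ≠ 0 := fun h0 => by
      rw [h0] at hz1
      exact absurd hz1 (not_lt.2 zero_le_one)
    rw [e, Valuation.map_neg]
    refine Valuation.map_sum_lt _ ?_ ?_
    · rw [map_pow]
      exact pow_ne_zero _ hz0
    · intro i hi
      rw [Finset.mem_range] at hi
      rw [map_mul, map_pow, map_pow]
      calc V.valuation (p.coeff i) * V.valuation z ^ i ≤ 1 * V.valuation z ^ i := by
            gcongr
            exact hval _ (hK i)
        _ = V.valuation z ^ i := one_mul _
        _ < V.valuation z ^ p.natDegree := by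
            exact pow_lt_pow_right₀ hz1 hi
  rw [map_mul, hl1, one_mul] at h2
  exact lt_irrefl _ h2

/-- elements of `k(S)` are quotients of polynomials -/
theorem mem_adj_range {k : Fl} {ι : Type} {x : ι → ℂ} {z : ℂ} (hz : z ∈ adj k (Set.range x)) :
    ∃ P Q : MvPolynomial ι ℂ, Coef k P ∧ Coef k Q ∧ aeval x Q ≠ 0 ∧
      z = aeval x P / aeval x Q := by
  classical
  have h2 := mem_adj_iff.1 hz
  rw [IntermediateField.mem_adjoin_range_iff] at h2
  obtain ⟨r, s, h⟩ := h2
  by_cases h0 : aeval x s = 0
  · refine ⟨0, 1, ?_, ?_, ?_, ?_⟩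
    · intro m
      rw [coeff_zero]
      exact k.zero_mem
    · intro m
      rw [coeff_one]
      split
      · exact k.one_mem
      · exact k.zero_mem
    · rw [map_one]
      exact one_ne_zero
    · rw [map_zero, zero_div, h, h0, div_zero]
  · refine ⟨MvPolynomial.map (algebraMap k ℂ) r, MvPolynomial.map (algebraMap k ℂ) s,
      coef_iff.2 ⟨r, rfl⟩, coef_iff.2 ⟨s, rfl⟩, ?_, ?_⟩
    · rw [aeval_map_algebraMap]
      exact h0
    · rw [aeval_map_algebraMap, aeval_map_algebraMap]
      exact h

/-- The valuation ring contains the algebraic closure of the field generated by such a family. (A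
nonzero `P (x)` specialises to `P (c) ≠ 0`, so it is a unit; a valuation ring containing a field
contains its algebraic closure.) -/
theorem sp_isPl {V : ValuationSubring ℂ} {C k : Fl} (hV : IsPl V C) (hk : k ≤ C) {ι : Type}
    {x c : ι → ℂ} (hx : ∀ i, Sp V C (x i) (c i)) (hc : AlgebraicIndependent k c) :
    IsPl V (clo (adj k (Set.range x))) := by
  apply isPl_clo
  intro z hz
  obtain ⟨P, Q, hP, hQ, hQ0, rfl⟩ := mem_adj_range hz
  have h1 := Sp.aeval hV (hP.mono hk) hx
  have h2 := Sp.aeval hV (hQ.mono hk) hx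
  have h3 : aeval c Q ≠ 0 := by
    intro h0
    apply hQ0
    rw [ai_iff.1 hc Q hQ h0, map_zero]
  exact (h1.div hV h2 h3).mem hV

/-- A family specialising to an independent family, together with a parameter `u → 0`, is
independent. (A nonzero polynomial relation `P (x, u) = 0`, divided by the power of `u` in it,
specialises to a nonzero relation `P (c, 0) = 0`.) -/
theorem sp_ai {V : ValuationSubring ℂ} {C k : Fl} (hV : IsPl V C) (hk : k ≤ C) {ι : Type}
    {x c : ι → ℂ} (hx : ∀ i, Sp V C (x i) (c i)) (hc : AlgebraicIndependent k c) {u : ℂ}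
    (hu0 : u ≠ 0) (hu : Sp V C u 0) : AlgebraicIndependent k (Sum.elim x fun _ : Unit => u) := by
  have hxi : AlgebraicIndependent k x := by
    rw [ai_iff]
    intro P hP h0
    have h1 := Sp.aeval hV (hP.mono hk) hx
    rw [h0] at h1
    exact ai_iff.1 hc P hP (h1.unique hV (Sp.const hV C.zero_mem))
  refine ai_add hxi ?_
  intro h
  have h1 := val_const (sp_isPl hV hk hx hc) h hu0
  have h2 := hu.2
  rw [sub_zero, h1] at h2
  exact lt_irrefl _ h2

end Pool.Agent.VCI
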