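import Pool.Agent.VCI.Defs
import Pool.Agent.VCI.FrameDefs
import Pool.Agent.VCI.Trd2

/-! Complete intersections: if the coefficients are independent, the differentials are independent
at every common zero. -/

set_option autoImplicit false

open MvPolynomial

namespace Pool.Agent.VCI

open Pool.Agent.VGS

theorem sm_aeval_mem {L : Fl} {n : ℕ} {G : MvPolynomial (Fin n) ℂ} (hG : Coef L G) {w : Fin n → ℂ}
    (hw : ∀ i, w i ∈ L) : aeval w G ∈ L := by
  rw [aeval_def, eval₂_eq']
  exact sum_mem fun m _ => mul_mem (hG m) (prod_mem fun i _ => pow_mem (hw i) _)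

theorem sm_coef_pderiv {L : Fl} {n : ℕ} {G : MvPolynomial (Fin n) ℂ} (hG : Coef L G) (i : Fin n) :
    Coef L (pderiv i G) := by
  intro m
  rw [coeff_pderiv]
  exact mul_mem (hG _) (add_mem (natCast_mem L _) (one_mem L))

theorem sm_aeval_scale {n : ℕ} {G : MvPolynomial (Fin n) ℂ} {e : ℕ} (hG : G.IsHomogeneous e)
    {z w : Fin n → ℂ} {a : ℂ} (h : ∀ i, z i = a * w i) :
    aeval z G = a ^ e * aeval w G := by
  have h1 : z = fun i => a * w i := funext h
  rw [h1]
  rw [aeval_def, aeval_def, eval₂_eq', eval₂_eq', Finset.mul_sum]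
  refine Finset.sum_congr rfl fun t ht => ?_
  have h3 : t.degree = e := by
    by_contra h
    exact (mem_support_iff.mp ht) (hG.coeff_eq_zero h)
  have h2 : ∏ i, (a * w i) ^ t i = a ^ e * ∏ i, w i ^ t i := by
    simp only [mul_pow, Finset.prod_mul_distrib, Finset.prod_pow_eq_pow_sum]
    congr 2
    rw [← h3, Finsupp.degree_eq_sum]
  rw [h2]
  ring

theorem sm_finite {n r : ℕ} (d : Fin r → ℕ) : Finite (MonA n d) := by
  have h1 : Set.Finite {im : Fin r × (Fin n →₀ ℕ) | im.2.degree = d im.1} := by
    have h2 : {im : Fin r × (Fin n →₀ ℕ) | im.2.degree = d im.1} ⊆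
        ⋃ i : Fin r, (fun m : Fin n →₀ ℕ => (i, m)) '' {m | m.degree = d i} := by
      rintro ⟨i, m⟩ h
      exact Set.mem_iUnion.2 ⟨i, m, h, rfl⟩
    refine Set.Finite.subset (Set.finite_iUnion fun i => Set.Finite.image _ ?_) h2
    have h3 : {m : Fin n →₀ ℕ | m.degree = d i} ⊆ Set.Iic (Finsupp.equivFunOnFinite.symm fun _ => d i) := by
      intro m hm
      rw [Set.mem_Iic]
      intro j
      rw [Finsupp.equivFunOnFinite_symm_apply_apply]
      rw [Set.mem_ofPred_eq] at hm
      rw [← hm]
      exact Finsupp.le_degree j m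
    exact Set.Finite.subset (Set.finite_Iic _) h3
  exact h1.to_subtype

/-- **The common zeros are smooth points.** -/
theorem linInd_of_ai {n r : ℕ} {k : Fl} {d : Fin r → ℕ} (hd : ∀ i, 1 ≤ d i)
    {F : Fin r → MvPolynomial (Fin n) ℂ} (hF : ∀ i, (F i).IsHomogeneous (d i))
    (hind : AlgebraicIndependent k (fun im : MonA n d => coeff im.1.2 (F im.1.1)))
    {z : Fin n → ℂ} (hz : z ≠ 0) (h0 : ∀ i, aeval z (F i) = 0) :
    LinearIndependent ℂ (fun i : Fin r => fun j : Fin n => aeval z (pderiv j (F i))) := by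
  classical
  rw [Fintype.linearIndependent_iff]
  intro g hg
  by_contra hcon
  push Not at hcon
  obtain ⟨i₀, hi₀⟩ := hcon
  obtain ⟨j₀, hj₀⟩ : ∃ j, z j ≠ 0 := by
    by_contra h1
    push Not at h1
    exact hz (funext h1)
  -- normalisation
  set w : Fin n → ℂ := fun j => z j / z j₀ with hw
  have hwj : w j₀ = 1 := div_self hj₀
  have hzw : ∀ j, z j = z j₀ * w j := fun j => by
    rw [hw]
    field_simp
  set l : Fin r → ℂ := fun i => g i * z j₀ ^ (d i - 1) / (g i₀ * z j₀ ^ (d i₀ - 1)) with hl
  have hden : g i₀ * z j₀ ^ (d i₀ - 1) ≠ 0 := mul_ne_zero hi₀ (pow_ne_zero _ hj₀)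
  have hl0 : l i₀ = 1 := div_self hden
  have hFw : ∀ i, aeval w (F i) = 0 := by
    intro i
    have h1 := h0 i
    rw [sm_aeval_scale (hF i) hzw] at h1
    exact (mul_eq_zero.1 h1).resolve_left (pow_ne_zero _ hj₀)
  have hdF : ∀ j, ∑ i, l i * aeval w (pderiv j (F i)) = 0 := by
    intro j
    have h1 := congrFun hg j
    rw [Finset.sum_apply, Pi.zero_apply] at h1
    simp only [Pi.smul_apply, smul_eq_mul] at h1
    have h2 : ∀ i, l i * aeval w (pderiv j (F i)) =
        (g i₀ * z j₀ ^ (d i₀ - 1))⁻¹ * (g i * aeval z (pderiv j (F i))) := by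
      intro i
      rw [sm_aeval_scale ((hF i).pderiv (i := j)) hzw, hl]
      simp only
      rw [div_eq_mul_inv]
      ring
    rw [Finset.sum_congr rfl fun i _ => h2 i, ← Finset.mul_sum, h1, mul_zero]
  -- the special monomials
  let mA : Fin r → (Fin n →₀ ℕ) := fun i => Finsupp.single j₀ (d i)
  let mB : Fin n → (Fin n →₀ ℕ) := fun j => Finsupp.single j₀ (d i₀ - 1) + Finsupp.single j 1
  have hdegA : ∀ i, (mA i).degree = d i := fun i => Finsupp.degree_single _ _
  have hdegB : ∀ j, (mB j).degree = d i₀ := by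
    intro j
    have h1 := hd i₀
    rw [map_add, Finsupp.degree_single, Finsupp.degree_single]
    omega
  let spA : Fin r → MonA n d := fun i => ⟨(i, mA i), hdegA i⟩
  let spB : Fin n → MonA n d := fun j => ⟨(i₀, mB j), hdegB j⟩
  have hBA : ∀ j, j ≠ j₀ → ∀ i, mB j ≠ mA i := by
    intro j hj i h1
    have h2 := DFunLike.congr_fun h1 j
    simp only [mB, mA, Finsupp.add_apply, Finsupp.single_eq_same, Finsupp.single_eq_of_ne hj] at h2
    omega
  have hBB : ∀ j j', j ≠ j₀ → mB j = mB j' → j = j' := by
    intro j j' hj h1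
    by_contra hne
    have h2 := DFunLike.congr_fun h1 j
    simp only [mB, Finsupp.add_apply, Finsupp.single_eq_same, Finsupp.single_eq_of_ne hj,
      Finsupp.single_eq_of_ne hne] at h2
    omega
  let S : Set (MonA n d) := {a | (∃ i, a = spA i) ∨ ∃ j, j ≠ j₀ ∧ a = spB j}
  -- the smaller family
  let κ : Type := {j : Fin n // j ≠ j₀} ⊕ ({i : Fin r // i ≠ i₀} ⊕ {a : MonA n d // a ∉ S})
  let f : κ → MonA n d := Sum.elim (fun j => spB j.1) (Sum.elim (fun i => spA i.1) fun a => a.1)
  have hfinA : Finite (MonA n d) := sm_finite d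
  have hfinκ : Finite κ := inferInstance
  have hf : Function.Injective f := by
    rintro (⟨j, hj⟩ | ⟨i, hi⟩ | ⟨a, ha⟩) (⟨j', hj'⟩ | ⟨i', hi'⟩ | ⟨a', ha'⟩) h1
    · have h2 : mB j = mB j' := congrArg (fun x : MonA n d => x.1.2) h1
      have h3 := hBB j j' hj h2
      subst h3
      rfl
    · have h2 : mB j = mA i' := congrArg (fun x : MonA n d => x.1.2) h1
      exact absurd h2 (hBA j hj i')
    · exact absurd (show a' ∈ S from Or.inr ⟨j, hj, h1.symm⟩) ha'
    · have h2 : mA i = mB j' := congrArg (fun x : MonA n d => x.1.2) h1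
      exact absurd h2.symm (hBA j' hj' i)
    · have h2 : i = i' := congrArg (fun x : MonA n d => x.1.1) h1
      subst h2
      rfl
    · exact absurd (show a' ∈ S from Or.inl ⟨i, h1.symm⟩) ha'
    · exact absurd (show a ∈ S from Or.inr ⟨j', hj', h1⟩) ha
    · exact absurd (show a ∈ S from Or.inl ⟨i', h1⟩) ha
    · have h2 : a = a' := h1
      subst h2
      rfl
  have hnot : spA i₀ ∉ Set.range f := by
    rintro ⟨⟨j, hj⟩ | ⟨i, hi⟩ | ⟨a, ha⟩, h1⟩
    · have h2 : mB j = mA i₀ := congrArg (fun x : MonA n d => x.1.2) h1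
      exact hBA j hj i₀ h2
    · have h2 : i = i₀ := congrArg (fun x : MonA n d => x.1.1) h1
      exact hi h2
    · exact ha (Or.inl ⟨i₀, h1⟩)
  have hcard : Nat.card κ < Nat.card (MonA n d) := by
    have := Fintype.ofFinite κ
    have := Fintype.ofFinite (MonA n d)
    rw [Nat.card_eq_fintype_card, Nat.card_eq_fintype_card]
    exact Fintype.card_lt_of_injective_of_notMem f hf hnot
  let x : MonA n d → ℂ := fun im => coeff im.1.2 (F im.1.1)
  let y : κ → ℂ := Sum.elim (fun j => w j.1) (Sum.elim (fun i => l i.1) fun a => x a.1)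
  set L : Fl := adj k (Set.range y) with hL
  have hyL : ∀ c, y c ∈ L := fun c => subset_adj _ _ ⟨c, rfl⟩
  have hwL : ∀ j, w j ∈ L := by
    intro j
    by_cases hj : j = j₀
    · subst hj
      rw [hwj]
      exact one_mem L
    · exact hyL (Sum.inl ⟨j, hj⟩)
  have hlL : ∀ i, l i ∈ L := by
    intro i
    by_cases hi : i = i₀
    · subst hi
      rw [hl0]
      exact one_mem L
    · exact hyL (Sum.inr (Sum.inl ⟨i, hi⟩))
  have hxL : ∀ a, a ∉ S → x a ∈ L := fun a ha => hyL (Sum.inr (Sum.inr ⟨a, ha⟩))
  have hprod : ∀ e : ℕ, (Finsupp.single j₀ e).prod (fun j e => w j ^ e) = 1 := by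
    intro e
    rw [Finsupp.prod_single_index (h := fun j e => w j ^ e) (pow_zero _), hwj, one_pow]
  -- solving for the coefficient of the power of `X j₀`
  have hsolve : ∀ i, (∀ m : Fin n →₀ ℕ, m ≠ mA i → coeff m (F i) ∈ L) → coeff (mA i) (F i) ∈ L := by
    intro i hi
    have h1 : Coef L (F i - monomial (mA i) (coeff (mA i) (F i))) := by
      intro m
      rw [coeff_sub, coeff_monomial]
      by_cases hm : mA i = m
      · rw [if_pos hm, hm, sub_self]
        exact zero_mem L
      · rw [if_neg hm, sub_zero]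
        exact hi m (Ne.symm hm)
    have h2 := sm_aeval_mem h1 hwL
    rw [map_sub, hFw i, zero_sub, aeval_monomial] at h2
    have h3 : (mA i).prod (fun j e => w j ^ e) = 1 := hprod _
    rw [h3, mul_one] at h2
    have h4 := neg_mem h2
    rw [neg_neg] at h4
    exact h4
  have hdeg : ∀ i (m : Fin n →₀ ℕ), m.degree ≠ d i → coeff m (F i) = 0 := fun i m hm =>
    (hF i).coeff_eq_zero hm
  -- the coefficients of the other forms
  have hother : ∀ i, i ≠ i₀ → Coef L (F i) := by
    intro i hi
    have h1 : ∀ m : Fin n →₀ ℕ, m ≠ mA i → coeff m (F i) ∈ L := by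
      intro m hm
      by_cases hmd : m.degree = d i
      · refine hxL ⟨(i, m), hmd⟩ ?_
        rintro (⟨i', h2⟩ | ⟨j, hj, h2⟩)
        · have h3 : i = i' := congrArg (fun x : MonA n d => x.1.1) h2
          subst h3
          exact hm (congrArg (fun x : MonA n d => x.1.2) h2)
        · exact hi (congrArg (fun x : MonA n d => x.1.1) h2)
      · rw [hdeg i m hmd]
        exact zero_mem L
    intro m
    by_cases hm : m = mA i
    · rw [hm]
      exact hsolve i h1
    · exact h1 m hm
  -- the coefficients of `F i₀`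
  have hB : ∀ j, j ≠ j₀ → coeff (mB j) (F i₀) ∈ L := by
    intro j hj
    -- remove all the special monomials
    set H : MvPolynomial (Fin n) ℂ := F i₀ - monomial (mA i₀) (coeff (mA i₀) (F i₀)) -
      ∑ j' ∈ Finset.univ.erase j₀, monomial (mB j') (coeff (mB j') (F i₀)) with hH
    have hHL : Coef L H := by
      intro m
      rw [hH, coeff_sub, coeff_sub, coeff_sum, coeff_monomial]
      simp only [coeff_monomial]
      by_cases hmA : mA i₀ = m
      · rw [if_pos hmA, hmA, sub_self, zero_sub, Finset.sum_eq_zero, neg_zero]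
        · exact zero_mem L
        · intro j' hj'
          rw [if_neg]
          rw [← hmA]
          exact hBA j' (Finset.ne_of_mem_erase hj') i₀
      · rw [if_neg hmA, sub_zero]
        by_cases hmB : ∃ j', j' ≠ j₀ ∧ mB j' = m
        · obtain ⟨j', hj', rfl⟩ := hmB
          rw [Finset.sum_eq_single j']
          · rw [if_pos rfl, sub_self]
            exact zero_mem L
          · intro j'' hj'' hne
            rw [if_neg]
            intro h1
            exact hne (hBB j'' j' (Finset.ne_of_mem_erase hj'') h1)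
          · intro h1
            exact absurd (Finset.mem_erase.2 ⟨hj', Finset.mem_univ _⟩) h1
        · rw [Finset.sum_eq_zero, sub_zero]
          · by_cases hmd : m.degree = d i₀
            · refine hxL ⟨(i₀, m), hmd⟩ ?_
              rintro (⟨i', h2⟩ | ⟨j', hj', h2⟩)
              · have h3 : i₀ = i' := congrArg (fun x : MonA n d => x.1.1) h2
                subst h3
                exact hmA (congrArg (fun x : MonA n d => x.1.2) h2).symm
              · exact hmB ⟨j', hj', (congrArg (fun x : MonA n d => x.1.2) h2).symm⟩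
            · rw [hdeg i₀ m hmd]
              exact zero_mem L
          · intro j' hj'
            rw [if_neg]
            intro h1
            exact hmB ⟨j', Finset.ne_of_mem_erase hj', h1⟩
    have h1 := sm_aeval_mem (sm_coef_pderiv hHL j) hwL
    have h2 : aeval w (pderiv j (F i₀)) ∈ L := by
      have h3 := hdF j
      rw [← Finset.add_sum_erase Finset.univ _ (Finset.mem_univ i₀), hl0, one_mul] at h3
      rw [eq_neg_of_add_eq_zero_left h3]
      exact neg_mem (sum_mem fun i hi => mul_mem (hlL i)
        (sm_aeval_mem (sm_coef_pderiv (hother i (Finset.ne_of_mem_erase hi)) j) hwL))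
    have h3 : aeval w (pderiv j (monomial (mA i₀) (coeff (mA i₀) (F i₀)))) = 0 := by
      rw [pderiv_monomial]
      have h4 : mA i₀ j = 0 := by
        simp only [mA]
        exact Finsupp.single_eq_of_ne hj
      rw [h4, Nat.cast_zero, mul_zero, monomial_zero, map_zero]
    have h4 : ∀ j' ∈ Finset.univ.erase j₀,
        aeval w (pderiv j (monomial (mB j') (coeff (mB j') (F i₀)))) =
          if j' = j then coeff (mB j) (F i₀) else 0 := by
      intro j' hj'
      rw [pderiv_monomial]
      by_cases h5 : j' = j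
      · subst h5
        have h6 : mB j' j' = 1 := by
          simp only [mB, Finsupp.add_apply, Finsupp.single_eq_same, Finsupp.single_eq_of_ne hj]
        have h7 : mB j' - Finsupp.single j' 1 = Finsupp.single j₀ (d i₀ - 1) := by
          simp only [mB, add_tsub_cancel_right]
        rw [if_pos rfl, h6, h7, Nat.cast_one, mul_one, aeval_monomial, hprod, mul_one]
        rfl
      · have h6 : mB j' j = 0 := by
          simp only [mB, Finsupp.add_apply, Finsupp.single_eq_of_ne hj,
            Finsupp.single_eq_of_ne (Ne.symm h5), add_zero]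
        rw [if_neg h5, h6, Nat.cast_zero, mul_zero, monomial_zero, map_zero]
    have h5 : aeval w (pderiv j H) = aeval w (pderiv j (F i₀)) - coeff (mB j) (F i₀) := by
      rw [hH, map_sub, map_sub, map_sum, map_sub, map_sub, map_sum, h3, sub_zero,
        Finset.sum_congr rfl h4, Finset.sum_ite_eq',
        if_pos (Finset.mem_erase.2 ⟨hj, Finset.mem_univ _⟩)]
    rw [h5] at h1
    have h6 := sub_mem h2 h1
    rwa [sub_sub_cancel] at h6
  have hmain : Coef L (F i₀) := by
    have h1 : ∀ m : Fin n →₀ ℕ, m ≠ mA i₀ → coeff m (F i₀) ∈ L := by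
      intro m hm
      by_cases hmB : ∃ j, j ≠ j₀ ∧ mB j = m
      · obtain ⟨j, hj, rfl⟩ := hmB
        exact hB j hj
      · by_cases hmd : m.degree = d i₀
        · refine hxL ⟨(i₀, m), hmd⟩ ?_
          rintro (⟨i', h2⟩ | ⟨j', hj', h2⟩)
          · have h3 : i₀ = i' := congrArg (fun x : MonA n d => x.1.1) h2
            subst h3
            exact hm (congrArg (fun x : MonA n d => x.1.2) h2)
          · exact hmB ⟨j', hj', (congrArg (fun x : MonA n d => x.1.2) h2).symm⟩
        · rw [hdeg i₀ m hmd]
          exact zero_mem L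
    intro m
    by_cases hm : m = mA i₀
    · rw [hm]
      exact hsolve i₀ h1
    · exact h1 m hm
  have hall : ∀ i, Coef L (F i) := by
    intro i
    by_cases hi : i = i₀
    · rw [hi]
      exact hmain
    · exact hother i hi
  have h1 := ai_le_card hind (y := y) fun a => le_clo _ (hall a.1.1 a.1.2)
  omega

/-- the same at a point of `ciS F` -/
theorem linInd_of_mem {n r : ℕ} {k : Fl} {d : Fin r → ℕ} (hd : ∀ i, 1 ≤ d i)
    {F : Fin r → MvPolynomial (Fin n) ℂ} (hF : ∀ i, (F i).IsHomogeneous (d i))
    (hind : AlgebraicIndependent k (fun im : MonA n d => coeff im.1.2 (F im.1.1)))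
    {p : PN n} (hp : p ∈ ciS F) :
    LinearIndependent ℂ (fun i : Fin r => fun j : Fin n => aeval p.rep (pderiv j (F i))) :=
  linInd_of_ai hd hF hind p.rep_nonzero hp

end Pool.Agent.VCI
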