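import Pool.Agent.VCI.MuC
import Pool.Agent.VCI.Gen
import Pool.Agent.VCI.Smooth

/-! Complete intersections: the moving lemma and the equivariant choice of generic cycles. -/

set_option autoImplicit false

open scoped LinearAlgebra.Projectivization
open MvPolynomial

namespace Pool.Agent.VCI

open Pool.Agent.Chow0 (IsLink cyc ratTriv)
open Pool.Agent.VGS

variable {n r e : ℕ} {d : Fin r → ℕ}

/-! ### the parameters -/

/-- the index set of the parameters -/
abbrev MuI (n r : ℕ) : Type := Fin n ⊕ (Fin r × Fin n)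

theorem exists_mupar (L : Fl) [Countable L] (n r : ℕ) :
    ∃ s : Fin (Fintype.card (MuI n r)) → ℂ, AlgebraicIndependent L s := exists_algInd L _

theorem mupar_split {L : Fl} {s : Fin (Fintype.card (MuI n r)) → ℂ}
    (hs : AlgebraicIndependent L s) :
    AlgebraicIndependent L (fun l : Fin n => s (Fintype.equivFin (MuI n r) (Sum.inl l))) ∧
      AlgebraicIndependent
        (adj L (Set.range fun l : Fin n => s (Fintype.equivFin (MuI n r) (Sum.inl l))))
        fun jl : Fin r × Fin n => s (Fintype.equivFin (MuI n r) (Sum.inr (jl.1, jl.2))) := by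
  apply ai_sum.1
  have h1 : Sum.elim (fun l : Fin n => s (Fintype.equivFin (MuI n r) (Sum.inl l)))
      (fun jl : Fin r × Fin n => s (Fintype.equivFin (MuI n r) (Sum.inr (jl.1, jl.2)))) =
      s ∘ Fintype.equivFin (MuI n r) := by
    funext x
    rcases x with x | x
    · rfl
    · rfl
  rw [h1]
  exact hs.comp _ (Fintype.equivFin (MuI n r)).injective

/-! ### the moving lemma -/

theorem exists_ismu (hn : r + 2 < n) {F : Fin r → MvPolynomial (Fin n) ℂ}
    (hF : ∀ i, (F i).IsHomogeneous (d i))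
    (hsm : ∀ z : Fin n → ℂ, z ≠ 0 → (∀ i, aeval z (F i) = 0) →
      LinearIndependent ℂ fun (i : Fin r) (l : Fin n) => aeval z (pderiv l (F i)))
    {K E₀ L : Fl} [Countable E₀] (hKL : K ≤ L) (hKE : K ≤ E₀) (hFK : ∀ i, Coef K (F i))
    {s : Fin (Fintype.card (MuI n r)) → ℂ} (hsE : ∀ i, s i ∈ E₀)
    (hs : AlgebraicIndependent L s)
    (q : ciS F) (hqL : Over L q.1) : ∃ s t : Multiset (ciS F), IsMu E₀ K F q s t := by
  obtain ⟨h1, h2⟩ := mupar_split hs
  exact exists_z hn hF hsm hKL hKE hFK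
    (b₀ := fun l => s (Fintype.equivFin (MuI n r) (Sum.inl l)))
    (b := fun j l => s (Fintype.equivFin (MuI n r) (Sum.inr (j, l))))
    (fun l => hsE _) (fun j l => hsE _) h1 h2 q.2 hqL

theorem smooth_hsm {F : Fin r → MvPolynomial (Fin (r + 3)) ℂ} (hd : ∀ i, 1 ≤ d i)
    (hF : ∀ i, (F i).IsHomogeneous (d i)) {k : Fl}
    (hind : AlgebraicIndependent k (fun m : MonA (r + 3) d => coeff m.1.2 (F m.1.1)))
    (z : Fin (r + 3) → ℂ) (hz : z ≠ 0) (h0 : ∀ i, aeval z (F i) = 0) :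
    LinearIndependent ℂ fun (i : Fin r) (l : Fin (r + 3)) => aeval z (pderiv l (F i)) :=
  linInd_of_ai hd hF hind hz h0

/-- every point is rationally equivalent to a difference of cycles of generic points -/
theorem exists_move {F : Fin r → MvPolynomial (Fin (r + 3)) ℂ} (hd : ∀ i, 2 ≤ d i)
    (hF : ∀ i, (F i).IsHomogeneous (d i)) (k : Fl)
    (hind : AlgebraicIndependent k (fun m : MonA (r + 3) d => coeff m.1.2 (F m.1.1)))
    (L : Fl) [Countable L] (hL : cof k F ≤ L) (x : ciS F) :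
    ∃ s t : Multiset (ciS F), (∀ p ∈ s, p.1 ∈ Gen L F) ∧ (∀ p ∈ t, p.1 ∈ Gen L F) ∧
      IsLink (ciS F) (x ::ₘ s) t := by
  obtain ⟨s, hs⟩ := exists_mupar (adjP L x.1) (r + 3) r
  have hc : Countable (adj L (Set.range s)) := by
    have : Countable (Set.range s) := (Set.countable_range s).to_subtype
    infer_instance
  obtain ⟨s', t, h⟩ := exists_ismu (K := L) (E₀ := adj L (Set.range s)) (L := adjP L x.1)
    (by omega) hF (smooth_hsm (fun i => (by decide : 1 ≤ 2).trans (hd i)) hF hind) (le_adjP L x.1)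
    (le_adj _ _) (fun i => (coef_cof k F i).mono hL) (fun i => subset_adj _ _ ⟨i, rfl⟩) hs x
    (over_adjP L x.1)
  exact ⟨s', t, h.gen, h.gen', h.link⟩

/-- the integral form -/
theorem inst_moveZ {F : Fin r → MvPolynomial (Fin (r + 3)) ℂ} (hd : ∀ i, 2 ≤ d i)
    (hF : ∀ i, (F i).IsHomogeneous (d i)) (k : Fl)
    (hind : AlgebraicIndependent k (fun m : MonA (r + 3) d => coeff m.1.2 (F m.1.1)))
    (L : Fl) [Countable L] (hL : cof k F ≤ L) (x : ciS F) :
    ∃ s t : Multiset (ciS F), (∀ p ∈ s, p.1 ∈ Gen L F) ∧ (∀ p ∈ t, p.1 ∈ Gen L F) ∧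
      FreeAbelianGroup.of x + cyc s - cyc t ∈ ratTriv (ciS F) := by
  obtain ⟨s, t, h1, h2, h3⟩ := exists_move hd hF k hind L hL x
  refine ⟨s, t, h1, h2, AddSubgroup.subset_closure ⟨x ::ₘ s, t, h3, ?_⟩⟩
  congr 1
  simp [cyc]

/-! ### the rational form of the property -/

/-- the property of the cycle `z` attached to the point `q` -/
structure IsMuQ (E₀ K : Fl) (F : Fin r → MvPolynomial (Fin n) ℂ) (q : PN n) (z : Cy n) : Prop where
  fix : ∀ σ ∈ VGS.Fix (adjP E₀ q), actC σ z = z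
  gen : ∀ x ∈ z.support, x ∈ Gen K F
  rat : Finsupp.single q 1 - z ∈ ratQ F

theorem IsMu.toQ {E₀ K : Fl} {F : Fin r → MvPolynomial (Fin n) ℂ} {q : ciS F}
    {s t : Multiset (ciS F)} (h : IsMu E₀ K F q s t) :
    IsMuQ E₀ K F q.1 (cycQ (t.map Subtype.val) - cycQ (s.map Subtype.val)) := by
  classical
  have hsupp : ∀ {s : Multiset (ciS F)} {p : PN n}, p ∈ (cycQ (s.map Subtype.val)).support →
      ∃ x ∈ s, x.1 = p := by
    intro s p hp
    rw [Finsupp.mem_support_iff, cycQ_apply] at hp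
    have h3 : p ∈ s.map Subtype.val :=
      Multiset.count_ne_zero.1 fun h => hp (by rw [h, Nat.cast_zero])
    obtain ⟨x, hx, hxp⟩ := Multiset.mem_map.1 h3
    exact ⟨x, hx, hxp⟩
  refine ⟨fun σ hσ => ?_, fun p hp => ?_, ?_⟩
  · rw [map_sub, actC_cycQ, actC_cycQ, (h.fix σ hσ).1, (h.fix σ hσ).2]
  · rcases Finset.mem_union.1 (Finsupp.support_sub hp) with h2 | h2
    · obtain ⟨x, hx, rfl⟩ := hsupp h2
      exact h.gen' x hx
    · obtain ⟨x, hx, rfl⟩ := hsupp h2
      exact h.gen x hx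
  · have h1 : Finsupp.single q.1 (1 : ℚ) - (cycQ (t.map Subtype.val) - cycQ (s.map Subtype.val)) =
        cycQ ((q ::ₘ s).map Subtype.val) - cycQ (t.map Subtype.val) := by
      rw [Multiset.map_cons, cycQ_cons]
      abel
    rw [h1]
    exact Submodule.subset_span ⟨q ::ₘ s, t, h.link, rfl⟩

theorem inst_move {F : Fin r → MvPolynomial (Fin (r + 3)) ℂ} (hd : ∀ i, 2 ≤ d i)
    (_he : e + (r + 3) = ∑ i, d i)
    (hF : ∀ i, (F i).IsHomogeneous (d i)) (k : Fl) [Countable k]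
    (hind : AlgebraicIndependent k (fun m : MonA (r + 3) d => coeff m.1.2 (F m.1.1)))
    (L : Fl) [Countable L] (hL : cof k F ≤ L) {x : PN (r + 3)} (hx : x ∈ ciS F) :
    ∃ z : Cy (r + 3), (∀ p ∈ z.support, p ∈ Gen L F) ∧ Finsupp.single x 1 - z ∈ ratQ F := by
  obtain ⟨s, hs⟩ := exists_mupar (adjP L x) (r + 3) r
  have hc : Countable (adj L (Set.range s)) := by
    have : Countable (Set.range s) := (Set.countable_range s).to_subtype
    infer_instance
  obtain ⟨s', t, h⟩ := exists_ismu (K := L) (E₀ := adj L (Set.range s)) (L := adjP L x)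
    (by omega) hF (smooth_hsm (fun i => (by decide : 1 ≤ 2).trans (hd i)) hF hind) (le_adjP L x)
    (le_adj _ _) (fun i => (coef_cof k F i).mono hL) (fun i => subset_adj _ _ ⟨i, rfl⟩) hs
    ⟨x, hx⟩ (over_adjP L x)
  exact ⟨_, h.toQ.gen, h.toQ.rat⟩

/-! ### equivariance -/

theorem IsMuQ.actQ {E₀ K : Fl} {F : Fin r → MvPolynomial (Fin n) ℂ}
    (hF : ∀ i, (F i).IsHomogeneous (d i)) (hFK : ∀ i, Coef K (F i)) (hKE : K ≤ E₀) {q : PN n}
    {z : Cy n} (h : IsMuQ E₀ K F q z) {σ : ℂ ≃+* ℂ} (hσ : σ ∈ VGS.Fix E₀) :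
    IsMuQ E₀ K F (act σ q) (actC σ z) := by
  have hσK : σ ∈ VGS.Fix K := Fix_mono hKE hσ
  refine ⟨fun τ hτ => ?_, fun p hp => ?_, ?_⟩
  · obtain ⟨h1, h2⟩ := mem_Fix_adjP.1 hτ
    have h3 : σ⁻¹ * τ * σ ∈ VGS.Fix (adjP E₀ q) := by
      refine mem_Fix_adjP.2 ⟨mul_mem (mul_mem (inv_mem hσ) h1) hσ, ?_⟩
      rw [act_mul, act_mul, h2, ← act_mul, inv_mul_cancel, act_one]
    have h4 := h.fix _ h3
    have h5 : τ * σ = σ * (σ⁻¹ * τ * σ) := by group
    rw [← actC_mul, h5, actC_mul, h4]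
  · have h1 : act σ⁻¹ p ∈ z.support := by
      rw [Finsupp.mem_support_iff, actC_apply] at hp
      exact Finsupp.mem_support_iff.2 hp
    exact (act_mem_Gen hF hFK (inv_mem hσK)).1 (h.gen _ h1)
  · have h1 := actC_ratQ hF hFK hσK h.rat
    rwa [map_sub, actC_single] at h1

open Classical in
/-- an equivariant choice -/
theorem exists_equivariant {E₀ K : Fl} {F : Fin r → MvPolynomial (Fin n) ℂ}
    (hF : ∀ i, (F i).IsHomogeneous (d i)) (hFK : ∀ i, Coef K (F i)) (hKE : K ≤ E₀) :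
    ∃ μ : PN n → Cy n, (∀ σ ∈ VGS.Fix E₀, ∀ q, μ (act σ q) = actC σ (μ q)) ∧
      ∀ q, (∃ z, IsMuQ E₀ K F q z) → IsMuQ E₀ K F q (μ q) := by
  let R : Setoid (PN n) :=
    { r := fun q q' => ∃ σ ∈ VGS.Fix E₀, act σ q = q'
      iseqv := ⟨fun q => ⟨1, one_mem _, act_one _⟩, fun {q q'} h => by
        obtain ⟨σ, hσ, rfl⟩ := h
        exact ⟨σ⁻¹, inv_mem hσ, act_inv_act _ _⟩, fun {q q' q''} h h' => by
        obtain ⟨σ, hσ, rfl⟩ := h
        obtain ⟨τ, hτ, rfl⟩ := h'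
        exact ⟨τ * σ, mul_mem hτ hσ, act_mul _ _ _⟩⟩ }
  obtain ⟨rep, hrep⟩ : ∃ rep : PN n → PN n, ∀ q, rep q = (Quotient.mk R q).out := ⟨_, fun _ => rfl⟩
  have h1 : ∀ q, ∃ σ ∈ VGS.Fix E₀, act σ (rep q) = q := by
    intro q
    rw [hrep]
    exact Quotient.exact (s := R) (Quotient.out_eq _)
  choose τ hτ hτq using h1
  have h2 : ∀ σ ∈ VGS.Fix E₀, ∀ q, rep (act σ q) = rep q := by
    intro σ hσ q
    rw [hrep, hrep]
    congr 1
    exact (Quotient.sound (s := R) ⟨σ, hσ, rfl⟩).symm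
  obtain ⟨zc, hzc⟩ : ∃ zc : PN n → Cy n, ∀ q, (∀ σ ∈ VGS.Fix (adjP E₀ q), actC σ (zc q) = zc q) ∧
      ((∃ z, IsMuQ E₀ K F q z) → IsMuQ E₀ K F q (zc q)) := by
    refine ⟨fun q => if h : ∃ z, IsMuQ E₀ K F q z then h.choose else 0, fun q => ?_⟩
    by_cases h : ∃ z, IsMuQ E₀ K F q z
    · beta_reduce
      rw [dif_pos h]
      exact ⟨h.choose_spec.fix, fun _ => h.choose_spec⟩
    · beta_reduce
      rw [dif_neg h]
      exact ⟨fun σ _ => map_zero _, fun h' => absurd h' h⟩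
  refine ⟨fun q => actC (τ q) (zc (rep q)), fun σ hσ q => ?_, fun q hq => ?_⟩
  · beta_reduce
    rw [h2 σ hσ q, ← actC_mul]
    have h3 : (σ * τ q)⁻¹ * τ (act σ q) ∈ VGS.Fix (adjP E₀ (rep q)) := by
      refine mem_Fix_adjP.2 ⟨mul_mem (inv_mem (mul_mem hσ (hτ q))) (hτ _), ?_⟩
      have h4 := hτq (act σ q)
      rw [h2 σ hσ q] at h4
      rw [act_mul, h4]
      have h5 : act (σ * τ q) (rep q) = act σ q := by rw [act_mul, hτq]
      rw [← h5, act_inv_act]
    have h4 := (hzc (rep q)).1 _ h3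
    rw [actC_mul] at h4
    have h5 := congrArg (actC (σ * τ q)) h4
    rw [← actC_mul (σ * τ q) (σ * τ q)⁻¹, mul_inv_cancel, actC_one] at h5
    exact h5
  · have h3 : ∃ z, IsMuQ E₀ K F (rep q) z := by
      obtain ⟨z, hz⟩ := hq
      refine ⟨actC (τ q)⁻¹ z, ?_⟩
      have h4 := hz.actQ hF hFK hKE (inv_mem (hτ q))
      have h5 : act (τ q)⁻¹ q = rep q := by
        have h6 := congrArg (act (τ q)⁻¹) (hτq q)
        rw [act_inv_act] at h6
        exact h6.symm
      rwa [h5] at h4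
    have h4 := ((hzc (rep q)).2 h3).actQ hF hFK hKE (hτ q)
    rwa [hτq q] at h4

/-- parameters which are independent over `L` remain independent over `L(p)`, if `p` is generic
over the field of the parameters -/
theorem mu_ind (k : Fl) {F : Fin r → MvPolynomial (Fin (r + 3)) ℂ}
    (hF : ∀ i, (F i).IsHomogeneous (d i))
    (hind : AlgebraicIndependent k (fun m : MonA (r + 3) d => coeff m.1.2 (F m.1.1)))
    {L : Fl} (hL : cof k F ≤ L) {ι : Type} {s : ι → ℂ} (hs : AlgebraicIndependent L s)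
    {p : PN (r + 3)} (hp : p ∈ Gen (adj L (Set.range s)) F) :
    AlgebraicIndependent (clo (adjP (clo L) p)) s := by
  obtain ⟨z, hz, i, hzi, rfl⟩ := exists_nrm p
  obtain ⟨j, l, h1, h2⟩ := gen_algInd k hF hind (hL.trans (le_adj L (Set.range s))) hz hzi hp
  have h1' : AlgebraicIndependent L ![z j, z l] := ai_mono (le_adj _ _) h1
  have hall : ∀ m, z m ∈ clo (adj L {z j, z l}) := fun m =>
    alg_pair k hF hind hL hzi ((mem_surf_mk hF hz).1 hp.1)
      (le_clo _ (subset_adj _ _ ⟨j, rfl⟩)) (le_clo _ (subset_adj _ _ ⟨l, rfl⟩)) h1'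
      (le_clo _ (subset_adj _ _ ⟨m, rfl⟩))
  have h3 : AlgebraicIndependent L (Sum.elim s ![z j, z l]) := ai_sum.2 ⟨hs, h1⟩
  have h4 : AlgebraicIndependent L (Sum.elim ![z j, z l] s) := by
    have h5 : Sum.elim ![z j, z l] s = (Sum.elim s ![z j, z l]) ∘ Sum.swap := by
      funext x
      rcases x with x | x
      · rfl
      · rfl
    rw [h5]
    exact h3.comp _ (Equiv.sumComm (Fin 2) ι).injective
  have h5 := (ai_sum.1 h4).2
  have hr : Set.range ![z j, z l] = {z j, z l} := by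
    ext a
    simp [or_comm]
  rw [hr] at h5
  refine ai_mono_clo ?_ h5
  have h6 : adjP (clo L) (Projectivization.mk ℂ z hz : PN (r + 3)) ≤ clo (adj L {z j, z l}) := by
    rw [adjP_mk hz hzi]
    refine adj_le (clo_mono (le_adj _ _)) ?_
    rintro _ ⟨m, rfl⟩
    exact hall m
  exact (clo_mono h6).trans (clo_clo _).le

theorem inst_mu {F : Fin r → MvPolynomial (Fin (r + 3)) ℂ} (hd : ∀ i, 2 ≤ d i)
    (_he : e + (r + 3) = ∑ i, d i)
    (hF : ∀ i, (F i).IsHomogeneous (d i)) (k : Fl) [Countable k]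
    (hind : AlgebraicIndependent k (fun m : MonA (r + 3) d => coeff m.1.2 (F m.1.1)))
    (L : Fl) [Countable L] (hL : cof k F ≤ L) :
    ∃ (m : ℕ) (s : Fin m → ℂ) (μ : PN (r + 3) → Cy (r + 3)), AlgebraicIndependent L s ∧
      (∀ σ ∈ VGS.Fix (adj (cof k F) (Set.range s)), ∀ q ∈ ciS F, μ (act σ q) = actC σ (μ q)) ∧
      ∀ p ∈ Gen (adj L (Set.range s)) F, ∀ q ∈ ciS F,
        {y | ∃ σ ∈ VGS.Fix (clo L), act σ p = p ∧ act σ q = y}.Finite →
        (∀ x ∈ (μ q).support, x ∈ Gen (cof k F) F) ∧ Finsupp.single q 1 - μ q ∈ ratQ F := by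
  obtain ⟨s, hs⟩ := exists_mupar L (r + 3) r
  have hKc : Countable (cof k F) := Function.Injective.countable (f := fun x : cof k F =>
    (⟨x.1, hL x.2⟩ : L)) fun x y h => Subtype.ext (congrArg (fun z : L => (z : ℂ)) h)
  have hc : Countable (adj (cof k F) (Set.range s)) := by
    have : Countable (Set.range s) := (Set.countable_range s).to_subtype
    infer_instance
  obtain ⟨μ, hμ, hμ'⟩ := exists_equivariant (E₀ := adj (cof k F) (Set.range s)) (K := cof k F)
    hF (coef_cof k F) (le_adj _ _)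
  refine ⟨_, s, μ, hs, fun σ hσ q _ => hμ σ hσ q, fun p hp q hq hfin => ?_⟩
  have h1 := mu_ind k hF hind hL hs hp
  have h2 : Over (clo (adjP (clo L) p)) q := by
    apply over_clo_of_finite
    refine hfin.subset ?_
    rintro y ⟨σ, hσ, rfl⟩
    obtain ⟨h3, h4⟩ := mem_Fix_adjP.1 hσ
    exact ⟨σ, h3, h4, rfl⟩
  have hKL2 : cof k F ≤ clo (adjP (clo L) p) :=
    hL.trans ((le_clo L).trans ((le_adjP _ _).trans (le_clo _)))
  obtain ⟨s', t, h⟩ := exists_ismu (K := cof k F) (E₀ := adj (cof k F) (Set.range s))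
    (L := clo (adjP (clo L) p)) (by omega) hF
    (smooth_hsm (fun i => (by decide : 1 ≤ 2).trans (hd i)) hF hind) hKL2
    (le_adj _ _) (coef_cof k F) (fun i => subset_adj _ _ ⟨i, rfl⟩) h1 ⟨q, hq⟩ h2
  have h3 := hμ' q ⟨_, h.toQ⟩
  exact ⟨h3.gen, h3.rat⟩

end Pool.Agent.VCI
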