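import Pool.Agent.VCI.InstA
import Pool.Agent.VCI.Smooth
import Pool.Agent.VCI.TZ
import Pool.Agent.VCI.S1b
import Pool.Agent.VCI.Mu

/-! Complete intersections: the system of points of a surface with independent coefficients. -/

set_option autoImplicit false

open scoped LinearAlgebra.Projectivization
open MvPolynomial

namespace Pool.Agent.VCI

open Pool.Agent.VGS (Fl adj clo Coef Kills le_adj le_clo Sys)

variable {r : ℕ} {F : Fin r → MvPolynomial (Fin (r + 3)) ℂ} {d : Fin r → ℕ} {e : ℕ}

/-- forms with independent coefficients define a smooth complete intersection -/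
theorem isSmoothCI_of_ai (hd : ∀ i, 1 ≤ d i) (hF : ∀ i, (F i).IsHomogeneous (d i)) {k : Fl}
    (hind : AlgebraicIndependent k (fun m : MonA (r + 3) d => coeff m.1.2 (F m.1.1))) :
    IsSmoothCI F d := ⟨hF, fun _ hz h0 => linInd_of_ai hd hF hind hz h0⟩

/-- The system of the surface `F = 0`, where the forms `F i` have independent coefficients over
`k`. -/
noncomputable def sysCI (hd : ∀ i, 2 ≤ d i) (he : e + (r + 3) = ∑ i, d i)
    (hF : ∀ i, (F i).IsHomogeneous (d i)) (k : Fl) [Countable k]
    (hind : AlgebraicIndependent k (fun m : MonA (r + 3) d => coeff m.1.2 (F m.1.1))) : Sys where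
  P := PN (r + 3)
  act := act
  act_one := act_one
  act_mul := act_mul
  X := ciS F
  K := cof k F
  cK := inferInstance
  Gen := fun L => Gen L F
  rat := ratQ F
  TZ := fun L => TZ L F d
  act_X := fun σ hσ p hp => (act_mem_surf hF (coef_cof k F) hσ).2 hp
  gen_X := fun L p hp => hp.1
  gen_anti := fun L L' h => inst_gen_anti h F
  act_gen := fun L hL σ hσ p hp => inst_act_gen hF (fun i => (coef_cof k F i).mono hL) hσ hp
  conj := fun p hp q hq => conj k hF hd hind hp hq
  rat_act := fun σ hσ z hz => actC_ratQ hF (coef_cof k F) hσ hz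
  rat_deg := fun z hz => degQ_ratQ hz
  move := fun L _ hL x hx => inst_move hd he hF k hind L hL hx
  tz_X := fun L z hz => hz.1
  tz_mono := fun L L' _ h => tz_mono h
  tz_act := fun L hL σ hσ z hz => tz_act
    (isSmoothCI_of_ai (fun i => (by decide : 1 ≤ 2).trans (hd i)) hF hind)
    (fun i => (coef_cof k F i).mono hL) hσ hz
  s1t := fun n t ht α hα hσ => s1t
    (isSmoothCI_of_ai (fun i => (by decide : 1 ≤ 2).trans (hd i)) hF hind) hd he k hind t ht α hα hσ
  mu := fun L _ hL => inst_mu hd he hF k hind L hL

end Pool.Agent.VCI
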