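import Pool.Agent.VCI.Link
import Pool.Agent.VCI.Conj
import Pool.Agent.VCI.AutP

/-! A correspondence at generic points (doc S/MP_31564d_pres, (G), (P1)). -/

set_option autoImplicit false

open scoped LinearAlgebra.Projectivization
open MvPolynomial

namespace Pool.Agent.VCI

open Pool.Agent.VGS (Fl adj clo Coef IsPl Sp)

/-! ### places and algebraic extensions -/

/-- an element algebraic over a field `M` whose elements have a limit in `C` has a limit in `C` -/
theorem gs_alg {V : ValuationSubring ℂ} {C M : Fl} (hC : clo C = C) (hV : IsPl V C)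
    (hM : ∀ m ∈ M, ∃ c, Sp V C m c) {x : ℂ} (hx : x ∈ clo M) : ∃ c, Sp V C x c := by
  have hMV : ∀ m ∈ M, m ∈ V := fun m hm => by
    obtain ⟨c, hc⟩ := hM m hm
    exact hc.mem hV
  have hint : IsIntegral M x := (VGS.mem_clo.1 hx).isIntegral
  set P : Polynomial M := minpoly M x with hP
  have hPm : P.Monic := minpoly.monic hint
  -- `x` is in the valuation ring
  have hxV : x ∈ V := by
    have h1 : IsIntegral V x := by
      refine ⟨P.map (⟨⟨⟨fun m : M => (⟨m.1, hMV m.1 m.2⟩ : V), rfl⟩, fun _ _ => rfl⟩, rfl,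
        fun _ _ => rfl⟩ : M →+* V), hPm.map _, ?_⟩
      rw [Polynomial.eval₂_map]
      exact minpoly.aeval M x
    obtain ⟨y, hy⟩ := (IsIntegrallyClosed.isIntegral_iff (R := V) (K := ℂ)).1 h1
    rw [← hy]
    exact y.2
  have hxV' : V.valuation x ≤ 1 := (V.valuation_le_one_iff x).2 hxV
  have hsp : ∀ k, ∃ c : C, Sp V C ((P.coeff k : M) : ℂ) (c : ℂ) := by
    intro k
    obtain ⟨c, hc⟩ := hM _ (P.coeff k).2
    exact ⟨⟨c, hc.1⟩, hc⟩
  choose c hc using hsp
  set n := P.natDegree with hn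
  set q : Polynomial C := ∑ k ∈ Finset.range (n + 1), Polynomial.monomial k (c k) with hq
  have hqc : ∀ k, k ≤ n → q.coeff k = c k := by
    intro k hk
    rw [hq, Polynomial.finsetSum_coeff, Finset.sum_eq_single k]
    · rw [Polynomial.coeff_monomial, if_pos rfl]
    · intro i _ hik
      rw [Polynomial.coeff_monomial, if_neg hik]
    · intro h
      exact absurd (Finset.mem_range.2 (by omega)) h
  have hcn : c n = 1 := by
    have h1 : Sp V C ((P.coeff n : M) : ℂ) ((1 : C) : ℂ) := by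
      have h2 : P.coeff n = 1 := hPm
      rw [h2]
      exact VGS.Sp.const hV C.one_mem
    exact Subtype.ext (VGS.Sp.unique hV (hc n) h1)
  have hqd : q.natDegree ≤ n := by
    refine Polynomial.natDegree_sum_le_of_forall_le _ _ fun k hk => ?_
    exact (Polynomial.natDegree_monomial_le _).trans (by
      have := Finset.mem_range.1 hk
      omega)
  have hqm : q.Monic := Polynomial.monic_of_natDegree_le_of_coeff_eq_one n hqd (by
    rw [hqc n le_rfl, hcn])
  have hsmall : V.valuation (Polynomial.aeval x q) < 1 := by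
    have e1 : Polynomial.aeval x q = ∑ k ∈ Finset.range (n + 1), (c k : ℂ) * x ^ k := by
      rw [hq, map_sum]
      refine Finset.sum_congr rfl fun k _ => ?_
      rw [Polynomial.aeval_monomial]
      rfl
    have e2 : ∑ k ∈ Finset.range (n + 1), ((P.coeff k : M) : ℂ) * x ^ k = 0 := by
      have h1 := minpoly.aeval M x
      rw [← hP, Polynomial.aeval_def, Polynomial.eval₂_eq_sum_range] at h1
      exact h1
    have e3 : Polynomial.aeval x q =
        -∑ k ∈ Finset.range (n + 1), (((P.coeff k : M) : ℂ) - (c k : ℂ)) * x ^ k := by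
      rw [e1, ← sub_zero (∑ k ∈ Finset.range (n + 1), (c k : ℂ) * x ^ k), ← e2,
        ← Finset.sum_sub_distrib, ← Finset.sum_neg_distrib]
      refine Finset.sum_congr rfl fun k _ => ?_
      ring
    rw [e3, Valuation.map_neg]
    refine Valuation.map_sum_lt _ one_ne_zero fun k _ => ?_
    rw [map_mul, map_pow, mul_comm]
    exact VGS.pl_mul_lt (pow_le_one' hxV' k) (hc k).2
  set Q : Polynomial ℂ := q.map (algebraMap C ℂ) with hQ
  have hQx : Q.eval x = Polynomial.aeval x q := by
    rw [hQ, Polynomial.eval_map_algebraMap]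
  have hlead : Q.leadingCoeff = 1 := (hqm.map (algebraMap C ℂ))
  rw [← hQx, VGS.pl_eval_prod, hlead, map_one, one_mul] at hsmall
  by_contra hcon
  push Not at hcon
  refine absurd hsmall (not_lt.2 ?_)
  refine Multiset.one_le_prod_of_one_le fun y hy => ?_
  obtain ⟨r, hr, rfl⟩ := Multiset.mem_map.1 hy
  by_contra hlt
  rw [not_le] at hlt
  refine hcon r ⟨?_, hlt⟩
  have h5 : Q.eval r = 0 := Polynomial.isRoot_of_mem_roots hr
  refine VGS.pl_root_mem hC hqm.ne_zero ?_
  rw [← Polynomial.eval_map_algebraMap]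
  exact h5

/-- if all elements of `M` have a limit, there is an automorphism which maps the elements of
`clo M` to their limits -/
theorem gs_aut {V : ValuationSubring ℂ} {C M : Fl} [Countable M] (hC : clo C = C)
    (hV : IsPl V C) (hM : ∀ m ∈ M, ∃ c, Sp V C m c) :
    ∃ τ : ℂ ≃+* ℂ, ∀ x ∈ clo M, Sp V C x (τ x) := by
  have h1 : ∀ x : clo M, ∃ c, Sp V C (x : ℂ) c := fun x => gs_alg hC hV hM x.2
  choose g hg using h1
  let ψ : clo M →+* ℂ :=
    { toFun := g
      map_one' := VGS.Sp.unique hV (hg 1) (VGS.Sp.const hV C.one_mem)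
      map_mul' := fun x y => VGS.Sp.unique hV (hg (x * y)) (VGS.Sp.mul hV (hg x) (hg y))
      map_zero' := VGS.Sp.unique hV (hg 0) (VGS.Sp.const hV C.zero_mem)
      map_add' := fun x y => VGS.Sp.unique hV (hg (x + y)) (VGS.Sp.add hV (hg x) (hg y)) }
  have hc : Countable (clo M) := inferInstance
  obtain ⟨τ, hτ⟩ := VGS.ext_hom ((clo M).val : clo M →+* ℂ) ψ (by
    have e1 : RingHom.ker ((clo M).val : clo M →+* ℂ) = ⊥ :=
      (RingHom.injective_iff_ker_eq_bot ((clo M).val : clo M →+* ℂ)).1 (RingHom.injective _)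
    have e2 : RingHom.ker ψ = ⊥ := (RingHom.injective_iff_ker_eq_bot ψ).1 (RingHom.injective _)
    rw [e1, e2])
  refine ⟨τ, fun x hx => ?_⟩
  have h2 : τ x = g ⟨x, hx⟩ := hτ ⟨x, hx⟩
  rw [h2]
  exact hg ⟨x, hx⟩

variable {r : ℕ} {d : Fin r → ℕ} {F : Fin r → MvPolynomial (Fin (r + 3)) ℂ}

/-- the elements of `κ(s)` have limits, if `s` specialises to a conjugate of `s` over `κ` -/
theorem gs_lim {n : ℕ} {V : ValuationSubring ℂ} {κ C : Fl} (hV : IsPl V C) (hκ : κ ≤ C)
    {s q : PN n} {σ : ℂ ≃+* ℂ} (hσ : σ ∈ VGS.Fix κ) (hsq : act σ q = s) (h : SpP V C s q) :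
    ∀ x ∈ adjP κ s, Sp V C x (σ⁻¹ x) := by
  obtain ⟨w, hw, i, hi, rfl⟩ := exists_nrm q
  have hσw := map_ne_zero' σ hw
  rw [act_mk σ w hw hσw] at hsq
  subst hsq
  have hi' : (fun j => σ (w j)) i = 1 := by
    beta_reduce
    rw [hi, map_one]
  rw [spP_mk hV hσw hw hi' hi] at h
  rw [adjP_mk hσw hi']
  let W : Fl :=
    { carrier := {x | Sp V C x (σ⁻¹ x)}
      mul_mem' := by
        intro a b ha hb
        change Sp V C (a * b) (σ⁻¹ (a * b))
        rw [map_mul]
        exact VGS.Sp.mul hV ha hb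
      one_mem' := by
        change Sp V C 1 (σ⁻¹ 1)
        rw [map_one]
        exact VGS.Sp.const hV C.one_mem
      add_mem' := by
        intro a b ha hb
        change Sp V C (a + b) (σ⁻¹ (a + b))
        rw [map_add]
        exact VGS.Sp.add hV ha hb
      zero_mem' := by
        change Sp V C 0 (σ⁻¹ 0)
        rw [map_zero]
        exact VGS.Sp.const hV C.zero_mem
      algebraMap_mem' := by
        intro c
        change Sp V C (algebraMap ℚ ℂ c) (σ⁻¹ (algebraMap ℚ ℂ c))
        have h1 : σ⁻¹ (algebraMap ℚ ℂ c) = algebraMap ℚ ℂ c := by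
          have h2 : (c : ℂ) = algebraMap ℚ ℂ c := rfl
          rw [← h2]
          exact map_ratCast (σ⁻¹ : ℂ ≃+* ℂ) c
        rw [h1]
        exact VGS.Sp.const hV (C.algebraMap_mem c)
      inv_mem' := by
        intro a ha
        change Sp V C a⁻¹ (σ⁻¹ a⁻¹)
        by_cases h0 : a = 0
        · rw [h0, inv_zero, map_zero]
          exact VGS.Sp.const hV C.zero_mem
        · rw [map_inv₀]
          exact VGS.Sp.inv hV ha ((map_ne_zero_iff _ (σ⁻¹ : ℂ ≃+* ℂ).injective).2 h0) }
  have h1 : adj κ (Set.range fun j => σ (w j)) ≤ W := by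
    refine VGS.adj_le (fun x hx => ?_) ?_
    · change Sp V C x (σ⁻¹ x)
      have h2 : σ⁻¹ ∈ VGS.Fix κ := inv_mem hσ
      rw [h2 x hx]
      exact VGS.Sp.const hV (hκ hx)
    · rintro _ ⟨j, rfl⟩
      change Sp V C (σ (w j)) (σ⁻¹ (σ (w j)))
      have h2 : σ⁻¹ (σ (w j)) = w j := σ.symm_apply_apply _
      rw [h2]
      exact h j
  exact fun x hx => h1 hx

theorem gs_supp {n : ℕ} {σ : ℂ ≃+* ℂ} {z : Cy n} {x : PN n} (hx : x ∈ z.support) :
    act σ x ∈ (actC σ z).support := by
  rw [Finsupp.mem_support_iff, actC_apply, act_inv_act]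
  exact Finsupp.mem_support_iff.1 hx

/-- the points of `T p` are defined over the algebraic closure of `K'(p)` -/
theorem gs_over {n : ℕ} {K' : Fl} [Countable K'] {G : Set (PN n)} {T : PN n → Cy n}
    (hT : ∀ σ ∈ VGS.Fix K', ∀ p ∈ G, T (act σ p) = actC σ (T p)) {p : PN n} (hp : p ∈ G)
    {x : PN n} (hx : x ∈ (T p).support) : Over (clo (adjP K' p)) x := by
  refine over_clo_of_finite _ (Set.Finite.subset (T p).support.finite_toSet ?_)
  rintro y ⟨σ, hσ, rfl⟩
  obtain ⟨h1, h2⟩ := mem_Fix_adjP.1 hσ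
  have h3 := gs_supp (σ := σ) hx
  rw [← hT σ h1 p hp, h2] at h3
  exact h3

/-- `T(s)` specialises to `T(q)` if `s` specialises to the generic point `q` -/
theorem gen_sp (hd : ∀ i, 2 ≤ d i) (hF : ∀ i, (F i).IsHomogeneous (d i)) (k : Fl)
    [Countable k]
    (hind : AlgebraicIndependent k (fun m : MonA (r + 3) d => coeff m.1.2 (F m.1.1)))
    {K' C : Fl} [Countable C] (h1 : cof k F ≤ K') (h2 : K' ≤ clo (cof k F)) (hC : clo C = C)
    (hKC : cof k F ≤ C) {T : PN (r + 3) → Cy (r + 3)}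
    (hT : ∀ σ ∈ VGS.Fix K', ∀ p ∈ Gen (cof k F) F, T (act σ p) = actC σ (T p))
    {V : ValuationSubring ℂ} (hV : IsPl V C) {s q : PN (r + 3)} (hs : s ∈ Gen (cof k F) F)
    (hq : q ∈ Gen (cof k F) F) (hsq : SpP V C s q) (f : PN (r + 3) → PN (r + 3))
    (hf : ∀ y ∈ (T s).support, ∀ y', SpP V C y y' → f y = y') :
    (∀ y ∈ (T s).support, SpP V C y (f y)) ∧ (T s).mapDomain f = T q := by
  have hcκ : Countable (clo (cof k F)) := inferInstance
  have hcK' : Countable K' := by
    have h3 : ((clo (cof k F) : Fl) : Set ℂ).Countable := Set.to_countable _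
    exact h3.mono h2
  have hκC : clo (cof k F) ≤ C := by
    rw [← hC]
    exact VGS.clo_mono hKC
  obtain ⟨σ, hσ, hσq⟩ := conj k hF hd hind hq hs
  have h3 := gs_lim hV hκC hσ hσq hsq
  obtain ⟨τ, hτ⟩ := gs_aut hC hV (M := adjP (clo (cof k F)) s) fun m hm => ⟨_, h3 m hm⟩
  have hτκ : τ ∈ VGS.Fix (clo (cof k F)) := by
    intro x hx
    have h4 : x ∈ clo (adjP (clo (cof k F)) s) := VGS.le_clo _ (le_adjP _ _ hx)
    exact VGS.Sp.unique hV (hτ x h4) (VGS.Sp.const hV (hκC hx))
  -- points over `clo κ(s)` specialise to their images under `τ`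
  have key : ∀ y : PN (r + 3), Over (clo (adjP (clo (cof k F)) s)) y → SpP V C y (act τ y) := by
    rintro y ⟨v, hv, hvL, rfl⟩
    exact ⟨v, fun i => τ (v i), hv, map_ne_zero' τ hv, rfl, act_mk τ v hv _,
      fun i => hτ _ (hvL i)⟩
  have hτs : act τ s = q :=
    SpP.unique hV (key s ((over_adjP _ s).mono (VGS.le_clo _))) hsq
  have hov : ∀ y ∈ (T s).support, SpP V C y (act τ y) := by
    intro y hy
    refine key y ((gs_over hT hs hy).mono (VGS.clo_mono ?_))
    exact adjP_le (h2.trans (le_adjP _ _)) (over_adjP _ s)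
  have hfy : ∀ y ∈ (T s).support, f y = act τ y := fun y hy => hf y hy _ (hov y hy)
  refine ⟨fun y hy => ?_, ?_⟩
  · rw [hfy y hy]
    exact hov y hy
  · rw [← hτs, hT τ (VGS.Fix_mono h2 hτκ) s hs]
    exact Finsupp.mapDomain_congr hfy

/-- a correspondence preserves the rational equivalence given by one family with generic limits -/
theorem fam_T (hd : ∀ i, 2 ≤ d i) (hF : ∀ i, (F i).IsHomogeneous (d i)) (k : Fl)
    [Countable k]
    (hind : AlgebraicIndependent k (fun m : MonA (r + 3) d => coeff m.1.2 (F m.1.1)))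
    {K' E : Fl} [Countable E] (h1 : cof k F ≤ K') (h2 : K' ≤ clo (cof k F)) (hK' : K' ≤ E)
    {T : PN (r + 3) → Cy (r + 3)} (hTX : ∀ p ∈ Gen (cof k F) F, ∀ q ∈ (T p).support, q ∈ ciS F)
    (hT : ∀ σ ∈ VGS.Fix K', ∀ p ∈ Gen (cof k F) F, T (act σ p) = actC σ (T p))
    {u : ℂ} (hu : u ∉ clo E) {z : Cy (r + 3)} (hz : IsFamC E u z)
    (hzG : ∀ p ∈ z.support, p ∈ Gen (cof k F) F)
    {V₀ V₁ : ValuationSubring ℂ} (hV₀ : IsPl V₀ (clo E)) (hV₁ : IsPl V₁ (clo E))
    (hu₀ : Sp V₀ (clo E) u 0) (hu₁ : Sp V₁ (clo E) u 1) {f g : PN (r + 3) → PN (r + 3)}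
    (hf : ∀ p ∈ z.support, SpP V₀ (clo E) p (f p) ∧ f p ∈ Gen (cof k F) F)
    (hg : ∀ p ∈ z.support, SpP V₁ (clo E) p (g p) ∧ g p ∈ Gen (cof k F) F) :
    ext T (z.mapDomain f) - ext T (z.mapDomain g) ∈ ratQ F := by
  classical
  have hcκ : Countable (clo (cof k F)) := inferInstance
  have hcE : Countable (clo E) := inferInstance
  have hcK' : Countable K' := by
    have h3 : ((clo (cof k F) : Fl) : Set ℂ).Countable := Set.to_countable _
    exact h3.mono h2
  have hKE : cof k F ≤ clo E := (h1.trans hK').trans (VGS.le_clo E)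
  have hCC : clo (clo E) = clo E := VGS.clo_clo E
  -- the points of `T p`, for `p` in the support of `z`
  have hov : ∀ p ∈ z.support, ∀ x ∈ (T p).support, Over (clo (adj E {u})) x := by
    intro p hp x hx
    refine (gs_over hT (hzG p hp) hx).mono ?_
    rw [← VGS.clo_clo (adj E {u})]
    exact VGS.clo_mono (adjP_le ((hK'.trans (VGS.le_adj _ _)).trans (VGS.le_clo _))
      (hz.isOver p hp))
  have hle : clo (adj E {u}) ≤ clo (adj (clo E) {u}) :=
    VGS.clo_mono (VGS.adj_le ((VGS.le_clo E).trans (VGS.le_adj _ _)) (VGS.subset_adj _ _))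
  have hf' : ∀ x : PN (r + 3), Over (clo (adj E {u})) x → ∃ q, SpP V₀ (clo E) x q :=
    fun x hx => exists_spP hCC hV₀ hu hu₀ (hx.mono hle)
  have hg' : ∀ x : PN (r + 3), Over (clo (adj E {u})) x → ∃ q, SpP V₁ (clo E) x q :=
    fun x hx => exists_spP hCC hV₁ hu hu₁ (hx.mono hle)
  choose! a ha using hf'
  choose! b hb using hg'
  have hext : ∀ w : Cy (r + 3), ext T w = w.sum fun p c => c • T p := fun w => by
    unfold ext
    rw [Finsupp.linearCombination_apply]
  -- the support of the cycle `T z`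
  have hsup : ∀ x ∈ (ext T z).support, ∃ p ∈ z.support, x ∈ (T p).support := by
    intro x hx
    rw [hext] at hx
    have h3 := Finsupp.support_finsetSum (s := z.support) (f := fun p => z p • T p) hx
    rw [Finset.mem_biUnion] at h3
    obtain ⟨p, hp, h4⟩ := h3
    exact ⟨p, hp, Finsupp.support_smul h4⟩
  -- the family `T z`
  have hfam : IsFamC E u (ext T z) := by
    refine ⟨fun x hx => ?_, fun σ hσ => ?_⟩
    · obtain ⟨p, hp, h3⟩ := hsup x hx
      exact hov p hp x h3
    · have hσK : σ ∈ VGS.Fix K' := VGS.Fix_mono (hK'.trans (VGS.le_adj _ _)) hσ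
      have h3 : ∀ w : Cy (r + 3), (∀ p ∈ w.support, p ∈ Gen (cof k F) F) →
          actC σ (ext T w) = ext T (actC σ w) := by
        intro w hw
        have h4 : w = ∑ p ∈ w.support, Finsupp.single p (w p) := (Finsupp.sum_single w).symm
        rw [h4, map_sum, map_sum, map_sum, map_sum]
        refine Finset.sum_congr rfl fun p hp => ?_
        rw [ext_single, map_smul, actC_single, ext_single, hT σ hσK p (hw p hp)]
      rw [h3 z hzG, hz.stable σ hσ]
  -- the limits of the family `T z`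
  have hlim : ∀ {V : ValuationSubring ℂ}, IsPl V (clo E) → ∀ {l e : PN (r + 3) → PN (r + 3)},
      (∀ p ∈ z.support, SpP V (clo E) p (l p) ∧ l p ∈ Gen (cof k F) F) →
      (∀ x, Over (clo (adj E {u})) x → SpP V (clo E) x (e x)) →
      ext T (z.mapDomain l) = (ext T z).mapDomain e := by
    intro V hV l e hl he
    have h4 : z = ∑ p ∈ z.support, Finsupp.single p (z p) := (Finsupp.sum_single z).symm
    have h5 : ∀ p ∈ z.support, (T p).mapDomain e = T (l p) := fun p hp =>
      (gen_sp hd hF k hind h1 h2 hCC hKE hT hV (hzG p hp) (hl p hp).2 (hl p hp).1 e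
        fun y hy y' hy' => SpP.unique hV (he y (hov p hp y hy)) hy').2
    have h6 : ∀ w : Cy (r + 3), (∀ p ∈ w.support, (T p).mapDomain e = T (l p)) →
        ext T (w.mapDomain l) = (ext T w).mapDomain e := by
      intro w hw
      have h7 : w.mapDomain l = ∑ p ∈ w.support, Finsupp.single (l p) (w p) := rfl
      rw [h7, map_sum, hext w]
      have h8 : (w.sum fun p c => c • T p).mapDomain e =
          ∑ p ∈ w.support, (w p • T p).mapDomain e :=
        map_sum (Finsupp.mapDomain.addMonoidHom e) _ _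
      rw [h8]
      refine Finset.sum_congr rfl fun p hp => ?_
      rw [ext_single, Finsupp.mapDomain_smul, hw p hp]
    exact h6 z h5
  rw [hlim hV₀ hf ha, hlim hV₁ hg hb]
  refine link_cy hu hfam hF (fun i m => (h1.trans hK') (coef_cof k F i m)) (fun x hx => ?_) hV₀ hV₁ hu₀ hu₁
    (fun x hx => ha x (hfam.isOver x hx)) (fun x hx => hb x (hfam.isOver x hx))
  obtain ⟨p, hp, h3⟩ := hsup x hx
  exact hTX p (hzG p hp) x h3

end Pool.Agent.VCI
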