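import Pool.Agent.VCI.Cont
import Pool.Agent.VCI.GenSp
import Pool.Agent.VCI.Gen

/-! A correspondence preserves rational equivalence (doc S/MP_31564d_pres, (P2), (P3)). -/

set_option autoImplicit false

open MvPolynomial

namespace Pool.Agent.VCI

open Pool.Agent.VGS (Fl adj clo Coef IsPl Sp)
open Pool.Agent.Chow0 (IsLink IsChowForm)

/-! ### independence -/

theorem pr_ai {E : Fl} {ι : Type} {x : ι → ℂ} (hx : AlgebraicIndependent E x) {u : ℂ}
    (hu : u ∉ clo (adj E (Set.range x))) : AlgebraicIndependent (clo (adj E {u})) x := by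
  have h1 := ai_add hx hu
  have h2 : AlgebraicIndependent E (Sum.elim (fun _ : Unit => u) x) := by
    have h3 := h1.comp Sum.swap Sum.swap_leftInverse.injective
    convert h3 using 1
    ext (i | i) <;> rfl
  have h4 := (VGS.ai_sum.1 h2).2
  rw [Set.range_const] at h4
  exact VGS.ai_clo.2 h4

/-! ### families with a given Chow form -/

section chow

variable {n : ℕ}

theorem pr_coeff_eval (Φ : Polynomial (MvPolynomial (Fin n) ℂ)) (t : ℂ) (m : Fin n →₀ ℕ) :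
    coeff m (Φ.eval (C t)) =
      ∑ i ∈ Finset.range (Φ.natDegree + 1), coeff m (Φ.coeff i) * t ^ i := by
  rw [Polynomial.eval_eq_sum_range, coeff_sum]
  refine Finset.sum_congr rfl fun i _ => ?_
  rw [← C_pow, mul_comm, coeff_C_mul, mul_comm]

theorem pr_chow_lim {V : ValuationSubring ℂ} {C₀ : Fl} (hV : IsPl V C₀)
    {Φ : Polynomial (MvPolynomial (Fin n) ℂ)} (hΦ : ∀ i, Coef C₀ (Φ.coeff i)) {u t : ℂ}
    (ht : Sp V C₀ u t) {S s : Multiset (PN n)} (hS : IsCh (Φ.eval (C u)) S)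
    (hs : IsCh (Φ.eval (C t)) s) {f : PN n → PN n} (hf : ∀ p ∈ S, SpP V C₀ p (f p)) :
    S.map f = s := by
  classical
  have h1 : ∀ p ∈ S, ∃ z w : Fin n → ℂ, (∃ hz : z ≠ 0, p = Projectivization.mk ℂ z hz) ∧
      (∃ hw : w ≠ 0, f p = Projectivization.mk ℂ w hw) ∧ ∀ i, Sp V C₀ (z i) (w i) := by
    intro p hp
    obtain ⟨z, w, hz, hw, h2, h3, h4⟩ := hf p hp
    exact ⟨z, w, ⟨hz, h2⟩, ⟨hw, h3⟩, h4⟩
  choose! z w hz hw hzw using h1
  have hZ : IsCh (S.map fun p => Chow0.linForm (z p)).prod S := by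
    have h2 := isCh_prod S z id hz
    rwa [Multiset.map_id] at h2
  have hW : IsCh (S.map fun p => Chow0.linForm (w p)).prod (S.map f) := isCh_prod S w f hw
  obtain ⟨k, -, hk⟩ := hS.ratio hZ
  have h3 : SpM V C₀ (Φ.eval (C u)) (Φ.eval (C t)) := by
    intro m
    rw [pr_coeff_eval, pr_coeff_eval]
    exact VGS.Sp.sum hV _ fun i _ => VGS.Sp.mul hV (VGS.Sp.const hV (hΦ i m)) (VGS.Sp.pow hV ht i)
  obtain ⟨a, ha, ha'⟩ := h3.ratio hV (SpM.prod hV S z w hzw) hk hs.ne_zero hW.ne_zero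
  rw [ha'] at hs
  exact (hW.C_mul ha).unique hs

theorem pr_chow_fam {E : Fl} [Countable E] {Φ : Polynomial (MvPolynomial (Fin n) ℂ)}
    (hΦ : ∀ i, Coef E (Φ.coeff i)) {u : ℂ} {S : Multiset (PN n)}
    (hS : IsCh (Φ.eval (C u)) S) : IsFam E u S := by
  have hst : ∀ σ ∈ VGS.Fix (adj E {u}), S.map (act σ) = S := by
    intro σ hσ
    have h1 := hS.map σ
    have h2 : MvPolynomial.map (σ : ℂ →+* ℂ) (Φ.eval (C u)) = Φ.eval (C u) := by
      refine MvPolynomial.ext _ _ fun m => ?_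
      rw [coeff_map, pr_coeff_eval, map_sum]
      refine Finset.sum_congr rfl fun i _ => ?_
      rw [map_mul, map_pow]
      have h3 := hσ _ (VGS.le_adj _ _ (hΦ i m))
      have h4 := hσ u (VGS.subset_adj _ _ rfl)
      change σ _ * σ u ^ i = _
      rw [h3, h4]
    rw [h2] at h1
    exact h1.unique hS
  have hcE : Countable (adj E {u}) := VGS.countable_adj _ _
  refine ⟨fun p hp => ?_, hst⟩
  refine over_clo_of_finite _ (Set.Finite.subset (Multiset.finite_toSet S) ?_)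
  rintro _ ⟨σ, hσ, rfl⟩
  change act σ p ∈ S
  rw [← hst σ hσ]
  exact Multiset.mem_map_of_mem _ hp

end chow

/-! ### cycles of sections -/

section sec

variable {n r : ℕ} {d : Fin r → ℕ} {F : Fin r → MvPolynomial (Fin n) ℂ}

theorem pr_vec_mul (a : ℂ) (w : Fin n → ℂ) (b : Fin r → Fin n → ℂ) (c : Fin r → ℂ) :
    vec (fun l => a * w l) b (fun j => a * c j) = fun l => a * vec w b c l := by
  funext l
  simp only [vec]
  rw [mul_add, Finset.mul_sum]
  congr 1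
  refine Finset.sum_congr rfl fun j _ => ?_
  ring

theorem pr_vec_zero (w : Fin n → ℂ) (b : Fin r → Fin n → ℂ) : vec w b 0 = w := by
  funext l
  simp [vec]

theorem pr_mkP_mul [NeZero n] {a : ℂ} (ha : a ≠ 0) (v : Fin n → ℂ) :
    mkP (fun l => a * v l) = mkP v := by
  by_cases hv : v = 0
  · subst hv
    congr 1
    funext l
    simp
  · have h' : (fun l => a * v l) ≠ 0 := by
      intro h
      apply hv
      funext l
      have h1 := congrFun h l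
      simpa [ha] using h1
    rw [mkP_eq hv, mkP_eq h']
    exact mk_eq_mk_of_mul h' hv (a := a) fun _ => rfl

theorem pr_mem_secC_mul (hF : ∀ i, (F i).IsHomogeneous (d i)) {a : ℂ} (ha : a ≠ 0)
    {w : Fin n → ℂ} {b : Fin r → Fin n → ℂ} {c : Fin r → ℂ} :
    (fun j => a * c j) ∈ SecC F (fun l => a * w l) b ↔ c ∈ SecC F w b := by
  simp only [SecC, Set.mem_ofPred_eq, pr_vec_mul]
  refine forall_congr' fun i => ?_
  rw [aeval_scale (hF i) (z := fun l => a * vec w b c l) (w := vec w b c) (a := a)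
    (fun _ => rfl), mul_eq_zero, or_iff_right (pow_ne_zero _ ha)]

theorem pr_secCy_mul [NeZero n] (hF : ∀ i, (F i).IsHomogeneous (d i)) {a : ℂ} (ha : a ≠ 0)
    (w : Fin n → ℂ) (b : Fin r → Fin n → ℂ) :
    secCy F (fun l => a * w l) b = secCy F w b := by
  unfold secCy
  symm
  refine finsum_mem_eq_of_bijOn (fun c j => a * c j) ⟨?_, ?_, ?_⟩ ?_
  · intro c hc
    exact (pr_mem_secC_mul hF ha).2 hc
  · intro c _ c' _ h
    funext j
    exact mul_left_cancel₀ ha (congrFun h j)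
  · intro c hc
    have h1 : (fun j => a * (a⁻¹ * c j)) = c := by
      funext j
      rw [mul_inv_cancel_left₀ ha]
    refine ⟨fun j => a⁻¹ * c j, ?_, h1⟩
    rw [← pr_mem_secC_mul hF ha, h1]
    exact hc
  · intro c _
    rw [pr_vec_mul, pr_mkP_mul ha]

theorem pr_secCy_rep [NeZero n] (hF : ∀ i, (F i).IsHomogeneous (d i)) {z : Fin n → ℂ} (hz : z ≠ 0)
    (b : Fin r → Fin n → ℂ) :
    secCy F (Projectivization.mk ℂ z hz : PN n).rep b = secCy F z b := by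
  obtain ⟨a, ha⟩ := Projectivization.exists_smul_eq_mk_rep ℂ z hz
  rw [← ha]
  exact pr_secCy_mul hF a.ne_zero z b

theorem pr_muV_mk [NeZero n] (hF : ∀ i, (F i).IsHomogeneous (d i)) {z : Fin n → ℂ} (hz : z ≠ 0)
    (b₀ : Fin n → ℂ) (b : Fin r → Fin n → ℂ) :
    muV F b₀ b (Projectivization.mk ℂ z hz) =
      secCy F b₀ b - (secCy F z b - Finsupp.single (Projectivization.mk ℂ z hz) 1) := by
  unfold muV
  rw [pr_secCy_rep hF hz]

theorem pr_vec_act {σ : ℂ ≃+* ℂ} {b : Fin r → Fin n → ℂ} (hb : ∀ j l, σ (b j l) = b j l)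
    (w : Fin n → ℂ) (c : Fin r → ℂ) :
    vec (fun l => σ (w l)) b (fun j => σ (c j)) = fun l => σ (vec w b c l) := by
  funext l
  simp only [vec]
  rw [map_add, map_sum]
  congr 1
  refine Finset.sum_congr rfl fun j _ => ?_
  rw [map_mul, hb]

theorem pr_mem_secC_act {L : Fl} (hFL : ∀ i, Coef L (F i)) {σ : ℂ ≃+* ℂ} (hσ : σ ∈ VGS.Fix L)
    {b : Fin r → Fin n → ℂ} (hb : ∀ j l, σ (b j l) = b j l) {w : Fin n → ℂ} {c : Fin r → ℂ} :
    (fun j => σ (c j)) ∈ SecC F (fun l => σ (w l)) b ↔ c ∈ SecC F w b := by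
  simp only [SecC, Set.mem_ofPred_eq, pr_vec_act hb]
  refine forall_congr' fun i => ?_
  rw [VGS.aeval_fix (hFL i) hσ, map_eq_zero_iff σ σ.injective]

theorem pr_secCy_act [NeZero n] {L : Fl} (hFL : ∀ i, Coef L (F i)) {σ : ℂ ≃+* ℂ}
    (hσ : σ ∈ VGS.Fix L) {b : Fin r → Fin n → ℂ} (hb : ∀ j l, σ (b j l) = b j l)
    {w : Fin n → ℂ} (hfin : (SecC F w b).Finite) :
    actC σ (secCy F w b) = secCy F (fun l => σ (w l)) b := by
  unfold secCy
  have h1 := AddMonoidHom.map_finsum_mem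
    (fun c => Finsupp.single (mkP (vec w b c)) (1 : ℚ)) (actC σ).toAddMonoidHom hfin
  refine Eq.trans h1 ?_
  refine finsum_mem_eq_of_bijOn (fun c j => σ (c j)) ⟨?_, ?_, ?_⟩ ?_
  · intro c hc
    exact (pr_mem_secC_act hFL hσ hb).2 hc
  · intro c _ c' _ h
    funext j
    exact σ.injective (congrFun h j)
  · intro c hc
    have h2 : (fun j => σ (σ.symm (c j))) = c := by
      funext j
      rw [σ.apply_symm_apply]
    refine ⟨fun j => σ.symm (c j), ?_, h2⟩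
    rw [← pr_mem_secC_act hFL hσ hb, h2]
    exact hc
  · intro c _
    change actC σ (Finsupp.single (mkP (vec w b c)) (1 : ℚ)) = _
    rw [actC_single, act_mkP, pr_vec_act hb]

theorem pr_secCy_support [NeZero n] {w : Fin n → ℂ} {b : Fin r → Fin n → ℂ}
    (hfin : (SecC F w b).Finite) {p : PN n} (hp : p ∈ (secCy F w b).support) :
    ∃ c ∈ SecC F w b, p = mkP (vec w b c) := by
  classical
  by_contra hcon
  push Not at hcon
  apply Finsupp.mem_support_iff.1 hp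
  unfold secCy
  rw [finsum_mem_eq_finite_toFinset_sum _ hfin, Finsupp.finsetSum_apply]
  refine Finset.sum_eq_zero fun c hc => ?_
  rw [Finsupp.single_apply, if_neg]
  exact fun h => hcon c (hfin.mem_toFinset.1 hc) h.symm

theorem pr_muV_support [NeZero n] (hF : ∀ i, (F i).IsHomogeneous (d i)) {b₀ : Fin n → ℂ}
    {b : Fin r → Fin n → ℂ} (hfin₀ : (SecC F b₀ b).Finite) {z : Fin n → ℂ}
    (hfin : (SecC F z b).Finite) (hzF : ∀ i, aeval z (F i) = 0) (hz : z ≠ 0) {p : PN n}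
    (hp : p ∈ (muV F b₀ b (Projectivization.mk ℂ z hz)).support) :
    (∃ c ∈ SecC F b₀ b, p = mkP (vec b₀ b c)) ∨
      ∃ c ∈ SecC F z b, c ≠ 0 ∧ p = mkP (vec z b c) := by
  classical
  by_contra hcon
  push Not at hcon
  obtain ⟨hcon1, hcon2⟩ := hcon
  apply Finsupp.mem_support_iff.1 hp
  have h1 : secCy F b₀ b p = 0 := by
    by_contra h
    obtain ⟨c, hc, h2⟩ := pr_secCy_support hfin₀ (Finsupp.mem_support_iff.2 h)
    exact hcon1 c hc h2
  have h0 : (0 : Fin r → ℂ) ∈ hfin.toFinset := by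
    rw [hfin.mem_toFinset]
    intro i
    rw [pr_vec_zero]
    exact hzF i
  have h2 : secCy F z b = Finsupp.single (Projectivization.mk ℂ z hz) 1 +
      ∑ c ∈ hfin.toFinset.erase 0, Finsupp.single (mkP (vec z b c)) (1 : ℚ) := by
    unfold secCy
    rw [finsum_mem_eq_finite_toFinset_sum _ hfin, ← Finset.add_sum_erase _ _ h0, pr_vec_zero,
      mkP_eq hz]
  rw [pr_muV_mk hF hz, h2, add_sub_cancel_left, Finsupp.sub_apply, h1, zero_sub, neg_eq_zero,
    Finsupp.finsetSum_apply]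
  refine Finset.sum_eq_zero fun c hc => ?_
  rw [Finset.mem_erase] at hc
  rw [Finsupp.single_apply, if_neg]
  exact fun h => hcon2 c (hfin.mem_toFinset.1 hc.2) hc.1 h.symm

theorem pr_secCy_mapDomain [NeZero n] {w w' : Fin n → ℂ} {b : Fin r → Fin n → ℂ}
    {e : (Fin r → ℂ) → (Fin r → ℂ)} (he : Set.BijOn e (SecC F w b) (SecC F w' b))
    (hfin : (SecC F w b).Finite) {f : PN n → PN n}
    (hf : ∀ c ∈ SecC F w b, f (mkP (vec w b c)) = mkP (vec w' b (e c))) :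
    (secCy F w b).mapDomain f = secCy F w' b := by
  unfold secCy
  have h1 := AddMonoidHom.map_finsum_mem
    (fun c => Finsupp.single (mkP (vec w b c)) (1 : ℚ)) (Finsupp.mapDomain.addMonoidHom f) hfin
  refine Eq.trans h1 ?_
  refine finsum_mem_eq_of_bijOn e he ?_
  intro c hc
  change Finsupp.mapDomain f (Finsupp.single (mkP (vec w b c)) (1 : ℚ)) = _
  rw [Finsupp.mapDomain_single, hf c hc]

theorem pr_vec_ne (hd : ∀ i, 2 ≤ d i) (hF : ∀ i, (F i).IsHomogeneous (d i)) (hr : 0 < r)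
    {v : Fin n → ℂ} {b : Fin r → Fin n → ℂ} (h : (jacM F v b).det ≠ 0) : v ≠ 0 := by
  rintro rfl
  apply h
  have : Nonempty (Fin r) := ⟨⟨0, hr⟩⟩
  have h1 : jacM F 0 b = 0 := by
    ext i j
    simp only [jacM, Matrix.of_apply, Matrix.zero_apply]
    refine Finset.sum_eq_zero fun l _ => ?_
    have h2 : ((pderiv l) (F i)).IsHomogeneous (d i - 1) := (hF i).pderiv
    have h3 := aeval_scale h2 (z := (0 : Fin n → ℂ)) (w := 0) (a := 0) (fun _ => by simp)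
    rw [h3, zero_pow (by have := hd i; omega), zero_mul, zero_mul]
  rw [h1, Matrix.det_zero]

theorem pr_over_mkP [NeZero n] {M : Fl} {v : Fin n → ℂ} (hv : v ≠ 0) (h : ∀ l, v l ∈ M) :
    Over M (mkP v) := ⟨v, hv, h, mkP_eq hv⟩

theorem pr_vec_mem {M : Fl} {w : Fin n → ℂ} (hw : ∀ l, w l ∈ M) {b : Fin r → Fin n → ℂ}
    (hb : ∀ j l, b j l ∈ M) {c : Fin r → ℂ} (hc : ∀ j, c j ∈ M) (l : Fin n) :
    vec w b c l ∈ M :=
  add_mem (hw l) (sum_mem fun j _ => mul_mem (hc j) (hb j l))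

theorem pr_vec_sp {V : ValuationSubring ℂ} {C₀ : Fl} (hV : IsPl V C₀) {w w' : Fin n → ℂ}
    (hw : ∀ l, Sp V C₀ (w l) (w' l)) {b : Fin r → Fin n → ℂ} (hb : ∀ j l, b j l ∈ C₀)
    {c c' : Fin r → ℂ} (hc : ∀ j, Sp V C₀ (c j) (c' j)) (l : Fin n) :
    Sp V C₀ (vec w b c l) (vec w' b c' l) :=
  VGS.Sp.add hV (hw l) (VGS.Sp.sum hV _ fun j _ =>
    VGS.Sp.mul hV (hc j) (VGS.Sp.const hV (hb j l)))

theorem pr_ext_cycQ (T : PN n → Cy n) (S : Multiset (PN n)) : ext T (cycQ S) = (S.map T).sum := by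
  induction S using Multiset.induction_on with
  | empty => rw [cycQ_zero, map_zero, Multiset.map_zero, Multiset.sum_zero]
  | cons p S ih =>
    rw [cycQ_cons, map_add, ext_single, one_smul, ih, Multiset.map_cons, Multiset.sum_cons]

theorem pr_mem_support_msum {M : Multiset (Cy n)} {p : PN n} (hp : p ∈ M.sum.support) :
    ∃ y ∈ M, p ∈ y.support := by
  classical
  induction M using Multiset.induction_on with
  | empty => simp at hp
  | cons y M ih =>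
    rw [Multiset.sum_cons] at hp
    rcases Finset.mem_union.1 (Finsupp.support_add hp) with h | h
    · exact ⟨y, Multiset.mem_cons_self y M, h⟩
    · obtain ⟨y', hy', h'⟩ := ih h
      exact ⟨y', Multiset.mem_cons_of_mem hy', h'⟩

theorem pr_spP_nrm {V : ValuationSubring ℂ} {C₀ : Fl} (hV : IsPl V C₀) {p q : PN n}
    (h : SpP V C₀ p q) : ∃ (z w : Fin n → ℂ) (hz : z ≠ 0) (hw : w ≠ 0) (i : Fin n),
      z i = 1 ∧ w i = 1 ∧ p = Projectivization.mk ℂ z hz ∧ q = Projectivization.mk ℂ w hw ∧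
        ∀ j, Sp V C₀ (z j) (w j) := by
  obtain ⟨i, hi⟩ := Function.ne_iff.1 q.rep_nonzero
  have hi' : q.rep i ≠ 0 := hi
  obtain ⟨hpi, hr⟩ := h.ratio hV hi'
  have h1 : ∀ x : PN n, x.rep i ≠ 0 → ∃ (z : Fin n → ℂ) (hz : z ≠ 0), z i = 1 ∧
      x = Projectivization.mk ℂ z hz ∧ ∀ j, z j = x.rep j / x.rep i := by
    intro x hx
    have hxi : (fun j => x.rep j / x.rep i) i = 1 := div_self hx
    have h0 : (fun j => x.rep j / x.rep i) ≠ 0 := by
      intro h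
      rw [h] at hxi
      exact zero_ne_one hxi
    refine ⟨_, h0, hxi, ?_, fun _ => rfl⟩
    conv_lhs => rw [← x.mk_rep]
    exact mk_eq_mk_of_mul x.rep_nonzero h0 (a := x.rep i) fun j =>
      (mul_div_cancel₀ _ hx).symm
  obtain ⟨z, hz, hzi, hpz, hz'⟩ := h1 p hpi
  obtain ⟨w, hw, hwi, hqw, hw'⟩ := h1 q hi'
  refine ⟨z, w, hz, hw, i, hzi, hwi, hpz, hqw, fun j => ?_⟩
  rw [hz', hw']
  exact hr j

theorem pr_spP_up {V : ValuationSubring ℂ} {C₀ C₁ : Fl} (h : C₀ ≤ C₁) {p q : PN n}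
    (hp : SpP V C₀ p q) : SpP V C₁ p q := by
  obtain ⟨z, w, hz, hw, h1, h2, h3⟩ := hp
  exact ⟨z, w, hz, hw, h1, h2, fun i => ⟨h (h3 i).1, (h3 i).2⟩⟩

/-- the limit of a point, if it exists -/
theorem pr_exists_limfun {V : ValuationSubring ℂ} {C₀ : Fl} (hV : IsPl V C₀) :
    ∃ f : PN n → PN n, ∀ p q, SpP V C₀ p q → f p = q := by
  classical
  refine ⟨fun p => if h : ∃ q, SpP V C₀ p q then h.choose else p, fun p q h => ?_⟩
  have h1 : ∃ q, SpP V C₀ p q := ⟨q, h⟩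
  beta_reduce
  rw [dif_pos h1]
  exact SpP.unique hV h1.choose_spec h

end sec

/-! ### sections of the complete intersection -/

section main

variable {r : ℕ} {d : Fin r → ℕ} {F : Fin r → MvPolynomial (Fin (r + 3)) ℂ}

theorem pr_sec0 (hd : ∀ i, 2 ≤ d i) (hF : ∀ i, (F i).IsHomogeneous (d i)) (k : Fl) [Countable k]
    (hind : AlgebraicIndependent k (fun m : MonA (r + 3) d => coeff m.1.2 (F m.1.1)))
    (hr : 0 < r) (E : Fl) [Countable E] (hE : clo E = E) (hKE : cof k F ≤ E)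
    {b₀ : Fin (r + 3) → ℂ} {b : Fin r → Fin (r + 3) → ℂ}
    (hb : AlgebraicIndependent E (Sum.elim b₀ fun jl : Fin r × Fin (r + 3) => b jl.1 jl.2)) :
    (SecC F b₀ b).Finite ∧ ∀ c ∈ SecC F b₀ b, vec b₀ b c ≠ 0 ∧
      mkP (vec b₀ b c) ∈ Gen (cof k F) F ∧ ∀ (M : Fl) [Countable M], cof k F ≤ M →
        (∀ l, b₀ l ∈ M) → (∀ j l, b j l ∈ M) → Over (clo M) (mkP (vec b₀ b c)) := by
  have ht : ∀ c ∈ SecC F b₀ b, (jacM F (vec b₀ b c) b).det ≠ 0 := fun c hc =>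
    sec_tra0 hd hF k hind hr E hE hKE hb hc
  refine ⟨secC_finite ht, fun c hc => ?_⟩
  have hv := pr_vec_ne hd hF hr (ht c hc)
  refine ⟨hv, Gen_anti hKE F (sec_gen0 hd hF k hind E hE hKE hb hc), ?_⟩
  intro M _ hKM hb₀ hbM
  have h1 := alg_of_jac (M := M) (fun i => (coef_cof k F i).mono hKM) hb₀ hbM (c := c)
    (x := vec b₀ b c) (fun _ => rfl) hc (ht c hc)
  exact pr_over_mkP hv (pr_vec_mem (fun l => VGS.le_clo _ (hb₀ l)) (fun j l => VGS.le_clo _ (hbM j l)) h1)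

theorem pr_sec1 (hd : ∀ i, 2 ≤ d i) (hF : ∀ i, (F i).IsHomogeneous (d i)) (k : Fl) [Countable k]
    (hind : AlgebraicIndependent k (fun m : MonA (r + 3) d => coeff m.1.2 (F m.1.1)))
    (hr : 0 < r) (E : Fl) [Countable E] (hE : clo E = E) (hKE : cof k F ≤ E)
    {x : Fin (r + 3) → ℂ} (hx : ∀ l, x l ∈ E) (hx0 : x ≠ 0) (hxF : ∀ i, aeval x (F i) = 0)
    {b : Fin r → Fin (r + 3) → ℂ}
    (hb : AlgebraicIndependent E fun jl : Fin r × Fin (r + 3) => b jl.1 jl.2) :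
    (SecC F x b).Finite ∧ ∀ c ∈ SecC F x b, vec x b c ≠ 0 ∧
      (c ≠ 0 → mkP (vec x b c) ∈ Gen (cof k F) F) ∧ ∀ (M : Fl) [Countable M], cof k F ≤ M →
        (∀ l, x l ∈ M) → (∀ j l, b j l ∈ M) → Over (clo M) (mkP (vec x b c)) := by
  have ht : ∀ c ∈ SecC F x b, (jacM F (vec x b c) b).det ≠ 0 := fun c hc =>
    sec_tra hd hF k hind hr E hE hKE hx hx0 hxF hb hc
  refine ⟨secC_finite ht, fun c hc => ?_⟩
  have hv := pr_vec_ne hd hF hr (ht c hc)
  refine ⟨hv, fun hc0 => Gen_anti hKE F (sec_gen hd hF k hind E hE hKE hx hb hc hc0), ?_⟩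
  intro M _ hKM hxM hbM
  have h1 := alg_of_jac (M := M) (fun i => (coef_cof k F i).mono hKM) hxM hbM (c := c)
    (x := vec x b c) (fun _ => rfl) hc (ht c hc)
  exact pr_over_mkP hv (pr_vec_mem (fun l => VGS.le_clo _ (hxM l)) (fun j l => VGS.le_clo _ (hbM j l)) h1)

/-- the cycle `μ(S)` of a family is a family of generic points -/
theorem pr_mu_fam (hd : ∀ i, 2 ≤ d i) (hF : ∀ i, (F i).IsHomogeneous (d i)) (k : Fl) [Countable k]
    (hind : AlgebraicIndependent k (fun m : MonA (r + 3) d => coeff m.1.2 (F m.1.1)))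
    (hr : 0 < r) (E : Fl) [Countable E] (hKE : cof k F ≤ E)
    {b₀ : Fin (r + 3) → ℂ} {b : Fin r → Fin (r + 3) → ℂ}
    (hb : AlgebraicIndependent E (Sum.elim b₀ fun jl : Fin r × Fin (r + 3) => b jl.1 jl.2))
    {M : Fl} [Countable M] (hEM : E ≤ M) (hb₀M : ∀ l, b₀ l ∈ M) (hbM : ∀ j l, b j l ∈ M)
    (hM : adj E (Set.range (Sum.elim b₀ fun jl : Fin r × Fin (r + 3) => b jl.1 jl.2)) = M)
    {u : ℂ} (hu : u ∉ clo M) {S : Multiset (PN (r + 3))} (hS : IsFam E u S)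
    (hSX : ∀ p ∈ S, p ∈ ciS F) :
    IsFamC M u (ext (muV F b₀ b) (cycQ S)) ∧
      ∀ p ∈ (ext (muV F b₀ b) (cycQ S)).support, p ∈ Gen (cof k F) F := by
  classical
  obtain ⟨E₁, hE₁d⟩ : ∃ E₁ : Fl, E₁ = clo (adj E {u}) := ⟨_, rfl⟩
  have hcE₀ : Countable (adj E {u}) := VGS.countable_adj _ _
  have hcE₁ : Countable E₁ := by rw [hE₁d]; infer_instance
  have hE₁ : clo E₁ = E₁ := by rw [hE₁d, VGS.clo_clo]
  have hEE₁ : E ≤ E₁ := by
    rw [hE₁d]
    exact (VGS.le_adj _ _).trans (VGS.le_clo _)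
  have hKE₁ : cof k F ≤ E₁ := hKE.trans hEE₁
  have hbE₁ : AlgebraicIndependent E₁
      (Sum.elim b₀ fun jl : Fin r × Fin (r + 3) => b jl.1 jl.2) := by
    rw [hE₁d]
    exact pr_ai hb (by rw [hM]; exact hu)
  have hb1 : AlgebraicIndependent E₁ (fun jl : Fin r × Fin (r + 3) => b jl.1 jl.2) :=
    hbE₁.comp Sum.inr Sum.inr_injective
  have hcM₀ : Countable (adj M {u}) := VGS.countable_adj _ _
  obtain ⟨M₁, hM₁d⟩ : ∃ M₁ : Fl, M₁ = clo (adj M {u}) := ⟨_, rfl⟩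
  have hcM₁ : Countable M₁ := by rw [hM₁d]; infer_instance
  have hM₁ : clo M₁ = M₁ := by rw [hM₁d, VGS.clo_clo]
  have hMM₁ : M ≤ M₁ := by
    rw [hM₁d]
    exact (VGS.le_adj _ _).trans (VGS.le_clo _)
  have hE₁M₁ : E₁ ≤ M₁ := by
    rw [hE₁d, hM₁d]
    refine VGS.clo_mono (VGS.adj_le (hEM.trans (VGS.le_adj _ _)) ?_)
    exact VGS.subset_adj _ _
  have key : ∀ p ∈ S, ∃ (z : Fin (r + 3) → ℂ) (hz : z ≠ 0), p = Projectivization.mk ℂ z hz ∧
      (∀ l, z l ∈ E₁) ∧ ∀ i, aeval z (F i) = 0 := by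
    intro p hp
    obtain ⟨z, hz, h1, h2⟩ := hS.isOver p hp
    refine ⟨z, hz, h2, fun l => by rw [hE₁d]; exact h1 l, ?_⟩
    have h3 := hSX p hp
    rw [h2] at h3
    exact (mem_surf_mk hF hz).1 h3
  obtain ⟨hf0, hs0⟩ := pr_sec0 hd hF k hind hr E₁ hE₁ hKE₁ hbE₁
  -- the points
  have hpts : ∀ p ∈ (ext (muV F b₀ b) (cycQ S)).support,
      Over M₁ p ∧ p ∈ Gen (cof k F) F := by
    intro p hp
    rw [pr_ext_cycQ] at hp
    obtain ⟨y, hy, hpy⟩ := pr_mem_support_msum hp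
    obtain ⟨x, hx, rfl⟩ := Multiset.mem_map.1 hy
    obtain ⟨z, hz, rfl, hzE, hzF⟩ := key x hx
    obtain ⟨hf1, hs1⟩ := pr_sec1 hd hF k hind hr E₁ hE₁ hKE₁ hzE hz hzF hb1
    rcases pr_muV_support hF hf0 hf1 hzF hz hpy with ⟨c, hc, rfl⟩ | ⟨c, hc, hc0, rfl⟩
    · obtain ⟨-, h1, h2⟩ := hs0 c hc
      have h3 := h2 M₁ (hKE₁.trans hE₁M₁) (fun l => hMM₁ (hb₀M l)) (fun j l => hMM₁ (hbM j l))
      rw [hM₁] at h3
      exact ⟨h3, h1⟩
    · obtain ⟨-, h1, h2⟩ := hs1 c hc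
      have h3 := h2 M₁ (hKE₁.trans hE₁M₁) (fun l => hE₁M₁ (hzE l)) (fun j l => hMM₁ (hbM j l))
      rw [hM₁] at h3
      exact ⟨h3, h1 hc0⟩
  refine ⟨⟨fun p hp => ?_, fun σ hσ => ?_⟩, fun p hp => (hpts p hp).2⟩
  · rw [← hM₁d]
    exact (hpts p hp).1
  · have hσM : σ ∈ VGS.Fix M := VGS.Fix_mono (VGS.le_adj _ _) hσ
    have hσE : σ ∈ VGS.Fix (adj E {u}) :=
      VGS.Fix_mono (VGS.adj_le (hEM.trans (VGS.le_adj _ _)) (VGS.subset_adj _ _)) hσ
    have hσb : ∀ j l, σ (b j l) = b j l := fun j l => hσM _ (hbM j l)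
    have hFM : ∀ i, Coef M (F i) := fun i => (coef_cof k F i).mono (hKE.trans hEM)
    have h1 : ∀ x ∈ S, actC σ (muV F b₀ b x) = muV F b₀ b (act σ x) := by
      intro x hx
      obtain ⟨z, hz, rfl, hzE, hzF⟩ := key x hx
      obtain ⟨hf1, -⟩ := pr_sec1 hd hF k hind hr E₁ hE₁ hKE₁ hzE hz hzF hb1
      have hz' := map_ne_zero' σ hz
      have hb₀σ : (fun l => σ (b₀ l)) = b₀ := funext fun l => hσM _ (hb₀M l)
      rw [pr_muV_mk hF hz, act_mk σ z hz hz', pr_muV_mk hF hz', map_sub, map_sub,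
        pr_secCy_act hFM hσM hσb hf0, pr_secCy_act hFM hσM hσb hf1, actC_single, act_mk σ z hz hz',
        hb₀σ]
    rw [pr_ext_cycQ, map_multiset_sum, Multiset.map_map]
    conv_rhs => rw [← hS.stable σ hσE, Multiset.map_map]
    congr 1
    exact Multiset.map_congr rfl fun x hx => h1 x hx

/-- the limit of `μ(S)` is `μ` of the limit of `S` -/
theorem pr_mu_lim (hd : ∀ i, 2 ≤ d i) (hF : ∀ i, (F i).IsHomogeneous (d i)) (k : Fl) [Countable k]
    (hind : AlgebraicIndependent k (fun m : MonA (r + 3) d => coeff m.1.2 (F m.1.1)))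
    (hr : 0 < r) (E : Fl) [Countable E] (hE : clo E = E) (hKE : cof k F ≤ E)
    {b₀ : Fin (r + 3) → ℂ} {b : Fin r → Fin (r + 3) → ℂ}
    (hb : AlgebraicIndependent E (Sum.elim b₀ fun jl : Fin r × Fin (r + 3) => b jl.1 jl.2))
    {M : Fl} [Countable M] (hEM : E ≤ M) (hb₀M : ∀ l, b₀ l ∈ M) (hbM : ∀ j l, b j l ∈ M)
    (hM : adj E (Set.range (Sum.elim b₀ fun jl : Fin r × Fin (r + 3) => b jl.1 jl.2)) = M)
    {u t : ℂ} (hu : u ∉ clo M) {S : Multiset (PN (r + 3))} (hS : IsFam E u S)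
    (hSX : ∀ p ∈ S, p ∈ ciS F) {V : ValuationSubring ℂ} (hV : IsPl V (clo M))
    (hut : Sp V (clo M) u t) {f₀ : PN (r + 3) → PN (r + 3)} (hf₀ : ∀ p ∈ S, SpP V E p (f₀ p)) :
    ∃ f : PN (r + 3) → PN (r + 3), (∀ p ∈ (ext (muV F b₀ b) (cycQ S)).support,
      SpP V (clo M) p (f p) ∧ f p ∈ Gen (cof k F) F) ∧
      (ext (muV F b₀ b) (cycQ S)).mapDomain f = ext (muV F b₀ b) (cycQ (S.map f₀)) := by
  classical
  obtain ⟨C, hCd⟩ : ∃ C : Fl, C = clo M := ⟨_, rfl⟩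
  rw [← hCd] at hu hV hut ⊢
  have hcC : Countable C := by rw [hCd]; infer_instance
  have hC : clo C = C := by rw [hCd, VGS.clo_clo]
  have hMC : M ≤ C := by rw [hCd]; exact VGS.le_clo _
  have hEC : E ≤ C := hEM.trans hMC
  have huM : u ∉ clo M := by rwa [hCd] at hu
  have huE : u ∉ E := fun h => hu (hEC h)
  obtain ⟨E₁, hE₁d⟩ : ∃ E₁ : Fl, E₁ = clo (adj E {u}) := ⟨_, rfl⟩
  have hcE₀ : Countable (adj E {u}) := VGS.countable_adj _ _
  have hcE₁ : Countable E₁ := by rw [hE₁d]; infer_instance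
  have hE₁ : clo E₁ = E₁ := by rw [hE₁d, VGS.clo_clo]
  have hEE₁ : E ≤ E₁ := by
    rw [hE₁d]
    exact (VGS.le_adj _ _).trans (VGS.le_clo _)
  have hKE₁ : cof k F ≤ E₁ := hKE.trans hEE₁
  have hbE₁ : AlgebraicIndependent E₁
      (Sum.elim b₀ fun jl : Fin r × Fin (r + 3) => b jl.1 jl.2) := by
    rw [hE₁d]
    exact pr_ai hb (by rw [hM]; exact huM)
  have hb1 : AlgebraicIndependent E₁ (fun jl : Fin r × Fin (r + 3) => b jl.1 jl.2) :=
    hbE₁.comp Sum.inr Sum.inr_injective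
  have hbE : AlgebraicIndependent E (fun jl : Fin r × Fin (r + 3) => b jl.1 jl.2) :=
    hb.comp Sum.inr Sum.inr_injective
  have hb1' : AlgebraicIndependent (clo (adj E {u}))
      (fun jl : Fin r × Fin (r + 3) => b jl.1 jl.2) := by rwa [hE₁d] at hb1
  have hbC : ∀ j l, b j l ∈ C := fun j l => hMC (hbM j l)
  obtain ⟨f, hf⟩ := pr_exists_limfun (n := r + 3) hV
  obtain ⟨hf0, hs0⟩ := pr_sec0 hd hF k hind hr E₁ hE₁ hKE₁ hbE₁
  -- the fixed points
  have hfix : ∀ c ∈ SecC F b₀ b, SpP V C (mkP (vec b₀ b c)) (mkP (vec b₀ b c)) := by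
    intro c hc
    obtain ⟨-, -, h2⟩ := hs0 c hc
    have h3 := h2 M (hKE.trans hEM) hb₀M hbM
    rw [← hCd] at h3
    exact SpP.refl hV h3
  -- the moving points
  have hpt : ∀ x ∈ S, (∀ p ∈ (muV F b₀ b x).support, SpP V C p (f p) ∧
      f p ∈ Gen (cof k F) F) ∧ (muV F b₀ b x).mapDomain f = muV F b₀ b (f₀ x) := by
    intro x hx
    have hFE : ∀ i, Coef E (F i) := fun i => (coef_cof k F i).mono hKE
    have hVE : IsPl V E := fun y hy => hV y (hEC hy)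
    obtain ⟨z, w, hz, hw, i, hzi, hwi, hxz, hxw, hzw⟩ := pr_spP_nrm hVE (hf₀ x hx)
    have hzE : ∀ l, z l ∈ E₁ := by
      have h1 := hS.isOver x hx
      rw [hxz, over_mk hz hzi] at h1
      rw [hE₁d]
      exact h1
    have hzE' : ∀ l, z l ∈ clo (adj E {u}) := by rwa [hE₁d] at hzE
    have hzF : ∀ i, aeval z (F i) = 0 := by
      have h3 := hSX x hx
      rw [hxz] at h3
      exact (mem_surf_mk hF hz).1 h3
    have hwE : ∀ l, w l ∈ E := fun l => (hzw l).1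
    have hwF : ∀ i, aeval w (F i) = 0 := by
      intro i
      have h1 := VGS.Sp.aeval hVE (hFE i) hzw
      rw [hzF i] at h1
      exact (VGS.Sp.unique hVE (VGS.Sp.const hVE (zero_mem E)) h1).symm
    have hzwC : ∀ l, Sp V C (z l) (w l) := fun l => ⟨hEC (hzw l).1, (hzw l).2⟩
    obtain ⟨e, he, he0, hec⟩ := sec_cont hd hF k hind hr E hE hKE huE hb1' hC hEC hbC hu hV hut
      hzE' hzF hwE hw hzwC
    obtain ⟨hf1, hs1⟩ := pr_sec1 hd hF k hind hr E₁ hE₁ hKE₁ hzE hz hzF hb1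
    obtain ⟨hf2, hs2⟩ := pr_sec1 hd hF k hind hr E hE hKE hwE hw hwF hbE
    have hsp : ∀ c ∈ SecC F z b, SpP V C (mkP (vec z b c)) (mkP (vec w b (e c))) := by
      intro c hc
      have h1 := (hs1 c hc).1
      have h2 := (hs2 (e c) (he.mapsTo hc)).1
      exact ⟨_, _, h1, h2, mkP_eq h1, mkP_eq h2, pr_vec_sp hV hzwC hbC (hec c hc)⟩
    have h0 : (0 : Fin r → ℂ) ∈ SecC F z b := by
      intro i
      rw [pr_vec_zero]
      exact hzF i
    refine ⟨fun p hp => ?_, ?_⟩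
    · rw [hxz] at hp
      rcases pr_muV_support hF hf0 hf1 hzF hz hp with ⟨c, hc, rfl⟩ | ⟨c, hc, hc0, rfl⟩
      · rw [hf _ _ (hfix c hc)]
        exact ⟨hfix c hc, (hs0 c hc).2.1⟩
      · rw [hf _ _ (hsp c hc)]
        refine ⟨hsp c hc, (hs2 (e c) (he.mapsTo hc)).2.1 fun h => hc0 ?_⟩
        exact he.injOn hc h0 (h.trans he0.symm)
    · have h1 : (secCy F b₀ b).mapDomain f = secCy F b₀ b :=
        pr_secCy_mapDomain (Set.bijOn_id _) hf0 fun c hc => hf _ _ (hfix c hc)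
      have h2 : (secCy F z b).mapDomain f = secCy F w b :=
        pr_secCy_mapDomain he hf1 fun c hc => hf _ _ (hsp c hc)
      have h3 : f (Projectivization.mk ℂ z hz) = Projectivization.mk ℂ w hw :=
        hf _ _ ⟨z, w, hz, hw, rfl, rfl, hzwC⟩
      have h4 : ∀ y y' : Cy (r + 3), (y - y').mapDomain f = y.mapDomain f - y'.mapDomain f :=
        fun y y' => map_sub (Finsupp.mapDomain.addMonoidHom f) y y'
      rw [hxw, hxz, pr_muV_mk hF hz, pr_muV_mk hF hw, h4, h4, h1, h2, Finsupp.mapDomain_single, h3]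
  refine ⟨f, fun p hp => ?_, ?_⟩
  · rw [pr_ext_cycQ] at hp
    obtain ⟨y, hy, hpy⟩ := pr_mem_support_msum hp
    obtain ⟨x, hx, rfl⟩ := Multiset.mem_map.1 hy
    exact (hpt x hx).1 p hpy
  · rw [pr_ext_cycQ, pr_ext_cycQ]
    have h1 := map_multiset_sum (Finsupp.mapDomain.addMonoidHom (M := ℚ) f)
      (S.map (muV F b₀ b))
    refine Eq.trans h1 ?_
    rw [Multiset.map_map, Multiset.map_map]
    congr 1
    exact Multiset.map_congr rfl fun x hx => (hpt x hx).2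

/-- `T(q)` and `T(μ(q))` are rationally equivalent for a generic point `q` -/
theorem pr_pt (hd : ∀ i, 2 ≤ d i) (hF : ∀ i, (F i).IsHomogeneous (d i)) (k : Fl) [Countable k]
    (hind : AlgebraicIndependent k (fun m : MonA (r + 3) d => coeff m.1.2 (F m.1.1)))
    (hr : 0 < r) {K' : Fl} (h1 : cof k F ≤ K') (h2 : K' ≤ clo (cof k F))
    {T : PN (r + 3) → Cy (r + 3)} (hTX : ∀ p ∈ Gen (cof k F) F, ∀ q ∈ (T p).support, q ∈ ciS F)
    (hT : ∀ σ ∈ VGS.Fix K', ∀ p ∈ Gen (cof k F) F, T (act σ p) = actC σ (T p))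
    (E : Fl) [Countable E] (hE : clo E = E) (hKE : K' ≤ E)
    {b₀ : Fin (r + 3) → ℂ} {b : Fin r → Fin (r + 3) → ℂ}
    (hb : AlgebraicIndependent E (Sum.elim b₀ fun jl : Fin r × Fin (r + 3) => b jl.1 jl.2))
    {q : PN (r + 3)} (hq : q ∈ Gen (cof k F) F) (hqE : Over E q) :
    T q - ext T (muV F b₀ b q) ∈ ratQ F := by
  classical
  obtain ⟨x, hx0, hx, hqx⟩ := hqE
  have hKE' : cof k F ≤ E := h1.trans hKE
  have hxF : ∀ i, aeval x (F i) = 0 := by
    have h3 := hq.1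
    rw [hqx] at h3
    exact (mem_surf_mk hF hx0).1 h3
  obtain ⟨M, hM⟩ : ∃ M : Fl, M = adj (adj E (Set.range b₀))
      (Set.range fun jl : Fin r × Fin (r + 3) => b jl.1 jl.2) := ⟨_, rfl⟩
  have hcM : Countable M := by
    rw [hM]
    infer_instance
  obtain ⟨u, S, V₀, V₁, f, g, hu, hS, hSG, hV₀, hV₁, hu₀, hu₁, hf, hg, hSf, hSg⟩ :=
    pen_fam hd hF k hind hr E hE hKE' hx hx0 hxF hb M hM
  obtain ⟨hf0, hs0⟩ := pr_sec0 hd hF k hind hr E hE hKE' hb
  have hbE : AlgebraicIndependent E (fun jl : Fin r × Fin (r + 3) => b jl.1 jl.2) :=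
    hb.comp Sum.inr Sum.inr_injective
  obtain ⟨hf1, hs1⟩ := pr_sec1 hd hF k hind hr E hE hKE' hx hx0 hxF hbE
  have hmem : ∀ p, p ∈ (cycQ S).support ↔ p ∈ S := by
    intro p
    rw [Finsupp.mem_support_iff, cycQ_apply, Ne, Nat.cast_eq_zero, Multiset.count_eq_zero,
      not_not]
  have hmem' : ∀ (h : PN (r + 3) → PN (r + 3)) (p), p ∈ S → h p ∈ (cycQ (S.map h)).support := by
    intro h p hp
    rw [Finsupp.mem_support_iff, cycQ_apply, Ne, Nat.cast_eq_zero, Multiset.count_eq_zero,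
      not_not]
    exact Multiset.mem_map_of_mem _ hp
  have hfam : IsFamC M u (cycQ S) :=
    ⟨fun p hp => hS.isOver p ((hmem p).1 hp), fun σ hσ => by rw [actC_cycQ, hS.stable σ hσ]⟩
  have hEM : E ≤ M := by
    rw [hM]
    exact (VGS.le_adj _ _).trans (VGS.le_adj _ _)
  have hfG : ∀ p ∈ S, f p ∈ Gen (cof k F) F := by
    intro p hp
    have h3 := hmem' f p hp
    rw [hSf] at h3
    obtain ⟨c, hc, h4⟩ := pr_secCy_support hf1 h3
    by_cases hc0 : c = 0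
    · rw [h4, hc0, pr_vec_zero, mkP_eq hx0, ← hqx]
      exact hq
    · rw [h4]
      exact (hs1 c hc).2.1 hc0
  have hgG : ∀ p ∈ S, g p ∈ Gen (cof k F) F := by
    intro p hp
    have h3 := hmem' g p hp
    rw [hSg] at h3
    obtain ⟨c, hc, h4⟩ := pr_secCy_support hf0 h3
    rw [h4]
    exact (hs0 c hc).2.1
  have h3 := fam_T hd hF k hind h1 h2 (hKE.trans hEM) hTX hT hu hfam
    (fun p hp => Gen_anti hKE' F (hSG p ((hmem p).1 hp))) hV₀ hV₁ hu₀ hu₁
    (fun p hp => ⟨hf p ((hmem p).1 hp), hfG p ((hmem p).1 hp)⟩)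
    (fun p hp => ⟨hg p ((hmem p).1 hp), hgG p ((hmem p).1 hp)⟩)
  rw [← cycQ_map, ← cycQ_map, hSf, hSg] at h3
  have h4 : T q - ext T (muV F b₀ b q) =
      ext T (secCy F x b) - ext T (secCy F b₀ b) := by
    rw [hqx, pr_muV_mk hF hx0, map_sub, map_sub, ext_single, one_smul]
    abel
  rw [h4]
  exact h3

/-- one link -/
theorem pr_link (hd : ∀ i, 2 ≤ d i) (hF : ∀ i, (F i).IsHomogeneous (d i)) (k : Fl) [Countable k]
    (hind : AlgebraicIndependent k (fun m : MonA (r + 3) d => coeff m.1.2 (F m.1.1)))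
    (hr : 0 < r) {K' : Fl} (h1 : cof k F ≤ K') (h2 : K' ≤ clo (cof k F))
    {T : PN (r + 3) → Cy (r + 3)} (hTX : ∀ p ∈ Gen (cof k F) F, ∀ q ∈ (T p).support, q ∈ ciS F)
    (hT : ∀ σ ∈ VGS.Fix K', ∀ p ∈ Gen (cof k F) F, T (act σ p) = actC σ (T p))
    {s₀ s₁ : Multiset (ciS F)} (hs : IsLink (ciS F) s₀ s₁) :
    ∃ L : Fl, Countable L ∧ ∀ (E : Fl) [Countable E], clo E = E → K' ≤ E → L ≤ E →
      ∀ (b₀ : Fin (r + 3) → ℂ) (b : Fin r → Fin (r + 3) → ℂ),
      AlgebraicIndependent E (Sum.elim b₀ fun jl : Fin r × Fin (r + 3) => b jl.1 jl.2) →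
      ext T (ext (muV F b₀ b) (cycQ (s₀.map Subtype.val) - cycQ (s₁.map Subtype.val))) ∈
        ratQ F := by
  classical
  obtain ⟨Φ, hΦ, hΦ0, hΦ1⟩ := hs
  obtain ⟨L, hL⟩ : ∃ L : Fl, L = adj k (Set.range fun im : ℕ × (Fin (r + 3) →₀ ℕ) =>
      coeff im.2 (Φ.coeff im.1)) := ⟨_, rfl⟩
  refine ⟨L, ?_, ?_⟩
  · rw [hL]
    have : Countable (Set.range fun im : ℕ × (Fin (r + 3) →₀ ℕ) =>
      coeff im.2 (Φ.coeff im.1)) := (Set.countable_range _).to_subtype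
    infer_instance
  intro E _ hE hKE hLE b₀ b hb
  have hKE' : cof k F ≤ E := h1.trans hKE
  have hΦE : ∀ i, Coef E (Φ.coeff i) := by
    intro i m
    apply hLE
    rw [hL]
    exact VGS.subset_adj _ _ ⟨(i, m), rfl⟩
  obtain ⟨M, hM⟩ : ∃ M : Fl, M = adj (adj E (Set.range b₀))
      (Set.range fun jl : Fin r × Fin (r + 3) => b jl.1 jl.2) := ⟨_, rfl⟩
  have hM' : adj E (Set.range (Sum.elim b₀ fun jl : Fin r × Fin (r + 3) => b jl.1 jl.2)) = M := by
    rw [hM, VGS.adj_adj, Set.Sum.elim_range]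
  have hcM : Countable M := by
    rw [hM]
    infer_instance
  have hEM : E ≤ M := by
    rw [hM]
    exact (VGS.le_adj _ _).trans (VGS.le_adj _ _)
  have hb₀M : ∀ l, b₀ l ∈ M := by
    intro l
    rw [hM]
    exact VGS.le_adj _ _ (VGS.subset_adj _ _ ⟨l, rfl⟩)
  have hbM : ∀ j l, b j l ∈ M := by
    intro j l
    rw [hM]
    exact VGS.subset_adj _ _ ⟨(j, l), rfl⟩
  -- the parameter
  obtain ⟨B, hB⟩ : ∃ B : Set ℂ, B = {t : ℂ | ¬ ∃ s : Multiset (ciS F),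
      IsChowForm (ciS F) (Φ.eval (MvPolynomial.C t)) s} := ⟨_, rfl⟩
  have hBf : B.Finite := by
    rw [hB]
    exact Filter.eventually_cofinite.1 hΦ
  have hcB : Countable B := hBf.countable.to_subtype
  obtain ⟨u, hu'⟩ := VGS.exists_notMem (clo (adj M B))
  have hu : u ∉ clo M := fun h => hu' (VGS.clo_mono (VGS.le_adj _ _) h)
  have huB : u ∉ B := fun h => hu' (VGS.le_clo _ (VGS.subset_adj _ _ h))
  obtain ⟨s, hsu⟩ : ∃ s : Multiset (ciS F),
      IsChowForm (ciS F) (Φ.eval (MvPolynomial.C u)) s := by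
    by_contra h
    apply huB
    rw [hB]
    exact h
  obtain ⟨S, hS⟩ : ∃ S : Multiset (PN (r + 3)), S = s.map Subtype.val := ⟨_, rfl⟩
  have hSu : IsCh (Φ.eval (MvPolynomial.C u)) S := by
    rw [hS]
    exact hsu
  have hSfam : IsFam E u S := pr_chow_fam hΦE hSu
  have hSX : ∀ p ∈ S, p ∈ ciS F := by
    intro p hp
    rw [hS] at hp
    obtain ⟨p', -, rfl⟩ := Multiset.mem_map.1 hp
    exact p'.2
  obtain ⟨hZ, hZG⟩ := pr_mu_fam hd hF k hind hr E hKE' hb hEM hb₀M hbM hM' hu hSfam hSX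
  -- one end
  have hend : ∀ t : ℂ, t ∈ E → ∀ s' : Multiset (ciS F),
      IsChowForm (ciS F) (Φ.eval (MvPolynomial.C t)) s' →
      ∃ (V : ValuationSubring ℂ) (f : PN (r + 3) → PN (r + 3)), IsPl V (clo M) ∧
        Sp V (clo M) u t ∧ (∀ p ∈ (ext (muV F b₀ b) (cycQ S)).support,
          SpP V (clo M) p (f p) ∧ f p ∈ Gen (cof k F) F) ∧
        (ext (muV F b₀ b) (cycQ S)).mapDomain f =
          ext (muV F b₀ b) (cycQ (s'.map Subtype.val)) := by
    intro t ht s' hs'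
    obtain ⟨V, hV, hut⟩ := VGS.exists_place (VGS.clo_clo M) hu (VGS.le_clo _ (hEM ht))
    have hVE : IsPl V E := fun y hy => hV y (VGS.le_clo _ (hEM hy))
    have hutE : Sp V E u t := ⟨ht, hut.2⟩
    have huE : u ∉ E := fun h => hu (VGS.le_clo _ (hEM h))
    have hex : ∀ p, ∃ q, p ∈ S → SpP V E p q := fun p => by
      by_cases hp : p ∈ S
      · obtain ⟨q, hq⟩ := exists_spP hE hVE huE hutE (hSfam.isOver p hp)
        exact ⟨q, fun _ => hq⟩
      · exact ⟨p, fun h => absurd h hp⟩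
    choose f₀ hf₀ using hex
    have hSf₀ : S.map f₀ = s'.map Subtype.val :=
      pr_chow_lim hVE hΦE hutE hSu hs' fun p hp => hf₀ p hp
    obtain ⟨f, hf, hf'⟩ := pr_mu_lim hd hF k hind hr E hE hKE' hb hEM hb₀M hbM hM' hu hSfam hSX
      hV hut (f₀ := f₀) fun p hp => hf₀ p hp
    rw [hSf₀] at hf'
    exact ⟨V, f, hV, hut, hf, hf'⟩
  obtain ⟨V₀, f, hV₀, hu₀, hf, hf'⟩ := hend 0 (zero_mem E) s₀ hΦ0
  obtain ⟨V₁, g, hV₁, hu₁, hg, hg'⟩ := hend 1 (one_mem E) s₁ hΦ1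
  have h3 := fam_T hd hF k hind h1 h2 (hKE.trans hEM) hTX hT hu hZ hZG hV₀ hV₁ hu₀ hu₁ hf hg
  rw [hf', hg'] at h3
  rw [map_sub, map_sub]
  exact h3

theorem pr_rat (hd : ∀ i, 2 ≤ d i) (hF : ∀ i, (F i).IsHomogeneous (d i)) (k : Fl) [Countable k]
    (hind : AlgebraicIndependent k (fun m : MonA (r + 3) d => coeff m.1.2 (F m.1.1)))
    (hr : 0 < r) {K' : Fl} (h1 : cof k F ≤ K') (h2 : K' ≤ clo (cof k F))
    {T : PN (r + 3) → Cy (r + 3)} (hTX : ∀ p ∈ Gen (cof k F) F, ∀ q ∈ (T p).support, q ∈ ciS F)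
    (hT : ∀ σ ∈ VGS.Fix K', ∀ p ∈ Gen (cof k F) F, T (act σ p) = actC σ (T p))
    {z : Cy (r + 3)} (hz : z ∈ ratQ F) :
    ∃ L : Fl, Countable L ∧ ∀ (E : Fl) [Countable E], clo E = E → K' ≤ E → L ≤ E →
      ∀ (b₀ : Fin (r + 3) → ℂ) (b : Fin r → Fin (r + 3) → ℂ),
      AlgebraicIndependent E (Sum.elim b₀ fun jl : Fin r × Fin (r + 3) => b jl.1 jl.2) →
      ext T (ext (muV F b₀ b) z) ∈ ratQ F := by
  unfold ratQ at hz
  induction hz using Submodule.span_induction with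
  | mem z hz =>
    obtain ⟨s₀, s₁, h, rfl⟩ := hz
    exact pr_link hd hF k hind hr h1 h2 hTX hT h
  | zero =>
    refine ⟨k, inferInstance, ?_⟩
    intro E _ _ _ _ b₀ b _
    rw [map_zero, map_zero]
    exact Submodule.zero_mem _
  | add x y _ _ hx hy =>
    obtain ⟨L₁, hL₁, h3⟩ := hx
    obtain ⟨L₂, hL₂, h4⟩ := hy
    refine ⟨adj L₁ L₂, ?_, ?_⟩
    · have : Countable (L₂ : Set ℂ) := hL₂
      exact VGS.countable_adj _ _
    · intro E _ hE hKE hLE b₀ b hb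
      rw [map_add, map_add]
      exact Submodule.add_mem _ (h3 E hE hKE ((VGS.le_adj _ _).trans hLE) b₀ b hb)
        (h4 E hE hKE (fun y hy => hLE (VGS.subset_adj _ _ hy)) b₀ b hb)
  | smul a x _ hx =>
    obtain ⟨L, hL, h3⟩ := hx
    refine ⟨L, hL, ?_⟩
    intro E _ hE hKE hLE b₀ b hb
    rw [map_smul, map_smul]
    exact Submodule.smul_mem _ _ (h3 E hE hKE hLE b₀ b hb)

theorem pres (hd : ∀ i, 2 ≤ d i) (hF : ∀ i, (F i).IsHomogeneous (d i)) (k : Fl)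
    [Countable k]
    (hind : AlgebraicIndependent k (fun m : MonA (r + 3) d => coeff m.1.2 (F m.1.1)))
    (hr : 0 < r) {K' : Fl} (h1 : cof k F ≤ K') (h2 : K' ≤ clo (cof k F))
    {T : PN (r + 3) → Cy (r + 3)} (hTX : ∀ p ∈ Gen (cof k F) F, ∀ q ∈ (T p).support, q ∈ ciS F)
    (hT : ∀ σ ∈ VGS.Fix K', ∀ p ∈ Gen (cof k F) F, T (act σ p) = actC σ (T p))
    {z : Cy (r + 3)} (hz : z ∈ ratQ F) (hzG : ∀ p ∈ z.support, p ∈ Gen (cof k F) F) :
    ext T z ∈ ratQ F := by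
  classical
  obtain ⟨L, hcL, hL⟩ := pr_rat hd hF k hind hr h1 h2 hTX hT hz
  have hcF : Countable (cof k F) := by
    unfold cof
    have : Countable (Set.range fun im : Fin r × (Fin (r + 3) →₀ ℕ) =>
      coeff im.2 (F im.1)) := (Set.countable_range _).to_subtype
    infer_instance
  have hcK : Countable K' := by
    have : Countable (clo (cof k F)) := inferInstance
    exact Function.Injective.countable (f := fun x : K' => (⟨x.1, h2 x.2⟩ : clo (cof k F)))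
      fun x y h => Subtype.ext (congrArg (fun t : clo (cof k F) => (t : ℂ)) h)
  -- the field
  obtain ⟨R, hR⟩ : ∃ R : Set ℂ, R = ⋃ p ∈ z.support, Set.range p.rep := ⟨_, rfl⟩
  have hRc : Countable R := by
    rw [hR]
    exact (Set.Countable.biUnion (Finset.countable_toSet _) fun p _ =>
      Set.countable_range _).to_subtype
  obtain ⟨E, hEd⟩ : ∃ E : Fl, E = clo (adj (adj K' L) R) := ⟨_, rfl⟩
  have hcE : Countable E := by
    rw [hEd]
    have : Countable (L : Set ℂ) := hcL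
    infer_instance
  have hE : clo E = E := by rw [hEd, VGS.clo_clo]
  have hKE : K' ≤ E := by
    rw [hEd]
    exact ((VGS.le_adj _ _).trans (VGS.le_adj _ _)).trans (VGS.le_clo _)
  have hLE : L ≤ E := by
    rw [hEd]
    intro y hy
    exact VGS.le_clo _ (VGS.le_adj _ _ (VGS.subset_adj _ _ hy))
  have hzE : ∀ p ∈ z.support, Over E p := by
    intro p hp
    refine ⟨p.rep, p.rep_nonzero, fun i => ?_, p.mk_rep.symm⟩
    rw [hEd]
    refine VGS.le_clo _ (VGS.subset_adj _ _ ?_)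
    rw [hR]
    exact Set.mem_biUnion hp ⟨i, rfl⟩
  obtain ⟨y, hy⟩ := exists_fam E (Fin (r + 3) ⊕ (Fin r × Fin (r + 3)))
  obtain ⟨b₀, hb₀⟩ : ∃ b₀ : Fin (r + 3) → ℂ, b₀ = fun l => y (Sum.inl l) := ⟨_, rfl⟩
  obtain ⟨b, hb'⟩ : ∃ b : Fin r → Fin (r + 3) → ℂ, b = fun j l => y (Sum.inr (j, l)) :=
    ⟨_, rfl⟩
  have hb : AlgebraicIndependent E
      (Sum.elim b₀ fun jl : Fin r × Fin (r + 3) => b jl.1 jl.2) := by
    have h3 : (Sum.elim b₀ fun jl : Fin r × Fin (r + 3) => b jl.1 jl.2) = y := by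
      rw [hb₀, hb']
      ext (i | i) <;> rfl
    rw [h3]
    exact hy
  have h3 := hL E hE hKE hLE b₀ b hb
  have h4 : ext T z - ext T (ext (muV F b₀ b) z) ∈ ratQ F := by
    have h5 : ext T z - ext T (ext (muV F b₀ b) z) =
        z.sum fun p a => a • (T p - ext T (muV F b₀ b p)) := by
      have h6 : ext T z = z.sum fun p a => a • T p := rfl
      have h7 : ext (muV F b₀ b) z = z.sum fun p a => a • muV F b₀ b p := rfl
      rw [h7, h6, Finsupp.sum, Finsupp.sum, Finsupp.sum, map_sum, ← Finset.sum_sub_distrib]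
      refine Finset.sum_congr rfl fun p _ => ?_
      rw [map_smul, smul_sub]
    rw [h5]
    refine Submodule.sum_mem _ fun p hp => Submodule.smul_mem _ _ ?_
    exact pr_pt hd hF k hind hr h1 h2 hTX hT E hE hKE hb (hzG p hp) (hzE p hp)
  have h5 := Submodule.add_mem _ h4 h3
  rwa [sub_add_cancel] at h5

end main

end Pool.Agent.VCI
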