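import Pool.Agent.VCI.Fin3A
import Pool.Agent.VCI.Fin2B
import Pool.Agent.VCI.Inst
import Pool.Agent.VCI.DomB
import Pool.Agent.VCI.Eff2
import Pool.Agent.VCI.EffTau
import Pool.Agent.VCI.ExGen
import Pool.Agent.VCI.Pres
import Pool.Agent.VGS2.SysN

/-! The main theorem for complete intersections, on the Chow group with rational coefficients. -/

set_option autoImplicit false

open scoped LinearAlgebra.Projectivization
open MvPolynomial

namespace Pool.Agent.VCI

open Pool.Agent.Chow0 (IsChowForm IsLink)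
open Pool.Agent.VGS

variable {r : ℕ} {F : Fin r → MvPolynomial (Fin (r + 3)) ℂ} {d : Fin r → ℕ} {e : ℕ}

/-- nilpotence for the Chow group with rational coefficients -/
theorem nilS (hd : ∀ i, 2 ≤ d i) (he : e + (r + 3) = ∑ i, d i)
    (hF : ∀ i, (F i).IsHomogeneous (d i)) (k : Fl) [Countable k]
    (hind : AlgebraicIndependent k (fun m : MonA (r + 3) d => coeff m.1.2 (F m.1.1)))
    (T : Finset ℂ) (hT : ∀ x ∈ T, x ∈ clo (cof k F)) :
    ∃ N : ℕ, 0 < N ∧ ∀ x : Fin N → Module.End ℚ (Cy (r + 3) ⧸ ratQ F),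
      (∀ i, ∃ α : PN (r + 3) → Cy (r + 3), (∀ p ∈ Gen (cof k F) F, α p ∈ TZ (cof k F) F d) ∧
        (∀ σ ∈ VGS.Fix (adj (cof k F) T), ∀ p ∈ Gen (cof k F) F, α (act σ p) = actC σ (α p)) ∧
        ∀ p ∈ Gen (cof k F) F,
          x i ((ratQ F).mkQ (Finsupp.single p (1 : ℚ))) = (ratQ F).mkQ (α p)) →
      ∀ p ∈ ciS F, ∀ q ∈ ciS F, (List.ofFn x).prod
        ((ratQ F).mkQ (Finsupp.single p (1 : ℚ)) - (ratQ F).mkQ (Finsupp.single q (1 : ℚ))) = 0 := by
  obtain ⟨N, hN0, hN⟩ := Sys.nil_fin (sysCI hd he hF k hind) T hT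
  exact ⟨N, hN0, fun x hx p hp q hq => hN x hx _ (Submodule.subset_span ⟨p, hp, q, hq, rfl⟩)⟩

section

variable {Ω : Type} [Field Ω] [Algebra ℂ Ω] {ξ : Fin (r + 3) → Ω}

open Classical in
/-- the coefficients of the Chow form of a correspondence -/
noncomputable def cfs {w : ℕ} (Γ : EffCorr F ξ w) : Finset ℂ :=
  Γ.Φ.support.biUnion fun m => (coeff m Γ.Φ).support.image fun m' => coeff m' (coeff m Γ.Φ)

theorem coefE_of {w : ℕ} (Γ : EffCorr F ξ w) {L : Fl} (h : ∀ x ∈ cfs Γ, x ∈ L) :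
    CoefE L Γ := by
  classical
  intro m m'
  by_cases h1 : m ∈ Γ.Φ.support
  · by_cases h2 : m' ∈ (coeff m Γ.Φ).support
    · refine h _ ?_
      unfold cfs
      refine Finset.mem_biUnion.2 ⟨m, h1, ?_⟩
      exact Finset.mem_image_of_mem _ h2
    · rw [notMem_support_iff] at h2
      rw [h2]
      exact L.zero_mem
  · rw [notMem_support_iff] at h1
    rw [h1, coeff_zero]
    exact L.zero_mem

/-- the cycle of the correspondence in terms of the Chow form -/
theorem toW_cycS_eff {w : ℕ} (Γ : EffCorr F ξ w) {p : PN (r + 3)} {s : Multiset (ciS F)}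
    (hs : IsChowForm (ciS F) (Γ.at p.rep) s) : toW F (cycS s) = effT Γ p := by
  rw [toW_cycS, effT_eq Γ hs]

end

theorem support_sub_smul {n : ℕ} {x y z : Cy n} {X : Set (PN n)} (hx : ∀ q ∈ x.support, q ∈ X)
    (hy : ∀ q ∈ y.support, q ∈ X) (hz : ∀ q ∈ z.support, q ∈ X) (a : ℚ) :
    ∀ q ∈ ((x - y) - a • z).support, q ∈ X := by
  classical
  intro q hq
  by_contra h
  have h1 : x q = 0 := by
    by_contra h2
    exact h (hx q (Finsupp.mem_support_iff.2 h2))
  have h3 : y q = 0 := by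
    by_contra h2
    exact h (hy q (Finsupp.mem_support_iff.2 h2))
  have h4 : z q = 0 := by
    by_contra h2
    exact h (hz q (Finsupp.mem_support_iff.2 h2))
  rw [Finsupp.mem_support_iff] at hq
  apply hq
  rw [Finsupp.sub_apply, Finsupp.smul_apply, Finsupp.sub_apply, h1, h3, h4, sub_self, smul_zero,
    sub_self]

/-- **The main theorem** for complete intersections. -/
theorem main3 {r : ℕ} (F : Fin r → MvPolynomial (Fin (r + 3)) ℂ) (d : Fin r → ℕ)
    (hd : ∀ i, 2 ≤ d i) (hs : r + 3 ≤ ∑ i, d i) (hF : ∀ i, (F i).IsHomogeneous (d i))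
    (hind : AlgebraicIndependent ℚ (fun m : MonA (r + 3) d => coeff m.1.2 (F m.1.1)))
    (Ω : Type) [Field Ω] [Algebra ℂ Ω] [IsAlgClosed Ω] (ξ : Fin (r + 3) → Ω)
    (hξ : IsGenericPoint F ξ) (n : ℕ) (w w' : Fin n → ℕ) (Γ : ∀ i, EffCorr F ξ (w i))
    (Γ' : ∀ i, EffCorr F ξ (w' i)) (m : Fin n → ℂ)
    (hm : ∀ i, ActsByScalar F (∑ i, d i - (r + 3)) (Γ i) (Γ' i) (m i)) :
    ∃ (D : ℕ → MvPolynomial (Fin (r + 3)) ℂ) (q : Fin n → ℚ) (N : ℕ)
      (Ψ : Fin n → Module.End ℚ (CHQ (ciS F))),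
      (∀ j, (∃ e, (D j).IsHomogeneous e) ∧ ∃ p ∈ ciS F, aeval p.rep (D j) ≠ 0) ∧
      (∀ i, m i = q i) ∧ (∀ i, IsAct (Γ i) (Γ' i) (veryGen F D) (Ψ i)) ∧
      (∀ i, ∀ Ψ', IsAct (Γ i) (Γ' i) (veryGen F D) Ψ' → Ψ' = Ψ i) ∧
      ∀ word : Fin N → Fin n, ∀ z : ciS F →₀ ℚ, degS z = 0 →
        (List.ofFn fun j => Ψ (word j) - q (word j) • 1).prod (clS z) = 0 := by
  classical
  obtain ⟨e, he, he'⟩ : ∃ e, e + (r + 3) = ∑ i, d i ∧ ∑ i, d i - (r + 3) = e :=
    ⟨_, Nat.sub_add_cancel hs, rfl⟩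
  rw [he'] at hm
  have hr : 0 < r := by
    rcases Nat.eq_zero_or_pos r with rfl | h
    · exfalso
      rw [Finset.univ_eq_empty, Finset.sum_empty] at hs
      omega
    · exact h
  have hd1 : ∀ i, 1 ≤ d i := fun i => one_le_two.trans (hd i)
  -- the ground field
  obtain ⟨S, hS⟩ : ∃ S : Finset ℂ, S = Finset.univ.biUnion fun i => cfs (Γ i) ∪ cfs (Γ' i) :=
    ⟨_, rfl⟩
  obtain ⟨k, hk, hkc, hindk, hSk⟩ := exists_groundA hind S
  rw [← cof_eq_monA k hF] at hSk
  have hsm : IsSmoothCI F d := isSmoothCI_of_ai hd1 hF hindk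
  have hKc : Countable (cof k F) := inferInstance
  have hFK := coef_cof k F
  have hKK' : cof k F ≤ adj (cof k F) S := le_adj _ _
  have hK'c : adj (cof k F) S ≤ clo (cof k F) := adj_le (le_clo _) fun x hx => hSk x hx
  have hcf : ∀ i, ∀ x ∈ cfs (Γ i), x ∈ S := fun i x hx => by
    rw [hS]
    exact Finset.mem_biUnion.2 ⟨i, Finset.mem_univ i, Finset.mem_union_left _ hx⟩
  have hcf' : ∀ i, ∀ x ∈ cfs (Γ' i), x ∈ S := fun i x hx => by
    rw [hS]
    exact Finset.mem_biUnion.2 ⟨i, Finset.mem_univ i, Finset.mem_union_right _ hx⟩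
  have hcK : ∀ i, CoefE (adj (cof k F) S) (Γ i) := fun i =>
    coefE_of _ fun x hx => subset_adj _ _ (hcf i x hx)
  have hcK' : ∀ i, CoefE (adj (cof k F) S) (Γ' i) := fun i =>
    coefE_of _ fun x hx => subset_adj _ _ (hcf' i x hx)
  have hconj : ∀ p ∈ Gen (cof k F) F, ∀ q ∈ Gen (cof k F) F,
      ∃ σ ∈ VGS.Fix (clo (cof k F)), act σ p = q := fun p hp q hq => conj k hF hd hindk hp hq
  have hc : ∀ p ∈ Gen (clo (cof k F)) F, ∀ q ∈ Gen (clo (cof k F)) F,
      ∃ σ ∈ VGS.Fix (clo (cof k F)), act σ p = q := by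
    rw [gen_clo]
    exact hconj
  have hT := fun i => effT_isT2 hF hξ (cof k F) (adj (cof k F) S) hFK hKK' hK'c hc (Γ i) (hcK i)
  have hT' := fun i => effT_isT2 hF hξ (cof k F) (adj (cof k F) S) hFK hKK' hK'c hc (Γ' i)
    (hcK' i)
  have htau := fun i => effT_tau hsm he hξ (cof k F) hFK hc (Γ i) (Γ' i)
    (fun m' => (hcK i m').mono hK'c) (fun m' => (hcK' i m').mono hK'c) (hm i)
  -- the scalars
  obtain ⟨q, hq⟩ := scalars_rat hsm hd he k hkc hindk S hSk
    (fun i p => effT (Γ i) p - effT (Γ' i) p) (fun i p hp x hx => by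
      rcases Finset.mem_union.1 (Finsupp.support_sub hx) with h | h
      · exact (hT i).2.1 p hp x h
      · exact (hT' i).2.1 p hp x h)
    (fun i σ hσ p hp => by
      rw [map_sub, (hT i).2.2 σ hσ p hp, (hT' i).2.2 σ hσ p hp]) m htau
  -- the open set
  obtain ⟨p₀, hp₀⟩ := exists_gen hd1 hF k hindk (cof k F) le_rfl
  obtain ⟨D, hD, hDG⟩ := exists_enum (cof k F) ⟨p₀, hp₀⟩ (fun p hp x hx => by
    obtain ⟨σ, hσ, h⟩ := hconj p hp x hx
    exact ⟨σ, Fix_mono (le_clo _) hσ, h⟩)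
  -- the endomorphisms
  have hmv : ∀ x ∈ ciS F, ∃ z : Cy (r + 3), (∀ p ∈ z.support, p ∈ Gen (cof k F) F) ∧
      Finsupp.single x 1 - z ∈ ratQ F := fun x hx => inst_move hd he hF k hindk (cof k F) le_rfl hx
  have hG : Gen (cof k F) F ⊆ ciS F := fun p hp => hp.1
  have hsup : ∀ i, ∀ p ∈ Gen (cof k F) F, ∀ x ∈ (effT (Γ i) p - effT (Γ' i) p).support,
      x ∈ ciS F := fun i p hp x hx => by
    rcases Finset.mem_union.1 (Finsupp.support_sub hx) with h | h
    · exact (hT i).2.1 p hp x h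
    · exact (hT' i).2.1 p hp x h
  choose E Ψ hE hΨ using fun i => exists_psi hG hmv (fun p => effT (Γ i) p - effT (Γ' i) p)
    (hsup i) (fun z hz hzG => pres hd hF k hindk hr hKK' hK'c (hsup i)
      (fun σ hσ p hp => by
        rw [map_sub, (hT i).2.2 σ hσ p hp, (hT' i).2.2 σ hσ p hp]) hz hzG)
  have hact : ∀ i, ∀ p : ciS F, p.1 ∈ Gen (cof k F) F → ∀ s s' : Multiset (ciS F),
      IsChowForm (ciS F) ((Γ i).at p.1.rep) s → IsChowForm (ciS F) ((Γ' i).at p.1.rep) s' →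
      Ψ i (clS (Finsupp.single p 1)) = clS (cycS s) - clS (cycS s') := by
    intro i p hp s s' h1 h2
    apply jW_injective
    rw [hΨ, jW_clS, toW_single, hE i p.1 hp, map_sub, map_sub, jW_clS, jW_clS, toW_cycS_eff _ h1,
      toW_cycS_eff _ h2]
  obtain ⟨N, hN0, hN⟩ := nilS hd he hF k hindk S hSk
  refine ⟨D, q, N, Ψ, fun j => ⟨hD j, p₀, hp₀.1, (hDG ⟨p₀, hp₀.1⟩).2 hp₀ j⟩, hq, ?_, ?_, ?_⟩
  · intro i p hp
    have hp' := (hDG p).1 hp
    obtain ⟨s, h1⟩ := (hT i).1 p.1 hp'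
    obtain ⟨s', h2⟩ := (hT' i).1 p.1 hp'
    exact ⟨s, s', h1, h2, hact i p hp' s s' h1 h2⟩
  · intro i Ψ' h
    refine end_ext hG hmv fun p hp => ?_
    obtain ⟨s, s', h1, h2, h3⟩ := h p ((hDG p).2 hp)
    rw [h3, hact i p hp s s' h1 h2]
  · intro word z hz
    apply jW_injective
    rw [map_zero]
    have h1 : (List.ofFn fun j => Ψ (word j) - q (word j) • 1) =
        (List.ofFn word).map fun i => Ψ i - q i • 1 := by
      rw [List.map_ofFn]
      rfl
    rw [h1, jW_prod (e := fun i => E i - q i • 1) (fun i c => by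
      rw [LinearMap.sub_apply, LinearMap.smul_apply, LinearMap.sub_apply, LinearMap.smul_apply,
        map_sub, map_smul, hΨ]
      rfl)]
    have h2 : ((List.ofFn word).map fun i => E i - q i • 1) =
        List.ofFn fun j => E (word j) - q (word j) • 1 := by
      rw [List.map_ofFn]
      rfl
    rw [h2]
    refine deg_zero_mem (N := LinearMap.ker
      (List.ofFn fun j => E (word j) - q (word j) • (1 : Module.End ℚ _)).prod) hz ?_
    intro p hp x hx
    refine hN _ (fun j => ?_) p hp x hx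
    refine ⟨fun p => (effT (Γ (word j)) p - effT (Γ' (word j)) p) -
      q (word j) • (Finsupp.single p (1 : ℚ) : Cy (r + 3)), fun p hp => ?_, fun σ hσ p hp => ?_,
      fun p hp => ?_⟩
    · refine mem_TZ.2 ⟨support_sub_smul ((hT (word j)).2.1 p hp) ((hT' (word j)).2.1 p hp)
        (fun x hx => ?_) _, fun D₁ D₂ h1 h2 e₁ f he₁ hf => ?_⟩
      · rw [Finset.mem_singleton.1 (Finsupp.support_single_subset hx)]
        exact hp.1
      · obtain rfl : e₁ = e := by omega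
        rw [map_sub, map_smul, htau (word j) p hp D₁ D₂ h1 h2 f hf]
        unfold tauC
        rw [Finsupp.linearCombination_single, one_smul, hq, sub_eq_zero]
        rw [Algebra.smul_def]
        rfl
    · change (effT (Γ (word j)) (act σ p) - effT (Γ' (word j)) (act σ p)) -
        q (word j) • (Finsupp.single (act σ p) (1 : ℚ) : Cy (r + 3)) = actC σ _
      rw [(hT (word j)).2.2 σ hσ p hp, (hT' (word j)).2.2 σ hσ p hp, map_sub, map_sub,
        map_smul, actC_single]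
    · beta_reduce
      rw [LinearMap.sub_apply, LinearMap.smul_apply, hE (word j) p hp, map_sub (ratQ F).mkQ
        (effT (Γ (word j)) p - effT (Γ' (word j)) p), map_smul]
      rfl

end Pool.Agent.VCI
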