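import Pool.Agent.VCI.CHQ
import Pool.Agent.VCI.InstA

/-! Complete intersections: endomorphisms of the Chow group with rational coefficients which are
given by their values at generic points. -/

set_option autoImplicit false

open scoped LinearAlgebra.Projectivization
open MvPolynomial

namespace Pool.Agent.VCI

open Pool.Agent.Chow0 (IsChowForm IsLink)
open Pool.Agent.VGS

/-- a linear map on the image of `π` extends -/
theorem exists_end {V A : Type} [AddCommGroup V] [Module ℚ V] [AddCommGroup A] [Module ℚ A]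
    (π τ : A →ₗ[ℚ] V) (h : ∀ a, π a = 0 → τ a = 0) :
    ∃ e : Module.End ℚ V, ∀ a, e (π a) = τ a := by
  let h0 : LinearMap.range π →ₗ[ℚ] V :=
    ((LinearMap.ker π).liftQ τ (fun a ha => h a ha)).comp
      (π.quotKerEquivRange.symm : LinearMap.range π →ₗ[ℚ] A ⧸ LinearMap.ker π)
  obtain ⟨e, he⟩ := LinearMap.exists_extend h0
  refine ⟨e, fun a => ?_⟩
  have h1 := DFunLike.congr_fun he (⟨π a, ⟨a, rfl⟩⟩ : LinearMap.range π)
  change e (π a) = h0 ⟨π a, ⟨a, rfl⟩⟩ at h1
  rw [h1]
  change (LinearMap.ker π).liftQ τ (fun a ha => h a ha)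
    (π.quotKerEquivRange.symm ⟨π a, ⟨a, rfl⟩⟩) = τ a
  rw [LinearMap.quotKerEquivRange_symm_apply_image π a ⟨a, rfl⟩]
  exact (LinearMap.ker π).liftQ_apply _ _

variable {n r : ℕ} {F : Fin r → MvPolynomial (Fin n) ℂ}

/-- The cycle of projective space of a cycle of the surface. -/
noncomputable def toW (F : Fin r → MvPolynomial (Fin n) ℂ) : (ciS F →₀ ℚ) →ₗ[ℚ] Cy n :=
  Finsupp.lmapDomain ℚ ℚ Subtype.val

theorem toW_single (p : ciS F) (a : ℚ) : toW F (Finsupp.single p a) = Finsupp.single p.1 a := by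
  unfold toW
  rw [Finsupp.lmapDomain_apply, Finsupp.mapDomain_single]

theorem toW_injective : Function.Injective (toW F) :=
  Finsupp.mapDomain_injective Subtype.val_injective

theorem toW_cycS (s : Multiset (ciS F)) : toW F (cycS s) = cycQ (s.map Subtype.val) := by
  unfold cycS cycQ
  rw [map_multiset_sum, Multiset.map_map, Multiset.map_map]
  refine congrArg Multiset.sum (Multiset.map_congr rfl fun p _ => ?_)
  exact toW_single p 1

theorem map_ratS : (ratS (ciS F)).map (toW F) = ratQ F := by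
  unfold ratS ratQ
  rw [Submodule.map_span]
  congr 1
  ext z
  constructor
  · rintro ⟨_, ⟨s₀, s₁, h, rfl⟩, rfl⟩
    exact ⟨s₀, s₁, h, by rw [map_sub, toW_cycS, toW_cycS]⟩
  · rintro ⟨s₀, s₁, h, rfl⟩
    exact ⟨_, ⟨s₀, s₁, h, rfl⟩, by rw [map_sub, toW_cycS, toW_cycS]⟩

theorem toW_mem {z : ciS F →₀ ℚ} : toW F z ∈ ratQ F ↔ z ∈ ratS (ciS F) := by
  rw [← map_ratS]
  constructor
  · rintro ⟨y, hy, h⟩
    exact toW_injective h ▸ hy
  · exact fun h => ⟨z, h, rfl⟩

/-- cycles with support in the surface -/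
theorem exists_toW {z : Cy n} (hz : ∀ p ∈ z.support, p ∈ ciS F) : ∃ y, toW F y = z := by
  refine ⟨Finsupp.comapDomain Subtype.val z Subtype.val_injective.injOn, ?_⟩
  exact Finsupp.mapDomain_comapDomain Subtype.val Subtype.val_injective z
    fun p hp => ⟨⟨p, hz p hp⟩, rfl⟩

/-- The map of the Chow group of the surface to the cycles of projective space modulo rational
equivalence on the surface. -/
noncomputable def jW (F : Fin r → MvPolynomial (Fin n) ℂ) : CHQ (ciS F) →ₗ[ℚ] Cy n ⧸ ratQ F :=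
  (ratS (ciS F)).mapQ (ratQ F) (toW F) fun _ hz => toW_mem.2 hz

theorem jW_clS (z : ciS F →₀ ℚ) : jW F (clS z) = (ratQ F).mkQ (toW F z) :=
  Submodule.mapQ_apply _ _ _ _

theorem clS_surjective : Function.Surjective (clS (S := ciS F)) :=
  Submodule.mkQ_surjective _

theorem clS_add (y z : ciS F →₀ ℚ) : clS (y + z) = clS y + clS z := map_add _ _ _

theorem clS_sub (y z : ciS F →₀ ℚ) : clS (y - z) = clS y - clS z := map_sub _ _ _

theorem clS_smul (a : ℚ) (z : ciS F →₀ ℚ) : clS (a • z) = a • clS z := map_smul _ _ _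

theorem jW_injective : Function.Injective (jW F) := by
  rw [injective_iff_map_eq_zero]
  intro c hc
  obtain ⟨z, rfl⟩ := clS_surjective c
  rw [jW_clS, Submodule.mkQ_apply, Submodule.Quotient.mk_eq_zero, toW_mem] at hc
  exact (Submodule.Quotient.mk_eq_zero _).2 hc

/-- if all points can be moved to `G`, the classes of the points of `G` generate -/
theorem span_of_move {G : Set (PN n)} (hG : G ⊆ ciS F)
    (hmv : ∀ x ∈ ciS F, ∃ z : Cy n, (∀ p ∈ z.support, p ∈ G) ∧
      Finsupp.single x 1 - z ∈ ratQ F) (c : CHQ (ciS F)) :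
    c ∈ Submodule.span ℚ {c | ∃ p : ciS F, p.1 ∈ G ∧ c = clS (Finsupp.single p 1)} := by
  obtain ⟨N, hN⟩ : ∃ N : Submodule ℚ (CHQ (ciS F)),
    N = Submodule.span ℚ {c | ∃ p : ciS F, p.1 ∈ G ∧ c = clS (Finsupp.single p 1)} := ⟨_, rfl⟩
  rw [← hN]
  have h1 : ∀ y : ciS F →₀ ℚ, (∀ p ∈ y.support, clS (Finsupp.single p (1 : ℚ)) ∈ N) →
      clS y ∈ N := by
    intro y hy
    have h2 : clS y = ∑ p ∈ y.support, y p • clS (Finsupp.single p (1 : ℚ)) := by
      conv_lhs => rw [← Finsupp.sum_single y]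
      rw [Finsupp.sum]
      change (ratS (ciS F)).mkQ (∑ p ∈ y.support, Finsupp.single p (y p)) = _
      rw [map_sum]
      refine Finset.sum_congr rfl fun p _ => ?_
      rw [← clS_smul, Finsupp.smul_single, smul_eq_mul, mul_one]
      rfl
    rw [h2]
    exact Submodule.sum_mem _ fun p hp => N.smul_mem _ (hy p hp)
  obtain ⟨y, rfl⟩ := clS_surjective c
  refine h1 y fun x _ => ?_
  obtain ⟨z, hz, h2⟩ := hmv x.1 x.2
  obtain ⟨y', rfl⟩ := exists_toW (F := F) (z := z) fun p hp => hG (hz p hp)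
  rw [← toW_single, ← map_sub, toW_mem] at h2
  have h3 : clS (Finsupp.single x (1 : ℚ)) = clS y' := by
    rw [← sub_eq_zero, ← clS_sub]
    exact (Submodule.Quotient.mk_eq_zero _).2 h2
  rw [h3]
  refine h1 y' fun p hp => ?_
  rw [hN]
  refine Submodule.subset_span ⟨p, hz p.1 ?_, rfl⟩
  rw [Finsupp.mem_support_iff]
  have h4 : toW F y' p.1 = y' p := Finsupp.mapDomain_apply Subtype.val_injective y' p
  rw [h4]
  exact Finsupp.mem_support_iff.1 hp

/-- two endomorphisms which agree at the points of `G` agree -/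
theorem end_ext {G : Set (PN n)} (hG : G ⊆ ciS F)
    (hmv : ∀ x ∈ ciS F, ∃ z : Cy n, (∀ p ∈ z.support, p ∈ G) ∧
      Finsupp.single x 1 - z ∈ ratQ F) {A : Type} [AddCommGroup A] [Module ℚ A]
    {f g : CHQ (ciS F) →ₗ[ℚ] A}
    (h : ∀ p : ciS F, p.1 ∈ G → f (clS (Finsupp.single p 1)) = g (clS (Finsupp.single p 1))) :
    f = g := by
  apply LinearMap.ext
  intro c
  have h1 : c ∈ LinearMap.eqLocus f g := by
    refine Submodule.span_le.2 ?_ (span_of_move hG hmv c)
    rintro _ ⟨p, hp, rfl⟩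
    exact h p hp
  exact h1

/-- The endomorphism of the Chow group given by a map from points to cycles which preserves rational
equivalence. -/
theorem exists_psi {G : Set (PN n)} (hG : G ⊆ ciS F)
    (hmv : ∀ x ∈ ciS F, ∃ z : Cy n, (∀ p ∈ z.support, p ∈ G) ∧
      Finsupp.single x 1 - z ∈ ratQ F) (T : PN n → Cy n)
    (hT : ∀ p ∈ G, ∀ q ∈ (T p).support, q ∈ ciS F)
    (hpres : ∀ z ∈ ratQ F, (∀ p ∈ z.support, p ∈ G) → ext T z ∈ ratQ F) :
    ∃ (e : Module.End ℚ (Cy n ⧸ ratQ F)) (Ψ : Module.End ℚ (CHQ (ciS F))),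
      (∀ p ∈ G, e ((ratQ F).mkQ (Finsupp.single p 1)) = (ratQ F).mkQ (T p)) ∧
      ∀ c, jW F (Ψ c) = e (jW F c) := by
  obtain ⟨e, he⟩ := exists_end
    ((ratQ F).mkQ.comp (Finsupp.supported ℚ ℚ G).subtype)
    (((ratQ F).mkQ.comp (ext T)).comp (Finsupp.supported ℚ ℚ G).subtype)
    (fun a ha => by
      have h1 : (ratQ F).mkQ a.1 = 0 := ha
      rw [Submodule.mkQ_apply, Submodule.Quotient.mk_eq_zero] at h1
      change (ratQ F).mkQ (ext T a.1) = 0
      rw [Submodule.mkQ_apply, Submodule.Quotient.mk_eq_zero]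
      exact hpres a.1 h1 a.2)
  have he' : ∀ p ∈ G, e ((ratQ F).mkQ (Finsupp.single p 1)) = (ratQ F).mkQ (T p) := by
    intro p hp
    have h1 := he ⟨Finsupp.single p 1, Finsupp.single_mem_supported ℚ 1 hp⟩
    change e ((ratQ F).mkQ (Finsupp.single p 1)) = (ratQ F).mkQ (ext T (Finsupp.single p 1)) at h1
    rwa [ext_single, one_smul] at h1
  have hr : ∀ c, e (jW F c) ∈ LinearMap.range (jW F) := by
    intro c
    have h1 : c ∈ (LinearMap.range (jW F)).comap (e.comp (jW F)) := by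
      refine Submodule.span_le.2 ?_ (span_of_move hG hmv c)
      rintro _ ⟨p, hp, rfl⟩
      obtain ⟨y, hy⟩ := exists_toW (F := F) (hT p.1 hp)
      refine ⟨clS y, ?_⟩
      change jW F (clS y) = e (jW F (clS (Finsupp.single p 1)))
      rw [jW_clS, jW_clS, toW_single, he' p.1 hp, hy]
    exact h1
  refine ⟨e, ((LinearEquiv.ofInjective (jW F) jW_injective).symm : LinearMap.range (jW F) →ₗ[ℚ]
    CHQ (ciS F)).comp ((e.comp (jW F)).codRestrict _ hr), he', fun c => ?_⟩
  have h1 := (LinearEquiv.ofInjective (jW F) jW_injective).apply_symm_apply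
    ⟨e (jW F c), hr c⟩
  exact congrArg Subtype.val h1

theorem jW_prod {m : ℕ} {e : Fin m → Module.End ℚ (Cy n ⧸ ratQ F)}
    {Ψ : Fin m → Module.End ℚ (CHQ (ciS F))} (h : ∀ i c, jW F (Ψ i c) = e i (jW F c))
    (l : List (Fin m)) (c : CHQ (ciS F)) :
    jW F ((l.map Ψ).prod c) = (l.map e).prod (jW F c) := by
  induction l with
  | nil => rfl
  | cons i l ih =>
    rw [List.map_cons, List.map_cons, List.prod_cons, List.prod_cons]
    change jW F (Ψ i ((l.map Ψ).prod c)) = e i ((l.map e).prod (jW F c))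
    rw [h, ih]

/-- the classes of degree zero -/
theorem deg_zero_mem {z : ciS F →₀ ℚ} (hz : degS z = 0) {N : Submodule ℚ (Cy n ⧸ ratQ F)}
    (hN : ∀ p ∈ ciS F, ∀ q ∈ ciS F, (ratQ F).mkQ (Finsupp.single p (1 : ℚ)) -
      (ratQ F).mkQ (Finsupp.single q (1 : ℚ)) ∈ N) : jW F (clS z) ∈ N := by
  rcases isEmpty_or_nonempty (ciS F) with hE | ⟨⟨x₀⟩⟩
  · have h1 : z = 0 := Subsingleton.elim _ _
    rw [h1]
    have h2 : clS (0 : ciS F →₀ ℚ) = 0 := map_zero _
    rw [h2, map_zero]
    exact N.zero_mem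
  · have h1 : ∀ z : ciS F →₀ ℚ, jW F (clS z) - degS z • jW F (clS (Finsupp.single x₀ 1)) =
        ∑ p ∈ z.support, z p • ((ratQ F).mkQ (Finsupp.single p.1 (1 : ℚ)) -
          (ratQ F).mkQ (Finsupp.single x₀.1 (1 : ℚ))) := by
      intro z
      have h2 : clS z = ∑ p ∈ z.support, z p • clS (Finsupp.single p (1 : ℚ)) := by
        conv_lhs => rw [← Finsupp.sum_single z]
        rw [Finsupp.sum]
        change (ratS (ciS F)).mkQ (∑ p ∈ z.support, Finsupp.single p (z p)) = _
        rw [map_sum]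
        refine Finset.sum_congr rfl fun p _ => ?_
        rw [← clS_smul, Finsupp.smul_single, smul_eq_mul, mul_one]
        rfl
      rw [h2, map_sum]
      simp only [smul_sub, Finset.sum_sub_distrib, map_smul, jW_clS, toW_single]
      rw [← Finset.sum_smul]
      rfl
    have h2 := h1 z
    rw [hz, zero_smul, sub_zero] at h2
    rw [h2]
    exact Submodule.sum_mem _ fun p _ => N.smul_mem _ (hN p.1 p.2 x₀.1 x₀.2)

end Pool.Agent.VCI
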