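import Pool.Agent.VCI.FrameDefs
import Pool.Agent.VCI.Trd2

/-! Complete intersections: linear substitutions. -/

set_option autoImplicit false

open MvPolynomial

namespace Pool.Agent.VCI

open Pool.Agent.VGS

variable {r : ℕ} {d : Fin r → ℕ} {F : Fin r → MvPolynomial (Fin (r + 3)) ℂ}

theorem finite_pairs {n : ℕ} (d : Fin r → ℕ) :
    Finite {im : Fin r × (Fin n →₀ ℕ) // im.2.degree = d im.1} := by
  have h (i : Fin r) : Finite {m : Fin n →₀ ℕ // m.degree = d i} := by
    have h := Finsupp.finite_of_degree_le (σ := Fin n) (d i)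
    exact (h.subset (fun m hm => le_of_eq hm : {m : Fin n →₀ ℕ | m.degree = d i} ⊆ _)).to_subtype
  exact Finite.of_injective
    (fun im : {im : Fin r × (Fin n →₀ ℕ) // im.2.degree = d im.1} =>
      (⟨im.1.1, im.1.2, im.2⟩ : Σ i : Fin r, {m : Fin n →₀ ℕ // m.degree = d i}))
    (by
      rintro ⟨⟨i, m⟩, h⟩ ⟨⟨j, m'⟩, h'⟩ h2
      simp only [Sigma.mk.injEq] at h2
      obtain ⟨rfl, h3⟩ := h2
      have h4 := eq_of_heq h3
      simp only [Subtype.mk.injEq] at h4
      subst h4
      rfl)

instance finite_Mon (d : Fin r → ℕ) : Finite (Mon d) := by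
  have := finite_pairs (n := r + 3) d
  exact Finite.of_injective
    (fun m : Mon d => (⟨m.1, m.2.1⟩ : {im : Fin r × (Fin (r + 3) →₀ ℕ) // im.2.degree = d im.1}))
    fun _ _ h => Subtype.ext (congrArg (fun x => x.1) h)

instance finite_MonA {n : ℕ} (d : Fin r → ℕ) : Finite (MonA n d) :=
  finite_pairs (n := n) d

theorem aeval_frG {n : ℕ} (F : MvPolynomial (Fin n) ℂ) (M : Matrix (Fin n) (Fin n) ℂ)
    (z : Fin n → ℂ) : aeval z (frG F M) = aeval (M.mulVec z) F := by
  have h : (aeval z : MvPolynomial (Fin n) ℂ →ₐ[ℂ] ℂ).comp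
      (aeval (fun i => ∑ j, C (M i j) * X j : Fin n → MvPolynomial (Fin n) ℂ)) =
      aeval (M.mulVec z) := by
    apply MvPolynomial.algHom_ext
    intro i
    simp [Matrix.mulVec, dotProduct]
  exact DFunLike.congr_fun h F

theorem frG_hom {n e : ℕ} {F : MvPolynomial (Fin n) ℂ} (hF : F.IsHomogeneous e)
    (M : Matrix (Fin n) (Fin n) ℂ) : (frG F M).IsHomogeneous e := by
  have h := hF.aeval (fun i => ∑ j, C (M i j) * X j : Fin n → MvPolynomial (Fin n) ℂ)
    (n := 1) fun i => IsHomogeneous.sum _ _ _ fun j _ => by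
      have := (isHomogeneous_C (Fin n) (M i j)).mul (isHomogeneous_X ℂ j)
      simpa using this
  rw [one_mul] at h
  exact h

/-- a matrix with independent entries is invertible -/
theorem det_ne_of_ai {n : ℕ} {k : Fl} {M : Matrix (Fin n) (Fin n) ℂ}
    (h : AlgebraicIndependent k (fun ij : Fin n × Fin n => M ij.1 ij.2)) : M.det ≠ 0 := by
  intro h0
  rw [algebraicIndependent_iff] at h
  have h1 := h (Matrix.of fun i j => (X (i, j) : MvPolynomial (Fin n × Fin n) k)).det (by
    rw [← AlgHom.coe_toRingHom, RingHom.map_det, ← h0]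
    congr 1
    ext i j
    simp)
  have h2 := congrArg (MvPolynomial.eval fun ij : Fin n × Fin n =>
    if ij.1 = ij.2 then (1 : k) else 0) h1
  rw [RingHom.map_det, map_zero] at h2
  have h3 : (MvPolynomial.eval fun ij : Fin n × Fin n =>
      if ij.1 = ij.2 then (1 : k) else 0).mapMatrix
      (Matrix.of fun i j => (X (i, j) : MvPolynomial (Fin n × Fin n) k)) = 1 := by
    ext i j
    simp [Matrix.one_apply]
  rw [h3, Matrix.det_one] at h2
  exact one_ne_zero h2

end Pool.Agent.VCI
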