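import Pool.Agent.VCI.Branch
import Pool.Agent.VGS.Aut
import Pool.Agent.VGS.Tau

/-!
# Moving an algebraic point: existence

`a` algebraically independent over `k`, `q` algebraic over `k(a)`, and equations `Φ_l (X, U) = 0`, as
many as there are `a_l`, satisfied by `(q, 0)` and transversal to the variation of `a`: then `q`
can be moved in a one parameter family which satisfies the equations and all relations of `q`
over `k`.
-/

set_option autoImplicit false

open MvPolynomial

namespace Pool.Agent.VCI

open Pool.Agent.VGS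

/-- `y` satisfies all polynomial equations over `k` which `q` satisfies. -/
def InR (k : Fl) {ι : Type} (q y : ι → ℂ) : Prop :=
  ∀ f : MvPolynomial ι ℂ, Coef k f → aeval q f = 0 → aeval y f = 0

/-! ### derivations -/

/-- Derivations of `ℂ` over a subfield with given values on an algebraically independent family. -/
theorem exists_kills_fam (L : Fl) {κ : Type} {x : κ → ℂ} (h : AlgebraicIndependent L x)
    (b : κ → ℂ) : ∃ D : Derivation ℤ ℂ ℂ, Kills L D ∧ ∀ l, D (x l) = b l := by
  classical
  have hs : AlgebraicIndepOn L id (Set.range x) := h.to_subtype_range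
  obtain ⟨t, hst, ht⟩ := exists_isTranscendenceBasis_superset hs
  obtain ⟨D, hD⟩ := tau_exists_der ht
    (fun w => if h : ∃ l, x l = (w : ℂ) then b h.choose else 0)
  refine ⟨D.restrictScalars ℤ, fun c hc => D.map_algebraMap ⟨c, hc⟩, fun l => ?_⟩
  have h1 := hD ⟨x l, hst ⟨l, rfl⟩⟩
  have h2 : ∃ l', x l' = ((⟨x l, hst ⟨l, rfl⟩⟩ : t) : ℂ) := ⟨l, rfl⟩
  rw [dif_pos h2] at h1
  have h3 : h2.choose = l := h.injective h2.choose_spec
  rw [h3] at h1
  exact h1

/-- Chain rule for a polynomial with coefficients killed by the derivation. -/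
theorem der_aeval' {L : Fl} {ι : Type} [Fintype ι] {G : MvPolynomial ι ℂ} (hG : Coef L G)
    {D : Derivation ℤ ℂ ℂ} (hD : Kills L D) (z : ι → ℂ) :
    D (aeval z G) = ∑ i, aeval z (pderiv i G) * D (z i) := by
  classical
  obtain ⟨G₀, rfl⟩ := coef_iff.1 hG
  clear hG
  induction G₀ using MvPolynomial.induction_on with
  | C a =>
    have h1 : D (a : ℂ) = 0 := hD _ a.2
    simp only [map_C, aeval_C, pderiv_C, map_zero, zero_mul, Finset.sum_const_zero]
    exact h1
  | add p q hp hq =>
    rw [map_add, map_add, map_add, hp, hq]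
    simp only [map_add, add_mul, Finset.sum_add_distrib]
  | mul_X p i hp =>
    rw [map_mul, map_X, map_mul, aeval_X, Derivation.leibniz, hp]
    simp only [Derivation.leibniz, pderiv_X, smul_eq_mul, map_add, map_mul, aeval_X]
    simp only [add_mul, Finset.sum_add_distrib]
    congr 1
    · rw [Finset.sum_eq_single i]
      · simp
      · intro j _ hj
        simp [hj.symm]
      · intro h; exact absurd (Finset.mem_univ i) h
    · rw [Finset.mul_sum]
      refine Finset.sum_congr rfl fun j _ => by ring

/-- The differential of a renamed polynomial. -/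
theorem sum_pderiv_rename {σ τ : Type} [Fintype σ] [Fintype τ] (g : σ → τ) (p : MvPolynomial σ ℂ)
    (y W : τ → ℂ) : ∑ o, aeval y (pderiv o (rename g p)) * W o =
      ∑ s, aeval (y ∘ g) (pderiv s p) * W (g s) := by
  classical
  induction p using MvPolynomial.induction_on with
  | C a => simp
  | add p q hp hq =>
    simp only [map_add, add_mul, Finset.sum_add_distrib, hp, hq]
  | mul_X p i hp =>
    rw [map_mul, rename_X]
    simp only [Derivation.leibniz, pderiv_X, smul_eq_mul, map_add, map_mul, aeval_X, aeval_rename,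
      add_mul, Finset.sum_add_distrib]
    congr 1
    · rw [Finset.sum_eq_single (g i), Finset.sum_eq_single i]
      · simp
      · intro j _ hj
        simp [hj.symm]
      · intro h; exact absurd (Finset.mem_univ i) h
      · intro j _ hj
        simp [hj.symm]
      · intro h; exact absurd (Finset.mem_univ _) h
    · have h1 : ∑ o, aeval y (X (g i) : MvPolynomial τ ℂ) * aeval y (pderiv o (rename g p)) * W o =
          y (g i) * ∑ o, aeval y (pderiv o (rename g p)) * W o := by
        rw [Finset.mul_sum]
        refine Finset.sum_congr rfl fun o _ => by rw [aeval_X]; ring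
      simp only [aeval_X] at h1
      rw [h1, hp, Finset.mul_sum]
      refine Finset.sum_congr rfl fun o _ => by
        simp only [Function.comp_apply]; ring

/-! ### a separable relation -/

theorem aeval_elim {κ : Type} (t : ℂ) (a : κ → ℂ) (r : MvPolynomial κ ℂ) :
    aeval (fun o : Option κ => o.elim t a) (rename some r) = aeval a r := by
  rw [aeval_rename]
  rfl

theorem pderiv_none_rename {κ : Type} (r : MvPolynomial κ ℂ) :
    pderiv none (rename (some : κ → Option κ) r) = 0 := by
  classical
  induction r using MvPolynomial.induction_on with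
  | C a => simp
  | add p q hp hq => rw [map_add, map_add, hp, hq, add_zero]
  | mul_X p i hp =>
    rw [map_mul, rename_X, Derivation.leibniz, hp, pderiv_X]
    simp

/-- An algebraic element satisfies a separable relation. -/
theorem exists_rel {k : Fl} {κ : Type} {a : κ → ℂ} {x : ℂ}
    (hx : x ∈ clo (adj k (Set.range a))) :
    ∃ R : MvPolynomial (Option κ) ℂ, Coef k R ∧ aeval (fun o : Option κ => o.elim x a) R = 0 ∧
      aeval (fun o : Option κ => o.elim x a) (pderiv none R) ≠ 0 := by
  classical
  rw [mem_clo_adj] at hx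
  set A := Algebra.adjoin k (Set.range a) with hA
  -- a relation of least degree
  have hex : ∃ n : ℕ, ∃ p : Polynomial A, p ≠ 0 ∧ Polynomial.aeval x p = 0 ∧ p.natDegree = n := by
    obtain ⟨p, hp, hp0⟩ := hx
    exact ⟨_, p, hp, hp0, rfl⟩
  obtain ⟨p, hp, hp0, hpn⟩ := Nat.find_spec hex
  have hmin : ∀ p' : Polynomial A, p' ≠ 0 → Polynomial.aeval x p' = 0 →
      p.natDegree ≤ p'.natDegree := by
    intro p' h1 h2
    rw [hpn]
    exact Nat.find_min' hex ⟨p', h1, h2, rfl⟩
  have hdeg : p.natDegree ≠ 0 := by
    intro h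
    rw [Polynomial.natDegree_eq_zero] at h
    obtain ⟨c, rfl⟩ := h
    rw [Polynomial.aeval_C] at hp0
    apply hp
    have : c = 0 := by
      apply Subtype.ext
      exact hp0
    rw [this, map_zero]
  have hder : Polynomial.aeval x (Polynomial.derivative p) ≠ 0 := by
    intro h
    by_cases h0 : Polynomial.derivative p = 0
    · exact hdeg (Polynomial.derivative_eq_zero.1 h0)
    · have h1 := hmin _ h0 h
      have h2 := Polynomial.natDegree_derivative_lt hdeg
      omega
  have hr : ∀ n, ∃ r : MvPolynomial κ k, aeval a r = ((p.coeff n : A) : ℂ) := by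
    intro n
    obtain ⟨b, hb⟩ := p.coeff n
    rw [hA, Algebra.adjoin_range_eq_range_aeval] at hb
    exact hb
  choose r hr using hr
  have hr' : ∀ n, aeval a (map (algebraMap k ℂ) (r n)) = ((p.coeff n : A) : ℂ) := by
    intro n
    rw [← hr n]
    simp [aeval_def, eval₂_map]
  set R : MvPolynomial (Option κ) ℂ :=
    ∑ n ∈ Finset.range (p.natDegree + 1), rename some (map (algebraMap k ℂ) (r n)) * X none ^ n with hR
  refine ⟨R, ?_, ?_, ?_⟩
  · rw [coef_iff]
    refine ⟨∑ n ∈ Finset.range (p.natDegree + 1), rename some (r n) * X none ^ n, ?_⟩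
    rw [map_sum, hR]
    refine Finset.sum_congr rfl fun n _ => ?_
    rw [map_mul, map_pow, map_X, map_rename]
  · rw [hR, map_sum]
    rw [Polynomial.aeval_eq_sum_range] at hp0
    rw [← hp0]
    refine Finset.sum_congr rfl fun n _ => ?_
    rw [map_mul, map_pow, aeval_X, aeval_elim, hr']
    rfl
  · have h1 : aeval (fun o : Option κ => o.elim x a) (pderiv none R) =
        Polynomial.aeval x (Polynomial.derivative p) := by
      have h2 : Polynomial.derivative p = ∑ n ∈ Finset.range (p.natDegree + 1),
          Polynomial.C (p.coeff n * n) * Polynomial.X ^ (n - 1) := by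
        conv_lhs => rw [p.as_sum_range_C_mul_X_pow]
        rw [Polynomial.derivative_sum]
        exact Finset.sum_congr rfl fun n _ => Polynomial.derivative_C_mul_X_pow _ _
      rw [hR, map_sum, map_sum, h2, map_sum]
      refine Finset.sum_congr rfl fun n _ => ?_
      rw [Derivation.leibniz, pderiv_none_rename, smul_zero, add_zero, Derivation.leibniz_pow,
        pderiv_X_self, map_mul, Polynomial.aeval_C, map_pow, Polynomial.aeval_X]
      have h3 : (algebraMap A ℂ) (p.coeff n * n) = ((p.coeff n : A) : ℂ) * n := by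
        rw [map_mul, map_natCast]; rfl
      rw [h3, ← hr' n]
      simp only [smul_eq_mul, mul_one, map_mul, aeval_elim, nsmul_eq_mul, map_natCast, map_pow,
        aeval_X, Option.elim_none]
      ring
    rw [h1]
    exact hder

/-- A separable relation makes an element algebraic. -/
theorem alg_of_rel {k : Fl} {κ : Type} {a : κ → ℂ} {x : ℂ} {R : MvPolynomial (Option κ) ℂ}
    (hR : Coef k R) (h0 : aeval (fun o : Option κ => o.elim x a) R = 0)
    (h1 : aeval (fun o : Option κ => o.elim x a) (pderiv none R) ≠ 0) :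
    x ∈ clo (adj k (Set.range a)) := by
  classical
  set E := adj k (Set.range a) with hE
  have haE : ∀ l, a l ∈ E := fun l => subset_adj _ _ ⟨l, rfl⟩
  obtain ⟨R', hR'⟩ := coef_iff.1 (hR.mono (le_adj k (Set.range a)))
  -- the polynomial over `E`
  set φ : MvPolynomial (Option κ) E →ₐ[E] Polynomial E :=
    aeval (fun o : Option κ => o.elim Polynomial.X (fun l => Polynomial.C ⟨a l, haE l⟩)) with hφ
  have hev : ∀ f : MvPolynomial (Option κ) E, Polynomial.aeval x (φ f) =
      aeval (fun o : Option κ => o.elim x a) (map (algebraMap E ℂ) f) := by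
    intro f
    induction f using MvPolynomial.induction_on with
    | C c => simp [hφ]
    | add p q hp hq => rw [map_add, map_add, map_add, map_add, hp, hq]
    | mul_X p i hp =>
      rw [map_mul, map_mul, map_mul, map_mul, hp, map_X, aeval_X]
      congr 1
      rcases i with _ | l
      · simp
      · simp
  have hder : ∀ f : MvPolynomial (Option κ) E, Polynomial.derivative (φ f) = φ (pderiv none f) := by
    intro f
    induction f using MvPolynomial.induction_on with
    | C c => simp [hφ]
    | add p q hp hq => rw [map_add, map_add, map_add, map_add, hp, hq]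
    | mul_X p i hp =>
      rw [map_mul, Polynomial.derivative_mul, hp, Derivation.leibniz, map_add, smul_eq_mul,
        smul_eq_mul, map_mul, map_mul]
      rcases i with _ | l
      · rw [pderiv_X_self]
        simp [hφ]
        ring
      · rw [pderiv_X_of_ne (by simp)]
        simp [hφ]
        ring
  rw [mem_clo]
  refine ⟨φ R', ?_, ?_⟩
  · intro h
    apply h1
    rw [← hR', pderiv_map, ← hev, ← hder, h]
    simp
  · rw [hev, hR', h0]

/-! ### relations are preserved -/

/-- Near an algebraic point `q` over `k(a)`, points which are algebraic over the moved parameters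
satisfy the relations of `q` over `k`. -/
theorem inD_of_sp {k K : Fl} (hkK : k ≤ K) {V : ValuationSubring ℂ} (hV : IsPl V K)
    {ι κ : Type} {a A : κ → ℂ} (ha : AlgebraicIndependent k a) (hA : ∀ l, Sp V K (A l) (a l))
    {q y : ι → ℂ} (hy : ∀ i, Sp V K (y i) (q i)) (hyA : ∀ i, y i ∈ clo (adj k (Set.range A))) :
    InR k q y := by
  classical
  intro f hf hfq
  by_contra hx
  set x : ℂ := aeval y f with hxd
  have hxC : x ∈ clo (adj k (Set.range A)) :=
    aeval_mem (hf.mono ((le_adj _ _).trans (le_clo _))) hyA
  have hxs : Sp V K x 0 := by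
    have := Sp.aeval hV (hf.mono hkK) hy
    rwa [hfq] at this
  rw [mem_clo_adj] at hxC
  obtain ⟨R, hR0, hR⟩ := hxC.exists_nonzero_coeff_and_aeval_eq_zero
    (mem_nonZeroDivisors_of_ne_zero hx)
  have hr : ∀ n, ∃ r : MvPolynomial κ k, aeval A r = (R.coeff n : ℂ) := by
    intro n
    obtain ⟨b, hb⟩ := R.coeff n
    rw [Algebra.adjoin_range_eq_range_aeval] at hb
    exact hb
  choose r hr using hr
  have hsp : ∀ n, Sp V K (R.coeff n : ℂ) (aeval a (r n)) := by
    intro n
    have h1 := Sp.aeval hV ((coef_iff.2 ⟨r n, rfl⟩ : Coef k (map (algebraMap k ℂ) (r n))).mono hkK) hA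
    rw [← hr n]
    simpa [aeval_def, eval₂_map] using h1
  have hsum : Sp V K (∑ n ∈ Finset.range (R.natDegree + 1), (R.coeff n : ℂ) * x ^ n)
      (∑ n ∈ Finset.range (R.natDegree + 1), aeval a (r n) * 0 ^ n) :=
    Sp.sum hV _ fun n _ => (hsp n).mul hV (hxs.pow hV n)
  have h1 : ∑ n ∈ Finset.range (R.natDegree + 1), (R.coeff n : ℂ) * x ^ n = 0 := by
    rw [Polynomial.aeval_eq_sum_range] at hR
    rw [← hR]
    refine Finset.sum_congr rfl fun i _ => rfl
  have h2 : ∑ n ∈ Finset.range (R.natDegree + 1), aeval a (r n) * (0:ℂ) ^ n = aeval a (r 0) := by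
    rw [Finset.sum_range_succ']
    simp
  rw [h1, h2] at hsum
  have h3 : aeval a (r 0) = 0 := hsum.unique hV (Sp.const hV K.zero_mem)
  have h4 : r 0 = 0 := ha.eq_zero_of_aeval_eq_zero _ h3
  apply hR0
  apply Subtype.ext
  rw [← hr 0, h4, map_zero]
  rfl

/-! ### the moved point -/

/-- **The moved point.** -/
theorem move (k : Fl) [Countable k] {ι κ : Type} [Fintype ι] [Fintype κ] (a : κ → ℂ)
    (ha : AlgebraicIndependent k a) (q : ι → ℂ) (hq : ∀ i, q i ∈ clo (adj k (Set.range a)))
    (Φ : κ → MvPolynomial (Option ι) ℂ) (hΦ : ∀ l, Coef (clo (adj k (Set.range a))) (Φ l))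
    (hΦ0 : ∀ l, aeval (fun o : Option ι => o.elim 0 q) (Φ l) = 0)
    (hJ : ∀ D : Derivation ℤ ℂ ℂ, Kills k D →
      (∀ l, ∑ i, aeval (fun o : Option ι => o.elim 0 q) (pderiv (some i) (Φ l)) * D (q i) = 0) →
      ∀ l, D (a l) = 0) :
    ∃ (V : ValuationSubring ℂ) (y : ι → ℂ) (u : ℂ), IsPl V (clo (adj k (Set.range a))) ∧
      Sp V (clo (adj k (Set.range a))) u 0 ∧ u ≠ 0 ∧ u ∉ clo (adj k (Set.range a)) ∧
      (∀ i, Sp V (clo (adj k (Set.range a))) (y i) (q i)) ∧
      (∀ l, aeval (fun o : Option ι => o.elim u y) (Φ l) = 0) ∧ InR k q y := by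
  classical
  have hkK : k ≤ clo (adj k (Set.range a)) := (le_adj _ _).trans (le_clo _)
  have haK : ∀ l, a l ∈ clo (adj k (Set.range a)) := fun l =>
    le_clo _ (subset_adj _ _ ⟨l, rfl⟩)
  have : Countable (Set.range a) := (Set.finite_range a).countable.to_subtype
  have hcK : Countable (clo (adj k (Set.range a))) := inferInstance
  choose R hRk hR0 hR1 using fun i => exists_rel (hq i)
  generalize hKdef : clo (adj k (Set.range a)) = K at *
  set g : ι → Option κ → Option (ι ⊕ κ) := fun i o => o.elim (some (Sum.inl i)) (fun l => some (Sum.inr l)) with hg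
  set h : Option ι → Option (ι ⊕ κ) := fun o => o.elim none (fun i => some (Sum.inl i)) with hh
  set Q : ι ⊕ κ → MvPolynomial (Option (ι ⊕ κ)) ℂ :=
    Sum.elim (fun i => rename (g i) (R i)) (fun l => rename h (Φ l)) with hQ
  have hcg : ∀ (u : ℂ) (y : ι ⊕ κ → ℂ) (i : ι), (fun o : Option (ι ⊕ κ) => o.elim u y) ∘ g i =
      fun o : Option κ => o.elim (y (Sum.inl i)) (fun l => y (Sum.inr l)) := by
    intro u y i
    funext o
    rcases o with _ | l <;> rfl
  have hch : ∀ (u : ℂ) (y : ι ⊕ κ → ℂ), (fun o : Option (ι ⊕ κ) => o.elim u y) ∘ h =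
      fun o : Option ι => o.elim u (fun i => y (Sum.inl i)) := by
    intro u y
    funext o
    rcases o with _ | l <;> rfl
  have hQK : ∀ e, Coef K (Q e) := by
    rintro (i | l)
    · obtain ⟨R', hR'⟩ := coef_iff.1 ((hRk i).mono hkK)
      refine coef_iff.2 ⟨rename (g i) R', ?_⟩
      rw [map_rename, hR']; rfl
    · obtain ⟨R', hR'⟩ := coef_iff.1 (hΦ l)
      refine coef_iff.2 ⟨rename h R', ?_⟩
      rw [map_rename, hR']; rfl
  have hQ0 : ∀ e, aeval (fun o : Option (ι ⊕ κ) => o.elim 0 (Sum.elim q a)) (Q e) = 0 := by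
    rintro (i | l)
    · change aeval _ (rename (g i) (R i)) = 0
      rw [aeval_rename, hcg]
      exact hR0 i
    · change aeval _ (rename h (Φ l)) = 0
      rw [aeval_rename, hch]
      exact hΦ0 l
  have hker : ∀ w : ι ⊕ κ → ℂ, (∀ e, ∑ v,
      aeval (fun o : Option (ι ⊕ κ) => o.elim 0 (Sum.elim q a)) (pderiv (some v) (Q e)) * w v = 0) →
      w = 0 := by
    intro w hw
    obtain ⟨D, hDk, hDa⟩ := exists_kills_fam k ha (fun l => w (Sum.inr l))
    -- the differentials with the value 0 on the parameter
    have hW : ∀ e, ∑ o, aeval (fun o : Option (ι ⊕ κ) => o.elim 0 (Sum.elim q a))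
        (pderiv o (Q e)) * (fun o : Option (ι ⊕ κ) => o.elim 0 w) o = 0 := by
      intro e
      rw [Fintype.sum_option]
      have := hw e
      simpa using this
    have hrel : ∀ i, aeval (fun o : Option κ => o.elim (q i) a) (pderiv none (R i)) *
        w (Sum.inl i) + ∑ l, aeval (fun o : Option κ => o.elim (q i) a) (pderiv (some l) (R i)) *
        w (Sum.inr l) = 0 := by
      intro i
      have h1 := hW (Sum.inl i)
      change ∑ o, aeval _ (pderiv o (rename (g i) (R i))) * _ = 0 at h1
      rw [sum_pderiv_rename, hcg, Fintype.sum_option] at h1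
      exact h1
    have hrel' : ∀ i, aeval (fun o : Option κ => o.elim (q i) a) (pderiv none (R i)) *
        D (q i) + ∑ l, aeval (fun o : Option κ => o.elim (q i) a) (pderiv (some l) (R i)) *
        D (a l) = 0 := by
      intro i
      have h1 := der_aeval' (hRk i) hDk (fun o : Option κ => o.elim (q i) a)
      rw [hR0 i, map_zero, Fintype.sum_option] at h1
      exact h1.symm
    have hDq : ∀ i, D (q i) = w (Sum.inl i) := by
      intro i
      have h1 := hrel i
      have h2 := hrel' i
      simp only [hDa] at h2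
      have h3 : aeval (fun o : Option κ => o.elim (q i) a) (pderiv none (R i)) *
          (D (q i) - w (Sum.inl i)) = 0 := by linear_combination h2 - h1
      exact sub_eq_zero.1 ((mul_eq_zero.1 h3).resolve_left (hR1 i))
    have hDa0 : ∀ l, D (a l) = 0 := by
      refine hJ D hDk fun l => ?_
      have h1 := hW (Sum.inr l)
      change ∑ o, aeval _ (pderiv o (rename h (Φ l))) * _ = 0 at h1
      rw [sum_pderiv_rename, hch, Fintype.sum_option] at h1
      have h2 : (h none).elim 0 w = 0 := rfl
      rw [h2, mul_zero, zero_add] at h1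
      refine Eq.trans (Finset.sum_congr rfl fun i _ => ?_) h1
      rw [hDq i]
      rfl
    funext v
    rcases v with i | l
    · have h2 := hrel' i
      simp only [hDa0, mul_zero, Finset.sum_const_zero, add_zero] at h2
      rw [← hDq i]
      exact (mul_eq_zero.1 h2).resolve_left (hR1 i)
    · rw [← hDa l]
      exact hDa0 l
  obtain ⟨V, z, u, hV, hu, hu0, huK, hz, hzQ⟩ := branch' (Set.countable_coe_iff.1 hcK)
    (Sum.elim q a) (by
      rintro (i | l)
      · exact hq i
      · exact haK l) Q hQK hQ0 hker
  refine ⟨V, fun i => z (Sum.inl i), u, hV, hu, hu0, huK, fun i => hz (Sum.inl i), fun l => ?_, ?_⟩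
  · have h1 := hzQ (Sum.inr l)
    change aeval _ (rename h (Φ l)) = 0 at h1
    rw [aeval_rename, hch] at h1
    exact h1
  · refine inD_of_sp hkK hV ha (A := fun l => z (Sum.inr l)) (fun l => hz (Sum.inr l))
      (fun i => hz (Sum.inl i)) fun i => ?_
    -- the moved point is algebraic over the moved parameters
    have h1 := hzQ (Sum.inl i)
    change aeval _ (rename (g i) (R i)) = 0 at h1
    rw [aeval_rename, hcg] at h1
    have h2 : aeval (fun o : Option κ => o.elim (z (Sum.inl i)) (fun l => z (Sum.inr l)))
        (pderiv none (R i)) ≠ 0 := by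
      refine Sp.ne_zero hV (c := aeval (fun o : Option κ => o.elim (q i) a) (pderiv none (R i))) ?_ (hR1 i)
      refine Sp.aeval hV ?_ ?_
      · obtain ⟨R', hR'⟩ := coef_iff.1 ((hRk i).mono hkK)
        refine coef_iff.2 ⟨pderiv none R', ?_⟩
        rw [← pderiv_map, hR']
      · intro o
        rcases o with _ | l
        · exact hz (Sum.inl i)
        · exact hz (Sum.inr l)
    exact alg_of_rel (hRk i) h1 h2

end Pool.Agent.VCI
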