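import Pool.Agent.VCI.MuA
import Pool.Agent.VCI.Basic

/-! Complete intersections: combinations of generic vectors. -/

set_option autoImplicit false

open scoped LinearAlgebra.Projectivization
open MvPolynomial

namespace Pool.Agent.VCI

open Pool.Agent.VGS

variable {n r : ℕ}

/-! ### independent vectors are not combinations of few vectors -/

theorem no_comb {L : Fl} {ι : Type} [Fintype ι] (hn : Fintype.card ι < n) {v : Fin n → ℂ}
    (hv : AlgebraicIndependent L v) {w : ι → Fin n → ℂ} (hw : ∀ l i, w l i ∈ L) {c : ι → ℂ}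
    (h : ∀ i, v i = ∑ l, c l * w l i) : False := by
  have h1 := ai_le_card hv (y := c) fun i => ?_
  · simp only [Nat.card_eq_fintype_card, Fintype.card_fin] at h1
    omega
  rw [h i]
  exact sum_mem fun l _ => mul_mem (le_clo _ (subset_adj _ _ ⟨l, rfl⟩))
    (le_clo _ (le_adj _ _ (hw l i)))

theorem cnt' {K L : Fl} (hKL : K ≤ L) {ι : Type} [Fintype ι] (hn : Fintype.card ι + 2 < n)
    {v : Fin n → ℂ} (hv : AlgebraicIndependent L v) {w : ι → Fin n → ℂ} (hw : ∀ l i, w l i ∈ L)
    {β : ℂ} (hβ : β ≠ 0) {c : ι → ℂ} {x : Fin n → ℂ}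
    (hx : ∀ i, x i = β * v i + ∑ l, c l * w l i) {i₀ : Fin n} (hx0 : x i₀ ≠ 0) {t : ℂ}
    (ht : ∀ i, x i / x i₀ ∈ clo (adj K {t})) : False := by
  set e := Fintype.equivFin ι
  refine cnt hKL hn hv (w := fun l => w (e.symm l)) (fun l i => hw _ i) hβ
    (c := fun l => c (e.symm l)) (x := x) (fun i => ?_) hx0 ht
  rw [hx i]
  congr 1
  exact (Equiv.sum_comp e.symm fun l => c l * w l i).symm

/-- the fields generated by the other rows -/
noncomputable def rowF (L : Fl) (b : Fin r → Fin n → ℂ) (j : Fin r) : Fl :=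
  adj L (Set.range fun kl : {k : Fin r // k ≠ j} × Fin n => b kl.1.1 kl.2)

theorem ind_row {L : Fl} {b : Fin r → Fin n → ℂ}
    (hb : AlgebraicIndependent L fun jl : Fin r × Fin n => b jl.1 jl.2) (j : Fin r) :
    AlgebraicIndependent (rowF L b j) (b j) := by
  have h1 : Function.Injective (Sum.elim (fun kl : {k : Fin r // k ≠ j} × Fin n =>
      ((kl.1.1, kl.2) : Fin r × Fin n)) fun l : Fin n => (j, l)) := by
    rintro (⟨k, l⟩ | l) (⟨k', l'⟩ | l') h
    · simp only [Sum.elim_inl, Prod.mk.injEq] at h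
      obtain ⟨h1, rfl⟩ := h
      rw [Subtype.ext h1]
    · simp only [Sum.elim_inl, Sum.elim_inr, Prod.mk.injEq] at h
      exact absurd h.1 k.2
    · simp only [Sum.elim_inl, Sum.elim_inr, Prod.mk.injEq] at h
      exact absurd h.1.symm k'.2
    · simp only [Sum.elim_inr, Prod.mk.injEq] at h
      rw [h.2]
  have h2 := hb.comp _ h1
  have h3 : (fun jl : Fin r × Fin n => b jl.1 jl.2) ∘ (Sum.elim
      (fun kl : {k : Fin r // k ≠ j} × Fin n => ((kl.1.1, kl.2) : Fin r × Fin n))
        fun l : Fin n => (j, l)) =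
      Sum.elim (fun kl : {k : Fin r // k ≠ j} × Fin n => b kl.1.1 kl.2) (b j) := by
    funext x
    rcases x with x | x
    · rfl
    · rfl
  rw [h3] at h2
  exact (ai_sum.1 h2).2

theorem mem_rowF {L : Fl} {b : Fin r → Fin n → ℂ} {j k : Fin r} (hk : k ≠ j) (l : Fin n) :
    b k l ∈ rowF L b j := subset_adj _ _ ⟨(⟨k, hk⟩, l), rfl⟩

theorem le_rowF (L : Fl) (b : Fin r → Fin n → ℂ) (j : Fin r) : L ≤ rowF L b j := le_adj _ _

theorem card_opt (j : Fin r) : Fintype.card (Option {k : Fin r // k ≠ j}) = r := by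
  rw [Fintype.card_option, Fintype.card_subtype_compl, Fintype.card_fin,
    Fintype.card_subtype_eq]
  have := j.2
  omega

theorem sum_opt {j : Fin r} (a : ℂ) (f : Fin r → ℂ) :
    ∑ o : Option {k : Fin r // k ≠ j}, o.elim a (fun k => f k.1) + f j = a + ∑ k, f k := by
  classical
  rw [Fintype.sum_option]
  have h1 : ∑ k, f k = f j + ∑ k : {k : Fin r // k ≠ j}, f k.1 := by
    rw [← Finset.add_sum_erase Finset.univ f (Finset.mem_univ j)]
    congr 1
    rw [← Finset.sum_subtype (Finset.univ.erase j) (fun k => by simp) f]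
  rw [h1]
  simp only [Option.elim]
  ring

theorem li_cons (hn : r < n) {L : Fl} {w : Fin n → ℂ} (hw : ∀ l, w l ∈ L) (hw0 : w ≠ 0)
    {b : Fin r → Fin n → ℂ} (hb : AlgebraicIndependent L fun jl : Fin r × Fin n => b jl.1 jl.2) :
    LinearIndependent ℂ (Fin.cons w b : Fin (r + 1) → Fin n → ℂ) := by
  rw [Fintype.linearIndependent_iff]
  intro g hg
  rw [Fin.sum_univ_succ, Fin.cons_zero] at hg
  simp only [Fin.cons_succ] at hg
  have hg' : ∀ l, g 0 * w l + ∑ j : Fin r, g j.succ * b j l = 0 := by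
    intro l
    have := congrFun hg l
    simpa [Finset.sum_apply] using this
  have key : ∀ j : Fin r, g j.succ = 0 := by
    intro j
    by_contra hj
    refine no_comb (ι := Option {k : Fin r // k ≠ j}) (by rw [card_opt]; exact hn)
      (ind_row hb j) (w := fun o l => o.elim (w l) fun k => b k.1 l)
      (c := fun o => o.elim (-(g 0 / g j.succ)) fun k => -(g k.1.succ / g j.succ)) ?_ ?_
    · intro o l
      rcases o with _ | k
      · exact le_rowF L b j (hw l)
      · exact mem_rowF k.2 l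
    · intro l
      have h1 : ∑ o : Option {k : Fin r // k ≠ j},
          (o.elim (-(g 0 / g j.succ)) fun k => -(g k.1.succ / g j.succ)) *
            (o.elim (w l) fun k => b k.1 l) =
          ∑ o : Option {k : Fin r // k ≠ j}, o.elim (-(g 0 / g j.succ) * w l)
            (fun k => (fun k : Fin r => -(g k.succ / g j.succ) * b k l) k.1) :=
        Finset.sum_congr rfl fun o _ => by
          rcases o with _ | k
          · rfl
          · rfl
      have h2 := sum_opt (j := j) (-(g 0 / g j.succ) * w l)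
        (fun k : Fin r => -(g k.succ / g j.succ) * b k l)
      rw [h1]
      have h3 : ∑ k : Fin r, -(g k.succ / g j.succ) * b k l =
          -((∑ k : Fin r, g k.succ * b k l) / g j.succ) := by
        rw [Finset.sum_div, ← Finset.sum_neg_distrib]
        exact Finset.sum_congr rfl fun k _ => by ring
      have h4 := hg' l
      rw [h3] at h2
      have h5 : -(g j.succ / g j.succ) * b j l = - b j l := by
        rw [div_self hj]
        ring
      rw [h5] at h2
      have h6 : ∑ k : Fin r, g k.succ * b k l = -(g 0 * w l) := by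
        linear_combination h4
      rw [h6] at h2
      have h7 : -(g 0 / g j.succ) * w l + -(-(g 0 * w l) / g j.succ) = 0 := by
        field_simp
        ring
      rw [h7] at h2
      linear_combination -h2
  intro i
  refine Fin.cases ?_ key i
  have h1 : ∀ l, g 0 * w l = 0 := by
    intro l
    have := hg' l
    simpa [key] using this
  by_contra h0
  exact hw0 (funext fun l => (mul_eq_zero.1 (h1 l)).resolve_left h0)

/-! ### genericity of combinations -/

theorem not_gen_par {K : Fl} {F : Fin r → MvPolynomial (Fin n) ℂ} {x : Fin n → ℂ} (hx0 : x ≠ 0)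
    (hxF : (Projectivization.mk ℂ x hx0 : PN n) ∈ ciS F)
    (h : (Projectivization.mk ℂ x hx0 : PN n) ∉ Gen K F) {i₀ : Fin n} (hi : x i₀ ≠ 0) :
    ∃ t : ℂ, ∀ i, x i / x i₀ ∈ clo (adj K {t}) := by
  apply exists_par
  intro j l hjl
  refine h ⟨hxF, i₀, j, l, ?_, ?_⟩
  · rw [Ne, rep_mk_eq_zero]
    exact hi
  · rw [rep_mk_div, rep_mk_div]
    exact hjl

theorem gen_of_comb (hn : r + 2 < n) {K L : Fl} (hKL : K ≤ L)
    {F : Fin r → MvPolynomial (Fin n) ℂ} {w : Fin n → ℂ} (hw : ∀ l, w l ∈ L)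
    {b : Fin r → Fin n → ℂ} (hb : AlgebraicIndependent L fun jl : Fin r × Fin n => b jl.1 jl.2)
    {x : Fin n → ℂ} (hx0 : x ≠ 0) (hxF : (Projectivization.mk ℂ x hx0 : PN n) ∈ ciS F) {α : ℂ}
    {γ : Fin r → ℂ} (hx : ∀ l, x l = α * w l + ∑ j, γ j * b j l) (hγ : ∃ j, γ j ≠ 0) :
    (Projectivization.mk ℂ x hx0 : PN n) ∈ Gen K F := by
  by_contra hn'
  obtain ⟨i₀, hi⟩ := Function.ne_iff.1 hx0
  obtain ⟨t, ht⟩ := not_gen_par hx0 hxF hn' hi
  obtain ⟨j, hj⟩ := hγ
  refine cnt' (hKL.trans (le_rowF L b j)) (ι := Option {k : Fin r // k ≠ j})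
    (by rw [card_opt]; exact hn) (ind_row hb j) (w := fun o l => o.elim (w l) fun k => b k.1 l)
    ?_ hj (c := fun o => o.elim α fun k => γ k.1) (x := x) ?_ hi ht
  · intro o l
    rcases o with _ | k
    · exact le_rowF L b j (hw l)
    · exact mem_rowF k.2 l
  · intro l
    have h1 : ∑ o : Option {k : Fin r // k ≠ j}, (o.elim α fun k => γ k.1) *
        (o.elim (w l) fun k => b k.1 l) =
        ∑ o : Option {k : Fin r // k ≠ j}, o.elim (α * w l)
          (fun k => (fun k : Fin r => γ k * b k l) k.1) :=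
      Finset.sum_congr rfl fun o _ => by
        rcases o with _ | k
        · rfl
        · rfl
    have h2 := sum_opt (j := j) (α * w l) (fun k : Fin r => γ k * b k l)
    rw [h1, hx l, ← h2]
    ring

theorem gen_of_mul (hn : 2 < n) {K L : Fl} (hKL : K ≤ L) {F : Fin r → MvPolynomial (Fin n) ℂ}
    {w : Fin n → ℂ} (hw : AlgebraicIndependent L w) {x : Fin n → ℂ} (hx0 : x ≠ 0)
    (hxF : (Projectivization.mk ℂ x hx0 : PN n) ∈ ciS F) {α : ℂ} (hx : ∀ l, x l = α * w l) :
    (Projectivization.mk ℂ x hx0 : PN n) ∈ Gen K F := by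
  by_contra hn'
  obtain ⟨i₀, hi⟩ := Function.ne_iff.1 hx0
  obtain ⟨t, ht⟩ := not_gen_par hx0 hxF hn' hi
  have hα : α ≠ 0 := by
    rintro rfl
    apply hi
    rw [hx, zero_mul]
    rfl
  refine cnt' hKL (ι := Empty) (by simpa using hn) hw (w := fun e => e.elim)
    (fun e => e.elim) hα (c := fun e => e.elim) (x := x) (fun i => ?_) hi ht
  rw [hx i]
  simp

/-! ### limits of combinations -/

theorem exists_rinv' {k : Type} [Field k] {m : ℕ} {A : Matrix (Fin m) (Fin n) k}
    (hA : LinearIndependent k A.row) : ∃ B : Matrix (Fin n) (Fin m) k, A * B = 1 := by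
  rw [← Matrix.mulVec_surjective_iff_exists_right_inverse]
  have h1 : A.rank = Fintype.card (Fin m) := hA.rank_matrix
  have h2 : LinearMap.range A.mulVecLin = ⊤ := by
    apply Submodule.eq_top_of_finrank_eq
    rw [Module.finrank_fintype_fun_eq_card]
    exact h1
  exact LinearMap.range_eq_top.1 h2

theorem exists_rinvC {C : Fl} {m : ℕ} {A : Fin m → Fin n → ℂ} (hAC : ∀ i l, A i l ∈ C)
    (hA : LinearIndependent ℂ A) : ∃ B : Fin n → Fin m → ℂ, (∀ l i, B l i ∈ C) ∧
      ∀ i j, ∑ l, A i l * B l j = if i = j then 1 else 0 := by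
  classical
  obtain ⟨A₀, hA₀⟩ : ∃ A₀ : Matrix (Fin m) (Fin n) C, ∀ i l, ((A₀ i l : C) : ℂ) = A i l :=
    ⟨fun i l => ⟨A i l, hAC i l⟩, fun _ _ => rfl⟩
  have h1 : LinearIndependent C A₀.row := by
    rw [Fintype.linearIndependent_iff] at hA ⊢
    intro g hg i
    have h2 := hA (fun i => (g i : ℂ)) (by
      funext l
      have h3 := congrArg (fun x : C => (x : ℂ)) (congrFun hg l)
      rw [Finset.sum_apply]
      rw [Finset.sum_apply] at h3
      have h4 : (((∑ c, (g c • A₀.row c) l : C)) : ℂ) = ∑ c, (g c : ℂ) * A c l := by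
        refine (map_sum (algebraMap C ℂ) _ _).trans ?_
        refine Finset.sum_congr rfl fun c _ => ?_
        rw [← hA₀]
        rfl
      rw [h4] at h3
      exact h3) i
    exact Subtype.ext h2
  obtain ⟨B, hB⟩ := exists_rinv' h1
  refine ⟨fun l i => (B l i : ℂ), fun l i => (B l i).2, fun i j => ?_⟩
  have h2 := congrArg (fun x : C => (x : ℂ)) (congrFun (congrFun hB i) j)
  rw [Matrix.mul_apply, Matrix.one_apply] at h2
  have h3 : ∑ l, A i l * ((B l j : C) : ℂ) = ((∑ l, A₀ i l * B l j : C) : ℂ) := by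
    refine Eq.trans ?_ (map_sum (algebraMap C ℂ) _ _).symm
    refine Finset.sum_congr rfl fun l _ => ?_
    rw [← hA₀]
    rfl
  rw [h3]
  refine h2.trans ?_
  split_ifs
  · rfl
  · rfl

theorem span_lim {V : ValuationSubring ℂ} {C : Fl} (hV : IsPl V C) {w v : Fin n → ℂ}
    (hw : ∀ l, w l ∈ C) (hv : ∀ l, v l ∈ C) {b : Fin r → Fin n → ℂ} (hb : ∀ j l, b j l ∈ C)
    (hli : LinearIndependent ℂ (Fin.cons w b : Fin (r + 1) → Fin n → ℂ)) {δ : ℂ}
    (hδ : Sp V C δ 0) {a : ℂ} {c : Fin r → ℂ} {x y : Fin n → ℂ}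
    (hx : ∀ l, x l = a * (w l + δ * v l) + ∑ j, c j * b j l) (hxy : ∀ l, Sp V C (x l) (y l)) :
    ∃ (α : ℂ) (γ : Fin r → ℂ), Sp V C a α ∧ (∀ l, y l = α * w l + ∑ j, γ j * b j l) := by
  obtain ⟨B, hB, hAB⟩ := exists_rinvC (C := C) (A := (Fin.cons w b : Fin (r + 1) → Fin n → ℂ))
    (fun i l => by
      refine Fin.cases ?_ (fun j => ?_) i
      · exact hw l
      · exact hb j l) hli
  -- the coefficients
  have hN : ∀ k : Fin (r + 1), ∑ l, x l * B l k =
      a * (if (0 : Fin (r + 1)) = k then 1 else 0) + a * δ * ∑ l, v l * B l k +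
        ∑ j : Fin r, c j * if j.succ = k then 1 else 0 := by
    intro k
    have h1 := hAB 0 k
    have h2 : ∀ j : Fin r, ∑ l, b j l * B l k = if j.succ = k then 1 else 0 := fun j => by
      have := hAB j.succ k
      simpa using this
    rw [Fin.cons_zero] at h1
    rw [← h1]
    simp only [← h2]
    simp only [hx, Finset.mul_sum]
    rw [Finset.sum_comm (f := fun (j : Fin r) (l : Fin n) => c j * (b j l * B l k)),
      ← Finset.sum_add_distrib, ← Finset.sum_add_distrib]
    refine Finset.sum_congr rfl fun l _ => ?_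
    rw [add_mul, Finset.sum_mul]
    have : ∑ j : Fin r, c j * (b j l * B l k) = ∑ j : Fin r, c j * b j l * B l k :=
      Finset.sum_congr rfl fun j _ => by ring
    rw [this]
    ring
  have hNC : ∀ k, Sp V C (∑ l, x l * B l k) (∑ l, y l * B l k) := fun k =>
    Sp.sum hV _ fun l _ => Sp.mul hV (hxy l) (Sp.const hV (hB l k))
  have hνC : ∀ k, ∑ l, v l * B l k ∈ C := fun k => sum_mem fun l _ => mul_mem (hv l) (hB l k)
  have ha : Sp V C a (∑ l, y l * B l 0) := by
    have h1 := hN 0
    rw [if_pos rfl, mul_one] at h1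
    have h2 : ∑ j : Fin r, c j * (if j.succ = 0 then (1 : ℂ) else 0) = 0 :=
      Finset.sum_eq_zero fun j _ => by rw [if_neg (Fin.succ_ne_zero j), mul_zero]
    rw [h2, add_zero] at h1
    have h3 : Sp V C (1 + δ * ∑ l, v l * B l 0) (1 + 0 * ∑ l, v l * B l 0) :=
      Sp.add hV (Sp.const hV C.one_mem) (Sp.mul hV hδ (Sp.const hV (hνC 0)))
    rw [zero_mul, add_zero] at h3
    have h4 := h3.ne_zero hV one_ne_zero
    have h5 : a = (∑ l, x l * B l 0) / (1 + δ * ∑ l, v l * B l 0) := by
      rw [h1]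
      field_simp
    have h6 := Sp.div hV (hNC 0) h3 one_ne_zero
    rw [div_one, ← h5] at h6
    exact h6
  have hc : ∀ j : Fin r, Sp V C (c j) (∑ l, y l * B l j.succ) := by
    intro j
    have h1 := hN j.succ
    rw [if_neg (Fin.succ_ne_zero j).symm, mul_zero, zero_add] at h1
    have h2 : ∑ k : Fin r, c k * (if k.succ = j.succ then (1 : ℂ) else 0) = c j := by
      rw [Finset.sum_eq_single j]
      · rw [if_pos rfl, mul_one]
      · intro k _ hk
        rw [if_neg fun h => hk (Fin.succ_injective _ h), mul_zero]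
      · intro h
        exact absurd (Finset.mem_univ j) h
    rw [h2] at h1
    have h3 : c j = (∑ l, x l * B l j.succ) - a * δ * ∑ l, v l * B l j.succ := by
      rw [h1]
      ring
    have h4 := Sp.sub hV (hNC j.succ) (Sp.mul hV (Sp.mul hV ha hδ) (Sp.const hV (hνC j.succ)))
    rw [mul_zero, zero_mul, sub_zero, ← h3] at h4
    exact h4
  refine ⟨∑ l, y l * B l 0, fun j => ∑ l, y l * B l j.succ, ha, fun l => ?_⟩
  refine Sp.unique hV (hxy l) ?_
  have h1 := Sp.add hV (Sp.mul hV ha (Sp.add hV (Sp.const hV (hw l))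
    (Sp.mul hV hδ (Sp.const hV (hv l))))) (Sp.sum hV Finset.univ fun j _ =>
      Sp.mul hV (hc j) (Sp.const hV (hb j l)))
  rw [zero_mul, add_zero, ← hx l] at h1
  exact h1

/-! ### uniqueness of the branch -/

theorem det_sp {V : ValuationSubring ℂ} {C : Fl} (hV : IsPl V C) {m : ℕ}
    {M N : Matrix (Fin m) (Fin m) ℂ} (h : ∀ i j, Sp V C (M i j) (N i j)) :
    Sp V C M.det N.det := by
  rw [Matrix.det_apply', Matrix.det_apply']
  refine Sp.sum hV _ fun σ _ => Sp.mul hV (Sp.const hV ?_) (Sp.prod hV _ fun i _ => h _ _)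
  exact intCast_mem C _

theorem mu_exists_diff {V : ValuationSubring ℂ} {C : Fl} (hV : IsPl V C) {x x' q : Fin n → ℂ}
    (hx : ∀ l, Sp V C (x l) (q l)) (hx' : ∀ l, Sp V C (x' l) (q l)) {G : MvPolynomial (Fin n) ℂ}
    (hG : Coef C G) : ∃ A : Fin n → ℂ, (∀ l, Sp V C (A l) (aeval q (pderiv l G))) ∧
      aeval x' G - aeval x G = ∑ l, A l * (x' l - x l) := by
  classical
  obtain ⟨G₀, rfl⟩ := exists_map_eq hG
  clear hG
  induction G₀ using MvPolynomial.induction_on with
  | C a =>
    refine ⟨0, fun l => ?_, ?_⟩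
    · rw [map_C, pderiv_C, map_zero]
      exact Sp.const hV C.zero_mem
    · rw [map_C, aeval_C, aeval_C]
      simp
  | add p p' hp hp' =>
    obtain ⟨A, hA, hA'⟩ := hp
    obtain ⟨B, hB, hB'⟩ := hp'
    refine ⟨fun l => A l + B l, fun l => ?_, ?_⟩
    · rw [map_add, map_add, map_add]
      exact Sp.add hV (hA l) (hB l)
    · rw [map_add, map_add, map_add]
      simp only [add_mul, Finset.sum_add_distrib]
      rw [← hA', ← hB']
      ring
  | mul_X p i hp =>
    obtain ⟨A, hA, hA'⟩ := hp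
    refine ⟨fun l => A l * x' i + if l = i then aeval x (map (algebraMap C ℂ) p) else 0,
      fun l => ?_, ?_⟩
    · rw [map_mul, map_X, Derivation.leibniz, pderiv_X, smul_eq_mul, smul_eq_mul, map_add,
        map_mul, map_mul, aeval_X, add_comm (aeval q (map (algebraMap C ℂ) p) * _),
        mul_comm (q i)]
      refine Sp.add hV (Sp.mul hV (hA l) (hx' i)) ?_
      by_cases h : l = i
      · subst h
        rw [if_pos rfl, Pi.single_eq_same, map_one, mul_one]
        exact Sp.aeval hV (gp_coef_map p) hx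
      · rw [if_neg h, Pi.single_eq_of_ne (fun h' => h h'.symm), map_zero, mul_zero]
        exact Sp.const hV C.zero_mem
    · have h1 : ∑ l, (A l * x' i + if l = i then aeval x (map (algebraMap C ℂ) p) else 0) *
          (x' l - x l) = (∑ l, A l * (x' l - x l)) * x' i +
            aeval x (map (algebraMap C ℂ) p) * (x' i - x i) := by
        simp only [add_mul, Finset.sum_add_distrib, ite_mul, zero_mul, Finset.sum_ite_eq',
          Finset.mem_univ, if_true, Finset.sum_mul]
        congr 1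
        exact Finset.sum_congr rfl fun l _ => by ring
      rw [h1, ← hA', map_mul, map_X, map_mul, map_mul, aeval_X, aeval_X]
      ring

theorem branch_unique {V : ValuationSubring ℂ} {C : Fl} (hV : IsPl V C)
    {F : Fin r → MvPolynomial (Fin n) ℂ} (hF : ∀ i, Coef C (F i)) {b : Fin r → Fin n → ℂ}
    (hb : ∀ j l, b j l ∈ C) {c c' : Fin r → ℂ} {w x x' q : Fin n → ℂ}
    (hx : ∀ l, x l = w l + ∑ j, c j * b j l) (hx' : ∀ l, x' l = w l + ∑ j, c' j * b j l)
    (hxq : ∀ l, Sp V C (x l) (q l)) (hxq' : ∀ l, Sp V C (x' l) (q l))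
    (h0 : ∀ i, aeval x (F i) = 0) (h0' : ∀ i, aeval x' (F i) = 0)
    (hJ : (jacM F q b).det ≠ 0) : x' = x := by
  choose A hA hA' using fun i => mu_exists_diff hV hxq hxq' (hF i)
  obtain ⟨M, hM⟩ : ∃ M : Matrix (Fin r) (Fin r) ℂ, ∀ i j, M i j = ∑ l, A i l * b j l :=
    ⟨Matrix.of fun i j => ∑ l, A i l * b j l, fun _ _ => rfl⟩
  have h1 : Sp V C M.det (jacM F q b).det := by
    refine det_sp hV fun i j => ?_
    rw [hM]
    exact Sp.sum hV _ fun l _ => Sp.mul hV (hA i l) (Sp.const hV (hb j l))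
  have h2 : M.mulVec (c' - c) = 0 := by
    funext i
    have h3 := hA' i
    rw [h0, h0', sub_zero] at h3
    rw [Pi.zero_apply, h3, Matrix.mulVec, dotProduct]
    simp only [hM, Pi.sub_apply, hx, hx', Finset.sum_mul]
    rw [Finset.sum_comm]
    refine Finset.sum_congr rfl fun l _ => ?_
    rw [add_sub_add_left_eq_sub, ← Finset.sum_sub_distrib, Finset.mul_sum]
    exact Finset.sum_congr rfl fun j _ => by ring
  have h3 := Matrix.eq_zero_of_mulVec_eq_zero (h1.ne_zero hV hJ) h2
  funext l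
  have h4 : ∀ j, c' j = c j := fun j => sub_eq_zero.1 (congrFun h3 j)
  rw [hx', hx]
  simp only [h4]

end Pool.Agent.VCI
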