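import Pool.Agent.VCI.MuB
import Pool.Agent.VCI.Link
import Pool.Agent.VCI.AutP

/-! Complete intersections: every point of the surface is rationally equivalent to a cycle of
generic points. -/

set_option autoImplicit false

open scoped LinearAlgebra.Projectivization
open MvPolynomial

namespace Pool.Agent.VCI

open Pool.Agent.Chow0 (IsLink)
open Pool.Agent.VGS

variable {n r : ℕ}

/-- the property of the multisets `s`, `t` attached to the point `q`: `q + s` and `t` are linked,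
`s` and `t` consist of generic points and are fixed by the stabiliser of `q`; `E₀` is the field of
the parameters -/
structure IsMu (E₀ K : Fl) (F : Fin r → MvPolynomial (Fin n) ℂ) (q : ciS F)
    (s t : Multiset (ciS F)) : Prop where
  fix : ∀ σ ∈ VGS.Fix (adjP E₀ q.1), (s.map Subtype.val).map (act σ) = s.map Subtype.val ∧
    (t.map Subtype.val).map (act σ) = t.map Subtype.val
  gen : ∀ x ∈ s, x.1 ∈ Gen K F
  gen' : ∀ x ∈ t, x.1 ∈ Gen K F
  link : IsLink (ciS F) (q ::ₘ s) t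

/-- the orbit of a point as a multiset -/
theorem exists_orbit {M : Fl} {p : PN n} (hp : Over (clo M) p) :
    ∃ S : Multiset (PN n), S.Nodup ∧ (∀ q, q ∈ S ↔ ∃ σ ∈ VGS.Fix M, act σ p = q) ∧
      ∀ σ ∈ VGS.Fix M, S.map (act σ) = S := by
  classical
  have hfin := finite_orbit_pt M hp
  have hmem : ∀ q, q ∈ hfin.toFinset ↔ ∃ σ ∈ VGS.Fix M, act σ p = q := fun q => by
    rw [Set.Finite.mem_toFinset]
    rfl
  refine ⟨hfin.toFinset.val, hfin.toFinset.nodup, hmem, fun σ hσ => ?_⟩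
  have h1 : hfin.toFinset.image (act σ) = hfin.toFinset := by
    ext q
    rw [Finset.mem_image]
    constructor
    · rintro ⟨q', hq', rfl⟩
      obtain ⟨τ, hτ, rfl⟩ := (hmem q').1 hq'
      exact (hmem _).2 ⟨σ * τ, mul_mem hσ hτ, act_mul σ τ p⟩
    · intro hq
      obtain ⟨τ, hτ, rfl⟩ := (hmem q).1 hq
      refine ⟨act (σ⁻¹ * τ) p, (hmem _).2 ⟨_, mul_mem (inv_mem hσ) hτ, rfl⟩, ?_⟩
      rw [← act_mul, mul_inv_cancel_left]
  have h2 : (hfin.toFinset.image (act σ)).val = hfin.toFinset.val.map (act σ) :=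
    Finset.image_val_of_injOn (act_injective σ).injOn
  rw [← h2, h1]

/-- the points of the limits -/
theorem lim_span {V : ValuationSubring ℂ} {C : Fl} (hV : IsPl V C) {w v : Fin n → ℂ}
    (hw : ∀ l, w l ∈ C) (hv : ∀ l, v l ∈ C) {b : Fin r → Fin n → ℂ} (hb : ∀ j l, b j l ∈ C)
    (hli : LinearIndependent ℂ (Fin.cons w b : Fin (r + 1) → Fin n → ℂ)) {δ : ℂ}
    (hδ : Sp V C δ 0) {c : Fin r → ℂ} {x : Fin n → ℂ} (hx0 : x ≠ 0)
    (hx : ∀ l, x l = w l + δ * v l + ∑ j, c j * b j l) {q : PN n}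
    (hxy : SpP V C (Projectivization.mk ℂ x hx0) q) :
    ∃ (y : Fin n → ℂ) (hy : y ≠ 0) (α : ℂ) (γ : Fin r → ℂ), q = Projectivization.mk ℂ y hy ∧
      ∀ l, y l = α * w l + ∑ j, γ j * b j l := by
  obtain ⟨x', y, hx', hy, h1, h2, h3⟩ := hxy
  obtain ⟨a, ha, ha'⟩ := (mk_eq_mk_iff_exists hx' hx0).1 h1.symm
  obtain ⟨α, γ, -, h4⟩ := span_lim hV hw hv hb hli hδ (a := a) (c := fun j => a * c j) (x := x')
    (y := y) (fun l => by
      rw [ha' l, hx l, mul_add, Finset.mul_sum]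
      congr 1
      exact Finset.sum_congr rfl fun j _ => by ring) h3
  exact ⟨y, hy, α, γ, h2, h4⟩

/-- if the limit is the first point, the vectors themselves specialise -/
theorem lim_norm {V : ValuationSubring ℂ} {C : Fl} (hV : IsPl V C) {w v : Fin n → ℂ}
    (hw : ∀ l, w l ∈ C) (hv : ∀ l, v l ∈ C) {b : Fin r → Fin n → ℂ} (hb : ∀ j l, b j l ∈ C)
    (hli : LinearIndependent ℂ (Fin.cons w b : Fin (r + 1) → Fin n → ℂ)) {δ : ℂ}
    (hδ : Sp V C δ 0) {c : Fin r → ℂ} {x : Fin n → ℂ} (hx0 : x ≠ 0)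
    (hx : ∀ l, x l = w l + δ * v l + ∑ j, c j * b j l) (hw0 : w ≠ 0)
    (hxy : SpP V C (Projectivization.mk ℂ x hx0) (Projectivization.mk ℂ w hw0)) :
    ∀ l, Sp V C (x l) (w l) := by
  obtain ⟨x', y, hx', hy, h1, h2, h3⟩ := hxy
  obtain ⟨a, ha, ha'⟩ := (mk_eq_mk_iff_exists hx' hx0).1 h1.symm
  obtain ⟨e, he, he'⟩ := (mk_eq_mk_iff_exists hy hw0).1 h2.symm
  obtain ⟨α, γ, hα, h4⟩ := span_lim hV hw hv hb hli hδ (a := a) (c := fun j => a * c j)
    (x := x') (y := y) (fun l => by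
      rw [ha' l, hx l, mul_add, Finset.mul_sum]
      congr 1
      exact Finset.sum_congr rfl fun j _ => by ring) h3
  have hαe : α = e := by
    have h5 := Fintype.linearIndependent_iff.1 hli (Fin.cons (α - e) γ) (by
      rw [Fin.sum_univ_succ]
      funext l
      simp only [Fin.cons_zero, Fin.cons_succ, Pi.add_apply, Pi.smul_apply, smul_eq_mul,
        Finset.sum_apply, Pi.zero_apply]
      have h6 := h4 l
      rw [he' l] at h6
      linear_combination -h6) 0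
    rw [Fin.cons_zero] at h5
    exact sub_eq_zero.1 h5
  rw [hαe] at hα
  intro l
  have h5 := Sp.div hV (h3 l) hα he
  rw [ha' l, he' l, mul_div_cancel_left₀ _ ha, mul_div_cancel_left₀ _ he] at h5
  exact h5

theorem exists_z (hn : r + 2 < n) {d : Fin r → ℕ} {F : Fin r → MvPolynomial (Fin n) ℂ}
    (hF : ∀ i, (F i).IsHomogeneous (d i))
    (hsm : ∀ z : Fin n → ℂ, z ≠ 0 → (∀ i, aeval z (F i) = 0) →
      LinearIndependent ℂ fun (i : Fin r) (l : Fin n) => aeval z (pderiv l (F i)))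
    {K E₀ L : Fl} [Countable E₀] (hKL : K ≤ L) (hKE : K ≤ E₀) (hFK : ∀ i, Coef K (F i))
    {b₀ : Fin n → ℂ} {b : Fin r → Fin n → ℂ} (hb₀E : ∀ l, b₀ l ∈ E₀) (hbE : ∀ j l, b j l ∈ E₀)
    (hb₀ : AlgebraicIndependent L b₀)
    (hb : AlgebraicIndependent (adj L (Set.range b₀)) fun jl : Fin r × Fin n => b jl.1 jl.2)
    {q : PN n} (hq : q ∈ ciS F) (hqL : Over L q) :
    ∃ s t : Multiset (ciS F), IsMu E₀ K F ⟨q, hq⟩ s t := by
  classical
  have hb₀M : ∀ l, b₀ l ∈ adj L (Set.range b₀) := fun l => subset_adj _ _ ⟨l, rfl⟩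
  have hbL : AlgebraicIndependent L fun jl : Fin r × Fin n => b jl.1 jl.2 :=
    ai_mono (le_adj _ _) hb
  obtain ⟨z, hz, i₀, hzi, rfl⟩ := exists_nrm q
  have hzL : ∀ l, z l ∈ L := (over_mk hz hzi).1 hqL
  have hzF : ∀ i, aeval z (F i) = 0 := (mem_surf_mk hF hz).1 hq
  obtain ⟨E, hE⟩ : ∃ E : Fl, E = adjP E₀ (Projectivization.mk ℂ z hz) := ⟨_, rfl⟩
  have hE₀E : E₀ ≤ E := by rw [hE]; exact le_adjP _ _
  have hEc : Countable E := by rw [hE]; infer_instance
  have hKE' : K ≤ E := hKE.trans hE₀E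
  have hzE : ∀ l, z l ∈ E := by
    rw [hE, adjP_mk hz hzi]
    exact fun l => subset_adj _ _ ⟨l, rfl⟩
  have hbE' : ∀ j l, b j l ∈ E := fun j l => hE₀E (hbE j l)
  have hb₀E' : ∀ l, b₀ l ∈ E := fun l => hE₀E (hb₀E l)
  have hFE : ∀ i, Coef E (F i) := fun i => (hFK i).mono hKE'
  have hEC : E ≤ clo E := le_clo E
  have hFC : ∀ i, Coef (clo E) (F i) := fun i => (hFE i).mono hEC
  have hJ : (jacM F z b).det ≠ 0 :=
    jac_ne (fun i => (hFK i).mono hKL) hzL (hsm z hz hzF) hbL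
  obtain ⟨V, u, c, x, hV, hu0, huC, hxz, hxF, hx, hc⟩ := exists_branch (C := clo E) (clo_clo E)
    hFC (q := z) (b₀ := b₀) (b := b) (fun l => hEC (hzE l)) (fun l => hEC (hb₀E' l))
    (fun j l => hEC (hbE' j l)) hzF hJ
  have hx0 : x ≠ 0 := by
    intro h0
    have h1 := (hxz i₀).ne_zero hV (by rw [hzi]; exact one_ne_zero)
    rw [h0] at h1
    exact h1 rfl
  -- the family
  have hadj : adj (clo E) {u} ≤ clo (adj E {u}) :=
    adj_le (clo_mono (le_adj _ _)) ((subset_adj E {u}).trans (le_clo _))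
  have hcE : ∀ j, c j ∈ clo (adj E {u}) := fun j => by
    have h1 := clo_mono hadj (hc j)
    rwa [clo_clo] at h1
  have huE : u ∈ clo (adj E {u}) := le_clo _ (subset_adj _ _ rfl)
  have hEu : E ≤ clo (adj E {u}) := (le_adj _ _).trans (le_clo _)
  have hxE : ∀ l, x l ∈ clo (adj E {u}) := fun l => by
    rw [hx l]
    exact add_mem (add_mem (hEu (hzE l)) (mul_mem huE (hEu (sub_mem (hb₀E' l) (hzE l)))))
      (sum_mem fun j _ => mul_mem (hcE j) (hEu (hbE' j l)))
  obtain ⟨S, hSn, hS, hSσ⟩ := exists_orbit (M := adj E {u}) (p := Projectivization.mk ℂ x hx0)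
    ⟨x, hx0, hxE, rfl⟩
  have hxS : Projectivization.mk ℂ x hx0 ∈ S := (hS _).2 ⟨1, one_mem _, act_one _⟩
  have hform : ∀ p ∈ S, ∃ (y : Fin n → ℂ) (hy : y ≠ 0) (c' : Fin r → ℂ),
      p = Projectivization.mk ℂ y hy ∧ ∀ l, y l = z l + u * (b₀ l - z l) + ∑ j, c' j * b j l := by
    intro p hp
    obtain ⟨σ, hσ, rfl⟩ := (hS p).1 hp
    have hσE : ∀ y ∈ E, σ y = y := fun y hy => hσ y (le_adj _ _ hy)
    have hσu : σ u = u := hσ u (subset_adj _ _ rfl)
    refine ⟨fun l => σ (x l), map_ne_zero' σ hx0, fun j => σ (c j), act_mk σ x hx0 _,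
      fun l => ?_⟩
    beta_reduce
    rw [hx l, map_add, map_add, map_mul, map_sub, map_sum, hσE _ (hzE l), hσE _ (hb₀E' l), hσu]
    congr 1
    refine Finset.sum_congr rfl fun j _ => ?_
    rw [map_mul, hσE _ (hbE' j l)]
  have hSF : ∀ p ∈ S, p ∈ ciS F := by
    intro p hp
    obtain ⟨σ, hσ, rfl⟩ := (hS p).1 hp
    exact (act_mem_surf hF (fun i => (hFE i).mono (le_adj _ _)) hσ).2 ((mem_surf_mk hF hx0).2 hxF)
  have hSo : ∀ p ∈ S, Over (clo (adj E {u})) p := by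
    intro p hp
    obtain ⟨σ, hσ, rfl⟩ := (hS p).1 hp
    exact (over_clo_act hσ).2 ⟨x, hx0, hxE, rfl⟩
  have hfam : IsFam E u S := ⟨hSo, hSσ⟩
  -- the limits
  have hlim : ∀ (V' : ValuationSubring ℂ) (e : ℂ), IsPl V' (clo E) → Sp V' (clo E) u e →
      ∃ f : PN n → PN n, ∀ p ∈ S, SpP V' (clo E) p (f p) := by
    intro V' e hV' he
    have h1 : ∀ p, ∃ p', p ∈ S → SpP V' (clo E) p p' := by
      intro p
      by_cases hp : p ∈ S
      · obtain ⟨p', hp'⟩ := exists_spP (clo_clo E) hV' huC he ((hSo p hp).mono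
          (clo_mono (adj_le ((le_clo E).trans (le_adj _ _)) (subset_adj _ _))))
        exact ⟨p', fun _ => hp'⟩
      · exact ⟨p, fun h => absurd h hp⟩
    choose f hf using h1
    exact ⟨f, hf⟩
  obtain ⟨V₁, hV₁, hu1⟩ := exists_place (clo_clo E) huC (clo E).one_mem
  obtain ⟨f, hf⟩ := hlim V 0 hV hu0
  obtain ⟨g, hg⟩ := hlim V₁ 1 hV₁ hu1
  have hfσ : ∀ σ ∈ VGS.Fix E, (S.map f).map (act σ) = S.map f := fun σ hσ =>
    stable_ms huC hfam E.zero_mem hV hu0 hf hσ
  have hgσ : ∀ σ ∈ VGS.Fix E, (S.map g).map (act σ) = S.map g := fun σ hσ =>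
    stable_ms huC hfam E.one_mem hV₁ hu1 hg hσ
  have hfx : f (Projectivization.mk ℂ x hx0) = Projectivization.mk ℂ z hz :=
    (hf _ hxS).unique hV ⟨x, z, hx0, hz, rfl, rfl, hxz⟩
  -- only the given point of the family specialises to `q`
  have huniq : ∀ p ∈ S, f p = Projectivization.mk ℂ z hz → p = Projectivization.mk ℂ x hx0 := by
    intro p hp hpf
    obtain ⟨y, hy, c', hpy, hyl⟩ := hform p hp
    have h1 := hf p hp
    rw [hpf, hpy] at h1
    have h2 := lim_norm hV (w := z) (v := fun l => b₀ l - z l) (b := b)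
      (fun l => hEC (hzE l)) (fun l => hEC (sub_mem (hb₀E' l) (hzE l)))
      (fun j l => hEC (hbE' j l)) (li_cons (by omega) hzL hz hbL) hu0 hy hyl hz h1
    have h3 : ∀ i, aeval y (F i) = 0 := by
      have h4 := hSF p hp
      rw [hpy] at h4
      exact (mem_surf_mk hF hy).1 h4
    have h4 := branch_unique hV hFC (b := b) (fun j l => hEC (hbE' j l))
      (w := fun l => z l + u * (b₀ l - z l)) hx hyl hxz h2 hxF h3 hJ
    rw [hpy]
    congr 1
  -- the limits are generic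
  have hfgen : ∀ p ∈ S, f p ≠ Projectivization.mk ℂ z hz → f p ∈ Gen K F := by
    intro p hp hne
    obtain ⟨y, hy, c', hpy, hyl⟩ := hform p hp
    have h1 := hf p hp
    rw [hpy] at h1
    obtain ⟨y', hy', α, γ, h2, h3⟩ := lim_span hV (w := z) (v := fun l => b₀ l - z l) (b := b)
      (fun l => hEC (hzE l)) (fun l => hEC (sub_mem (hb₀E' l) (hzE l)))
      (fun j l => hEC (hbE' j l)) (li_cons (by omega) hzL hz hbL) hu0 hy hyl h1
    have h4 : f p ∈ ciS F := SpP.mem_surf hV hF hFC (hf p hp) (hSF p hp)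
    have h5 : ∃ j, γ j ≠ 0 := by
      by_contra h6
      push Not at h6
      have h7 : ∀ l, y' l = α * z l := by
        intro l
        rw [h3 l, Finset.sum_eq_zero, add_zero]
        intro j _
        rw [h6 j, zero_mul]
      apply hne
      rw [hpy, h2]
      exact mk_eq_mk_of_mul hy' hz h7
    rw [hpy] at h4 ⊢
    rw [h2] at h4 ⊢
    exact gen_of_comb hn hKL hzL hbL hy' h4 h3 h5
  have hggen : ∀ p ∈ S, g p ∈ Gen K F := by
    intro p hp
    obtain ⟨y, hy, c', hpy, hyl⟩ := hform p hp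
    have h1 := hg p hp
    rw [hpy] at h1
    have hb₀0 : b₀ ≠ 0 := by
      intro h0
      have h9 := hb₀.ne_zero ⟨0, by omega⟩
      exact h9 (congrFun h0 _)
    have hu' : Sp V₁ (clo E) (u - 1) 0 := by
      have h9 := Sp.sub hV₁ hu1 (Sp.const hV₁ (clo E).one_mem)
      rwa [sub_self] at h9
    obtain ⟨y', hy', α, γ, h2, h3⟩ := lim_span hV₁ (w := b₀) (v := fun l => b₀ l - z l) (b := b)
      (fun l => hEC (hb₀E' l)) (fun l => hEC (sub_mem (hb₀E' l) (hzE l)))
      (fun j l => hEC (hbE' j l)) (li_cons (by omega) hb₀M hb₀0 hb) hu' hy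
      (fun l => by rw [hyl l]; ring) h1
    have h4 : g p ∈ ciS F := SpP.mem_surf hV₁ hF hFC (hg p hp) (hSF p hp)
    rw [hpy] at h4 ⊢
    rw [h2] at h4 ⊢
    by_cases h5 : ∃ j, γ j ≠ 0
    · exact gen_of_comb hn (hKL.trans (le_adj _ _)) hb₀M hb hy' h4 h3 h5
    · push Not at h5
      have h7 : ∀ l, y' l = α * b₀ l := by
        intro l
        rw [h3 l, Finset.sum_eq_zero, add_zero]
        intro j _
        rw [h5 j, zero_mul]
      exact gen_of_mul (by omega) hKL hb₀ hy' h4 h7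
  -- the multisets
  have hqfix : ∀ σ ∈ VGS.Fix E, act σ (Projectivization.mk ℂ z hz) = Projectivization.mk ℂ z hz :=
    fun σ hσ => by
      rw [hE] at hσ
      exact (mem_Fix_adjP.1 hσ).2
  obtain ⟨R, hR⟩ := Multiset.exists_cons_of_mem hxS
  have hRS : ∀ p ∈ R, p ∈ S := fun p hp => by
    rw [hR]
    exact Multiset.mem_cons_of_mem hp
  have hRx : ∀ p ∈ R, p ≠ Projectivization.mk ℂ x hx0 := by
    intro p hp h
    rw [hR, Multiset.nodup_cons, ← h] at hSn
    exact hSn.1 hp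
  have hRgen : ∀ p ∈ R.map f, p ∈ Gen K F := by
    intro p hp
    obtain ⟨p', hp', rfl⟩ := Multiset.mem_map.1 hp
    exact hfgen p' (hRS p' hp') fun h => hRx p' hp' (huniq p' (hRS p' hp') h)
  have hSgen : ∀ p ∈ S.map g, p ∈ Gen K F := by
    intro p hp
    obtain ⟨p', hp', rfl⟩ := Multiset.mem_map.1 hp
    exact hggen p' hp'
  have hSf : S.map f = Projectivization.mk ℂ z hz ::ₘ R.map f := by
    rw [hR, Multiset.map_cons, hfx]
  obtain ⟨s, hs⟩ : ∃ s : Multiset (ciS F), s.map Subtype.val = R.map f := by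
    have h1 : ∀ p ∈ R.map f, p ∈ ciS F := fun p hp => (hRgen p hp).1
    lift R.map f to Multiset (ciS F) using h1 with s
    exact ⟨s, rfl⟩
  obtain ⟨t, ht⟩ : ∃ t : Multiset (ciS F), t.map Subtype.val = S.map g := by
    have h1 : ∀ p ∈ S.map g, p ∈ ciS F := fun p hp => (hSgen p hp).1
    lift S.map g to Multiset (ciS F) using h1 with t
    exact ⟨t, rfl⟩
  refine ⟨s, t, fun σ hσ => ?_, fun p hp => ?_, fun p hp => ?_, ?_⟩
  · have hσ' : σ ∈ VGS.Fix E := by
      rw [hE]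
      exact hσ
    refine ⟨?_, by rw [ht, hgσ σ hσ']⟩
    rw [hs]
    have h1 := hfσ σ hσ'
    rw [hSf, Multiset.map_cons, hqfix σ hσ'] at h1
    exact (Multiset.cons_inj_right _).1 h1
  · apply hRgen
    rw [← hs]
    exact Multiset.mem_map_of_mem _ hp
  · apply hSgen
    rw [← ht]
    exact Multiset.mem_map_of_mem _ hp
  · exact link_msZ huC hfam hF hFE hSF hV hV₁ hu0 hu1 hf hg
      (by rw [Multiset.map_cons, hs, hSf]) ht

end Pool.Agent.VCI
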