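import Pool.Agent.VCI.MumDefs
import Pool.Agent.VGS.MumF

/-! Complete intersections: specialisation of a cycle at a place. (`VE` and its lemmas are those of
`Pool.Agent.VGS.MumF`.) -/

set_option autoImplicit false

open scoped LinearAlgebra.Projectivization
open MvPolynomial

namespace Pool.Agent.VCI

open Pool.Agent.LowDeg (Place)
open Pool.Agent.VGS (Fl Coef VE)

variable {n r : ℕ} {C₀ : Fl} {E : IntermediateField C₀ ℂ}

theorem exists_spE (P : Place C₀ E) {p : PN n} (hp : OvE E p) : ∃ q, SpE P p q := by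
  classical
  obtain ⟨z, hz, rfl⟩ := hp
  have hne : (Finset.univ.filter fun i => z i ≠ 0).Nonempty := by
    obtain ⟨i, hi⟩ := Function.ne_iff.1 hz
    exact ⟨i, by
      rw [Finset.mem_filter]
      exact ⟨Finset.mem_univ _, fun h0 => hi (by simp [h0])⟩⟩
  obtain ⟨i, hi, hmin⟩ := Finset.exists_min_image _ (fun i => P.ord (z i)) hne
  have hi0 : z i ≠ 0 := (Finset.mem_filter.1 hi).2
  have hint : ∀ j, P.Int (z j / z i) := by
    intro j
    by_cases hj : z j = 0
    · rw [hj, zero_div]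
      exact Place.int_zero P
    · right
      rw [P.ord_div hj hi0]
      have := hmin j (Finset.mem_filter.2 ⟨Finset.mem_univ _, hj⟩)
      omega
  choose w hw using fun j => (hint j).exists_isVal
  have hwi : w i = 1 := by
    refine (hw i).unique ?_
    rw [div_self hi0]
    exact Place.isVal_one
  have hw0 : (fun j => (w j : ℂ)) ≠ 0 := by
    intro h0
    have := congrFun h0 i
    rw [hwi] at this
    simp at this
  have hz0 : (fun j => ((z j / z i : E) : ℂ)) ≠ 0 := by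
    intro h0
    have := congrFun h0 i
    rw [div_self hi0] at this
    simp at this
  refine ⟨Projectivization.mk ℂ _ hw0, fun j => z j / z i, w, hz0, hw0, ?_, rfl, hw⟩
  rw [Projectivization.mk_eq_mk_iff']
  refine ⟨(z i : ℂ), ?_⟩
  funext j
  have h1 : (z i : ℂ) ≠ 0 := fun h0 => hi0 (Subtype.ext h0)
  change (z i : ℂ) * ((z j / z i : E) : ℂ) = z j
  have h2 : ((z j / z i : E) : ℂ) = (z j : ℂ) / (z i : ℂ) := rfl
  rw [h2]
  field_simp

theorem SpE.mem_surf {P : Place C₀ E} {p q : PN n} (h : SpE P p q)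
    {F : Fin r → MvPolynomial (Fin n) ℂ} {d : Fin r → ℕ} (hF : ∀ l, (F l).IsHomogeneous (d l))
    (hFC : ∀ l, Coef C₀ (F l)) (hp : p ∈ ciS F) : q ∈ ciS F := by
  obtain ⟨z, w, hz, hw, rfl, rfl, h⟩ := h
  rw [mem_surf_mk hF] at hp ⊢
  intro l
  have h1 : VE P (MvPolynomial.aeval (fun i => (z i : ℂ)) (F l))
      (MvPolynomial.aeval (fun i => (w i : ℂ)) (F l)) :=
    VE.aeval (hFC l) fun i => ⟨z i, w i, rfl, rfl, h i⟩
  rw [hp l] at h1
  exact h1.unique (VE.const P C₀.zero_mem)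

/-- all coefficients of `G` have the coefficients of `H` as values -/
def VM (P : Place C₀ E) (G H : MvPolynomial (Fin n) ℂ) : Prop :=
  ∀ m, VE P (coeff m G) (coeff m H)

theorem VM.mul {P : Place C₀ E} {G H G' H' : MvPolynomial (Fin n) ℂ} (h : VM P G H)
    (h' : VM P G' H') : VM P (G * G') (H * H') := by
  classical
  intro m
  rw [coeff_mul, coeff_mul]
  exact VE.sum _ fun i _ => (h _).mul (h' _)

theorem VM.const {P : Place C₀ E} {G : MvPolynomial (Fin n) ℂ} (hG : Coef C₀ G) : VM P G G :=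
  fun m => VE.const P (hG m)

theorem VM.linForm {P : Place C₀ E} {z w : Fin n → ℂ} (h : ∀ i, VE P (z i) (w i)) :
    VM P (Chow0.linForm z) (Chow0.linForm w) := by
  classical
  intro m
  rw [ch_coeff_linForm, ch_coeff_linForm]
  refine VE.sum _ fun i _ => (h i).mul (VE.const P ?_)
  rw [coeff_X]
  split_ifs
  · exact C₀.one_mem
  · exact C₀.zero_mem

theorem VM.prod {P : Place C₀ E} (s : Multiset (PN n)) (z w : PN n → Fin n → ℂ)
    (h : ∀ p ∈ s, ∀ i, VE P (z p i) (w p i)) :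
    VM P (s.map fun p => Chow0.linForm (z p)).prod (s.map fun p => Chow0.linForm (w p)).prod := by
  classical
  induction s using Multiset.induction_on with
  | empty =>
    intro m
    rw [Multiset.map_zero, Multiset.map_zero, Multiset.prod_zero]
    refine VE.const P ?_
    rw [coeff_one]
    split_ifs
    · exact C₀.one_mem
    · exact C₀.zero_mem
  | cons p s ih =>
    rw [Multiset.map_cons, Multiset.map_cons, Multiset.prod_cons, Multiset.prod_cons]
    exact (VM.linForm (h p (Multiset.mem_cons_self p s))).mul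
      (ih fun q hq => h q (Multiset.mem_cons_of_mem hq))

theorem VM.eval {P : Place C₀ E} {t t₀ : ℂ} (ht : VE P t t₀)
    (Φ : Polynomial (MvPolynomial (Fin n) ℂ)) (hΦ : ∀ i, Coef C₀ (Φ.coeff i)) :
    VM P (Φ.eval (C t)) (Φ.eval (C t₀)) := by
  intro m
  rw [Polynomial.eval_eq_sum_range, Polynomial.eval_eq_sum_range, coeff_sum, coeff_sum]
  refine VE.sum _ fun i _ => ?_
  rw [← C_pow, ← C_pow, mul_comm, mul_comm (Φ.coeff i), coeff_C_mul, coeff_C_mul]
  exact (ht.pow i).mul (VE.const P (hΦ i m))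

/-- the limit of a cycle in a family -/
theorem mum_limit (P : Place C₀ E) {t : ℂ} (ht : t ∈ E) {t₀ : ℂ} (ht₀ : t₀ ∈ C₀)
    (hP : P.Sm ((⟨t, ht⟩ : E) - algebraMap C₀ E ⟨t₀, ht₀⟩))
    (Φ : Polynomial (MvPolynomial (Fin n) ℂ)) (hΦ : ∀ i, Coef C₀ (Φ.coeff i))
    (s : Multiset (PN n)) (hs : ∀ p ∈ s, OvE E p) (h : IsCh (Φ.eval (C t)) s)
    (h0 : Φ.eval (C t₀) ≠ 0) (g : PN n → PN n) (hg : ∀ p ∈ s, SpE P p (g p)) :
    IsCh (Φ.eval (C t₀)) (s.map g) := by
  classical
  have hex : ∀ p : PN n, ∃ z w : Fin n → ℂ, p ∈ s →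
      (∃ hz : z ≠ 0, p = Projectivization.mk ℂ z hz) ∧
      (∃ hw : w ≠ 0, g p = Projectivization.mk ℂ w hw) ∧ ∀ i, VE P (z i) (w i) := by
    intro p
    by_cases hp : p ∈ s
    · obtain ⟨z, w, hz, hw, h1, h2, h3⟩ := hg p hp
      exact ⟨fun i => z i, fun i => w i, fun _ =>
        ⟨⟨hz, h1⟩, ⟨hw, h2⟩, fun i => ⟨z i, w i, rfl, rfl, h3 i⟩⟩⟩
    · exact ⟨0, 0, fun h => absurd h hp⟩
  choose z w hzw using hex
  have hA : IsCh (s.map fun p => Chow0.linForm (z p)).prod (s.map fun p => p) :=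
    isCh_prod s z (fun p => p) fun p hp => (hzw p hp).1
  have hB : IsCh (s.map fun p => Chow0.linForm (w p)).prod (s.map g) :=
    isCh_prod s w g fun p hp => (hzw p hp).2.1
  rw [Multiset.map_id'] at hA
  obtain ⟨A, hAA⟩ : ∃ A, A = (s.map fun p => Chow0.linForm (z p)).prod := ⟨_, rfl⟩
  obtain ⟨B, hBB⟩ : ∃ B, B = (s.map fun p => Chow0.linForm (w p)).prod := ⟨_, rfl⟩
  have hAB : VM P A B := by
    rw [hAA, hBB]
    exact VM.prod s z w fun p hp => (hzw p hp).2.2
  rw [← hAA] at hA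
  rw [← hBB] at hB
  obtain ⟨a, ha, hΦA⟩ := h.ratio hA
  have htt : VE P t t₀ := ⟨⟨t, ht⟩, ⟨t₀, ht₀⟩, rfl, rfl, hP⟩
  have hev := VM.eval htt Φ hΦ
  obtain ⟨m, hm⟩ : ∃ m, coeff m B ≠ 0 := by
    by_contra hc
    push Not at hc
    exact hB.ne_zero (MvPolynomial.ext _ _ fun m => by rw [hc m, coeff_zero])
  have h1 : VE P a (coeff m (Φ.eval (C t₀)) / coeff m B) := by
    have h2 : a = coeff m (Φ.eval (C t)) / coeff m A := by
      rw [hΦA, coeff_C_mul, mul_div_cancel_right₀]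
      exact (hAB m).ne_zero hm
    rw [h2]
    exact (hev m).div (hAB m) hm
  have h3 : Φ.eval (C t₀) = C (coeff m (Φ.eval (C t₀)) / coeff m B) * B := by
    refine MvPolynomial.ext _ _ fun n => ?_
    rw [coeff_C_mul]
    refine (hev n).unique ?_
    rw [hΦA, coeff_C_mul]
    exact h1.mul (hAB n)
  rw [h3]
  refine hB.C_mul fun h4 => ?_
  rw [h4, C_0, zero_mul] at h3
  exact h0 h3

end Pool.Agent.VCI
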