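import Pool.Agent.VCI.Frame
import Pool.Agent.VCI.Tau
import Pool.Agent.VCI.TauL
import Pool.Agent.VCI.MuA

/-! X is not a cone (doc S/MP_31564d_pres, (N)). -/

set_option autoImplicit false

open MvPolynomial

namespace Pool.Agent.VCI

open Pool.Agent.VGS

/-! ### coefficients, the count -/

section general

variable {n r : ℕ} {d : Fin r → ℕ}

theorem nc_aeval_col (G : MvPolynomial (Fin n) ℂ) (M : Matrix (Fin n) (Fin n) ℂ) (a : Fin n) :
    aeval (Pi.single a 1 : Fin n → ℂ) (frG G M) = aeval (fun i => M i a) G := by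
  rw [aeval_frG]
  congr 2
  funext i
  rw [Matrix.mulVec_single_one]
  rfl

/-- the coefficient of `z_a ^ (e - 1) z_b` of `G (M z)` -/
theorem nc_coeff {G : MvPolynomial (Fin n) ℂ} {e : ℕ} (hG : G.IsHomogeneous e)
    (M : Matrix (Fin n) (Fin n) ℂ) {a b : Fin n} (hab : a ≠ b) :
    coeff (Finsupp.single a (e - 1) + Finsupp.single b 1) (frG G M) =
      dFc G (fun i => M i a) (fun i => M i b) := by
  have h1 : coeff (Finsupp.single a (e - 1)) (pderiv b (frG G M)) =
      coeff (Finsupp.single a (e - 1) + Finsupp.single b 1) (frG G M) := by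
    rw [coeff_pderiv, Finsupp.single_eq_of_ne hab.symm]
    simp
  rw [← h1, ← FrameA.aeval_single ((frG_hom hG M).pderiv) a]
  have h2 : pderiv b (frG G M) = ∑ l, frG (pderiv l G) M * C (M l b) := by
    unfold frG
    rw [mu_chain]
    refine Finset.sum_congr rfl fun l _ => ?_
    congr 1
    rw [map_sum, Finset.sum_eq_single b]
    · rw [Derivation.leibniz, pderiv_C, smul_zero, add_zero, pderiv_X_self, smul_eq_mul, mul_one]
    · intro j _ hj
      rw [Derivation.leibniz, pderiv_C, smul_zero, add_zero, pderiv_X_of_ne hj, smul_zero]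
    · intro h
      exact absurd (Finset.mem_univ b) h
  rw [h2, map_sum, dFc]
  refine Finset.sum_congr rfl fun l _ => ?_
  rw [map_mul, nc_aeval_col, aeval_C, mul_comm]
  rfl

/-- the count: conditions on the coefficients of the `F i (M z)` against independent elements of
`K(M)`, `K = k (coefficients)` -/
theorem nc_count {F : Fin r → MvPolynomial (Fin n) ℂ} (hF : ∀ i, (F i).IsHomogeneous (d i))
    (k : Fl) (hind : AlgebraicIndependent k (fun m : MonA n d => coeff m.1.2 (F m.1.1)))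
    {M : Matrix (Fin n) (Fin n) ℂ} (hM : M.det ≠ 0) {κ : Type} [Finite κ] (g : κ → MonA n d)
    (hg : Function.Injective g) (h0 : ∀ x, coeff (g x).1.2 (frG (F (g x).1.1) M) = 0)
    {ι : Type} [Finite ι] {y : ι → ℂ} (hy : AlgebraicIndependent (cof k F) y)
    (hyM : ∀ i, y i ∈ clo (adj (cof k F) (Set.range fun ij : Fin n × Fin n => M ij.1 ij.2))) :
    Nat.card ι + Nat.card κ ≤ n * n := by
  classical
  have hy' := hy
  rw [cof_eq_monA k hF] at hy'
  have h1 := ai_sum.2 ⟨hind, hy'⟩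
  let Y : (Fin n × Fin n) ⊕ {m : MonA n d // m ∉ Set.range g} → ℂ :=
    Sum.elim (fun ij => M ij.1 ij.2) (fun m => coeff m.1.1.2 (frG (F m.1.1.1) M))
  obtain ⟨E, hE⟩ : ∃ E : Fl, E = adj k (Set.range Y) := ⟨_, rfl⟩
  have hYE : ∀ x, Y x ∈ E := fun x => by
    rw [hE]
    exact subset_adj _ _ ⟨x, rfl⟩
  have hME : ∀ i j, M i j ∈ E := fun i j => hYE (Sum.inl (i, j))
  have hGE : ∀ i, Coef E (frG (F i) M) := by
    intro i m
    by_cases h4 : m.degree = d i
    · by_cases h5 : (⟨(i, m), h4⟩ : MonA n d) ∈ Set.range g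
      · obtain ⟨x, hx⟩ := h5
        have h6 := h0 x
        rw [hx] at h6
        change coeff m (frG (F i) M) = 0 at h6
        rw [h6]
        exact zero_mem _
      · exact hYE (Sum.inr ⟨⟨(i, m), h4⟩, h5⟩)
    · rw [(frG_hom (hF i) M).coeff_eq_zero h4]
      exact zero_mem _
  have hkE : k ≤ E := by
    rw [hE]
    exact le_adj _ _
  have hFE : ∀ i, Coef E (F i) := fun i => FrameA.coef_of_frG hM hME (hGE i)
  have hcE : cof k F ≤ E := by
    refine adj_le hkE ?_
    rintro _ ⟨im, rfl⟩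
    exact hFE im.1 im.2
  have hyE : ∀ i, y i ∈ clo E := fun i => by
    refine clo_mono (adj_le hcE ?_) (hyM i)
    rintro _ ⟨ij, rfl⟩
    exact hME _ _
  have h2 := ai_le_card h1 (y := Y) (by
    rw [← hE]
    rintro (m | i)
    · exact le_clo _ (hFE m.1.1 m.1.2)
    · exact hyE i)
  have h3 : Nat.card {m : MonA n d // m ∉ Set.range g} + Nat.card κ = Nat.card (MonA n d) := by
    have h4 : Nat.card (Set.range g) = Nat.card κ := Nat.card_range_of_injective hg
    rw [← h4, ← Nat.card_sum]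
    exact Nat.card_congr ((Equiv.sumComm _ _).trans (Equiv.Set.sumCompl (Set.range g)))
  simp only [Nat.card_sum, Nat.card_prod, Nat.card_fin] at h2
  omega

/-! ### a generic matrix with given columns -/

/-- the matrix with generic columns and multiples of given columns -/
noncomputable def ncM {ι : Type} {q : ℕ} (e : ι ⊕ Fin q ≃ Fin n) (u : Fin q → Fin n → ℂ)
    (w : (ι × Fin n) ⊕ Fin q → ℂ) : Matrix (Fin n) (Fin n) ℂ :=
  Matrix.of fun i j => Sum.elim (fun a => w (Sum.inl (a, i))) (fun b => w (Sum.inr b) * u b i)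
    (e.symm j)

theorem ncM_inl {ι : Type} {q : ℕ} (e : ι ⊕ Fin q ≃ Fin n) (u : Fin q → Fin n → ℂ)
    (w : (ι × Fin n) ⊕ Fin q → ℂ) (a : ι) (i : Fin n) :
    ncM e u w i (e (Sum.inl a)) = w (Sum.inl (a, i)) := by
  simp [ncM]

theorem ncM_inr {ι : Type} {q : ℕ} (e : ι ⊕ Fin q ≃ Fin n) (u : Fin q → Fin n → ℂ)
    (w : (ι × Fin n) ⊕ Fin q → ℂ) (b : Fin q) (i : Fin n) :
    ncM e u w i (e (Sum.inr b)) = w (Sum.inr b) * u b i := by
  simp [ncM]

theorem nc_det {L : Fl} {ι : Type} [Fintype ι] {q : ℕ} (e : ι ⊕ Fin q ≃ Fin n)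
    {u : Fin q → Fin n → ℂ} (hu : LinearIndependent ℂ u) (huL : ∀ b i, u b i ∈ L)
    {w : (ι × Fin n) ⊕ Fin q → ℂ} (hw : AlgebraicIndependent L w) : (ncM e u w).det ≠ 0 := by
  classical
  have hcard : Fintype.card (Fin q) + Fintype.card ι = n := by
    have h1 := Fintype.card_congr e
    rw [Fintype.card_sum, Fintype.card_fin n] at h1
    omega
  obtain ⟨m, hm⟩ := TauL.exists_ext_aux (t := Fintype.card ι) hcard hu
  let f : ι ≃ Fin (Fintype.card ι) := Fintype.equivFin ι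
  let w₀ : (ι × Fin n) ⊕ Fin q → ℂ := Sum.elim (fun ai => m (f ai.1) ai.2) fun _ => 1
  have h0 : (ncM e u w₀).det ≠ 0 := by
    rw [← isUnit_iff_ne_zero, ← Matrix.isUnit_iff_isUnit_det,
      ← Matrix.linearIndependent_cols_iff_isUnit]
    have h2 := hm.comp (fun j => (Sum.map f id (e.symm j)).swap)
      (Sum.swap_leftInverse.injective.comp ((Function.Injective.sumMap f.injective
        Function.injective_id).comp e.symm.injective))
    convert h2 using 1
    funext j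
    obtain ⟨x, rfl⟩ := e.surjective j
    rw [Function.comp_apply, Equiv.symm_apply_apply]
    funext i
    change ncM e u w₀ i (e x) = _
    rcases x with a | b
    · rw [ncM_inl]
      rfl
    · rw [ncM_inr]
      simp [w₀]
  let A : Matrix (Fin n) (Fin n) (MvPolynomial ((ι × Fin n) ⊕ Fin q) L) :=
    Matrix.of fun i j => Sum.elim (fun a => X (Sum.inl (a, i)))
      (fun b => X (Sum.inr b) * C (⟨u b i, huL b i⟩ : L)) (e.symm j)
  have hA : ∀ w' : (ι × Fin n) ⊕ Fin q → ℂ, aeval w' A.det = (ncM e u w').det := by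
    intro w'
    rw [AlgHom.map_det]
    congr 1
    ext i j
    obtain ⟨x, rfl⟩ := e.surjective j
    rw [AlgHom.mapMatrix_apply, Matrix.map_apply]
    rcases x with a | b
    · rw [ncM_inl]
      simp [A]
    · rw [ncM_inr]
      simp only [A, Matrix.of_apply, Equiv.symm_apply_apply, Sum.elim_inr, map_mul, aeval_X,
        aeval_C]
      rfl
  intro h1
  have h2 : A.det = 0 := hw (by rw [hA, h1, map_zero])
  rw [← hA, h2, map_zero] at h0
  exact h0 rfl

end general


variable {r : ℕ} {d : Fin r → ℕ} {F : Fin r → MvPolynomial (Fin (r + 3)) ℂ}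

/-! ### moving the generic point -/

theorem nc_dFc_fix {n : ℕ} {E : Fl} {G : MvPolynomial (Fin n) ℂ} (hG : Coef E G) {σ : ℂ ≃+* ℂ}
    (hσ : σ ∈ VGS.Fix E) (z v : Fin n → ℂ) :
    dFc G (fun i => σ (z i)) (fun i => σ (v i)) = σ (dFc G z v) := by
  rw [dFc, dFc, map_sum]
  refine Finset.sum_congr rfl fun i _ => ?_
  rw [map_mul, aeval_fix (coef_pderiv hG i) hσ]

theorem nc_move {E L : Fl} [Countable E] [Countable L] (hEL : E ≤ L)
    (hFE : ∀ i, Coef E (F i)) {x w : Fin (r + 3) → ℂ} (hx : ∀ l, x l ∈ E)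
    (hwF : ∀ i, aeval w (F i) = 0) {i j l : Fin (r + 3)} (hwi : w i = 1)
    (hw : AlgebraicIndependent E ![w j, w l]) (h0 : ∀ s, dFc (F s) w x = 0) :
    ∃ w' : Fin (r + 3) → ℂ, (∀ i, aeval w' (F i) = 0) ∧ w' i = 1 ∧
      AlgebraicIndependent L ![w' j, w' l] ∧ ∀ s, dFc (F s) w' x = 0 := by
  obtain ⟨y, hy⟩ := exists_algInd L 2
  obtain ⟨σ, hσ, h⟩ := fs_exists_fix_ai E hw (ai_mono hEL hy)
  refine ⟨fun a => σ (w a), fun a => ?_, ?_, ?_, fun s => ?_⟩
  · rw [aeval_fix (hFE a) hσ, hwF, map_zero]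
  · change σ (w i) = 1
    rw [hwi, map_one]
  · have h1 : ![σ (w j), σ (w l)] = y := by
      funext a
      fin_cases a
      · exact h 0
      · exact h 1
    rw [h1]
    exact hy
  · have h1 : x = fun a => σ (x a) := by
      funext a
      rw [hσ _ (hx a)]
    rw [h1, nc_dFc_fix (hFE s) hσ, h0, map_zero]

/-- scaling of the derivative -/
theorem nc_dFc_scale {n e : ℕ} {G : MvPolynomial (Fin n) ℂ} (hG : G.IsHomogeneous e)
    {z v z' v' : Fin n → ℂ} {α β : ℂ} (hz : ∀ i, z' i = α * z i) (hv : ∀ i, v' i = β * v i) :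
    dFc G z' v' = α ^ (e - 1) * β * dFc G z v := by
  rw [dFc, dFc, Finset.mul_sum]
  refine Finset.sum_congr rfl fun i _ => ?_
  rw [hv, aeval_scale hG.pderiv hz]
  ring

/-- Euler's formula -/
theorem nc_euler {n e : ℕ} {G : MvPolynomial (Fin n) ℂ} (hG : G.IsHomogeneous e)
    {z : Fin n → ℂ} (hz : aeval z G = 0) : dFc G z z = 0 := by
  have h1 := hG.sum_X_mul_pderiv
  have h2 := congrArg (aeval z) h1
  rw [map_sum] at h2
  simp only [map_mul, aeval_X] at h2
  rw [dFc, h2, map_nsmul, hz, smul_zero]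

/-- two independent generic points: some derivative of `F` at the first in the direction of the
second is not zero -/
theorem nc_pair (hd : ∀ i, 2 ≤ d i) (hF : ∀ i, (F i).IsHomogeneous (d i)) (k : Fl)
    [Countable k]
    (hind : AlgebraicIndependent k (fun m : MonA (r + 3) d => coeff m.1.2 (F m.1.1)))
    {z y : Fin (r + 3) → ℂ} (hz : ∀ i, aeval z (F i) = 0) (hy : ∀ i, aeval y (F i) = 0)
    {i₀ i₁ : Fin (r + 3)} (hz1 : z i₀ = 1) (hy1 : y i₁ = 1) {j₀ l₀ j₁ l₁ : Fin (r + 3)}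
    (h2 : AlgebraicIndependent (cof k F) ![z j₀, z l₀])
    (h3 : AlgebraicIndependent (adj (cof k F) (Set.range z)) ![y j₁, y l₁]) (s : Fin r) :
    dFc (F s) z y ≠ 0 := by
  rw [cof_eq_monA k hF] at h2 h3
  obtain ⟨M, ⟨μ, hμ, hM⟩, ⟨ν, hν, hN⟩, hA⟩ := exists_frameV k hF hd hind hz hy hz1 hy1 h2 h3
  intro h0
  have hpl : pen r ≠ lst r := pen_ne_lst r
  have h4 : coeff (Finsupp.single (lst r) (d s - 1) + Finsupp.single (pen r) 1) (frG (F s) M) =
      0 := by
    rw [nc_coeff (hF s) M hpl.symm, nc_dFc_scale (hF s) hM hN, h0, mul_zero]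
  have hd2 := hd s
  have hmem : (Finsupp.single (lst r) (d s - 1) + Finsupp.single (pen r) 1).degree = d s := by
    rw [map_add, Finsupp.degree_single, Finsupp.degree_single]
    omega
  have e1 : (Finsupp.single (lst r) (d s - 1) + Finsupp.single (pen r) 1 : Fin (r + 3) →₀ ℕ)
      (pen r) = 1 := by
    rw [Finsupp.add_apply, Finsupp.single_eq_of_ne hpl, Finsupp.single_eq_same]
  have h5 : (Finsupp.single (lst r) (d s - 1) + Finsupp.single (pen r) 1) ≠
      Finsupp.single (lst r) (d s) := by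
    intro h
    rw [h, Finsupp.single_eq_of_ne hpl] at e1
    omega
  have h6 : (Finsupp.single (lst r) (d s - 1) + Finsupp.single (pen r) 1) ≠
      Finsupp.single (pen r) (d s) := by
    intro h
    rw [h, Finsupp.single_eq_same] at e1
    omega
  exact hA.ne_zero (Sum.inr ⟨(s, _), hmem, h5, h6⟩) h4

/-- the surface does not contain the plane of `x` and two generic points -/
theorem nc_plane (hd : ∀ i, 2 ≤ d i) (hF : ∀ i, (F i).IsHomogeneous (d i)) (k : Fl)
    [Countable k]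
    (hind : AlgebraicIndependent k (fun m : MonA (r + 3) d => coeff m.1.2 (F m.1.1)))
    (hr : 0 < r) {L : Fl} (hFL : ∀ i, Coef L (F i)) {x z y w : Fin (r + 3) → ℂ}
    (hx : ∀ l, x l ∈ L) (hzL : ∀ l, z l ∈ L) (hyL : ∀ l, y l ∈ L)
    (hz : ∀ i, aeval z (F i) = 0) (hy : ∀ i, aeval y (F i) = 0) (hw : ∀ i, aeval w (F i) = 0)
    {i j l j' l' : Fin (r + 3)} (hz1 : z i = 1) (hy1 : y i = 1) (hw1 : w i = 1)
    (h2 : AlgebraicIndependent (cof k F) ![z j, z l])
    (h3 : AlgebraicIndependent (adj (cof k F) (Set.range z)) ![y j, y l])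
    (h4 : AlgebraicIndependent L ![w j', w l']) {c₀ c₁ c₂ : ℂ}
    (h : ∀ a, w a = c₀ * x a + c₁ * z a + c₂ * y a) : False := by
  have hc2 : c₂ = 1 - c₀ * x i - c₁ := by
    have h5 := h i
    rw [hw1, hz1, hy1] at h5
    linear_combination -h5
  have hcc : AlgebraicIndependent L ![c₀, c₁] := by
    refine ai_card h4 (y := ![c₀, c₁]) le_rfl ?_
    have key : ∀ a, w a ∈ clo (adj L (Set.range ![c₀, c₁])) := by
      intro a
      apply le_clo
      have hL : L ≤ adj L (Set.range ![c₀, c₁]) := le_adj _ _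
      have e0 : c₀ ∈ adj L (Set.range ![c₀, c₁]) := subset_adj _ _ ⟨0, rfl⟩
      have e1 : c₁ ∈ adj L (Set.range ![c₀, c₁]) := subset_adj _ _ ⟨1, rfl⟩
      rw [h a, hc2]
      exact add_mem (add_mem (mul_mem e0 (hL (hx a))) (mul_mem e1 (hL (hzL a))))
        (mul_mem (sub_mem (sub_mem (one_mem _) (mul_mem e0 (hL (hx i)))) e1) (hL (hyL a)))
    intro a
    fin_cases a
    · exact key _
    · exact key _
  let f : Fin (r + 3) → MvPolynomial (Fin 2) ℂ := fun a =>
    X 0 * C (x a) + X 1 * C (z a) + (1 - X 0 * C (x i) - X 1) * C (y a)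
  let f₀ : Fin (r + 3) → MvPolynomial (Fin 2) L := fun a =>
    X 0 * C ⟨x a, hx a⟩ + X 1 * C ⟨z a, hzL a⟩ + (1 - X 0 * C ⟨x i, hx i⟩ - X 1) * C ⟨y a, hyL a⟩
  have hf₀ : ∀ a, map (algebraMap L ℂ) (f₀ a) = f a := by
    intro a
    simp only [f₀, f, map_add, map_mul, map_sub, map_X, map_C, map_one]
    rfl
  have hcomp : ∀ (G : MvPolynomial (Fin (r + 3)) ℂ) (y : Fin 2 → ℂ),
      aeval y (aeval f G) = aeval (fun l => aeval y (f l)) G := by
    intro G y
    rw [← MvPolynomial.comp_aeval_apply]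
  have hfL : ∀ s, Coef L (aeval f (F s)) := by
    intro s
    obtain ⟨G₀, hG₀⟩ := coef_iff.1 (hFL s)
    refine coef_iff.2 ⟨aeval f₀ G₀, ?_⟩
    rw [← hG₀, MvPolynomial.map_aeval, aeval_def, eval₂_map, coe_eval₂Hom]
    congr 1
    · ext a
      simp
    · funext a
      exact hf₀ a
  have hfc : ∀ a, aeval ![c₀, c₁] (f a) = w a := by
    intro a
    simp only [f, map_add, map_mul, map_sub, aeval_X, aeval_C, map_one]
    rw [h a, hc2]
    rfl
  have hf0 : ∀ s, aeval f (F s) = 0 := by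
    intro s
    apply ai_iff.1 hcc _ (hfL s)
    rw [hcomp, funext hfc]
    exact hw s
  have hf1 : ∀ a, aeval ![(0 : ℂ), 1] (f a) = z a := by
    intro a
    simp only [f, map_add, map_mul, map_sub, aeval_X, aeval_C, map_one]
    simp
  have hfd : ∀ a, pderiv (1 : Fin 2) (f a) = C (z a) - C (y a) := by
    intro a
    have e0 : pderiv (1 : Fin 2) (X 0 : MvPolynomial (Fin 2) ℂ) = 0 :=
      pderiv_X_of_ne (by decide)
    simp only [f, map_add, map_sub, Derivation.leibniz, pderiv_X_self, pderiv_C, e0,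
      smul_eq_mul, Derivation.map_one_eq_zero]
    ring
  have s : Fin r := ⟨0, hr⟩
  have h7 : dFc (F s) z z - dFc (F s) z y = 0 := by
    have h8 := mu_chain f (F s) (1 : Fin 2)
    rw [hf0, map_zero] at h8
    have h9 := congrArg (aeval ![(0 : ℂ), 1]) h8
    rw [map_zero, map_sum] at h9
    rw [dFc, dFc, ← Finset.sum_sub_distrib, h9]
    refine Finset.sum_congr rfl fun a _ => ?_
    rw [map_mul, hcomp, funext hf1, hfd, map_sub, aeval_C, aeval_C]
    change z a * _ - y a * _ = _ * (z a - y a)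
    ring
  rw [nc_euler (hF s) (hz s), zero_sub, neg_eq_zero] at h7
  exact nc_pair hd hF k hind hz hy hz1 hy1 h2 h3 s h7

/-- a generic point is not on a line defined over the base field -/
theorem nc_line {n : ℕ} {L : Fl} {x z w : Fin n → ℂ} (hx : ∀ l, x l ∈ L) (hz : ∀ l, z l ∈ L)
    {i j l : Fin n} (hz1 : z i = 1) (hw1 : w i = 1) (hw : AlgebraicIndependent L ![w j, w l])
    {c₀ c₁ : ℂ} (h : ∀ a, w a = c₀ * x a + c₁ * z a) : False := by
  have hc1 : c₁ = 1 - c₀ * x i := by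
    have h5 := h i
    rw [hw1, hz1] at h5
    linear_combination -h5
  have h1 := ai_le_card hw (y := fun _ : Fin 1 => c₀) (by
    have key : ∀ a, w a ∈ clo (adj L (Set.range fun _ : Fin 1 => c₀)) := by
      intro a
      apply le_clo
      have hL : L ≤ adj L (Set.range fun _ : Fin 1 => c₀) := le_adj _ _
      have e0 : c₀ ∈ adj L (Set.range fun _ : Fin 1 => c₀) := subset_adj _ _ ⟨0, rfl⟩
      rw [h a, hc1]
      exact add_mem (mul_mem e0 (hL (hx a)))
        (mul_mem (sub_mem (one_mem _) (mul_mem e0 (hL (hx i)))) (hL (hz a)))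
    intro a
    fin_cases a
    · exact key _
    · exact key _)
  simp at h1

/-- a generic point is not defined over the base field -/
theorem nc_point {n : ℕ} {L : Fl} {x w : Fin n → ℂ} (hx : ∀ l, x l ∈ L) {i j l : Fin n}
    (hw1 : w i = 1) (hw : AlgebraicIndependent L ![w j, w l]) {c₀ : ℂ}
    (h : ∀ a, w a = c₀ * x a) : False := by
  have h1 : c₀ * x i = 1 := by rw [← h, hw1]
  have h2 : c₀ ∈ L := by
    rw [eq_inv_of_mul_eq_one_left h1]
    exact inv_mem (hx i)
  apply (ai_pair.1 hw).1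
  apply le_clo
  rw [h]
  exact mul_mem h2 (hx j)

/-- `x` and three independent generic points are linearly independent -/
theorem nc_linInd (hd : ∀ i, 2 ≤ d i) (hF : ∀ i, (F i).IsHomogeneous (d i)) (k : Fl)
    [Countable k]
    (hind : AlgebraicIndependent k (fun m : MonA (r + 3) d => coeff m.1.2 (F m.1.1)))
    (hr : 0 < r) {E L₁ L₂ : Fl} (hKE : cof k F ≤ E) {x w₁ w₂ w₃ : Fin (r + 3) → ℂ}
    (hL₁ : L₁ = adj E (Set.range w₁)) (hL₂ : L₂ = adj L₁ (Set.range w₂)) (hx : ∀ l, x l ∈ E)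
    {i₁ i j l : Fin (r + 3)} (hx1 : x i₁ = 1) (h1 : w₁ i = 1) (h2 : w₂ i = 1) (h3 : w₃ i = 1)
    (hF1 : ∀ i, aeval w₁ (F i) = 0) (hF2 : ∀ i, aeval w₂ (F i) = 0)
    (hF3 : ∀ i, aeval w₃ (F i) = 0) (ha1 : AlgebraicIndependent E ![w₁ j, w₁ l])
    (ha2 : AlgebraicIndependent L₁ ![w₂ j, w₂ l])
    (ha3 : AlgebraicIndependent L₂ ![w₃ j, w₃ l]) :
    LinearIndependent ℂ ![x, w₁, w₂, w₃] := by
  have hE1 : E ≤ L₁ := by
    rw [hL₁]
    exact le_adj _ _
  have hE2 : L₁ ≤ L₂ := by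
    rw [hL₂]
    exact le_adj _ _
  have hw1 : ∀ a, w₁ a ∈ L₁ := fun a => by
    rw [hL₁]
    exact subset_adj _ _ ⟨a, rfl⟩
  have hw2 : ∀ a, w₂ a ∈ L₂ := fun a => by
    rw [hL₂]
    exact subset_adj _ _ ⟨a, rfl⟩
  have hFL : ∀ i, Coef L₂ (F i) := fun i m =>
    hE2 (hE1 (hKE (subset_adj _ _ ⟨(i, m), rfl⟩)))
  rw [Fintype.linearIndependent_iff]
  intro c hc
  have hc' : ∀ a, c 0 * x a + c 1 * w₁ a + c 2 * w₂ a + c 3 * w₃ a = 0 := by
    intro a
    have h4 := congrFun hc a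
    simpa [Fin.sum_univ_four] using h4
  have hc3 : c 3 = 0 := by
    by_contra hne
    refine nc_plane hd hF k hind hr hFL (fun a => hE2 (hE1 (hx a))) (fun a => hE2 (hw1 a)) hw2
      hF1 hF2 hF3 h1 h2 h3 (j := j) (l := l) (j' := j) (l' := l) (ai_mono hKE ha1)
      (ai_mono ?_ ha2) ha3 (c₀ := -c 0 / c 3) (c₁ := -c 1 / c 3) (c₂ := -c 2 / c 3)
      (fun a => ?_)
    · rw [hL₁]
      refine adj_le (hKE.trans (le_adj _ _)) ?_
      rintro _ ⟨a, rfl⟩
      exact subset_adj _ _ ⟨a, rfl⟩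
    · field_simp
      linear_combination hc' a
  have hc2 : c 2 = 0 := by
    by_contra hne
    refine nc_line (fun a => hE1 (hx a)) hw1 h1 h2 ha2 (c₀ := -c 0 / c 2) (c₁ := -c 1 / c 2)
      (fun a => ?_)
    field_simp
    linear_combination hc' a - w₃ a * hc3
  have hc1 : c 1 = 0 := by
    by_contra hne
    refine nc_point hx h1 ha1 (c₀ := -c 0 / c 1) (fun a => ?_)
    field_simp
    linear_combination hc' a - w₃ a * hc3 - w₂ a * hc2
  have hc0 : c 0 = 0 := by
    have h4 := hc' i₁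
    rw [hx1] at h4
    linear_combination h4 - w₃ i₁ * hc3 - w₂ i₁ * hc2 - w₁ i₁ * hc1
  intro a
  fin_cases a
  · exact hc0
  · exact hc1
  · exact hc2
  · exact hc3

/-! ### the conditions -/

/-- the monomials of the conditions -/
noncomputable def ncMon {n : ℕ} (c : Fin 4 → Fin n) (e : ℕ) : Fin 4 ⊕ Fin 3 → (Fin n →₀ ℕ) :=
  Sum.elim (fun b => Finsupp.single (c b) e)
    (fun b => Finsupp.single (c b.succ) (e - 1) + Finsupp.single (c 0) 1)

theorem ncMon_degree {n : ℕ} (c : Fin 4 → Fin n) {e : ℕ} (he : 2 ≤ e) (x : Fin 4 ⊕ Fin 3) :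
    (ncMon c e x).degree = e := by
  rcases x with b | b
  · exact Finsupp.degree_single _ _
  · change (Finsupp.single (c b.succ) (e - 1) + Finsupp.single (c 0) 1).degree = e
    rw [map_add, Finsupp.degree_single, Finsupp.degree_single]
    omega

theorem ncMon_inj {n : ℕ} {c : Fin 4 → Fin n} (hc : Function.Injective c) {e : ℕ}
    (he : 2 ≤ e) : Function.Injective (ncMon c e) := by
  classical
  have h1 : ∀ (b b' : Fin 4), ncMon c e (Sum.inl b) (c b') = if b = b' then e else 0 := by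
    intro b b'
    change (Finsupp.single (c b) e) (c b') = _
    rw [Finsupp.single_apply]
    simp only [hc.eq_iff]
  have h2 : ∀ (b : Fin 3) (b' : Fin 4), ncMon c e (Sum.inr b) (c b') =
      (if b.succ = b' then e - 1 else 0) + if 0 = b' then 1 else 0 := by
    intro b b'
    change (Finsupp.single (c b.succ) (e - 1) + Finsupp.single (c 0) 1 : Fin n →₀ ℕ) (c b') = _
    rw [Finsupp.add_apply, Finsupp.single_apply, Finsupp.single_apply]
    simp only [hc.eq_iff]
  rintro (b | b) (b' | b') h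
  · have h3 := DFunLike.congr_fun h (c b)
    rw [h1, h1, if_pos rfl] at h3
    by_cases h4 : b' = b
    · rw [h4]
    · rw [if_neg h4] at h3
      omega
  · have h3 := DFunLike.congr_fun h (c 0)
    rw [h1, h2, if_neg (Fin.succ_ne_zero _), if_pos rfl] at h3
    split_ifs at h3
    all_goals omega
  · have h3 := DFunLike.congr_fun h (c 0)
    rw [h1, h2, if_neg (Fin.succ_ne_zero _), if_pos rfl] at h3
    split_ifs at h3
    all_goals omega
  · have h3 := DFunLike.congr_fun h (c b.succ)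
    rw [h2, h2, if_pos rfl, if_neg (Fin.succ_ne_zero _).symm] at h3
    by_cases h4 : b'.succ = b.succ
    · rw [Fin.succ_injective _ h4]
    · rw [if_neg h4] at h3
      omega

theorem nc_final (hd : ∀ i, 2 ≤ d i) (hF : ∀ i, (F i).IsHomogeneous (d i)) (k : Fl)
    [Countable k]
    (hind : AlgebraicIndependent k (fun m : MonA (r + 3) d => coeff m.1.2 (F m.1.1)))
    (hr : 0 < r) {E : Fl} [Countable E] (hKE : cof k F ≤ E)
    {x w : Fin (r + 3) → ℂ} (hx : ∀ l, x l ∈ E) {i₁ : Fin (r + 3)} (hx1 : x i₁ = 1)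
    (hxF : ∀ i, aeval x (F i) = 0)
    (hwF : ∀ i, aeval w (F i) = 0) {i j l : Fin (r + 3)} (hwi : w i = 1)
    (hw : AlgebraicIndependent E ![w j, w l]) (h0 : ∀ s, dFc (F s) w x = 0) : False := by
  classical
  have hFE : ∀ i, Coef E (F i) := fun i m => hKE (subset_adj _ _ ⟨(i, m), rfl⟩)
  -- two more generic points
  obtain ⟨L₁, hL₁⟩ : ∃ L₁ : Fl, L₁ = adj E (Set.range w) := ⟨_, rfl⟩
  have hc1 : Countable L₁ := by
    have : Countable (Set.range w) := (Set.countable_range _).to_subtype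
    rw [hL₁]
    exact countable_adj _ _
  have hE1 : E ≤ L₁ := by
    rw [hL₁]
    exact le_adj _ _
  obtain ⟨w₂, hF2, h2, ha2, hD2⟩ := nc_move hE1 hFE hx hwF hwi hw h0
  obtain ⟨L₂, hL₂⟩ : ∃ L₂ : Fl, L₂ = adj L₁ (Set.range w₂) := ⟨_, rfl⟩
  have hc2 : Countable L₂ := by
    have : Countable (Set.range w₂) := (Set.countable_range _).to_subtype
    rw [hL₂]
    exact countable_adj _ _
  have hE2 : L₁ ≤ L₂ := by
    rw [hL₂]
    exact le_adj _ _
  obtain ⟨w₃, hF3, h3, ha3, hD3⟩ := nc_move (hE1.trans hE2) hFE hx hwF hwi hw h0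
  obtain ⟨L₃, hL₃⟩ : ∃ L₃ : Fl, L₃ = adj L₂ (Set.range w₃) := ⟨_, rfl⟩
  have hc3 : Countable L₃ := by
    have : Countable (Set.range w₃) := (Set.countable_range _).to_subtype
    rw [hL₃]
    exact countable_adj _ _
  have hE3 : L₂ ≤ L₃ := by
    rw [hL₃]
    exact le_adj _ _
  have hw1 : ∀ a, w a ∈ L₁ := fun a => by
    rw [hL₁]
    exact subset_adj _ _ ⟨a, rfl⟩
  have hw2 : ∀ a, w₂ a ∈ L₂ := fun a => by
    rw [hL₂]
    exact subset_adj _ _ ⟨a, rfl⟩
  have hw3 : ∀ a, w₃ a ∈ L₃ := fun a => by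
    rw [hL₃]
    exact subset_adj _ _ ⟨a, rfl⟩
  have hli := nc_linInd hd hF k hind hr hKE hL₁ hL₂ hx hx1 hwi h2 h3 hwF hF2 hF3 hw ha2 ha3
  set u : Fin 4 → Fin (r + 3) → ℂ := ![x, w, w₂, w₃] with hu
  have huL : ∀ b a, u b a ∈ L₃ := by
    intro b a
    fin_cases b
    · exact hE3 (hE2 (hE1 (hx a)))
    · exact hE3 (hE2 (hw1 a))
    · exact hE3 (hw2 a)
    · exact hw3 a
  have huF : ∀ b s, aeval (u b) (F s) = 0 := by
    intro b s
    fin_cases b
    · exact hxF s
    · exact hwF s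
    · exact hF2 s
    · exact hF3 s
  have huD : ∀ (b : Fin 3) s, dFc (F s) (u b.succ) x = 0 := by
    intro b s
    fin_cases b
    · exact h0 s
    · exact hD2 s
    · exact hD3 s
  -- the matrix
  obtain ⟨t, rfl⟩ : ∃ t, r = t + 1 := ⟨r - 1, by omega⟩
  let e : Fin t ⊕ Fin 4 ≃ Fin (t + 1 + 3) := finSumFinEquiv.trans (finCongr (by omega))
  obtain ⟨v, hv⟩ : ∃ v : (Fin t × Fin (t + 1 + 3)) ⊕ Fin 4 → ℂ, AlgebraicIndependent L₃ v := by
    obtain ⟨m, hm⟩ := exists_algInd L₃ (Fintype.card ((Fin t × Fin (t + 1 + 3)) ⊕ Fin 4))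
    exact ⟨fun x => m (Fintype.equivFin _ x), hm.comp _ (Equiv.injective _)⟩
  have hdet := nc_det e hli huL hv
  set M := ncM e u v with hM
  have hMr : ∀ b a, M a (e (Sum.inr b)) = v (Sum.inr b) * u b a := fun b a => ncM_inr e u v b a
  have hMl : ∀ b a, M a (e (Sum.inl b)) = v (Sum.inl (b, a)) := fun b a => ncM_inl e u v b a
  have hv0 : ∀ b, v (Sum.inr b) ≠ 0 := fun b => hv.ne_zero _
  have hinj : Function.Injective fun b : Fin 4 => e (Sum.inr b) :=
    e.injective.comp Sum.inr_injective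
  let g : Fin (t + 1) × (Fin 4 ⊕ Fin 3) → MonA (t + 1 + 3) d := fun sx =>
    ⟨(sx.1, ncMon (fun b => e (Sum.inr b)) (d sx.1) sx.2), ncMon_degree _ (hd sx.1) _⟩
  have hg : Function.Injective g := by
    rintro ⟨s, y⟩ ⟨s', y'⟩ h
    have h4 := congrArg Subtype.val h
    simp only [g, Prod.mk.injEq] at h4
    obtain ⟨rfl, h5⟩ := h4
    rw [ncMon_inj hinj (hd s) h5]
  have hg0 : ∀ y, coeff (g y).1.2 (frG (F (g y).1.1) M) = 0 := by
    rintro ⟨s, b | b⟩
    · exact coeff_col hF (hMr b) (huF b) s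
    · change coeff (Finsupp.single (e (Sum.inr b.succ)) (d s - 1) +
        Finsupp.single (e (Sum.inr 0)) 1) (frG (F s) M) = 0
      rw [nc_coeff (hF s) M (fun h => (Fin.succ_ne_zero b) (hinj h)),
        nc_dFc_scale (hF s) (hMr b.succ) (hMr 0)]
      have h5 := huD b s
      have h6 : u 0 = x := rfl
      rw [h6, h5, mul_zero]
  -- the independent family
  have hy1 : AlgebraicIndependent (cof k F) (Sum.elim ![w j, w l] ![w₂ j, w₂ l]) := by
    refine ai_mono hKE (ai_sum.2 ⟨hw, ai_mono (adj_le hE1 ?_) ha2⟩)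
    rintro _ ⟨a, rfl⟩
    fin_cases a
    · exact hw1 j
    · exact hw1 l
  have hy2 : AlgebraicIndependent (cof k F)
      (Sum.elim (Sum.elim ![w j, w l] ![w₂ j, w₂ l]) ![w₃ j, w₃ l]) := by
    refine ai_sum.2 ⟨hy1, ai_mono (adj_le (hKE.trans (hE1.trans hE2)) ?_) ha3⟩
    rintro _ ⟨a | a, rfl⟩
    · fin_cases a
      · exact hE2 (hw1 j)
      · exact hE2 (hw1 l)
    · fin_cases a
      · exact hw2 j
      · exact hw2 l
  have hy3 : AlgebraicIndependent (cof k F)
      (Sum.elim (Sum.elim (Sum.elim ![w j, w l] ![w₂ j, w₂ l]) ![w₃ j, w₃ l]) v) := by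
    refine ai_sum.2 ⟨hy2, ai_mono (adj_le (hKE.trans (hE1.trans (hE2.trans hE3))) ?_) hv⟩
    rintro _ ⟨(a | a) | a, rfl⟩
    · fin_cases a
      · exact hE3 (hE2 (hw1 j))
      · exact hE3 (hE2 (hw1 l))
    · fin_cases a
      · exact hE3 (hw2 j)
      · exact hE3 (hw2 l)
    · fin_cases a
      · exact hw3 j
      · exact hw3 l
  obtain ⟨K', hK'⟩ : ∃ K' : Fl, K' = adj (cof k F)
      (Set.range fun ij : Fin (t + 1 + 3) × Fin (t + 1 + 3) => M ij.1 ij.2) := ⟨_, rfl⟩
  have hMK : ∀ a b, M a b ∈ K' := fun a b => by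
    rw [hK']
    exact subset_adj _ _ ⟨(a, b), rfl⟩
  have hu1 : ∀ b : Fin 4, ∃ a, u b a = 1 := by
    intro b
    fin_cases b
    · exact ⟨i₁, hx1⟩
    · exact ⟨i, hwi⟩
    · exact ⟨i, h2⟩
    · exact ⟨i, h3⟩
  have hμK : ∀ b, v (Sum.inr b) ∈ K' := by
    intro b
    obtain ⟨a, ha⟩ := hu1 b
    have h4 := hMr b a
    rw [ha, mul_one] at h4
    rw [← h4]
    exact hMK _ _
  have huK : ∀ b a, u b a ∈ K' := by
    intro b a
    have h4 : u b a = (v (Sum.inr b))⁻¹ * M a (e (Sum.inr b)) := by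
      rw [hMr, inv_mul_cancel_left₀ (hv0 b)]
    rw [h4]
    exact mul_mem (inv_mem (hμK b)) (hMK _ _)
  have hfin := nc_count hF k hind hdet g hg hg0 hy3 (by
    rw [← hK']
    rintro (((a | a) | a) | a)
    · fin_cases a
      · exact le_clo _ (huK 1 j)
      · exact le_clo _ (huK 1 l)
    · fin_cases a
      · exact le_clo _ (huK 2 j)
      · exact le_clo _ (huK 2 l)
    · fin_cases a
      · exact le_clo _ (huK 3 j)
      · exact le_clo _ (huK 3 l)
    · rcases a with a | a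
      · have h4 := hMK a.2 (e (Sum.inl a.1))
        rw [hMl] at h4
        exact le_clo _ h4
      · exact le_clo _ (hμK a))
  simp only [Nat.card_sum, Nat.card_prod, Nat.card_fin] at hfin
  nlinarith [hfin]

/-- **X is not a cone**: the tangent space at a generic point does not contain `x`. -/
theorem not_cone (hd : ∀ i, 2 ≤ d i) (hF : ∀ i, (F i).IsHomogeneous (d i)) (k : Fl)
    [Countable k]
    (hind : AlgebraicIndependent k (fun m : MonA (r + 3) d => coeff m.1.2 (F m.1.1)))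
    (hr : 0 < r) (E : Fl) [Countable E] (hE : clo E = E) (hKE : cof k F ≤ E)
    {x w : Fin (r + 3) → ℂ} (hx : ∀ l, x l ∈ E) (hx0 : x ≠ 0) (hxF : ∀ i, aeval x (F i) = 0)
    (hwF : ∀ i, aeval w (F i) = 0) {i j l : Fin (r + 3)} (hwi : w i = 1)
    (hw : AlgebraicIndependent E ![w j, w l]) : ∃ s, dFc (F s) w x ≠ 0 := by
  by_contra hcon
  push Not at hcon
  obtain ⟨i₁, hi₁⟩ := Function.ne_iff.1 hx0
  rw [Pi.zero_apply] at hi₁
  refine nc_final hd hF k hind hr hKE (x := fun a => (x i₁)⁻¹ * x a) (i₁ := i₁)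
    (fun a => mul_mem (inv_mem (hx i₁)) (hx a)) (inv_mul_cancel₀ hi₁) (fun s => ?_) hwF hwi hw
    (fun s => ?_)
  · rw [aeval_scale (hF s) (w := x) (fun _ => rfl), hxF, mul_zero]
  · rw [nc_dFc_scale (hF s) (z := w) (v := x) (α := 1) (β := (x i₁)⁻¹) (fun a => (one_mul _).symm)
      (fun _ => rfl), hcon, mul_zero]

end Pool.Agent.VCI
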