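import Pool.Agent.VCI.Frame
import Pool.Agent.VCI.Gen
import Pool.Agent.VCI.TauL

/-! Module NCP: a very general complete intersection surface contains no plane. -/

set_option autoImplicit false

open scoped LinearAlgebra.Projectivization
open MvPolynomial

namespace Pool.Agent.VCI

open Pool.Agent.VGS

variable {r : ℕ} {d : Fin r → ℕ} {F : Fin r → MvPolynomial (Fin (r + 3)) ℂ}

/-- vectors dual, over `E`, to independent vectors over `E` -/
theorem exists_dualE {s : ℕ} {E : Fl} {u : Fin s → Fin (r + s) → ℂ} (hu : ∀ a m, u a m ∈ E)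
    (hui : LinearIndependent ℂ u) : ∃ φ : Fin s → Fin (r + s) → ℂ, (∀ a m, φ a m ∈ E) ∧
      ∀ a b, ∑ m, u a m * φ b m = if a = b then 1 else 0 := by
  classical
  let uE : Fin s → Fin (r + s) → E := fun a m => ⟨u a m, hu a m⟩
  have hE : LinearIndependent E uE := by
    rw [Fintype.linearIndependent_iff]
    intro g hg a
    have h1 := Fintype.linearIndependent_iff.1 hui (fun a => (g a : ℂ)) (by
      funext m
      have h2 := congrFun hg m
      rw [Finset.sum_apply] at h2 ⊢
      have h3 := congrArg (fun x : E => (x : ℂ)) h2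
      simp only [Pi.smul_apply, smul_eq_mul, Pi.zero_apply] at h3 ⊢
      push_cast at h3
      exact h3) a
    exact Subtype.ext h1
  obtain ⟨m, hm⟩ := TauL.exists_ext' hE
  have hM := Matrix.mul_nonsing_inv _ (isUnit_iff_ne_zero.2 hm)
  refine ⟨fun b k => (((Matrix.of (Fin.append m uE))⁻¹ k (Fin.natAdd r b) : E) : ℂ),
    fun b k => SetLike.coe_mem _, fun a b => ?_⟩
  have h1 := congrFun (congrFun hM (Fin.natAdd r a)) (Fin.natAdd r b)
  rw [Matrix.mul_apply] at h1
  have h2 := congrArg (fun x : E => (x : ℂ)) h1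
  simp only [Matrix.of_apply, Fin.append_right] at h2
  push_cast at h2
  have h3 : ((((1 : Matrix (Fin (r + s)) (Fin (r + s)) E) (Fin.natAdd r a) (Fin.natAdd r b) : E) :
      ℂ)) = if a = b then 1 else 0 := by
    rw [Matrix.one_apply]
    by_cases h : a = b
    · subst h
      simp
    · rw [if_neg h, if_neg fun h4 => h (Fin.natAdd_injective _ _ h4)]
      rfl
  rw [h3] at h2
  exact h2

/-- the coefficient of `X_a ^ (e - 1) X_b` -/
theorem coeff_line {n : ℕ} {P : MvPolynomial (Fin n) ℂ} {e : ℕ} (hP : P.IsHomogeneous e)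
    (he : 1 ≤ e) {a b : Fin n} (hab : a ≠ b) :
    (aeval (fun i => if i = a then (1 : Polynomial ℂ) else if i = b then Polynomial.X else 0)
      P).coeff 1 = coeff (Finsupp.single a (e - 1) + Finsupp.single b 1) P := by
  classical
  rw [aeval_def, eval₂_eq', Polynomial.finsetSum_coeff]
  have hba : b ≠ a := Ne.symm hab
  have hprod : ∀ m : Fin n →₀ ℕ, (∀ i, i ≠ a → i ≠ b → m i = 0) →
      ∏ i, (if i = a then (1 : Polynomial ℂ) else if i = b then Polynomial.X else 0) ^ m i =
        Polynomial.X ^ m b := by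
    intro m hm
    rw [Finset.prod_eq_single b]
    · rw [if_neg hba, if_pos rfl]
    · intro i _ hib
      by_cases hia : i = a
      · rw [if_pos hia, one_pow]
      · rw [if_neg hia, if_neg hib, hm i hia hib, pow_zero]
    · intro h
      exact absurd (Finset.mem_univ _) h
  rw [Finset.sum_eq_single (Finsupp.single a (e - 1) + Finsupp.single b 1)]
  · rw [hprod]
    · have h1 : (Finsupp.single a (e - 1) + Finsupp.single b 1 : Fin n →₀ ℕ) b = 1 := by
        simp [hab]
      rw [h1, pow_one]
      change (Polynomial.C _ * Polynomial.X).coeff 1 = _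
      rw [Polynomial.coeff_C_mul, Polynomial.coeff_X_one, mul_one]
    · intro i hia hib
      simp [Ne.symm hia, Ne.symm hib]
  · intro m hm hne
    by_cases h0 : ∀ i, i ≠ a → i ≠ b → m i = 0
    · rw [hprod m h0]
      change (Polynomial.C _ * Polynomial.X ^ m b).coeff 1 = _
      rw [Polynomial.coeff_C_mul, Polynomial.coeff_X_pow, if_neg, mul_zero]
      intro h1
      apply hne
      have hdeg : m.degree = e := by
        by_contra hcon
        exact (mem_support_iff.mp hm) (hP.coeff_eq_zero hcon)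
      have h2 : m = Finsupp.single a (m a) + Finsupp.single b 1 := by
        ext i
        by_cases hia : i = a
        · subst hia
          simp [hba]
        · by_cases hib : i = b
          · subst hib
            simp [hab, ← h1]
          · rw [h0 i hia hib]
            simp [Ne.symm hia, Ne.symm hib]
      have h3 : m a = e - 1 := by
        rw [h2, map_add, Finsupp.degree_single, Finsupp.degree_single] at hdeg
        omega
      rw [h2, h3]
    · push Not at h0
      obtain ⟨i, hia, hib, hi⟩ := h0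
      rw [Finset.prod_eq_zero (Finset.mem_univ i), mul_zero, Polynomial.coeff_zero]
      rw [if_neg hia, if_neg hib, zero_pow hi]
  · intro h
    rw [notMem_support_iff.mp h, map_zero, zero_mul, Polynomial.coeff_zero]

theorem ncp_eval_line {ι : Type} (G : MvPolynomial ι ℂ) (x : ι → Polynomial ℂ) (t : ℂ) :
    (MvPolynomial.aeval x G).eval t = MvPolynomial.aeval (fun i => (x i).eval t) G := by
  rw [aeval_def, aeval_def, eval₂_eq, eval₂_eq, Polynomial.eval_finsetSum]
  refine Finset.sum_congr rfl fun m _ => ?_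
  rw [Polynomial.eval_mul, Polynomial.eval_prod]
  congr 1
  · exact Polynomial.eval_C
  · exact Finset.prod_congr rfl fun i _ => Polynomial.eval_pow _

/-- a generic point of a plane over `E` on the surface -/
theorem plane_gen (hF : ∀ i, (F i).IsHomogeneous (d i)) {E L : Fl} (hEL : E ≤ L)
    {u : Fin 3 → Fin (r + 3) → ℂ} (hu : ∀ a m, u a m ∈ E) (hui : LinearIndependent ℂ u)
    (h0 : ∀ (c : Fin 3 → ℂ) (s : Fin r), aeval (fun m => ∑ a, c a * u a m) (F s) = 0)
    {x y : ℂ} (hxy : AlgebraicIndependent L ![x, y]) :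
    ∃ (z : Fin (r + 3) → ℂ) (hz : z ≠ 0) (i : Fin (r + 3)) (t : ℂ), z i = 1 ∧ t ≠ 0 ∧
      (∀ m, z m = t * ∑ a, (![1, x, y] : Fin 3 → ℂ) a * u a m) ∧
      (∀ m, z m ∈ adj E {x, y}) ∧ (Projectivization.mk ℂ z hz : PN (r + 3)) ∈ Gen L F := by
  obtain ⟨φ, hφ, hφu⟩ := exists_dualE hu hui
  have hw : (fun m => ∑ a, (![1, x, y] : Fin 3 → ℂ) a * u a m) ≠ 0 := by
    intro h
    have h1 := Fintype.linearIndependent_iff.1 hui ![1, x, y] (by
      rw [← h]
      funext m
      rw [Finset.sum_apply]
      rfl) 0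
    simp at h1
  obtain ⟨i, hi⟩ := Function.ne_iff.1 hw
  have hi' : ∑ a, (![1, x, y] : Fin 3 → ℂ) a * u a i ≠ 0 := hi
  obtain ⟨t, ht⟩ : ∃ t : ℂ, t = (∑ a, (![1, x, y] : Fin 3 → ℂ) a * u a i)⁻¹ := ⟨_, rfl⟩
  have ht0 : t ≠ 0 := by rw [ht]; exact inv_ne_zero hi'
  obtain ⟨z, hzdef⟩ : ∃ z : Fin (r + 3) → ℂ,
      ∀ m, z m = t * ∑ a, (![1, x, y] : Fin 3 → ℂ) a * u a m := ⟨_, fun m => rfl⟩
  have hzi : z i = 1 := by rw [hzdef, ht, inv_mul_cancel₀ hi']
  have hz : z ≠ 0 := by
    intro h
    rw [h] at hzi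
    exact zero_ne_one hzi
  have hsum : ∀ b, ∑ m, z m * φ b m = t * (![1, x, y] : Fin 3 → ℂ) b := by
    intro b
    calc ∑ m, z m * φ b m = ∑ m, ∑ a, t * (![1, x, y] : Fin 3 → ℂ) a * (u a m * φ b m) := by
          refine Finset.sum_congr rfl fun m _ => ?_
          rw [hzdef, Finset.mul_sum, Finset.sum_mul]
          exact Finset.sum_congr rfl fun a _ => by ring
      _ = ∑ a, t * (![1, x, y] : Fin 3 → ℂ) a * ∑ m, u a m * φ b m := by
          rw [Finset.sum_comm]
          exact Finset.sum_congr rfl fun a _ => by rw [Finset.mul_sum]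
      _ = t * (![1, x, y] : Fin 3 → ℂ) b := by
          rw [Finset.sum_eq_single b]
          · rw [hφu, if_pos rfl, mul_one]
          · intro a _ hab
            rw [hφu, if_neg hab, mul_zero]
          · intro h
            exact absurd (Finset.mem_univ _) h
  have hmem : ∀ b, t * (![1, x, y] : Fin 3 → ℂ) b ∈ adj L (Set.range z) := by
    intro b
    rw [← hsum b]
    exact sum_mem fun m _ => mul_mem (subset_adj _ _ ⟨m, rfl⟩) (le_adj _ _ (hEL (hφ b m)))
  have hm0 : t ∈ adj L (Set.range z) := by simpa using hmem 0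
  have hx : x ∈ adj L (Set.range z) := by
    have h1 : t * x ∈ adj L (Set.range z) := by simpa using hmem 1
    have h2 := div_mem h1 hm0
    rwa [mul_div_cancel_left₀ _ ht0] at h2
  have hy : y ∈ adj L (Set.range z) := by
    have h1 : t * y ∈ adj L (Set.range z) := by simpa using hmem 2
    have h2 := div_mem h1 hm0
    rwa [mul_div_cancel_left₀ _ ht0] at h2
  have hxE : ∀ b, (![1, x, y] : Fin 3 → ℂ) b ∈ adj E {x, y} := by
    intro b
    fin_cases b
    · exact one_mem _
    · exact subset_adj _ _ (Or.inl rfl)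
    · exact subset_adj _ _ (Or.inr rfl)
  have hsE : ∀ m, ∑ a, (![1, x, y] : Fin 3 → ℂ) a * u a m ∈ adj E {x, y} := fun m =>
    sum_mem fun a _ => mul_mem (hxE a) (le_adj _ _ (hu a m))
  refine ⟨z, hz, i, t, hzi, ht0, hzdef, fun m => ?_, ?_⟩
  · rw [hzdef, ht]
    exact mul_mem (inv_mem (hsE i)) (hsE m)
  · refine gen_of_algInd hF hz (fun s => ?_) hzi (le_clo _ hx) (le_clo _ hy) hxy
    have h1 := h0 ![1, x, y] s
    rw [aeval_scale (hF s) hzdef, h1, mul_zero]

/-- the surface contains no plane -/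
theorem plane_absurd (hd : ∀ i, 2 ≤ d i) (hF : ∀ i, (F i).IsHomogeneous (d i)) (k : Fl)
    [Countable k]
    (hind : AlgebraicIndependent k (fun m : MonA (r + 3) d => coeff m.1.2 (F m.1.1)))
    (hr : 0 < r) (E : Fl) [Countable E] (hKE : cof k F ≤ E) {u : Fin 3 → Fin (r + 3) → ℂ}
    (hu : ∀ a m, u a m ∈ E) (hui : LinearIndependent ℂ u)
    (h0 : ∀ (c : Fin 3 → ℂ) (s : Fin r), aeval (fun m => ∑ a, c a * u a m) (F s) = 0) :
    False := by
  obtain ⟨c, hc⟩ := exists_algInd E 4
  have h4 : AlgebraicIndependent E (Sum.elim ![c 0, c 1] ![c 2, c 3]) := by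
    have h5 := hc.comp (Sum.elim ![0, 1] ![2, 3]) (by decide)
    convert h5 using 1
    funext a
    rcases a with a | a <;> fin_cases a <;> rfl
  obtain ⟨h1, h2⟩ := ai_sum.1 h4
  have hset : Set.range ![c 0, c 1] = {c 0, c 1} := by
    ext a
    constructor
    · rintro ⟨b, rfl⟩
      fin_cases b
      · exact Or.inl rfl
      · exact Or.inr rfl
    · rintro (h | h)
      · exact ⟨0, h.symm⟩
      · exact ⟨1, (Set.mem_singleton_iff.1 h).symm⟩
  rw [hset] at h2
  obtain ⟨z, hz, i, t, hzi, ht, hzt, hzE, hzg⟩ := plane_gen hF le_rfl hu hui h0 h1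
  obtain ⟨z', hz', i', t', hzi', ht', hzt', -, hzg'⟩ :=
    plane_gen hF (le_adj E {c 0, c 1}) hu hui h0 h2
  have hp : (Projectivization.mk ℂ z hz : PN (r + 3)) ∈ Gen (cof k F) F := Gen_anti hKE F hzg
  have hq : (Projectivization.mk ℂ z' hz' : PN (r + 3)) ∈
      Gen (adjP (cof k F) (Projectivization.mk ℂ z hz : PN (r + 3))) F := by
    refine Gen_anti ?_ F hzg'
    rw [adjP_mk hz hzi]
    refine adj_le (hKE.trans (le_adj _ _)) ?_
    rintro _ ⟨m, rfl⟩
    exact hzE m
  obtain ⟨M, hM, -⟩ := exists_frame hd hF k hind hp hq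
  have hcol : ∀ j m, M.mulVec (Pi.single j 1) m = M m j := by
    intro j m
    rw [Matrix.mulVec_single_one]
    rfl
  -- the columns of the frame are in the plane
  have hcolp : ∃ c₁ : Fin 3 → ℂ, ∀ m, M m (lst r) = ∑ a, c₁ a * u a m := by
    have h5 := hM.pt
    rw [mkP_eq (mulVec_ne_zero' hM.det (by
      intro h
      have := congrFun h (lst r)
      simp at this)), eq_comm, mk_eq_mk_iff_exists] at h5
    obtain ⟨μ, -, hμ⟩ := h5
    refine ⟨fun a => μ * t * (![1, c 0, c 1] : Fin 3 → ℂ) a, fun m => ?_⟩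
    rw [← hcol, hμ m, hzt m, Finset.mul_sum, Finset.mul_sum]
    exact Finset.sum_congr rfl fun a _ => by ring
  have hcolq : ∃ c₂ : Fin 3 → ℂ, ∀ m, M m (pen r) = ∑ a, c₂ a * u a m := by
    have h5 := hM.pt'
    rw [mkP_eq (mulVec_ne_zero' hM.det (by
      intro h
      have := congrFun h (pen r)
      simp at this)), eq_comm, mk_eq_mk_iff_exists] at h5
    obtain ⟨μ, -, hμ⟩ := h5
    refine ⟨fun a => μ * t' * (![1, c 2, c 3] : Fin 3 → ℂ) a, fun m => ?_⟩
    rw [← hcol, hμ m, hzt' m, Finset.mul_sum, Finset.mul_sum]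
    exact Finset.sum_congr rfl fun a _ => by ring
  obtain ⟨c₁, hc₁⟩ := hcolp
  obtain ⟨c₂, hc₂⟩ := hcolq
  have hne : lst r ≠ pen r := by
    intro h
    have := congrArg Fin.val h
    simp [lst, pen] at this
  let s : Fin r := ⟨0, hr⟩
  have h6 : (aeval (fun i => if i = lst r then (1 : Polynomial ℂ) else if i = pen r then
      Polynomial.X else 0) (frG (F s) M)).coeff 1 = 0 := by
    have h7 : aeval (fun i => if i = lst r then (1 : Polynomial ℂ) else if i = pen r then
        Polynomial.X else 0) (frG (F s) M) = 0 := by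
      apply Polynomial.funext
      intro b
      rw [ncp_eval_line, Polynomial.eval_zero, aeval_frG]
      have h8 : M.mulVec (fun i => Polynomial.eval b (if i = lst r then (1 : Polynomial ℂ) else
          if i = pen r then Polynomial.X else 0)) = fun m => ∑ a, (c₁ a + b * c₂ a) * u a m := by
        funext m
        rw [Matrix.mulVec, dotProduct, ← Finset.add_sum_erase _ _ (Finset.mem_univ (lst r)),
          ← Finset.add_sum_erase _ _ (Finset.mem_erase.2 ⟨hne.symm, Finset.mem_univ (pen r)⟩),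
          Finset.sum_eq_zero]
        · rw [if_pos rfl, if_neg hne.symm, if_pos rfl, Polynomial.eval_one, Polynomial.eval_X,
            mul_one, add_zero, hc₁, hc₂, Finset.sum_mul, ← Finset.sum_add_distrib]
          exact Finset.sum_congr rfl fun a _ => by ring
        · intro j hj
          rw [Finset.mem_erase, Finset.mem_erase] at hj
          rw [if_neg hj.2.1, if_neg hj.1, Polynomial.eval_zero, mul_zero]
      rw [h8]
      exact h0 _ s
    rw [h7, Polynomial.coeff_zero]
  rw [coeff_line (frG_hom (hF s) M) (le_trans (by norm_num) (hd s)) hne] at h6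
  have hds := hd s
  let e : Mon d := ⟨(s, Finsupp.single (lst r) (d s - 1) + Finsupp.single (pen r) 1), by
    refine ⟨?_, ?_, ?_⟩
    · change (Finsupp.single (lst r) (d s - 1) + Finsupp.single (pen r) 1 :
        Fin (r + 3) →₀ ℕ).degree = d s
      rw [map_add, Finsupp.degree_single, Finsupp.degree_single]
      omega
    · intro h
      have h9 := DFunLike.congr_fun h (pen r)
      simp [hne] at h9
    · intro h
      have h9 := DFunLike.congr_fun h (lst r)
      simp [hne.symm] at h9
      omega⟩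
  exact hM.ai.ne_zero (Sum.inr e) h6

end Pool.Agent.VCI
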