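import Pool.Agent.VCI.PenC

/-! Pencils of sections (doc S/MP_31564d_pres, (P)): PenA, PenB, PenC. -/
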