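import Mathlib

/-! Systems with nondegenerate zeros (doc S/MP_31564d_pres, (Z)). -/

set_option autoImplicit false

open MvPolynomial

namespace Pool.Agent.VCI

namespace ZFinAux

theorem taylor1 {r : ℕ} (c : Fin r → ℂ) (p : MvPolynomial (Fin r) ℂ) :
    ∃ g : Fin r → MvPolynomial (Fin r) ℂ,
      p = C (aeval c p) + ∑ j, g j * (X j - C (c j)) := by
  induction p using MvPolynomial.induction_on with
  | C a => exact ⟨fun _ => 0, by simp⟩
  | add p q hp hq =>
    obtain ⟨g, hg⟩ := hp
    obtain ⟨g', hg'⟩ := hq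
    refine ⟨fun j => g j + g' j, ?_⟩
    have h1 : ∑ j, (g j + g' j) * (X j - C (c j)) =
        ∑ j, g j * (X j - C (c j)) + ∑ j, g' j * (X j - C (c j)) := by
      rw [← Finset.sum_add_distrib]
      exact Finset.sum_congr rfl fun j _ => by ring
    rw [h1, map_add, C_add]
    linear_combination hg + hg'
  | mul_X p k hp =>
    obtain ⟨g, hg⟩ := hp
    refine ⟨fun j => g j * X k + (if j = k then C (aeval c p) else 0), ?_⟩
    have h1 : ∑ j, (g j * X k + (if j = k then C (aeval c p) else 0)) * (X j - C (c j)) =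
        (∑ j, g j * (X j - C (c j))) * X k + C (aeval c p) * (X k - C (c k)) := by
      rw [Finset.sum_mul]
      have h2 : C (aeval c p) * (X k - C (c k)) =
          ∑ j, (if j = k then C (aeval c p) else 0) * ((X j : MvPolynomial (Fin r) ℂ) - C (c j)) := by
        rw [Finset.sum_eq_single k (fun j _ hj => by rw [if_neg hj, zero_mul])
          (fun h => absurd (Finset.mem_univ k) h), if_pos rfl]
      rw [h2, ← Finset.sum_add_distrib]
      exact Finset.sum_congr rfl fun j _ => by ring
    rw [h1, map_mul, aeval_X, C_mul]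
    linear_combination X k * hg

theorem taylor_deriv {r : ℕ} (c : Fin r → ℂ) (p : MvPolynomial (Fin r) ℂ)
    (g : Fin r → MvPolynomial (Fin r) ℂ)
    (hg : p = C (aeval c p) + ∑ j, g j * (X j - C (c j))) (j : Fin r) :
    aeval c (pderiv j p) = aeval c (g j) := by
  have h1 : pderiv j p = ∑ k, (g k * (if k = j then 1 else 0) +
      (X k - C (c k)) * pderiv j (g k)) := by
    conv_lhs => rw [hg]
    rw [map_add, pderiv_C, zero_add, map_sum]
    refine Finset.sum_congr rfl fun k _ => ?_
    rw [Derivation.leibniz, map_sub, pderiv_C, sub_zero, pderiv_X, smul_eq_mul, smul_eq_mul]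
    congr 2
    rw [Pi.single_apply]
  rw [h1, map_sum, Finset.sum_eq_single j]
  · simp
  · intro k _ hk
    simp [if_neg hk]
  · exact fun h => absurd (Finset.mem_univ j) h

/-- the maximal ideal of a nondegenerate zero is a minimal prime of the ideal of the system -/
theorem minimal {r : ℕ} (P : Fin r → MvPolynomial (Fin r) ℂ) (c : Fin r → ℂ)
    (hc : ∀ i, aeval c (P i) = 0)
    (h : (Matrix.of fun i j => aeval c (pderiv j (P i))).det ≠ 0) :
    RingHom.ker (aeval c : MvPolynomial (Fin r) ℂ →ₐ[ℂ] ℂ) ∈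
      (Ideal.span (Set.range P)).minimalPrimes := by
  have hprime : (RingHom.ker (aeval c : MvPolynomial (Fin r) ℂ →ₐ[ℂ] ℂ)).IsPrime :=
    RingHom.ker_isPrime _
  refine ⟨⟨hprime, ?_⟩, ?_⟩
  · rw [Ideal.span_le]
    rintro _ ⟨i, rfl⟩
    exact hc i
  · rintro q ⟨hq, hIq⟩ hqm
    -- Taylor
    choose g hg using fun i => taylor1 c (P i)
    have hPq : ∀ i, P i ∈ q := fun i => hIq (Ideal.subset_span ⟨i, rfl⟩)
    set G : Matrix (Fin r) (Fin r) (MvPolynomial (Fin r) ℂ) := Matrix.of g with hG
    have hv : G.mulVec (fun j => X j - C (c j)) = P := by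
      funext i
      rw [hg i, hc i, C_0, zero_add]
      rfl
    have hdet : G.det ∉ q := by
      intro hmem
      have h1 : aeval c G.det = 0 := hqm hmem
      apply h
      rw [← h1, ← AlgHom.coe_toRingHom, RingHom.map_det]
      congr 1
      ext i j
      simp only [Matrix.of_apply, RingHom.mapMatrix_apply, Matrix.map_apply, hG]
      exact taylor_deriv c (P i) (g i) (hg i) j
    have hX : ∀ j, X j - C (c j) ∈ q := by
      intro j
      have h1 : G.adjugate.mulVec P = G.det • (fun j => X j - C (c j)) := by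
        conv_lhs => rw [← hv]
        rw [Matrix.mulVec_mulVec, Matrix.adjugate_mul, Matrix.smul_mulVec, Matrix.one_mulVec]
      have h2 : G.det * (X j - C (c j)) ∈ q := by
        have h3 := congrFun h1 j
        rw [Pi.smul_apply, smul_eq_mul] at h3
        rw [← h3]
        have h4 : G.adjugate.mulVec P j = ∑ i, G.adjugate j i * P i := rfl
        rw [h4]
        exact Ideal.sum_mem _ fun i _ => Ideal.mul_mem_left _ _ (hPq i)
      exact (hq.mem_or_mem h2).resolve_left hdet
    intro p hp
    obtain ⟨g', hg'⟩ := taylor1 c p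
    have hp0 : aeval c p = 0 := hp
    rw [hg', hp0, C_0, zero_add]
    exact Ideal.sum_mem _ fun j _ => Ideal.mul_mem_left _ _ (hX j)

end ZFinAux

/-- `r` polynomials in `r` unknowns all of whose zeros are nondegenerate have finitely many
zeros -/
theorem zeros_finite {r : ℕ} (P : Fin r → MvPolynomial (Fin r) ℂ)
    (h : ∀ c : Fin r → ℂ, (∀ i, aeval c (P i) = 0) →
      (Matrix.of fun i j => aeval c (pderiv j (P i))).det ≠ 0) :
    {c : Fin r → ℂ | ∀ i, aeval c (P i) = 0}.Finite := by
  have hfin : (Ideal.span (Set.range P)).minimalPrimes.Finite :=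
    Ideal.finite_minimalPrimes_of_isNoetherianRing _ _
  refine (hfin.preimage (f := fun c : Fin r → ℂ =>
    RingHom.ker (aeval c : MvPolynomial (Fin r) ℂ →ₐ[ℂ] ℂ)) ?_).subset ?_
  · intro c _ c' _ hcc
    funext j
    have h1 : X j - C (c j) ∈ RingHom.ker (aeval c : MvPolynomial (Fin r) ℂ →ₐ[ℂ] ℂ) := by
      rw [RingHom.mem_ker]
      simp
    have h2 : X j - C (c j) ∈ RingHom.ker (aeval c' : MvPolynomial (Fin r) ℂ →ₐ[ℂ] ℂ) := by
      have h3 : RingHom.ker (aeval c : MvPolynomial (Fin r) ℂ →ₐ[ℂ] ℂ) =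
        RingHom.ker (aeval c' : MvPolynomial (Fin r) ℂ →ₐ[ℂ] ℂ) := hcc
      rw [← h3]
      exact h1
    rw [RingHom.mem_ker] at h2
    simp only [map_sub, aeval_X, aeval_C] at h2
    exact (sub_eq_zero.mp h2).symm
  · intro c hc
    exact ZFinAux.minimal P c hc (h c hc)

end Pool.Agent.VCI
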