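import Pool.Agent.VCI.TrA
import Pool.Agent.VCI.ZFin
import Pool.Agent.VCI.Link

/-! Pencils of sections (doc S/MP_31564d_pres, (P)): limits of the points of a section. -/

set_option autoImplicit false

open MvPolynomial

namespace Pool.Agent.VCI

open Pool.Agent.VGS

variable {r : ℕ} {d : Fin r → ℕ} {F : Fin r → MvPolynomial (Fin (r + 3)) ℂ}

theorem secC_finite {n : ℕ} {F : Fin r → MvPolynomial (Fin n) ℂ} {w : Fin n → ℂ}
    {b : Fin r → Fin n → ℂ} (h : ∀ c ∈ SecC F w b, (jacM F (vec w b c) b).det ≠ 0) :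
    (SecC F w b).Finite := by
  classical
  obtain ⟨f, hf⟩ : ∃ f : Fin n → MvPolynomial (Fin r) ℂ, ∀ l, f l =
      MvPolynomial.C (w l) + ∑ j, X j * MvPolynomial.C (b j l) := ⟨_, fun _ => rfl⟩
  have hfe : ∀ (c : Fin r → ℂ) (l : Fin n), aeval c (f l) = vec w b c l := by
    intro c l
    rw [hf, map_add, map_sum, aeval_C]
    unfold vec
    congr 1
    refine Finset.sum_congr rfl fun j _ => ?_
    rw [map_mul, aeval_X, aeval_C]
    rfl
  have hcomp : ∀ (G : MvPolynomial (Fin n) ℂ) (c : Fin r → ℂ),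
      aeval c (aeval f G) = aeval (vec w b c) G := by
    intro G c
    have h1 : aeval c (aeval f G) = aeval (fun l => aeval c (f l)) G := by
      rw [← MvPolynomial.comp_aeval_apply]
    rw [h1]
    exact congrArg (fun z => aeval z G) (funext fun l => hfe c l)
  have h1 := zeros_finite (fun i => aeval f (F i)) (fun c hc => ?_)
  · refine h1.subset fun c hc i => ?_
    rw [hcomp]
    exact hc i
  · have hc' : c ∈ SecC F w b := fun i => by rw [← hcomp]; exact hc i
    have h2 := h c hc'
    have h3 : (Matrix.of fun i j : Fin r => aeval c (pderiv j (aeval f (F i)))) =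
        jacM F (vec w b c) b := by
      ext i j
      rw [Matrix.of_apply, mu_chain, map_sum]
      simp only [jacM, Matrix.of_apply]
      refine Finset.sum_congr rfl fun l _ => ?_
      rw [map_mul, hcomp]
      congr 1
      rw [hf, map_add (pderiv j), map_sum, pderiv_C, zero_add, map_sum, Finset.sum_eq_single j]
      · rw [Derivation.leibniz, pderiv_C, smul_zero, zero_add, pderiv_X_self, smul_eq_mul,
          mul_one, aeval_C]
        rfl
      · intro k _ hk
        rw [Derivation.leibniz, pderiv_C, smul_zero, zero_add, pderiv_X_of_ne hk,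
          smul_zero, map_zero]
      · intro h
        exact absurd (Finset.mem_univ j) h
    rw [h3]
    exact h2

/-- divided differences: two vectors with the same limit -/
theorem pen_exists_diff {n : ℕ} {C : Fl} {V : ValuationSubring ℂ} (hV : IsPl V C) {x y z : Fin n → ℂ}
    (hx : ∀ l, Sp V C (x l) (z l)) (hy : ∀ l, Sp V C (y l) (z l)) {G : MvPolynomial (Fin n) ℂ}
    (hG : Coef C G) : ∃ g : Fin n → ℂ, (∀ l, Sp V C (g l) (aeval z (pderiv l G))) ∧
      aeval x G - aeval y G = ∑ l, g l * (x l - y l) := by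
  classical
  obtain ⟨G₀, rfl⟩ := exists_map_eq hG
  clear hG
  induction G₀ using MvPolynomial.induction_on with
  | C a =>
    refine ⟨0, fun l => ?_, ?_⟩
    · rw [map_C, pderiv_C, map_zero]
      exact Sp.const hV C.zero_mem
    · rw [map_C, aeval_C, aeval_C, sub_self]
      simp
  | add p q hp hq =>
    obtain ⟨g, hg, hg'⟩ := hp
    obtain ⟨g₁, hg₁, hg₁'⟩ := hq
    refine ⟨fun l => g l + g₁ l, fun l => ?_, ?_⟩
    · rw [map_add, map_add (pderiv l), map_add]
      exact (hg l).add hV (hg₁ l)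
    · rw [map_add, map_add, map_add]
      simp only [add_mul, Finset.sum_add_distrib]
      rw [← hg', ← hg₁']
      ring
  | mul_X p i hp =>
    obtain ⟨g, hg, hg'⟩ := hp
    have hpy : Sp V C (aeval y (map (algebraMap C ℂ) p)) (aeval z (map (algebraMap C ℂ) p)) :=
      Sp.aeval hV (gp_coef_map p) hy
    refine ⟨fun l => g l * x i + if l = i then aeval y (map (algebraMap C ℂ) p) else 0,
      fun l => ?_, ?_⟩
    · rw [map_mul, map_X, Derivation.leibniz, pderiv_X, map_add, smul_eq_mul, smul_eq_mul, map_mul,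
        map_mul, aeval_X]
      rw [add_comm (aeval z _ * _)]
      refine Sp.add hV ?_ ?_
      · rw [mul_comm]
        exact (hx i).mul hV (hg l)
      · by_cases h : l = i
        · subst h
          rw [if_pos rfl, Pi.single_eq_same, map_one, mul_one]
          exact hpy
        · rw [if_neg h, Pi.single_eq_of_ne (Ne.symm h), map_zero, mul_zero]
          exact Sp.const hV C.zero_mem
    · rw [map_mul, map_X, map_mul, map_mul, aeval_X, aeval_X]
      simp only [add_mul, ite_mul, zero_mul, Finset.sum_add_distrib, Finset.sum_ite_eq',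
        Finset.mem_univ, if_true]
      have h1 : ∑ l, g l * x i * (x l - y l) = x i * ∑ l, g l * (x l - y l) := by
        rw [Finset.mul_sum]
        exact Finset.sum_congr rfl fun l _ => by ring
      rw [h1, ← hg']
      ring

theorem vec_sp {n : ℕ} {C : Fl} {V : ValuationSubring ℂ} (hV : IsPl V C) {w w' : Fin n → ℂ}
    (hw : ∀ l, Sp V C (w l) (w' l)) {b : Fin r → Fin n → ℂ} (hb : ∀ j l, b j l ∈ C)
    {c c' : Fin r → ℂ} (hc : ∀ j, Sp V C (c j) (c' j)) (l : Fin n) :
    Sp V C (vec w b c l) (vec w' b c' l) :=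
  (hw l).add hV (Sp.sum hV _ fun j _ => (hc j).mul hV (Sp.const hV (hb j l)))

/-- two members with the same transversal limit are equal -/
theorem lim_inj {n : ℕ} {F : Fin r → MvPolynomial (Fin n) ℂ} {C : Fl} {V : ValuationSubring ℂ}
    (hV : IsPl V C) (hFC : ∀ i, Coef C (F i)) {w w' : Fin n → ℂ} (hw : ∀ l, Sp V C (w l) (w' l))
    {b : Fin r → Fin n → ℂ} (hb : ∀ j l, b j l ∈ C) {c c₁ c' : Fin r → ℂ}
    (hc : ∀ j, Sp V C (c j) (c' j)) (hc₁ : ∀ j, Sp V C (c₁ j) (c' j)) (h : c ∈ SecC F w b)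
    (h₁ : c₁ ∈ SecC F w b) (hJ : (jacM F (vec w' b c') b).det ≠ 0) : c = c₁ := by
  classical
  choose g hg hg' using fun i => pen_exists_diff hV (vec_sp hV hw hb hc) (vec_sp hV hw hb hc₁) (hFC i)
  set A : Matrix (Fin r) (Fin r) ℂ := Matrix.of fun i j => ∑ l, g i l * b j l with hA
  have hAs : Sp V C A.det (jacM F (vec w' b c') b).det := by
    rw [Matrix.det_apply', Matrix.det_apply']
    refine Sp.sum hV _ fun σ _ => Sp.mul hV (Sp.const hV ?_) (Sp.prod hV _ fun i _ => ?_)
    · exact intCast_mem C _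
    · simp only [hA, jacM, Matrix.of_apply]
      exact Sp.sum hV _ fun l _ => Sp.mul hV (hg _ l) (Sp.const hV (hb _ _))
  have hA0 : A.det ≠ 0 := hAs.ne_zero hV hJ
  have h2 : A.mulVec (fun j => c j - c₁ j) = 0 := by
    funext i
    have h3 := hg' i
    rw [h i, h₁ i, sub_self] at h3
    have h4 : ∀ l, vec w b c l - vec w b c₁ l = ∑ j, (c j - c₁ j) * b j l := by
      intro l
      unfold vec
      rw [add_sub_add_left_eq_sub, ← Finset.sum_sub_distrib]
      exact Finset.sum_congr rfl fun j _ => by ring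
    rw [Pi.zero_apply, h3, Matrix.mulVec, dotProduct]
    simp only [hA, Matrix.of_apply, h4, Finset.mul_sum, Finset.sum_mul]
    rw [Finset.sum_comm]
    exact Finset.sum_congr rfl fun l _ => Finset.sum_congr rfl fun j _ => by ring
  have h5 := Matrix.eq_zero_of_mulVec_eq_zero hA0 h2
  funext j
  have h6 := congrFun h5 j
  simp only [Pi.zero_apply] at h6
  exact sub_eq_zero.1 h6

/-- limits exist -/
theorem lim_ex (hd : ∀ i, 2 ≤ d i) (hF : ∀ i, (F i).IsHomogeneous (d i)) (k : Fl)
    [Countable k]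
    (hind : AlgebraicIndependent k (fun m : MonA (r + 3) d => coeff m.1.2 (F m.1.1)))
    (E : Fl) [Countable E] (hKE : cof k F ≤ E) {b : Fin r → Fin (r + 3) → ℂ}
    (hb : AlgebraicIndependent E fun jl : Fin r × Fin (r + 3) => b jl.1 jl.2)
    {C : Fl} [Countable C] (hC : clo C = C) (hEC : E ≤ C) (hbC : ∀ j l, b j l ∈ C)
    {V : ValuationSubring ℂ} (hV : IsPl V C) {u u₀ : ℂ} (hu : u ∉ C) (hu₀ : Sp V C u u₀)
    {w w' : Fin (r + 3) → ℂ} (hw : ∀ l, Sp V C (w l) (w' l)) {c : Fin r → ℂ}
    (hc : c ∈ SecC F w b) (hcu : ∀ j, c j ∈ clo (adj C {u})) :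
    ∃ c' ∈ SecC F w' b, ∀ j, Sp V C (c j) (c' j) := by
  have hFC : ∀ i, Coef C (F i) := fun i m => hEC (hKE (subset_adj _ _ ⟨(i, m), rfl⟩))
  have hcV : ∀ j, c j ∈ V := by
    by_contra hcon
    push Not at hcon
    obtain ⟨j₁, hj₁⟩ := hcon
    obtain ⟨m, -, hm⟩ := Finset.exists_max_image (Finset.univ : Finset (Fin r))
      (fun j => V.valuation (c j)) ⟨j₁, Finset.mem_univ j₁⟩
    have h1 : 1 < V.valuation (c m) := by
      refine lt_of_lt_of_le ?_ (hm j₁ (Finset.mem_univ j₁))
      rw [← not_le, V.valuation_le_one_iff]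
      exact hj₁
    have hv0 : V.valuation (c m) ≠ 0 := fun h => by
      rw [h] at h1
      exact absurd h1 (not_lt.2 zero_le)
    have hcm : c m ≠ 0 := (Valuation.ne_zero_iff _).1 hv0
    have hinv : Sp V C (c m)⁻¹ 0 := by
      refine ⟨C.zero_mem, ?_⟩
      rw [sub_zero, map_inv₀]
      exact (inv_lt_one₀ (zero_lt_iff.2 hv0)).2 h1
    have h2 : ∀ j, ∃ c', Sp V C (c j / c m) c' := by
      intro j
      refine exists_sp hC hV hu hu₀ ((clo (adj C {u})).div_mem (hcu j) (hcu m)) ?_
      rw [← ValuationSubring.valuation_le_one_iff, map_div₀]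
      exact div_le_one_of_le₀ (hm j (Finset.mem_univ j)) zero_le
    choose c' hc' using h2
    have hcm' : c' m = 1 := by
      have h4 := hc' m
      rw [div_self hcm] at h4
      exact Sp.unique hV h4 (Sp.const hV C.one_mem)
    have hc'0 : c' ≠ 0 := by
      intro h0
      rw [h0] at hcm'
      exact zero_ne_one hcm'
    obtain ⟨i, hi⟩ := sec_empty hd hF k hind E hKE hb hc'0
    apply hi
    have h5 : ∀ l, Sp V C ((c m)⁻¹ * vec w b c l) (vec 0 b c' l) := by
      intro l
      have h6 : (c m)⁻¹ * vec w b c l = (c m)⁻¹ * w l + ∑ j, c j / c m * b j l := by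
        unfold vec
        rw [mul_add, Finset.mul_sum]
        congr 1
        exact Finset.sum_congr rfl fun j _ => by rw [div_eq_mul_inv]; ring
      have h7 : vec 0 b c' l = 0 * w' l + ∑ j, c' j * b j l := by
        unfold vec
        rw [Pi.zero_apply, zero_mul]
      rw [h6, h7]
      exact (hinv.mul hV (hw l)).add hV (Sp.sum hV _ fun j _ =>
        (hc' j).mul hV (Sp.const hV (hbC j l)))
    have h8 := Sp.aeval hV (hFC i) h5
    have h9 : aeval (fun l => (c m)⁻¹ * vec w b c l) (F i) = 0 := by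
      rw [pp_aeval_scale (hF i) (w := vec w b c) (a := (c m)⁻¹) (fun _ => rfl), hc i, mul_zero]
    rw [h9] at h8
    exact Sp.unique hV h8 (Sp.const hV C.zero_mem)
  choose c' hc' using fun j => exists_sp hC hV hu hu₀ (hcu j) (hcV j)
  refine ⟨c', fun i => ?_, hc'⟩
  have h8 := Sp.aeval hV (hFC i) (vec_sp hV hw hbC hc')
  rw [hc i] at h8
  exact Sp.unique hV h8 (Sp.const hV C.zero_mem)

end Pool.Agent.VCI
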