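import Pool.Agent.VCI.PenB

/-! Pencils of sections (doc S/MP_31564d_pres, (P)): the number of points of a section. -/

set_option autoImplicit false

open MvPolynomial

namespace Pool.Agent.VCI

open Pool.Agent.VGS

variable {r : ℕ} {d : Fin r → ℕ} {F : Fin r → MvPolynomial (Fin (r + 3)) ℂ}

/-- a field automorphism which fixes the coefficients maps sections to sections -/
theorem sec_conj {n : ℕ} {F : Fin r → MvPolynomial (Fin n) ℂ} {K : Fl}
    (hFK : ∀ i, Coef K (F i)) {σ : ℂ ≃+* ℂ} (hσ : σ ∈ VGS.Fix K) {w w' : Fin n → ℂ}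
    {b b' : Fin r → Fin n → ℂ} (hw : ∀ l, σ (w l) = w' l) (hb : ∀ j l, σ (b j l) = b' j l)
    {c : Fin r → ℂ} (hc : c ∈ SecC F w b) : (fun j => σ (c j)) ∈ SecC F w' b' := by
  intro i
  have h1 : vec w' b' (fun j => σ (c j)) = fun l => σ (vec w b c l) := by
    funext l
    unfold vec
    rw [map_add, map_sum, hw]
    congr 1
    exact Finset.sum_congr rfl fun j _ => by rw [map_mul, hb]
  rw [h1, aeval_fix (hFK i) hσ, hc i, map_zero]

/-- the number of points of `X ∩ ⟨x, b_1, …, b_r⟩` does not depend on `x` and `b` -/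
theorem sec_card (hd : ∀ i, 2 ≤ d i) (hF : ∀ i, (F i).IsHomogeneous (d i)) (k : Fl)
    [Countable k]
    (hind : AlgebraicIndependent k (fun m : MonA (r + 3) d => coeff m.1.2 (F m.1.1)))
    (hr : 0 < r) : ∃ D : ℕ, ∀ (E : Fl) [Countable E], clo E = E → cof k F ≤ E →
      ∀ (x : Fin (r + 3) → ℂ), (∀ l, x l ∈ E) → x ≠ 0 → (∀ i, aeval x (F i) = 0) →
      ∀ (b : Fin r → Fin (r + 3) → ℂ),
      AlgebraicIndependent E (fun jl : Fin r × Fin (r + 3) => b jl.1 jl.2) →
        (SecC F x b).ncard = D := by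
  classical
  have hFK : ∀ i, Coef (cof k F) (F i) := fun i m => subset_adj _ _ ⟨(i, m), rfl⟩
  obtain ⟨y, hy⟩ : ∃ y : Fin (r + 3) ⊕ Fin r × Fin (r + 3) → ℂ,
      AlgebraicIndependent (cof k F) y := by
    obtain ⟨x, hx⟩ := exists_algInd (cof k F)
      (Fintype.card (Fin (r + 3) ⊕ Fin r × Fin (r + 3)))
    exact ⟨x ∘ Fintype.equivFin _, hx.comp _ (Equiv.injective _)⟩
  refine ⟨(SecC F (fun l => y (Sum.inl l)) (fun j l => y (Sum.inr (j, l)))).ncard, ?_⟩
  intro E _ hE hKE x hx hx0 hxF b hb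
  have hcb : Countable (Set.range fun jl : Fin r × Fin (r + 3) => b jl.1 jl.2) :=
    (Set.countable_range _).to_subtype
  obtain ⟨b₀, hb₀⟩ := exists_algInd
    (adj E (Set.range fun jl : Fin r × Fin (r + 3) => b jl.1 jl.2)) (r + 3)
  have h1 : AlgebraicIndependent E
      (Sum.elim (fun jl : Fin r × Fin (r + 3) => b jl.1 jl.2) b₀) := ai_sum.2 ⟨hb, hb₀⟩
  have h2 : AlgebraicIndependent E
      (Sum.elim b₀ fun jl : Fin r × Fin (r + 3) => b jl.1 jl.2) := by
    refine (algebraicIndependent_equiv' (Equiv.sumComm (Fin (r + 3)) (Fin r × Fin (r + 3)))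
      (f := Sum.elim (fun jl : Fin r × Fin (r + 3) => b jl.1 jl.2) b₀) ?_).2 h1
    ext (i | i) <;> rfl
  rw [pen_card hd hF k hind hr E hE hKE hx hx0 hxF h2]
  obtain ⟨σ, hσ, hσy⟩ := fs_exists_fix_ai (cof k F) (ai_mono hKE h2) hy
  have hw : ∀ l, σ (b₀ l) = y (Sum.inl l) := fun l => hσy (Sum.inl l)
  have hbb : ∀ j l, σ (b j l) = y (Sum.inr (j, l)) := fun j l => hσy (Sum.inr (j, l))
  have himg : SecC F (fun l => y (Sum.inl l)) (fun j l => y (Sum.inr (j, l))) =
      (fun (c : Fin r → ℂ) j => σ (c j)) '' SecC F b₀ b := by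
    ext c
    constructor
    · intro hc
      refine ⟨fun j => σ⁻¹ (c j), sec_conj hFK ((VGS.Fix _).inv_mem hσ) (fun l => ?_)
        (fun j l => ?_) hc, ?_⟩
      · rw [← hw l]
        exact σ.symm_apply_apply _
      · rw [← hbb j l]
        exact σ.symm_apply_apply _
      · funext j
        exact σ.apply_symm_apply _
    · rintro ⟨c', hc', rfl⟩
      exact sec_conj hFK hσ hw hbb hc'
  rw [himg, Set.ncard_image_of_injective]
  intro c c₁ h
  funext j
  exact σ.injective (congrFun h j)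

end Pool.Agent.VCI
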