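import Pool.Agent.VCI.MuA
import Pool.Agent.VCI.FrameDefs
import Pool.Agent.VCI.Defs

/-! Existence of the action on Chow groups (doc S/MP_31564d_pres): definitions. -/

set_option autoImplicit false

open scoped LinearAlgebra.Projectivization
open MvPolynomial

namespace Pool.Agent.VCI

variable {n r : ℕ}

/-- The vector `w + ∑ c_j b_j`. -/
noncomputable def vec (w : Fin n → ℂ) (b : Fin r → Fin n → ℂ) (c : Fin r → ℂ) : Fin n → ℂ :=
  fun l => w l + ∑ j, c j * b j l

/-- The points of `X` in the span of `w, b_1, …, b_r` (with coordinate of `w` equal to `1`). -/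
def SecC (F : Fin r → MvPolynomial (Fin n) ℂ) (w : Fin n → ℂ) (b : Fin r → Fin n → ℂ) :
    Set (Fin r → ℂ) := {c | ∀ i, aeval (vec w b c) (F i) = 0}

/-- The cycle of these points. -/
noncomputable def secCy [NeZero n] (F : Fin r → MvPolynomial (Fin n) ℂ) (w : Fin n → ℂ)
    (b : Fin r → Fin n → ℂ) : Cy n :=
  ∑ᶠ c ∈ SecC F w b, Finsupp.single (mkP (vec w b c)) (1 : ℚ)

/-- The cycle `μ(x) = X ∩ ⟨b₀, …, b_r⟩ - (X ∩ ⟨x, b_1, …, b_r⟩ - x)`. -/
noncomputable def muV [NeZero n] (F : Fin r → MvPolynomial (Fin n) ℂ) (b₀ : Fin n → ℂ)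
    (b : Fin r → Fin n → ℂ) (x : PN n) : Cy n :=
  secCy F b₀ b - (secCy F x.rep b - Finsupp.single x 1)

end Pool.Agent.VCI
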