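import Pool.Agent.VCI.Asm1

/-! Complete intersections, module S1: invariant cycles with arbitrary support. -/

set_option autoImplicit false

open scoped LinearAlgebra.Projectivization
open MvPolynomial

namespace Pool.Agent.VCI

open Pool.Agent.VGS

variable {r : ℕ} {d : Fin r → ℕ} {F : Fin r → MvPolynomial (Fin (r + 3)) ℂ}

theorem single_ne_zero {n : ℕ} (j : Fin n) : (Pi.single j 1 : Fin n → ℂ) ≠ 0 := by
  intro h
  have := congrFun h j
  rw [Pi.single_eq_same] at this
  exact one_ne_zero this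

/-- the points of the frame are fixed -/
theorem frame_fix {k : Fl} {M : Matrix (Fin (r + 3)) (Fin (r + 3)) ℂ} (hdet : M.det ≠ 0)
    {σ : ℂ ≃+* ℂ} (hσ : σ ∈ VGS.Fix (frE k F M)) (j : Fin (r + 3)) :
    act σ (mkP (M.mulVec (Pi.single j 1))) = mkP (M.mulVec (Pi.single j 1)) := by
  rw [asm_act_mkP hdet (asm_mem_frE k F M) hσ (single_ne_zero j)]
  congr 2
  funext i
  by_cases hi : i = j
  · subst hi
    simp
  · rw [Pi.single_eq_of_ne hi, map_zero]

/-- `linO` is stable under the automorphisms over `E` -/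
theorem linO_act (hF : ∀ i, (F i).IsHomogeneous (d i)) {k : Fl} {p q : PN (r + 3)}
    {M : Matrix (Fin (r + 3)) (Fin (r + 3)) ℂ} (hM : IsFrame k F d p q M) {σ : ℂ ≃+* ℂ}
    (hσ : σ ∈ VGS.Fix (frE k F M)) {x : PN (r + 3)} (hx : x ∈ linO F M p q) :
    act σ x ∈ linO F M p q := by
  obtain ⟨hxF, hxp, hxq, w, hw, hw0, rfl⟩ := hx
  have hFK : ∀ i, Coef (cof k F) (F i) := fun i => coef_cof k F i
  refine ⟨(act_mem_surf hF hFK (Fix_mono hM.le hσ)).2 hxF, fun h => hxp ?_, fun h => hxq ?_,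
    fun i => σ (w i), map_ne_zero' σ hw, fun i hi => ?_, ?_⟩
  · have h1 := frame_fix (k := k) (F := F) hM.det hσ (lst r)
    rw [← hM.pt] at h1
    exact act_injective σ (h.trans h1.symm)
  · have h1 := frame_fix (k := k) (F := F) hM.det hσ (pen r)
    rw [← hM.pt'] at h1
    exact act_injective σ (h.trans h1.symm)
  · simp only [hw0 i hi, map_zero]
  · exact asm_act_mkP hM.det (asm_mem_frE k F M) hσ hw

/-- `linO` is the orbit of each of its points -/
theorem linO_orb (hr : 0 < r) (hF : ∀ i, (F i).IsHomogeneous (d i)) (hd : ∀ i, 2 ≤ d i) {k : Fl}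
    [Countable k] {p q : PN (r + 3)} {M : Matrix (Fin (r + 3)) (Fin (r + 3)) ℂ}
    (hM : IsFrame k F d p q M) {x : PN (r + 3)} (hx : x ∈ linO F M p q) :
    Orb (frE k F M) x = sumSet (linO F M p q) := by
  unfold Orb
  congr 1
  ext y
  constructor
  · rintro ⟨σ, hσ, rfl⟩
    exact linO_act hF hM hσ hx
  · exact fun hy => linO_conj hr hF hd hM hx hy

theorem linO_finite (hr : 0 < r) (hF : ∀ i, (F i).IsHomogeneous (d i)) (hd : ∀ i, 2 ≤ d i) {k : Fl}
    [Countable k] {p q : PN (r + 3)} {M : Matrix (Fin (r + 3)) (Fin (r + 3)) ℂ}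
    (hM : IsFrame k F d p q M) : (linO F M p q).Finite := by
  rcases (linO F M p q).eq_empty_or_nonempty with h | ⟨x, hx⟩
  · rw [h]
    exact Set.finite_empty
  · refine (finite_orbit_pt (frE k F M) (linO_over hr hF hd hM hx)).subset fun y hy => ?_
    exact linO_conj hr hF hd hM hx hy

/-- Invariant cycles on the surface are combinations of `p`, `q` and of `linO`. -/
theorem asm1 (hr : 0 < r) (hF : ∀ i, (F i).IsHomogeneous (d i)) (hd : ∀ i, 2 ≤ d i) (k : Fl)
    [Countable k] {p q : PN (r + 3)} {M : Matrix (Fin (r + 3)) (Fin (r + 3)) ℂ}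
    (hM : IsFrame k F d p q M) {y : Cy (r + 3)}
    (hy : ∀ x ∈ y.support, x ∈ ciS F ∧ Over (clo (frE k F M)) x)
    (hst : ∀ σ ∈ VGS.Fix (frE k F M), actC σ y = y) :
    ∃ m m' a : ℚ, y - m • Finsupp.single p 1 - m' • Finsupp.single q 1 -
      a • sumSet (linO F M p q) ∈ ratQ F := by
  classical
  have hdet := hM.det
  -- the submodule
  let W : Submodule ℚ (Cy (r + 3)) := ratQ F ⊔
    (Submodule.span ℚ {Finsupp.single p 1} ⊔
      Submodule.span ℚ {Finsupp.single q 1, sumSet (linO F M p q)})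
  have hN : ratQ F ≤ W := le_sup_left
  have hpW : (Finsupp.single p 1 : Cy (r + 3)) ∈ W :=
    Submodule.mem_sup_right (Submodule.mem_sup_left (Submodule.subset_span rfl))
  have hqW : (Finsupp.single q 1 : Cy (r + 3)) ∈ W :=
    Submodule.mem_sup_right (Submodule.mem_sup_right
      (Submodule.subset_span (Set.mem_insert _ _)))
  have hLW : sumSet (linO F M p q) ∈ W :=
    Submodule.mem_sup_right (Submodule.mem_sup_right
      (Submodule.subset_span (Set.mem_insert_of_mem _ rfl)))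
  have hfix : ∀ (j : Fin (r + 3)), Orb (frE k F M) (mkP (M.mulVec (Pi.single j 1))) =
      Finsupp.single (mkP (M.mulVec (Pi.single j 1))) 1 := by
    intro j
    unfold Orb
    have h2 : {q' | ∃ σ ∈ VGS.Fix (frE k F M), act σ (mkP (M.mulVec (Pi.single j 1))) = q'} =
        {mkP (M.mulVec (Pi.single j 1))} := by
      ext q'
      constructor
      · rintro ⟨σ, hσ, rfl⟩
        exact frame_fix hdet hσ j
      · intro h
        exact ⟨1, one_mem _, by rw [act_one, Set.mem_singleton_iff.1 h]⟩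
    rw [h2]
    ext x
    rw [asm_sumSet_apply (Set.finite_singleton _), Finsupp.single_apply]
    simp only [Set.mem_singleton_iff, eq_comm]
  -- the points with `z₀ = z₁ = 0`
  have hline : ∀ w : Fin (r + 3) → ℂ, w ≠ 0 → (∀ i : Fin (r + 3), (i : ℕ) ≤ 1 → w i = 0) →
      mkP (M.mulVec w) ∈ ciS F → Orb (frE k F M) (mkP (M.mulVec w)) ∈ W := by
    intro w hw hw0 hwF
    by_cases h1 : mkP (M.mulVec w) = p
    · rw [h1, hM.pt, hfix, ← hM.pt]
      exact hpW
    by_cases h2 : mkP (M.mulVec w) = q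
    · rw [h2, hM.pt', hfix, ← hM.pt']
      exact hqW
    rw [linO_orb hr hF hd hM ⟨hwF, h1, h2, w, hw, hw0, rfl⟩]
    exact hLW
  -- from one step to the next
  have hstep : ∀ (q : PN (r + 3)) (e : ℕ) (y' : Cy (r + 3)), 0 < e →
      (e : ℚ) • Orb (frE k F M) q + y' ∈ ratQ F → y' ∈ W →
      Orb (frE k F M) q ∈ W := by
    intro q e y' he h1 h2
    have h3 : (e : ℚ) • Orb (frE k F M) q ∈ W := by
      have := W.sub_mem (hN h1) h2
      rwa [add_sub_cancel_right] at this
    have h4 := W.smul_mem ((e : ℚ)⁻¹) h3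
    rwa [smul_smul, inv_mul_cancel₀ (by exact_mod_cast he.ne'), one_smul] at h4
  have hspan : ∀ y' : Cy (r + 3), (∀ σ ∈ VGS.Fix (frE k F M), actC σ y' = y') →
      (∀ q ∈ y'.support, Over (clo (frE k F M)) q) →
      (∀ q ∈ y'.support, Orb (frE k F M) q ∈ W) → y' ∈ W := by
    intro y' h1 h2 h3
    refine (Submodule.span_le.2 ?_) (mem_span_orb _ y' h1 h2)
    rintro w ⟨q, hq, rfl⟩
    exact h3 q hq
  have hnorm : ∀ (z : Fin (r + 3) → ℂ) (j : Fin (r + 3)), z j ≠ 0 →
      ((z j)⁻¹ • z) j = 1 ∧ mkP (M.mulVec ((z j)⁻¹ • z)) = mkP (M.mulVec z) := by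
    intro z j hj
    have hz : z ≠ 0 := by
      rintro rfl
      exact hj rfl
    refine ⟨?_, asm_mkP_mulVec_smul hdet hz (inv_ne_zero hj)⟩
    rw [Pi.smul_apply, smul_eq_mul, inv_mul_cancel₀ hj]
  -- the points of the hyperplane
  have hplane : ∀ z : Fin (r + 3) → ℂ, z ≠ 0 → z ⟨0, by omega⟩ = 0 → mkP (M.mulVec z) ∈ ciS F →
      Over (clo (frE k F M)) (mkP (M.mulVec z)) → Orb (frE k F M) (mkP (M.mulVec z)) ∈ W := by
    intro z hz h0 hzF hzE
    by_cases h1 : z ⟨1, by omega⟩ = 0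
    · refine hline z hz (fun i hi => ?_) hzF
      rcases Nat.le_one_iff_eq_zero_or_eq_one.1 hi with h | h
      · rw [show i = ⟨0, by omega⟩ from Fin.ext h, h0]
      · rw [show i = ⟨1, by omega⟩ from Fin.ext h, h1]
    · obtain ⟨h2, h3⟩ := hnorm z ⟨1, by omega⟩ h1
      rw [← h3] at hzF hzE ⊢
      obtain ⟨e, y', he, hy1, hy2, hy3⟩ := asm_step1 hr hF hd k hM ⟨1, by omega⟩ le_rfl
        (by
          intro i hi
          have : i = ⟨0, by omega⟩ := by
            apply Fin.ext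
            have : (i : ℕ) < 1 := hi
            simpa using this
          rw [this, Pi.smul_apply, h0, smul_zero]) h2 hzF hzE
      refine hstep _ e y' he hy3 (hspan y' hy1 (fun q hq => (hy2 q hq).2.1) ?_)
      intro q hq
      obtain ⟨h6, -, w, hw, hw0, rfl⟩ := hy2 q hq
      exact hline w hw (fun i hi => hw0 i hi) h6
  -- the generic points
  have hgen : ∀ q ∈ y.support, Orb (frE k F M) q ∈ W := by
    intro q hq
    obtain ⟨hqG, hqE⟩ := hy q hq
    obtain ⟨z, hz, rfl⟩ := asm_exists_mkP hdet q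
    by_cases h0 : z ⟨0, by omega⟩ = 0
    · exact hplane z hz h0 hqG hqE
    · obtain ⟨h2, h3⟩ := hnorm z ⟨0, by omega⟩ h0
      rw [← h3] at hqG hqE ⊢
      obtain ⟨e, y', he, hy1, hy2, hy3⟩ := asm_step1 hr hF hd k hM ⟨0, by omega⟩ (by simp)
        (by
          intro i hi
          exact absurd hi (Nat.not_lt_zero i)) h2 hqG hqE
      refine hstep _ e y' he hy3 (hspan y' hy1 (fun q hq => (hy2 q hq).2.1) ?_)
      intro q hq
      obtain ⟨h6, h7, w, hw, hw0, rfl⟩ := hy2 q hq
      exact hplane w hw (hw0 _ le_rfl) h6 h7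
  have hyW : y ∈ W := hspan y hst (fun q hq => (hy q hq).2) hgen
  obtain ⟨n, hn, v, hv, hnv⟩ := Submodule.mem_sup.1 hyW
  obtain ⟨v₁, hv₁, v₂, hv₂, hv12⟩ := Submodule.mem_sup.1 hv
  obtain ⟨m, hm⟩ := Submodule.mem_span_singleton.1 hv₁
  obtain ⟨m', a, hma⟩ := Submodule.mem_span_pair.1 hv₂
  refine ⟨m, m', a, ?_⟩
  have h1 : y - m • Finsupp.single p 1 - m' • Finsupp.single q 1 - a • sumSet (linO F M p q) =
      n := by
    rw [← hnv, ← hv12, ← hma, ← hm]
    abel
  rw [h1]
  exact hn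

theorem s1_actC_sumSet {n : ℕ} (σ : ℂ ≃+* ℂ) {s : Set (PN n)} (hs : s.Finite) :
    actC σ (sumSet s) = sumSet (act σ '' s) := by
  unfold sumSet
  rw [finsum_mem_image (act_injective σ).injOn, finsum_mem_eq_finite_toFinset_sum _ hs,
    finsum_mem_eq_finite_toFinset_sum _ hs, map_sum]
  exact Finset.sum_congr rfl fun q _ => actC_single σ q 1

/-- the automorphism which exchanges the points of the frame preserves `linO` -/
theorem linO_swap (hr : 0 < r) (hF : ∀ i, (F i).IsHomogeneous (d i)) {k : Fl} {p q : PN (r + 3)}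
    {M : Matrix (Fin (r + 3)) (Fin (r + 3)) ℂ} {σ : ℂ ≃+* ℂ}
    (hσ : σ ∈ VGS.Fix (cof k F)) (hσp : act σ p = q) (hσq : act σ q = p)
    (hσM : ∀ i j, σ (M i j) = M i (Equiv.swap (pen r) (lst r) j)) :
    ∀ x ∈ linO F M p q, act σ x ∈ linO F M p q := by
  rintro x ⟨hxF, hxp, hxq, w, hw, hw0, rfl⟩
  have hFK : ∀ i, Coef (cof k F) (F i) := fun i => coef_cof k F i
  have hw' : (fun i => σ (w (Equiv.swap (pen r) (lst r) i))) ≠ 0 := by
    intro h
    apply hw
    funext i
    have h1 := congrFun h (Equiv.swap (pen r) (lst r) i)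
    simp only [Equiv.swap_apply_self, Pi.zero_apply] at h1
    exact (map_eq_zero σ).1 h1
  refine ⟨(act_mem_surf hF hFK hσ).2 hxF, fun h => hxq ?_, fun h => hxp ?_,
    fun i => σ (w (Equiv.swap (pen r) (lst r) i)), hw', fun i hi => ?_, ?_⟩
  · exact act_injective σ (h.trans hσq.symm)
  · exact act_injective σ (h.trans hσp.symm)
  · have h1 : i ≠ pen r := by
      rintro rfl
      simp only [pen] at hi
      omega
    have h2 : i ≠ lst r := by
      rintro rfl
      simp only [lst] at hi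
      omega
    simp only [Equiv.swap_apply_of_ne_of_ne h1 h2, hw0 i hi, map_zero]
  · rw [act_mkP_mulVec]
    congr 1
    funext i
    simp only [Matrix.mulVec, dotProduct, Matrix.map_apply, hσM]
    exact Fintype.sum_equiv (Equiv.swap (pen r) (lst r)) _ _ fun j => by
      simp only [Equiv.swap_apply_self]

/-- **Theorem S** for one correspondence, with arbitrary support. -/
theorem s1 (hr : 0 < r) (hF : ∀ i, (F i).IsHomogeneous (d i)) (hd : ∀ i, 2 ≤ d i) (k : Fl)
    [Countable k]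
    (hind : AlgebraicIndependent k (fun m : MonA (r + 3) d => coeff m.1.2 (F m.1.1)))
    {α : PN (r + 3) → Cy (r + 3)} (hs : ∀ p ∈ Gen (cof k F) F, ∀ q ∈ (α p).support, q ∈ ciS F)
    (he : ∀ σ ∈ VGS.Fix (cof k F), ∀ p ∈ Gen (cof k F) F, α (act σ p) = actC σ (α p))
    {p q : PN (r + 3)} (hp : p ∈ Gen (cof k F) F) (hq : q ∈ Gen (adjP (cof k F) p) F) :
    ∃ m : ℚ, α p - α q - m • (Finsupp.single p 1 - Finsupp.single q 1) ∈ ratQ F := by
  classical
  obtain ⟨M, hM, σ, hσK, hσp, hσq, hσM⟩ := exists_frame hd hF k hind hp hq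
  have hFK : ∀ i, Coef (cof k F) (F i) := fun i => coef_cof k F i
  have hfin := linO_finite hr hF hd hM
  have hline : act σ '' linO F M p q = linO F M p q := by
    have h1 : act σ '' linO F M p q ⊆ linO F M p q := by
      rintro _ ⟨x, hx, rfl⟩
      exact linO_swap hr hF hσK hσp hσq hσM x hx
    exact Set.eq_of_subset_of_ncard_le h1
      (by rw [Set.ncard_image_of_injective _ (act_injective σ)]) hfin
  have hE : adjP (cof k F) p ≤ frE k F M := hM.ptE
  have hαp : ∀ τ ∈ VGS.Fix (adjP (cof k F) p), actC τ (α p) = α p := by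
    intro τ hτ
    rw [← he τ (mem_Fix_adjP.1 hτ).1 p hp, (mem_Fix_adjP.1 hτ).2]
  have hover : ∀ x ∈ (α p).support, Over (clo (frE k F M)) x := by
    intro x hx
    have h1 : Over (clo (adjP (cof k F) p)) x := by
      apply over_clo_of_finite
      refine ((α p).support.finite_toSet).subset ?_
      rintro x' ⟨τ, hτ, rfl⟩
      rw [Finset.mem_coe, Finsupp.mem_support_iff, ← hαp τ hτ, actC_apply, act_inv_act]
      exact Finsupp.mem_support_iff.1 hx
    exact h1.mono (clo_mono hE)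
  obtain ⟨m, m', a, hma⟩ := asm1 hr hF hd k hM (y := α p)
    (fun x hx => ⟨hs p hp x hx, hover x hx⟩) (fun τ hτ => hαp τ (Fix_mono hE hτ))
  refine ⟨m - m', ?_⟩
  have key2 : α q - m • Finsupp.single q 1 - m' • Finsupp.single p 1 -
      a • sumSet (linO F M p q) ∈ ratQ F := by
    have := actC_ratQ hF hFK hσK hma
    rwa [map_sub, map_sub, map_sub, map_smul, map_smul, map_smul, ← he σ hσK p hp, hσp,
      actC_single, hσp, actC_single, hσq, s1_actC_sumSet σ hfin, hline] at this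
  have := (ratQ F).sub_mem hma key2
  convert this using 1
  rw [smul_sub, sub_smul, sub_smul]
  abel

end Pool.Agent.VCI
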