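import Pool.Agent.VCI.CHQ

/-!
# Definitions for the statement on complete intersections
-/

set_option autoImplicit false

open scoped LinearAlgebra.Projectivization
open MvPolynomial

namespace Pool.Agent.VCI

variable {n r : ℕ}

/-- The complete intersection `F = 0` is a very general surface: the `F i` are forms of degrees
`d i ≥ 2` with sum at least `r + 3`, and all their coefficients together are algebraically
independent over `ℚ`. -/
structure IsVG (F : Fin r → MvPolynomial (Fin (r + 3)) ℂ) (d : Fin r → ℕ) : Prop where
  two_le : ∀ i, 2 ≤ d i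
  le_sum : r + 3 ≤ ∑ i, d i
  homogeneous : ∀ i, (F i).IsHomogeneous (d i)
  independent : AlgebraicIndependent ℚ
    (fun m : {im : Fin r × (Fin (r + 3) →₀ ℕ) // im.2.degree = d im.1} => coeff m.1.2 (F m.1.1))

/-- All products of `N` of the operators `Ψ i - q i` are zero on the classes of degree zero. -/
def WordsZero {S : Set (PN n)} {m : ℕ} (Ψ : Fin m → Module.End ℚ (CHQ S)) (q : Fin m → ℚ)
    (N : ℕ) : Prop :=
  ∀ word : Fin N → Fin m, ∀ z : S →₀ ℚ, degS z = 0 →
    (List.ofFn fun j => Ψ (word j) - q (word j) • 1).prod (clS z) = 0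

end Pool.Agent.VCI
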