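import Pool.Agent.VCI.PrDefs
import Pool.Agent.VCI.NC
import Pool.Agent.VCI.Gen
import Pool.Agent.VCI.Smooth

/-! Sections are generic and transversal (doc S/MP_31564d_pres, (D), (T)). -/

set_option autoImplicit false

open scoped LinearAlgebra.Projectivization
open MvPolynomial

namespace Pool.Agent.VCI

open Pool.Agent.VGS

/-! ### counting -/

section

variable {n : ℕ} {ι : Type} [Fintype ι] [DecidableEq ι]

/-- one independent vector in the span of the others and of a vector `w'` with few parameters -/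
theorem tr_cnt1 {L : Fl} {u : ι → Fin n → ℂ} {j : ι} (hu : ∀ i, i ≠ j → ∀ l, u i l ∈ L)
    (hj : AlgebraicIndependent L (u j)) {c : ι → ℂ} (hcj : c j ≠ 0) {w w' : Fin n → ℂ} {ξ : ℂ}
    (hw : ∀ l, w l = ∑ i, c i * u i l) (hw' : ∀ l, w l = ξ * w' l) {τ : Type} [Finite τ]
    {t : τ → ℂ} (ht : ∀ l, w' l ∈ clo (adj L (Set.range t)))
    (hcard : Nat.card τ + Fintype.card ι < n) : False := by
  set y : τ ⊕ ι → ℂ := Sum.elim t (fun i => if i = j then ξ / c j else - (c i / c j)) with hy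
  have h1 := ai_le_card hj (y := y) fun l => ?_
  · rw [Nat.card_sum, Nat.card_eq_fintype_card, Fintype.card_fin,
      Nat.card_eq_fintype_card (α := ι)] at h1
    omega
  have hL : L ≤ clo (adj L (Set.range y)) := (le_adj _ _).trans (le_clo _)
  have hyy : ∀ o, y o ∈ clo (adj L (Set.range y)) := fun o => le_clo _ (subset_adj _ _ ⟨o, rfl⟩)
  have ht' : ∀ l, w' l ∈ clo (adj L (Set.range y)) := by
    intro l
    refine clo_mono (adj_le (le_adj _ _) ?_) (ht l)
    rintro _ ⟨o, rfl⟩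
    exact subset_adj _ _ ⟨Sum.inl o, rfl⟩
  have h2 : u j l = y (Sum.inr j) * w' l +
      ∑ i ∈ Finset.univ.erase j, y (Sum.inr i) * u i l := by
    have h3 : ∑ i ∈ Finset.univ.erase j, y (Sum.inr i) * u i l =
        -(∑ i ∈ Finset.univ.erase j, c i * u i l) / c j := by
      rw [neg_div, Finset.sum_div, ← Finset.sum_neg_distrib]
      refine Finset.sum_congr rfl fun i hi => ?_
      have h4 : y (Sum.inr i) = - (c i / c j) := if_neg (Finset.ne_of_mem_erase hi)
      rw [h4]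
      ring
    have h5 : y (Sum.inr j) = ξ / c j := if_pos rfl
    have h6 := hw l
    rw [hw' l, ← Finset.add_sum_erase _ _ (Finset.mem_univ j)] at h6
    rw [h3, h5]
    field_simp
    linear_combination -h6
  rw [h2]
  exact add_mem (mul_mem (hyy _) (ht' l)) (sum_mem fun i hi =>
    mul_mem (hyy _) (hL (hu i (Finset.ne_of_mem_erase hi) l)))

omit [DecidableEq ι] in
/-- two independent vectors in a span with few parameters -/
theorem tr_cnt2 {L : Fl} {v v' : Fin n → ℂ} (hv : AlgebraicIndependent L (Sum.elim v v'))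
    {τ : Type} [Finite τ] {t : τ → ℂ} {W : ι → Fin n → ℂ}
    (hW : ∀ i l, W i l ∈ clo (adj L (Set.range t))) {P Q : ι → ℂ}
    (hP : ∀ l, v l = ∑ i, P i * W i l) (hQ : ∀ l, v' l = ∑ i, Q i * W i l)
    (hcard : Nat.card τ + 2 * Fintype.card ι < 2 * n) : False := by
  set y : τ ⊕ (ι ⊕ ι) → ℂ := Sum.elim t (Sum.elim P Q) with hy
  have hyy : ∀ o, y o ∈ clo (adj L (Set.range y)) := fun o => le_clo _ (subset_adj _ _ ⟨o, rfl⟩)
  have hW' : ∀ i l, W i l ∈ clo (adj L (Set.range y)) := by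
    intro i l
    refine clo_mono (adj_le (le_adj _ _) ?_) (hW i l)
    rintro _ ⟨o, rfl⟩
    exact subset_adj _ _ ⟨Sum.inl o, rfl⟩
  have h1 := ai_le_card hv (y := y) fun o => ?_
  · rw [Nat.card_sum, Nat.card_sum, Nat.card_sum, Nat.card_eq_fintype_card (α := Fin n),
      Fintype.card_fin, Nat.card_eq_fintype_card (α := ι)] at h1
    omega
  rcases o with l | l
  · rw [Sum.elim_inl, hP]
    exact sum_mem fun i _ => mul_mem (hyy (Sum.inr (Sum.inl i))) (hW' i l)
  · rw [Sum.elim_inr, hQ]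
    exact sum_mem fun i _ => mul_mem (hyy (Sum.inr (Sum.inr i))) (hW' i l)

/-- exchange of two vectors -/
theorem tr_exch {u : ι → Fin n → ℂ} {j j' : ι} (hjj : j ≠ j') {c a : ι → ℂ}
    (hΔ : c j * a j' - c j' * a j ≠ 0) {w v w' v' : Fin n → ℂ} {ξ η α β : ℂ}
    (hw : ∀ l, w l = ∑ i, c i * u i l) (hv : ∀ l, v l = ∑ i, a i * u i l)
    (hw' : ∀ l, w l = ξ * w' l + η * v' l) (hv' : ∀ l, v l = α * w' l + β * v' l) :
    ∃ P : ι → ℂ, ∀ l, u j l =
      ∑ i, P i * (if i = j then w' else if i = j' then v' else u i) l := by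
  obtain ⟨Δ, hΔd⟩ : ∃ Δ, Δ = c j * a j' - c j' * a j := ⟨_, rfl⟩
  rw [← hΔd] at hΔ
  refine ⟨fun i => if i = j then (a j' * ξ - c j' * α) / Δ else
    if i = j' then (a j' * η - c j' * β) / Δ else (c j' * a i - a j' * c i) / Δ, fun l => ?_⟩
  have hj' : j' ∈ Finset.univ.erase j := Finset.mem_erase.2 ⟨hjj.symm, Finset.mem_univ _⟩
  have h1 := hw l
  have h2 := hv l
  rw [← Finset.add_sum_erase _ _ (Finset.mem_univ j), ← Finset.add_sum_erase _ _ hj'] at h1 h2
  rw [hw' l] at h1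
  rw [hv' l] at h2
  rw [← Finset.add_sum_erase _ _ (Finset.mem_univ j), ← Finset.add_sum_erase _ _ hj']
  beta_reduce
  rw [if_pos rfl, if_pos rfl, if_neg hjj.symm, if_pos rfl, if_neg hjj.symm, if_pos rfl]
  have h3 : ∑ i ∈ (Finset.univ.erase j).erase j', (if i = j then
      (a j' * ξ - c j' * α) / Δ else
      if i = j' then (a j' * η - c j' * β) / Δ else (c j' * a i - a j' * c i) / Δ) *
        (if i = j then w' else if i = j' then v' else u i) l =
      (c j' * (∑ i ∈ (Finset.univ.erase j).erase j', a i * u i l) -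
        a j' * (∑ i ∈ (Finset.univ.erase j).erase j', c i * u i l)) / Δ := by
    rw [Finset.mul_sum, Finset.mul_sum, ← Finset.sum_sub_distrib, Finset.sum_div]
    refine Finset.sum_congr rfl fun i hi => ?_
    have h4 : i ≠ j' := Finset.ne_of_mem_erase hi
    have h5 : i ≠ j := Finset.ne_of_mem_erase (Finset.mem_of_mem_erase hi)
    rw [if_neg h5, if_neg h4, if_neg h5, if_neg h4]
    ring
  rw [h3]
  generalize (∑ i ∈ (Finset.univ.erase j).erase j', a i * u i l) = SA at h2 ⊢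
  generalize (∑ i ∈ (Finset.univ.erase j).erase j', c i * u i l) = SC at h1 ⊢
  have h6 : u j l * Δ = (a j' * ξ - c j' * α) * w' l + ((a j' * η - c j' * β) * v' l +
      (c j' * SA - a j' * SC)) := by
    rw [hΔd]
    linear_combination c j' * h2 - a j' * h1
  rw [eq_comm, ← mul_div_cancel_right₀ (u j l) hΔ, h6]
  ring

/-- no relation -/
theorem tr_rel {L : Fl} {u : ι → Fin n → ℂ} {j j' : ι}
    (hu : ∀ i, i ≠ j → i ≠ j' → ∀ l, u i l ∈ L)
    (hind2 : AlgebraicIndependent L (Sum.elim (u j) (u j'))) {e : ι → ℂ}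
    (he : e j ≠ 0 ∨ e j' ≠ 0) (h : ∀ l, ∑ i, e i * u i l = 0) (hcard : Fintype.card ι < n) :
    False := by
  rcases he with he | he
  · have h1 : AlgebraicIndependent L (Sum.elim (u j') (u j)) := by
      have h2 := hind2.comp Sum.swap (Function.LeftInverse.injective Sum.swap_swap)
      convert h2 using 1
      funext o
      rcases o with o | o
      · rfl
      · rfl
    refine tr_cnt1 (L := adj L (Set.range (u j'))) (u := u) (j := j) (fun i hi l => ?_)
      (ai_sum.1 h1).2 he (w := 0) (w' := 0) (ξ := 0) (fun l => (h l).symm) (fun l => ?_)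
      (t := fun i : Empty => i.elim) (fun l => zero_mem _) ?_
    · by_cases hj' : i = j'
      · subst hj'
        exact subset_adj _ _ ⟨l, rfl⟩
      · exact le_adj _ _ (hu i hi hj' l)
    · simp
    · simpa using hcard
  · refine tr_cnt1 (L := adj L (Set.range (u j))) (u := u) (j := j') (fun i hi l => ?_)
      (ai_sum.1 hind2).2 he (w := 0) (w' := 0) (ξ := 0) (fun l => (h l).symm) (fun l => ?_)
      (t := fun i : Empty => i.elim) (fun l => zero_mem _) ?_
    · by_cases hj : i = j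
      · subst hj
        exact subset_adj _ _ ⟨l, rfl⟩
      · exact le_adj _ _ (hu i hj hi l)
    · simp
    · simpa using hcard

omit [Fintype ι] [DecidableEq ι] in
theorem tr_split1 {E : Fl} {u : ι → Fin n → ℂ}
    (hb : AlgebraicIndependent E fun p : ι × Fin n => u p.1 p.2) (j : ι) :
    AlgebraicIndependent (adj E (Set.range fun p : {i : ι // i ≠ j} × Fin n => u p.1 p.2))
      (u j) := by
  let f : ({i : ι // i ≠ j} × Fin n) ⊕ Fin n → ι × Fin n :=
    Sum.elim (fun p => (p.1.1, p.2)) (fun l => (j, l))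
  have hf : Function.Injective f := by
    rintro (⟨⟨i, hi⟩, l⟩ | l) (⟨⟨i', hi'⟩, l'⟩ | l') h
    · obtain ⟨rfl, rfl⟩ := Prod.mk.inj h
      rfl
    · exact absurd (Prod.mk.inj h).1 hi
    · exact absurd (Prod.mk.inj h).1.symm hi'
    · rw [(Prod.mk.inj h).2]
  have h1 := hb.comp f hf
  have h2 : (fun p : ι × Fin n => u p.1 p.2) ∘ f =
      Sum.elim (fun p : {i : ι // i ≠ j} × Fin n => u p.1 p.2) (u j) := by
    funext o
    rcases o with o | o
    · rfl
    · rfl
  rw [h2] at h1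
  exact (ai_sum.1 h1).2

omit [Fintype ι] [DecidableEq ι] in
theorem tr_split2 {E : Fl} {u : ι → Fin n → ℂ}
    (hb : AlgebraicIndependent E fun p : ι × Fin n => u p.1 p.2) {j j' : ι} (hjj : j ≠ j') :
    AlgebraicIndependent
      (adj E (Set.range fun p : {i : ι // i ≠ j ∧ i ≠ j'} × Fin n => u p.1 p.2))
      (Sum.elim (u j) (u j')) := by
  let f : ({i : ι // i ≠ j ∧ i ≠ j'} × Fin n) ⊕ (Fin n ⊕ Fin n) → ι × Fin n :=
    Sum.elim (fun p => (p.1.1, p.2)) (Sum.elim (fun l => (j, l)) (fun l => (j', l)))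
  have hf : Function.Injective f := by
    rintro (⟨⟨i, hi⟩, l⟩ | l | l) (⟨⟨i', hi'⟩, l'⟩ | l' | l') h
    · obtain ⟨rfl, rfl⟩ := Prod.mk.inj h
      rfl
    · exact absurd (Prod.mk.inj h).1 hi.1
    · exact absurd (Prod.mk.inj h).1 hi.2
    · exact absurd (Prod.mk.inj h).1.symm hi'.1
    · rw [(Prod.mk.inj h).2]
    · exact absurd (Prod.mk.inj h).1 hjj
    · exact absurd (Prod.mk.inj h).1.symm hi'.2
    · exact absurd (Prod.mk.inj h).1.symm hjj
    · rw [(Prod.mk.inj h).2]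
  have h1 := hb.comp f hf
  have h2 : (fun p : ι × Fin n => u p.1 p.2) ∘ f =
      Sum.elim (fun p : {i : ι // i ≠ j ∧ i ≠ j'} × Fin n => u p.1 p.2)
        (Sum.elim (u j) (u j')) := by
    funext o
    rcases o with o | o | o
    · rfl
    · rfl
    · rfl
  rw [h2] at h1
  exact (ai_sum.1 h1).2

end

section

variable {r : ℕ} {d : Fin r → ℕ} {F : Fin r → MvPolynomial (Fin (r + 3)) ℂ}

/-- the points of `X` depend on two parameters -/
theorem tr_two (hF : ∀ i, (F i).IsHomogeneous (d i)) (k : Fl)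
    (hind : AlgebraicIndependent k (fun m : MonA (r + 3) d => coeff m.1.2 (F m.1.1)))
    {w : Fin (r + 3) → ℂ} {i₀ : Fin (r + 3)} (hw : w i₀ = 1) (hwF : ∀ i, aeval w (F i) = 0) :
    ∃ t : Fin 2 → ℂ, ∀ l, w l ∈ clo (adj (cof k F) (Set.range t)) := by
  by_cases h : ∃ j l, AlgebraicIndependent (cof k F) ![w j, w l]
  · obtain ⟨j, l, h⟩ := h
    refine ⟨![w j, w l], fun m => ?_⟩
    have hr : Set.range ![w j, w l] = {w j, w l} := by
      ext a
      simp [or_comm]
    rw [hr]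
    exact alg_pair k hF hind le_rfl hw hwF (le_clo _ (subset_adj _ _ ⟨j, rfl⟩))
      (le_clo _ (subset_adj _ _ ⟨l, rfl⟩)) h (le_clo _ (subset_adj _ _ ⟨m, rfl⟩))
  · push Not at h
    obtain ⟨t, ht⟩ := exists_par' h
    refine ⟨fun _ => t, fun m => clo_mono (adj_le (le_adj _ _) ?_) (ht m)⟩
    rintro _ rfl
    exact subset_adj _ _ ⟨0, rfl⟩

/-- a vector in the kernel of the differentials depends on one more parameter -/
theorem tr_ker (hS : IsSmoothCI F d) {M : Fl} (hFM : ∀ i, Coef M (F i))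
    {w : Fin (r + 3) → ℂ} (hwM : ∀ l, w l ∈ M) {i₀ : Fin (r + 3)} (hw : w i₀ = 1)
    (hwF : ∀ i, aeval w (F i) = 0) {v : Fin (r + 3) → ℂ}
    (hv : ∀ i, ∑ l, aeval w (pderiv l (F i)) * v l = 0) (hne : ∃ l, v l ≠ v i₀ * w l) :
    ∃ (ρ β : ℂ) (v' : Fin (r + 3) → ℂ), (∀ l, v' l ∈ clo (adj M {ρ})) ∧
      ∀ l, v l = v i₀ * w l + β * v' l := by
  obtain ⟨l₀, hl₀⟩ := hne
  have hβ : v l₀ - v i₀ * w l₀ ≠ 0 := sub_ne_zero.2 hl₀
  obtain ⟨β, hβd⟩ : ∃ β, β = v l₀ - v i₀ * w l₀ := ⟨_, rfl⟩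
  rw [← hβd] at hβ
  obtain ⟨v', hv'⟩ : ∃ v' : Fin (r + 3) → ℂ, ∀ l, v' l = (v l - v i₀ * w l) / β :=
    ⟨_, fun _ => rfl⟩
  have hv'i : v' i₀ = 0 := by rw [hv', hw, mul_one, sub_self, zero_div]
  have hv'l : v' l₀ = 1 := by rw [hv', ← hβd, div_self hβ]
  have hw0 : w ≠ 0 := by
    intro h
    rw [h] at hw
    exact zero_ne_one hw
  have hA : ∀ i l, aeval w (pderiv l (F i)) ∈ M := fun i l =>
    mu_aeval_mem (mu_coef_pderiv (hFM i) l) hwM
  have hwk : ∀ i, ∑ l, aeval w (pderiv l (F i)) * w l = 0 := by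
    intro i
    rw [← dFc_self hS hwF i, dFc]
    exact Finset.sum_congr rfl fun l _ => mul_comm _ _
  have hvk : ∀ i, ∑ l, aeval w (pderiv l (F i)) * v' l = 0 := by
    intro i
    have h1 : ∀ l, aeval w (pderiv l (F i)) * v' l = (aeval w (pderiv l (F i)) * v l -
        v i₀ * (aeval w (pderiv l (F i)) * w l)) / β := by
      intro l
      rw [hv']
      ring
    rw [Finset.sum_congr rfl fun l _ => h1 l, ← Finset.sum_div, Finset.sum_sub_distrib,
      ← Finset.mul_sum, hv i, hwk i]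
    simp
  have hDk : ∀ D : Derivation ℤ ℂ ℂ, Kills M D → ∀ i,
      ∑ l, aeval w (pderiv l (F i)) * D (v' l) = 0 := by
    intro D hD i
    have h1 := congrArg D (hvk i)
    rw [map_zero, map_sum] at h1
    rw [← h1]
    refine Finset.sum_congr rfl fun l _ => ?_
    rw [Derivation.leibniz, hD _ (hA i l), smul_zero, add_zero, smul_eq_mul]
  have key : ∀ p q, ¬ AlgebraicIndependent M ![v' p, v' q] := by
    intro p q hpq
    obtain ⟨D₁, hD₁, h1p, h1q⟩ := exists_kills M hpq 1 0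
    obtain ⟨D₂, hD₂, h2p, h2q⟩ := exists_kills M hpq 0 1
    obtain ⟨A, hAd⟩ : ∃ A : Matrix (Fin r) (Fin (r + 3)) ℂ,
        A = Matrix.of fun i l => aeval w (pderiv l (F i)) := ⟨_, rfl⟩
    have hmem : ∀ x : Fin (r + 3) → ℂ, (∀ i, ∑ l, aeval w (pderiv l (F i)) * x l = 0) →
        x ∈ LinearMap.ker A.mulVecLin := by
      intro x hx
      rw [LinearMap.mem_ker, Matrix.mulVecLin_apply]
      funext i
      rw [hAd]
      exact hx i
    let f : Fin 4 → LinearMap.ker A.mulVecLin := ![⟨w, hmem w hwk⟩, ⟨v', hmem v' hvk⟩,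
      ⟨fun l => D₁ (v' l), hmem _ (hDk D₁ hD₁)⟩, ⟨fun l => D₂ (v' l), hmem _ (hDk D₂ hD₂)⟩]
    have hf : LinearIndependent ℂ f := by
      rw [Fintype.linearIndependent_iff]
      intro g hg
      have h1 : ∀ l, g 0 * w l + g 1 * v' l + g 2 * D₁ (v' l) + g 3 * D₂ (v' l) = 0 := by
        intro l
        have h2 := congrFun (congrArg Subtype.val hg) l
        rw [Fin.sum_univ_four] at h2
        exact h2
      have e0 : g 0 = 0 := by
        have h2 := h1 i₀
        rw [hw, hv'i, map_zero, map_zero] at h2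
        simpa using h2
      have e1 : g 1 = 0 := by
        have h2 := h1 l₀
        rw [hv'l, Derivation.map_one_eq_zero, Derivation.map_one_eq_zero, e0] at h2
        simpa using h2
      have e2 : g 2 = 0 := by
        have h2 := h1 p
        rw [h1p, h2p, e0, e1] at h2
        simpa using h2
      have e3 : g 3 = 0 := by
        have h2 := h1 q
        rw [h1q, h2q, e0, e1] at h2
        simpa using h2
      intro i
      fin_cases i
      · exact e0
      · exact e1
      · exact e2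
      · exact e3
    have h3 := hf.fintype_card_le_finrank
    have h4 : A.rank = r := by
      have h5 : LinearIndependent ℂ A.row := by
        rw [hAd]
        exact hS.smooth w hw0 hwF
      rw [h5.rank_matrix, Fintype.card_fin]
    have h6 := A.mulVecLin.finrank_range_add_finrank_ker
    rw [Module.finrank_fintype_fun_eq_card, Fintype.card_fin] at h6
    have h7 : Module.finrank ℂ (LinearMap.range A.mulVecLin) = r := h4
    rw [Fintype.card_fin] at h3
    omega
  obtain ⟨ρ, hρ⟩ := exists_par' key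
  refine ⟨ρ, β, v', hρ, fun l => ?_⟩
  rw [hv']
  field_simp
  ring

/-- no degenerate section -/
theorem tr_core (hd : ∀ i, 2 ≤ d i) (hF : ∀ i, (F i).IsHomogeneous (d i)) (k : Fl)
    (hind : AlgebraicIndependent k (fun m : MonA (r + 3) d => coeff m.1.2 (F m.1.1)))
    {E : Fl} (hKE : cof k F ≤ E) {ι : Type} [Fintype ι] [DecidableEq ι]
    (hι : Fintype.card ι = r + 1) {u : ι → Fin (r + 3) → ℂ} {j j' : ι} (hjj : j ≠ j') {L : Fl}
    (hEL : E ≤ L) (hu : ∀ i, i ≠ j → i ≠ j' → ∀ l, u i l ∈ L)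
    (hind2 : AlgebraicIndependent L (Sum.elim (u j) (u j'))) {c a : ι → ℂ}
    (hΔ : c j * a j' - c j' * a j ≠ 0) {w v : Fin (r + 3) → ℂ}
    (hw : ∀ l, w l = ∑ i, c i * u i l) (hv : ∀ l, v l = ∑ i, a i * u i l)
    (hwF : ∀ i, aeval w (F i) = 0)
    (hker : ∀ i, ∑ l, aeval w (pderiv l (F i)) * v l = 0) : False := by
  have hS : IsSmoothCI F d := ⟨hF, fun z hz h0 =>
    linInd_of_ai (fun i => one_le_two.trans (hd i)) hF hind hz h0⟩
  have hn : Fintype.card ι < r + 3 := by omega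
  have hw0 : ∃ i₀, w i₀ ≠ 0 := by
    by_contra hcon
    push Not at hcon
    refine tr_rel hu hind2 (e := c) ?_ (fun l => ?_) hn
    · by_contra h
      push Not at h
      apply hΔ
      rw [h.1, h.2]
      ring
    · rw [← hw l, hcon l]
  obtain ⟨i₀, hi₀⟩ := hw0
  obtain ⟨w', hw'⟩ : ∃ w' : Fin (r + 3) → ℂ, ∀ l, w' l = w l / w i₀ := ⟨_, fun _ => rfl⟩
  have hww : ∀ l, w l = w i₀ * w' l := by
    intro l
    rw [hw', mul_div_cancel₀ _ hi₀]
  have hw'i : w' i₀ = 1 := by rw [hw', div_self hi₀]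
  have hw'F : ∀ i, aeval w' (F i) = 0 := by
    intro i
    have h1 := aeval_scale (hF i) hww
    rw [hwF i] at h1
    exact (mul_eq_zero.1 h1.symm).resolve_left (pow_ne_zero _ hi₀)
  have hker' : ∀ i, ∑ l, aeval w' (pderiv l (F i)) * v l = 0 := by
    intro i
    have h1 := hker i
    have h2 : ∀ l, aeval w (pderiv l (F i)) * v l =
        w i₀ ^ (d i - 1) * (aeval w' (pderiv l (F i)) * v l) := by
      intro l
      rw [aeval_scale (hF i).pderiv hww]
      ring
    rw [Finset.sum_congr rfl fun l _ => h2 l, ← Finset.mul_sum] at h1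
    exact (mul_eq_zero.1 h1).resolve_left (pow_ne_zero _ hi₀)
  obtain ⟨t, ht⟩ := tr_two hF k hind hw'i hw'F
  obtain ⟨M, hM⟩ : ∃ M : Fl, M = clo (adj E (Set.range t)) := ⟨_, rfl⟩
  have hEM : E ≤ M := by
    rw [hM]
    exact (le_adj _ _).trans (le_clo _)
  have hw'M : ∀ l, w' l ∈ M := by
    intro l
    rw [hM]
    exact clo_mono (adj_le (hKE.trans (le_adj _ _)) fun x hx => subset_adj _ _ hx) (ht l)
  have hne : ∃ l, v l ≠ v i₀ * w' l := by
    by_contra hcon
    push Not at hcon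
    refine tr_rel hu hind2 (e := fun i => a i - v i₀ / w i₀ * c i) ?_ (fun l => ?_) hn
    · by_contra h
      push Not at h
      apply hΔ
      linear_combination c j * h.2 - c j' * h.1
    · have h1 : ∀ i, (a i - v i₀ / w i₀ * c i) * u i l =
          a i * u i l - v i₀ / w i₀ * (c i * u i l) := fun i => by ring
      rw [Finset.sum_congr rfl fun i _ => h1 i, Finset.sum_sub_distrib, ← Finset.mul_sum,
        ← hw l, ← hv l, hcon l, hww l]
      field_simp
      ring
  obtain ⟨ρ, β, v', hv'M, hv'⟩ := tr_ker hS (fun i => (coef_cof k F i).mono (hKE.trans hEM))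
    hw'M hw'i hw'F hker' hne
  obtain ⟨P, hP⟩ := tr_exch hjj hΔ (w' := w') (v' := v') (ξ := w i₀) (η := 0) hw hv
    (fun l => by rw [hww l]; ring) hv'
  obtain ⟨Q, hQ⟩ := tr_exch hjj.symm (j := j') (j' := j) (c := c) (a := a) (u := u)
    (fun h => hΔ (by linear_combination -h)) (w' := v') (v' := w') (ξ := 0) (η := w i₀)
    (α := β) (β := v i₀) hw hv (fun l => by rw [hww l]; ring) (fun l => by rw [hv' l]; ring)
  have hQ' : ∀ l, u j' l = ∑ i, Q i * (if i = j then w' else if i = j' then v' else u i) l := by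
    intro l
    rw [hQ l]
    refine Finset.sum_congr rfl fun i _ => ?_
    by_cases h1 : i = j
    · subst h1
      rw [if_neg hjj, if_pos rfl, if_pos rfl]
    · by_cases h2 : i = j'
      · subst h2
        rw [if_pos rfl, if_neg h1, if_pos rfl]
      · rw [if_neg h2, if_neg h1, if_neg h1, if_neg h2]
  refine tr_cnt2 hind2 (t := Sum.elim t (fun _ : Unit => ρ)) (fun i l => ?_) hP hQ' ?_
  · have hLt : L ≤ clo (adj L (Set.range (Sum.elim t (fun _ : Unit => ρ)))) :=
      (le_adj _ _).trans (le_clo _)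
    have htt : Set.range t ⊆ clo (adj L (Set.range (Sum.elim t (fun _ : Unit => ρ)))) := by
      rintro _ ⟨o, rfl⟩
      exact le_clo _ (subset_adj _ _ ⟨Sum.inl o, rfl⟩)
    by_cases h1 : i = j
    · rw [if_pos h1]
      exact clo_adj_le ((hKE.trans hEL).trans hLt) htt (ht l)
    · rw [if_neg h1]
      by_cases h2 : i = j'
      · rw [if_pos h2]
        refine clo_adj_le ?_ ?_ (hv'M l)
        · rw [hM]
          exact clo_adj_le (hEL.trans hLt) htt
        · rintro _ rfl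
          exact le_clo _ (subset_adj _ _ ⟨Sum.inr (), rfl⟩)
      · rw [if_neg h2]
        exact hLt (hu i h1 h2 l)
  · rw [Nat.card_sum, Nat.card_eq_fintype_card (α := Fin 2), Fintype.card_fin, hι]
    simp only [Nat.card_unique]
    omega

theorem tr_not_gen (hF : ∀ i, (F i).IsHomogeneous (d i)) {E : Fl} {w : Fin (r + 3) → ℂ}
    (hw : w ≠ 0) (hwF : ∀ i, aeval w (F i) = 0) (h : mkP w ∉ Gen E F) :
    ∃ (ξ : ℂ) (w' : Fin (r + 3) → ℂ) (t : ℂ), (∀ l, w l = ξ * w' l) ∧
      ∀ l, w' l ∈ clo (adj E {t}) := by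
  obtain ⟨i₀, hi₀⟩ := Function.ne_iff.1 hw
  rw [Pi.zero_apply] at hi₀
  obtain ⟨w', hw'⟩ : ∃ w' : Fin (r + 3) → ℂ, ∀ l, w' l = w l / w i₀ := ⟨_, fun _ => rfl⟩
  have hww : ∀ l, w l = w i₀ * w' l := by
    intro l
    rw [hw', mul_div_cancel₀ _ hi₀]
  have hw'i : w' i₀ = 1 := by rw [hw', div_self hi₀]
  have hw'0 : w' ≠ 0 := by
    intro h1
    rw [h1] at hw'i
    exact zero_ne_one hw'i
  have hw'F : ∀ i, aeval w' (F i) = 0 := by
    intro i
    have h1 := aeval_scale (hF i) hww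
    rw [hwF i] at h1
    exact (mul_eq_zero.1 h1.symm).resolve_left (pow_ne_zero _ hi₀)
  have h1 : ∀ j l, ¬ AlgebraicIndependent E ![w' j, w' l] := by
    intro j l h2
    apply h
    rw [mkP_eq hw, mk_eq_mk_of_mul hw hw'0 hww]
    exact gen_mk hF hw'0 hw'i hw'F h2
  obtain ⟨t, ht⟩ := exists_par' h1
  exact ⟨w i₀, w', t, hww, ht⟩

/-- `X` does not meet the span of `b_1, …, b_r` -/
theorem sec_empty (hd : ∀ i, 2 ≤ d i) (hF : ∀ i, (F i).IsHomogeneous (d i)) (k : Fl)
    [Countable k]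
    (hind : AlgebraicIndependent k (fun m : MonA (r + 3) d => coeff m.1.2 (F m.1.1)))
    (E : Fl) [Countable E] (hKE : cof k F ≤ E) {b : Fin r → Fin (r + 3) → ℂ}
    (hb : AlgebraicIndependent E fun jl : Fin r × Fin (r + 3) => b jl.1 jl.2)
    {c : Fin r → ℂ} (hc : c ≠ 0) : ∃ i, aeval (vec 0 b c) (F i) ≠ 0 := by
  classical
  by_contra hcon
  push Not at hcon
  obtain ⟨j₀, hj₀⟩ := Function.ne_iff.1 hc
  rw [Pi.zero_apply] at hj₀
  have hspl := tr_split1 hb j₀
  have hu : ∀ i, i ≠ j₀ → ∀ l, b i l ∈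
      adj E (Set.range fun p : {i : Fin r // i ≠ j₀} × Fin (r + 3) => b p.1 p.2) :=
    fun i hi l => subset_adj _ _ ⟨(⟨i, hi⟩, l), rfl⟩
  have hw : ∀ l, vec 0 b c l = ∑ i, c i * b i l := fun l => zero_add _
  by_cases hw0 : vec 0 b c = 0
  · refine tr_cnt1 hu hspl hj₀ (w := vec 0 b c) (w' := 0) (ξ := 0) hw (fun l => ?_)
      (t := fun i : Empty => i.elim) (fun l => zero_mem _) ?_
    · rw [hw0]
      simp
    · simp
  · obtain ⟨i₀, hi₀⟩ := Function.ne_iff.1 hw0
    rw [Pi.zero_apply] at hi₀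
    obtain ⟨w', hw'⟩ : ∃ w' : Fin (r + 3) → ℂ, ∀ l, w' l = vec 0 b c l / vec 0 b c i₀ :=
      ⟨_, fun _ => rfl⟩
    have hww : ∀ l, vec 0 b c l = vec 0 b c i₀ * w' l := by
      intro l
      rw [hw', mul_div_cancel₀ _ hi₀]
    have hw'i : w' i₀ = 1 := by rw [hw', div_self hi₀]
    have hw'F : ∀ i, aeval w' (F i) = 0 := by
      intro i
      have h1 := aeval_scale (hF i) hww
      rw [hcon i] at h1
      exact (mul_eq_zero.1 h1.symm).resolve_left (pow_ne_zero _ hi₀)
    obtain ⟨t, ht⟩ := tr_two hF k hind hw'i hw'F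
    refine tr_cnt1 hu hspl hj₀ hw hww (t := t) (fun l => ?_) ?_
    · exact clo_mono (adj_le ((hKE.trans (le_adj _ _)).trans (le_adj _ _))
        fun x hx => subset_adj _ _ hx) (ht l)
    · rw [Nat.card_eq_fintype_card, Fintype.card_fin, Fintype.card_fin]
      omega

/-- the points other than `x` are generic over `E` -/
theorem sec_gen (hd : ∀ i, 2 ≤ d i) (hF : ∀ i, (F i).IsHomogeneous (d i)) (k : Fl)
    [Countable k]
    (hind : AlgebraicIndependent k (fun m : MonA (r + 3) d => coeff m.1.2 (F m.1.1)))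
    (E : Fl) [Countable E] (hE : clo E = E) (hKE : cof k F ≤ E) {x : Fin (r + 3) → ℂ}
    (hx : ∀ l, x l ∈ E) {b : Fin r → Fin (r + 3) → ℂ}
    (hb : AlgebraicIndependent E fun jl : Fin r × Fin (r + 3) => b jl.1 jl.2)
    {c : Fin r → ℂ} (hc : c ∈ SecC F x b) (hc0 : c ≠ 0) : mkP (vec x b c) ∈ Gen E F := by
  classical
  by_contra hcon
  obtain ⟨j₀, hj₀⟩ := Function.ne_iff.1 hc0
  rw [Pi.zero_apply] at hj₀
  have hspl := tr_split1 hb j₀
  have hu : ∀ i : Option (Fin r), i ≠ some j₀ → ∀ l, (i.elim x b : Fin (r + 3) → ℂ) l ∈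
      adj E (Set.range fun p : {i : Fin r // i ≠ j₀} × Fin (r + 3) => b p.1 p.2) := by
    intro i hi l
    cases i with
    | none => exact le_adj _ _ (hx l)
    | some i => exact subset_adj _ _ ⟨(⟨i, fun h => hi (by rw [h])⟩, l), rfl⟩
  have hw : ∀ l, vec x b c l =
      ∑ i : Option (Fin r), (i.elim 1 c : ℂ) * (i.elim x b : Fin (r + 3) → ℂ) l := by
    intro l
    rw [Fintype.sum_option]
    change x l + ∑ j, c j * b j l = 1 * x l + ∑ j, c j * b j l
    rw [one_mul]
  have hw0 : vec x b c ≠ 0 := by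
    intro hw0
    refine tr_cnt1 (u := fun i : Option (Fin r) => i.elim x b) (j := some j₀) hu hspl
      (c := fun i => i.elim 1 c) hj₀ (w := vec x b c) (w' := 0) (ξ := 0) hw (fun l => ?_)
      (t := fun i : Empty => i.elim) (fun l => zero_mem _) ?_
    · rw [hw0]
      simp
    · simp
  obtain ⟨ξ, w', t, h1, h2⟩ := tr_not_gen hF hw0 hc hcon
  refine tr_cnt1 (u := fun i : Option (Fin r) => i.elim x b) (j := some j₀) hu hspl
    (c := fun i => i.elim 1 c) hj₀ hw h1 (t := fun _ : Unit => t) (fun l => ?_) ?_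
  · refine clo_mono (adj_le ((le_adj _ _).trans (le_adj _ _)) ?_) (h2 l)
    rintro _ rfl
    exact subset_adj _ _ ⟨(), rfl⟩
  · simp only [Nat.card_unique, Fintype.card_option, Fintype.card_fin]
    omega

theorem tr_opt {E : Fl} {b₀ : Fin (r + 3) → ℂ} {b : Fin r → Fin (r + 3) → ℂ}
    (hb : AlgebraicIndependent E (Sum.elim b₀ fun jl : Fin r × Fin (r + 3) => b jl.1 jl.2)) :
    AlgebraicIndependent E fun p : Option (Fin r) × Fin (r + 3) =>
      (p.1.elim b₀ b : Fin (r + 3) → ℂ) p.2 := by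
  let f : Option (Fin r) × Fin (r + 3) → Fin (r + 3) ⊕ (Fin r × Fin (r + 3)) := fun p =>
    p.1.elim (Sum.inl p.2) (fun j => Sum.inr (j, p.2))
  have hf : Function.Injective f := by
    rintro ⟨_ | i, l⟩ ⟨_ | i', l'⟩ h
    · have h2 : l = l' := Sum.inl.inj h
      rw [h2]
    · exact absurd h Sum.inl_ne_inr
    · exact absurd h Sum.inr_ne_inl
    · obtain ⟨rfl, rfl⟩ := Prod.mk.inj (Sum.inr.inj h)
      rfl
  have h1 := hb.comp f hf
  convert h1 using 1
  funext p
  obtain ⟨_ | i, l⟩ := p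
  · rfl
  · rfl

theorem tr_vec (x : Fin (r + 3) → ℂ) (b : Fin r → Fin (r + 3) → ℂ) (c : Fin r → ℂ)
    (l : Fin (r + 3)) : vec x b c l =
      ∑ i : Option (Fin r), (i.elim 1 c : ℂ) * (i.elim x b : Fin (r + 3) → ℂ) l := by
  rw [Fintype.sum_option]
  change x l + ∑ j, c j * b j l = 1 * x l + ∑ j, c j * b j l
  rw [one_mul]

/-- the same for the span of `b₀, b_1, …, b_r` -/
theorem sec_gen0 (hd : ∀ i, 2 ≤ d i) (hF : ∀ i, (F i).IsHomogeneous (d i)) (k : Fl)
    [Countable k]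
    (hind : AlgebraicIndependent k (fun m : MonA (r + 3) d => coeff m.1.2 (F m.1.1)))
    (E : Fl) [Countable E] (hE : clo E = E) (hKE : cof k F ≤ E)
    {b₀ : Fin (r + 3) → ℂ} {b : Fin r → Fin (r + 3) → ℂ}
    (hb : AlgebraicIndependent E (Sum.elim b₀ fun jl : Fin r × Fin (r + 3) => b jl.1 jl.2))
    {c : Fin r → ℂ} (hc : c ∈ SecC F b₀ b) : mkP (vec b₀ b c) ∈ Gen E F := by
  classical
  by_contra hcon
  have hspl := tr_split1 (u := fun i : Option (Fin r) => i.elim b₀ b) (tr_opt hb) none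
  have hu : ∀ i : Option (Fin r), i ≠ none → ∀ l, (i.elim b₀ b : Fin (r + 3) → ℂ) l ∈
      adj E (Set.range fun p : {i : Option (Fin r) // i ≠ none} × Fin (r + 3) =>
        (p.1.1.elim b₀ b : Fin (r + 3) → ℂ) p.2) :=
    fun i hi l => subset_adj _ _ ⟨(⟨i, hi⟩, l), rfl⟩
  have hw0 : vec b₀ b c ≠ 0 := by
    intro hw0
    refine tr_cnt1 (u := fun i : Option (Fin r) => i.elim b₀ b) (j := none) hu hspl
      (c := fun i => i.elim 1 c) one_ne_zero (w := vec b₀ b c) (w' := 0) (ξ := 0)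
      (tr_vec b₀ b c) (fun l => ?_) (t := fun i : Empty => i.elim) (fun l => zero_mem _) ?_
    · rw [hw0]
      simp
    · simp
  obtain ⟨ξ, w', t, h1, h2⟩ := tr_not_gen hF hw0 hc hcon
  refine tr_cnt1 (u := fun i : Option (Fin r) => i.elim b₀ b) (j := none) hu hspl
    (c := fun i => i.elim 1 c) one_ne_zero (tr_vec b₀ b c) h1 (t := fun _ : Unit => t)
    (fun l => ?_) ?_
  · refine clo_mono (adj_le ((le_adj _ _).trans (le_adj _ _)) ?_) (h2 l)
    rintro _ rfl
    exact subset_adj _ _ ⟨(), rfl⟩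
  · simp only [Nat.card_unique, Fintype.card_option, Fintype.card_fin]
    omega

/-- a kernel vector of the Jacobian matrix -/
theorem tr_jac {w : Fin (r + 3) → ℂ} {b : Fin r → Fin (r + 3) → ℂ}
    (h : (jacM F w b).det = 0) : ∃ a : Fin r → ℂ, a ≠ 0 ∧
      ∀ i, ∑ l, aeval w (pderiv l (F i)) * (∑ j, a j * b j l) = 0 := by
  obtain ⟨a, ha, h1⟩ := Matrix.exists_mulVec_eq_zero_iff.2 h
  refine ⟨a, ha, fun i => ?_⟩
  have h2 := congrFun h1 i
  rw [Pi.zero_apply, Matrix.mulVec, dotProduct] at h2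
  simp only [jacM, Matrix.of_apply] at h2
  rw [← h2]
  simp only [Finset.mul_sum, Finset.sum_mul]
  rw [Finset.sum_comm]
  exact Finset.sum_congr rfl fun j _ => Finset.sum_congr rfl fun l _ => by ring

/-- `X` and the span of `x, b_1, …, b_r` are transversal -/
theorem sec_tra (hd : ∀ i, 2 ≤ d i) (hF : ∀ i, (F i).IsHomogeneous (d i)) (k : Fl)
    [Countable k]
    (hind : AlgebraicIndependent k (fun m : MonA (r + 3) d => coeff m.1.2 (F m.1.1)))
    (hr : 0 < r) (E : Fl) [Countable E] (hE : clo E = E) (hKE : cof k F ≤ E)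
    {x : Fin (r + 3) → ℂ} (hx : ∀ l, x l ∈ E) (hx0 : x ≠ 0) (hxF : ∀ i, aeval x (F i) = 0)
    {b : Fin r → Fin (r + 3) → ℂ}
    (hb : AlgebraicIndependent E fun jl : Fin r × Fin (r + 3) => b jl.1 jl.2)
    {c : Fin r → ℂ} (hc : c ∈ SecC F x b) : (jacM F (vec x b c) b).det ≠ 0 := by
  classical
  have hS : IsSmoothCI F d := ⟨hF, fun z hz h0 =>
    linInd_of_ai (fun i => one_le_two.trans (hd i)) hF hind hz h0⟩
  by_cases hc0 : c = 0
  · have h1 : vec x b c = x := by
      funext l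
      rw [vec, hc0]
      simp
    rw [h1]
    exact jac_ne (fun i => (coef_cof k F i).mono hKE) hx (hS.smooth x hx0 hxF) hb
  intro hdet
  obtain ⟨a, ha, hker⟩ := tr_jac hdet
  have hgen := sec_gen hd hF k hind E hE hKE hx hb hc hc0
  obtain ⟨w, hwd⟩ : ∃ w, w = vec x b c := ⟨_, rfl⟩
  obtain ⟨v, hvd⟩ : ∃ v : Fin (r + 3) → ℂ, ∀ l, v l = ∑ j, a j * b j l := ⟨_, fun _ => rfl⟩
  have hwF : ∀ i, aeval w (F i) = 0 := by
    intro i
    rw [hwd]
    exact hc i
  rw [← hwd] at hker hgen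
  have hker : ∀ i, ∑ l, aeval w (pderiv l (F i)) * v l = 0 := by
    intro i
    rw [← hker i]
    exact Finset.sum_congr rfl fun l _ => by rw [hvd]
  have hmin : ∃ j j', c j * a j' - c j' * a j ≠ 0 := by
    by_contra hcon
    push Not at hcon
    obtain ⟨j₁, hj₁⟩ := Function.ne_iff.1 ha
    rw [Pi.zero_apply] at hj₁
    have h1 : ∀ l, w l = x l + c j₁ / a j₁ * v l := by
      intro l
      rw [hwd, vec, hvd, Finset.mul_sum]
      congr 1
      refine Finset.sum_congr rfl fun j _ => ?_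
      have h2 : c j = c j₁ / a j₁ * a j := by
        field_simp
        linear_combination hcon j j₁
      rw [h2]
      ring
    have hw0 : w ≠ 0 := by
      intro h2
      rw [h2] at hgen
      obtain ⟨-, i, j, l, -, h3⟩ := hgen
      have h4 : (mkP (0 : Fin (r + 3) → ℂ)) =
          Projectivization.mk ℂ (fun _ : Fin (r + 3) => (1 : ℂ)) (by
            intro h
            have := congrFun h 0
            simp at this) := by
        unfold mkP
        congr 1
        simp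
      rw [h4, rep_mk_div, rep_mk_div] at h3
      exact (ai_pair.1 h3).1 (by simp)
    obtain ⟨i₀, hi₀⟩ := Function.ne_iff.1 hw0
    rw [Pi.zero_apply] at hi₀
    obtain ⟨w', hw'⟩ : ∃ w' : Fin (r + 3) → ℂ, ∀ l, w' l = w l / w i₀ := ⟨_, fun _ => rfl⟩
    have hww : ∀ l, w l = w i₀ * w' l := by
      intro l
      rw [hw', mul_div_cancel₀ _ hi₀]
    have hw'i : w' i₀ = 1 := by rw [hw', div_self hi₀]
    have hw'0 : w' ≠ 0 := by
      intro h1
      rw [h1] at hw'i
      exact zero_ne_one hw'i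
    have hw'F : ∀ i, aeval w' (F i) = 0 := by
      intro i
      have h1 := aeval_scale (hF i) hww
      rw [hwF i] at h1
      exact (mul_eq_zero.1 h1.symm).resolve_left (pow_ne_zero _ hi₀)
    rw [mkP_eq hw0, mk_eq_mk_of_mul hw0 hw'0 hww] at hgen
    obtain ⟨j, l, hjl⟩ := gen_coord hF hw'0 hw'i hgen
    obtain ⟨s, hs⟩ := not_cone hd hF k hind hr E hE hKE hx hx0 hxF hw'F hw'i hjl
    apply hs
    have h2 : ∀ l, x l * aeval w' (pderiv l (F s)) = w i₀ * (w' l * aeval w' (pderiv l (F s))) -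
        c j₁ / a j₁ * (aeval w' (pderiv l (F s)) * v l) := by
      intro l
      have h3 := h1 l
      rw [hww l] at h3
      linear_combination (-aeval w' (pderiv l (F s))) * h3
    have h4 : ∑ l, aeval w' (pderiv l (F s)) * v l = 0 := by
      have h5 := hker s
      have h6 : ∀ l, aeval w (pderiv l (F s)) * v l =
          w i₀ ^ (d s - 1) * (aeval w' (pderiv l (F s)) * v l) := by
        intro l
        rw [aeval_scale (hF s).pderiv hww]
        ring
      rw [Finset.sum_congr rfl fun l _ => h6 l, ← Finset.mul_sum] at h5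
      exact (mul_eq_zero.1 h5).resolve_left (pow_ne_zero _ hi₀)
    have h7 := dFc_self hS hw'F s
    rw [dFc] at h7
    rw [dFc, Finset.sum_congr rfl fun l _ => h2 l, Finset.sum_sub_distrib, ← Finset.mul_sum,
      ← Finset.mul_sum, h7, h4]
    ring
  obtain ⟨j, j', hΔ⟩ := hmin
  have hjj : j ≠ j' := by
    rintro rfl
    apply hΔ
    ring
  refine tr_core hd hF k hind hKE (ι := Option (Fin r)) (by simp)
    (u := fun i => i.elim x b) (j := some j) (j' := some j') (by simpa using hjj)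
    (L := adj E (Set.range fun p : {i : Fin r // i ≠ j ∧ i ≠ j'} × Fin (r + 3) => b p.1 p.2))
    (le_adj _ _) ?_ (tr_split2 hb hjj) (c := fun i => i.elim 1 c) (a := fun i => i.elim 0 a) hΔ
    (w := w) (v := v) (fun l => by rw [hwd]; exact tr_vec x b c l) (fun l => ?_) hwF hker
  · intro i h1 h2 l
    cases i with
    | none => exact le_adj _ _ (hx l)
    | some i => exact subset_adj _ _ ⟨(⟨i, fun h => h1 (by rw [h]), fun h => h2 (by rw [h])⟩, l),
        rfl⟩
  · rw [Fintype.sum_option, hvd]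
    change _ = 0 * x l + ∑ j, a j * b j l
    rw [zero_mul, zero_add]

theorem sec_tra0 (hd : ∀ i, 2 ≤ d i) (hF : ∀ i, (F i).IsHomogeneous (d i)) (k : Fl)
    [Countable k]
    (hind : AlgebraicIndependent k (fun m : MonA (r + 3) d => coeff m.1.2 (F m.1.1)))
    (hr : 0 < r) (E : Fl) [Countable E] (hE : clo E = E) (hKE : cof k F ≤ E)
    {b₀ : Fin (r + 3) → ℂ} {b : Fin r → Fin (r + 3) → ℂ}
    (hb : AlgebraicIndependent E (Sum.elim b₀ fun jl : Fin r × Fin (r + 3) => b jl.1 jl.2))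
    {c : Fin r → ℂ} (hc : c ∈ SecC F b₀ b) : (jacM F (vec b₀ b c) b).det ≠ 0 := by
  classical
  intro hdet
  obtain ⟨a, ha, hker⟩ := tr_jac hdet
  obtain ⟨j, hj⟩ := Function.ne_iff.1 ha
  rw [Pi.zero_apply] at hj
  refine tr_core hd hF k hind hKE (ι := Option (Fin r)) (by simp)
    (u := fun i => i.elim b₀ b) (j := none) (j' := some j) (by simp)
    (L := adj E (Set.range fun p : {i : Option (Fin r) // i ≠ none ∧ i ≠ some j} ×
      Fin (r + 3) => (p.1.1.elim b₀ b : Fin (r + 3) → ℂ) p.2))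
    (le_adj _ _) ?_ (tr_split2 (u := fun i : Option (Fin r) => i.elim b₀ b) (tr_opt hb)
      (by simp)) (c := fun i => i.elim 1 c) (a := fun i => i.elim 0 a) ?_
    (w := vec b₀ b c) (v := fun l => ∑ j, a j * b j l) (tr_vec b₀ b c) (fun l => ?_) hc hker
  · intro i h1 h2 l
    exact subset_adj _ _ ⟨(⟨i, h1, h2⟩, l), rfl⟩
  · change 1 * a j - c j * 0 ≠ 0
    rw [one_mul, mul_zero, sub_zero]
    exact hj
  · rw [Fintype.sum_option]
    change _ = 0 * b₀ l + ∑ j, a j * b j l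
    rw [zero_mul, zero_add]

end

end Pool.Agent.VCI
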